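import Pool.Agent.Lib.MP_2794d1_ag.Base

/-!
A01: sums. For x : (κ1, C1, m1, A1, w1) and y : (κ2, C2, m2, A2, w2) use the index type κ1 × κ2, the integer
matrix m2 • (A1 ⊗ 1) + m1 • (1 ⊗ A2), the vector w1 ⊗ w2 (w (a,b) = w1 a * w2 b, nonzero), m = m1 * m2 and
C = m2*C1 + m1*C2 + C1 + C2 (use 1 ≤ H to compare powers). All choices except A, w are uniform in i.
-/

namespace MP2794d1

open Matrix Complex Filter Topology

theorem A01_pow_le {h : ℝ} (hh : 1 ≤ h) {a C D : ℕ} (ha : a ≤ D) (hC : C ≤ D) :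
    (a : ℝ) * h ^ C ≤ D * h ^ D := by
  have h1 : (a : ℝ) ≤ D := by exact_mod_cast ha
  have h2 : h ^ C ≤ h ^ D := pow_le_pow_right₀ hh hC
  exact mul_le_mul h1 h2 (by positivity) (by positivity)

theorem AlgFam.add {I : Type} {H : I → ℝ} (hH : ∀ i, 1 ≤ H i) {x y : I → ℂ}
    (hx : AlgFam H x) (hy : AlgFam H y) : AlgFam H (x + y) := by
  classical
  obtain ⟨κ1, _, C1, m1, hm1, h1⟩ := hx
  obtain ⟨κ2, _, C2, m2, hm2, h2⟩ := hy
  refine ⟨κ1 × κ2, inferInstance, m2 * C1 + m1 * C2 + C1 + C2, m1 * m2, Nat.mul_pos hm1 hm2,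
    fun i => ?_⟩
  obtain ⟨A1, w1, hw1, e1, b1⟩ := h1 i
  obtain ⟨A2, w2, hw2, e2, b2⟩ := h2 i
  refine ⟨fun p q => m2 * (A1 p.1 q.1 * (if p.2 = q.2 then 1 else 0)) +
    m1 * ((if p.1 = q.1 then 1 else 0) * A2 p.2 q.2), fun p => w1 p.1 * w2 p.2, ?_, ?_, ?_⟩
  · obtain ⟨a, ha⟩ : ∃ a, w1 a ≠ 0 := by
      by_contra hcon
      push Not at hcon
      exact hw1 (funext hcon)
    obtain ⟨b, hb⟩ : ∃ b, w2 b ≠ 0 := by
      by_contra hcon
      push Not at hcon
      exact hw2 (funext hcon)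
    intro h0
    exact mul_ne_zero ha hb (congrFun h0 (a, b))
  · funext p
    obtain ⟨a, b⟩ := p
    have f1 := congrFun e1 a
    have f2 := congrFun e2 b
    simp only [mulVec, dotProduct, Matrix.map_apply, Pi.smul_apply, smul_eq_mul] at f1 f2
    simp only [mulVec, dotProduct, Matrix.map_apply, Pi.smul_apply, smul_eq_mul,
      Fintype.sum_prod_type, Pi.add_apply]
    have g1 : ∀ a' : κ1, (∑ b' : κ2, (((m2 * (A1 a a' * (if b = b' then 1 else 0)) +
        m1 * ((if a = a' then 1 else 0) * A2 b b') : ℤ)) : ℂ) * (w1 a' * w2 b')) =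
        m2 * ((A1 a a' : ℂ) * w1 a') * w2 b +
          (if a = a' then (m1 : ℂ) * w1 a' * ∑ b', (A2 b b' : ℂ) * w2 b' else 0) := by
      intro a'
      have g2 : ∀ b' : κ2, (((m2 * (A1 a a' * (if b = b' then 1 else 0)) +
          m1 * ((if a = a' then 1 else 0) * A2 b b') : ℤ)) : ℂ) * (w1 a' * w2 b') =
          (if b = b' then m2 * ((A1 a a' : ℂ) * w1 a') * w2 b' else 0) +
          (if a = a' then (m1 : ℂ) * w1 a' * ((A2 b b' : ℂ) * w2 b') else 0) := by
        intro b'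
        split_ifs <;> push_cast <;> ring
      rw [Finset.sum_congr rfl fun b' _ => g2 b', Finset.sum_add_distrib,
        Finset.sum_ite_eq Finset.univ b]
      simp only [Finset.mem_univ, if_true]
      congr 1
      split_ifs
      · rw [Finset.mul_sum]
      · simp
    rw [Finset.sum_congr rfl fun a' _ => g1 a', Finset.sum_add_distrib,
      Finset.sum_ite_eq Finset.univ a]
    simp only [Finset.mem_univ, if_true]
    rw [← Finset.sum_mul, ← Finset.mul_sum, f1, f2]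
    push_cast
    ring
  · rintro ⟨a, b⟩ ⟨a', b'⟩
    have hh := hH i
    have k1 := b1 a a'
    have k2 := b2 b b'
    push_cast
    have n1 : |(m2 : ℝ) * ((A1 a a' : ℝ) * (if b = b' then 1 else 0))| ≤
        ((m2 * C1 : ℕ) : ℝ) * H i ^ (m2 * C1 + m1 * C2 + C1 + C2) := by
      rw [abs_mul, abs_mul, Nat.abs_cast]
      have t1 : |(if b = b' then (1 : ℝ) else 0)| ≤ 1 := by split_ifs <;> simp
      have t2 : H i ^ C1 ≤ H i ^ (m2 * C1 + m1 * C2 + C1 + C2) :=
        pow_le_pow_right₀ hh (by omega)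
      calc (m2 : ℝ) * (|(A1 a a' : ℝ)| * |(if b = b' then (1 : ℝ) else 0)|) ≤
          (m2 : ℝ) * ((C1 * H i ^ C1) * 1) := by
            refine mul_le_mul_of_nonneg_left ?_ (by positivity)
            exact mul_le_mul k1 t1 (abs_nonneg _) (by positivity)
        _ = ((m2 * C1 : ℕ) : ℝ) * H i ^ C1 := by push_cast; ring
        _ ≤ _ := mul_le_mul_of_nonneg_left t2 (by positivity)
    have n2 : |(m1 : ℝ) * ((if a = a' then 1 else 0) * (A2 b b' : ℝ))| ≤
        ((m1 * C2 : ℕ) : ℝ) * H i ^ (m2 * C1 + m1 * C2 + C1 + C2) := by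
      rw [abs_mul, abs_mul, Nat.abs_cast]
      have t1 : |(if a = a' then (1 : ℝ) else 0)| ≤ 1 := by split_ifs <;> simp
      have t2 : H i ^ C2 ≤ H i ^ (m2 * C1 + m1 * C2 + C1 + C2) :=
        pow_le_pow_right₀ hh (by omega)
      calc (m1 : ℝ) * (|(if a = a' then (1 : ℝ) else 0)| * |(A2 b b' : ℝ)|) ≤
          (m1 : ℝ) * (1 * (C2 * H i ^ C2)) := by
            refine mul_le_mul_of_nonneg_left ?_ (by positivity)
            exact mul_le_mul t1 k2 (abs_nonneg _) (by norm_num)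
        _ = ((m1 * C2 : ℕ) : ℝ) * H i ^ C2 := by push_cast; ring
        _ ≤ _ := mul_le_mul_of_nonneg_left t2 (by positivity)
    refine (abs_add_le _ _).trans ((add_le_add n1 n2).trans ?_)
    rw [← add_mul]
    refine mul_le_mul_of_nonneg_right ?_ (by positivity)
    push_cast
    have : (0 : ℝ) ≤ C1 := by positivity
    have : (0 : ℝ) ≤ C2 := by positivity
    linarith

end MP2794d1
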