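import Pool.Agent.Lib.MP_2794d1_ag.Base

/-!
A02: products. Kronecker product A1 ⊗ A2, w1 ⊗ w2, m = m1 * m2, C = C1*C2 + C1 + C2.
-/

namespace MP2794d1

open Matrix Complex Filter Topology

theorem AlgFam.mul {I : Type} {H : I → ℝ} (hH : ∀ i, 1 ≤ H i) {x y : I → ℂ}
    (hx : AlgFam H x) (hy : AlgFam H y) : AlgFam H (x * y) := by
  obtain ⟨κ1, _, C1, m1, hm1, h1⟩ := hx
  obtain ⟨κ2, _, C2, m2, hm2, h2⟩ := hy
  refine ⟨κ1 × κ2, inferInstance, C1 * C2 + C1 + C2, m1 * m2, Nat.mul_pos hm1 hm2,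
    fun i => ?_⟩
  obtain ⟨A1, w1, hw1, e1, b1⟩ := h1 i
  obtain ⟨A2, w2, hw2, e2, b2⟩ := h2 i
  refine ⟨fun p q => A1 p.1 q.1 * A2 p.2 q.2, fun p => w1 p.1 * w2 p.2, ?_, ?_, ?_⟩
  · obtain ⟨a, ha⟩ : ∃ a, w1 a ≠ 0 := by
      by_contra hcon
      push Not at hcon
      exact hw1 (funext hcon)
    obtain ⟨b, hb⟩ : ∃ b, w2 b ≠ 0 := by
      by_contra hcon
      push Not at hcon
      exact hw2 (funext hcon)
    intro h0
    exact mul_ne_zero ha hb (congrFun h0 (a, b))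
  · funext p
    obtain ⟨a, b⟩ := p
    have f1 := congrFun e1 a
    have f2 := congrFun e2 b
    simp only [mulVec, dotProduct, Matrix.map_apply, Pi.smul_apply, smul_eq_mul] at f1 f2
    simp only [mulVec, dotProduct, Matrix.map_apply, Pi.smul_apply, smul_eq_mul,
      Fintype.sum_prod_type, Pi.mul_apply]
    have g : ∀ a' : κ1, ∑ b' : κ2, ((A1 a a' * A2 b b' : ℤ) : ℂ) * (w1 a' * w2 b') =
        ((A1 a a' : ℂ) * w1 a') * ∑ b', (A2 b b' : ℂ) * w2 b' := by
      intro a'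
      rw [Finset.mul_sum]
      refine Finset.sum_congr rfl fun b' _ => ?_
      push_cast
      ring
    rw [Finset.sum_congr rfl fun a' _ => g a', ← Finset.sum_mul, f1, f2]
    push_cast
    ring
  · rintro ⟨a, b⟩ ⟨a', b'⟩
    have hh := hH i
    have k1 := b1 a a'
    have k2 := b2 b b'
    push_cast
    rw [abs_mul]
    have t : H i ^ (C1 + C2) ≤ H i ^ (C1 * C2 + C1 + C2) := pow_le_pow_right₀ hh (by omega)
    calc |(A1 a a' : ℝ)| * |(A2 b b' : ℝ)| ≤ (C1 * H i ^ C1) * (C2 * H i ^ C2) :=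
          mul_le_mul k1 k2 (abs_nonneg _) (by positivity)
      _ = ((C1 : ℝ) * C2) * H i ^ (C1 + C2) := by ring
      _ ≤ ((C1 : ℝ) * C2 + C1 + C2) * H i ^ (C1 * C2 + C1 + C2) := by
          refine mul_le_mul ?_ t (by positivity) (by positivity)
          have : (0 : ℝ) ≤ C1 := by positivity
          have : (0 : ℝ) ≤ C2 := by positivity
          linarith

end MP2794d1
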