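import Pool.Agent.Lib.MP_2794d1_ag.Base

/-!
A03: simple members. const: κ = Unit, m = q.den, A = !![q.num], C = |q.num| (natAbs) + 1. int: κ = Unit, m = 1,
A = !![x i], C = 1. eigen: κ = Fin n, m = 1, C = 1. mono/comp: immediate (powers are monotone for 1 ≤ H).
-/

namespace MP2794d1

open Matrix Complex Filter Topology

theorem AlgFam.const {I : Type} {H : I → ℝ} (hH : ∀ i, 1 ≤ H i) (q : ℚ) :
    AlgFam H (fun _ => (q : ℂ)) := by
  refine ⟨Unit, inferInstance, q.num.natAbs, q.den, q.den_pos, fun i => ?_⟩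
  refine ⟨fun _ _ => q.num, fun _ => 1, ?_, ?_, ?_⟩
  · intro h0
    exact one_ne_zero (congrFun h0 ())
  · funext p
    simp only [mulVec, dotProduct, Matrix.map_apply, Pi.smul_apply, smul_eq_mul, mul_one,
      Finset.univ_unique, Finset.sum_singleton]
    have h1 : (q.den : ℚ) * q = q.num := Rat.den_mul_eq_num q
    have h2 := congrArg (fun t : ℚ => (t : ℂ)) h1
    push_cast at h2
    exact h2.symm
  · intro _ _
    have h1 : (1 : ℝ) ≤ H i ^ q.num.natAbs := one_le_pow₀ (hH i)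
    have h2 : |(q.num : ℝ)| = (q.num.natAbs : ℝ) := by
      rw [Nat.cast_natAbs]
      push_cast
      rfl
    rw [h2]
    exact le_mul_of_one_le_right (by positivity) h1

theorem AlgFam.int {I : Type} {H : I → ℝ} (hH : ∀ i, 1 ≤ H i) (x : I → ℤ)
    (hx : ∀ i, |(x i : ℝ)| ≤ H i) : AlgFam H (fun i => (x i : ℂ)) := by
  refine ⟨Unit, inferInstance, 1, 1, one_pos, fun i => ?_⟩
  refine ⟨fun _ _ => x i, fun _ => 1, ?_, ?_, ?_⟩
  · intro h0
    exact one_ne_zero (congrFun h0 ())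
  · funext p
    simp [mulVec, dotProduct]
  · intro _ _
    simpa using hx i

theorem AlgFam.eigen {I : Type} {n : ℕ} {H : I → ℝ} (hH : ∀ i, 1 ≤ H i)
    (A : I → Matrix (Fin n) (Fin n) ℤ) (hA : ∀ i a b, |(A i a b : ℝ)| ≤ H i) (e : I → ℂ)
    (he : ∀ i, ∃ w : Fin n → ℂ, w ≠ 0 ∧ im (A i) *ᵥ w = e i • w) : AlgFam H e := by
  refine ⟨Fin n, inferInstance, 1, 1, one_pos, fun i => ?_⟩
  obtain ⟨w, hw, h⟩ := he i
  refine ⟨A i, w, hw, ?_, fun a b => by simpa using hA i a b⟩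
  rw [Nat.cast_one, one_mul]
  exact h

theorem AlgFam.mono {I : Type} {H H' : I → ℝ} (hH : ∀ i, 1 ≤ H i) (hHH : ∀ i, H i ≤ H' i)
    {x : I → ℂ} (hx : AlgFam H x) : AlgFam H' x := by
  obtain ⟨κ, _, C, m, hm, h⟩ := hx
  refine ⟨κ, inferInstance, C, m, hm, fun i => ?_⟩
  obtain ⟨A, w, hw, e, b⟩ := h i
  refine ⟨A, w, hw, e, fun a a' => (b a a').trans ?_⟩
  have h0 := hH i
  exact mul_le_mul_of_nonneg_left (pow_le_pow_left₀ (by linarith) (hHH i) C) (by positivity)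

theorem AlgFam.comp {I J : Type} {H : I → ℝ} {x : I → ℂ} (hx : AlgFam H x) (φ : J → I) :
    AlgFam (H ∘ φ) (x ∘ φ) := by
  obtain ⟨κ, _, C, m, hm, h⟩ := hx
  exact ⟨κ, inferInstance, C, m, hm, fun j => h (φ j)⟩

end MP2794d1
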