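import Pool.Agent.Lib.MP_2794d1_ag.Base

/-!
A04: selection. Let (κ_j, C_j, m_j, ...) be the data of y j. Put κ = Σ j, κ_j, m = ∏ m_j, C large
(C = (∏ m) * ∑ C_j + ∑ C_j, say). For i choose j with x i = y j i and take the block matrix which is
(∏_{j' ≠ j} m_{j'}) • A_j on the block j and 0 elsewhere, with w supported on the block j.
-/

namespace MP2794d1

open Matrix Complex Filter Topology

theorem AlgFam.select {I J : Type} [Fintype J] {H : I → ℝ} (hH : ∀ i, 1 ≤ H i) (y : J → I → ℂ)
    (hy : ∀ j, AlgFam H (y j)) (x : I → ℂ) (hx : ∀ i, ∃ j, x i = y j i) : AlgFam H x := by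
  classical
  choose κ hκ C m hm h using hy
  choose A w hw e b using h
  let M : ℕ := ∏ j, m j
  let D : ℕ := M * (∑ j, C j) + ∑ j, C j
  refine ⟨Σ j, κ j, inferInstance, D, M, Finset.prod_pos fun j _ => hm j, fun i => ?_⟩
  obtain ⟨j, hj⟩ := hx i
  let c : J → ℤ := fun j' => if j' = j then ∏ j'' ∈ Finset.univ.erase j', (m j'' : ℤ) else 0
  let B : Matrix (Σ j, κ j) (Σ j, κ j) ℤ := Matrix.blockDiagonal' fun j' => c j' • A j' i
  have hcj : c j = ∏ j'' ∈ Finset.univ.erase j, (m j'' : ℤ) := if_pos rfl
  have hM : (M : ℤ) = c j * m j := by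
    rw [hcj, Finset.prod_erase_mul _ _ (Finset.mem_univ j)]
    push_cast [M]
    rfl
  refine ⟨B, fun p => if p.1 = j then w p.1 i p.2 else 0, ?_, ?_, ?_⟩
  · obtain ⟨a, ha⟩ : ∃ a, w j i a ≠ 0 := by
      by_contra hcon
      push Not at hcon
      exact hw j i (funext hcon)
    intro h0
    have := congrFun h0 ⟨j, a⟩
    simp only [if_true, Pi.zero_apply] at this
    exact ha this
  · funext p
    obtain ⟨j1, a⟩ := p
    simp only [mulVec, dotProduct, Matrix.map_apply, Pi.smul_apply, smul_eq_mul,
      Fintype.sum_sigma]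
    rw [Finset.sum_eq_single j1]
    · by_cases h1 : j1 = j
      · subst h1
        have f := congrFun (e j1 i) a
        simp only [mulVec, dotProduct, Matrix.map_apply, Pi.smul_apply, smul_eq_mul] at f
        simp only [if_true]
        have g : ∀ a' : κ j1, ((B ⟨j1, a⟩ ⟨j1, a'⟩ : ℤ) : ℂ) * w j1 i a' =
            (c j1 : ℂ) * ((A j1 i a a' : ℂ) * w j1 i a') := by
          intro a'
          have : B ⟨j1, a⟩ ⟨j1, a'⟩ = c j1 * A j1 i a a' := by
            simp only [B]
            rw [Matrix.blockDiagonal'_apply_eq, Matrix.smul_apply, smul_eq_mul]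
          rw [this]
          push_cast
          ring
        rw [Finset.sum_congr rfl fun a' _ => g a', ← Finset.mul_sum, f, hj]
        have hM' : (M : ℂ) = (c j1 : ℂ) * m j1 := by exact_mod_cast hM
        rw [hM']
        ring
      · rw [if_neg h1, mul_zero]
        refine Finset.sum_eq_zero fun a' _ => ?_
        rw [if_neg h1, mul_zero]
    · intro j2 _ hne
      refine Finset.sum_eq_zero fun a' _ => ?_
      have : B ⟨j1, a⟩ ⟨j2, a'⟩ = 0 := Matrix.blockDiagonal'_apply_ne _ _ _ (Ne.symm hne)
      rw [this]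
      simp
    · intro h0
      exact absurd (Finset.mem_univ _) h0
  · rintro ⟨j1, a⟩ ⟨j2, a'⟩
    have hh := hH i
    have hpos : (0 : ℝ) ≤ D * H i ^ D := by positivity
    by_cases h12 : j1 = j2
    · subst h12
      have hB : B ⟨j1, a⟩ ⟨j1, a'⟩ = c j1 * A j1 i a a' := by
        simp only [B]
        rw [Matrix.blockDiagonal'_apply_eq, Matrix.smul_apply, smul_eq_mul]
      rw [hB]
      by_cases h1 : j1 = j
      · subst h1
        have hcM : |((c j1 : ℤ) : ℝ)| ≤ M := by
          have h2 : (0 : ℤ) ≤ c j1 := by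
            rw [hcj]
            exact Finset.prod_nonneg fun _ _ => by positivity
          have h3 : c j1 ≤ (M : ℤ) := by
            rw [hM]
            exact le_mul_of_one_le_right h2 (by exact_mod_cast hm j1)
          rw [abs_of_nonneg (by exact_mod_cast h2)]
          exact_mod_cast h3
        have hCs : C j1 ≤ ∑ j, C j := Finset.single_le_sum (fun _ _ => Nat.zero_le _)
          (Finset.mem_univ j1)
        have k := b j1 i a a'
        push_cast
        rw [abs_mul]
        have t : H i ^ C j1 ≤ H i ^ D := pow_le_pow_right₀ hh (hCs.trans (Nat.le_add_left _ _))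
        calc |((c j1 : ℤ) : ℝ)| * |(A j1 i a a' : ℝ)| ≤ M * (C j1 * H i ^ C j1) :=
              mul_le_mul hcM k (abs_nonneg _) (by positivity)
          _ = ((M * C j1 : ℕ) : ℝ) * H i ^ C j1 := by push_cast; ring
          _ ≤ D * H i ^ D := by
            refine mul_le_mul ?_ t (by positivity) (by positivity)
            have : M * C j1 ≤ D := by
              have := Nat.mul_le_mul_left M hCs
              simp only [D]
              omega
            exact_mod_cast this
      · have : c j1 = 0 := if_neg h1
        rw [this]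
        simpa using hpos
    · have : B ⟨j1, a⟩ ⟨j2, a'⟩ = 0 := Matrix.blockDiagonal'_apply_ne _ _ _ h12
      rw [this]
      simpa using hpos

end MP2794d1
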