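import Pool.Agent.Lib.MP_2794d1_ag.Base

/-!
A05: upper bound. If A w = (m x) w, take the index a with |w a| maximal (> 0): |m x| |w a| ≤ ∑_b |A a b| |w b|
≤ card κ * C * H^C * |w a|; and |x| ≤ |m x| as m ≥ 1.
-/

namespace MP2794d1

open Matrix Complex Filter Topology

/-- bound for eigenvalues -/
theorem A05_eig {κ : Type} [Fintype κ] {A : Matrix κ κ ℂ} {w : κ → ℂ} (hw : w ≠ 0) {c : ℂ}
    (h : A *ᵥ w = c • w) {B : ℝ} (hB : ∀ a b, ‖A a b‖ ≤ B) :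
    ‖c‖ ≤ Fintype.card κ * B := by
  classical
  obtain ⟨b0, hb0⟩ : ∃ b, w b ≠ 0 := by
    by_contra hcon
    push Not at hcon
    exact hw (funext hcon)
  have : Nonempty κ := ⟨b0⟩
  obtain ⟨a, -, ha⟩ := Finset.exists_max_image (Finset.univ : Finset κ) (fun b => ‖w b‖)
    ⟨b0, Finset.mem_univ _⟩
  have hpos : 0 < ‖w a‖ := lt_of_lt_of_le (norm_pos_iff.2 hb0) (ha b0 (Finset.mem_univ _))
  have h1 : c * w a = ∑ b, A a b * w b := by
    have := congrFun h a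
    rw [Pi.smul_apply, smul_eq_mul] at this
    rw [← this]
    rfl
  have h2 : ‖c‖ * ‖w a‖ ≤ (Fintype.card κ * B) * ‖w a‖ := by
    rw [← norm_mul, h1]
    refine (norm_sum_le _ _).trans ?_
    have h3 : ∀ b ∈ (Finset.univ : Finset κ), ‖A a b * w b‖ ≤ B * ‖w a‖ := by
      intro b hb
      rw [norm_mul]
      exact mul_le_mul (hB a b) (ha b hb) (norm_nonneg _) ((norm_nonneg _).trans (hB a b))
    refine (Finset.sum_le_card_nsmul _ _ _ h3).trans (le_of_eq ?_)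
    rw [nsmul_eq_mul, Finset.card_univ]
    ring
  exact le_of_mul_le_mul_right h2 hpos

theorem A05_int {κ : Type} [Fintype κ] {A : Matrix κ κ ℤ} {B : ℝ}
    (hB : ∀ a b, |(A a b : ℝ)| ≤ B) (a b : κ) : ‖(A.map (fun q : ℤ => (q : ℂ))) a b‖ ≤ B := by
  rw [Matrix.map_apply, Complex.norm_intCast]
  exact hB a b

theorem AlgFam.upper {I : Type} {H : I → ℝ} (hH : ∀ i, 1 ≤ H i) {x : I → ℂ} (hx : AlgFam H x) :
    ∃ C : ℕ, 0 < C ∧ ∀ i, ‖x i‖ ≤ C * H i ^ C := by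
  obtain ⟨κ, hκ, C, m, hm, h⟩ := hx
  refine ⟨Fintype.card κ * C + C + 1, Nat.succ_pos _, fun i => ?_⟩
  obtain ⟨A, w, hw, hA, hb⟩ := h i
  have h1 := A05_eig hw hA (fun a b => A05_int hb a b)
  have hm' : (1 : ℝ) ≤ m := by exact_mod_cast hm
  have h2 : ‖x i‖ ≤ ‖(m : ℂ) * x i‖ := by
    rw [norm_mul, Complex.norm_natCast]
    exact le_mul_of_one_le_left (norm_nonneg _) hm'
  refine h2.trans (h1.trans ?_)
  rw [← mul_assoc]
  have h3 : ((Fintype.card κ : ℝ) * C) ≤ ((Fintype.card κ * C + C + 1 : ℕ) : ℝ) := by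
    have : (Fintype.card κ * C : ℕ) ≤ Fintype.card κ * C + C + 1 := by omega
    exact_mod_cast this
  have h4 : H i ^ C ≤ H i ^ (Fintype.card κ * C + C + 1) :=
    pow_le_pow_right₀ (hH i) (by omega)
  have h5 : 0 ≤ H i ^ C := pow_nonneg (zero_le_one.trans (hH i)) _
  exact mul_le_mul h3 h4 h5 (Nat.cast_nonneg _)

end MP2794d1
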