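import Pool.Agent.Lib.MP_2794d1_ag.A05

/-!
A06: Liouville. y = m x i ≠ 0 is an eigenvalue of the integer matrix A (size D = card κ, entries ≤ C H^C), hence a
root of its characteristic polynomial p ∈ ℤ[X], monic of degree D. The product of the nonzero roots of p is, up to the
sign, the coefficient of the smallest degree of p, a nonzero integer, so of absolute value ≥ 1. All roots are
eigenvalues, so bounded by B := D C H^C + 1. Hence 1 ≤ |y| * B^D.
-/

namespace MP2794d1

open Matrix Complex Filter Topology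

/-- a nonzero root of a monic integer polynomial with roots bounded by `B` -/
theorem A06_poly (p : Polynomial ℤ) (hp : p.Monic) {y : ℂ} (hy : y ≠ 0)
    (hr : (p.map (Int.castRingHom ℂ)).eval y = 0) {B : ℝ} (hB1 : 1 ≤ B)
    (hB : ∀ z : ℂ, (p.map (Int.castRingHom ℂ)).eval z = 0 → ‖z‖ ≤ B) :
    1 ≤ ‖y‖ * B ^ p.natDegree := by
  classical
  set P : Polynomial ℂ := p.map (Int.castRingHom ℂ) with hP
  have hPm : P.Monic := hp.map _
  have hP0 : P ≠ 0 := hPm.ne_zero
  set R : Multiset ℂ := P.roots with hR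
  have hsplit : P = (R.map fun a => Polynomial.X - Polynomial.C a).prod :=
    (IsAlgClosed.splits P).eq_prod_roots_of_monic hPm
  set S : Multiset ℂ := R.filter (fun a => a ≠ 0) with hS
  set k : ℕ := R.count 0 with hk
  have hRS : R = Multiset.replicate k 0 + S := by
    have h1 := Multiset.filter_add_not (fun a : ℂ => a ≠ 0) R
    have h2 : R.filter (fun a : ℂ => ¬ a ≠ 0) = Multiset.replicate k 0 := by
      rw [hk, ← Multiset.filter_eq' R 0]
      congr 1
      ext a
      simp
    rw [h2, ← hS] at h1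
    rw [← h1, add_comm]
  set q : Polynomial ℂ := (S.map fun a => Polynomial.X - Polynomial.C a).prod with hq
  have hPq : P = Polynomial.X ^ k * q := by
    rw [hsplit, hRS, Multiset.map_add, Multiset.prod_add, Multiset.map_replicate,
      Multiset.prod_replicate]
    simp [hq]
  have hc : P.coeff k = (S.map fun a => -a).prod := by
    rw [hPq]
    have h1 : (Polynomial.X ^ k * q).coeff k = q.coeff 0 := by
      have := Polynomial.coeff_X_pow_mul q k 0
      rwa [zero_add] at this
    rw [h1, Polynomial.coeff_zero_eq_eval_zero, hq, Polynomial.eval_multiset_prod,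
      Multiset.map_map]
    congr 1
    refine Multiset.map_congr rfl fun a _ => ?_
    simp
  have hc' : P.coeff k = ((p.coeff k : ℤ) : ℂ) := by
    rw [hP, Polynomial.coeff_map]
    rfl
  have hne : (p.coeff k) ≠ 0 := by
    intro h0
    rw [h0, Int.cast_zero, hc] at hc'
    have := Multiset.prod_eq_zero_iff.1 hc'
    obtain ⟨a, ha, ha0⟩ := Multiset.mem_map.1 this
    have h2 := (Multiset.mem_filter.1 ha).2
    exact h2 (neg_eq_zero.1 ha0)
  have h1 : 1 ≤ ‖(S.map fun a => -a).prod‖ := by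
    rw [← hc, hc', Complex.norm_intCast]
    have : (1 : ℤ) ≤ |p.coeff k| := Int.one_le_abs hne
    exact_mod_cast this
  have hyR : y ∈ R := (Polynomial.mem_roots hP0).2 hr
  have hyS : y ∈ S := Multiset.mem_filter.2 ⟨hyR, hy⟩
  obtain ⟨T, hT⟩ := Multiset.exists_cons_of_mem hyS
  have hnorm : ‖(S.map fun a => -a).prod‖ = ‖y‖ * (T.map fun a => ‖a‖).prod := by
    rw [hT, Multiset.map_cons, Multiset.prod_cons, norm_mul, norm_neg]
    congr 1
    rw [← Multiset.map_id' T]
    clear hT
    induction T using Multiset.induction_on with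
    | empty => simp
    | cons a T ih =>
      simp only [Multiset.map_cons, Multiset.prod_cons, norm_mul, norm_neg, Multiset.map_id'] at ih ⊢
      rw [ih]
  have hTB : (T.map fun a => ‖a‖).prod ≤ B ^ (Multiset.card T) := by
    have hall : ∀ a ∈ T, ‖a‖ ≤ B := by
      intro a ha
      have h3 : a ∈ S := hT ▸ Multiset.mem_cons_of_mem ha
      have h4 : a ∈ R := (Multiset.mem_filter.1 h3).1
      exact hB a (Polynomial.isRoot_of_mem_roots h4)
    clear hT hnorm
    induction T using Multiset.induction_on with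
    | empty => simp
    | cons a T ih =>
      rw [Multiset.map_cons, Multiset.prod_cons, Multiset.card_cons, pow_succ, mul_comm]
      have h5 := ih fun b hb => hall b (Multiset.mem_cons_of_mem hb)
      have h6 : 0 ≤ (T.map fun a => ‖a‖).prod := by
        refine Multiset.prod_nonneg ?_
        intro b hb
        obtain ⟨c, -, rfl⟩ := Multiset.mem_map.1 hb
        exact norm_nonneg _
      exact mul_le_mul h5 (hall a (Multiset.mem_cons_self a T)) (norm_nonneg _)
        (pow_nonneg (zero_le_one.trans hB1) _)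
  have hcard : Multiset.card T ≤ p.natDegree := by
    have h7 : Multiset.card S ≤ Multiset.card R := Multiset.card_le_card (Multiset.filter_le _ _)
    have h8 : Multiset.card R ≤ P.natDegree := Polynomial.card_roots' P
    have h9 : P.natDegree ≤ p.natDegree := Polynomial.natDegree_map_le
    have h10 : Multiset.card S = Multiset.card T + 1 := by rw [hT, Multiset.card_cons]
    omega
  calc (1 : ℝ) ≤ ‖y‖ * (T.map fun a => ‖a‖).prod := hnorm ▸ h1
    _ ≤ ‖y‖ * B ^ p.natDegree := mul_le_mul_of_nonneg_left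
        (hTB.trans (pow_le_pow_right₀ hB1 hcard)) (norm_nonneg _)

/-- a nonzero eigenvalue of an integer matrix with entries at most `B` -/
theorem A06_mat {κ : Type} [Fintype κ] (A : Matrix κ κ ℤ) {w : κ → ℂ} (hw : w ≠ 0) {y : ℂ}
    (hy : y ≠ 0) (h : (A.map (fun q : ℤ => (q : ℂ))) *ᵥ w = y • w) {B : ℝ} (hB0 : 0 ≤ B)
    (hB : ∀ a b, |(A a b : ℝ)| ≤ B) :
    1 ≤ ‖y‖ * (Fintype.card κ * B + 1) ^ Fintype.card κ := by
  classical
  have hmap : A.charpoly.map (Int.castRingHom ℂ) =
      (A.map (fun q : ℤ => (q : ℂ))).charpoly := by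
    rw [← Matrix.charpoly_map]
    rfl
  have hroot : ∀ z : ℂ, (A.charpoly.map (Int.castRingHom ℂ)).eval z = 0 ↔
      ∃ v : κ → ℂ, v ≠ 0 ∧ (A.map (fun q : ℤ => (q : ℂ))) *ᵥ v = z • v := by
    intro z
    rw [hmap, Matrix.eval_charpoly, ← Matrix.exists_mulVec_eq_zero_iff]
    refine exists_congr fun v => and_congr_right fun _ => ?_
    rw [Matrix.sub_mulVec, sub_eq_zero, Matrix.scalar_apply, Matrix.diagonal_const_mulVec]
    exact eq_comm
  have hdeg : A.charpoly.natDegree = Fintype.card κ := Matrix.charpoly_natDegree_eq_dim A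
  have hcard : (0 : ℝ) ≤ Fintype.card κ := Nat.cast_nonneg _
  have := A06_poly A.charpoly (Matrix.charpoly_monic A) hy ((hroot y).2 ⟨w, hw, h⟩)
    (B := Fintype.card κ * B + 1) (by nlinarith) (fun z hz => by
      obtain ⟨v, hv, hv'⟩ := (hroot z).1 hz
      have := A05_eig hv hv' (fun a b => A05_int hB a b)
      linarith)
  rwa [hdeg] at this

theorem AlgFam.lower {I : Type} {H : I → ℝ} (hH : ∀ i, 1 ≤ H i) {x : I → ℂ} (hx : AlgFam H x) :
    ∃ C : ℕ, 0 < C ∧ ∀ i, x i ≠ 0 → 1 ≤ C * H i ^ C * ‖x i‖ := by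
  obtain ⟨κ, hκ, C, m, hm, h⟩ := hx
  refine ⟨m * (Fintype.card κ * C + 1) ^ Fintype.card κ + C * Fintype.card κ + 1,
    Nat.succ_pos _, fun i hi => ?_⟩
  obtain ⟨A, w, hw, hA, hb⟩ := h i
  have hH1 := hH i
  have hm0 : (m : ℂ) ≠ 0 := by exact_mod_cast hm.ne'
  have hHC : (1 : ℝ) ≤ H i ^ C := one_le_pow₀ hH1
  have h1 := A06_mat A hw (mul_ne_zero hm0 hi) hA
    (mul_nonneg (Nat.cast_nonneg C) (zero_le_one.trans hHC)) hb
  rw [norm_mul, Complex.norm_natCast] at h1
  have h2 : (Fintype.card κ : ℝ) * (C * H i ^ C) + 1 ≤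
      ((Fintype.card κ : ℝ) * C + 1) * H i ^ C := by
    nlinarith
  have h0 : (0 : ℝ) ≤ (Fintype.card κ : ℝ) * (C * H i ^ C) + 1 := by positivity
  have h3 := pow_le_pow_left₀ h0 h2 (Fintype.card κ)
  rw [mul_pow, ← pow_mul] at h3
  have hn : 0 ≤ ‖x i‖ := norm_nonneg _
  have h4 : ((m * (Fintype.card κ * C + 1) ^ Fintype.card κ : ℕ) : ℝ) ≤
      ((m * (Fintype.card κ * C + 1) ^ Fintype.card κ + C * Fintype.card κ + 1 : ℕ) : ℝ) := by
    exact_mod_cast (by omega : m * (Fintype.card κ * C + 1) ^ Fintype.card κ ≤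
      m * (Fintype.card κ * C + 1) ^ Fintype.card κ + C * Fintype.card κ + 1)
  have h5 : H i ^ (C * Fintype.card κ) ≤
      H i ^ (m * (Fintype.card κ * C + 1) ^ Fintype.card κ + C * Fintype.card κ + 1) :=
    pow_le_pow_right₀ hH1 (by omega)
  have h6 := mul_le_mul h4 h5 (pow_nonneg (zero_le_one.trans hH1) _) (Nat.cast_nonneg _)
  push_cast at h6 ⊢
  calc (1 : ℝ) ≤ m * ‖x i‖ * ((Fintype.card κ : ℝ) * (C * H i ^ C) + 1) ^ Fintype.card κ := h1
    _ ≤ m * ‖x i‖ * (((Fintype.card κ : ℝ) * C + 1) ^ Fintype.card κ *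
        H i ^ (C * Fintype.card κ)) := mul_le_mul_of_nonneg_left h3 (by positivity)
    _ = (m * ((Fintype.card κ : ℝ) * C + 1) ^ Fintype.card κ *
        H i ^ (C * Fintype.card κ)) * ‖x i‖ := by ring
    _ ≤ _ := mul_le_mul_of_nonneg_right h6 hn

end MP2794d1
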