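import Pool.Agent.Lib.MP_2794d1_ag.A01
import Pool.Agent.Lib.MP_2794d1_ag.A02
import Pool.Agent.Lib.MP_2794d1_ag.A03

/-!
A07: the subalgebra.
-/

namespace MP2794d1

open Matrix Complex Filter Topology

/-- The families `AlgFam H` form a rational subalgebra of `I → ℂ`. -/
noncomputable def algSub {I : Type} (H : I → ℝ) (hH : ∀ i, 1 ≤ H i) : Subalgebra ℚ (I → ℂ) where
  carrier := {x | AlgFam H x}
  mul_mem' := fun ha hb => AlgFam.mul hH ha hb
  add_mem' := fun ha hb => AlgFam.add hH ha hb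
  algebraMap_mem' := by
    intro q
    exact AlgFam.const hH q

theorem mem_algSub {I : Type} {H : I → ℝ} (hH : ∀ i, 1 ≤ H i) (x : I → ℂ) :
    x ∈ algSub H hH ↔ AlgFam H x := Iff.rfl

end MP2794d1
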