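import Pool.Agent.Lib.MP_2794d1_ag.Base

/-!
F02: continuation of an analytic condition. G = {z | ∀ᶠ y in 𝓝 z, C y} is open and contains U. If z0 ∈ closure G and
0 < z0.im take the f k from hloc, all analytic on a ball B around z0 contained in the upper half plane on which the
equivalence holds (κ finite). B ∩ G is a nonempty open set (B open, z0 ∈ closure G) on which all f k vanish near some
point, so by the identity theorem (AnalyticOnNhd.eqOn_zero_of_preconnected_of_eventuallyEq_zero on the ball) f k = 0 on B,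
hence C holds on B and z0 ∈ G. The half plane is convex, so preconnected:
IsPreconnected.subset_of_closure_inter_subset.
-/

namespace MP2794d1

open Matrix Complex Filter Topology

theorem continuation (C : ℂ → Prop)
    (hloc : ∀ z₀ : ℂ, 0 < z₀.im → ∃ (κ : Type) (_ : Finite κ) (f : κ → ℂ → ℂ),
      (∀ k, AnalyticAt ℂ (f k) z₀) ∧ ∀ᶠ z in 𝓝 z₀, (C z ↔ ∀ k, f k z = 0))
    (U : Set ℂ) (hU : IsOpen U) (hne : U.Nonempty) (hUH : ∀ z ∈ U, 0 < z.im)
    (hC : ∀ z ∈ U, C z) : ∀ z : ℂ, 0 < z.im → C z := by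
  have hG : ∀ z₀ : ℂ, 0 < z₀.im → z₀ ∈ closure {z : ℂ | ∀ᶠ y in 𝓝 z, C y} →
      ∀ᶠ y in 𝓝 z₀, C y := by
    intro z₀ hz₀ hcl
    obtain ⟨κ, hκ, f, hf, hiff⟩ := hloc z₀ hz₀
    have h1 : ∀ᶠ y in 𝓝 z₀, ∀ k, AnalyticAt ℂ (f k) y := by
      rw [Filter.eventually_all]
      intro k
      exact (hf k).eventually_analyticAt
    obtain ⟨ε, hε, hball⟩ := Metric.eventually_nhds_iff_ball.1 (h1.and hiff)
    obtain ⟨w, hw1, hw2⟩ := Metric.mem_closure_iff.1 hcl ε hε
    have hw3 : w ∈ Metric.ball z₀ ε := by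
      rw [Metric.mem_ball, dist_comm]
      exact hw2
    have hzero : ∀ k, ∀ y ∈ Metric.ball z₀ ε, f k y = 0 := by
      intro k
      have hana : AnalyticOnNhd ℂ (f k) (Metric.ball z₀ ε) := fun y hy => (hball y hy).1 k
      have hev : f k =ᶠ[𝓝 w] 0 := by
        have hw4 : ∀ᶠ y in 𝓝 w, C y := hw1
        filter_upwards [hw4, Metric.isOpen_ball.mem_nhds hw3] with y hy1 hy2
        exact ((hball y hy2).2.1 hy1) k
      have h2 := hana.eqOn_zero_of_preconnected_of_eventuallyEq_zero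
        (convex_ball z₀ ε).isPreconnected hw3 hev
      intro y hy
      exact h2 hy
    filter_upwards [Metric.ball_mem_nhds z₀ hε] with y hy
    exact (hball y hy).2.2 fun k => hzero k y hy
  have hopen : IsOpen {z : ℂ | ∀ᶠ y in 𝓝 z, C y} := isOpen_setOfPred_eventually_nhds
  have hUsub : ∀ z ∈ U, z ∈ {z : ℂ | ∀ᶠ y in 𝓝 z, C y} := by
    intro z hz
    show ∀ᶠ y in 𝓝 z, C y
    filter_upwards [hU.mem_nhds hz] with y hy
    exact hC y hy
  have hconv : Convex ℝ {z : ℂ | 0 < z.im} := convex_halfSpace_im_gt 0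
  have hsub : {z : ℂ | 0 < z.im} ⊆ {z : ℂ | ∀ᶠ y in 𝓝 z, C y} := by
    refine hconv.isPreconnected.subset_of_closure_inter_subset hopen ?_ ?_
    · obtain ⟨w, hw⟩ := hne
      exact ⟨w, hUH w hw, hUsub w hw⟩
    · rintro z ⟨hz1, hz2⟩
      exact hG z hz2 hz1
  intro z hz
  have h3 : ∀ᶠ y in 𝓝 z, C y := hsub hz
  exact h3.self_of_nhds

end MP2794d1
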