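import Pool.Agent.Lib.MP_2794d1_ag.F01
import Pool.Agent.Lib.MP_2794d1_ag.F02

/-!
F04: C z := ∃ b, X - b • N ∈ FEnd_z 0. Only p in the finite range lo ≤ p ≤ hi matters (F p = ⊤ for p ≤ lo and ⊥ for
p ≥ hi, IsPHS.anti). Near z0 take projectors P_p (p in the range), n z := the family ((1-P_p) N P_p)_{p,i,j},
x z := ((1-P_p) X P_p)_{p,i,j}; then C z ↔ ∃ b, x z = b • n z (proj_map_iff). By hN, n z0 ≠ 0 (and n z ≠ 0 for all z near
z0): choose an index k0 with n z0 k0 ≠ 0, hence nonzero near z0: C z ↔ ∀ k, x z k * n z k0 = x z k0 * n z k: an analytic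
condition (F02). The value b is unique and b z = x z k0 / n z k0 near z0, analytic.
-/

namespace MP2794d1

open Matrix Complex Filter Topology

/-- continuation of a condition `x z = b n z` for some `b`, with `n z ≠ 0` -/
theorem f04_line (C : ℂ → ℂ → Prop)
    (hloc : ∀ z₀ : ℂ, 0 < z₀.im → ∃ (κ : Type) (_ : Finite κ) (x n : κ → ℂ → ℂ),
      (∀ k, AnalyticAt ℂ (x k) z₀) ∧ (∀ k, AnalyticAt ℂ (n k) z₀) ∧ (∃ k, n k z₀ ≠ 0) ∧
      ∀ᶠ z in 𝓝 z₀, ∀ b, (C z b ↔ ∀ k, x k z = b * n k z))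
    (U : Set ℂ) (hU : IsOpen U) (hne : U.Nonempty) (hUH : ∀ z ∈ U, 0 < z.im)
    (h : ∀ z ∈ U, ∃ b : ℂ, C z b) :
    ∃ b : ℂ → ℂ, (∀ z : ℂ, 0 < z.im → AnalyticAt ℂ b z) ∧ ∀ z : ℂ, 0 < z.im → C z (b z) := by
  have hall : ∀ z : ℂ, 0 < z.im → ∃ b : ℂ, C z b := by
    refine continuation (fun z => ∃ b : ℂ, C z b) ?_ U hU hne hUH h
    intro z₀ hz₀
    obtain ⟨κ, hκ, x, n, hx, hn, ⟨k0, hk0⟩, hev⟩ := hloc z₀ hz₀
    refine ⟨κ, hκ, fun k z => x k z * n k0 z - x k0 z * n k z, fun k =>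
      ((hx k).mul (hn k0)).sub ((hx k0).mul (hn k)), ?_⟩
    filter_upwards [hev, (hn k0).continuousAt.eventually_ne hk0] with z hz1 hz2
    constructor
    · rintro ⟨b, hb⟩ k
      have h1 := (hz1 b).1 hb
      rw [h1 k, h1 k0]
      ring
    · intro h1
      refine ⟨x k0 z / n k0 z, (hz1 _).2 fun k => ?_⟩
      have h2 := h1 k
      rw [div_mul_eq_mul_div, eq_div_iff hz2]
      linear_combination h2
  choose! b hb using hall
  refine ⟨b, ?_, hb⟩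
  intro z₀ hz₀
  obtain ⟨κ, hκ, x, n, hx, hn, ⟨k0, hk0⟩, hev⟩ := hloc z₀ hz₀
  have h1 : AnalyticAt ℂ (fun z => x k0 z / n k0 z) z₀ := (hx k0).div (hn k0) hk0
  refine h1.congr ?_
  have him : ∀ᶠ z : ℂ in 𝓝 z₀, 0 < z.im :=
    (isOpen_lt continuous_const Complex.continuous_im).mem_nhds hz₀
  filter_upwards [hev, (hn k0).continuousAt.eventually_ne hk0, him] with z hz1 hz2 hz3
  have h2 := (hz1 (b z)).1 (hb z hz3) k0
  rw [h2, mul_div_assoc, div_self hz2, mul_one]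

theorem f04_top {n : ℕ} (V : PolVHS n) {z : ℂ} (hz : 0 < z.im) {p : ℤ} (hp : p ≤ V.lo) :
    V.F p z = ⊤ := by
  have h1 := (V.phs z hz).anti p V.lo hp
  have h2 : V.F V.lo z = ⊤ := V.F_lo z hz
  have h3 : V.F V.lo z ≤ V.F p z := h1
  rw [h2] at h3
  exact top_le_iff.1 h3

theorem f04_bot {n : ℕ} (V : PolVHS n) {z : ℂ} (hz : 0 < z.im) {p : ℤ} (hp : V.hi ≤ p) :
    V.F p z = ⊥ := by
  have h1 := (V.phs z hz).anti V.hi p hp
  have h2 : V.F V.hi z = ⊥ := V.F_hi z hz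
  have h3 : V.F p z ≤ V.F V.hi z := h1
  rw [h2] at h3
  exact le_bot_iff.1 h3

theorem f04_mem {n : ℕ} (V : PolVHS n) {z : ℂ} (hz : 0 < z.im)
    {P : ℤ → Matrix (Fin n) (Fin n) ℂ}
    (hP : ∀ p ∈ Finset.Icc V.lo V.hi, P p * P p = P p ∧ V.F p z = LinearMap.range (P p).mulVecLin)
    (Y : Matrix (Fin n) (Fin n) ℂ) :
    Y ∈ FEnd (fun p => V.F p z) 0 ↔ ∀ p ∈ Finset.Icc V.lo V.hi, (1 - P p) * Y * P p = 0 := by
  constructor
  · intro hY p hp
    obtain ⟨h1, h2⟩ := hP p hp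
    rw [← proj_map_iff h1 h1 Y]
    intro x hx
    have hx' : x ∈ V.F p z := by
      rw [h2]
      exact hx
    have h3 : Y *ᵥ x ∈ V.F (p + 0) z := hY p x hx'
    rw [add_zero, h2] at h3
    exact h3
  · intro h p x hx
    have hx' : x ∈ V.F p z := hx
    show Y *ᵥ x ∈ V.F (p + 0) z
    rw [add_zero]
    rcases le_or_gt p V.lo with hp | hp
    · rw [f04_top V hz hp]
      trivial
    · rcases le_or_gt V.hi p with hp' | hp'
      · rw [f04_bot V hz hp'] at hx' ⊢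
        rw [Submodule.mem_bot] at hx' ⊢
        rw [hx', Matrix.mulVec_zero]
      · have hp2 : p ∈ Finset.Icc V.lo V.hi := Finset.mem_Icc.2 ⟨hp.le, hp'.le⟩
        obtain ⟨h1, h2⟩ := hP p hp2
        rw [h2] at hx' ⊢
        exact (proj_map_iff h1 h1 Y).2 (h p hp2) x hx'

theorem f04_proj {n : ℕ} (V : PolVHS n) {z₀ : ℂ} (hz₀ : 0 < z₀.im) :
    ∃ P : ℤ → ℂ → Matrix (Fin n) (Fin n) ℂ, (∀ p i j, AnalyticAt ℂ (fun z => P p z i j) z₀) ∧
      ∀ᶠ z in 𝓝 z₀, ∀ p ∈ Finset.Icc V.lo V.hi,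
        P p z * P p z = P p z ∧ V.F p z = LinearMap.range (P p z).mulVecLin := by
  have h := fun p : ℤ => (V.hol p z₀ hz₀).proj
  choose P h1 h2 using h
  refine ⟨P, h1, ?_⟩
  rw [Filter.eventually_all_finset]
  intro p _
  exact h2 p

theorem cont_line {n : ℕ} (V : PolVHS n) (N X : Matrix (Fin n) (Fin n) ℂ)
    (hN : ∀ z : ℂ, 0 < z.im → N ∉ FEnd (fun p => V.F p z) 0)
    (U : Set ℂ) (hU : IsOpen U) (hne : U.Nonempty) (hUH : ∀ z ∈ U, 0 < z.im)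
    (h : ∀ z ∈ U, ∃ b : ℂ, X - b • N ∈ FEnd (fun p => V.F p z) 0) :
    ∃ b : ℂ → ℂ, (∀ z : ℂ, 0 < z.im → AnalyticAt ℂ b z) ∧
      ∀ z : ℂ, 0 < z.im → X - b z • N ∈ FEnd (fun p => V.F p z) 0 := by
  refine f04_line (fun z b => X - b • N ∈ FEnd (fun p => V.F p z) 0) ?_ U hU hne hUH h
  intro z₀ hz₀
  obtain ⟨P, hP1, hP2⟩ := f04_proj V hz₀
  have han : ∀ (p : ℤ) (Y : Matrix (Fin n) (Fin n) ℂ) (i j : Fin n),
      AnalyticAt ℂ (fun z => ((1 - P p z) * Y * P p z) i j) z₀ := by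
    intro p Y
    refine f01_mul (f01_mul ?_ ?_) (hP1 p)
    · intro i j
      simp only [Matrix.sub_apply]
      exact analyticAt_const.sub (hP1 p i j)
    · intro i j
      exact analyticAt_const
  refine ⟨{p : ℤ // p ∈ Finset.Icc V.lo V.hi} × Fin n × Fin n, inferInstance,
    fun k z => ((1 - P k.1 z) * X * P k.1 z) k.2.1 k.2.2,
    fun k z => ((1 - P k.1 z) * N * P k.1 z) k.2.1 k.2.2,
    fun k => han _ _ _ _, fun k => han _ _ _ _, ?_, ?_⟩
  · by_contra hcon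
    push Not at hcon
    apply hN z₀ hz₀
    rw [f04_mem V hz₀ hP2.self_of_nhds N]
    intro p hp
    ext i j
    exact hcon (⟨p, hp⟩, i, j)
  · have him : ∀ᶠ z : ℂ in 𝓝 z₀, 0 < z.im :=
      (isOpen_lt continuous_const Complex.continuous_im).mem_nhds hz₀
    filter_upwards [hP2, him] with z hz1 hz2 b
    rw [f04_mem V hz2 hz1 (X - b • N)]
    have key : ∀ p, (1 - P p z) * (X - b • N) * P p z =
        (1 - P p z) * X * P p z - b • ((1 - P p z) * N * P p z) := by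
      intro p
      rw [Matrix.mul_sub, Matrix.sub_mul, Matrix.mul_smul, Matrix.smul_mul]
    constructor
    · rintro h1 ⟨⟨p, hp⟩, i, j⟩
      have h2 := h1 p hp
      rw [key, sub_eq_zero] at h2
      have h3 := congrFun (congrFun h2 i) j
      exact h3
    · intro h1 p hp
      rw [key, sub_eq_zero]
      ext i j
      exact h1 (⟨p, hp⟩, i, j)

end MP2794d1
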