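import Pool.Agent.Lib.MP_2794d1_ag.F01

/-!
F07: Moebius transformations of the upper half plane: elementary. mob_mob: composition (denominators c z + d ≠ 0 for
im z > 0 as det = 1). mob_inv is the special case g⁻¹. deriv = 1/(c z + d)².
-/

namespace MP2794d1

open Matrix Complex Filter Topology

theorem F07_det (g : Matrix.SpecialLinearGroup (Fin 2) ℝ) : g 0 0 * g 1 1 - g 0 1 * g 1 0 = 1 := by
  have h := g.2
  rw [Matrix.det_fin_two] at h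
  exact h

theorem F07_den (g : Matrix.SpecialLinearGroup (Fin 2) ℝ) (z : ℂ) (hz : 0 < z.im) :
    ((g 1 0 : ℝ) : ℂ) * z + ((g 1 1 : ℝ) : ℂ) ≠ 0 := by
  intro h
  have h1 := congrArg Complex.im h
  have h2 := congrArg Complex.re h
  simp only [Complex.add_im, Complex.mul_im, Complex.ofReal_re, Complex.ofReal_im, zero_mul,
    add_zero, Complex.zero_im] at h1
  simp only [Complex.add_re, Complex.mul_re, Complex.ofReal_re, Complex.ofReal_im, zero_mul,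
    sub_zero, Complex.zero_re] at h2
  have hc : g 1 0 = 0 := by
    rcases mul_eq_zero.1 h1 with h3 | h3
    · exact h3
    · exact absurd h3 hz.ne'
  rw [hc, zero_mul, zero_add] at h2
  have h4 := F07_det g
  rw [hc, h2] at h4
  norm_num at h4

theorem mob_im_pos (g : Matrix.SpecialLinearGroup (Fin 2) ℝ) (z : ℂ) (hz : 0 < z.im) :
    0 < (mob g z).im := by
  have hd := F07_den g z hz
  have hN : 0 < Complex.normSq (((g 1 0 : ℝ) : ℂ) * z + ((g 1 1 : ℝ) : ℂ)) :=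
    Complex.normSq_pos.2 hd
  have h1 : (mob g z).im = z.im / Complex.normSq (((g 1 0 : ℝ) : ℂ) * z + ((g 1 1 : ℝ) : ℂ)) := by
    unfold mob
    rw [Complex.div_im, ← sub_div]
    congr 1
    simp only [Complex.add_im, Complex.mul_im, Complex.ofReal_re, Complex.ofReal_im, zero_mul,
      add_zero, Complex.add_re, Complex.mul_re, sub_zero]
    have h4 := F07_det g
    linear_combination z.im * h4
  rw [h1]
  exact div_pos hz hN

theorem mob_mob (g h : Matrix.SpecialLinearGroup (Fin 2) ℝ) (z : ℂ) (hz : 0 < z.im) :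
    mob g (mob h z) = mob (g * h) z := by
  have hd := F07_den h z hz
  have hd2 := F07_den g (mob h z) (mob_im_pos h z hz)
  have hd3 := F07_den (g * h) z hz
  have e00 : (g * h) 0 0 = g 0 0 * h 0 0 + g 0 1 * h 1 0 := by
    rw [Matrix.SpecialLinearGroup.coe_mul, Matrix.mul_apply, Fin.sum_univ_two]
  have e01 : (g * h) 0 1 = g 0 0 * h 0 1 + g 0 1 * h 1 1 := by
    rw [Matrix.SpecialLinearGroup.coe_mul, Matrix.mul_apply, Fin.sum_univ_two]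
  have e10 : (g * h) 1 0 = g 1 0 * h 0 0 + g 1 1 * h 1 0 := by
    rw [Matrix.SpecialLinearGroup.coe_mul, Matrix.mul_apply, Fin.sum_univ_two]
  have e11 : (g * h) 1 1 = g 1 0 * h 0 1 + g 1 1 * h 1 1 := by
    rw [Matrix.SpecialLinearGroup.coe_mul, Matrix.mul_apply, Fin.sum_univ_two]
  have hm : mob h z * (((h 1 0 : ℝ) : ℂ) * z + ((h 1 1 : ℝ) : ℂ)) =
      ((h 0 0 : ℝ) : ℂ) * z + ((h 0 1 : ℝ) : ℂ) := by
    unfold mob
    rw [div_mul_cancel₀ _ hd]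
  have hL : mob g (mob h z) = (((g 0 0 : ℝ) : ℂ) * mob h z + ((g 0 1 : ℝ) : ℂ)) /
      (((g 1 0 : ℝ) : ℂ) * mob h z + ((g 1 1 : ℝ) : ℂ)) := rfl
  have hR : mob (g * h) z = ((((g * h) 0 0 : ℝ) : ℂ) * z + (((g * h) 0 1 : ℝ) : ℂ)) /
      ((((g * h) 1 0 : ℝ) : ℂ) * z + (((g * h) 1 1 : ℝ) : ℂ)) := rfl
  rw [hL, hR, div_eq_div_iff hd2 hd3, e00, e01, e10, e11]
  push_cast
  set w := mob h z
  set a := ((h 0 0 : ℝ) : ℂ)
  set b := ((h 0 1 : ℝ) : ℂ)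
  set c := ((h 1 0 : ℝ) : ℂ)
  set d := ((h 1 1 : ℝ) : ℂ)
  set A := ((g 0 0 : ℝ) : ℂ)
  set B := ((g 0 1 : ℝ) : ℂ)
  set C := ((g 1 0 : ℝ) : ℂ)
  set D := ((g 1 1 : ℝ) : ℂ)
  linear_combination (A * D - B * C) * hm

theorem mob_one (z : ℂ) : mob 1 z = z := by
  unfold mob
  simp

theorem mob_analytic (g : Matrix.SpecialLinearGroup (Fin 2) ℝ) (z : ℂ) (hz : 0 < z.im) :
    AnalyticAt ℂ (mob g) z ∧ deriv (mob g) z ≠ 0 := by
  have hd := F07_den g z hz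
  have hnum : HasDerivAt (fun z : ℂ => ((g 0 0 : ℝ) : ℂ) * z + ((g 0 1 : ℝ) : ℂ)) ((g 0 0 : ℝ) : ℂ) z := by
    have := ((hasDerivAt_id z).const_mul ((g 0 0 : ℝ) : ℂ)).add_const ((g 0 1 : ℝ) : ℂ)
    simpa using this
  have hden : HasDerivAt (fun z : ℂ => ((g 1 0 : ℝ) : ℂ) * z + ((g 1 1 : ℝ) : ℂ)) ((g 1 0 : ℝ) : ℂ) z := by
    have := ((hasDerivAt_id z).const_mul ((g 1 0 : ℝ) : ℂ)).add_const ((g 1 1 : ℝ) : ℂ)
    simpa using this
  constructor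
  · have h1 : AnalyticAt ℂ (fun z : ℂ => ((g 0 0 : ℝ) : ℂ) * z + ((g 0 1 : ℝ) : ℂ)) z :=
      (analyticAt_const.mul analyticAt_id).add analyticAt_const
    have h2 : AnalyticAt ℂ (fun z : ℂ => ((g 1 0 : ℝ) : ℂ) * z + ((g 1 1 : ℝ) : ℂ)) z :=
      (analyticAt_const.mul analyticAt_id).add analyticAt_const
    exact h1.div h2 hd
  · have h3 := hnum.div hden hd
    have h4 : deriv (mob g) z = (((g 0 0 : ℝ) : ℂ) * (((g 1 0 : ℝ) : ℂ) * z + ((g 1 1 : ℝ) : ℂ)) -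
        (((g 0 0 : ℝ) : ℂ) * z + ((g 0 1 : ℝ) : ℂ)) * ((g 1 0 : ℝ) : ℂ)) /
        (((g 1 0 : ℝ) : ℂ) * z + ((g 1 1 : ℝ) : ℂ)) ^ 2 := h3.deriv
    rw [h4]
    have h5 : ((g 0 0 : ℝ) : ℂ) * (((g 1 0 : ℝ) : ℂ) * z + ((g 1 1 : ℝ) : ℂ)) -
        (((g 0 0 : ℝ) : ℂ) * z + ((g 0 1 : ℝ) : ℂ)) * ((g 1 0 : ℝ) : ℂ) = 1 := by
      have h6 : ((g 0 0 : ℝ) : ℂ) * ((g 1 1 : ℝ) : ℂ) - ((g 0 1 : ℝ) : ℂ) * ((g 1 0 : ℝ) : ℂ) = 1 := by
        have := F07_det g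
        exact_mod_cast congrArg (fun x : ℝ => (x : ℂ)) this
      linear_combination h6
    rw [h5]
    exact div_ne_zero one_ne_zero (pow_ne_zero 2 hd)

end MP2794d1
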