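import Pool.Agent.Lib.MP_2794d1_ag.Base

/-!
B07: elementary facts on uexp. uexp_add: binomial theorem for commuting nilpotents; or compare with
IsNilpotent.exp (s • N) (Mathlib.RingTheory.Nilpotent.Exp: exp_eq_sum, exp_add_of_commute). uexp_poly: the entry (i,j)
is the value at s of ∑_k C ((N^k) i j / k!) X^k. uexp_deriv: derivative of s ↦ uexp N s is N * uexp N s.
-/

namespace MP2794d1

open Matrix Complex Filter Topology

theorem uexp_zero {n : ℕ} (N : Matrix (Fin n) (Fin n) ℂ) : uexp N 0 = 1 := by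
  cases n with
  | zero => exact Subsingleton.elim _ _
  | succ m =>
    unfold uexp
    rw [Finset.sum_range_succ']
    simp

theorem B07_eq_exp {n : ℕ} (N : Matrix (Fin n) (Fin n) ℂ) (hN : N ^ n = 0) (s : ℂ) :
    uexp N s = IsNilpotent.exp (s • N) := by
  have h : (s • N) ^ n = 0 := by rw [smul_pow, hN, smul_zero]
  rw [IsNilpotent.exp_eq_sum h]
  unfold uexp
  refine Finset.sum_congr rfl fun j _ => ?_
  rw [smul_pow, div_eq_inv_mul, mul_smul]
  ext a b
  simp only [Matrix.smul_apply, smul_eq_mul]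
  rw [Algebra.smul_def]
  simp

theorem uexp_add {n : ℕ} (N : Matrix (Fin n) (Fin n) ℂ) (hN : N ^ n = 0) (s t : ℂ) :
    uexp N (s + t) = uexp N s * uexp N t := by
  rw [B07_eq_exp N hN, B07_eq_exp N hN, B07_eq_exp N hN, add_smul]
  apply IsNilpotent.exp_add_of_commute
  · exact ((Commute.refl N).smul_left s).smul_right t
  · exact ⟨n, by rw [smul_pow, hN, smul_zero]⟩
  · exact ⟨n, by rw [smul_pow, hN, smul_zero]⟩

theorem uexp_neg_mul {n : ℕ} (N : Matrix (Fin n) (Fin n) ℂ) (hN : N ^ n = 0) (s : ℂ) :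
    uexp N (-s) * uexp N s = 1 := by
  rw [← uexp_add N hN, neg_add_cancel, uexp_zero]

theorem uexp_mul_neg {n : ℕ} (N : Matrix (Fin n) (Fin n) ℂ) (hN : N ^ n = 0) (s : ℂ) :
    uexp N s * uexp N (-s) = 1 := by
  rw [← uexp_add N hN, add_neg_cancel, uexp_zero]

theorem uexp_comm {n : ℕ} (N X : Matrix (Fin n) (Fin n) ℂ) (h : X * N = N * X) (s : ℂ) :
    X * uexp N s = uexp N s * X := by
  unfold uexp
  rw [Finset.mul_sum, Finset.sum_mul]
  refine Finset.sum_congr rfl fun j _ => ?_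
  rw [Matrix.mul_smul, Matrix.smul_mul]
  congr 1
  have hc : Commute X N := h
  exact hc.pow_right j

theorem B07_cm_pow {n : ℕ} (N : Matrix (Fin n) (Fin n) ℚ) (k : ℕ) : (cm N) ^ k = cm (N ^ k) := by
  have h : ∀ M : Matrix (Fin n) (Fin n) ℚ, cm M = (algebraMap ℚ ℂ).mapMatrix M := fun M => rfl
  rw [h, h, map_pow]

theorem uexp_poly {n : ℕ} (N : Matrix (Fin n) (Fin n) ℚ) :
    ∃ P : Matrix (Fin n) (Fin n) (Polynomial ℚ), ∀ s : ℂ,
      uexp (cm N) s = P.map (fun p => Polynomial.aeval s p) := by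
  refine ⟨fun i j => ∑ k ∈ Finset.range n,
    Polynomial.C ((N ^ k) i j / (k.factorial : ℚ)) * Polynomial.X ^ k, fun s => ?_⟩
  ext i j
  unfold uexp
  simp only [Matrix.sum_apply, Matrix.smul_apply, Matrix.map_apply, B07_cm_pow, smul_eq_mul,
    map_sum, map_mul, map_pow, Polynomial.aeval_X, Polynomial.aeval_C]
  refine Finset.sum_congr rfl fun k _ => ?_
  change s ^ k / (k.factorial : ℂ) * (((N ^ k) i j : ℚ) : ℂ) = _
  simp only [eq_ratCast, Rat.cast_div, Rat.cast_natCast]
  ring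

theorem uexp_deriv {n : ℕ} (N : Matrix (Fin n) (Fin n) ℂ) (hN : N ^ n = 0) (s : ℂ)
    (i j : Fin n) : HasDerivAt (fun t => uexp N t i j) ((N * uexp N s) i j) s := by
  cases n with
  | zero => exact i.elim0
  | succ m =>
    have h1 : ∀ t, uexp N t i j = ∑ k ∈ Finset.range m,
        t ^ (k + 1) / ((k + 1).factorial : ℂ) * (N ^ (k + 1)) i j + (1 : Matrix _ _ ℂ) i j := by
      intro t
      unfold uexp
      rw [Finset.sum_range_succ']
      simp [Matrix.sum_apply]
    have h2 : (N * uexp N s) i j = ∑ k ∈ Finset.range m,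
        s ^ k / (k.factorial : ℂ) * (N ^ (k + 1)) i j := by
      unfold uexp
      rw [Finset.mul_sum, Finset.sum_range_succ, Matrix.mul_smul, ← pow_succ', hN, smul_zero,
        add_zero, Matrix.sum_apply]
      refine Finset.sum_congr rfl fun k _ => ?_
      rw [Matrix.mul_smul, ← pow_succ', Matrix.smul_apply, smul_eq_mul]
    rw [h2]
    have h3 : HasDerivAt (fun t : ℂ => ∑ k ∈ Finset.range m,
        t ^ (k + 1) / ((k + 1).factorial : ℂ) * (N ^ (k + 1)) i j + (1 : Matrix _ _ ℂ) i j)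
        (∑ k ∈ Finset.range m, s ^ k / (k.factorial : ℂ) * (N ^ (k + 1)) i j) s := by
      apply HasDerivAt.add_const
      apply HasDerivAt.fun_sum
      intro k _
      have h4 := ((hasDerivAt_pow (k + 1) s).div_const ((k + 1).factorial : ℂ)).mul_const
        ((N ^ (k + 1)) i j)
      refine h4.congr_deriv ?_
      rw [Nat.factorial_succ]
      push_cast
      have h5 : ((k : ℂ) + 1) ≠ 0 := by exact_mod_cast Nat.succ_ne_zero k
      have h6 : (k.factorial : ℂ) ≠ 0 := by exact_mod_cast Nat.factorial_ne_zero k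
      field_simp
    exact h3.congr_of_eventuallyEq (Filter.Eventually.of_forall h1)

theorem cm_pow {n : ℕ} (N : Matrix (Fin n) (Fin n) ℚ) (hN : N ^ n = 0) : (cm N) ^ n = 0 := by
  rw [B07_cm_pow, hN]
  ext i j
  simp [cm]

end MP2794d1
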