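import Pool.Agent.Lib.MP_2794d1_ag.Base

/-!
B01: minors. If the columns of W are linearly independent then some maximal minor is nonzero: the rows span ℂ^r
(rank of W = r = rank of the transpose), so r of them form a basis (Submodule.exists_fun_fin_finrank_span_eq or
exists_linearIndependent); the corresponding square matrix is invertible. Conversely if W.submatrix f id is invertible
then W.mulVec is injective.
-/

namespace MP2794d1

open Matrix Complex Filter Topology

theorem exists_minor_ne {n r : ℕ} (W : Matrix (Fin n) (Fin r) ℂ) (h : LinearIndependent ℂ Wᵀ) :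
    ∃ f : Fin r → Fin n, minor W f ≠ 0 := by
  have h1 : Module.finrank ℂ (Submodule.span ℂ (Set.range W.row)) = r := by
    rw [← Matrix.rank_eq_finrank_span_row, ← Matrix.rank_transpose]
    have := LinearIndependent.rank_matrix (M := Wᵀ) h
    simpa using this
  obtain ⟨f, hf1, _, hf3⟩ := Submodule.exists_fun_fin_finrank_span_eq ℂ (Set.range W.row)
  choose g hg using hf1
  refine ⟨fun i => g (Fin.cast h1.symm i), ?_⟩
  have h2 : LinearIndependent ℂ (W.submatrix (fun i => g (Fin.cast h1.symm i)) id).row := by
    have h3 : (W.submatrix (fun i => g (Fin.cast h1.symm i)) id).row =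
        fun i => f (Fin.cast h1.symm i) := by
      funext i
      exact hg (Fin.cast h1.symm i)
    rw [h3]
    exact hf3.comp _ (Fin.cast_injective h1.symm)
  rw [Matrix.linearIndependent_rows_iff_isUnit, Matrix.isUnit_iff_isUnit_det] at h2
  exact h2.ne_zero

theorem linInd_of_minor_ne {n r : ℕ} (W : Matrix (Fin n) (Fin r) ℂ) (f : Fin r → Fin n)
    (h : minor W f ≠ 0) : LinearIndependent ℂ Wᵀ := by
  have h1 : IsUnit (W.submatrix f id) := by
    rw [Matrix.isUnit_iff_isUnit_det]
    exact isUnit_iff_ne_zero.2 h
  have h2 : Function.Injective W.mulVec := by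
    intro x y hxy
    have h3 : Function.Injective (W.submatrix f id).mulVec := Matrix.mulVec_injective_of_isUnit h1
    apply h3
    funext i
    have := congrFun hxy (f i)
    exact this
  rw [Matrix.mulVec_injective_iff] at h2
  exact h2

end MP2794d1
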