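import Pool.Agent.Lib.MP_2794d1_ag.B01

/-!
B05: the maximal minors determine the range. Take f0 with minor W f0 ≠ 0 (B01). For a matrix W the (i,j) entry of
W * adjugate (W.submatrix f0 id) equals minor W (Function.update f0 j i) (Cramer: adjugate entries are determinants
with a row replaced; expand by linearity: the determinant of (W.submatrix f0 id) with row j replaced by the row i of W).
So W' * adj(W'_{f0}) = β • (W * adj (W_{f0})). Here β ≠ 0, because otherwise all minors of W' vanish (B01 for W').
det(adj) ≠ 0 for both, so the range of W * adj(W_{f0}) is the range of W, and the same for W'.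
-/

namespace MP2794d1

open Matrix Complex Filter Topology

theorem B05_mul_adjugate {n r : ℕ} (W : Matrix (Fin n) (Fin r) ℂ) (f0 : Fin r → Fin n)
    (i : Fin n) (j : Fin r) :
    (W * (W.submatrix f0 id).adjugate) i j = minor W (Function.update f0 j i) := by
  have h1 : (W.submatrix f0 id).updateRow j (W i) = W.submatrix (Function.update f0 j i) id := by
    ext a b
    by_cases h : a = j
    · subst h; simp
    · simp [h]
  unfold minor
  rw [← h1, ← Matrix.cramer_transpose_apply, Matrix.cramer_eq_adjugate_mulVec,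
    ← Matrix.adjugate_transpose, Matrix.mulVec_transpose, Matrix.mul_apply]
  rfl

theorem B05_le {n r : ℕ} (W W' : Matrix (Fin n) (Fin r) ℂ) (f0 : Fin r → Fin n)
    (hf : minor W' f0 ≠ 0) (β : ℂ) (h : ∀ f : Fin r → Fin n, minor W' f = β * minor W f) :
    LinearMap.range W'.mulVecLin ≤ LinearMap.range W.mulVecLin := by
  have h1 : W' * (W'.submatrix f0 id).adjugate = β • (W * (W.submatrix f0 id).adjugate) := by
    ext i j
    rw [B05_mul_adjugate, Matrix.smul_apply, B05_mul_adjugate, h, smul_eq_mul]
  have h2 : (minor W' f0) • W' = W * (β • (W.submatrix f0 id).adjugate * W'.submatrix f0 id) := by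
    have h3 : W' * (W'.submatrix f0 id).adjugate * (W'.submatrix f0 id) = (minor W' f0) • W' := by
      rw [Matrix.mul_assoc, Matrix.adjugate_mul, Matrix.mul_smul, Matrix.mul_one]
      rfl
    rw [← h3, h1, Matrix.smul_mul, Matrix.smul_mul, Matrix.mul_smul, Matrix.mul_assoc]
  rintro _ ⟨v, rfl⟩
  refine ⟨(minor W' f0)⁻¹ • ((β • (W.submatrix f0 id).adjugate * W'.submatrix f0 id) *ᵥ v), ?_⟩
  rw [map_smul, Matrix.mulVecLin_apply, Matrix.mulVecLin_apply, Matrix.mulVec_mulVec, ← h2,
    Matrix.smul_mulVec, smul_smul, inv_mul_cancel₀ hf, one_smul]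

theorem range_eq_of_minor {n r : ℕ} (W W' : Matrix (Fin n) (Fin r) ℂ)
    (hW : LinearIndependent ℂ Wᵀ) (hW' : LinearIndependent ℂ W'ᵀ) (β : ℂ)
    (h : ∀ f : Fin r → Fin n, minor W' f = β * minor W f) :
    LinearMap.range W'.mulVecLin = LinearMap.range W.mulVecLin := by
  obtain ⟨f1, h1⟩ := exists_minor_ne W' hW'
  obtain ⟨f0, h0⟩ := exists_minor_ne W hW
  have hβ : β ≠ 0 := by
    rintro rfl
    apply h1
    rw [h, zero_mul]
  apply le_antisymm
  · exact B05_le W W' f1 h1 β h
  · refine B05_le W' W f0 h0 β⁻¹ ?_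
    intro f
    rw [h, inv_mul_cancel_left₀ hβ]

end MP2794d1
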