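import Pool.Agent.Lib.MP_2794d1_ag.Base

/-!
B06: multiplicativity. Rows of (A * W).submatrix f id are ∑_m A (f i) m • W m; expand the determinant by
multilinearity (MultilinearMap.map_sum): sum over g : Fin r → Fin n. tens_mul: ∑_g ∏_i A (f i) (g i) B (g i) (h i) =
∏_i ∑_m ... (Finset.prod_univ_sum / Fintype.piFinset).
-/

namespace MP2794d1

open Matrix Complex Filter Topology

theorem minor_mul {n r : ℕ} (A : Matrix (Fin n) (Fin n) ℂ) (W : Matrix (Fin n) (Fin r) ℂ) :
    (fun f => minor (A * W) f) = tens r A *ᵥ (fun g => minor W g) := by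
  funext f
  have h1 : minor (A * W) f = Matrix.detRowAlternating (R := ℂ) (n := Fin r)
      (fun i => ∑ m : Fin n, A (f i) m • W m) := by
    unfold minor
    show Matrix.detRowAlternating (R := ℂ) (n := Fin r) ((A * W).submatrix f id) = _
    congr 1
    funext i j
    simp [Matrix.mul_apply, Finset.sum_apply]
  rw [h1]
  have h2 := MultilinearMap.map_sum
    (Matrix.detRowAlternating (R := ℂ) (n := Fin r)).toMultilinearMap
    (g := fun (i : Fin r) (m : Fin n) => A (f i) m • W m)
  have h3 : Matrix.detRowAlternating (R := ℂ) (n := Fin r)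
      (fun i => ∑ m : Fin n, A (f i) m • W m) =
      ∑ g : Fin r → Fin n, Matrix.detRowAlternating (R := ℂ) (n := Fin r)
        (fun i => A (f i) (g i) • W (g i)) := h2
  rw [h3, Matrix.mulVec, dotProduct]
  apply Finset.sum_congr rfl
  intro g _
  have h4 := MultilinearMap.map_smul_univ
    (Matrix.detRowAlternating (R := ℂ) (n := Fin r)).toMultilinearMap
    (fun i => A (f i) (g i)) (fun i => W (g i))
  have h5 : Matrix.detRowAlternating (R := ℂ) (n := Fin r)
        (fun i => A (f i) (g i) • W (g i)) = (∏ i, A (f i) (g i)) •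
        Matrix.detRowAlternating (R := ℂ) (n := Fin r) (fun i => W (g i)) := h4
  rw [h5]
  rfl

theorem tens_mul {n : ℕ} (r : ℕ) (A B : Matrix (Fin n) (Fin n) ℂ) :
    tens r (A * B) = tens r A * tens r B := by
  ext f h
  rw [Matrix.mul_apply]
  simp only [tens, Matrix.of_apply, Matrix.mul_apply]
  rw [Finset.prod_univ_sum, Fintype.piFinset_univ]
  apply Finset.sum_congr rfl
  intro g _
  rw [Finset.prod_mul_distrib]

theorem tens_one {n : ℕ} (r : ℕ) : tens r (1 : Matrix (Fin n) (Fin n) ℂ) = 1 := by
  ext f g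
  simp only [tens, Matrix.of_apply, Matrix.one_apply]
  by_cases h : f = g
  · subst h; simp
  · rw [if_neg h]
    obtain ⟨i, hi⟩ := Function.ne_iff.1 h
    exact Finset.prod_eq_zero (Finset.mem_univ i) (if_neg hi)

end MP2794d1
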