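import Pool.Agent.Lib.MP_2794d1_ag.E04

/-!
E07: skewness. Skew is closed under br, sums, scalars, mconj (Q is real). For the grading: μᵀ Q + Q μ = wt Q: from
Sᵀ Q (mconj S) = D diagonal, μ = S diag(d) S⁻¹ and mconj μ = wt - μ (E04; or directly): Q (mconj μ) ... Alternatively:
on columns: Q(μ x, star y) + Q(x, μ (star y)) with x, y columns of degrees p, p': star y ∈ H^{wt-p'}, so this is
(p + wt - p') Q(x, star y) = wt Q(x, star y) since Q(x, star y) = 0 unless p = p'. Hence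
(br μ X)ᵀ Q + Q (br μ X) = Xᵀ μᵀ Q - μᵀ Xᵀ Q + Q μ X - Q X μ = Xᵀ (wt Q - Q μ) - μᵀ (-Q X) + (wt Q - μᵀ Q) X - (-Xᵀ Q) μ
= wt (Xᵀ Q + Q X) = 0.
-/

namespace MP2794d1

open Matrix Complex Filter Topology

theorem e07_im_conj {n : ℕ} (Q : Matrix (Fin n) (Fin n) ℤ) : MP2794d1.mconj (im Q) = im Q := by
  ext i j
  simp [MP2794d1.mconj, im]

theorem e07_mul {n : ℕ} (A B : Matrix (Fin n) (Fin n) ℂ) :
    MP2794d1.mconj (A * B) = MP2794d1.mconj A * MP2794d1.mconj B := by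
  unfold MP2794d1.mconj
  exact Matrix.map_mul

theorem e07_add {n : ℕ} (A B : Matrix (Fin n) (Fin n) ℂ) :
    MP2794d1.mconj (A + B) = MP2794d1.mconj A + MP2794d1.mconj B := by
  ext i j
  simp [MP2794d1.mconj]

theorem e07_transpose {n : ℕ} (A : Matrix (Fin n) (Fin n) ℂ) :
    MP2794d1.mconj Aᵀ = (MP2794d1.mconj A)ᵀ := by
  ext i j
  simp [MP2794d1.mconj]

theorem Skew.br {n : ℕ} {Q : Matrix (Fin n) (Fin n) ℤ} {X Y : Matrix (Fin n) (Fin n) ℂ}
    (hX : Skew Q X) (hY : Skew Q Y) : Skew Q (MP2794d1.br X Y) := by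
  unfold Skew at *
  unfold MP2794d1.br
  have h1 : Xᵀ * im Q = -(im Q * X) := eq_neg_of_add_eq_zero_left hX
  have h2 : Yᵀ * im Q = -(im Q * Y) := eq_neg_of_add_eq_zero_left hY
  rw [Matrix.transpose_sub, Matrix.transpose_mul, Matrix.transpose_mul, Matrix.sub_mul,
    Matrix.mul_sub]
  have e1 : Yᵀ * Xᵀ * im Q = im Q * (Y * X) := by
    rw [Matrix.mul_assoc, h1, Matrix.mul_neg, ← Matrix.mul_assoc, h2, Matrix.neg_mul, neg_neg,
      Matrix.mul_assoc]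
  have e2 : Xᵀ * Yᵀ * im Q = im Q * (X * Y) := by
    rw [Matrix.mul_assoc, h2, Matrix.mul_neg, ← Matrix.mul_assoc, h1, Matrix.neg_mul, neg_neg,
      Matrix.mul_assoc]
  rw [e1, e2]
  abel

theorem Skew.add {n : ℕ} {Q : Matrix (Fin n) (Fin n) ℤ} {X Y : Matrix (Fin n) (Fin n) ℂ}
    (hX : Skew Q X) (hY : Skew Q Y) : Skew Q (X + Y) := by
  unfold Skew at *
  rw [Matrix.transpose_add, Matrix.add_mul, Matrix.mul_add]
  calc Xᵀ * im Q + Yᵀ * im Q + (im Q * X + im Q * Y) =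
      (Xᵀ * im Q + im Q * X) + (Yᵀ * im Q + im Q * Y) := by abel
    _ = 0 := by rw [hX, hY, add_zero]

theorem Skew.smul {n : ℕ} {Q : Matrix (Fin n) (Fin n) ℤ} {X : Matrix (Fin n) (Fin n) ℂ}
    (hX : Skew Q X) (c : ℂ) : Skew Q (c • X) := by
  unfold Skew at *
  rw [Matrix.transpose_smul, Matrix.smul_mul, Matrix.mul_smul, ← smul_add, hX, smul_zero]

theorem Skew.mconj {n : ℕ} {Q : Matrix (Fin n) (Fin n) ℤ} {X : Matrix (Fin n) (Fin n) ℂ}
    (hX : Skew Q X) : Skew Q (MP2794d1.mconj X) := by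
  unfold Skew at *
  have h1 := congrArg MP2794d1.mconj hX
  rw [e07_add, e07_mul, e07_mul, e07_im_conj, e07_transpose] at h1
  rw [h1]
  ext i j
  simp [MP2794d1.mconj]

theorem e07_gr {n : ℕ} {wt : ℤ} {Q : Matrix (Fin n) (Fin n) ℤ}
    {Fl : ℤ → Submodule ℂ (Fin n → ℂ)} (h : IsPHS wt Q Fl) {μ : Matrix (Fin n) (Fin n) ℂ}
    (hμ : IsGr wt Fl μ) : μᵀ * im Q = (wt : ℂ) • im Q - im Q * μ := by
  obtain ⟨S, d, hS⟩ := exists_adapted h
  have hSu : IsUnit S.det := hS.inv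
  have hSS : S * S⁻¹ = 1 := Matrix.mul_nonsing_inv S hSu
  have hSS' : S⁻¹ * S = 1 := Matrix.nonsing_inv_mul S hSu
  have hm := gr_eq hS μ hμ
  have hc := gr_conj h hμ
  have hone : MP2794d1.mconj (1 : Matrix (Fin n) (Fin n) ℂ) = 1 := by
    unfold MP2794d1.mconj
    exact Matrix.map_one _ (map_zero _) (map_one _)
  have hT : MP2794d1.mconj S * MP2794d1.mconj S⁻¹ = 1 := by rw [← e07_mul, hSS, hone]
  have hT' : MP2794d1.mconj S⁻¹ * MP2794d1.mconj S = 1 := by rw [← e07_mul, hSS', hone]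
  have hSt : S⁻¹ᵀ * Sᵀ = 1 := by rw [← Matrix.transpose_mul, hSS, Matrix.transpose_one]
  set D0 : Matrix (Fin n) (Fin n) ℂ := Matrix.diagonal (fun a => (d a : ℂ)) with hD0
  set D : Matrix (Fin n) (Fin n) ℂ := Matrix.diagonal (fun a => Complex.I ^ (wt - 2 * d a)) with hD
  have hon : Sᵀ * im Q * MP2794d1.mconj S = D := hS.on
  have hQ : im Q = S⁻¹ᵀ * D * MP2794d1.mconj S⁻¹ := by
    rw [← hon]
    calc im Q = (S⁻¹ᵀ * Sᵀ) * im Q * (MP2794d1.mconj S * MP2794d1.mconj S⁻¹) := by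
          rw [hSt, hT, Matrix.one_mul, Matrix.mul_one]
      _ = _ := by simp only [Matrix.mul_assoc]
  have hcomm : D0 * D = D * D0 := by
    rw [hD0, hD, Matrix.diagonal_mul_diagonal, Matrix.diagonal_mul_diagonal]
    congr 1
    funext a
    ring
  have hD0c : MP2794d1.mconj D0 = D0 := by
    ext i j
    rw [hD0]
    by_cases hij : i = j
    · subst hij; simp [MP2794d1.mconj]
    · simp [MP2794d1.mconj, Matrix.diagonal_apply_ne _ hij]
  have hSt' : Sᵀ * S⁻¹ᵀ = 1 := by rw [← Matrix.transpose_mul, hSS', Matrix.transpose_one]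
  have e1 : μᵀ * im Q = im Q * MP2794d1.mconj μ := by
    calc μᵀ * im Q = S⁻¹ᵀ * D0 * (Sᵀ * S⁻¹ᵀ) * D * MP2794d1.mconj S⁻¹ := by
          rw [hm, hQ, Matrix.transpose_mul, Matrix.transpose_mul, hD0, Matrix.diagonal_transpose]
          simp only [Matrix.mul_assoc]
      _ = S⁻¹ᵀ * (D0 * D) * MP2794d1.mconj S⁻¹ := by
          rw [hSt', Matrix.mul_one]; simp only [Matrix.mul_assoc]
      _ = S⁻¹ᵀ * D * (MP2794d1.mconj S⁻¹ * MP2794d1.mconj S) * D0 * MP2794d1.mconj S⁻¹ := by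
          rw [hcomm, hT', Matrix.mul_one]; simp only [Matrix.mul_assoc]
      _ = im Q * MP2794d1.mconj μ := by
          rw [hm, e07_mul, e07_mul, hD0c, hQ]; simp only [Matrix.mul_assoc]
  rw [e1, hc, Matrix.mul_sub, Matrix.mul_smul, Matrix.mul_one]

theorem Skew.gr {n : ℕ} {wt : ℤ} {Q : Matrix (Fin n) (Fin n) ℤ}
    {Fl : ℤ → Submodule ℂ (Fin n → ℂ)} (h : IsPHS wt Q Fl) {μ : Matrix (Fin n) (Fin n) ℂ}
    (hμ : IsGr wt Fl μ) {X : Matrix (Fin n) (Fin n) ℂ} (hX : Skew Q X) :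
    Skew Q (MP2794d1.br μ X) := by
  have hg := e07_gr h hμ
  unfold Skew at *
  unfold MP2794d1.br
  have h1 : Xᵀ * im Q = -(im Q * X) := eq_neg_of_add_eq_zero_left hX
  rw [Matrix.transpose_sub, Matrix.transpose_mul, Matrix.transpose_mul, Matrix.sub_mul,
    Matrix.mul_sub]
  have e1 : Xᵀ * μᵀ * im Q = -((wt : ℂ) • (im Q * X)) + im Q * X * μ := by
    rw [Matrix.mul_assoc, hg, Matrix.mul_sub, Matrix.mul_smul, ← Matrix.mul_assoc, h1, smul_neg,
      Matrix.neg_mul, sub_neg_eq_add]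
  have e2 : μᵀ * Xᵀ * im Q = -((wt : ℂ) • (im Q * X)) + im Q * μ * X := by
    rw [Matrix.mul_assoc, h1, Matrix.mul_neg, ← Matrix.mul_assoc, hg, Matrix.sub_mul,
      Matrix.smul_mul]
    abel
  rw [e1, e2, ← Matrix.mul_assoc, ← Matrix.mul_assoc]
  abel

end MP2794d1
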