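import Pool.Agent.Lib.MP_2794d1_ag.B07
import Pool.Agent.Lib.MP_2794d1_ag.E07

/-!
S01: N and its conjugates are skew and nilpotent. Let g = im (V.rho c.T) = uexp (cm N) 1; V.flat: gᵀ Q g = Q. For natural
m, g^m = uexp (cm N) m and (g^m)ᵀ Q g^m = Q; the entries of (uexp N s)ᵀ Q (uexp N s) - Q are polynomials in s vanishing
at all naturals, so vanish for all s; the derivative at s = 0 is Nᵀ Q + Q N = 0 (n = 0 trivial). For the conjugate:
ρᵀ Q ρ = Q, ρ = im (V.rho g), ρ' = im (V.rho g⁻¹) = ρ⁻¹; cm (c.conj g) = ρ * cm N * ρ'.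
-/

namespace MP2794d1

open Matrix Complex Filter Topology

theorem S01_im_mul {n : ℕ} (A B : Matrix (Fin n) (Fin n) ℤ) : im (A * B) = im A * im B := by
  have : ∀ X : Matrix (Fin n) (Fin n) ℤ, im X = X.map (Int.castRingHom ℂ) := fun X => rfl
  rw [this, this, this, Matrix.map_mul]

theorem S01_im_transpose {n : ℕ} (A : Matrix (Fin n) (Fin n) ℤ) : im Aᵀ = (im A)ᵀ := rfl

theorem S01_im_one {n : ℕ} : im (1 : Matrix (Fin n) (Fin n) ℤ) = 1 := by
  have : im (1 : Matrix (Fin n) (Fin n) ℤ) =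
      (1 : Matrix (Fin n) (Fin n) ℤ).map (Int.castRingHom ℂ) := rfl
  rw [this, Matrix.map_one _ (map_zero _) (map_one _)]

theorem S01_cm_mul {n : ℕ} (A B : Matrix (Fin n) (Fin n) ℚ) : cm (A * B) = cm A * cm B := by
  have : ∀ X : Matrix (Fin n) (Fin n) ℚ, cm X = X.map (Rat.castHom ℂ) := fun X => rfl
  rw [this, this, this, Matrix.map_mul]

theorem S01_cm_int {n : ℕ} (A : Matrix (Fin n) (Fin n) ℤ) :
    cm (A.map (fun q : ℤ => (q : ℚ))) = im A := by
  ext i j; simp [cm, im]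

theorem S01_flat {n : ℕ} (V : PolVHS n) (g : V.grp) :
    (im (V.rho g : Matrix (Fin n) (Fin n) ℤ))ᵀ * im V.Q * im (V.rho g : Matrix (Fin n) (Fin n) ℤ) =
      im V.Q := by
  rw [← S01_im_transpose, ← S01_im_mul, ← S01_im_mul, V.flat g]

theorem S01_nat {n : ℕ} (V : PolVHS n) (c : Cusp V) (m : ℕ) :
    (uexp (cm c.N) (m : ℂ))ᵀ * im V.Q * uexp (cm c.N) (m : ℂ) = im V.Q := by
  have h1 := S01_flat V c.T
  rw [c.exp_eq] at h1
  induction m with
  | zero => rw [Nat.cast_zero, uexp_zero]; simp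
  | succ m ih =>
    rw [Nat.cast_add, Nat.cast_one, uexp_add _ (cm_pow c.N c.nil), Matrix.transpose_mul]
    calc (uexp (cm c.N) 1)ᵀ * (uexp (cm c.N) (m : ℂ))ᵀ * im V.Q *
          (uexp (cm c.N) (m : ℂ) * uexp (cm c.N) 1)
        = (uexp (cm c.N) 1)ᵀ * ((uexp (cm c.N) (m : ℂ))ᵀ * im V.Q * uexp (cm c.N) (m : ℂ)) *
          uexp (cm c.N) 1 := by simp only [Matrix.mul_assoc]
      _ = im V.Q := by rw [ih, h1]

theorem S01_all {n : ℕ} (V : PolVHS n) (c : Cusp V) (s : ℂ) :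
    (uexp (cm c.N) s)ᵀ * im V.Q * uexp (cm c.N) s = im V.Q := by
  obtain ⟨P, hP⟩ := uexp_poly c.N
  ext i j
  set R : Polynomial ℂ := ∑ l, (∑ k, (P k i).map (algebraMap ℚ ℂ) * Polynomial.C (im V.Q k l)) *
    (P l j).map (algebraMap ℚ ℂ) with hR
  have hev : ∀ t : ℂ, R.eval t = ((uexp (cm c.N) t)ᵀ * im V.Q * uexp (cm c.N) t) i j := by
    intro t
    rw [hR, hP]
    simp only [Polynomial.eval_finset_sum, Polynomial.eval_mul, Polynomial.eval_C,
      Matrix.mul_apply, Matrix.transpose_apply, Matrix.map_apply, Polynomial.eval_map_algebraMap]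
  have hc : R = Polynomial.C (im V.Q i j) := by
    refine Polynomial.eq_of_infinite_eval_eq _ _ ?_
    refine (Set.infinite_range_of_injective (Nat.cast_injective (R := ℂ))).mono ?_
    rintro _ ⟨m, rfl⟩
    show R.eval (m : ℂ) = (Polynomial.C (im V.Q i j)).eval (m : ℂ)
    rw [hev, S01_nat, Polynomial.eval_C]
  rw [← hev, hc, Polynomial.eval_C]

theorem skew_N {n : ℕ} (V : PolVHS n) (c : Cusp V) : Skew V.Q (cm c.N) := by
  have hN := cm_pow c.N c.nil
  have hall := S01_all V c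
  set N := cm c.N with hNdef
  unfold Skew
  ext i j
  have hd : HasDerivAt (fun s => ∑ l, (∑ k, uexp N s k i * im V.Q k l) * uexp N s l j)
      (∑ l, ((∑ k, (N * uexp N 0) k i * im V.Q k l) * uexp N 0 l j +
        (∑ k, uexp N 0 k i * im V.Q k l) * (N * uexp N 0) l j)) 0 :=
    HasDerivAt.fun_sum fun l _ =>
      (HasDerivAt.fun_sum fun k _ => (uexp_deriv N hN 0 k i).mul_const (im V.Q k l)).mul
        (uexp_deriv N hN 0 l j)
  have hconst : (fun s => ∑ l, (∑ k, uexp N s k i * im V.Q k l) * uexp N s l j) =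
      fun _ => im V.Q i j := by
    funext s
    have := congrFun (congrFun (hall s) i) j
    rw [← this]
    simp only [Matrix.mul_apply, Matrix.transpose_apply]
  rw [hconst] at hd
  have h0 := hd.unique (hasDerivAt_const (0 : ℂ) (im V.Q i j))
  rw [uexp_zero, Matrix.mul_one, Finset.sum_add_distrib] at h0
  have e1 : ∑ l, (∑ k, N k i * im V.Q k l) * (1 : Matrix (Fin n) (Fin n) ℂ) l j =
      (Nᵀ * im V.Q * (1 : Matrix (Fin n) (Fin n) ℂ)) i j := by
    simp only [Matrix.mul_apply, Matrix.transpose_apply]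
  have e2 : ∑ l, (∑ k, (1 : Matrix (Fin n) (Fin n) ℂ) k i * im V.Q k l) * N l j =
      ((1 : Matrix (Fin n) (Fin n) ℂ)ᵀ * im V.Q * N) i j := by
    simp only [Matrix.mul_apply, Matrix.transpose_apply]
  rw [e1, e2, Matrix.mul_one, Matrix.transpose_one, Matrix.one_mul] at h0
  exact h0

theorem cm_conj {n : ℕ} (V : PolVHS n) (c : Cusp V) (g : V.grp) :
    cm (c.conj g) = im (V.rho g : Matrix (Fin n) (Fin n) ℤ) * cm c.N *
      im (V.rho g⁻¹ : Matrix (Fin n) (Fin n) ℤ) := by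
  unfold Cusp.conj
  rw [S01_cm_mul, S01_cm_mul, S01_cm_int, S01_cm_int]

theorem rho_mul_inv {n : ℕ} (V : PolVHS n) (g : V.grp) :
    im (V.rho g : Matrix (Fin n) (Fin n) ℤ) * im (V.rho g⁻¹ : Matrix (Fin n) (Fin n) ℤ) = 1 ∧
    im (V.rho g⁻¹ : Matrix (Fin n) (Fin n) ℤ) * im (V.rho g : Matrix (Fin n) (Fin n) ℤ) = 1 := by
  constructor
  · rw [← S01_im_mul, ← Units.val_mul, ← map_mul, mul_inv_cancel, map_one, Units.val_one,
      S01_im_one]
  · rw [← S01_im_mul, ← Units.val_mul, ← map_mul, inv_mul_cancel, map_one, Units.val_one,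
      S01_im_one]

theorem skew_conj {n : ℕ} (V : PolVHS n) (c : Cusp V) (g : V.grp) :
    Skew V.Q (cm (c.conj g)) := by
  have h0 := skew_N V c
  have hf := S01_flat V g
  obtain ⟨h1, h2⟩ := rho_mul_inv V g
  unfold Skew at h0 ⊢
  rw [cm_conj]
  set ρ := im (V.rho g : Matrix (Fin n) (Fin n) ℤ) with hρ
  set ρ' := im (V.rho g⁻¹ : Matrix (Fin n) (Fin n) ℤ) with hρ'
  set N := cm c.N with hN
  set Q := im V.Q with hQ
  have a1 : ρᵀ * Q = Q * ρ' := by
    calc ρᵀ * Q = ρᵀ * Q * (ρ * ρ') := by rw [h1, Matrix.mul_one]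
      _ = (ρᵀ * Q * ρ) * ρ' := by simp only [Matrix.mul_assoc]
      _ = Q * ρ' := by rw [hf]
  have a2 : Q * ρ = ρ'ᵀ * Q := by
    calc Q * ρ = (ρ * ρ')ᵀ * (Q * ρ) := by rw [h1, Matrix.transpose_one, Matrix.one_mul]
      _ = ρ'ᵀ * (ρᵀ * Q * ρ) := by rw [Matrix.transpose_mul]; simp only [Matrix.mul_assoc]
      _ = ρ'ᵀ * Q := by rw [hf]
  calc (ρ * N * ρ')ᵀ * Q + Q * (ρ * N * ρ')
      = ρ'ᵀ * Nᵀ * (ρᵀ * Q) + (Q * ρ) * (N * ρ') := by
        rw [Matrix.transpose_mul, Matrix.transpose_mul]; simp only [Matrix.mul_assoc]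
    _ = ρ'ᵀ * Nᵀ * (Q * ρ') + (ρ'ᵀ * Q) * (N * ρ') := by rw [a1, a2]
    _ = ρ'ᵀ * (Nᵀ * Q + Q * N) * ρ' := by
        rw [Matrix.mul_add, Matrix.add_mul]; simp only [Matrix.mul_assoc]
    _ = 0 := by rw [h0, Matrix.mul_zero, Matrix.zero_mul]

theorem nil_conj {n : ℕ} (V : PolVHS n) (c : Cusp V) (g : V.grp) :
    (cm (c.conj g)) ^ n = 0 := by
  obtain ⟨h1, h2⟩ := rho_mul_inv V g
  have key : ∀ k : ℕ, (cm (c.conj g)) ^ k = im (V.rho g : Matrix (Fin n) (Fin n) ℤ) *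
      (cm c.N) ^ k * im (V.rho g⁻¹ : Matrix (Fin n) (Fin n) ℤ) := by
    intro k
    induction k with
    | zero => rw [pow_zero, pow_zero, Matrix.mul_one, h1]
    | succ k ih =>
      rw [pow_succ, ih, cm_conj, pow_succ]
      calc im (V.rho g : Matrix (Fin n) (Fin n) ℤ) * cm c.N ^ k *
            im (V.rho g⁻¹ : Matrix (Fin n) (Fin n) ℤ) *
            (im (V.rho g : Matrix (Fin n) (Fin n) ℤ) * cm c.N *
            im (V.rho g⁻¹ : Matrix (Fin n) (Fin n) ℤ))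
          = im (V.rho g : Matrix (Fin n) (Fin n) ℤ) * cm c.N ^ k *
            (im (V.rho g⁻¹ : Matrix (Fin n) (Fin n) ℤ) *
            im (V.rho g : Matrix (Fin n) (Fin n) ℤ)) * cm c.N *
            im (V.rho g⁻¹ : Matrix (Fin n) (Fin n) ℤ) := by simp only [Matrix.mul_assoc]
        _ = _ := by rw [h2, Matrix.mul_one]; simp only [Matrix.mul_assoc]
  rw [key, cm_pow c.N c.nil, Matrix.mul_zero, Matrix.zero_mul]

theorem mconj_cm {n : ℕ} (X : Matrix (Fin n) (Fin n) ℚ) : mconj (cm X) = cm X := by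
  ext i j; simp [mconj, cm]

end MP2794d1
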