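import Pool.Agent.Lib.MP_2794d1_ag.Base

/-!
B02: stable subspaces of a matrix with separable characteristic polynomial. The roots are n distinct numbers
e 0, ..., e (n-1); eigenvectors b j ≠ 0 with A b j = e j b j are linearly independent
(Module.End.eigenvectors_linearIndependent), hence a basis. For a stable F put I = {j : b j ∈ F}, T = complement.
If x = ∑ x_j b_j ∈ F then applying ∏_{l ≠ j}(A - e_l) gives x_j ∏(e_j - e_l) b_j ∈ F, so x_j = 0 or j ∈ I; so
F = span {b j : j ∈ I}. The matrix ∏_{l ∈ T}(A - e_l) kills b_l (l ∈ T) and multiplies b_j (j ∈ I) by a nonzero number;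
so its range is F.
-/

namespace MP2794d1

open Matrix Complex Filter Topology

theorem B02_pow {n : ℕ} (A : Matrix (Fin n) (Fin n) ℂ) (w : Fin n → ℂ) (e : ℂ)
    (h : A *ᵥ w = e • w) (k : ℕ) : A ^ k *ᵥ w = e ^ k • w := by
  induction k with
  | zero => simp
  | succ k ih =>
    rw [pow_succ, ← Matrix.mulVec_mulVec, h, Matrix.mulVec_smul, ih, smul_smul, pow_succ, mul_comm]

theorem B02_aeval {n : ℕ} (A : Matrix (Fin n) (Fin n) ℂ) (w : Fin n → ℂ) (e : ℂ)
    (h : A *ᵥ w = e • w) (p : Polynomial ℂ) :
    (Polynomial.aeval A p) *ᵥ w = p.eval e • w := by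
  induction p using Polynomial.induction_on' with
  | add p q hp hq => rw [map_add, Matrix.add_mulVec, hp, hq, Polynomial.eval_add, add_smul]
  | monomial k c =>
    rw [Polynomial.aeval_monomial, ← Algebra.smul_def, Matrix.smul_mulVec, B02_pow A w e h k,
      Polynomial.eval_monomial, smul_smul]

theorem B02_stable {n : ℕ} (A : Matrix (Fin n) (Fin n) ℂ) (F : Submodule ℂ (Fin n → ℂ))
    (hF : ∀ x ∈ F, A *ᵥ x ∈ F) (p : Polynomial ℂ) (x : Fin n → ℂ) (hx : x ∈ F) :
    (Polynomial.aeval A p) *ᵥ x ∈ F := by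
  have hpow : ∀ k : ℕ, A ^ k *ᵥ x ∈ F := by
    intro k
    induction k with
    | zero => simpa using hx
    | succ k ih =>
      rw [pow_succ', ← Matrix.mulVec_mulVec]
      exact hF _ ih
  induction p using Polynomial.induction_on' with
  | add p q hp hq => rw [map_add, Matrix.add_mulVec]; exact F.add_mem hp hq
  | monomial k c =>
    rw [Polynomial.aeval_monomial, ← Algebra.smul_def, Matrix.smul_mulVec]
    exact F.smul_mem _ (hpow k)

theorem exists_eigs {n : ℕ} (A : Matrix (Fin n) (Fin n) ℂ) (hA : A.charpoly.Separable) :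
    ∃ e : Fin n → ℂ, (∀ j, ∃ w : Fin n → ℂ, w ≠ 0 ∧ A *ᵥ w = e j • w) ∧
      ∀ F : Submodule ℂ (Fin n → ℂ), (∀ x ∈ F, A *ᵥ x ∈ F) → ∃ T : Finset (Fin n),
        F = LinearMap.range (Polynomial.aeval A
          (∏ j ∈ T, (Polynomial.X - Polynomial.C (e j)))).mulVecLin := by
  classical
  have hsplit : A.charpoly.Splits := IsAlgClosed.splits _
  have hcard : A.charpoly.roots.card = n := by
    rw [Polynomial.splits_iff_card_roots.1 hsplit, Matrix.charpoly_natDegree_eq_dim,
      Fintype.card_fin]
  have hnd : A.charpoly.roots.Nodup := Polynomial.nodup_roots hA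
  have hcard' : A.charpoly.roots.toFinset.card = n := by
    rw [Multiset.toFinset_card_of_nodup hnd, hcard]
  set E := (Finset.equivFinOfCardEq hcard').symm with hE
  set e : Fin n → ℂ := fun j => (E j : ℂ) with he
  have hinj : Function.Injective e := fun a b hab => E.injective (Subtype.ext hab)
  have hw : ∀ j, ∃ w : Fin n → ℂ, w ≠ 0 ∧ A *ᵥ w = e j • w := by
    intro j
    have h1 : e j ∈ A.charpoly.roots := by
      have := (E j).2
      rwa [Multiset.mem_toFinset] at this
    have h2 : A.charpoly.eval (e j) = 0 := (Polynomial.mem_roots'.1 h1).2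
    rw [Matrix.eval_charpoly] at h2
    obtain ⟨w, hw0, hw1⟩ := Matrix.exists_mulVec_eq_zero_iff.2 h2
    refine ⟨w, hw0, ?_⟩
    rw [Matrix.sub_mulVec, sub_eq_zero] at hw1
    rw [← hw1]
    ext i
    simp [Matrix.scalar_apply, Matrix.mulVec_diagonal]
  refine ⟨e, hw, ?_⟩
  choose b hb0 hb using hw
  have hlin : LinearIndependent ℂ b := by
    have h1 := Module.End.eigenvectors_linearIndependent' (Matrix.toLin' A) e hinj b (by
      intro j
      refine ⟨?_, hb0 j⟩
      rw [Module.End.mem_eigenspace_iff, Matrix.toLin'_apply]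
      exact hb j)
    exact h1
  have hspan : ⊤ ≤ Submodule.span ℂ (Set.range b) := by
    rw [LinearIndependent.span_eq_top_of_card_eq_finrank' hlin (by simp)]
  set B : Module.Basis (Fin n) ℂ (Fin n → ℂ) := Module.Basis.mk hlin hspan with hB
  have hBb : ∀ j, B j = b j := fun j => by rw [hB, Module.Basis.mk_apply]
  have hexp : ∀ x : Fin n → ℂ, x = ∑ j, B.repr x j • b j := by
    intro x
    conv_lhs => rw [← B.sum_repr x]
    simp [hBb]
  have happ : ∀ (p : Polynomial ℂ) (x : Fin n → ℂ), (Polynomial.aeval A p) *ᵥ x =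
      ∑ j, (B.repr x j * p.eval (e j)) • b j := by
    intro p x
    conv_lhs => rw [hexp x]
    rw [← Matrix.mulVecLin_apply, map_sum]
    apply Finset.sum_congr rfl
    intro j _
    rw [map_smul, Matrix.mulVecLin_apply, B02_aeval A (b j) (e j) (hb j), smul_smul]
  intro F hF
  set T : Finset (Fin n) := Finset.univ.filter (fun j => b j ∉ F) with hT
  refine ⟨T, ?_⟩
  have hev : ∀ j, j ∈ T → (∏ l ∈ T, (Polynomial.X - Polynomial.C (e l))).eval (e j) = 0 := by
    intro j hj
    rw [Polynomial.eval_prod]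
    exact Finset.prod_eq_zero hj (by simp)
  have hev' : ∀ j, j ∉ T → (∏ l ∈ T, (Polynomial.X - Polynomial.C (e l))).eval (e j) ≠ 0 := by
    intro j hj
    rw [Polynomial.eval_prod, Finset.prod_ne_zero_iff]
    intro l hl
    simp only [Polynomial.eval_sub, Polynomial.eval_X, Polynomial.eval_C]
    rw [sub_ne_zero]
    intro h
    apply hj
    rw [hinj h]
    exact hl
  have hmemF : ∀ x ∈ F, ∀ j ∈ T, B.repr x j = 0 := by
    intro x hx j hj
    by_contra hne
    have h1 := B02_stable A F hF (∏ l ∈ Finset.univ.erase j,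
      (Polynomial.X - Polynomial.C (e l))) x hx
    rw [happ, Finset.sum_eq_single j] at h1
    · have h2 : (∏ l ∈ Finset.univ.erase j,
          (Polynomial.X - Polynomial.C (e l))).eval (e j) ≠ 0 := by
        rw [Polynomial.eval_prod, Finset.prod_ne_zero_iff]
        intro l hl
        simp only [Polynomial.eval_sub, Polynomial.eval_X, Polynomial.eval_C]
        rw [sub_ne_zero]
        intro h
        exact (Finset.ne_of_mem_erase hl) (hinj h).symm
      have h3 := (F.smul_mem_iff (mul_ne_zero hne h2)).1 h1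
      exact (Finset.mem_filter.1 hj).2 h3
    · intro l _ hl
      have : (∏ k ∈ Finset.univ.erase j,
          (Polynomial.X - Polynomial.C (e k))).eval (e l) = 0 := by
        rw [Polynomial.eval_prod]
        exact Finset.prod_eq_zero (Finset.mem_erase.2 ⟨hl, Finset.mem_univ l⟩) (by simp)
      rw [this, mul_zero, zero_smul]
    · intro h; exact absurd (Finset.mem_univ j) h
  apply le_antisymm
  · intro x hx
    refine ⟨∑ j, (if j ∈ T then 0 else B.repr x j /
      (∏ l ∈ T, (Polynomial.X - Polynomial.C (e l))).eval (e j)) • b j, ?_⟩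
    rw [Matrix.mulVecLin_apply]
    conv_rhs => rw [hexp x]
    rw [← Matrix.mulVecLin_apply, map_sum]
    apply Finset.sum_congr rfl
    intro j _
    rw [map_smul, Matrix.mulVecLin_apply, B02_aeval A (b j) (e j) (hb j), smul_smul]
    by_cases hj : j ∈ T
    · rw [if_pos hj, zero_mul, hmemF x hx j hj]
    · rw [if_neg hj, div_mul_cancel₀ _ (hev' j hj)]
  · rintro _ ⟨x, rfl⟩
    rw [Matrix.mulVecLin_apply, happ]
    apply F.sum_mem
    intro j _
    by_cases hj : j ∈ T
    · rw [hev j hj, mul_zero, zero_smul]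
      exact F.zero_mem
    · apply F.smul_mem
      by_contra hne
      exact hj (Finset.mem_filter.2 ⟨Finset.mem_univ j, hne⟩)

end MP2794d1
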