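import Pool.Agent.Lib.MP_2794d1_ag.B01

/-!
B03: Let Pi be n × n with the same range as the n × r matrix W of rank r. Then Pi = W * G' for an r × n matrix G'
(each column of Pi is in the range of W), and G' has rank r: W G' and W have the same range and W is injective, so
G' is surjective, i.e. the rows of G' are linearly independent; by B01 (applied to the transpose of G') there is J with
c := det (G'.submatrix id J) ≠ 0. Then Pi.submatrix f J = (W.submatrix f id) * (G'.submatrix id J).
-/

namespace MP2794d1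

open Matrix Complex Filter Topology

theorem minor_range {n r : ℕ} (P : Matrix (Fin n) (Fin n) ℂ) (W : Matrix (Fin n) (Fin r) ℂ)
    (hW : LinearIndependent ℂ Wᵀ) (h : LinearMap.range P.mulVecLin = LinearMap.range W.mulVecLin) :
    ∃ (J : Fin r → Fin n) (c : ℂ), c ≠ 0 ∧ ∀ f : Fin r → Fin n,
      (P.submatrix f J).det = c * minor W f := by
  have h1 : ∀ j : Fin n, ∃ g : Fin r → ℂ, W *ᵥ g = P.col j := by
    intro j
    have h2 : P.col j ∈ LinearMap.range P.mulVecLin := ⟨Pi.single j 1, by
      rw [Matrix.mulVecLin_apply, Matrix.mulVec_single_one]⟩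
    rw [h] at h2
    obtain ⟨g, hg⟩ := h2
    exact ⟨g, hg⟩
  choose g hg using h1
  have h3 : P = W * (Matrix.of g)ᵀ := by
    ext i j
    have := congrFun (hg j) i
    rw [Matrix.col_apply] at this
    rw [← this, Matrix.mul_apply]
    rfl
  set G : Matrix (Fin r) (Fin n) ℂ := (Matrix.of g)ᵀ with hG
  have hinj : Function.Injective W.mulVec := by
    rw [Matrix.mulVec_injective_iff]; exact hW
  have h4 : ∀ j : Fin r, ∃ y : Fin n → ℂ, G *ᵥ y = Pi.single j 1 := by
    intro j
    have h5 : W *ᵥ (Pi.single j 1) ∈ LinearMap.range W.mulVecLin := ⟨Pi.single j 1, rfl⟩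
    rw [← h] at h5
    obtain ⟨y, hy⟩ := h5
    refine ⟨y, hinj ?_⟩
    rw [Matrix.mulVec_mulVec, ← h3]
    exact hy
  choose y hy using h4
  have h6 : G * (Matrix.of y)ᵀ = 1 := by
    ext i j
    have := congrFun (hy j) i
    rw [Matrix.mul_apply]
    rw [Matrix.one_apply]
    have h7 : (G *ᵥ y j) i = ∑ k, G i k * (Matrix.of y)ᵀ k j := rfl
    rw [← h7, this, Pi.single_apply]
  have h8 : LinearIndependent ℂ G.row := by
    rw [← Matrix.vecMul_injective_iff]
    intro u v huv
    have h9 : u ᵥ* G ᵥ* (Matrix.of y)ᵀ = v ᵥ* G ᵥ* (Matrix.of y)ᵀ := by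
      have huv' : u ᵥ* G = v ᵥ* G := huv
      rw [huv']
    rw [Matrix.vecMul_vecMul, Matrix.vecMul_vecMul, h6, Matrix.vecMul_one, Matrix.vecMul_one] at h9
    exact h9
  obtain ⟨J, hJ⟩ := exists_minor_ne Gᵀ h8
  refine ⟨J, minor Gᵀ J, hJ, ?_⟩
  intro f
  have h10 : P.submatrix f J = (W.submatrix f id) * (G.submatrix id J) := by
    rw [h3]
    ext a b
    simp [Matrix.mul_apply]
  rw [h10, Matrix.det_mul, mul_comm]
  congr 1
  unfold minor
  rw [← Matrix.det_transpose]
  rfl

end MP2794d1
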