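import Pool.Agent.Lib.MP_2794d1_ag.K04

/-!
K05: Ahlfors lemma. Fix z₀, 0 < R < im z₀ and s w = R² - ‖w - z₀‖² = R² - (w.re - z₀.re)² - (w.im - z₀.im)², a smooth
function, m w = f w * s w ^ 2. If f z₀ = 0 nothing to prove. m is continuous on the closed ball B(z₀, R) (contained in the upper
half plane), 0 on its boundary, m z₀ = f z₀ R⁴ > 0: the maximum over the closed ball is attained at an interior point w, so w is
a local maximum with m w ≥ m z₀ > 0, f w > 0, s w > 0. Let u = w - z₀. By lapl_max for m: px m = py m = 0 and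
px px m + py py m ≤ 0. With px s = -2 u.re, py s = -2 u.im, px px s = py py s = -2: px f = 4 u.re f/s, py f = 4 u.im f/s, so
(px f)² + (py f)² = 16 f² |u|²/s², and 0 ≥ s² Δf + 4 s (px f px s + py f py s) + f (2 (px s)² + 2 (py s)² + 2 s Δs) =
s² Δf - 32 f |u|² + 8 f |u|² - 8 s f, so s² Δf ≤ 24 f |u|² + 8 s f. The hypothesis multiplied by s²/f gives
16 f |u|² + 4 c f² s² ≤ s² Δf. So 4 c f s² ≤ 8 |u|² + 8 s = 8 R², i.e. m w ≤ 2R²/c, f z₀ ≤ 2/(c R²). Let R → im z₀.
-/

namespace MP2794d1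

open Matrix Complex Filter Topology
open scoped ContDiff

/-- derivative in the direction `v` -/
noncomputable def K05_D (v : ℂ) (f : ℂ → ℝ) (z : ℂ) : ℝ := fderiv ℝ f z v

theorem K05_D_mul (v : ℂ) {f g : ℂ → ℝ} {z : ℂ} (hf : DifferentiableAt ℝ f z)
    (hg : DifferentiableAt ℝ g z) :
    K05_D v (fun y => f y * g y) z = K05_D v f z * g z + f z * K05_D v g z := by
  unfold K05_D
  have h := (hf.hasFDerivAt.mul hg.hasFDerivAt).fderiv
  have h' : fderiv ℝ (fun y => f y * g y) z = f z • fderiv ℝ g z + g z • fderiv ℝ f z := h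
  rw [h']
  simp only [_root_.add_apply, _root_.smul_apply, smul_eq_mul]
  ring

theorem K05_D_diff (v : ℂ) {f : ℂ → ℝ} {z : ℂ} (hf : ContDiffAt ℝ 2 f z) :
    DifferentiableAt ℝ (K05_D v f) z := by
  have h : ContDiffAt ℝ 1 (fderiv ℝ f) z := hf.fderiv_right (by norm_num)
  exact (h.clm_apply contDiffAt_const).differentiableAt (by norm_num)

theorem K05_DD_mul (v : ℂ) {f g : ℂ → ℝ} {z : ℂ} (hf : ContDiffAt ℝ 2 f z)
    (hg : ContDiffAt ℝ 2 g z) :
    K05_D v (K05_D v (fun y => f y * g y)) z =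
      K05_D v (K05_D v f) z * g z + 2 * (K05_D v f z * K05_D v g z) +
        f z * K05_D v (K05_D v g) z := by
  have h1 : K05_D v (fun y => f y * g y) =ᶠ[𝓝 z]
      fun y => K05_D v f y * g y + f y * K05_D v g y := by
    have e1 := (hf.eventually (by norm_num)).mono fun y hy =>
      hy.differentiableAt (by norm_num : (2 : WithTop ℕ∞) ≠ 0)
    have e2 := (hg.eventually (by norm_num)).mono fun y hy =>
      hy.differentiableAt (by norm_num : (2 : WithTop ℕ∞) ≠ 0)
    filter_upwards [e1, e2] with y h1 h2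
    exact K05_D_mul v h1 h2
  have h2 : K05_D v (K05_D v (fun y => f y * g y)) z =
      K05_D v (fun y => K05_D v f y * g y + f y * K05_D v g y) z := by
    unfold K05_D at h1 ⊢
    rw [h1.fderiv_eq]
  rw [h2]
  have hf1 := hf.differentiableAt (by norm_num : (2 : WithTop ℕ∞) ≠ 0)
  have hg1 := hg.differentiableAt (by norm_num : (2 : WithTop ℕ∞) ≠ 0)
  have hDf := K05_D_diff v hf
  have hDg := K05_D_diff v hg
  have h3 : K05_D v (fun y => K05_D v f y * g y + f y * K05_D v g y) z =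
      K05_D v (fun y => K05_D v f y * g y) z + K05_D v (fun y => f y * K05_D v g y) z := by
    have e1 : DifferentiableAt ℝ (fun y => K05_D v f y * g y) z := hDf.mul hg1
    have e2 : DifferentiableAt ℝ (fun y => f y * K05_D v g y) z := hf1.mul hDg
    have := (e1.hasFDerivAt.add e2.hasFDerivAt).fderiv
    change fderiv ℝ ((fun y => K05_D v f y * g y) + fun y => f y * K05_D v g y) z v = _
    rw [this]
    rfl
  rw [h3, K05_D_mul v hDf hg1, K05_D_mul v hf1 hDg]
  ring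

/-- the function `R² - |w - z₀|²` -/
noncomputable def K05_s (z₀ : ℂ) (R : ℝ) (w : ℂ) : ℝ :=
  R ^ 2 - (w.re - z₀.re) ^ 2 - (w.im - z₀.im) ^ 2

theorem K05_s_contDiff (z₀ : ℂ) (R : ℝ) : ContDiff ℝ 2 (K05_s z₀ R) := by
  unfold K05_s
  have h1 : ContDiff ℝ 2 (fun w : ℂ => w.re) := Complex.reCLM.contDiff
  have h2 : ContDiff ℝ 2 (fun w : ℂ => w.im) := Complex.imCLM.contDiff
  exact (contDiff_const.sub ((h1.sub contDiff_const).pow 2)).sub ((h2.sub contDiff_const).pow 2)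

theorem K05_D_s (v z₀ : ℂ) (R : ℝ) (w : ℂ) :
    K05_D v (K05_s z₀ R) w = -2 * (w.re - z₀.re) * v.re - 2 * (w.im - z₀.im) * v.im := by
  have h1 : HasFDerivAt (fun w : ℂ => w.re) Complex.reCLM w := Complex.reCLM.hasFDerivAt
  have h2 : HasFDerivAt (fun w : ℂ => w.im) Complex.imCLM w := Complex.imCLM.hasFDerivAt
  have h3 := ((hasFDerivAt_const (R ^ 2) w).sub ((h1.sub_const z₀.re).pow 2)).sub
    ((h2.sub_const z₀.im).pow 2)
  have h4 : fderiv ℝ (K05_s z₀ R) w = _ := h3.fderiv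
  unfold K05_D
  rw [h4]
  simp

theorem K05_DD_s (v z₀ : ℂ) (R : ℝ) (w : ℂ) :
    K05_D v (K05_D v (K05_s z₀ R)) w = -2 * v.re ^ 2 - 2 * v.im ^ 2 := by
  have h0 : K05_D v (K05_s z₀ R) =
      fun w : ℂ => -2 * (w.re - z₀.re) * v.re - 2 * (w.im - z₀.im) * v.im := by
    funext w
    exact K05_D_s v z₀ R w
  have h1 : HasFDerivAt (fun w : ℂ => w.re) Complex.reCLM w := Complex.reCLM.hasFDerivAt
  have h2 : HasFDerivAt (fun w : ℂ => w.im) Complex.imCLM w := Complex.imCLM.hasFDerivAt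
  have h3 := (((h1.sub_const z₀.re).const_mul (-2)).mul_const v.re).sub
    (((h2.sub_const z₀.im).const_mul 2).mul_const v.im)
  have h4 : fderiv ℝ (fun w : ℂ => -2 * (w.re - z₀.re) * v.re - 2 * (w.im - z₀.im) * v.im) w = _ :=
    h3.fderiv
  rw [h0]
  unfold K05_D
  rw [h4]
  simp
  ring

/-- the estimate for one radius -/
theorem K05_radius (f : ℂ → ℝ) (hf : ∀ z : ℂ, 0 < z.im → ContDiffAt ℝ 2 f z)
    (h0 : ∀ z : ℂ, 0 < z.im → 0 ≤ f z) (c : ℝ) (hc : 0 < c)
    (hpde : ∀ z : ℂ, 0 < z.im → (px f z) ^ 2 + (py f z) ^ 2 + 4 * c * f z ^ 3 ≤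
      f z * (px (px f) z + py (py f) z)) (z₀ : ℂ) (hz : 0 < z₀.im) (hfz : 0 < f z₀) (R : ℝ)
    (hR : 0 < R) (hRz : R < z₀.im) : c * R ^ 2 * f z₀ ≤ 2 := by
  have hs : ∀ w : ℂ, K05_s z₀ R w = R ^ 2 - ‖w - z₀‖ ^ 2 := by
    intro w
    unfold K05_s
    rw [← Complex.normSq_eq_norm_sq, Complex.normSq_apply, Complex.sub_re, Complex.sub_im]
    ring
  have him : ∀ w : ℂ, w ∈ Metric.closedBall z₀ R → 0 < w.im := by
    intro w hw
    rw [mem_closedBall_iff_norm] at hw
    have h1 := (Complex.abs_im_le_norm (w - z₀)).trans hw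
    rw [Complex.sub_im] at h1
    have := (abs_le.1 h1).1
    linarith
  let g : ℂ → ℝ := fun w => K05_s z₀ R w * K05_s z₀ R w
  have hg : ContDiff ℝ 2 g := (K05_s_contDiff z₀ R).mul (K05_s_contDiff z₀ R)
  let m : ℂ → ℝ := fun w => f w * g w
  have hmc : ContinuousOn m (Metric.closedBall z₀ R) := by
    intro w hw
    exact ((hf w (him w hw)).continuousAt.mul hg.continuous.continuousAt).continuousWithinAt
  obtain ⟨w, hw, hmax⟩ := (isCompact_closedBall z₀ R).exists_isMaxOn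
    ⟨z₀, Metric.mem_closedBall_self hR.le⟩ hmc
  have hmz : m z₀ = f z₀ * R ^ 4 := by
    change f z₀ * (K05_s z₀ R z₀ * K05_s z₀ R z₀) = _
    rw [hs, sub_self, norm_zero]
    ring
  have hmw : f z₀ * R ^ 4 ≤ m w := by
    rw [← hmz]
    exact hmax (Metric.mem_closedBall_self hR.le)
  have hmpos : 0 < m w := lt_of_lt_of_le (by positivity) hmw
  have hfw0 : 0 ≤ f w := h0 w (him w hw)
  have hsw : 0 ≤ K05_s z₀ R w := by
    rw [hs]
    rw [mem_closedBall_iff_norm] at hw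
    have := pow_le_pow_left₀ (norm_nonneg _) hw 2
    linarith
  have hsw' : 0 < K05_s z₀ R w := by
    rcases hsw.lt_or_eq with h | h
    · exact h
    · exfalso
      change 0 < f w * (K05_s z₀ R w * K05_s z₀ R w) at hmpos
      rw [← h] at hmpos
      simp at hmpos
  have hfw : 0 < f w := by
    rcases hfw0.lt_or_eq with h | h
    · exact h
    · exfalso
      change 0 < f w * (K05_s z₀ R w * K05_s z₀ R w) at hmpos
      rw [← h] at hmpos
      simp at hmpos
  have hball : w ∈ Metric.ball z₀ R := by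
    rw [mem_ball_iff_norm]
    rw [hs] at hsw'
    exact lt_of_pow_lt_pow_left₀ 2 hR.le (by linarith)
  have hloc : IsLocalMax m w := by
    refine Filter.mem_of_superset (Metric.isOpen_ball.mem_nhds hball) fun y hy => ?_
    exact hmax (Metric.ball_subset_closedBall hy)
  have hfw2 := hf w (him w hw)
  have hm2 : ContDiffAt ℝ 2 m w := hfw2.mul hg.contDiffAt
  obtain ⟨k1, k2, k3, k4⟩ := lapl_max hm2 hloc
  -- the derivatives
  have hs2 : ContDiffAt ℝ 2 (K05_s z₀ R) w := (K05_s_contDiff z₀ R).contDiffAt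
  have hs1 := hs2.differentiableAt (by norm_num : (2 : WithTop ℕ∞) ≠ 0)
  have hf1 := hfw2.differentiableAt (by norm_num : (2 : WithTop ℕ∞) ≠ 0)
  have hg2 : ContDiffAt ℝ 2 g w := hg.contDiffAt
  have hg1 := hg2.differentiableAt (by norm_num : (2 : WithTop ℕ∞) ≠ 0)
  have d1 : ∀ v : ℂ, K05_D v m w =
      K05_D v f w * (K05_s z₀ R w * K05_s z₀ R w) +
        f w * (2 * (K05_s z₀ R w * K05_D v (K05_s z₀ R) w)) := by
    intro v
    have e1 := K05_D_mul v hf1 hg1
    have e2 : K05_D v g w = _ := K05_D_mul v hs1 hs1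
    change K05_D v (fun y => f y * g y) w = _
    rw [e1, e2]
    ring
  have d2 : ∀ v : ℂ, K05_D v (K05_D v m) w =
      K05_D v (K05_D v f) w * (K05_s z₀ R w * K05_s z₀ R w) +
        4 * (K05_D v f w * (K05_s z₀ R w * K05_D v (K05_s z₀ R) w)) +
        f w * (2 * (K05_D v (K05_s z₀ R) w) ^ 2 +
          2 * (K05_s z₀ R w * K05_D v (K05_D v (K05_s z₀ R)) w)) := by
    intro v
    have e1 := K05_DD_mul v hfw2 hg2
    have e2 : K05_D v g w = _ := K05_D_mul v hs1 hs1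
    have e3 : K05_D v (K05_D v g) w = _ := K05_DD_mul v hs2 hs2
    change K05_D v (K05_D v (fun y => f y * g y)) w = _
    rw [e1, e2, e3]
    ring
  have hp := hpde w (him w hw)
  -- names
  have x1 := d1 1
  have y1 := d1 Complex.I
  have x2 := d2 1
  have y2 := d2 Complex.I
  rw [K05_D_s] at x1 y1
  rw [K05_D_s, K05_DD_s] at x2 y2
  have x1' : K05_D 1 m w = 0 := k1
  have y1' : K05_D Complex.I m w = 0 := k2
  have x2' : K05_D 1 (K05_D 1 m) w ≤ 0 := k3
  have y2' : K05_D Complex.I (K05_D Complex.I m) w ≤ 0 := k4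
  rw [x1] at x1'
  rw [y1] at y1'
  rw [x2] at x2'
  rw [y2] at y2'
  simp only [Complex.one_re, Complex.one_im, Complex.I_re, Complex.I_im] at x1' y1' x2' y2'
  have hp' : (K05_D 1 f w) ^ 2 + (K05_D Complex.I f w) ^ 2 + 4 * c * f w ^ 3 ≤
      f w * (K05_D 1 (K05_D 1 f) w + K05_D Complex.I (K05_D Complex.I f) w) := hp
  have hmw' : f z₀ * R ^ 4 ≤ f w * (K05_s z₀ R w * K05_s z₀ R w) := hmw
  have hS : K05_s z₀ R w = R ^ 2 - (w.re - z₀.re) ^ 2 - (w.im - z₀.im) ^ 2 := rfl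
  generalize K05_s z₀ R w = S at *
  generalize K05_D 1 f w = a at *
  generalize K05_D Complex.I f w = b at *
  generalize K05_D 1 (K05_D 1 f) w = aa at *
  generalize K05_D Complex.I (K05_D Complex.I f) w = bb at *
  generalize f w = F at *
  generalize w.re - z₀.re = u at *
  generalize w.im - z₀.im = v at *
  -- first derivatives
  have g1 : a * S = 4 * F * u := by
    have : S * (a * S - 4 * F * u) = 0 := by linarith
    rcases mul_eq_zero.1 this with h | h
    · exact absurd h hsw'.ne'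
    · linarith
  have g2 : b * S = 4 * F * v := by
    have : S * (b * S - 4 * F * v) = 0 := by linarith
    rcases mul_eq_zero.1 this with h | h
    · exact absurd h hsw'.ne'
    · linarith
  -- second derivatives
  have g3 : (aa + bb) * S ^ 2 ≤ 24 * F * (u ^ 2 + v ^ 2) + 8 * S * F := by
    have e1 : a * (S * u) = 4 * F * u ^ 2 := by
      calc a * (S * u) = (a * S) * u := by ring
        _ = _ := by rw [g1]; ring
    have e2 : b * (S * v) = 4 * F * v ^ 2 := by
      calc b * (S * v) = (b * S) * v := by ring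
        _ = _ := by rw [g2]; ring
    nlinarith
  have g4 : (a ^ 2 + b ^ 2) * S ^ 2 = 16 * F ^ 2 * (u ^ 2 + v ^ 2) := by
    calc (a ^ 2 + b ^ 2) * S ^ 2 = (a * S) ^ 2 + (b * S) ^ 2 := by ring
      _ = _ := by rw [g1, g2]; ring
  have g5 : 16 * F ^ 2 * (u ^ 2 + v ^ 2) + 4 * c * F ^ 3 * S ^ 2 ≤
      F * (24 * F * (u ^ 2 + v ^ 2) + 8 * S * F) := by
    have e1 := mul_le_mul_of_nonneg_right hp' (sq_nonneg S)
    have e2 := mul_le_mul_of_nonneg_left g3 hfw.le
    nlinarith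
  have g6 : F ^ 2 * (4 * c * F * S ^ 2) ≤ F ^ 2 * (8 * R ^ 2) := by
    have e1 : 8 * (u ^ 2 + v ^ 2) + 8 * S = 8 * R ^ 2 := by rw [hS]; ring
    nlinarith
  have g7 : 4 * c * F * S ^ 2 ≤ 8 * R ^ 2 := le_of_mul_le_mul_left g6 (by positivity)
  have g8 : R ^ 2 * (c * R ^ 2 * f z₀) ≤ R ^ 2 * 2 := by
    have e1 := mul_le_mul_of_nonneg_left hmw' hc.le
    nlinarith
  exact le_of_mul_le_mul_left g8 (by positivity)

theorem ahlfors (f : ℂ → ℝ) (hf : ∀ z : ℂ, 0 < z.im → ContDiffAt ℝ 2 f z)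
    (h0 : ∀ z : ℂ, 0 < z.im → 0 ≤ f z) (c : ℝ) (hc : 0 < c)
    (hpde : ∀ z : ℂ, 0 < z.im → (px f z) ^ 2 + (py f z) ^ 2 + 4 * c * f z ^ 3 ≤
      f z * (px (px f) z + py (py f) z)) :
    ∀ z : ℂ, 0 < z.im → f z ≤ 2 / (c * z.im ^ 2) := by
  intro z hz
  rw [le_div_iff₀ (by positivity)]
  rcases (h0 z hz).lt_or_eq with hfz | hfz
  · have h1 : Tendsto (fun R : ℝ => c * R ^ 2 * f z) (𝓝[<] z.im) (𝓝 (c * z.im ^ 2 * f z)) := by
      apply Filter.Tendsto.mono_left _ nhdsWithin_le_nhds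
      have : Continuous fun R : ℝ => c * R ^ 2 * f z := by fun_prop
      exact this.tendsto z.im
    have h2 : ∀ᶠ R in 𝓝[<] z.im, c * R ^ 2 * f z ≤ 2 := by
      filter_upwards [Ioo_mem_nhdsLT hz] with R hR
      exact K05_radius f hf h0 c hc hpde z hz hfz R hR.1 hR.2
    have h3 := le_of_tendsto h1 h2
    linarith
  · rw [← hfz, zero_mul]
    norm_num

end MP2794d1
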