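import Pool.Agent.Lib.MP_2794d1_ag.K03
import Pool.Agent.Lib.MP_2794d1_ag.K05

/-!
K06: The Schwarz lemma for period maps: eV V z ≤ 2 / (kc V * (im z)²). Apply ahlfors to f = eV V. The complex valued function
E y = trace (θ mconj θ) is smooth on the upper half plane (SmA.trace) and E y = (eV V y : ℂ) there (trace_conj_im). So near z,
pd E v = (fderiv ℝ (eV V) · v : ℂ) (fderiv of Complex.ofReal ∘ f; eV = re ∘ E is smooth), dz E = (px f - I py f)/2 with px f,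
py f real, ‖dz E‖² = ((px f)² + (py f)²)/4, and by db_dz_eq (db (dz E)).re = (px px f + py py f)/4 (the equalities
pd E v y = ofReal (..) hold for y near z). Multiply bochner by 4.
-/

namespace MP2794d1

open Matrix Complex Filter Topology
open scoped ContDiff

theorem K06_pd {g : ℂ → ℝ} {z : ℂ} (hg : DifferentiableAt ℝ g z) (v : ℂ) :
    pd (fun y => ((g y : ℝ) : ℂ)) v z = ((fderiv ℝ g z v : ℝ) : ℂ) := by
  have h1 := (Complex.ofRealCLM.hasFDerivAt.comp z hg.hasFDerivAt).fderiv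
  have h2 : (fun y => ((g y : ℝ) : ℂ)) = (Complex.ofRealCLM : ℝ → ℂ) ∘ g := rfl
  unfold pd
  rw [h2, h1]
  rfl

theorem K06_near {f : ℂ → ℝ} {z : ℂ} (hf : ContDiffAt ℝ ∞ f z) (v : ℂ) :
    (fun y => pd (fun y => ((f y : ℝ) : ℂ)) v y) =ᶠ[𝓝 z] fun y => ((fderiv ℝ f y v : ℝ) : ℂ) := by
  have h1 : ContDiffAt ℝ 1 f z := hf.of_le (by exact_mod_cast le_top)
  have h2 : ∀ᶠ y in 𝓝 z, ContDiffAt ℝ 1 f y := h1.eventually (by simp)
  filter_upwards [h2] with y hy
  exact K06_pd (hy.differentiableAt (by simp)) v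

theorem K06_diff {f : ℂ → ℝ} {z : ℂ} (hf : ContDiffAt ℝ ∞ f z) (v : ℂ) :
    DifferentiableAt ℝ (fun y => fderiv ℝ f y v) z := by
  have h1 : ContDiffAt ℝ ∞ (fderiv ℝ f) z := hf.fderiv_right (m := ∞) (by simp)
  exact (h1.clm_apply contDiffAt_const).differentiableAt (by simp)

theorem K06_pdpd {f : ℂ → ℝ} {z : ℂ} (hf : ContDiffAt ℝ ∞ f z) (v : ℂ) :
    pd (fun y => pd (fun y => ((f y : ℝ) : ℂ)) v y) v z =
      ((fderiv ℝ (fun y => fderiv ℝ f y v) z v : ℝ) : ℂ) := by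
  rw [← K06_pd (K06_diff hf v) v]
  change fderiv ℝ (fun y => pd (fun y => ((f y : ℝ) : ℂ)) v y) z v =
    fderiv ℝ (fun y => ((fderiv ℝ f y v : ℝ) : ℂ)) z v
  rw [(K06_near hf v).fderiv_eq]

theorem dz_real {f : ℂ → ℝ} {z : ℂ} (hf : ContDiffAt ℝ ∞ f z) :
    ‖dz (fun y => ((f y : ℝ) : ℂ)) z‖ ^ 2 = ((px f z) ^ 2 + (py f z) ^ 2) / 4 ∧
    (db (dz (fun y => ((f y : ℝ) : ℂ))) z).re = (px (px f) z + py (py f) z) / 4 := by
  have hd : DifferentiableAt ℝ f z := hf.differentiableAt (by simp)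
  constructor
  · have h1 : dz (fun y => ((f y : ℝ) : ℂ)) z =
        (((px f z : ℝ) : ℂ) - Complex.I * ((py f z : ℝ) : ℂ)) / 2 := by
      unfold dz
      rw [K06_pd hd, K06_pd hd]
      rfl
    rw [h1, Complex.sq_norm, Complex.normSq_apply]
    simp
    ring
  · have hc : ContDiffAt ℝ ∞ (fun y => ((f y : ℝ) : ℂ)) z :=
      Complex.ofRealCLM.contDiff.contDiffAt.comp z hf
    rw [db_dz_eq hc, K06_pdpd hf, K06_pdpd hf, ← Complex.ofReal_add]
    have h4 : (4 : ℂ) = ((4 : ℝ) : ℂ) := by norm_num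
    rw [h4, ← Complex.ofReal_div, Complex.ofReal_re]
    rfl

theorem eV_smooth {n : ℕ} (V : PolVHS n) {z : ℂ} (hz : 0 < z.im) : ContDiffAt ℝ ∞ (eV V) z := by
  have hT := TV_smooth V hz
  have h1 := (hT.mul hT.mconj).trace
  exact Complex.reCLM.contDiff.contDiffAt.comp z h1

theorem eV_bound {n : ℕ} (V : PolVHS n) (z : ℂ) (hz : 0 < z.im) :
    eV V z ≤ 2 / (kc V * z.im ^ 2) := by
  refine ahlfors (eV V) (fun y hy => (eV_smooth V hy).of_le ?_) (fun y hy => eV_nonneg V hy) (kc V)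
    (kc_pos V) (fun y hy => ?_) z hz
  · exact (WithTop.coe_le_coe.2 le_top : ((2 : ℕ∞) : WithTop ℕ∞) ≤ ((⊤ : ℕ∞) : WithTop ℕ∞))
  · have hE : (fun y => Matrix.trace (TV V y * mconj (TV V y))) =
        fun y => ((eV V y : ℝ) : ℂ) := by
      funext w
      apply Complex.ext
      · rfl
      · exact trace_conj_im _
    have hb := bochner V hy
    rw [hE] at hb
    obtain ⟨h1, h2⟩ := dz_real (eV_smooth V hy)
    rw [h1, h2] at hb
    linarith

end MP2794d1
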