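import Pool.Agent.Lib.MP_2794d1_ag.L01

/-!
L02: The derivative of the Hodge norm. Dz C: C = (-1)^lo + ∑_{p ∈ Ioo lo hi} 2 (-1)^p Π p, and by TV_part
Dz Π p = θ (Π p - Π (p+1)): Dz C = 2 θ ∑_{p ∈ Ioo lo hi} (-1)^p (Π p - Π(p+1)) = 2 θ C, using θ (Π lo - Π (lo+1)) =
Dz Π lo = 0 (Π lo = 1 near z) and Π hi = 0: in an adapted basis ∑_{p=lo}^{hi-1} (-1)^p (Π p - Π(p+1)) is the diagonal matrix
(-1)^(d a), i.e. C. Db C: apply mconj to Dz (mconj C) = mconj (Db C) with mconj_CV: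
Db C = mconj (Dz (mconj C)) = (-1)^wt mconj (2 θ C) = 2 mconj θ C. The function g y = hf V y v v is smooth at z, real valued
(hf_adapted), and pd g ζ z = I^wt (star v ⬝ᵥ Q (ζ • 2 θ C + conj ζ • 2 mconj θ C) v) (pd_eq). In an adapted basis with c = S⁻¹ v
and X = θ or mconj θ: |I^wt (star v ⬝ᵥ Q X C v)| = |∑ conj(c a) I^(2 d a) (S⁻¹XS) a b (-1)^(d b) c b| ≤ ∑|c a||X a b||c b| ≤
sqrt(∑|X a b|²) ∑|c a|² = sqrt(eV) * qf (TV_frob, TVc_frob, Cauchy-Schwarz). So |d qf| ≤ 4 sqrt(eV) ‖ζ‖ qf.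
-/

namespace MP2794d1

open Matrix Complex Filter Topology
open scoped ContDiff

theorem L02_mconj_smul {n : ℕ} (c : ℂ) (A : Matrix (Fin n) (Fin n) ℂ) :
    mconj (c • A) = (starRingEnd ℂ) c • mconj A := by
  ext i j
  simp [mconj]

theorem L02_mconj_neg {n : ℕ} (A : Matrix (Fin n) (Fin n) ℂ) :
    mconj (-A) = -mconj A := by
  ext i j
  simp [mconj]

theorem L02_sgn_conj (k : ℤ) : (starRingEnd ℂ) ((-1 : ℂ) ^ k) = (-1 : ℂ) ^ k := by
  rw [map_zpow₀, map_neg, map_one]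

/-- Cauchy-Schwarz -/
theorem L02_cs {n : ℕ} (Y : Matrix (Fin n) (Fin n) ℂ) (c : Fin n → ℂ) :
    ‖∑ a, (starRingEnd ℂ) (c a) * (Y *ᵥ c) a‖ ≤
      Real.sqrt (∑ a, ∑ b, Complex.normSq (Y a b)) * ∑ a, Complex.normSq (c a) := by
  have h1 : ‖∑ a, (starRingEnd ℂ) (c a) * (Y *ᵥ c) a‖ ≤
      ∑ x ∈ (Finset.univ : Finset (Fin n)) ×ˢ (Finset.univ : Finset (Fin n)),
        ‖Y x.1 x.2‖ * (‖c x.1‖ * ‖c x.2‖) := by
    rw [Finset.sum_product]
    refine (norm_sum_le _ _).trans (Finset.sum_le_sum fun a _ => ?_)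
    rw [norm_mul, RCLike.norm_conj]
    have h2 : ‖(Y *ᵥ c) a‖ ≤ ∑ b, ‖Y a b‖ * ‖c b‖ := by
      unfold Matrix.mulVec dotProduct
      refine (norm_sum_le _ _).trans (Finset.sum_le_sum fun b _ => ?_)
      rw [norm_mul]
    calc ‖c a‖ * ‖(Y *ᵥ c) a‖ ≤ ‖c a‖ * ∑ b, ‖Y a b‖ * ‖c b‖ :=
          mul_le_mul_of_nonneg_left h2 (norm_nonneg _)
      _ = ∑ b, ‖Y a b‖ * (‖c a‖ * ‖c b‖) := by
          rw [Finset.mul_sum]
          exact Finset.sum_congr rfl fun b _ => by ring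
  have h3 := Finset.sum_mul_sq_le_sq_mul_sq
    ((Finset.univ : Finset (Fin n)) ×ˢ (Finset.univ : Finset (Fin n)))
    (fun x => ‖Y x.1 x.2‖) (fun x => ‖c x.1‖ * ‖c x.2‖)
  have h4 : ∑ x ∈ (Finset.univ : Finset (Fin n)) ×ˢ (Finset.univ : Finset (Fin n)),
      ‖Y x.1 x.2‖ ^ 2 = ∑ a, ∑ b, Complex.normSq (Y a b) := by
    rw [Finset.sum_product]
    exact Finset.sum_congr rfl fun a _ => Finset.sum_congr rfl fun b _ =>
      (Complex.normSq_eq_norm_sq _).symm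
  have h5 : ∑ x ∈ (Finset.univ : Finset (Fin n)) ×ˢ (Finset.univ : Finset (Fin n)),
      (‖c x.1‖ * ‖c x.2‖) ^ 2 = (∑ a, Complex.normSq (c a)) ^ 2 := by
    rw [Finset.sum_product, sq, Finset.sum_mul_sum]
    refine Finset.sum_congr rfl fun a _ => Finset.sum_congr rfl fun b _ => ?_
    rw [Complex.normSq_eq_norm_sq, Complex.normSq_eq_norm_sq]
    ring
  rw [h4, h5] at h3
  have h6 : 0 ≤ ∑ a, Complex.normSq (c a) := Finset.sum_nonneg fun a _ => Complex.normSq_nonneg _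
  refine h1.trans ?_
  have h7 : (Real.sqrt (∑ a, ∑ b, Complex.normSq (Y a b)) * ∑ a, Complex.normSq (c a)) ^ 2 =
      (∑ a, ∑ b, Complex.normSq (Y a b)) * (∑ a, Complex.normSq (c a)) ^ 2 := by
    rw [mul_pow, Real.sq_sqrt]
    exact Finset.sum_nonneg fun a _ => Finset.sum_nonneg fun b _ => Complex.normSq_nonneg _
  rw [← h7] at h3
  exact le_of_sq_le_sq h3 (mul_nonneg (Real.sqrt_nonneg _) h6)

variable {n : ℕ} (V : PolVHS n) {z : ℂ} (hz : 0 < z.im)
include hz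

theorem CV_smooth : SmA (CV V) z := by
  have h1 : CV V = fun y => ((-1 : ℂ) ^ V.lo) • (1 : Matrix (Fin n) (Fin n) ℂ) +
    ∑ p ∈ Finset.Ioo V.lo V.hi, (2 * (-1 : ℂ) ^ p) • PiV V p y := rfl
  rw [h1]
  exact (SmA.const _).add (SmA.sum _ fun p _ => (Pi_smooth V p hz).smulc _)

theorem L02_CV_sum : CV V z = ∑ p ∈ Finset.Ico V.lo V.hi,
    ((-1 : ℂ) ^ p) • (PiV V p z - PiV V (p + 1) z) := by
  obtain ⟨S, d, hS⟩ := exists_adapted (V.phs z hz)
  have hb : ∀ a, V.lo ≤ d a ∧ d a < V.hi := adapted_bounds hS (V.F_lo z hz) (V.F_hi z hz)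
  have h1 : ∑ p ∈ Finset.Ico V.lo V.hi, ((-1 : ℂ) ^ p) • (PiV V p z - PiV V (p + 1) z) =
      S * (∑ p ∈ Finset.Ico V.lo V.hi, ((-1 : ℂ) ^ p) •
        (Matrix.diagonal (fun a => if p ≤ d a then (1 : ℂ) else 0) -
          Matrix.diagonal (fun a => if p + 1 ≤ d a then (1 : ℂ) else 0))) * S⁻¹ := by
    rw [Matrix.mul_sum, Matrix.sum_mul]
    apply Finset.sum_congr rfl
    intro p _
    rw [Matrix.mul_smul, Matrix.smul_mul, Matrix.mul_sub, Matrix.sub_mul, PiV_eq V hz p,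
      PiV_eq V hz (p + 1), prj_adapted (V.phs z hz) hS p, prj_adapted (V.phs z hz) hS (p + 1)]
  rw [h1, CV_adapted V hz hS]
  congr 2
  ext a b
  rw [Matrix.sum_apply]
  by_cases hab : a = b
  · subst hab
    rw [Matrix.diagonal_apply_eq]
    have h2 : ∀ p ∈ Finset.Ico V.lo V.hi, (((-1 : ℂ) ^ p) •
        (Matrix.diagonal (fun a => if p ≤ d a then (1 : ℂ) else 0) -
          Matrix.diagonal (fun a => if p + 1 ≤ d a then (1 : ℂ) else 0)) :
          Matrix (Fin n) (Fin n) ℂ) a a = if p = d a then (-1 : ℂ) ^ p else 0 := by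
      intro p _
      rw [Matrix.smul_apply, Matrix.sub_apply, Matrix.diagonal_apply_eq, Matrix.diagonal_apply_eq,
        smul_eq_mul]
      by_cases h3 : p = d a
      · rw [if_pos (by omega), if_neg (by omega), if_pos h3]
        ring
      · by_cases h4 : p ≤ d a
        · rw [if_pos h4, if_pos (by omega), if_neg h3]
          ring
        · rw [if_neg h4, if_neg (by omega), if_neg h3]
          ring
    rw [Finset.sum_congr rfl h2, Finset.sum_ite_eq', if_pos]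
    rw [Finset.mem_Ico]
    exact hb a
  · rw [Matrix.diagonal_apply_ne _ hab]
    symm
    apply Finset.sum_eq_zero
    intro p _
    rw [Matrix.smul_apply, Matrix.sub_apply, Matrix.diagonal_apply_ne _ hab,
      Matrix.diagonal_apply_ne _ hab, sub_zero, smul_zero]

theorem L02_Pi_lo : PiV V V.lo z = 1 := by
  have h1 := V.phs z hz
  ext i j
  have h2 := (PiV_mem V hz V.lo (Pi.single j 1)).1 (by
    rw [V.F_lo z hz]
    exact Submodule.mem_top)
  have h3 := congrFun h2 i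
  rw [Matrix.mulVec_single_one] at h3
  rw [Matrix.one_apply]
  simpa [Pi.single_apply] using h3

theorem L02_dz_lo : Dz (PiV V V.lo) z = 0 := by
  have h1 : PiV V V.lo =ᶠ[𝓝 z] fun _ => (1 : Matrix (Fin n) (Fin n) ℂ) := by
    have h2 : ∀ᶠ y in 𝓝 z, 0 < y.im := (isOpen_lt continuous_const Complex.continuous_im).mem_nhds hz
    filter_upwards [h2] with y hy
    exact L02_Pi_lo V hy
  rw [Dz_congr h1, Dz_const]

theorem CV_dz : Dz (CV V) z = (2 : ℂ) • (TV V z * CV V z) := by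
  have h1 : CV V = fun y => ((-1 : ℂ) ^ V.lo) • (1 : Matrix (Fin n) (Fin n) ℂ) +
    ∑ p ∈ Finset.Ioo V.lo V.hi, (2 * (-1 : ℂ) ^ p) • PiV V p y := rfl
  have h2 : Dz (CV V) z = ∑ p ∈ Finset.Ioo V.lo V.hi, (2 * (-1 : ℂ) ^ p) • Dz (PiV V p) z := by
    rw [h1, Dz_add (SmA.const _) (SmA.sum _ fun p _ => (Pi_smooth V p hz).smulc _), Dz_const,
      zero_add, Dz_sum _ fun p _ => (Pi_smooth V p hz).smulc _]
    apply Finset.sum_congr rfl
    intro p _
    exact Dz_smulc _ (Pi_smooth V p hz)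
  have h3 : TV V z * CV V z = ∑ p ∈ Finset.Ico V.lo V.hi, ((-1 : ℂ) ^ p) • Dz (PiV V p) z := by
    rw [L02_CV_sum V hz, Matrix.mul_sum]
    apply Finset.sum_congr rfl
    intro p _
    rw [Matrix.mul_smul, TV_part V hz p]
  rw [h2, h3, Finset.smul_sum]
  by_cases hlh : V.lo < V.hi
  · rw [← Finset.Ioo_insert_left hlh, Finset.sum_insert (by simp), L02_dz_lo V hz, smul_zero,
      smul_zero, zero_add]
    apply Finset.sum_congr rfl
    intro p _
    rw [smul_smul]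
  · rw [Finset.Ioo_eq_empty hlh, Finset.Ico_eq_empty hlh]
    simp

theorem CV_db : Db (CV V) z = (2 : ℂ) • (mconj (TV V z) * CV V z) := by
  have h1 : CV V =ᶠ[𝓝 z] fun y => mconj (((-1 : ℂ) ^ V.wt) • CV V y) := by
    have h2 : ∀ᶠ y in 𝓝 z, 0 < y.im := (isOpen_lt continuous_const Complex.continuous_im).mem_nhds hz
    filter_upwards [h2] with y hy
    rw [← mconj_CV V hy, e06_mconj_mconj]
  rw [Db_congr h1, Db_mconj ((CV_smooth V hz).smulc _), Dz_smulc _ (CV_smooth V hz), CV_dz V hz,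
    L02_mconj_smul, L02_mconj_smul, L02_sgn_conj, e06_mul, mconj_CV V hz, Matrix.mul_smul,
    Complex.conj_ofNat, smul_comm, smul_comm ((-1 : ℂ) ^ V.wt), smul_smul, smul_smul]
  congr 1
  have h3 := L01_sgn_sq V.wt
  linear_combination 2 * h3

theorem L02_TVc : CV V z * mconj (TV V z) = -(mconj (TV V z) * CV V z) := by
  have h1 := congrArg mconj (CV_TV V hz)
  rw [L02_mconj_neg, e06_mul, e06_mul, mconj_CV V hz, Matrix.smul_mul, Matrix.mul_smul,
    ← smul_neg] at h1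
  have h2 : ((-1 : ℂ) ^ V.wt) ≠ 0 := zpow_ne_zero _ (by norm_num)
  exact smul_right_injective _ h2 h1

theorem L02_hf_smooth (v : Fin n → ℂ) : ContDiffAt ℝ ∞ (fun y => hf V y v v) z := by
  have h1 : (fun y => hf V y v v) = fun y => Complex.I ^ V.wt *
      ∑ i, star v i * ∑ j, im V.Q i j * ∑ k, CV V y j k * v k := rfl
  rw [h1]
  apply contDiffAt_const.mul
  apply ContDiffAt.sum
  intro i _
  apply contDiffAt_const.mul
  apply ContDiffAt.sum
  intro j _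
  apply contDiffAt_const.mul
  apply ContDiffAt.sum
  intro k _
  exact (CV_smooth V hz j k).mul contDiffAt_const

theorem qf_smooth (v : Fin n → ℂ) : ContDiffAt ℝ ∞ (fun y => qf V y v) z := by
  have h1 : ContDiff ℝ ∞ (fun w : ℂ => Complex.reCLM w) := Complex.reCLM.contDiff
  exact h1.contDiffAt.comp z (L02_hf_smooth V hz v)

theorem L02_dz_hf (v : Fin n → ℂ) : dz (fun y => hf V y v v) z =
    Complex.I ^ V.wt * (star v ⬝ᵥ (im V.Q *ᵥ (Dz (CV V) z *ᵥ v))) := by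
  have h1 : (fun y => hf V y v v) = fun y => Complex.I ^ V.wt *
      ∑ i ∈ Finset.univ, star v i * ∑ j ∈ Finset.univ, im V.Q i j *
        ∑ k ∈ Finset.univ, v k * CV V y j k := by
    funext y
    unfold hf Matrix.mulVec dotProduct
    refine congrArg _ (Finset.sum_congr rfl fun i _ => congrArg _ (Finset.sum_congr rfl fun j _ =>
      congrArg _ (Finset.sum_congr rfl fun k _ => mul_comm _ _)))
  have hk : ∀ j k, DifferentiableAt ℝ (fun y => v k * CV V y j k) z := fun j k =>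
    (smooth_diff (CV_smooth V hz j k)).const_mul _
  have hj : ∀ i j, DifferentiableAt ℝ (fun y => im V.Q i j * ∑ k ∈ Finset.univ, v k * CV V y j k) z :=
    fun i j => (DifferentiableAt.fun_sum fun k _ => hk j k).const_mul _
  have hi : ∀ i, DifferentiableAt ℝ (fun y => star v i * ∑ j ∈ Finset.univ, im V.Q i j *
        ∑ k ∈ Finset.univ, v k * CV V y j k) z :=
    fun i => (DifferentiableAt.fun_sum fun j _ => hj i j).const_mul _
  rw [h1, dz_cmul _ (DifferentiableAt.fun_sum fun i _ => hi i), dz_sum _ fun i _ => hi i]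
  unfold Matrix.mulVec dotProduct
  refine congrArg _ (Finset.sum_congr rfl fun i _ => ?_)
  rw [dz_cmul _ (DifferentiableAt.fun_sum fun j _ => hj i j), dz_sum _ fun j _ => hj i j]
  refine congrArg _ (Finset.sum_congr rfl fun j _ => ?_)
  rw [dz_cmul _ (DifferentiableAt.fun_sum fun k _ => hk j k), dz_sum _ fun k _ => hk j k]
  refine congrArg _ (Finset.sum_congr rfl fun k _ => ?_)
  rw [dz_cmul _ (smooth_diff (CV_smooth V hz j k)), mul_comm]
  rfl

theorem L02_db_hf (v : Fin n → ℂ) : db (fun y => hf V y v v) z =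
    Complex.I ^ V.wt * (star v ⬝ᵥ (im V.Q *ᵥ (Db (CV V) z *ᵥ v))) := by
  have h1 : (fun y => hf V y v v) = fun y => Complex.I ^ V.wt *
      ∑ i ∈ Finset.univ, star v i * ∑ j ∈ Finset.univ, im V.Q i j *
        ∑ k ∈ Finset.univ, v k * CV V y j k := by
    funext y
    unfold hf Matrix.mulVec dotProduct
    refine congrArg _ (Finset.sum_congr rfl fun i _ => congrArg _ (Finset.sum_congr rfl fun j _ =>
      congrArg _ (Finset.sum_congr rfl fun k _ => mul_comm _ _)))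
  have hk : ∀ j k, DifferentiableAt ℝ (fun y => v k * CV V y j k) z := fun j k =>
    (smooth_diff (CV_smooth V hz j k)).const_mul _
  have hj : ∀ i j, DifferentiableAt ℝ (fun y => im V.Q i j * ∑ k ∈ Finset.univ, v k * CV V y j k) z :=
    fun i j => (DifferentiableAt.fun_sum fun k _ => hk j k).const_mul _
  have hi : ∀ i, DifferentiableAt ℝ (fun y => star v i * ∑ j ∈ Finset.univ, im V.Q i j *
        ∑ k ∈ Finset.univ, v k * CV V y j k) z :=
    fun i => (DifferentiableAt.fun_sum fun j _ => hj i j).const_mul _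
  rw [h1, db_cmul _ (DifferentiableAt.fun_sum fun i _ => hi i), db_sum _ fun i _ => hi i]
  unfold Matrix.mulVec dotProduct
  refine congrArg _ (Finset.sum_congr rfl fun i _ => ?_)
  rw [db_cmul _ (DifferentiableAt.fun_sum fun j _ => hj i j), db_sum _ fun j _ => hj i j]
  refine congrArg _ (Finset.sum_congr rfl fun j _ => ?_)
  rw [db_cmul _ (DifferentiableAt.fun_sum fun k _ => hk j k), db_sum _ fun k _ => hk j k]
  refine congrArg _ (Finset.sum_congr rfl fun k _ => ?_)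
  rw [db_cmul _ (smooth_diff (CV_smooth V hz j k)), mul_comm]
  rfl

theorem L02_bound (X : Matrix (Fin n) (Fin n) ℂ) (hX : CV V z * X = -(X * CV V z))
    (hfr : ∀ (S : Matrix (Fin n) (Fin n) ℂ) (d : Fin n → ℤ),
      Adapted V.wt V.Q (fun p => V.F p z) S d →
      eV V z = ∑ a, ∑ b, Complex.normSq ((S⁻¹ * X * S) a b)) (v : Fin n → ℂ) :
    ‖Complex.I ^ V.wt * (star v ⬝ᵥ (im V.Q *ᵥ (((2 : ℂ) • (X * CV V z)) *ᵥ v)))‖ ≤
      2 * (Real.sqrt (eV V z) * qf V z v) := by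
  obtain ⟨S, d, hS⟩ := exists_adapted (V.phs z hz)
  have h1 : Complex.I ^ V.wt * (star v ⬝ᵥ (im V.Q *ᵥ (((2 : ℂ) • (X * CV V z)) *ᵥ v))) =
      -2 * hf V z v (X *ᵥ v) := by
    have h2 : ((2 : ℂ) • (X * CV V z)) = (-2 : ℂ) • (CV V z * X) := by
      rw [hX, smul_neg, neg_smul, neg_neg]
    rw [h2, Matrix.smul_mulVec, Matrix.mulVec_smul, dotProduct_smul, ← Matrix.mulVec_mulVec]
    unfold hf
    rw [smul_eq_mul]
    ring
  have hSi : S * S⁻¹ = 1 := Matrix.mul_nonsing_inv S hS.inv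
  have h3 : S⁻¹ *ᵥ (X *ᵥ v) = (S⁻¹ * X * S) *ᵥ (S⁻¹ *ᵥ v) := E03_coord hS.inv X v
  rw [h1, norm_mul, hf_adapted V hz hS, h3, qf_adapted V hz hS, hfr S d hS]
  have h4 := L02_cs (S⁻¹ * X * S) (S⁻¹ *ᵥ v)
  have h5 : ‖(-2 : ℂ)‖ = 2 := by
    rw [norm_neg]
    simp
  rw [h5]
  exact mul_le_mul_of_nonneg_left h4 (by norm_num)

theorem qf_deriv (v : Fin n → ℂ) (ζ : ℂ) :
    |fderiv ℝ (fun y => qf V y v) z ζ| ≤ 4 * Real.sqrt (eV V z) * ‖ζ‖ * qf V z v := by
  have h1 : fderiv ℝ (fun y => qf V y v) z ζ = (pd (fun y => hf V y v v) ζ z).re := by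
    have h2 : HasFDerivAt (fun y => qf V y v)
        (Complex.reCLM.comp (fderiv ℝ (fun y => hf V y v v) z)) z :=
      Complex.reCLM.hasFDerivAt.comp z (smooth_diff (L02_hf_smooth V hz v)).hasFDerivAt
    rw [h2.fderiv]
    rfl
  rw [h1, pd_eq, L02_dz_hf V hz, L02_db_hf V hz, CV_dz V hz, CV_db V hz]
  have h3 := L02_bound V hz (TV V z) (CV_TV V hz) (fun S d hS => TV_frob V hz hS) v
  have h4 := L02_bound V hz (mconj (TV V z)) (L02_TVc V hz) (fun S d hS => TVc_frob V hz hS) v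
  refine (Complex.abs_re_le_norm _).trans ((norm_add_le _ _).trans ?_)
  rw [norm_mul ζ, norm_mul ((starRingEnd ℂ) ζ), RCLike.norm_conj]
  have h5 : ‖ζ‖ * ‖Complex.I ^ V.wt * (star v ⬝ᵥ (im V.Q *ᵥ (((2 : ℂ) • (TV V z * CV V z)) *ᵥ v)))‖ ≤
      ‖ζ‖ * (2 * (Real.sqrt (eV V z) * qf V z v)) := mul_le_mul_of_nonneg_left h3 (norm_nonneg _)
  have h6 : ‖ζ‖ * ‖Complex.I ^ V.wt *
      (star v ⬝ᵥ (im V.Q *ᵥ (((2 : ℂ) • (mconj (TV V z) * CV V z)) *ᵥ v)))‖ ≤
      ‖ζ‖ * (2 * (Real.sqrt (eV V z) * qf V z v)) := mul_le_mul_of_nonneg_left h4 (norm_nonneg _)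
  linarith

end MP2794d1
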