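import Pool.Agent.Lib.MP_2794d1_ag.W00

/-!
T00: Definition: smooth subharmonic functions on the upper half plane.
-/

namespace MP2794d1

open Matrix Complex Filter Topology
open scoped ContDiff

/-- smooth with nonnegative Laplacian on the upper half plane -/
def SubL (f : ℂ → ℝ) : Prop :=
  ∀ z : ℂ, 0 < z.im → ContDiffAt ℝ ∞ f z ∧ 0 ≤ px (px f) z + py (py f) z

end MP2794d1
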