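import Pool.Agent.Lib.MP_2794d1_ag.T05
import Pool.Agent.Lib.MP_2794d1_ag.K06
import Pool.Agent.Lib.MP_2794d1_ag.T00

/-!
T06: v = log ψ, ψ = (trace (B mconj B)).re > 0, is smooth with Δv = (ψ Δψ - |∇ψ|²)/ψ² ≥ 4 kc ‖b‖² ψ ≥ 0 (psi_bochner times 4,
dz_real; the trace is real: trace_conj_im). px (log ∘ ψ) = px ψ / ψ near z, px px (log ∘ ψ) = px px ψ/ψ - (px ψ)²/ψ².
-/

namespace MP2794d1

open Matrix Complex Filter Topology
open scoped ContDiff

theorem T06_log {f : ℂ → ℝ} {z : ℂ} (hf : ContDiffAt ℝ ∞ f z) (hp : 0 < f z) (w : ℂ) :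
    fderiv ℝ (fun y => fderiv ℝ (fun x => Real.log (f x)) y w) z w =
      (f z * fderiv ℝ (fun y => fderiv ℝ f y w) z w - (fderiv ℝ f z w) ^ 2) / (f z) ^ 2 := by
  have hd : DifferentiableAt ℝ f z := hf.differentiableAt (by simp)
  have h1 : ∀ᶠ y in 𝓝 z, ContDiffAt ℝ 1 f y ∧ 0 < f y :=
    ((hf.of_le (by norm_num)).eventually (by simp)).and
      (hf.continuousAt.eventually (isOpen_lt continuous_const continuous_id |>.mem_nhds hp))
  have h2 : (fun y => fderiv ℝ (fun x => Real.log (f x)) y w) =ᶠ[𝓝 z]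
      (fun y => (f y)⁻¹ * fderiv ℝ f y w) := by
    filter_upwards [h1] with y hy
    have h3 : HasFDerivAt (fun x => Real.log (f x)) ((f y)⁻¹ • fderiv ℝ f y) y :=
      (hy.1.differentiableAt (by simp)).hasFDerivAt.log hy.2.ne'
    rw [h3.fderiv, _root_.smul_apply, smul_eq_mul]
  rw [h2.fderiv_eq]
  have h4 : HasFDerivAt (fun y => (f y)⁻¹) (-((f z) ^ 2)⁻¹ • fderiv ℝ f z) z :=
    (hasDerivAt_inv hp.ne').comp_hasFDerivAt z hd.hasFDerivAt
  have h5 : DifferentiableAt ℝ (fun y => fderiv ℝ f y w) z := by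
    have h6 : ContDiffAt ℝ ∞ (fderiv ℝ f) z := hf.fderiv_right (m := ∞) (by simp)
    exact (h6.clm_apply contDiffAt_const).differentiableAt (by simp)
  have h7 := h4.mul h5.hasFDerivAt
  have h8 : fderiv ℝ (fun y => (f y)⁻¹ * fderiv ℝ f y w) z = _ := h7.fderiv
  rw [h8]
  simp only [_root_.add_apply, _root_.smul_apply, smul_eq_mul]
  field_simp
  ring

theorem vB_sub {n : ℕ} (V : PolVHS n) (c : Cusp V) (hN : c.N ≠ 0) {a : ℝ}
    {u : ℂ → ℂ} {F0 : ℤ → Submodule ℂ (Fin n → ℂ)} (h : StageOne V c a u F0) :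
    SubL (vB V (cm c.N)) ∧ ∀ z : ℂ, 0 < z.im → px (px (vB V (cm c.N))) z +
      py (py (vB V (cm c.N))) z = 0 → TV V z = 0 := by
  have key : ∀ z : ℂ, 0 < z.im → ContDiffAt ℝ ∞ (vB V (cm c.N)) z ∧
      ∃ b : ℂ, TV V z = b • BV V (cm c.N) z ∧ ∃ P : ℝ, 0 < P ∧
      4 * kc V * ‖b‖ ^ 2 * P ≤ px (px (vB V (cm c.N))) z + py (py (vB V (cm c.N))) z := by
    intro z hz
    obtain ⟨p1, p2, p3, p4, p5, b, p6⟩ := BV_props V c hN h hz
    obtain ⟨c1, c2⟩ := psi_bochner V c hN h hz b p6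
    set ψ : ℂ → ℝ := fun y => (Matrix.trace (BV V (cm c.N) y * mconj (BV V (cm c.N) y))).re
      with hψ
    have hfun : (fun y => Matrix.trace (BV V (cm c.N) y * mconj (BV V (cm c.N) y))) =
        fun y => ((ψ y : ℝ) : ℂ) := by
      funext y
      apply Complex.ext
      · simp [hψ]
      · simp [trace_conj_im (BV V (cm c.N) y)]
    have hsm : ContDiffAt ℝ ∞ ψ z := by
      have h1 : ContDiffAt ℝ ∞ (fun y => Matrix.trace (BV V (cm c.N) y *
        mconj (BV V (cm c.N) y))) z := (p5.mul p5.mconj).trace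
      have h2 : ContDiff ℝ ∞ (fun w : ℂ => Complex.reCLM w) := Complex.reCLM.contDiff
      exact h2.contDiffAt.comp z h1
    have hP : 0 < ψ z := c1
    have hv : vB V (cm c.N) = fun y => Real.log (ψ y) := rfl
    rw [hfun] at c2
    obtain ⟨d1, d2⟩ := dz_real hsm
    rw [d1, d2] at c2
    have hψz : (Matrix.trace (BV V (cm c.N) z * mconj (BV V (cm c.N) z))).re = ψ z := rfl
    rw [hψz] at c2
    refine ⟨?_, b, p6, ψ z, hP, ?_⟩
    · rw [hv]
      exact hsm.log hP.ne'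
    · have e1 : px (px (vB V (cm c.N))) z = (ψ z * px (px ψ) z - (px ψ z) ^ 2) / (ψ z) ^ 2 :=
        T06_log hsm hP 1
      have e2 : py (py (vB V (cm c.N))) z = (ψ z * py (py ψ) z - (py ψ z) ^ 2) / (ψ z) ^ 2 :=
        T06_log hsm hP Complex.I
      rw [e1, e2, ← add_div, le_div_iff₀ (by positivity)]
      nlinarith [c2]
  refine ⟨?_, ?_⟩
  · intro z hz
    obtain ⟨h1, b, h2, P, h3, h4⟩ := key z hz
    refine ⟨h1, le_trans ?_ h4⟩
    have := kc_pos V
    positivity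
  · intro z hz h0
    obtain ⟨h1, b, h2, P, h3, h4⟩ := key z hz
    rw [h0] at h4
    have hk := kc_pos V
    have hb : ‖b‖ = 0 := by
      by_contra hb
      have h5 : 0 < ‖b‖ := lt_of_le_of_ne (norm_nonneg b) (Ne.symm hb)
      have h6 : 0 < 4 * kc V * ‖b‖ ^ 2 * P := by positivity
      linarith
    rw [h2, norm_eq_zero.mp hb, zero_smul]

end MP2794d1
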