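import Pool.Agent.Lib.MP_2794d1_ag.W00

/-!
K04: Second derivative test at a local maximum of a C² function f : ℂ → ℝ, in the directions 1 and I. Restrict to the real
line t ↦ f (z + t v), v = 1 or I: g t = f (z + t v) is C² near 0, g' t = fderiv ℝ f (z + t v) v, g has a local maximum at 0,
so g' 0 = 0 (IsLocalMax.deriv_eq_zero), and if g'' 0 > 0 then 0 is a strict local minimum: from g'' 0 > 0, g' > 0 on (0, ε),
so g is strictly increasing on [0, ε), contradiction. (Mathlib: isLocalMin_of_deriv_deriv_pos in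
Mathlib/Analysis/Calculus/DerivativeTest; combined with the local maximum g is constant near 0, so g'' 0 = 0.)
-/

namespace MP2794d1

open Matrix Complex Filter Topology
open scoped ContDiff

theorem K04_line {g : ℝ → ℝ} (hc : ContinuousAt g 0) (hmax : IsLocalMax g 0) :
    deriv g 0 = 0 ∧ deriv (deriv g) 0 ≤ 0 := by
  have hd : deriv g 0 = 0 := hmax.deriv_eq_zero
  refine ⟨hd, ?_⟩
  by_contra hcon
  have hpos : 0 < deriv (deriv g) 0 := not_le.1 hcon
  have hmin : IsLocalMin g 0 := isLocalMin_of_deriv_deriv_pos hpos hd hc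
  have heq : g =ᶠ[𝓝 0] fun _ => g 0 := by
    filter_upwards [hmax, hmin] with t h1 h2
    exact le_antisymm h1 h2
  have h1 : deriv g =ᶠ[𝓝 0] deriv fun _ => g 0 := heq.deriv
  have h2 : deriv (deriv g) 0 = 0 := by
    rw [h1.deriv_eq]
    simp
  linarith

theorem K04_dir {f : ℂ → ℝ} {z : ℂ} (hf : ContDiffAt ℝ 2 f z) (hmax : IsLocalMax f z) (v : ℂ) :
    fderiv ℝ f z v = 0 ∧ fderiv ℝ (fun y => fderiv ℝ f y v) z v ≤ 0 := by
  set l : ℝ → ℂ := fun t => z + t • v with hl
  have hl0 : l 0 = z := by simp [hl]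
  have hld : ∀ t, HasDerivAt l v t := by
    intro t
    have := ((hasDerivAt_id t).smul_const v).const_add z
    simpa [hl] using this
  have hlc : ContinuousAt l 0 := (hld 0).continuousAt
  have hltend : Tendsto l (𝓝 0) (𝓝 z) := by
    have := hlc.tendsto
    rwa [hl0] at this
  set g : ℝ → ℝ := fun t => f (l t) with hg
  have hdiff : ∀ᶠ y in 𝓝 z, DifferentiableAt ℝ f y := by
    have := hf.eventually (by simp)
    filter_upwards [this] with y hy
    exact hy.differentiableAt (by norm_num)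
  have hgd : ∀ᶠ t in 𝓝 (0 : ℝ), deriv g t = fderiv ℝ f (l t) v := by
    filter_upwards [hltend.eventually hdiff] with t ht
    exact (ht.hasFDerivAt.comp_hasDerivAt t (hld t)).deriv
  have hfd : DifferentiableAt ℝ (fun y => fderiv ℝ f y v) z := by
    have h1 : ContDiffAt ℝ 1 (fderiv ℝ f) z := hf.fderiv_right (by norm_num)
    exact (h1.differentiableAt (by norm_num)).clm_apply (differentiableAt_const v)
  have hgc : ContinuousAt g 0 := by
    refine ContinuousAt.comp (g := f) ?_ hlc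
    rw [hl0]; exact hf.continuousAt
  have hgmax : IsLocalMax g 0 := by
    have : ∀ᶠ t in 𝓝 (0 : ℝ), f (l t) ≤ f z := hltend.eventually hmax
    filter_upwards [this] with t ht
    simpa [hg, hl0] using ht
  obtain ⟨h1, h2⟩ := K04_line hgc hgmax
  have e1 : deriv g 0 = fderiv ℝ f z v := by
    have := hgd.self_of_nhds
    rwa [hl0] at this
  have e2 : deriv (deriv g) 0 = fderiv ℝ (fun y => fderiv ℝ f y v) z v := by
    have h3 : deriv g =ᶠ[𝓝 0] fun t => fderiv ℝ f (l t) v := hgd
    rw [h3.deriv_eq]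
    have h4 : HasFDerivAt (fun y => fderiv ℝ f y v) (fderiv ℝ (fun y => fderiv ℝ f y v) z) (l 0) := by
      rw [hl0]; exact hfd.hasFDerivAt
    exact (h4.comp_hasDerivAt 0 (hld 0)).deriv
  rw [← e1, ← e2]
  exact ⟨h1, h2⟩

theorem lapl_max {f : ℂ → ℝ} {z : ℂ} (hf : ContDiffAt ℝ 2 f z) (hmax : IsLocalMax f z) :
    px f z = 0 ∧ py f z = 0 ∧ px (px f) z ≤ 0 ∧ py (py f) z ≤ 0 := by
  obtain ⟨h1, h2⟩ := K04_dir hf hmax 1
  obtain ⟨h3, h4⟩ := K04_dir hf hmax Complex.I
  exact ⟨h1, h3, h2, h4⟩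

end MP2794d1
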