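import Pool.Agent.Lib.MP_2794d1_ag.T00
import Pool.Agent.Lib.MP_2794d1_ag.K04
import Pool.Agent.Lib.MP_2794d1_ag.K05

/-!
T10: Maximum principle in a cusp. Suppose f w₀ > m with |re w₀| ≤ 1, im w₀ > 1. Choose ε > 0 with f w₀ - ε (im w₀ - 1) > m; R > im w₀
with C + K log R - ε (R - 1) < m; then η > 0 so small that for G w = f w - ε (im w - 1) + η (im w)²: G w₀ > m + η and
C + K log R - ε (R-1) + η R² < m. By hper G is 1-periodic. G attains its maximum over the compact set [-1,1] × [1,R], by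
periodicity this is the maximum over the strip 1 ≤ im ≤ R, attained at a point w₁ with |re w₁| ≤ 1/2 (shift by an integer); im w₁ ≠ 1 (there
G ≤ m + η) and ≠ R, so w₁ is a local maximum of G; lapl_max: ΔG(w₁) ≤ 0, but ΔG = Δf + 2 η > 0.
-/

namespace MP2794d1

open Matrix Complex Filter Topology
open scoped ContDiff

theorem T10_DD_add (v : ℂ) {f g : ℂ → ℝ} {z : ℂ} (hf : ContDiffAt ℝ 2 f z)
    (hg : ContDiffAt ℝ 2 g z) :
    K05_D v (K05_D v (fun y => f y + g y)) z =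
      K05_D v (K05_D v f) z + K05_D v (K05_D v g) z := by
  have h1 : K05_D v (fun y => f y + g y) =ᶠ[𝓝 z] fun y => K05_D v f y + K05_D v g y := by
    have e1 := (hf.eventually (by norm_num)).mono fun y hy =>
      hy.differentiableAt (by norm_num : (2 : WithTop ℕ∞) ≠ 0)
    have e2 := (hg.eventually (by norm_num)).mono fun y hy =>
      hy.differentiableAt (by norm_num : (2 : WithTop ℕ∞) ≠ 0)
    filter_upwards [e1, e2] with y h1 h2
    have := (h1.hasFDerivAt.add h2.hasFDerivAt).fderiv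
    change fderiv ℝ (f + g) y v = _
    rw [this]
    rfl
  have h2 : K05_D v (K05_D v (fun y => f y + g y)) z =
      K05_D v (fun y => K05_D v f y + K05_D v g y) z := by
    unfold K05_D at h1 ⊢
    rw [h1.fderiv_eq]
  rw [h2]
  have := ((K05_D_diff v hf).hasFDerivAt.add (K05_D_diff v hg).hasFDerivAt).fderiv
  change fderiv ℝ (K05_D v f + K05_D v g) z v = _
  rw [this]
  rfl

/-- the comparison function -/
noncomputable def T10_h (ε η : ℝ) (w : ℂ) : ℝ := η * w.im ^ 2 - ε * (w.im - 1)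

theorem T10_h_contDiff (ε η : ℝ) : ContDiff ℝ 2 (T10_h ε η) := by
  unfold T10_h
  have h2 : ContDiff ℝ 2 (fun w : ℂ => w.im) := Complex.imCLM.contDiff
  exact (contDiff_const.mul (h2.pow 2)).sub (contDiff_const.mul (h2.sub contDiff_const))

theorem T10_DD_h (v : ℂ) (ε η : ℝ) (w : ℂ) :
    K05_D v (K05_D v (T10_h ε η)) w = 2 * η * v.im ^ 2 := by
  have h2 : ∀ w : ℂ, HasFDerivAt (fun w : ℂ => w.im) Complex.imCLM w :=
    fun w => Complex.imCLM.hasFDerivAt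
  have h0 : K05_D v (T10_h ε η) = fun w : ℂ => 2 * η * w.im * v.im - ε * v.im := by
    funext w
    have h3 := (((h2 w).pow 2).const_mul η).sub (((h2 w).sub_const 1).const_mul ε)
    have h4 : fderiv ℝ (T10_h ε η) w = _ := h3.fderiv
    unfold K05_D
    rw [h4]
    simp
    ring
  rw [h0]
  have h3 := (((h2 w).const_mul (2 * η)).mul_const v.im).sub_const (ε * v.im)
  have h4 : fderiv ℝ (fun w : ℂ => 2 * η * w.im * v.im - ε * v.im) w = _ := h3.fderiv
  unfold K05_D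
  rw [h4]
  simp
  ring

theorem T10_exists_R (C K ε m y : ℝ) (hK : 0 ≤ K) (hε : 0 < ε) :
    ∃ R : ℝ, y < R ∧ 1 < R ∧ C + K * Real.log R - ε * (R - 1) < m := by
  obtain ⟨t, ht1, ht2, ht3⟩ : ∃ t : ℝ, 1 < t ∧ y < t ∧ 2 * K + |C - m| + ε + 1 ≤ ε * t := by
    refine ⟨max (max 2 (y + 1)) ((2 * K + |C - m| + ε + 1) / ε), ?_, ?_, ?_⟩
    · exact lt_of_lt_of_le (by norm_num) ((le_max_left _ _).trans (le_max_left _ _))
    · exact lt_of_lt_of_le (by linarith) ((le_max_right 2 (y + 1)).trans (le_max_left _ _))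
    · have := le_max_right (max 2 (y + 1)) ((2 * K + |C - m| + ε + 1) / ε)
      rw [div_le_iff₀ hε] at this
      linarith
  have ht0 : 0 < t := by linarith
  refine ⟨t ^ 2, ?_, ?_, ?_⟩
  · nlinarith
  · nlinarith
  · have h1 : Real.log (t ^ 2) ≤ 2 * t := by
      rw [Real.log_pow]
      have := Real.log_le_sub_one_of_pos ht0
      push_cast
      linarith
    have h2 : K * Real.log (t ^ 2) ≤ K * (2 * t) := mul_le_mul_of_nonneg_left h1 hK
    have h3 : (2 * K + |C - m| + ε + 1) * t ≤ ε * t * t := mul_le_mul_of_nonneg_right ht3 ht0.le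
    have h4 : C - m ≤ |C - m| := le_abs_self _
    have h5 : 0 ≤ |C - m| := abs_nonneg _
    nlinarith

theorem cusp_max {f : ℂ → ℝ} (hf : SubL f) (hper : ∀ w : ℂ, 0 < w.im → f (w + 1) = f w)
    (C K : ℝ) (hK : 0 ≤ K)
    (hg : ∀ w : ℂ, |w.re| ≤ 1 → 1 ≤ w.im → f w ≤ C + K * Real.log w.im) (m : ℝ)
    (hm : ∀ w : ℂ, |w.re| ≤ 1 → w.im = 1 → f w ≤ m) :
    ∀ w : ℂ, |w.re| ≤ 1 → 1 ≤ w.im → f w ≤ m := by
  intro w₀ hw₀ hw₁
  by_contra hcon
  rw [not_le] at hcon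
  have him : 1 < w₀.im := by
    rcases hw₁.lt_or_eq with h | h
    · exact h
    · exact absurd (hm w₀ hw₀ h.symm) (not_le.2 hcon)
  obtain ⟨ε, hε, hεw⟩ : ∃ ε : ℝ, 0 < ε ∧ m < f w₀ - ε * (w₀.im - 1) := by
    refine ⟨(f w₀ - m) / (2 * (w₀.im - 1)), by
      apply div_pos (by linarith) (by linarith), ?_⟩
    have h1 : w₀.im - 1 ≠ 0 := by linarith
    have h2 : (f w₀ - m) / (2 * (w₀.im - 1)) * (w₀.im - 1) = (f w₀ - m) / 2 := by
      field_simp
    rw [h2]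
    linarith
  obtain ⟨R, hR1, hR2, hR3⟩ := T10_exists_R C K ε m w₀.im hK hε
  have hR0 : 0 < R := by linarith
  obtain ⟨η, hη, hηR⟩ : ∃ η : ℝ, 0 < η ∧ C + K * Real.log R - ε * (R - 1) + η * R ^ 2 < m := by
    refine ⟨(m - (C + K * Real.log R - ε * (R - 1))) / (2 * R ^ 2), by
      apply div_pos (by linarith) (by positivity), ?_⟩
    have h2 : (m - (C + K * Real.log R - ε * (R - 1))) / (2 * R ^ 2) * R ^ 2 =
        (m - (C + K * Real.log R - ε * (R - 1))) / 2 := by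
      field_simp
    rw [h2]
    linarith
  let G : ℂ → ℝ := fun w => f w + T10_h ε η w
  have hGper : ∀ w : ℂ, 0 < w.im → G (w + 1) = G w := by
    intro w hw
    change f (w + 1) + T10_h ε η (w + 1) = f w + T10_h ε η w
    rw [hper w hw]
    simp [T10_h]
  let Q : Set ℂ := Set.Icc (-1 : ℝ) 1 ×ℂ Set.Icc (1 : ℝ) R
  have hQ : IsCompact Q := isCompact_Icc.reProdIm isCompact_Icc
  have hQm : ∀ w : ℂ, w ∈ Q ↔ (-1 ≤ w.re ∧ w.re ≤ 1) ∧ 1 ≤ w.im ∧ w.im ≤ R := by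
    intro w
    exact Iff.rfl
  have hG2 : ∀ w : ℂ, 0 < w.im → ContDiffAt ℝ 2 f w := by
    intro w hw
    exact (hf w hw).1.of_le (by norm_cast)
  have hGc : ContinuousOn G Q := by
    intro w hw
    have h1 : 0 < w.im := by
      have := ((hQm w).1 hw).2.1
      linarith
    exact ((hG2 w h1).continuousAt.add (T10_h_contDiff ε η).continuous.continuousAt).continuousWithinAt
  have hw₀Q : w₀ ∈ Q := by
    rw [hQm]
    rw [abs_le] at hw₀
    exact ⟨hw₀, hw₁, hR1.le⟩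
  obtain ⟨w₁, hw₁Q, hmax⟩ := hQ.exists_isMaxOn ⟨w₀, hw₀Q⟩ hGc
  have hGw₀ : m + η < G w₀ := by
    change m + η < f w₀ + (η * w₀.im ^ 2 - ε * (w₀.im - 1))
    have : 1 ≤ w₀.im ^ 2 := by nlinarith
    nlinarith
  have hGw₁ : m + η < G w₁ := lt_of_lt_of_le hGw₀ (hmax hw₀Q)
  -- shift
  obtain ⟨w₂, h2re, h2im, h2G⟩ : ∃ w₂ : ℂ, |w₂.re| ≤ 1 / 2 ∧ w₂.im = w₁.im ∧ G w₂ = G w₁ := by
    have h1 := (hQm w₁).1 hw₁Q
    have h1im : 0 < w₁.im := by linarith [h1.2.1]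
    by_cases ha : 1 / 2 < w₁.re
    · refine ⟨w₁ - 1, ?_, by simp, ?_⟩
      · rw [Complex.sub_re, Complex.one_re, abs_le]
        constructor <;> linarith [h1.1.1, h1.1.2]
      · rw [← hGper (w₁ - 1) (by simpa using h1im), sub_add_cancel]
    · by_cases hb : w₁.re < -(1 / 2)
      · refine ⟨w₁ + 1, ?_, by simp, hGper w₁ h1im⟩
        rw [Complex.add_re, Complex.one_re, abs_le]
        constructor <;> linarith [h1.1.1, h1.1.2]
      · rw [not_lt] at ha hb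
        exact ⟨w₁, abs_le.2 ⟨by linarith, ha⟩, rfl, rfl⟩
  have h1 := (hQm w₁).1 hw₁Q
  have h2abs := abs_le.1 h2re
  have hne1 : w₂.im ≠ 1 := by
    intro h
    have h3 := hm w₂ (h2re.trans (by norm_num)) h
    have h4 : G w₂ = f w₂ + (η * w₂.im ^ 2 - ε * (w₂.im - 1)) := rfl
    rw [h] at h4
    linarith
  have hneR : w₂.im ≠ R := by
    intro h
    have h3 := hg w₂ (h2re.trans (by norm_num)) (by rw [h]; exact hR2.le)
    have h4 : G w₂ = f w₂ + (η * w₂.im ^ 2 - ε * (w₂.im - 1)) := rfl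
    rw [h] at h3 h4
    linarith
  have h5 : 1 < w₂.im := lt_of_le_of_ne (by rw [h2im]; exact h1.2.1) (Ne.symm hne1)
  have h6 : w₂.im < R := lt_of_le_of_ne (by rw [h2im]; exact h1.2.2) hneR
  have hloc : IsLocalMax G w₂ := by
    have hopen : IsOpen (Set.Ioo (-1 : ℝ) 1 ×ℂ Set.Ioo (1 : ℝ) R) := isOpen_Ioo.reProdIm isOpen_Ioo
    have hmem : w₂ ∈ Set.Ioo (-1 : ℝ) 1 ×ℂ Set.Ioo (1 : ℝ) R :=
      ⟨⟨by linarith, by linarith⟩, h5, h6⟩
    filter_upwards [hopen.mem_nhds hmem] with y hy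
    rw [h2G]
    exact hmax ((hQm y).2 ⟨⟨hy.1.1.le, hy.1.2.le⟩, hy.2.1.le, hy.2.2.le⟩)
  have h2im0 : 0 < w₂.im := by linarith
  have hGcd : ContDiffAt ℝ 2 G w₂ := (hG2 w₂ h2im0).add (T10_h_contDiff ε η).contDiffAt
  obtain ⟨-, -, k3, k4⟩ := lapl_max hGcd hloc
  have e1 : K05_D 1 (K05_D 1 G) w₂ = _ :=
    T10_DD_add 1 (hG2 w₂ h2im0) (T10_h_contDiff ε η).contDiffAt
  have e2 : K05_D Complex.I (K05_D Complex.I G) w₂ = _ :=
    T10_DD_add Complex.I (hG2 w₂ h2im0) (T10_h_contDiff ε η).contDiffAt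
  rw [T10_DD_h] at e1 e2
  have k3' : K05_D 1 (K05_D 1 G) w₂ ≤ 0 := k3
  have k4' : K05_D Complex.I (K05_D Complex.I G) w₂ ≤ 0 := k4
  have k5 : 0 ≤ K05_D 1 (K05_D 1 f) w₂ + K05_D Complex.I (K05_D Complex.I f) w₂ :=
    (hf w₂ h2im0).2
  rw [e1] at k3'
  rw [e2] at k4'
  simp only [Complex.one_im, Complex.I_im] at k3' k4'
  nlinarith

end MP2794d1
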