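import Pool.Agent.Lib.MP_2794d1_ag.L03
import Pool.Agent.Lib.MP_2794d1_ag.F07

/-!
L04: Polynomial growth of the Hodge norm at a cusp σ. Write σ w = (a w + b)/(c w + d), im (σ w) = im w / |c w + d|². For
‖w₁ - w₀‖ ≤ im w₀ / 3: σ w₁ - σ w₀ = (w₁ - w₀)/((c w₁ + d)(c w₀ + d)), so ‖σ w₁ - σ w₀‖ / im (σ w₀) =
(‖w₁ - w₀‖ / im w₀) |c w₀ + d| / |c w₁ + d| and |c w₁ + d| ≥ |c w₀ + d| - |c| ‖w₁ - w₀‖ ≥ |c w₀ + d| (1 - 1/3) (as
|c| im w₀ ≤ |c w₀ + d|), so this is ≤ (1/3)/(2/3) = 1/2 and qf_compare applies to σ w₀, σ w₁ in both directions with constant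
E = e^(C/2). Chain: from I to i t (t = (4/3)^k) in k steps of ratio 4/3, k ≤ 3 log t + 1 or so; from i t to i (im w) one more
step; from i im w to w = re w + i im w in at most 3 (or a fixed number of) horizontal steps (|re w| ≤ 1 ≤ im w). Total factor
E^(k + const) ≤ C' (im w)^K for a natural K ≥ log E / log (4/3).
-/

namespace MP2794d1

open Matrix Complex Filter Topology
open scoped ContDiff

theorem L04_mob (σ : Matrix.SpecialLinearGroup (Fin 2) ℝ) (w₀ w₁ : ℂ) (h0 : 0 < w₀.im)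
    (h1 : 0 < w₁.im) (h : ‖w₁ - w₀‖ ≤ w₀.im / 3) :
    ‖mob σ w₁ - mob σ w₀‖ ≤ (mob σ w₀).im / 2 := by
  have hd0 := F07_den σ w₀ h0
  have hd1 := F07_den σ w₁ h1
  have hdet := F07_det σ
  set D₀ : ℂ := ((σ 1 0 : ℝ) : ℂ) * w₀ + ((σ 1 1 : ℝ) : ℂ) with hD0
  set D₁ : ℂ := ((σ 1 0 : ℝ) : ℂ) * w₁ + ((σ 1 1 : ℝ) : ℂ) with hD1
  have hN0 : 0 < ‖D₀‖ := norm_pos_iff.2 hd0
  have hN1 : 0 < ‖D₁‖ := norm_pos_iff.2 hd1
  have hdiff : mob σ w₁ - mob σ w₀ = (w₁ - w₀) / (D₁ * D₀) := by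
    unfold mob
    rw [← hD0, ← hD1, div_sub_div _ _ hd1 hd0]
    congr 1
    rw [hD0, hD1]
    have h6 : ((σ 0 0 : ℝ) : ℂ) * ((σ 1 1 : ℝ) : ℂ) - ((σ 0 1 : ℝ) : ℂ) * ((σ 1 0 : ℝ) : ℂ) = 1 := by
      exact_mod_cast congrArg (fun x : ℝ => (x : ℂ)) hdet
    linear_combination (w₁ - w₀) * h6
  have him : (mob σ w₀).im = w₀.im / ‖D₀‖ ^ 2 := by
    rw [← Complex.normSq_eq_norm_sq]
    unfold mob
    rw [← hD0, Complex.div_im, ← sub_div]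
    congr 1
    rw [hD0]
    simp only [Complex.add_im, Complex.mul_im, Complex.ofReal_re, Complex.ofReal_im, zero_mul,
      add_zero, Complex.add_re, Complex.mul_re, sub_zero]
    linear_combination w₀.im * hdet
  have hc : |σ 1 0| * w₀.im ≤ ‖D₀‖ := by
    have h2 : D₀.im = σ 1 0 * w₀.im := by
      rw [hD0]
      simp
    have h3 := Complex.abs_im_le_norm D₀
    rwa [h2, abs_mul, abs_of_pos h0] at h3
  have hD : ‖D₀‖ - |σ 1 0| * ‖w₁ - w₀‖ ≤ ‖D₁‖ := by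
    have h2 : D₀ = D₁ - ((σ 1 0 : ℝ) : ℂ) * (w₁ - w₀) := by
      rw [hD0, hD1]
      ring
    have h3 : ‖D₀‖ ≤ ‖D₁‖ + ‖((σ 1 0 : ℝ) : ℂ) * (w₁ - w₀)‖ := by
      conv_lhs => rw [h2]
      exact norm_sub_le _ _
    rw [norm_mul, Complex.norm_real, Real.norm_eq_abs] at h3
    linarith
  have hD2 : 2 / 3 * ‖D₀‖ ≤ ‖D₁‖ := by
    have h2 : |σ 1 0| * ‖w₁ - w₀‖ ≤ |σ 1 0| * (w₀.im / 3) :=
      mul_le_mul_of_nonneg_left h (abs_nonneg _)
    linarith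
  rw [hdiff, him, norm_div, norm_mul, div_div, div_le_div_iff₀ (mul_pos hN1 hN0) (by positivity)]
  have h5 : ‖w₁ - w₀‖ * ‖D₀‖ ≤ w₀.im / 3 * ‖D₀‖ := mul_le_mul_of_nonneg_right h hN0.le
  have h6 : w₀.im * (2 / 3 * ‖D₀‖) ≤ w₀.im * ‖D₁‖ := mul_le_mul_of_nonneg_left hD2 h0.le
  have h7 : ‖w₁ - w₀‖ * ‖D₀‖ * 2 ≤ w₀.im * ‖D₁‖ := by linarith
  calc ‖w₁ - w₀‖ * (‖D₀‖ ^ 2 * 2) = (‖w₁ - w₀‖ * ‖D₀‖ * 2) * ‖D₀‖ := by ring
    _ ≤ (w₀.im * ‖D₁‖) * ‖D₀‖ := mul_le_mul_of_nonneg_right h7 hN0.le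
    _ = w₀.im * (‖D₁‖ * ‖D₀‖) := by ring

theorem L04_im (x : ℝ) : ((x : ℂ) * Complex.I).im = x := by
  simp

theorem qf_growth {n : ℕ} (V : PolVHS n) (σ : Matrix.SpecialLinearGroup (Fin 2) ℝ) :
    ∃ (C : ℝ) (K : ℕ), 1 ≤ C ∧ ∀ w : ℂ, |w.re| ≤ 1 → 1 ≤ w.im → ∀ v : Fin n → ℂ,
      qf V (mob σ w) v ≤ C * w.im ^ K * qf V (mob σ Complex.I) v ∧
      qf V (mob σ Complex.I) v ≤ C * w.im ^ K * qf V (mob σ w) v := by
  obtain ⟨C₀, hC₀, hcmp⟩ := qf_compare V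
  set E : ℝ := Real.exp (C₀ / 2) with hE
  have hE1 : 1 ≤ E := Real.one_le_exp (by positivity)
  have hE0 : 0 < E := lt_of_lt_of_le one_pos hE1
  have hstep : ∀ w₀ w₁ : ℂ, 0 < w₀.im → 0 < w₁.im → ‖w₁ - w₀‖ ≤ w₀.im / 3 → ∀ v : Fin n → ℂ,
      qf V (mob σ w₁) v ≤ E * qf V (mob σ w₀) v ∧ qf V (mob σ w₀) v ≤ E * qf V (mob σ w₁) v := by
    intro w₀ w₁ h0 h1 h v
    have him := mob_im_pos σ w₀ h0
    have him1 := mob_im_pos σ w₁ h1
    have h2 := L04_mob σ w₀ w₁ h0 h1 h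
    have h3 := hcmp (mob σ w₀) (mob σ w₁) him h2 v
    have h4 : Real.exp (C₀ * (‖mob σ w₁ - mob σ w₀‖ / (mob σ w₀).im)) ≤ E := by
      apply Real.exp_le_exp.2
      have h5 : ‖mob σ w₁ - mob σ w₀‖ / (mob σ w₀).im ≤ 1 / 2 := by
        rw [div_le_iff₀ him]
        linarith
      calc C₀ * (‖mob σ w₁ - mob σ w₀‖ / (mob σ w₀).im) ≤ C₀ * (1 / 2) :=
            mul_le_mul_of_nonneg_left h5 hC₀
        _ = C₀ / 2 := by ring
    exact ⟨h3.1.trans (mul_le_mul_of_nonneg_right h4 (qf_nonneg V him v)),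
      h3.2.trans (mul_le_mul_of_nonneg_right h4 (qf_nonneg V him1 v))⟩
  -- iterated steps
  have htrans : ∀ (A B : ℝ) (w₀ w₁ w₂ : ℂ), 0 ≤ A → 0 ≤ B → ∀ v : Fin n → ℂ,
      (qf V (mob σ w₁) v ≤ A * qf V (mob σ w₀) v ∧ qf V (mob σ w₀) v ≤ A * qf V (mob σ w₁) v) →
      (qf V (mob σ w₂) v ≤ B * qf V (mob σ w₁) v ∧ qf V (mob σ w₁) v ≤ B * qf V (mob σ w₂) v) →
      (qf V (mob σ w₂) v ≤ (A * B) * qf V (mob σ w₀) v ∧
        qf V (mob σ w₀) v ≤ (A * B) * qf V (mob σ w₂) v) := by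
    intro A B w₀ w₁ w₂ hA hB v h1 h2
    constructor
    · calc qf V (mob σ w₂) v ≤ B * qf V (mob σ w₁) v := h2.1
        _ ≤ B * (A * qf V (mob σ w₀) v) := mul_le_mul_of_nonneg_left h1.1 hB
        _ = (A * B) * qf V (mob σ w₀) v := by ring
    · calc qf V (mob σ w₀) v ≤ A * qf V (mob σ w₁) v := h1.2
        _ ≤ A * (B * qf V (mob σ w₂) v) := mul_le_mul_of_nonneg_left h2.2 hA
        _ = (A * B) * qf V (mob σ w₂) v := by ring
  -- vertical steps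
  have hvert : ∀ (k : ℕ) (v : Fin n → ℂ),
      qf V (mob σ ((((4 / 3 : ℝ) ^ k : ℝ) : ℂ) * Complex.I)) v ≤ E ^ k * qf V (mob σ Complex.I) v ∧
      qf V (mob σ Complex.I) v ≤ E ^ k * qf V (mob σ ((((4 / 3 : ℝ) ^ k : ℝ) : ℂ) * Complex.I)) v := by
    intro k v
    induction k with
    | zero => simp
    | succ k ih =>
      rw [pow_succ E k]
      apply htrans _ _ _ _ _ (pow_nonneg hE0.le k) hE0.le v ih
      have hp : (0 : ℝ) < (4 / 3) ^ k := by positivity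
      have hp1 : (0 : ℝ) < (4 / 3) ^ (k + 1) := by positivity
      apply hstep
      · rw [L04_im]
        exact hp
      · rw [L04_im]
        exact hp1
      · have h1 : (((4 / 3 : ℝ) ^ (k + 1) : ℝ) : ℂ) * Complex.I -
            (((4 / 3 : ℝ) ^ k : ℝ) : ℂ) * Complex.I =
            (((4 / 3 : ℝ) ^ k / 3 : ℝ) : ℂ) * Complex.I := by
          push_cast
          ring
        rw [h1, norm_mul, Complex.norm_I, mul_one, Complex.norm_real, Real.norm_eq_abs,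
          abs_of_pos (by positivity)]
        rw [L04_im]
  obtain ⟨K, hK⟩ : ∃ K : ℕ, E ≤ (4 / 3 : ℝ) ^ K := by
    obtain ⟨K, hK⟩ := pow_unbounded_of_one_lt E (by norm_num : (1 : ℝ) < 4 / 3)
    exact ⟨K, hK.le⟩
  refine ⟨E ^ 4, K, one_le_pow₀ hE1, ?_⟩
  intro w hre him v
  obtain ⟨k, hk1, hk2⟩ := exists_nat_pow_near him (by norm_num : (1 : ℝ) < 4 / 3)
  have hw0 : 0 < w.im := lt_of_lt_of_le one_pos him
  have hEk : E ^ k ≤ w.im ^ K := by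
    calc E ^ k ≤ ((4 / 3 : ℝ) ^ K) ^ k := pow_le_pow_left₀ hE0.le hK k
      _ = ((4 / 3 : ℝ) ^ k) ^ K := by rw [← pow_mul, ← pow_mul, mul_comm]
      _ ≤ w.im ^ K := pow_le_pow_left₀ (by positivity) hk1 K
  -- from i (4/3)^k to i im w
  have hs1 := hstep ((((4 / 3 : ℝ) ^ k : ℝ) : ℂ) * Complex.I) ((w.im : ℂ) * Complex.I)
    (by
      rw [L04_im]
      positivity) (by simpa using hw0) (by
      have h1 : (w.im : ℂ) * Complex.I - (((4 / 3 : ℝ) ^ k : ℝ) : ℂ) * Complex.I =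
          ((w.im - (4 / 3 : ℝ) ^ k : ℝ) : ℂ) * Complex.I := by
        push_cast
        ring
      rw [h1, norm_mul, Complex.norm_I, mul_one, Complex.norm_real, Real.norm_eq_abs,
        abs_of_nonneg (by linarith)]
      rw [L04_im]
      rw [pow_succ] at hk2
      linarith) v
  have hhor : ∀ s t : ℝ, |t - s| ≤ 1 / 3 →
      qf V (mob σ (((t * w.re : ℝ) : ℂ) + (w.im : ℂ) * Complex.I)) v ≤
        E * qf V (mob σ (((s * w.re : ℝ) : ℂ) + (w.im : ℂ) * Complex.I)) v ∧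
      qf V (mob σ (((s * w.re : ℝ) : ℂ) + (w.im : ℂ) * Complex.I)) v ≤
        E * qf V (mob σ (((t * w.re : ℝ) : ℂ) + (w.im : ℂ) * Complex.I)) v := by
    intro s t hst
    apply hstep
    · simpa using hw0
    · simpa using hw0
    · have h1 : ((t * w.re : ℝ) : ℂ) + (w.im : ℂ) * Complex.I -
          (((s * w.re : ℝ) : ℂ) + (w.im : ℂ) * Complex.I) = (((t - s) * w.re : ℝ) : ℂ) := by
        push_cast
        ring
      rw [h1, Complex.norm_real, Real.norm_eq_abs, abs_mul]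
      have h2 : (((s * w.re : ℝ) : ℂ) + (w.im : ℂ) * Complex.I).im = w.im := by simp
      rw [h2]
      calc |t - s| * |w.re| ≤ 1 / 3 * 1 := mul_le_mul hst hre (abs_nonneg _) (by norm_num)
        _ ≤ w.im / 3 := by linarith
  have hh1 := hhor 0 (1 / 3) (by norm_num)
  have hh2 := hhor (1 / 3) (2 / 3) (by norm_num)
  have hh3 := hhor (2 / 3) 1 (by norm_num [abs_le])
  have e0 : (((0 * w.re : ℝ) : ℂ) + (w.im : ℂ) * Complex.I) = (w.im : ℂ) * Complex.I := by simp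
  have e1 : (((1 * w.re : ℝ) : ℂ) + (w.im : ℂ) * Complex.I) = w := by
    rw [one_mul]
    exact Complex.re_add_im w
  rw [e0] at hh1
  rw [e1] at hh3
  have a1 := htrans _ _ _ _ _ (pow_nonneg hE0.le k) hE0.le v (hvert k v) hs1
  have a2 := htrans _ _ _ _ _ (mul_nonneg (pow_nonneg hE0.le k) hE0.le) hE0.le v a1 hh1
  have a3 := htrans _ _ _ _ _ (mul_nonneg (mul_nonneg (pow_nonneg hE0.le k) hE0.le) hE0.le)
    hE0.le v a2 hh2
  have a4 := htrans _ _ _ _ _ (mul_nonneg (mul_nonneg (mul_nonneg (pow_nonneg hE0.le k) hE0.le)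
    hE0.le) hE0.le) hE0.le v a3 hh3
  have hfac : E ^ k * E * E * E * E ≤ E ^ 4 * w.im ^ K := by
    calc E ^ k * E * E * E * E = E ^ 4 * E ^ k := by ring
      _ ≤ E ^ 4 * w.im ^ K := mul_le_mul_of_nonneg_left hEk (by positivity)
  have hI : (0 : ℝ) < (Complex.I).im := by simp
  exact ⟨a4.1.trans (mul_le_mul_of_nonneg_right hfac (qf_nonneg V (mob_im_pos σ _ hI) v)),
    a4.2.trans (mul_le_mul_of_nonneg_right hfac (qf_nonneg V (mob_im_pos σ _ hw0) v))⟩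

end MP2794d1
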