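import Pool.Agent.Lib.MP_2794d1_ag.Base

/-!
H01: complexification and rational functionals. (→) span induction: for c • cm Y (Y ∈ m), entries c * (y : ℂ), y
rational, ℓ(c y) = y ℓ(c), so the image is ℓ(c) • Y. (←) take a ℚ-basis (θ_i) of ℂ (Basis.ofVectorSpace ℚ ℂ): each entry
is a finite sum ∑ coord_i(x) θ_i, so X = ∑_i θ_i • cm (X.map coord_i) over the (finite) union of the supports.
-/

namespace MP2794d1

open Matrix Complex Filter Topology

theorem mem_cx_iff {n : ℕ} (m : Submodule ℚ (Matrix (Fin n) (Fin n) ℚ))
    (X : Matrix (Fin n) (Fin n) ℂ) :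
    X ∈ cx (m : Set (Matrix (Fin n) (Fin n) ℚ)) ↔ ∀ l : ℂ →ₗ[ℚ] ℚ, X.map l ∈ m := by
  classical
  constructor
  · intro hX
    unfold cx at hX
    induction hX using Submodule.span_induction with
    | mem Y hY =>
      obtain ⟨Z, hZ, rfl⟩ := hY
      intro l
      have h1 : (cm Z).map l = l 1 • Z := by
        ext i j
        simp only [cm, Matrix.map_apply, Matrix.smul_apply, smul_eq_mul]
        have : ((Z i j : ℚ) : ℂ) = (Z i j) • (1 : ℂ) := by
          rw [Rat.smul_def, mul_one]
        rw [this, map_smul, smul_eq_mul, mul_comm]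
      rw [h1]
      exact m.smul_mem _ hZ
    | zero =>
      intro l
      have : (0 : Matrix (Fin n) (Fin n) ℂ).map l = 0 := by
        ext i j
        simp
      rw [this]
      exact m.zero_mem
    | add Y Z _ _ hY hZ =>
      intro l
      have : (Y + Z).map l = Y.map l + Z.map l := by
        ext i j
        simp
      rw [this]
      exact m.add_mem (hY l) (hZ l)
    | smul c Y _ hY =>
      intro l
      have : (c • Y).map l = Y.map (l.comp (LinearMap.mulLeft ℚ c)) := by
        ext i j
        simp
      rw [this]
      exact hY _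
  · intro h
    set b := Module.Basis.ofVectorSpace ℚ ℂ with hb
    set T := (Finset.univ : Finset (Fin n × Fin n)).biUnion (fun p => (b.repr (X p.1 p.2)).support)
      with hT
    have hX : X = ∑ k ∈ T, b k • cm (X.map (b.coord k)) := by
      ext i j
      rw [Matrix.sum_apply]
      simp only [Matrix.smul_apply, cm, Matrix.map_apply, smul_eq_mul]
      have h1 : X i j = ∑ k ∈ T, (b.repr (X i j) k) • b k := by
        conv_lhs => rw [← b.linearCombination_repr (X i j)]
        rw [Finsupp.linearCombination_apply, Finsupp.sum]
        refine Finset.sum_subset ?_ ?_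
        · intro k hk
          rw [hT, Finset.mem_biUnion]
          exact ⟨(i, j), Finset.mem_univ _, hk⟩
        · intro k _ hk
          rw [Finsupp.notMem_support_iff.1 hk, zero_smul]
      rw [h1]
      refine Finset.sum_congr rfl (fun k _ => ?_)
      rw [← h1, Rat.smul_def, mul_comm]
      rfl
    rw [hX]
    refine Submodule.sum_mem _ (fun k _ => ?_)
    refine Submodule.smul_mem _ _ (Submodule.subset_span ⟨X.map (b.coord k), h (b.coord k), rfl⟩)

end MP2794d1
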