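import Pool.Agent.Lib.MP_2794d1_ag.E03

/-!
E05: everything in the coordinates of an adapted basis: with x = S⁻¹ X S, S⁻¹ (br μ X) S has entries
(d a - d b) x a b. comm_of: x a b ≠ 0 → d a = d b. zero_of: d a = d b and d b + 1 ≤ d a impossible. type01: nonzero
entries have d a - d b ∈ {0, 1}. FEnd0_of_comm, FEnd1_of: entries nonzero only for d a = d b (resp. d a = d b + 1).
gr_shift: entries of μ - p.
-/

namespace MP2794d1

open Matrix Complex Filter Topology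

theorem E05_inj {n : ℕ} {S : Matrix (Fin n) (Fin n) ℂ} (hS : IsUnit S.det)
    {X Y : Matrix (Fin n) (Fin n) ℂ} (h : ∀ a b, (S⁻¹ * X * S) a b = (S⁻¹ * Y * S) a b) :
    X = Y := by
  have h1 : S⁻¹ * X * S = S⁻¹ * Y * S := by
    ext a b
    exact h a b
  have h2 : ∀ Z : Matrix (Fin n) (Fin n) ℂ, Z = S * (S⁻¹ * Z * S) * S⁻¹ := by
    intro Z
    simp only [Matrix.mul_assoc]
    rw [Matrix.mul_nonsing_inv _ hS, Matrix.mul_one, ← Matrix.mul_assoc,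
      Matrix.mul_nonsing_inv _ hS, Matrix.one_mul]
  rw [h2 X, h2 Y, h1]

theorem E05_mu {n : ℕ} {wt : ℤ} {Q : Matrix (Fin n) (Fin n) ℤ}
    {Fl : ℤ → Submodule ℂ (Fin n → ℂ)} {S : Matrix (Fin n) (Fin n) ℂ} {d : Fin n → ℤ}
    (hS : Adapted wt Q Fl S d) {μ : Matrix (Fin n) (Fin n) ℂ} (hμ : IsGr wt Fl μ)
    (X : Matrix (Fin n) (Fin n) ℂ) (a b : Fin n) :
    (S⁻¹ * br μ X * S) a b = ((d a : ℂ) - (d b : ℂ)) * (S⁻¹ * X * S) a b := by
  have h1 := gr_eq hS μ hμ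
  have h2 : S⁻¹ * br μ X * S = Matrix.diagonal (fun a => (d a : ℂ)) * (S⁻¹ * X * S) -
      (S⁻¹ * X * S) * Matrix.diagonal (fun a => (d a : ℂ)) := by
    unfold br
    rw [h1, Matrix.mul_sub, Matrix.sub_mul]
    congr 1
    · simp only [← Matrix.mul_assoc]
      rw [Matrix.nonsing_inv_mul _ hS.inv, Matrix.one_mul]
    · simp only [Matrix.mul_assoc]
      rw [Matrix.nonsing_inv_mul _ hS.inv, Matrix.mul_one]
  rw [h2, Matrix.sub_apply, Matrix.diagonal_mul, Matrix.mul_diagonal]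
  ring

theorem comm_of_FEnd {n : ℕ} {wt : ℤ} {Q : Matrix (Fin n) (Fin n) ℤ}
    {Fl : ℤ → Submodule ℂ (Fin n → ℂ)} (h : IsPHS wt Q Fl) {μ : Matrix (Fin n) (Fin n) ℂ}
    (hμ : IsGr wt Fl μ) (X : Matrix (Fin n) (Fin n) ℂ) (h0 : X ∈ FEnd Fl 0)
    (h1 : mconj X ∈ FEnd Fl 0) : br μ X = 0 := by
  obtain ⟨S, d, hS⟩ := exists_adapted h
  rw [mem_FEnd_iff hS] at h0
  rw [conj_mem_FEnd_iff hS] at h1
  apply E05_inj hS.inv
  intro a b
  rw [E05_mu hS hμ, Matrix.mul_zero, Matrix.zero_mul, Matrix.zero_apply]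
  by_cases hx : (S⁻¹ * X * S) a b = 0
  · rw [hx, mul_zero]
  · have e1 := h0 a b hx
    have e2 := h1 a b hx
    have e3 : d a = d b := by omega
    rw [e3, sub_self, zero_mul]

theorem zero_of_FEnd {n : ℕ} {wt : ℤ} {Q : Matrix (Fin n) (Fin n) ℤ}
    {Fl : ℤ → Submodule ℂ (Fin n → ℂ)} (h : IsPHS wt Q Fl) {μ : Matrix (Fin n) (Fin n) ℂ}
    (hμ : IsGr wt Fl μ) (X : Matrix (Fin n) (Fin n) ℂ) (h0 : br μ X = 0)
    (h1 : X ∈ FEnd Fl 1) : X = 0 := by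
  obtain ⟨S, d, hS⟩ := exists_adapted h
  rw [mem_FEnd_iff hS] at h1
  apply E05_inj hS.inv
  intro a b
  rw [Matrix.mul_zero, Matrix.zero_mul, Matrix.zero_apply]
  by_contra hx
  have e1 := h1 a b hx
  have e2 := E05_mu hS hμ X a b
  rw [h0, Matrix.mul_zero, Matrix.zero_mul, Matrix.zero_apply] at e2
  rcases mul_eq_zero.mp e2.symm with e3 | e3
  · have e4 : (d a : ℂ) = (d b : ℂ) := sub_eq_zero.mp e3
    have e5 : d a = d b := by exact_mod_cast e4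
    omega
  · exact hx e3

theorem type01 {n : ℕ} {wt : ℤ} {Q : Matrix (Fin n) (Fin n) ℤ}
    {Fl : ℤ → Submodule ℂ (Fin n → ℂ)} (h : IsPHS wt Q Fl) {μ : Matrix (Fin n) (Fin n) ℂ}
    (hμ : IsGr wt Fl μ) (X : Matrix (Fin n) (Fin n) ℂ) (h0 : X ∈ FEnd Fl 0)
    (h1 : mconj X ∈ FEnd Fl (-1)) : br μ (br μ X) = br μ X := by
  obtain ⟨S, d, hS⟩ := exists_adapted h
  rw [mem_FEnd_iff hS] at h0
  rw [conj_mem_FEnd_iff hS] at h1
  apply E05_inj hS.inv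
  intro a b
  rw [E05_mu hS hμ, E05_mu hS hμ]
  by_cases hx : (S⁻¹ * X * S) a b = 0
  · rw [hx, mul_zero, mul_zero]
  · have e1 := h0 a b hx
    have e2 := h1 a b hx
    have e3 : d a = d b ∨ d a = d b + 1 := by omega
    rcases e3 with e3 | e3
    · rw [e3]; ring
    · rw [e3]; push_cast; ring

theorem FEnd0_of_comm {n : ℕ} {wt : ℤ} {Q : Matrix (Fin n) (Fin n) ℤ}
    {Fl : ℤ → Submodule ℂ (Fin n → ℂ)} (h : IsPHS wt Q Fl) {μ : Matrix (Fin n) (Fin n) ℂ}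
    (hμ : IsGr wt Fl μ) (X : Matrix (Fin n) (Fin n) ℂ) (h0 : br μ X = 0) : X ∈ FEnd Fl 0 := by
  obtain ⟨S, d, hS⟩ := exists_adapted h
  rw [mem_FEnd_iff hS]
  intro a b hx
  have e2 := E05_mu hS hμ X a b
  rw [h0, Matrix.mul_zero, Matrix.zero_mul, Matrix.zero_apply] at e2
  rcases mul_eq_zero.mp e2.symm with e3 | e3
  · have e4 : (d a : ℂ) = (d b : ℂ) := sub_eq_zero.mp e3
    have e5 : d a = d b := by exact_mod_cast e4
    omega
  · exact absurd e3 hx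

theorem FEnd1_of {n : ℕ} {wt : ℤ} {Q : Matrix (Fin n) (Fin n) ℤ}
    {Fl : ℤ → Submodule ℂ (Fin n → ℂ)} (h : IsPHS wt Q Fl) {μ : Matrix (Fin n) (Fin n) ℂ}
    (hμ : IsGr wt Fl μ) (X : Matrix (Fin n) (Fin n) ℂ) (h0 : br μ X = X) : X ∈ FEnd Fl 1 := by
  obtain ⟨S, d, hS⟩ := exists_adapted h
  rw [mem_FEnd_iff hS]
  intro a b hx
  have e2 := E05_mu hS hμ X a b
  rw [h0] at e2
  have e3 : ((d a : ℂ) - (d b : ℂ) - 1) * (S⁻¹ * X * S) a b = 0 := by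
    linear_combination -e2
  rcases mul_eq_zero.mp e3 with e4 | e4
  · have e5 : (d a : ℂ) = (d b : ℂ) + 1 := by linear_combination e4
    have e6 : d a = d b + 1 := by exact_mod_cast e5
    omega
  · exact absurd e4 hx

theorem gr_shift {n : ℕ} {wt : ℤ} {Q : Matrix (Fin n) (Fin n) ℤ}
    {Fl : ℤ → Submodule ℂ (Fin n → ℂ)} (h : IsPHS wt Q Fl) {μ : Matrix (Fin n) (Fin n) ℂ}
    (hμ : IsGr wt Fl μ) (p : ℤ) (x : Fin n → ℂ) (hx : x ∈ Fl p) :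
    μ *ᵥ x - (p : ℂ) • x ∈ Fl (p + 1) := by
  obtain ⟨S, d, hS⟩ := exists_adapted h
  rw [E03_fl hS] at hx ⊢
  intro a ha
  have h1 : S⁻¹ *ᵥ (μ *ᵥ x - (p : ℂ) • x) =
      Matrix.diagonal (fun a => (d a : ℂ)) *ᵥ (S⁻¹ *ᵥ x) - (p : ℂ) • (S⁻¹ *ᵥ x) := by
    rw [Matrix.mulVec_sub, Matrix.mulVec_smul, gr_eq hS μ hμ]
    congr 1
    simp only [Matrix.mulVec_mulVec, ← Matrix.mul_assoc]
    rw [Matrix.nonsing_inv_mul _ hS.inv, Matrix.one_mul]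
  rw [h1, Pi.sub_apply, Matrix.mulVec_diagonal, Pi.smul_apply, smul_eq_mul, ← sub_mul] at ha
  have h2 : (S⁻¹ *ᵥ x) a ≠ 0 := fun h' => ha (by rw [h', mul_zero])
  have h3 : d a ≠ p := by
    intro h'
    apply ha
    rw [h', sub_self, zero_mul]
  have h4 := hx a h2
  omega

end MP2794d1
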