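import Pool.Agent.Lib.MP_2794d1_ag.J03
import Pool.Agent.Lib.MP_2794d1_ag.E07

/-!
J04: The grading J = JV V. JV_gr: definition. JV_eq: gr_eq_sum with F_lo, F_hi. Smoothness: sum of Pi_smooth. JV_br:
θ = Dz J = ∑_{p ∈ Ioc lo hi} Dz Π p. For q ≤ p - 1: Π q Dz Π p = Π q Π (p-1) Dz Π p = Dz Π p (Pi_dz4, PiV_mul_of_le); for
q ≥ p: Π q Dz Π p = Π q Π p Dz Π p = 0 (Pi_dz1). So J Dz Π p = (p - 1) Dz Π p for p ∈ Ioc lo hi. For q ≤ p: Dz Π p Π q =
Dz Π p Π p Π q = Dz Π p; for q ≥ p + 1: Dz Π p Π q = Dz Π p Π(p+1) Π q = 0; so Dz Π p J = p Dz Π p. Subtract and sum.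
JV_conj: gr_conj. JV_db: Db J = Db (wt - mconj J) = - mconj (Dz J). TV_skew: differentiate e07_gr
(Jᵀ Q = wt Q - Q J). JV_br': conjugate of JV_br. TV_part: θ (Π p - Π (p+1)) = ∑_q Dz Π q (Π p - Π(p+1)), where for q ≤ p - 1
Dz Π q Π p = Dz Π q Π (q+1) Π p = 0 and Dz Π q Π(p+1) = 0; for q = p: Dz Π p - 0; for q ≥ p + 1: Dz Π q - Dz Π q = 0; and for
p outside Ioc lo hi, Π p is constant near z (it is 1 for p ≤ lo and 0 for p ≥ hi), so Dz Π p = 0.
-/

namespace MP2794d1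

open Matrix Complex Filter Topology
open scoped ContDiff

variable {n : ℕ} (V : PolVHS n) {z : ℂ} (hz : 0 < z.im)
include hz

theorem JV_gr : IsGr V.wt (fun p => V.F p z) (JV V z) := by
  unfold JV
  rw [dif_pos hz]
  exact Classical.choose_spec (exists_gr (V.phs z hz))

theorem JV_eq : JV V z = (V.lo : ℂ) • (1 : Matrix (Fin n) (Fin n) ℂ) +
    ∑ p ∈ Finset.Ioc V.lo V.hi, PiV V p z := by
  rw [gr_eq_sum (V.phs z hz) (JV_gr V hz) (V.F_lo z hz) (V.F_hi z hz)]
  congr 1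
  exact Finset.sum_congr rfl fun p _ => (PiV_eq V hz p).symm

theorem j04_ev : JV V =ᶠ[𝓝 z] fun y => (V.lo : ℂ) • (1 : Matrix (Fin n) (Fin n) ℂ) +
    ∑ p ∈ Finset.Ioc V.lo V.hi, PiV V p y := by
  filter_upwards [j03_im hz] with y hy
  exact JV_eq V hy

theorem JV_smooth : SmA (JV V) z := by
  have h1 : SmA (fun y => (V.lo : ℂ) • (1 : Matrix (Fin n) (Fin n) ℂ) +
      ∑ p ∈ Finset.Ioc V.lo V.hi, PiV V p y) z :=
    (SmA.const _).add (SmA.sum _ fun p _ => Pi_smooth V p hz)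
  exact h1.congr (j04_ev V hz).symm

theorem TV_smooth : SmA (TV V) z := (JV_smooth V hz).Dz

theorem j04_TV : TV V z = ∑ p ∈ Finset.Ioc V.lo V.hi, Dz (PiV V p) z := by
  unfold TV
  rw [Dz_congr (j04_ev V hz), Dz_add (SmA.const _) (SmA.sum _ fun p _ => Pi_smooth V p hz),
    Dz_const, zero_add, Dz_sum _ fun p _ => Pi_smooth V p hz]

theorem JV_conj : mconj (JV V z) = (V.wt : ℂ) • (1 : Matrix (Fin n) (Fin n) ℂ) - JV V z :=
  gr_conj (V.phs z hz) (JV_gr V hz)

theorem j04_left (p q : ℤ) : PiV V q z * Dz (PiV V p) z =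
    if q ≤ p - 1 then Dz (PiV V p) z else 0 := by
  split_ifs with h
  · calc PiV V q z * Dz (PiV V p) z = PiV V q z * (PiV V (p - 1) z * Dz (PiV V p) z) := by
          rw [Pi_dz4 V hz]
      _ = Dz (PiV V p) z := by
          rw [← Matrix.mul_assoc, (PiV_mul_of_le V hz h).1, Pi_dz4 V hz]
  · have h' : p ≤ q := by omega
    calc PiV V q z * Dz (PiV V p) z = (PiV V q z * PiV V p z) * Dz (PiV V p) z := by
          rw [(PiV_mul_of_le V hz h').2]
      _ = 0 := by rw [Matrix.mul_assoc, Pi_dz1 V hz, Matrix.mul_zero]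

theorem j04_right (p q : ℤ) : Dz (PiV V p) z * PiV V q z =
    if q ≤ p then Dz (PiV V p) z else 0 := by
  split_ifs with h
  · calc Dz (PiV V p) z * PiV V q z = Dz (PiV V p) z * PiV V p z * PiV V q z := by
          rw [Pi_dz2 V hz]
      _ = Dz (PiV V p) z := by
          rw [Matrix.mul_assoc, (PiV_mul_of_le V hz h).2, Pi_dz2 V hz]
  · have h' : p + 1 ≤ q := by omega
    calc Dz (PiV V p) z * PiV V q z = Dz (PiV V p) z * (PiV V (p + 1) z * PiV V q z) := by
          rw [(PiV_mul_of_le V hz h').1]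
      _ = 0 := by rw [← Matrix.mul_assoc, Pi_dz3 V hz, Matrix.zero_mul]

omit hz in
theorem j04_count (lo hi a : ℤ) (h1 : lo ≤ a) (h2 : a ≤ hi) (X : Matrix (Fin n) (Fin n) ℂ) :
    ∑ q ∈ Finset.Ioc lo hi, (if q ≤ a then X else 0) = ((a - lo : ℤ) : ℂ) • X := by
  rw [Finset.sum_ite, Finset.sum_const_zero, add_zero, Finset.sum_const]
  have h3 : (Finset.Ioc lo hi).filter (fun q => q ≤ a) = Finset.Ioc lo a := by
    ext q
    simp only [Finset.mem_filter, Finset.mem_Ioc]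
    constructor
    · rintro ⟨⟨h3, _⟩, h4⟩
      exact ⟨h3, h4⟩
    · rintro ⟨h3, h4⟩
      exact ⟨⟨h3, by omega⟩, h4⟩
  rw [h3, Int.card_Ioc, ← Nat.cast_smul_eq_nsmul ℂ]
  congr 1
  have h4 : (((a - lo).toNat : ℕ) : ℂ) = ((((a - lo).toNat : ℕ) : ℤ) : ℂ) := by
    push_cast
    rfl
  rw [h4, Int.toNat_of_nonneg (by omega)]

theorem j04_J_left (p : ℤ) (hp : p ∈ Finset.Ioc V.lo V.hi) :
    JV V z * Dz (PiV V p) z = ((p : ℂ) - 1) • Dz (PiV V p) z := by
  rw [Finset.mem_Ioc] at hp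
  rw [JV_eq V hz, Matrix.add_mul, Matrix.smul_mul, Matrix.one_mul, Finset.sum_mul]
  simp only [j04_left V hz]
  rw [j04_count _ _ _ (by omega) (by omega), ← add_smul]
  congr 1
  push_cast
  ring

theorem j04_J_right (p : ℤ) (hp : p ∈ Finset.Ioc V.lo V.hi) :
    Dz (PiV V p) z * JV V z = (p : ℂ) • Dz (PiV V p) z := by
  rw [Finset.mem_Ioc] at hp
  rw [JV_eq V hz, Matrix.mul_add, Matrix.mul_smul, Matrix.mul_one, Finset.mul_sum]
  simp only [j04_right V hz]
  rw [j04_count _ _ _ (by omega) (by omega), ← add_smul]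
  congr 1
  push_cast
  ring

theorem JV_br : br (JV V z) (TV V z) = -TV V z := by
  unfold br
  rw [j04_TV V hz, Finset.mul_sum, Finset.sum_mul, ← Finset.sum_sub_distrib,
    ← Finset.sum_neg_distrib]
  refine Finset.sum_congr rfl fun p hp => ?_
  rw [j04_J_left V hz p hp, j04_J_right V hz p hp, ← sub_smul]
  have : (p : ℂ) - 1 - (p : ℂ) = -1 := by ring
  rw [this, neg_smul, one_smul]

theorem JV_db : Db (JV V) z = -mconj (TV V z) := by
  have hS := JV_smooth V hz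
  have h1 : Db (JV V) z = Db (fun y => (V.wt : ℂ) • (1 : Matrix (Fin n) (Fin n) ℂ) -
      mconj (JV V y)) z := by
    apply Db_congr
    filter_upwards [j03_im hz] with y hy
    rw [JV_conj V hy]
    abel
  rw [h1, Db_sub (SmA.const _) hS.mconj, Db_const, zero_sub, Db_mconj hS]
  rfl

omit hz in
theorem j04_mconj_br (X Y : Matrix (Fin n) (Fin n) ℂ) : mconj (br X Y) = br (mconj X) (mconj Y) := by
  unfold br
  have h1 : mconj (X * Y - Y * X) = mconj (X * Y) - mconj (Y * X) := by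
    ext i j
    simp only [mconj, Matrix.map_apply, Matrix.sub_apply, map_sub]
  rw [h1, j01_mconj_mul, j01_mconj_mul]

omit hz in
theorem j04_mconj_neg (X : Matrix (Fin n) (Fin n) ℂ) : mconj (-X) = -mconj X := by
  ext i j
  simp [mconj]

theorem JV_br' : br (JV V z) (mconj (TV V z)) = mconj (TV V z) := by
  have h1 := congrArg mconj (JV_br V hz)
  rw [j04_mconj_br, j04_mconj_neg, JV_conj V hz] at h1
  have h2 : br ((V.wt : ℂ) • (1 : Matrix (Fin n) (Fin n) ℂ) - JV V z) (mconj (TV V z)) =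
      -br (JV V z) (mconj (TV V z)) := by
    unfold br
    rw [Matrix.sub_mul, Matrix.mul_sub, Matrix.smul_mul, Matrix.mul_smul, Matrix.one_mul,
      Matrix.mul_one]
    abel
  rw [h2] at h1
  exact neg_injective h1

theorem TV_skew : Skew V.Q (TV V z) := by
  have hS := JV_smooth V hz
  have h1 : Dz (fun y => (JV V y)ᵀ * im V.Q) z =
      Dz (fun y => (V.wt : ℂ) • im V.Q - im V.Q * JV V y) z := by
    apply Dz_congr
    filter_upwards [j03_im hz] with y hy
    exact e07_gr (V.phs y hy) (JV_gr V hy)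
  rw [Dz_mul hS.transpose (SmA.const _), Dz_const, Matrix.mul_zero, add_zero, Dz_transpose,
    Dz_sub (SmA.const _) ((SmA.const _).mul hS), Dz_const, zero_sub,
    Dz_mul (SmA.const _) hS, Dz_const, Matrix.zero_mul, zero_add] at h1
  unfold Skew TV
  rw [h1]
  abel

theorem j04_const_lo (p : ℤ) (hp : p ≤ V.lo) : Dz (PiV V p) z = 0 ∧ PiV V p z = 1 := by
  have h1 : ∀ y : ℂ, 0 < y.im → PiV V p y = 1 := by
    intro y hy
    apply j01_ext
    intro x
    rw [Matrix.one_mulVec]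
    apply (PiV_mem V hy p x).1
    have h2 : V.F V.lo y ≤ V.F p y := (V.phs y hy).anti _ _ hp
    rw [V.F_lo y hy] at h2
    exact h2 trivial
  refine ⟨?_, h1 z hz⟩
  rw [← Dz_const (z := z) (1 : Matrix (Fin n) (Fin n) ℂ)]
  apply Dz_congr
  filter_upwards [j03_im hz] with y hy
  exact h1 y hy

theorem j04_const_hi (p : ℤ) (hp : V.hi ≤ p) : Dz (PiV V p) z = 0 ∧ PiV V p z = 0 := by
  have h1 : ∀ y : ℂ, 0 < y.im → PiV V p y = 0 := by
    intro y hy
    apply j01_ext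
    intro x
    rw [Matrix.zero_mulVec]
    have h2 : V.F p y ≤ V.F V.hi y := (V.phs y hy).anti _ _ hp
    rw [V.F_hi y hy] at h2
    exact (Submodule.mem_bot ℂ).1 (h2 (j03_range V hy p x))
  refine ⟨?_, h1 z hz⟩
  rw [← Dz_const (z := z) (0 : Matrix (Fin n) (Fin n) ℂ)]
  apply Dz_congr
  filter_upwards [j03_im hz] with y hy
  exact h1 y hy

theorem TV_part (p : ℤ) : Dz (PiV V p) z = TV V z * (PiV V p z - PiV V (p + 1) z) := by
  rw [j04_TV V hz, Finset.sum_mul]
  have h1 : ∀ q ∈ Finset.Ioc V.lo V.hi, Dz (PiV V q) z * (PiV V p z - PiV V (p + 1) z) =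
      if q = p then Dz (PiV V p) z else 0 := by
    intro q _
    rw [Matrix.mul_sub, j04_right V hz, j04_right V hz]
    by_cases h2 : q = p
    · subst h2
      rw [if_pos le_rfl, if_neg (by omega), if_pos rfl, sub_zero]
    · rw [if_neg h2]
      by_cases h3 : p ≤ q
      · rw [if_pos h3, if_pos (by omega), sub_self]
      · rw [if_neg h3, if_neg (by omega), sub_zero]
  rw [Finset.sum_congr rfl h1, Finset.sum_ite_eq']
  split_ifs with h2
  · rfl
  · rw [Finset.mem_Ioc] at h2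
    by_cases h3 : p ≤ V.lo
    · exact (j04_const_lo V hz p h3).1
    · exact (j04_const_hi V hz p (by omega)).1

end MP2794d1
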