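import Pool.Agent.Lib.MP_2794d1_ag.W01
import Pool.Agent.Lib.MP_2794d1_ag.J04
import Pool.Agent.Lib.MP_2794d1_ag.E05

/-!
J06: Relation with sections: if s is an analytic section of F p near z, then s'(z) - θ s(z) ∈ F p z. Differentiate Π p s = s
near z with dz (entrywise; dz of an analytic function is its derivative): (Dz Π p) s + Π p s' = s', so
s' - (Dz Π p) s = Π p s' ∈ F p z. And (θ - Dz Π p) s(z) = ∑_{q ∈ Ioc lo hi, q ≠ p} Dz Π q s(z) (- Dz Π p s(z) if p is not in
Ioc lo hi, where it is 0 because Π p is locally constant): for q < p, Dz Π q s = Dz Π q Π(q+1) s = 0 because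
s ∈ F p ⊂ F (q+1); for q > p, Dz Π q s = Π(q-1) Dz Π q s ∈ F (q-1) ⊂ F p. vel_theta: for x ∈ F p z take a section s with
s z = x (s y = P y x for an analytic projector, HolAt.proj); then θ x - c X x = (s' - c X x) - (s' - θ x).
vel_iff_theta conversely.
-/

namespace MP2794d1

open Matrix Complex Filter Topology
open scoped ContDiff

variable {n : ℕ} (V : PolVHS n) {z : ℂ} (hz : 0 < z.im)
include hz

theorem j06_part (p : ℤ) (x : Fin n → ℂ) (hx : x ∈ V.F p z) :
    TV V z *ᵥ x - Dz (PiV V p) z *ᵥ x ∈ V.F p z := by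
  have hx' : PiV V p z *ᵥ x = x := (PiV_mem V hz p x).1 hx
  have h1 : ∀ q, q ≠ p → Dz (PiV V q) z *ᵥ x ∈ V.F p z := by
    intro q hq
    by_cases h2 : p ≤ q
    · have h3 := j04_left V hz q p
      rw [if_pos (by omega)] at h3
      rw [← h3, ← Matrix.mulVec_mulVec]
      exact j03_range V hz p _
    · have h3 := j04_right V hz q p
      rw [if_neg h2] at h3
      rw [← hx', Matrix.mulVec_mulVec, h3, Matrix.zero_mulVec]
      exact Submodule.zero_mem _
  have h4 : TV V z *ᵥ x = ∑ q ∈ Finset.Ioc V.lo V.hi, Dz (PiV V q) z *ᵥ x := by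
    rw [j04_TV V hz, Matrix.sum_mulVec]
  by_cases hp : p ∈ Finset.Ioc V.lo V.hi
  · rw [h4, ← Finset.add_sum_erase _ _ hp, add_sub_cancel_left]
    exact Submodule.sum_mem _ fun q hq => h1 q (Finset.ne_of_mem_erase hq)
  · have h5 : Dz (PiV V p) z = 0 := by
      rw [Finset.mem_Ioc] at hp
      by_cases h3 : p ≤ V.lo
      · exact (j04_const_lo V hz p h3).1
      · exact (j04_const_hi V hz p (by omega)).1
    rw [h4, h5, Matrix.zero_mulVec, sub_zero]
    refine Submodule.sum_mem _ fun q hq => h1 q ?_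
    rintro rfl
    exact hp hq

theorem section_theta (p : ℤ) (s : ℂ → (Fin n → ℂ)) (hs : ∀ i, AnalyticAt ℂ (fun y => s y i) z)
    (hF : ∀ᶠ y in 𝓝 z, s y ∈ V.F p y) :
    (fun i => deriv (fun y => s y i) z) - TV V z *ᵥ s z ∈ V.F p z := by
  set S : ℂ → Matrix (Fin n) (Fin 1) ℂ := fun y => Matrix.of fun i _ => s y i with hSdef
  have hS : SmA S z := SmA.of_analytic fun i _ => hs i
  have hPi := Pi_smooth V p hz
  have h1 : Dz (fun y => PiV V p y * S y) z = Dz S z := by
    apply Dz_congr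
    filter_upwards [hF, j03_im hz] with y hy hy'
    ext i j
    exact congrFun ((PiV_mem V hy' p _).1 hy) i
  rw [Dz_mul hPi hS] at h1
  have h2 : ∀ i, Dz S z i 0 = deriv (fun y => s y i) z := fun i =>
    dz_hol (hs i).differentiableAt
  set s' : Fin n → ℂ := fun i => deriv (fun y => s y i) z with hs'
  have h3 : Dz (PiV V p) z *ᵥ s z + PiV V p z *ᵥ s' = s' := by
    funext i
    have h4 := congrFun (congrFun h1 i) 0
    rw [Matrix.add_apply, Matrix.mul_apply, Matrix.mul_apply, h2 i] at h4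
    simp only [h2] at h4
    exact h4
  have h5 := j06_part V hz p (s z) hF.self_of_nhds
  have h6 : s' - TV V z *ᵥ s z = PiV V p z *ᵥ s' -
      (TV V z *ᵥ s z - Dz (PiV V p) z *ᵥ s z) := by
    have h7 : s' = Dz (PiV V p) z *ᵥ s z + PiV V p z *ᵥ s' := h3.symm
    calc s' - TV V z *ᵥ s z = (Dz (PiV V p) z *ᵥ s z + PiV V p z *ᵥ s') - TV V z *ᵥ s z := by
          rw [← h7]
      _ = _ := by abel
  rw [h6]
  exact Submodule.sub_mem _ (j03_range V hz p _) h5

theorem vel_theta (X : Matrix (Fin n) (Fin n) ℂ) (c : ℂ) (h : Vel V X z c) :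
    TV V z - c • X ∈ FEnd (fun p => V.F p z) 0 := by
  intro p x hx
  rw [add_zero]
  obtain ⟨P, hP, hev⟩ := j03_proj V hz p
  have h0 := hev.self_of_nhds
  have hx' : PiV V p z *ᵥ x = x := (PiV_mem V hz p x).1 hx
  have h1 : P z *ᵥ x = x := by
    rw [← hx', Matrix.mulVec_mulVec, h0.2.2]
  have hs : ∀ i, AnalyticAt ℂ (fun y => (P y *ᵥ x) i) z := by
    intro i
    have h2 : (fun y => (P y *ᵥ x) i) = fun y => ∑ j, P y i j * x j := rfl
    rw [h2]
    exact Finset.analyticAt_fun_sum _ fun j _ => (hP i j).mul analyticAt_const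
  have hF : ∀ᶠ y in 𝓝 z, P y *ᵥ x ∈ V.F p y := hev.mono fun y hy => hy.1 x
  have h3 := h p (fun y => P y *ᵥ x) hs hF
  have h4 := section_theta V hz p (fun y => P y *ᵥ x) hs hF
  simp only [h1] at h3 h4
  have h5 := Submodule.sub_mem _ h3 h4
  have h6 : ((fun i => deriv (fun y => (P y *ᵥ x) i) z) - c • (X *ᵥ x)) -
      ((fun i => deriv (fun y => (P y *ᵥ x) i) z) - TV V z *ᵥ x) = (TV V z - c • X) *ᵥ x := by
    rw [Matrix.sub_mulVec, Matrix.smul_mulVec]
    abel
  rw [← h6]
  exact h5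

end MP2794d1
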