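import Pool.Agent.Lib.MP_2794d1_ag.H01
import Pool.Agent.Lib.MP_2794d1_ag.H02

/-!
H03: the rational algebra.
-/

namespace MP2794d1

open Matrix Complex Filter Topology

theorem H03_map_mul {n : ℕ} (l : ℂ →ₗ[ℚ] ℚ) (M : Matrix (Fin n) (Fin n) ℂ)
    (B : Matrix (Fin n) (Fin n) ℚ) : (M * cm B).map l = M.map l * B := by
  ext i j
  simp only [Matrix.map_apply, Matrix.mul_apply, cm, map_sum]
  refine Finset.sum_congr rfl (fun k _ => ?_)
  have h : M i k * ((B k j : ℚ) : ℂ) = (B k j) • M i k := by rw [Rat.smul_def, mul_comm]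
  rw [h, map_smul, smul_eq_mul, mul_comm]

theorem H03_mul_map {n : ℕ} (l : ℂ →ₗ[ℚ] ℚ) (M : Matrix (Fin n) (Fin n) ℂ)
    (B : Matrix (Fin n) (Fin n) ℚ) : (cm B * M).map l = B * M.map l := by
  ext i j
  simp only [Matrix.map_apply, Matrix.mul_apply, cm, map_sum]
  refine Finset.sum_congr rfl (fun k _ => ?_)
  have h : ((B i k : ℚ) : ℂ) * M k j = (B i k) • M k j := by rw [Rat.smul_def]
  rw [h, map_smul, smul_eq_mul]

theorem H03_map_smul {n : ℕ} (l : ℂ →ₗ[ℚ] ℚ) (c : ℂ) (B : Matrix (Fin n) (Fin n) ℚ) :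
    (c • cm B).map l = l c • B := by
  ext i j
  simp only [Matrix.map_apply, Matrix.smul_apply, cm, smul_eq_mul]
  have h : c * ((B i j : ℚ) : ℂ) = (B i j) • c := by rw [Rat.smul_def, mul_comm]
  rw [h, map_smul, smul_eq_mul, mul_comm]

theorem H03_map_add {n : ℕ} (l : ℂ →ₗ[ℚ] ℚ) (M M' : Matrix (Fin n) (Fin n) ℂ) :
    (M + M').map l = M.map l + M'.map l := by
  ext i j
  simp

theorem H03_cm_mul {n : ℕ} (X Y : Matrix (Fin n) (Fin n) ℚ) : cm (X * Y) = cm X * cm Y := by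
  ext i j
  simp [cm, Matrix.mul_apply]

theorem H03_cm_inj {n : ℕ} {X Y : Matrix (Fin n) (Fin n) ℚ} (h : cm X = cm Y) : X = Y := by
  ext i j
  have h1 := congrFun (congrFun h i) j
  simp only [cm, Matrix.map_apply] at h1
  exact_mod_cast h1

theorem H03_im {n : ℕ} (A : Matrix (Fin n) (Fin n) ℤ) :
    im A = cm (A.map (fun q : ℤ => (q : ℚ))) := by
  ext i j
  simp [cm, im]

/-- the three-dimensional space -/
noncomputable def H03_S {n : ℕ} (N N' : Matrix (Fin n) (Fin n) ℚ) :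
    Submodule ℚ (Matrix (Fin n) (Fin n) ℚ) :=
  Submodule.span ℚ {N, N', N * N' - N' * N}

theorem H03_hmat_map {n : ℕ} (N N' L : Matrix (Fin n) (Fin n) ℚ) (q : ℚ) (w : ℂ)
    (l : ℂ →ₗ[ℚ] ℚ) : ∃ a b c : ℚ,
      (hmat (cm N) (cm N') (cm L) q w).map l = a • N + b • N' + c • L := by
  refine ⟨l ((Complex.I / ((2 * (q : ℝ) * w.im : ℝ) : ℂ)) * (((q : ℝ) * Complex.normSq w : ℝ) : ℂ)),
    l (Complex.I / ((2 * (q : ℝ) * w.im : ℝ) : ℂ)),
    l ((Complex.I / ((2 * (q : ℝ) * w.im : ℝ) : ℂ)) * ((w.re : ℝ) : ℂ)), ?_⟩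
  rw [hmat, Kmat, smul_add, smul_add, smul_smul, smul_smul, H03_map_add, H03_map_add,
    H03_map_smul, H03_map_smul, H03_map_smul]
  abel

theorem H03_hmat_mem {n : ℕ} (N N' L : Matrix (Fin n) (Fin n) ℚ) (q : ℚ) (w : ℂ)
    (m : Submodule ℂ (Matrix (Fin n) (Fin n) ℂ)) (h1 : cm N ∈ m) (h2 : cm N' ∈ m)
    (h3 : cm L ∈ m) : hmat (cm N) (cm N') (cm L) q w ∈ m := by
  rw [hmat, Kmat]
  exact m.smul_mem _ (m.add_mem (m.add_mem h2 (m.smul_mem _ h3)) (m.smul_mem _ h1))

section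

variable {n : ℕ} (N N' : Matrix (Fin n) (Fin n) ℚ)

theorem H03_mem_S {X : Matrix (Fin n) (Fin n) ℚ} : X ∈ H03_S N N' ↔
    ∃ a b c : ℚ, a • N + b • N' + c • (N * N' - N' * N) = X := by
  rw [H03_S, Submodule.mem_span_triple]

/-- elements of `S` commute with everything that commutes with `N` and `N'` -/
theorem H03_S_comm {X Z : Matrix (Fin n) (Fin n) ℚ} (hX : X ∈ H03_S N N')
    (h1 : Z * N = N * Z) (h2 : Z * N' = N' * Z) : X * Z = Z * X := by
  obtain ⟨a, b, c, rfl⟩ := (H03_mem_S N N').1 hX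
  have h3 : Z * (N * N' - N' * N) = (N * N' - N' * N) * Z := by
    rw [mul_sub, sub_mul, ← mul_assoc, ← mul_assoc, h1, h2, mul_assoc, mul_assoc, h1, h2,
      mul_assoc, mul_assoc]
  rw [add_mul, add_mul, mul_add, mul_add, smul_mul_assoc, smul_mul_assoc, smul_mul_assoc,
    mul_smul_comm, mul_smul_comm, mul_smul_comm, h1, h2, h3]

theorem H03_S_zero (q : ℚ) (hq : q ≠ 0)
    (rel1 : N * (N * N' - N' * N) - (N * N' - N' * N) * N = (2 * q) • N)
    (rel2 : N' * (N * N' - N' * N) - (N * N' - N' * N) * N' = (-(2 * q)) • N')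
    {X : Matrix (Fin n) (Fin n) ℚ} (hX : X ∈ H03_S N N')
    (h1 : N * X - X * N = 0) (h2 : N' * X - X * N' = 0) : X = 0 := by
  obtain ⟨a, b, c, rfl⟩ := (H03_mem_S N N').1 hX
  have hq2 : 2 * q ≠ 0 := mul_ne_zero two_ne_zero hq
  obtain ⟨L, hL⟩ : ∃ L, L = N * N' - N' * N := ⟨_, rfl⟩
  rw [← hL] at rel1 rel2 h1 h2 ⊢
  by_cases hN : N = 0
  · have hL0 : L = 0 := by rw [hL, hN]; simp
    have hN' : N' = 0 := by
      rw [hL0, mul_zero, zero_mul, sub_zero] at rel2
      exact (smul_eq_zero.1 rel2.symm).resolve_left (neg_ne_zero.2 hq2)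
    rw [hN, hN', hL0]; simp
  · have e1 : b • L + (2 * q * c) • N = 0 := by
      have h3 : N * (a • N + b • N' + c • L) - (a • N + b • N' + c • L) * N =
          b • (N * N' - N' * N) + c • (N * L - L * N) := by
        simp only [mul_add, add_mul, smul_mul_assoc, mul_smul_comm, smul_sub]
        abel
      rw [h3, ← hL, rel1, smul_smul, mul_comm c] at h1
      exact h1
    have e2 : b • (N * L - L * N) = 0 := by
      have h3 : N * (b • L + (2 * q * c) • N) - (b • L + (2 * q * c) • N) * N =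
          b • (N * L - L * N) := by
        simp only [mul_add, add_mul, smul_mul_assoc, mul_smul_comm, smul_sub]
        abel
      rw [← h3, e1]; simp
    have hb : b = 0 := by
      rw [rel1, smul_smul] at e2
      rcases mul_eq_zero.1 ((smul_eq_zero.1 e2).resolve_right hN) with h | h
      · exact h
      · exact absurd h hq2
    have hc : c = 0 := by
      rw [hb, zero_smul, zero_add] at e1
      rcases mul_eq_zero.1 ((smul_eq_zero.1 e1).resolve_right hN) with h | h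
      · exact absurd h hq2
      · exact h
    have ha : a = 0 := by
      rw [hb, hc, zero_smul, zero_smul, add_zero, add_zero] at h2
      have h3 : a • L = 0 := by
        have h4 : a • L = -(N' * (a • N) - a • N * N') := by
          rw [hL, smul_mul_assoc, mul_smul_comm, ← smul_sub, ← smul_neg]
          congr 1
          abel
        rw [h4, h2, neg_zero]
      refine (smul_eq_zero.1 h3).resolve_right (fun hL0 => hN ?_)
      rw [hL0, mul_zero, zero_mul, sub_zero] at rel1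
      exact (smul_eq_zero.1 rel1.symm).resolve_left hq2
    rw [ha, hb, hc]; simp

theorem H03_S_closed (q : ℚ)
    (rel1 : N * (N * N' - N' * N) - (N * N' - N' * N) * N = (2 * q) • N)
    (rel2 : N' * (N * N' - N' * N) - (N * N' - N' * N) * N' = (-(2 * q)) • N')
    {X Y : Matrix (Fin n) (Fin n) ℚ} (hX : X ∈ H03_S N N') (hY : Y ∈ H03_S N N') :
    X * Y - Y * X ∈ H03_S N N' := by
  obtain ⟨a, b, c, rfl⟩ := (H03_mem_S N N').1 hX
  obtain ⟨a', b', c', rfl⟩ := (H03_mem_S N N').1 hY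
  rw [H03_mem_S]
  refine ⟨2 * q * (a * c' - a' * c), -(2 * q) * (b * c' - b' * c), a * b' - a' * b, ?_⟩
  obtain ⟨L, hL⟩ : ∃ L, L = N * N' - N' * N := ⟨_, rfl⟩
  rw [← hL] at rel1 rel2 ⊢
  have h3 : (a • N + b • N' + c • L) * (a' • N + b' • N' + c' • L) -
      (a' • N + b' • N' + c' • L) * (a • N + b • N' + c • L) =
      (a * b' - a' * b) • (N * N' - N' * N) + (a * c' - a' * c) • (N * L - L * N) +
      (b * c' - b' * c) • (N' * L - L * N') := by
    simp only [mul_add, add_mul, smul_mul_assoc, mul_smul_comm]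
    module
  rw [h3, ← hL, rel1, rel2, smul_smul, smul_smul]
  rw [show 2 * q * (a * c' - a' * c) = (a * c' - a' * c) * (2 * q) by ring,
    show -(2 * q) * (b * c' - b' * c) = (b * c' - b' * c) * -(2 * q) by ring]
  abel

/-- the space `Z0` -/
def H03_Z (A : Matrix (Fin n) (Fin n) ℚ) : Submodule ℚ (Matrix (Fin n) (Fin n) ℚ) where
  carrier := {Z | Z * N = N * Z ∧ Z * N' = N' * Z ∧ ∃ s ∈ H03_S N N', (s + Z) * A = A * (s + Z)}
  add_mem' := by
    rintro X Y ⟨h1, h2, s, hs, h3⟩ ⟨h1', h2', s', hs', h3'⟩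
    refine ⟨by rw [add_mul, mul_add, h1, h1'], by rw [add_mul, mul_add, h2, h2'], s + s',
      (H03_S N N').add_mem hs hs', ?_⟩
    have e : s + s' + (X + Y) = (s + X) + (s' + Y) := by abel
    rw [e, add_mul, mul_add, h3, h3']
  zero_mem' := ⟨by simp, by simp, 0, (H03_S N N').zero_mem, by simp⟩
  smul_mem' := by
    rintro r X ⟨h1, h2, s, hs, h3⟩
    refine ⟨by rw [smul_mul_assoc, mul_smul_comm, h1], by rw [smul_mul_assoc, mul_smul_comm, h2],
      r • s, (H03_S N N').smul_mem r hs, ?_⟩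
    rw [← smul_add, smul_mul_assoc, mul_smul_comm, h3]

end

theorem rational_algebra {n : ℕ} (N N' : Matrix (Fin n) (Fin n) ℚ) (q : ℚ) (hq : q ≠ 0)
    (rel1 : N * (N * N' - N' * N) - (N * N' - N' * N) * N = (2 * q) • N)
    (rel2 : N' * (N * N' - N' * N) - (N * N' - N' * N) * N' = (-(2 * q)) • N')
    (t : Matrix (Fin n) (Fin n) ℂ) (ht : t * cm N = cm N * t) (ht' : t * cm N' = cm N' * t)
    (A : Matrix (Fin n) (Fin n) ℤ) (hA : (im A).charpoly.Separable) (w0 : ℂ)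
    (hcomm : (hmat (cm N) (cm N') (cm (N * N' - N' * N)) q w0 + t) * im A =
      im A * (hmat (cm N) (cm N') (cm (N * N' - N' * N)) q w0 + t)) :
    ∃ m : Submodule ℚ (Matrix (Fin n) (Fin n) ℚ), IsLie m ∧
      (∀ w : ℂ, hmat (cm N) (cm N') (cm (N * N' - N' * N)) q w + t ∈
        cx (m : Set (Matrix (Fin n) (Fin n) ℚ))) ∧
      ∀ X ∈ m, ∃ (a b c : ℚ) (Z : Matrix (Fin n) (Fin n) ℚ),
        X = a • N + b • N' + c • (N * N' - N' * N) + Z ∧ Z * N = N * Z ∧ Z * N' = N' * Z ∧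
        t * cm Z = cm Z * t := by
  set Aq : Matrix (Fin n) (Fin n) ℚ := A.map (fun q : ℤ => (q : ℚ)) with hAq
  rw [H03_im] at hA hcomm
  rw [← hAq] at hA hcomm
  have hZZ : ∀ X ∈ H03_Z N N' Aq, ∀ Y ∈ H03_Z N N' Aq, X * Y = Y * X := by
    rintro X ⟨h1, h2, s, hs, h3⟩ Y ⟨h1', h2', s', hs', h3'⟩
    have h4 : (s + X) * (s' + Y) = (s' + Y) * (s + X) := by
      apply H03_cm_inj
      rw [H03_cm_mul, H03_cm_mul]
      exact commutant_comm (cm Aq) _ _ hA (by rw [← H03_cm_mul, ← H03_cm_mul, h3])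
        (by rw [← H03_cm_mul, ← H03_cm_mul, h3'])
    have e1 : s * Y = Y * s := H03_S_comm N N' hs h1' h2'
    have e2 : s' * X = X * s' := H03_S_comm N N' hs' h1 h2
    have h5 : s * s' - s' * s = Y * X - X * Y := by
      have h6 : (s + X) * (s' + Y) - (s' + Y) * (s + X) = (s * s' - s' * s) + (s * Y - Y * s) -
        (s' * X - X * s') + (X * Y - Y * X) := by noncomm_ring
      rw [h4, sub_self, e1, e2, sub_self, sub_self, add_zero, sub_zero] at h6
      have h7 : s * s' - s' * s = -(X * Y - Y * X) := eq_neg_of_add_eq_zero_left h6.symm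
      rw [h7]; abel
    have h8 : s * s' - s' * s = 0 := by
      refine H03_S_zero N N' q hq rel1 rel2 (H03_S_closed N N' q rel1 rel2 hs hs') ?_ ?_
      · rw [h5]
        have a1 : N * (Y * X) = Y * X * N := by
          rw [← mul_assoc, ← h1', mul_assoc, ← h1, mul_assoc]
        have a2 : N * (X * Y) = X * Y * N := by
          rw [← mul_assoc, ← h1, mul_assoc, ← h1', mul_assoc]
        rw [mul_sub, sub_mul, a1, a2, sub_self]
      · rw [h5]
        have a1 : N' * (Y * X) = Y * X * N' := by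
          rw [← mul_assoc, ← h2', mul_assoc, ← h2, mul_assoc]
        have a2 : N' * (X * Y) = X * Y * N' := by
          rw [← mul_assoc, ← h2, mul_assoc, ← h2', mul_assoc]
        rw [mul_sub, sub_mul, a1, a2, sub_self]
    rw [h8] at h5
    exact (sub_eq_zero.1 h5.symm).symm
  have htZ : t ∈ cx (H03_Z N N' Aq : Set (Matrix (Fin n) (Fin n) ℚ)) := by
    rw [mem_cx_iff]
    intro l
    refine ⟨?_, ?_, ?_⟩
    · rw [← H03_map_mul, ht, H03_mul_map]
    · rw [← H03_map_mul, ht', H03_mul_map]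
    · obtain ⟨a, b, c, habc⟩ := H03_hmat_map N N' (N * N' - N' * N) q w0 l
      refine ⟨_, (H03_mem_S N N').2 ⟨a, b, c, rfl⟩, ?_⟩
      rw [← habc, ← H03_map_add, ← H03_map_mul, hcomm, H03_mul_map]
  have hmono : ∀ m₁ m₂ : Submodule ℚ (Matrix (Fin n) (Fin n) ℚ), m₁ ≤ m₂ →
      cx (m₁ : Set (Matrix (Fin n) (Fin n) ℚ)) ≤ cx (m₂ : Set (Matrix (Fin n) (Fin n) ℚ)) :=
    fun m₁ m₂ h => Submodule.span_mono (Set.image_mono h)
  refine ⟨H03_S N N' ⊔ H03_Z N N' Aq, ?_, ?_, ?_⟩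
  · intro X hX Y hY
    obtain ⟨s, hs, Z, hZ, rfl⟩ := Submodule.mem_sup.1 hX
    obtain ⟨s', hs', Z', hZ', rfl⟩ := Submodule.mem_sup.1 hY
    have e1 : s * Z' = Z' * s := H03_S_comm N N' hs hZ'.1 hZ'.2.1
    have e2 : s' * Z = Z * s' := H03_S_comm N N' hs' hZ.1 hZ.2.1
    have e3 := hZZ Z hZ Z' hZ'
    have h6 : (s + Z) * (s' + Z') - (s' + Z') * (s + Z) = (s * s' - s' * s) +
      (s * Z' - Z' * s) - (s' * Z - Z * s') + (Z * Z' - Z' * Z) := by noncomm_ring
    rw [h6, e1, e2, e3, sub_self, sub_self, sub_self, add_zero, add_zero, sub_zero]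
    exact Submodule.mem_sup_left (H03_S_closed N N' q rel1 rel2 hs hs')
  · intro w
    have hS : ∀ X ∈ H03_S N N', cm X ∈
        cx ((H03_S N N' ⊔ H03_Z N N' Aq : Submodule ℚ (Matrix (Fin n) (Fin n) ℚ)) :
          Set (Matrix (Fin n) (Fin n) ℚ)) := fun X hX =>
      Submodule.subset_span ⟨X, Submodule.mem_sup_left hX, rfl⟩
    refine Submodule.add_mem _ (H03_hmat_mem _ _ _ q w _ (hS _ ?_) (hS _ ?_) (hS _ ?_))
      (hmono _ _ le_sup_right htZ)
    · exact Submodule.subset_span (by simp)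
    · exact Submodule.subset_span (by simp)
    · exact Submodule.subset_span (by simp)
  · intro X hX
    obtain ⟨s, hs, Z, hZ, rfl⟩ := Submodule.mem_sup.1 hX
    obtain ⟨a, b, c, rfl⟩ := (H03_mem_S N N').1 hs
    refine ⟨a, b, c, Z, rfl, hZ.1, hZ.2.1, ?_⟩
    refine Submodule.span_induction (p := fun t _ => t * cm Z = cm Z * t) ?_ ?_ ?_ ?_ htZ
    · rintro _ ⟨Z', hZ', rfl⟩
      rw [← H03_cm_mul, ← H03_cm_mul, hZZ Z' hZ' Z hZ]
    · simp
    · intro x y _ _ hx hy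
      rw [add_mul, mul_add, hx, hy]
    · intro r x _ hx
      rw [smul_mul_assoc, mul_smul_comm, hx]

end MP2794d1
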