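import Pool.Agent.Lib.MP_2794d1_ag.W00
import Pool.Agent.Lib.MP_2794d1_ag.H02

/-!
U02: A matrix commuting with a matrix A with separable characteristic polynomial is a polynomial in A of degree < n. A has n
distinct eigenvalues λ i (roots of the separable charpoly), independent eigenvectors v i; X v i is an eigenvector of A for λ i,
so X v i = x i v i; Lagrange interpolation gives f of degree < n with f (λ i) = x i, so X = f(A) (they agree on the basis).
See the proof of commutant_comm in H02.
-/

namespace MP2794d1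

open Matrix Complex Filter Topology
open scoped ContDiff

theorem U02_eigs {n : ℕ} (A : Matrix (Fin n) (Fin n) ℂ) (hA : A.charpoly.Separable) :
    ∃ (e : Fin n → ℂ) (b : Fin n → (Fin n → ℂ)), Function.Injective e ∧
      (∀ j, b j ≠ 0) ∧ ∀ j, A *ᵥ b j = e j • b j := by
  have hnd : A.charpoly.roots.Nodup := Polynomial.nodup_roots hA
  have hcard : A.charpoly.roots.card = n := by
    have h1 := (Polynomial.splits_iff_card_roots).mp (IsAlgClosed.splits A.charpoly)
    rw [h1, Matrix.charpoly_natDegree_eq_dim, Fintype.card_fin]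
  have hlen : A.charpoly.roots.toList.length = n := by
    rw [Multiset.length_toList]
    exact hcard
  have hndl : A.charpoly.roots.toList.Nodup := by
    rw [← Multiset.coe_nodup, Multiset.coe_toList]
    exact hnd
  let e : Fin n → ℂ := fun j => A.charpoly.roots.toList.get (Fin.cast hlen.symm j)
  have he : Function.Injective e := by
    intro i j hij
    have := (List.nodup_iff_injective_get.mp hndl) hij
    exact Fin.cast_injective _ this
  have hroot : ∀ j, ∃ v : Fin n → ℂ, v ≠ 0 ∧ A *ᵥ v = e j • v := by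
    intro j
    have hmem : e j ∈ A.charpoly.roots := by
      rw [← Multiset.mem_toList]
      exact List.get_mem _ _
    have hr : A.charpoly.eval (e j) = 0 := (Polynomial.mem_roots'.mp hmem).2
    rw [Matrix.eval_charpoly] at hr
    obtain ⟨v, hv, hv0⟩ := Matrix.exists_mulVec_eq_zero_iff.mpr hr
    refine ⟨v, hv, ?_⟩
    rw [Matrix.sub_mulVec] at hv0
    have h2 := sub_eq_zero.mp hv0
    rw [← h2]
    simp [Matrix.scalar_apply]
  choose b hb0 hb using hroot
  exact ⟨e, b, he, hb0, hb⟩

theorem U02_diag {n : ℕ} (A X : Matrix (Fin n) (Fin n) ℂ) (e : Fin n → ℂ)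
    (b : Module.Basis (Fin n) ℂ (Fin n → ℂ)) (he : Function.Injective e)
    (hb : ∀ j, A *ᵥ b j = e j • b j) (hX : X * A = A * X) (j : Fin n) :
    ∃ c : ℂ, X *ᵥ b j = c • b j := by
  have h1 : A *ᵥ (X *ᵥ b j) = e j • (X *ᵥ b j) := by
    rw [Matrix.mulVec_mulVec, ← hX, ← Matrix.mulVec_mulVec, hb, Matrix.mulVec_smul]
  have hrep : ∑ k, b.repr (X *ᵥ b j) k • b k = X *ᵥ b j := b.sum_repr _
  have h2 : ∑ k, ((b.repr (X *ᵥ b j) k) * (e k - e j)) • b k = 0 := by
    have h3 : A *ᵥ (X *ᵥ b j) = ∑ k, (b.repr (X *ᵥ b j) k * e k) • b k := by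
      conv_lhs => rw [← hrep]
      rw [Matrix.mulVec_sum]
      refine Finset.sum_congr rfl fun k _ => ?_
      rw [Matrix.mulVec_smul, hb, smul_smul]
    have h4 : e j • (X *ᵥ b j) = ∑ k, (b.repr (X *ᵥ b j) k * e j) • b k := by
      conv_lhs => rw [← hrep]
      rw [Finset.smul_sum]
      refine Finset.sum_congr rfl fun k _ => ?_
      rw [smul_smul, mul_comm]
    have h5 : ∑ k, ((b.repr (X *ᵥ b j) k) * (e k - e j)) • b k =
        (∑ k, (b.repr (X *ᵥ b j) k * e k) • b k) - ∑ k, (b.repr (X *ᵥ b j) k * e j) • b k := by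
      rw [← Finset.sum_sub_distrib]
      refine Finset.sum_congr rfl fun k _ => ?_
      rw [← sub_smul, mul_sub]
    rw [h5, ← h3, ← h4, h1, sub_self]
  have h6 := Fintype.linearIndependent_iff.mp b.linearIndependent _ h2
  refine ⟨b.repr (X *ᵥ b j) j, ?_⟩
  conv_lhs => rw [← hrep]
  rw [Finset.sum_eq_single j]
  · intro k _ hk
    have h7 := h6 k
    rcases mul_eq_zero.mp h7 with h8 | h8
    · rw [h8, zero_smul]
    · exact absurd (he (sub_eq_zero.mp h8)) hk
  · intro h
    exact absurd (Finset.mem_univ j) h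

theorem commutant_poly {n : ℕ} (A X : Matrix (Fin n) (Fin n) ℂ) (hA : A.charpoly.Separable)
    (hX : X * A = A * X) : ∃ f : ℕ → ℂ, X = ∑ k ∈ Finset.range n, f k • A ^ k := by
  classical
  obtain ⟨e, b, he, hb0, hb⟩ := U02_eigs A hA
  have hli : LinearIndependent ℂ b := by
    apply Module.End.eigenvectors_linearIndependent' A.mulVecLin e he b
    intro j
    refine ⟨?_, hb0 j⟩
    rw [Module.End.mem_eigenspace_iff]
    simpa using hb j
  have hcard : Fintype.card (Fin n) = Module.finrank ℂ (Fin n → ℂ) := by simp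
  rcases Nat.eq_zero_or_pos n with hn | hn
  · subst hn
    exact ⟨fun _ => 0, by ext i; exact i.elim0⟩
  have : Nonempty (Fin n) := ⟨⟨0, hn⟩⟩
  let B : Module.Basis (Fin n) ℂ (Fin n → ℂ) := basisOfLinearIndependentOfCardEqFinrank hli hcard
  have hB : ∀ j, B j = b j := fun j => by
    simp [B]
  have hAB : ∀ j, A *ᵥ B j = e j • B j := fun j => by
    rw [hB]
    exact hb j
  choose x hx using fun j => U02_diag A X e B he hAB hX j
  let P : Polynomial ℂ := Lagrange.interpolate Finset.univ e x
  have hPe : ∀ j, P.eval (e j) = x j := fun j =>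
    Lagrange.eval_interpolate_at_node x (fun a _ c _ h => he h) (Finset.mem_univ j)
  have hPd : P.degree < n := by
    have h := Lagrange.degree_interpolate_lt (s := Finset.univ) (v := e) x
      (fun a _ c _ h => he h)
    rwa [Finset.card_univ, Fintype.card_fin] at h
  have hpow : ∀ (k : ℕ) (j : Fin n), (A ^ k) *ᵥ B j = e j ^ k • B j := by
    intro k j
    induction k with
    | zero => rw [pow_zero, pow_zero, Matrix.one_mulVec, one_smul]
    | succ k ih =>
      rw [pow_succ, ← Matrix.mulVec_mulVec, hAB, Matrix.mulVec_smul, ih, smul_smul, pow_succ,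
        mul_comm]
  refine ⟨fun k => P.coeff k, ?_⟩
  have key : X.mulVecLin = (∑ k ∈ Finset.range n, P.coeff k • A ^ k).mulVecLin := by
    apply B.ext
    intro j
    simp only [Matrix.mulVecLin_apply]
    rw [hx, Matrix.sum_mulVec]
    have h1 : ∀ k ∈ Finset.range n, (P.coeff k • A ^ k) *ᵥ B j =
        (P.coeff k * e j ^ k) • B j := by
      intro k _
      rw [Matrix.smul_mulVec, hpow, smul_smul]
    rw [Finset.sum_congr rfl h1, ← Finset.sum_smul]
    congr 1
    rw [← hPe j, Polynomial.eval_eq_sum_range' (n := n)]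
    rcases eq_or_ne P 0 with h0 | h0
    · rw [h0, Polynomial.natDegree_zero]
      exact hn
    · exact (Polynomial.natDegree_lt_iff_degree_lt h0).2 hPd
  exact Matrix.toLin'.injective (by simpa [Matrix.toLin'_apply'] using key)

end MP2794d1
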