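import Pool.Agent.Lib.MP_2794d1_ag.E03

/-!
E04: gr_unique from gr_eq. gr_conj: wt • 1 - mconj μ is also a grading: for x ∈ H^p, star x ∈ H^{wt-p}, so
μ (star x) = (wt - p) star x, conj: (mconj μ) x = (wt - p) x; then uniqueness.
-/

namespace MP2794d1

open Matrix Complex Filter Topology

theorem gr_unique {n : ℕ} {wt : ℤ} {Q : Matrix (Fin n) (Fin n) ℤ}
    {Fl : ℤ → Submodule ℂ (Fin n → ℂ)} (h : IsPHS wt Q Fl) {μ μ' : Matrix (Fin n) (Fin n) ℂ}
    (hμ : IsGr wt Fl μ) (hμ' : IsGr wt Fl μ') : μ = μ' := by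
  obtain ⟨S, d, hS⟩ := exists_adapted h
  rw [gr_eq hS μ hμ, gr_eq hS μ' hμ']

theorem gr_conj {n : ℕ} {wt : ℤ} {Q : Matrix (Fin n) (Fin n) ℤ}
    {Fl : ℤ → Submodule ℂ (Fin n → ℂ)} (h : IsPHS wt Q Fl) {μ : Matrix (Fin n) (Fin n) ℂ}
    (hμ : IsGr wt Fl μ) : mconj μ = (wt : ℂ) • (1 : Matrix (Fin n) (Fin n) ℂ) - μ := by
  have h1 : IsGr wt Fl ((wt : ℂ) • (1 : Matrix (Fin n) (Fin n) ℂ) - mconj μ) := by
    intro p x hx
    obtain ⟨hx1, hx2⟩ := hx
    have hs : star x ∈ Fl (wt - p) ⊓ conjSub (Fl (wt - (wt - p))) := by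
      refine Submodule.mem_inf.mpr ⟨hx2, ?_⟩
      show star (star x) ∈ Fl (wt - (wt - p))
      rw [star_star]
      have : wt - (wt - p) = p := by ring
      rw [this]; exact hx1
    have h2 := congrArg star (hμ _ _ hs)
    rw [E03_star, star_star, star_smul, star_star] at h2
    rw [Matrix.sub_mulVec, Matrix.smul_mulVec, Matrix.one_mulVec, h2]
    ext i
    simp
    ring
  have e := gr_unique h hμ h1
  rw [eq_sub_iff_add_eq] at e ⊢
  rw [add_comm]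
  exact e

end MP2794d1
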