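import Pool.Agent.Lib.MP_2794d1_ag.F01
import Pool.Agent.Lib.MP_2794d1_ag.F02

/-!
F03: F02 applied to C z := ∀ x ∈ V.F p z, X z *ᵥ x ∈ V.F q z with, near z0, projectors P_p, P_q from V.hol and F01,
κ = Fin n × Fin n, f (i,j) z = ((1 - P_q z) * X z * P_p z) i j.
-/

namespace MP2794d1

open Matrix Complex Filter Topology

theorem F03_analytic_mul {n : ℕ} {A B : ℂ → Matrix (Fin n) (Fin n) ℂ} {z₀ : ℂ}
    (hA : ∀ i j, AnalyticAt ℂ (fun z => A z i j) z₀)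
    (hB : ∀ i j, AnalyticAt ℂ (fun z => B z i j) z₀) (i j : Fin n) :
    AnalyticAt ℂ (fun z => (A z * B z) i j) z₀ := by
  have h1 : (fun z => (A z * B z) i j) = fun z => ∑ k, A z i k * B z k j := by
    funext z; rw [Matrix.mul_apply]
  rw [h1]
  exact Finset.analyticAt_fun_sum _ (fun k _ => (hA i k).mul (hB k j))

theorem cont_map {n : ℕ} (V : PolVHS n) (X : ℂ → Matrix (Fin n) (Fin n) ℂ)
    (hX : ∀ i j, ∀ z : ℂ, 0 < z.im → AnalyticAt ℂ (fun z => X z i j) z) (p q : ℤ)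
    (U : Set ℂ) (hU : IsOpen U) (hne : U.Nonempty) (hUH : ∀ z ∈ U, 0 < z.im)
    (h : ∀ z ∈ U, ∀ x ∈ V.F p z, X z *ᵥ x ∈ V.F q z) :
    ∀ z : ℂ, 0 < z.im → ∀ x ∈ V.F p z, X z *ᵥ x ∈ V.F q z := by
  refine continuation (fun z => ∀ x ∈ V.F p z, X z *ᵥ x ∈ V.F q z) ?_ U hU hne hUH h
  intro z₀ hz₀
  obtain ⟨P, hP1, hP2⟩ := (V.hol p z₀ hz₀).proj
  obtain ⟨Q, hQ1, hQ2⟩ := (V.hol q z₀ hz₀).proj
  refine ⟨Fin n × Fin n, inferInstance, fun k z => ((1 - Q z) * X z * P z) k.1 k.2, ?_, ?_⟩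
  · intro k
    apply F03_analytic_mul _ hP1
    intro i j
    apply F03_analytic_mul _ (fun i j => hX i j z₀ hz₀)
    intro i j
    have h1 : (fun z => (1 - Q z) i j) = fun z => (1 : Matrix (Fin n) (Fin n) ℂ) i j - Q z i j := by
      funext z; rw [Matrix.sub_apply]
    rw [h1]
    exact analyticAt_const.sub (hQ1 i j)
  · filter_upwards [hP2, hQ2] with z hz hz'
    rw [hz.2, hz'.2]
    rw [proj_map_iff hz.1 hz'.1]
    constructor
    · intro h k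
      rw [h]; rfl
    · intro h
      ext i j
      exact h (i, j)

end MP2794d1
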