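import Pool.Agent.Lib.MP_2794d1_ag.S03
import Pool.Agent.Lib.MP_2794d1_ag.F03

/-!
S04: at y1 with deriv u y1 ≠ 0 (h.ne): for x ∈ F0 p, s y = uexp N (u y) *ᵥ x is an analytic section of F p near y1, with
derivative u'(y1) • (N *ᵥ s y1) (uexp_deriv), so by griffiths N *ᵥ s y1 ∈ F (p-1) y1; i.e. N ∈ FEnd_{y1} (-1). By
FEnd_map_iff N ∈ FEnd F0 (-1) (N commutes with uexp N), hence N ∈ FEnd_y (-1) for all y in the strip; then cont_map
(X constant, q = p + (-1)) for every p.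
-/

namespace MP2794d1

open Matrix Complex Filter Topology

theorem S04_uexp {n : ℕ} (N : Matrix (Fin n) (Fin n) ℂ) (hN : N ^ n = 0) {v : ℂ → ℂ} {v' z₀ : ℂ}
    (hv : HasDerivAt v v' z₀) (x : Fin n → ℂ) (i : Fin n) :
    HasDerivAt (fun y => (uexp N (v y) *ᵥ x) i)
      (v' * (N *ᵥ (uexp N (v z₀) *ᵥ x)) i) z₀ := by
  have h1 : ∀ j, HasDerivAt (fun y => uexp N (v y) i j) ((N * uexp N (v z₀)) i j * v') z₀ := by
    intro j
    exact (uexp_deriv N hN (v z₀) i j).comp z₀ hv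
  have h2 : HasDerivAt (fun y => ∑ j, uexp N (v y) i j * x j)
      (∑ j, (N * uexp N (v z₀)) i j * v' * x j) z₀ := by
    apply HasDerivAt.fun_sum
    intro j _
    exact (h1 j).mul_const (x j)
  have e : v' * (N *ᵥ (uexp N (v z₀) *ᵥ x)) i =
      ∑ j, (N * uexp N (v z₀)) i j * v' * x j := by
    rw [Matrix.mulVec_mulVec]
    simp only [Matrix.mulVec, dotProduct]
    rw [Finset.mul_sum]
    apply Finset.sum_congr rfl
    intro j _
    ring
  rw [e]
  exact h2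

theorem N_trans {n : ℕ} (V : PolVHS n) (c : Cusp V) {a : ℝ} {u : ℂ → ℂ}
    {F0 : ℤ → Submodule ℂ (Fin n → ℂ)} (h : StageOne V c a u F0) (z : ℂ) (hz : 0 < z.im) :
    cm c.N ∈ FEnd (fun p => V.F p z) (-1) := by
  have hnil : (cm c.N) ^ n = 0 := cm_pow c.N c.nil
  set U : Set ℂ := {y : ℂ | |y.re| < 1 ∧ a < y.im} with hU
  have hUo : IsOpen U :=
    (isOpen_lt (Complex.continuous_re.abs) continuous_const).inter
      (isOpen_lt continuous_const Complex.continuous_im)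
  obtain ⟨y₁, hy1, hy2, hne⟩ := h.ne
  have hy₁U : y₁ ∈ U := ⟨hy1, hy2⟩
  have hUH : ∀ y ∈ U, 0 < y.im := fun y hy => lt_of_le_of_lt h.ha hy.2
  have hat : cm c.N ∈ FEnd (fun p => V.F p y₁) (-1) := by
    intro p x' hx'
    have hx'' : x' ∈ (F0 p).map (uexp (cm c.N) (u y₁)).mulVecLin := by
      rw [← h.eq y₁ hy1 hy2 p]
      exact hx'
    obtain ⟨x, hx, rfl⟩ := hx''
    rw [Matrix.mulVecLin_apply]
    have hd : ∀ y ∈ U, HasDerivAt u (deriv u y) y := fun y hy =>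
      (h.an y hy.1 hy.2).differentiableAt.hasDerivAt
    have hd2 : ∀ i, ∀ y ∈ U, HasDerivAt (fun y => (uexp (cm c.N) (u y) *ᵥ x) i)
      (deriv u y * (cm c.N *ᵥ (uexp (cm c.N) (u y) *ᵥ x)) i) y := fun i y hy =>
      S04_uexp (cm c.N) hnil (hd y hy) x i
    have han : ∀ i, AnalyticAt ℂ (fun y => (uexp (cm c.N) (u y) *ᵥ x) i) y₁ := by
      intro i
      have hdo : DifferentiableOn ℂ (fun y => (uexp (cm c.N) (u y) *ᵥ x) i) U := fun y hy =>
        (hd2 i y hy).differentiableAt.differentiableWithinAt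
      exact hdo.analyticAt (hUo.mem_nhds hy₁U)
    have hev : ∀ᶠ y in 𝓝 y₁, uexp (cm c.N) (u y) *ᵥ x ∈ V.F p y := by
      filter_upwards [hUo.mem_nhds hy₁U] with y hy
      rw [h.eq y hy.1 hy.2 p]
      exact ⟨x, hx, rfl⟩
    have hg := V.griffiths p y₁ (hUH y₁ hy₁U) (fun y => uexp (cm c.N) (u y) *ᵥ x) han hev
    have e : (fun i => deriv (fun y => (uexp (cm c.N) (u y) *ᵥ x) i) y₁) =
        deriv u y₁ • (cm c.N *ᵥ (uexp (cm c.N) (u y₁) *ᵥ x)) := by
      funext i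
      rw [(hd2 i y₁ hy₁U).deriv]
      rfl
    rw [e] at hg
    have h1 := (V.F (p - 1) y₁).smul_mem (deriv u y₁)⁻¹ hg
    rw [smul_smul, inv_mul_cancel₀ hne, one_smul] at h1
    exact h1
  have h0 : cm c.N ∈ FEnd F0 (-1) := by
    have h1 := (FEnd_map_iff (cm c.N) hnil (u y₁) F0 (fun p => V.F p y₁)
      (fun p => h.eq y₁ hy1 hy2 p) (cm c.N) (-1)).1 hat
    rwa [S03_conj] at h1
  intro p
  refine cont_map V (fun _ => cm c.N) (fun i j z _ => analyticAt_const) p (p + -1) U hUo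
    ⟨y₁, hy₁U⟩ hUH ?_ z hz
  intro y hy
  exact (FEnd_map_iff (cm c.N) hnil (u y) F0 (fun p => V.F p y)
      (fun p => h.eq y hy.1 hy.2 p) (cm c.N) (-1)).2 (by rw [S03_conj]; exact h0) p

end MP2794d1
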