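import Pool.Agent.Lib.MP_2794d1_ag.SlDefs

/-!
D02: kernel elements commute with nilpotent elements. D Y := br M Y. Iterates of D on Z: Z_0 = Z, Z_{j+1} = br M Z_j;
all Z_j ∈ U with a Z_j = 0 (jet), real, and Z_j = 0 for j large as M is nilpotent
(LieAlgebra.ad_nilpotent_of_nilpotent, or (left mult - right mult)^j with commuting nilpotents). If Z_{j+1} = 0 and
j ≥ 1 then trace(Z_j Z_j) = trace(br M Z_{j-1} * Z_j) = - trace(Z_{j-1} * br M Z_j) = 0, so Z_j = 0 by neg
((a Z_j).eval u1 = 0). Descend to Z_1 = 0. Second statement: M Z is nilpotent as M, Z commute: trace 0.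
Third: br X Y with Y, X... see statement.
-/

namespace MP2794d1

open Matrix Complex Filter Topology

theorem D02_tr1 {n : ℕ} (X Y W : Matrix (Fin n) (Fin n) ℂ) :
    Matrix.trace (br X Y * W) = - Matrix.trace (Y * br X W) := by
  unfold br
  rw [sub_mul, mul_sub, Matrix.trace_sub, Matrix.trace_sub, Matrix.mul_assoc, Matrix.mul_assoc,
    Matrix.trace_mul_comm X (Y * W), Matrix.mul_assoc]
  ring

theorem D02_tr2 {n : ℕ} (X Y W : Matrix (Fin n) (Fin n) ℂ) :
    Matrix.trace (br X Y * W) = Matrix.trace (X * br Y W) := by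
  unfold br
  rw [sub_mul, mul_sub, Matrix.trace_sub, Matrix.trace_sub, Matrix.mul_assoc, Matrix.mul_assoc,
    Matrix.trace_mul_comm Y (X * W), Matrix.mul_assoc]

theorem D02_nil {n : ℕ} (M : Matrix (Fin n) (Fin n) ℂ) (hnil : IsNilpotent M)
    (Z : Matrix (Fin n) (Fin n) ℂ) : ∃ k : ℕ, (fun Y => br M Y)^[k] Z = 0 := by
  have hl : IsNilpotent (LinearMap.mulLeft ℂ M) := by
    rwa [LinearMap.isNilpotent_mulLeft_iff]
  have hr : IsNilpotent (LinearMap.mulRight ℂ M) := by
    rwa [LinearMap.isNilpotent_mulRight_iff]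
  obtain ⟨k, hk⟩ := (LinearMap.commute_mulLeft_right M M).isNilpotent_sub hl hr
  refine ⟨k, ?_⟩
  have h1 : ∀ j : ℕ, (fun Y => br M Y)^[j] Z =
      ((LinearMap.mulLeft ℂ M - LinearMap.mulRight ℂ M) ^ j) Z := by
    intro j
    induction j with
    | zero => simp
    | succ j ih =>
      rw [Function.iterate_succ_apply', ih, pow_succ']
      rfl
  rw [h1, hk]
  rfl

theorem D02_zero_of_trace {n : ℕ} {U : Submodule ℝ (Matrix (Fin n) (Fin n) ℂ)}
    {a : Matrix (Fin n) (Fin n) ℂ →ₗ[ℝ] Polynomial ℂ} {u1 : ℂ} (hS : SlData U a u1)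
    (X : Matrix (Fin n) (Fin n) ℂ) (hX : X ∈ U) (ha : (a X).eval u1 = 0)
    (ht : 0 ≤ (Matrix.trace (X * X)).re) : X = 0 := by
  by_contra hne
  exact absurd (hS.neg X hX ha hne) (not_lt.mpr ht)

theorem comm_kernel {n : ℕ} {U : Submodule ℝ (Matrix (Fin n) (Fin n) ℂ)}
    {a : Matrix (Fin n) (Fin n) ℂ →ₗ[ℝ] Polynomial ℂ} {u1 : ℂ} (hS : SlData U a u1)
    (M : Matrix (Fin n) (Fin n) ℂ) (hM : M ∈ U) (hnil : IsNilpotent M)
    (Z : Matrix (Fin n) (Fin n) ℂ) (hZ : Z ∈ U) (haZ : a Z = 0) : br M Z = 0 := by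
  have hit : ∀ j : ℕ, (fun Y => br M Y)^[j] Z ∈ U ∧ a ((fun Y => br M Y)^[j] Z) = 0 := by
    intro j
    induction j with
    | zero => exact ⟨hZ, haZ⟩
    | succ j ih =>
      rw [Function.iterate_succ_apply']
      refine ⟨hS.closed M hM _ ih.1, ?_⟩
      show a (br M ((fun Y => br M Y)^[j] Z)) = 0
      rw [hS.jet M hM _ ih.1, ih.2]
      simp
  have hdesc : ∀ j : ℕ, (fun Y => br M Y)^[j + 1] Z = 0 → br M Z = 0 := by
    intro j
    induction j with
    | zero => intro h; simpa using h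
    | succ j ih =>
      intro h
      apply ih
      have h1 := hit (j + 1)
      apply D02_zero_of_trace hS _ h1.1
      · rw [h1.2]; simp
      · rw [Function.iterate_succ_apply'] at h
        have h2 : (fun Y => br M Y)^[j + 1] Z = br M ((fun Y => br M Y)^[j] Z) := by
          rw [Function.iterate_succ_apply']
        have h3 : Matrix.trace (((fun Y => br M Y)^[j + 1] Z) * ((fun Y => br M Y)^[j + 1] Z))
            = 0 := by
          conv_lhs => rw [h2]
          rw [D02_tr1, ← h2]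
          have h4 : br M ((fun Y => br M Y)^[j + 1] Z) = 0 := h
          rw [h4]
          simp
        rw [h3]
        simp
  obtain ⟨k, hk⟩ := D02_nil M hnil Z
  cases k with
  | zero =>
    have hz : Z = 0 := hk
    rw [hz]
    unfold br
    simp
  | succ k => exact hdesc k hk

theorem trace_nil_mul {n : ℕ} (M Z : Matrix (Fin n) (Fin n) ℂ) (hM : IsNilpotent M)
    (h : br M Z = 0) : Matrix.trace (M * Z) = 0 := by
  have hc : Commute M Z := by
    unfold br at h
    exact sub_eq_zero.mp h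
  have h1 : IsNilpotent (M * Z) := hc.isNilpotent_mul_right hM
  exact (Matrix.isNilpotent_trace_of_isNilpotent h1).eq_zero

end MP2794d1
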