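import Pool.Agent.Lib.MP_2794d1_ag.D01
import Pool.Agent.Lib.MP_2794d1_ag.D02

/-!
D03: the vector field of N' is α (X - r)^2. Put L = br N N'. Iterates of br N': since N' is nilpotent,
(br N')^k N = 0 for large k, and a ((br N')^k N) = D^k 1 with D f = a' f - a f', a = a N' (jet, a N = 1). So D01
applies. If a N' = C c, then a L = a N' ' ... = 0·c - 1·0 = 0 (derivative of C c is 0, derivative of 1 is 0), so
trace(L L) = trace((N N' - N' N) L) = trace(N' (L N - N L)) = - trace (N' * br N L) = 0 because br N L = 0 by D02; then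
L = 0 by neg, a contradiction.
-/

namespace MP2794d1

open Matrix Complex Filter Topology

theorem field_form {n : ℕ} {U : Submodule ℝ (Matrix (Fin n) (Fin n) ℂ)}
    {a : Matrix (Fin n) (Fin n) ℂ →ₗ[ℝ] Polynomial ℂ} {u1 : ℂ} (hS : SlData U a u1)
    (N N' : Matrix (Fin n) (Fin n) ℂ) (hN : N ∈ U) (hN' : N' ∈ U) (nN : IsNilpotent N)
    (nN' : IsNilpotent N') (haN : a N = 1) (hnc : br N N' ≠ 0) :
    ∃ α r : ℂ, α ≠ 0 ∧ a N' = Polynomial.C α * (Polynomial.X - Polynomial.C r) ^ 2 := by
  obtain ⟨k, hk⟩ := D02_nil N' nN' N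
  have hit : ∀ j : ℕ, (fun Y => br N' Y)^[j] N ∈ U ∧ a ((fun Y => br N' Y)^[j] N) =
      (fun f : Polynomial ℂ => Polynomial.derivative (a N') * f - a N' * Polynomial.derivative f)^[j]
        1 := by
    intro j
    induction j with
    | zero => exact ⟨hN, haN⟩
    | succ j ih =>
      rw [Function.iterate_succ_apply', Function.iterate_succ_apply']
      refine ⟨hS.closed N' hN' _ ih.1, ?_⟩
      show a (br N' ((fun Y => br N' Y)^[j] N)) = _
      rw [hS.jet N' hN' _ ih.1, ih.2]
  rcases poly_nil (a N') k (by rw [← (hit k).2, hk, map_zero]) with ⟨c, hc⟩ | h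
  · exfalso
    have hL : br N N' ∈ U := hS.closed N hN N' hN'
    have haL : a (br N N') = 0 := by
      rw [hS.jet N hN N' hN', haN, hc]
      simp
    have h0 : br N (br N N') = 0 := comm_kernel hS N hN nN _ hL haL
    apply hnc
    apply D02_zero_of_trace hS _ hL
    · rw [haL]; simp
    · rw [D02_tr1, h0]; simp
  · exact h

end MP2794d1
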