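import Pool.Agent.Lib.MP_2794d1_ag.D02

/-!
D04: α is real. Suppose im α ≠ 0. L = br N N', P = br N L. By jet: a L = - (a N')' = -C(2α)(X - r), a P = C (2α).
(a (br N Y) = 0 * a Y - 1 * (a Y)'.)
(i) a (br N P) = 0, and trace((br N P)(br N P)) = - trace(P * br N (br N P)) = 0 by D02, so br N P = 0 by neg.
(ii) for z ∈ ℂ let N_z = x • N + y • P (x, y real) with a N_z = C z: y = im z/(2 im α), x = re z - 2 y re α.
N_z, N_w commute; trace(N N) = 0 (nilpotent), trace(N P) = trace(N (N L - L N)) = 0, trace(P P) = trace((N L - L N) P) =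
trace(L (P N - N P)) = 0; so trace(N_z N_w) = 0.
(iii) L_z = br N_z N' ∈ U has a L_z = - C z * (a N')' = -C(2αz)(X - r). br N_z L_w ∈ U has a = -z * (a L_w)' = C(2αzw),
so k := br N_z L_w - N_{2αzw} ∈ U has a k = 0, so trace (N' k) = 0 (D02: br N' k = 0 and trace_nil_mul). Hence
trace(L_z L_w) = trace((N_z N' - N' N_z) L_w) = - trace(N' * br N_z L_w) = - trace(N' N_{2αzw}) =: -b(2αzw), b real
linear, real valued (all matrices are real). So q(z) := trace(L_z L_z) = -b(2αz²) satisfies q(i) = -q(1); choose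
z ∈ {1, i} with q(z) ≥ 0.
(iv) trace(L_z N_w) = trace((N_z N' - N' N_z) N_w) = trace(N' (N_w N_z - N_z N_w)) = 0.
(v) choose w with X := N_w + L_z, (a X).eval u1 = w + (a L_z).eval u1 = 0. trace(X X) = q(z) ≥ 0, so X = 0 by neg;
but a X = C w - C(2αz)(X - r) is not 0. Contradiction.
-/

namespace MP2794d1

open Matrix Complex Filter Topology

theorem D04_smul (x : ℝ) (p : Polynomial ℂ) : x • p = Polynomial.C (x : ℂ) * p := by
  rw [← Polynomial.smul_eq_C_mul]
  exact (algebraMap_smul ℂ x p).symm

theorem D04_msmul {n : ℕ} (x : ℝ) (A : Matrix (Fin n) (Fin n) ℂ) : x • A = (x : ℂ) • A :=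
  (algebraMap_smul ℂ x A).symm

theorem D04_br_add_left {n : ℕ} (X Y Z : Matrix (Fin n) (Fin n) ℂ) :
    br (X + Y) Z = br X Z + br Y Z := by
  unfold br; noncomm_ring

theorem D04_br_add_right {n : ℕ} (X Y Z : Matrix (Fin n) (Fin n) ℂ) :
    br X (Y + Z) = br X Y + br X Z := by
  unfold br; noncomm_ring

theorem D04_br_smul_left {n : ℕ} (x : ℂ) (Y Z : Matrix (Fin n) (Fin n) ℂ) :
    br (x • Y) Z = x • br Y Z := by
  unfold br; rw [Matrix.smul_mul, Matrix.mul_smul, smul_sub]

theorem D04_br_smul_right {n : ℕ} (x : ℂ) (Y Z : Matrix (Fin n) (Fin n) ℂ) :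
    br Y (x • Z) = x • br Y Z := by
  unfold br; rw [Matrix.smul_mul, Matrix.mul_smul, smul_sub]

theorem D04_exp {n : ℕ} (A B : Matrix (Fin n) (Fin n) ℂ) :
    Matrix.trace ((A + B) * (A + B)) = Matrix.trace (A * A) + Matrix.trace (A * B) +
      (Matrix.trace (B * A) + Matrix.trace (B * B)) := by
  rw [add_mul, mul_add, mul_add, Matrix.trace_add, Matrix.trace_add, Matrix.trace_add]

theorem D04_br_self {n : ℕ} (X : Matrix (Fin n) (Fin n) ℂ) : br X X = 0 := by
  unfold br; simp

theorem D04_br_swap {n : ℕ} (X Y : Matrix (Fin n) (Fin n) ℂ) (h : br X Y = 0) : br Y X = 0 := by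
  unfold br at h ⊢
  rw [← neg_sub, h, neg_zero]

theorem alpha_real {n : ℕ} {U : Submodule ℝ (Matrix (Fin n) (Fin n) ℂ)}
    {a : Matrix (Fin n) (Fin n) ℂ →ₗ[ℝ] Polynomial ℂ} {u1 : ℂ} (hS : SlData U a u1)
    (N N' : Matrix (Fin n) (Fin n) ℂ) (hN : N ∈ U) (hN' : N' ∈ U) (nN : IsNilpotent N)
    (nN' : IsNilpotent N') (haN : a N = 1) (α r : ℂ) (hα : α ≠ 0)
    (haN' : a N' = Polynomial.C α * (Polynomial.X - Polynomial.C r) ^ 2) : α.im = 0 := by
  by_contra hα0
  have hL : br N N' ∈ U := hS.closed N hN N' hN'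
  set L := br N N' with hLd
  have hP : br N L ∈ U := hS.closed N hN _ hL
  set P := br N L with hPd
  set D1 : Polynomial ℂ := Polynomial.C (2 * α) * (Polynomial.X - Polynomial.C r) with hD1
  have hd1 : Polynomial.derivative (a N') = D1 := by
    rw [haN', hD1]
    simp only [Polynomial.derivative_C_mul, Polynomial.derivative_X_sub_C_sq, Polynomial.C_mul,
      Polynomial.C_ofNat]
    ring
  have hdD1 : Polynomial.derivative D1 = Polynomial.C (2 * α) := by
    rw [hD1]
    simp only [Polynomial.derivative_C_mul, Polynomial.derivative_sub,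
      Polynomial.derivative_X, Polynomial.derivative_C, sub_zero, mul_one]
  have haL : a L = - D1 := by
    rw [hLd, hS.jet N hN N' hN', haN, hd1]
    simp
  have haP : a P = Polynomial.C (2 * α) := by
    rw [hPd, hS.jet N hN _ hL, haN, haL]
    simp only [Polynomial.derivative_one, Polynomial.derivative_neg, hdD1]
    ring
  -- (i)
  have hNP : br N P = 0 := by
    have hY : br N P ∈ U := hS.closed N hN P hP
    have haY : a (br N P) = 0 := by
      rw [hS.jet N hN P hP, haN, haP]
      simp
    have h1 : br N (br N P) = 0 := comm_kernel hS N hN nN _ hY haY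
    apply D02_zero_of_trace hS _ hY
    · rw [haY]; simp
    · rw [D02_tr1, h1]; simp
  have tNN : Matrix.trace (N * N) = 0 := trace_nil_mul N N nN (D04_br_self N)
  have tNP : Matrix.trace (N * P) = 0 := trace_nil_mul N P nN hNP
  have tPN : Matrix.trace (P * N) = 0 := by rw [Matrix.trace_mul_comm]; exact tNP
  have tPP : Matrix.trace (P * P) = 0 := by
    have : Matrix.trace (br N L * P) = 0 := by rw [D02_tr1, hNP]; simp
    exact this
  -- (ii)
  set yy : ℂ → ℝ := fun z => z.im / (2 * α.im) with hyy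
  set xx : ℂ → ℝ := fun z => z.re - 2 * yy z * α.re with hxx
  set Nz : ℂ → Matrix (Fin n) (Fin n) ℂ :=
    fun z => ((xx z : ℝ) : ℂ) • N + ((yy z : ℝ) : ℂ) • P with hNz
  have hNzU : ∀ z, Nz z ∈ U := by
    intro z
    rw [hNz]
    simp only
    rw [← D04_msmul, ← D04_msmul]
    exact U.add_mem (U.smul_mem _ hN) (U.smul_mem _ hP)
  have haNz : ∀ z, a (Nz z) = Polynomial.C z := by
    intro z
    rw [hNz]
    simp only
    rw [← D04_msmul, ← D04_msmul, map_add, map_smul, map_smul, haN, haP, D04_smul, D04_smul,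
      mul_one, ← Polynomial.C_mul, ← Polynomial.C_add]
    congr 1
    have hy : yy z * (2 * α.im) = z.im := by
      simp only [hyy]
      field_simp
    have hx : xx z = z.re - 2 * yy z * α.re := rfl
    rw [hx]
    generalize yy z = y at hy
    apply Complex.ext
    · simp
      ring
    · simp
      linarith
  have trNN : ∀ z w, Matrix.trace (Nz z * Nz w) = 0 := by
    intro z w
    rw [hNz]
    simp only
    rw [add_mul, mul_add, mul_add]
    simp only [Matrix.smul_mul, Matrix.mul_smul, Matrix.trace_add, Matrix.trace_smul, tNN, tNP,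
      tPN, tPP, smul_zero, add_zero]
  have brNN : ∀ z w, br (Nz z) (Nz w) = 0 := by
    intro z w
    rw [hNz]
    simp only
    simp only [D04_br_add_left, D04_br_add_right, D04_br_smul_left, D04_br_smul_right,
      D04_br_self, hNP, D04_br_swap N P hNP, smul_zero, add_zero]
  -- (iii)
  have hLzU : ∀ z, br (Nz z) N' ∈ U := fun z => hS.closed _ (hNzU z) N' hN'
  have haLz : ∀ z, a (br (Nz z) N') = - (Polynomial.C z * D1) := by
    intro z
    rw [hS.jet _ (hNzU z) N' hN', haNz, hd1]
    simp
  have trLL : ∀ z w, Matrix.trace (br (Nz z) N' * br (Nz w) N')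
      = - Matrix.trace (N' * Nz (2 * α * z * w)) := by
    intro z w
    set k := br (Nz z) (br (Nz w) N') - Nz (2 * α * z * w) with hk
    have hkU : k ∈ U := U.sub_mem (hS.closed _ (hNzU z) _ (hLzU w)) (hNzU _)
    have hak : a k = 0 := by
      rw [hk, map_sub, hS.jet _ (hNzU z) _ (hLzU w), haNz, haNz, haLz]
      simp only [Polynomial.derivative_C, Polynomial.derivative_neg, Polynomial.derivative_C_mul,
        hdD1, Polynomial.C_mul]
      ring
    have h1 : br N' k = 0 := comm_kernel hS N' hN' nN' k hkU hak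
    have h2 : Matrix.trace (N' * k) = 0 := trace_nil_mul N' k nN' h1
    rw [D02_tr1]
    have h3 : br (Nz z) (br (Nz w) N') = Nz (2 * α * z * w) + k := by
      rw [hk]; abel
    rw [h3, mul_add, Matrix.trace_add, h2, add_zero]
  -- (iv)
  have trLN : ∀ z w, Matrix.trace (br (Nz z) N' * Nz w) = 0 := by
    intro z w
    rw [D02_tr1, brNN]
    simp
  -- (v)
  have main : ∀ z : ℂ, z ≠ 0 → (Matrix.trace (br (Nz z) N' * br (Nz z) N')).re < 0 := by
    intro z hz
    by_contra hge
    push Not at hge
    set w := z * D1.eval u1 with hw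
    have hXU : Nz w + br (Nz z) N' ∈ U := U.add_mem (hNzU w) (hLzU z)
    have haX : a (Nz w + br (Nz z) N') = Polynomial.C w - Polynomial.C z * D1 := by
      rw [map_add, haNz, haLz]
      ring
    have hev : (a (Nz w + br (Nz z) N')).eval u1 = 0 := by
      rw [haX]
      simp [hw]
    have htr : Matrix.trace ((Nz w + br (Nz z) N') * (Nz w + br (Nz z) N'))
        = Matrix.trace (br (Nz z) N' * br (Nz z) N') := by
      rw [D04_exp, trNN, trLN, Matrix.trace_mul_comm (Nz w), trLN]
      ring
    have hX0 := D02_zero_of_trace hS _ hXU hev (by rw [htr]; exact hge)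
    rw [hX0, map_zero] at haX
    have hc := congrArg (fun p : Polynomial ℂ => p.coeff 1) haX
    simp only [hD1, Polynomial.coeff_zero, Polynomial.coeff_sub, Polynomial.coeff_C_mul,
      Polynomial.coeff_X_one, Polynomial.coeff_C_succ, sub_zero, mul_one, zero_sub] at hc
    have h9 : z * (2 * α) = 0 := by
      have := hc.symm
      exact neg_eq_zero.mp this
    exact (mul_ne_zero hz (mul_ne_zero two_ne_zero hα)) h9
  have h1 := main 1 one_ne_zero
  have h2 := main Complex.I Complex.I_ne_zero
  rw [trLL] at h1 h2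
  have h3 : Nz (2 * α * Complex.I * Complex.I) = - Nz (2 * α * 1 * 1) := by
    have e1 : 2 * α * Complex.I * Complex.I = - (2 * α * 1 * 1) := by
      rw [mul_assoc, Complex.I_mul_I]; ring
    have e2 : ∀ z, yy (-z) = - yy z := by
      intro z
      simp only [hyy, Complex.neg_im]
      ring
    have e3 : ∀ z, xx (-z) = - xx z := by
      intro z
      simp only [hxx, e2, Complex.neg_re]
      ring
    rw [e1, hNz]
    simp only
    rw [e2, e3]
    simp only [Complex.ofReal_neg, neg_smul]
    abel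
  rw [h3, mul_neg, Matrix.trace_neg, neg_neg] at h2
  rw [Complex.neg_re] at h1
  linarith

end MP2794d1
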