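import Pool.Agent.Lib.MP_2794d1_ag.D02

/-!
D05: the relations (α real). L = br N N', P = br N L, a P = C (2α). k := P - (2α) • N ∈ U, a k = 0.
trace(k k) = trace(P k) - 2α trace(N k) ; trace(N k) = 0 (D02), trace(P k) = trace((N L - L N) k) =
trace(L (k N - N k)) = 0 (D02: br N k = 0). So k = 0 by neg. Similarly a (br N' L) = -C(2α) a N' (compute:
a' f - a f' with a = a N' = α(X-r)², f = -2α(X-r)), so k' := br N' L + (2α) • N' has a k' = 0 and
trace(k' k') = trace((N' L - L N') k') + 2α trace(N' k') = trace(L (k' N' - N' k')) + 0 = 0, k' = 0.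
(2α • N with real α: use the real scalar, (2*α:ℝ) • N = ((2*α:ℝ):ℂ) • N.)
-/

namespace MP2794d1

open Matrix Complex Filter Topology

theorem D05_smul (x : ℝ) (p : Polynomial ℂ) : x • p = Polynomial.C (x : ℂ) * p := by
  rw [← Polynomial.smul_eq_C_mul]
  exact (algebraMap_smul ℂ x p).symm

theorem D05_msmul {n : ℕ} (x : ℝ) (A : Matrix (Fin n) (Fin n) ℂ) : x • A = (x : ℂ) • A :=
  (algebraMap_smul ℂ x A).symm

theorem relations {n : ℕ} {U : Submodule ℝ (Matrix (Fin n) (Fin n) ℂ)}
    {a : Matrix (Fin n) (Fin n) ℂ →ₗ[ℝ] Polynomial ℂ} {u1 : ℂ} (hS : SlData U a u1)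
    (N N' : Matrix (Fin n) (Fin n) ℂ) (hN : N ∈ U) (hN' : N' ∈ U) (nN : IsNilpotent N)
    (nN' : IsNilpotent N') (haN : a N = 1) (α : ℝ) (r : ℂ)
    (haN' : a N' = Polynomial.C (α : ℂ) * (Polynomial.X - Polynomial.C r) ^ 2) :
    br N (br N N') = ((2 * α : ℝ) : ℂ) • N ∧ br N' (br N N') = ((-(2 * α) : ℝ) : ℂ) • N' := by
  have hL : br N N' ∈ U := hS.closed N hN N' hN'
  have hP : br N (br N N') ∈ U := hS.closed N hN _ hL
  have hQ : br N' (br N N') ∈ U := hS.closed N' hN' _ hL
  have hd1 : Polynomial.derivative (a N') =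
      Polynomial.C (2 * (α : ℂ)) * (Polynomial.X - Polynomial.C r) := by
    rw [haN']
    simp only [Polynomial.derivative_C_mul, Polynomial.derivative_X_sub_C_sq, Polynomial.C_mul,
      Polynomial.C_ofNat]
    ring
  have haL : a (br N N') = - (Polynomial.C (2 * (α : ℂ)) * (Polynomial.X - Polynomial.C r)) := by
    rw [hS.jet N hN N' hN', haN, hd1]
    simp
  have hdL : Polynomial.derivative (a (br N N')) = - Polynomial.C (2 * (α : ℂ)) := by
    rw [haL]
    simp only [Polynomial.derivative_neg, Polynomial.derivative_C_mul, Polynomial.derivative_sub,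
      Polynomial.derivative_X, Polynomial.derivative_C, sub_zero, mul_one]
  have haP : a (br N (br N N')) = Polynomial.C (2 * (α : ℂ)) := by
    rw [hS.jet N hN _ hL, haN, hdL]
    simp
  have haQ : a (br N' (br N N')) = - (Polynomial.C (2 * (α : ℂ)) * a N') := by
    rw [hS.jet N' hN' _ hL, hdL, haL, hd1, haN']
    simp only [Polynomial.C_mul, Polynomial.C_ofNat]
    ring
  constructor
  · set k := br N (br N N') - (2 * α) • N with hk
    have hkU : k ∈ U := U.sub_mem hP (U.smul_mem _ hN)
    have hak : a k = 0 := by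
      rw [hk, map_sub, map_smul, haP, haN, D05_smul]
      push_cast
      simp
    have h1 : br N k = 0 := comm_kernel hS N hN nN k hkU hak
    have h2 : Matrix.trace (k * k) = 0 := by
      have h3 : Matrix.trace (N * k) = 0 := trace_nil_mul N k nN h1
      have h4 : Matrix.trace (br N (br N N') * k) = 0 := by
        rw [D02_tr1, h1]; simp
      have h5 : k * k = br N (br N N') * k - ((2 * α : ℝ) : ℂ) • (N * k) := by
        conv_lhs => rw [show k * k = (br N (br N N') - (2 * α) • N) * k from rfl]
        rw [D05_msmul, sub_mul, Matrix.smul_mul]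
      rw [h5, Matrix.trace_sub, Matrix.trace_smul, h3, h4]
      simp
    have h6 : k = 0 := D02_zero_of_trace hS k hkU (by rw [hak]; simp) (by rw [h2]; simp)
    rw [← D05_msmul]
    exact sub_eq_zero.mp h6
  · set k := br N' (br N N') + (2 * α) • N' with hk
    have hkU : k ∈ U := U.add_mem hQ (U.smul_mem _ hN')
    have hak : a k = 0 := by
      rw [hk, map_add, map_smul, haQ, D05_smul]
      push_cast
      ring
    have h1 : br N' k = 0 := comm_kernel hS N' hN' nN' k hkU hak
    have h2 : Matrix.trace (k * k) = 0 := by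
      have h3 : Matrix.trace (N' * k) = 0 := trace_nil_mul N' k nN' h1
      have h4 : Matrix.trace (br N' (br N N') * k) = 0 := by
        rw [D02_tr1, h1]; simp
      have h5 : k * k = br N' (br N N') * k + ((2 * α : ℝ) : ℂ) • (N' * k) := by
        conv_lhs => rw [show k * k = (br N' (br N N') + (2 * α) • N') * k from rfl]
        rw [D05_msmul, add_mul, Matrix.smul_mul]
      rw [h5, Matrix.trace_add, Matrix.trace_smul, h3, h4]
      simp
    have h6 : k = 0 := D02_zero_of_trace hS k hkU (by rw [hak]; simp) (by rw [h2]; simp)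
    rw [← D05_msmul, neg_smul]
    exact eq_neg_of_add_eq_zero_left h6

end MP2794d1
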