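import Pool.Agent.Lib.MP_2794d1_ag.G00

/-!
G01: polynomial vector fields. Since N ∉ FEnd Fl 0 there is a linear functional lam on matrices, zero on FEnd Fl 0, with
lam N = 1 (Submodule.exists_le_ker_of_notMem or similar). The entries of uexp N (-s) * X * uexp N s are polynomials in s
depending linearly on X; so there is a linear map a from matrices to ℂ[X] with (a X).eval s =
lam (uexp N (-s) * X * uexp N s) (e.g. a X = ∑_{i,j<n} C((-1)^i/(i! j!) lam (N^i X N^j)) X^(i+j)). If Jet X, the b in Jet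
is (a X).eval s. a N = 1 as N commutes with uexp. Bracket: for Jet X put X(s) = uexp N (-s) X uexp N s =
(a X)(s) N + f(s), f(s) ∈ FEnd Fl 0 for all s. Derivative: X'(s) = -(N X(s) - X(s) N) = -br N (f s), and
X'(s) = (a X)'(s) N + f'(s) with f'(s) ∈ FEnd Fl 0 (derivative of a polynomial map with values in a subspace; use that
lam' ∘ f = 0 for the functionals lam' vanishing on FEnd Fl 0, or closedness). So
br N (f s) = -(a X)'(s) N - f'(s). Then with Y(s) = b N + g:
br X Y at s: br (X s) (Y s) = br (aN + f) (bN + g) = a • br N g - b • br N f + br f g, and br f g ∈ FEnd Fl 0, so it is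
≡ (-a b' + b a') N: Jet (br X Y) with (a (br X Y))(s) = a'b - a b' for all s (uniqueness), so the polynomials agree
(Polynomial.funext).
-/

namespace MP2794d1

open Matrix Complex Filter Topology

/-- conjugate of `X` by `exp (sN)` -/
noncomputable def G01_A {n : ℕ} (N X : Matrix (Fin n) (Fin n) ℂ) (s : ℂ) :
    Matrix (Fin n) (Fin n) ℂ := uexp N (-s) * X * uexp N s

theorem G01_deriv {n : ℕ} (N X : Matrix (Fin n) (Fin n) ℂ) (hN : N ^ n = 0) (s : ℂ)
    (i j : Fin n) :
    HasDerivAt (fun t => G01_A N X t i j) ((-(br N (G01_A N X s))) i j) s := by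
  have h0 : ∀ i k, HasDerivAt (fun t => uexp N (-t) i k) (-((N * uexp N (-s)) i k)) s := by
    intro i k
    have h1 : HasDerivAt (fun t : ℂ => -t) (-1) s := hasDerivAt_neg s
    have h2 : HasDerivAt (fun t => uexp N (-t) i k) ((N * uexp N (-s)) i k * (-1)) s :=
      HasDerivAt.comp s (uexp_deriv N hN (-s) i k) h1
    have h3 : (N * uexp N (-s)) i k * (-1) = -((N * uexp N (-s)) i k) := by ring
    rw [h3] at h2
    exact h2
  have h1 : HasDerivAt (fun t => ∑ l, (∑ k, uexp N (-t) i k * X k l) * uexp N t l j)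
      (∑ l, ((∑ k, (-((N * uexp N (-s)) i k)) * X k l) * uexp N s l j +
        (∑ k, uexp N (-s) i k * X k l) * ((N * uexp N s) l j))) s := by
    apply HasDerivAt.fun_sum
    intro l _
    apply HasDerivAt.mul
    · apply HasDerivAt.fun_sum
      intro k _
      exact (h0 i k).mul_const _
    · exact uexp_deriv N hN s l j
  have h2 : (fun t => G01_A N X t i j) =
      fun t => ∑ l, (∑ k, uexp N (-t) i k * X k l) * uexp N t l j := by
    funext t
    simp only [G01_A, Matrix.mul_apply]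
  have h3 : (-(br N (G01_A N X s))) i j =
      ∑ l, ((∑ k, (-((N * uexp N (-s)) i k)) * X k l) * uexp N s l j +
        (∑ k, uexp N (-s) i k * X k l) * ((N * uexp N s) l j)) := by
    have e1 : -(br N (G01_A N X s)) = (-(N * uexp N (-s))) * X * uexp N s +
        uexp N (-s) * X * (N * uexp N s) := by
      unfold br G01_A
      rw [uexp_comm N N rfl s]
      rw [Matrix.neg_mul, Matrix.neg_mul]
      simp only [Matrix.mul_assoc]
      abel
    rw [e1, Matrix.add_apply, Matrix.mul_apply, Matrix.mul_apply, Finset.sum_add_distrib]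
    congr 1
  rw [h2, h3]
  exact h1

theorem G01_phi {n : ℕ} (φ : Matrix (Fin n) (Fin n) ℂ →ₗ[ℂ] ℂ) (M : Matrix (Fin n) (Fin n) ℂ) :
    φ M = ∑ i, ∑ j, M i j * φ (Matrix.single i j 1) := by
  conv_lhs => rw [Matrix.matrix_eq_sum_single M]
  rw [map_sum]
  apply Finset.sum_congr rfl
  intro i _
  rw [map_sum]
  apply Finset.sum_congr rfl
  intro j _
  have h1 : Matrix.single i j (M i j) = (M i j) • Matrix.single i j (1 : ℂ) := by
    rw [Matrix.smul_single, smul_eq_mul, mul_one]
  rw [h1, map_smul, smul_eq_mul]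

theorem G01_phi_deriv {n : ℕ} (N X : Matrix (Fin n) (Fin n) ℂ) (hN : N ^ n = 0)
    (φ : Matrix (Fin n) (Fin n) ℂ →ₗ[ℂ] ℂ) (s : ℂ) :
    HasDerivAt (fun t => φ (G01_A N X t)) (φ (-(br N (G01_A N X s)))) s := by
  have h1 : (fun t => φ (G01_A N X t)) =
      fun t => ∑ i, ∑ j, G01_A N X t i j * φ (Matrix.single i j 1) := by
    funext t
    exact G01_phi φ _
  rw [h1, G01_phi φ]
  apply HasDerivAt.fun_sum
  intro i _
  apply HasDerivAt.fun_sum
  intro j _
  exact (G01_deriv N X hN s i j).mul_const _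

theorem G01_mem {n : ℕ} (W : Submodule ℂ (Matrix (Fin n) (Fin n) ℂ))
    (Z : Matrix (Fin n) (Fin n) ℂ)
    (h : ∀ φ : Matrix (Fin n) (Fin n) ℂ →ₗ[ℂ] ℂ, (∀ Y ∈ W, φ Y = 0) → φ Z = 0) : Z ∈ W := by
  by_contra hZ
  obtain ⟨f, hf, hker⟩ := Submodule.exists_le_ker_of_notMem hZ
  exact hf (h f (fun Y hY => LinearMap.mem_ker.1 (hker hY)))

/-- the polynomial `s ↦ lam (exp (-sN) X exp (sN))` -/
noncomputable def G01_a {n : ℕ} (N : Matrix (Fin n) (Fin n) ℂ)
    (lam : Matrix (Fin n) (Fin n) ℂ →ₗ[ℂ] ℂ) :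
    Matrix (Fin n) (Fin n) ℂ →ₗ[ℂ] Polynomial ℂ where
  toFun X := ∑ i ∈ Finset.range n, ∑ j ∈ Finset.range n,
    Polynomial.C (((-1) ^ i / (i.factorial : ℂ)) * (1 / (j.factorial : ℂ)) *
      lam (N ^ i * X * N ^ j)) * Polynomial.X ^ (i + j)
  map_add' X Y := by
    rw [← Finset.sum_add_distrib]
    apply Finset.sum_congr rfl
    intro i _
    rw [← Finset.sum_add_distrib]
    apply Finset.sum_congr rfl
    intro j _
    rw [Matrix.mul_add, Matrix.add_mul, map_add, mul_add, map_add, add_mul]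
  map_smul' c X := by
    rw [RingHom.id_apply, Finset.smul_sum]
    apply Finset.sum_congr rfl
    intro i _
    rw [Finset.smul_sum]
    apply Finset.sum_congr rfl
    intro j _
    rw [Matrix.mul_smul, Matrix.smul_mul, map_smul, smul_eq_mul, Polynomial.smul_eq_C_mul,
      ← mul_assoc (Polynomial.C c), ← Polynomial.C_mul]
    congr 2
    ring

theorem G01_eval {n : ℕ} (N X : Matrix (Fin n) (Fin n) ℂ)
    (lam : Matrix (Fin n) (Fin n) ℂ →ₗ[ℂ] ℂ) (s : ℂ) :
    (G01_a N lam X).eval s = lam (G01_A N X s) := by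
  have h1 : G01_A N X s = ∑ i ∈ Finset.range n, ∑ j ∈ Finset.range n,
      (((-s) ^ i / (i.factorial : ℂ)) * (s ^ j / (j.factorial : ℂ))) • (N ^ i * X * N ^ j) := by
    unfold G01_A uexp
    rw [Finset.sum_mul, Finset.sum_mul]
    apply Finset.sum_congr rfl
    intro i _
    rw [Finset.mul_sum]
    apply Finset.sum_congr rfl
    intro j _
    rw [Matrix.smul_mul, Matrix.smul_mul, Matrix.mul_smul, smul_smul]
  rw [h1, map_sum]
  show (∑ i ∈ Finset.range n, ∑ j ∈ Finset.range n,
    Polynomial.C (((-1) ^ i / (i.factorial : ℂ)) * (1 / (j.factorial : ℂ)) *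
      lam (N ^ i * X * N ^ j)) * Polynomial.X ^ (i + j)).eval s = _
  rw [Polynomial.eval_finsetSum]
  apply Finset.sum_congr rfl
  intro i _
  rw [Polynomial.eval_finsetSum, map_sum]
  apply Finset.sum_congr rfl
  intro j _
  rw [map_smul, smul_eq_mul, Polynomial.eval_mul, Polynomial.eval_C, Polynomial.eval_pow,
    Polynomial.eval_X, pow_add, neg_pow s i]
  ring

theorem G01_A_N {n : ℕ} (N : Matrix (Fin n) (Fin n) ℂ) (hN : N ^ n = 0) (s : ℂ) :
    G01_A N N s = N := by
  unfold G01_A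
  rw [Matrix.mul_assoc, uexp_comm N N rfl s, ← Matrix.mul_assoc, uexp_neg_mul N hN,
    Matrix.one_mul]

theorem G01_A_br {n : ℕ} (N X Y : Matrix (Fin n) (Fin n) ℂ) (hN : N ^ n = 0) (s : ℂ) :
    G01_A N (br X Y) s = br (G01_A N X s) (G01_A N Y s) := by
  have h1 : ∀ X Y : Matrix (Fin n) (Fin n) ℂ, G01_A N (X * Y) s = G01_A N X s * G01_A N Y s := by
    intro X Y
    unfold G01_A
    calc uexp N (-s) * (X * Y) * uexp N s = uexp N (-s) * X * 1 * Y * uexp N s := by
          rw [Matrix.mul_one, Matrix.mul_assoc (uexp N (-s)) X Y]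
      _ = uexp N (-s) * X * (uexp N s * uexp N (-s)) * Y * uexp N s := by
          rw [uexp_mul_neg N hN]
      _ = _ := by simp only [Matrix.mul_assoc]
  unfold br
  rw [← h1, ← h1]
  unfold G01_A
  rw [Matrix.mul_sub, Matrix.sub_mul]

theorem G01_FEnd_mul {n : ℕ} {Fl : ℤ → Submodule ℂ (Fin n → ℂ)} {X Y : Matrix (Fin n) (Fin n) ℂ}
    (hX : X ∈ FEnd Fl 0) (hY : Y ∈ FEnd Fl 0) : X * Y ∈ FEnd Fl 0 := by
  intro p x hx
  have h1 : Y *ᵥ x ∈ Fl (p + 0) := hY p x hx
  rw [add_zero] at h1
  have h2 := hX p (Y *ᵥ x) h1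
  rwa [Matrix.mulVec_mulVec] at h2

theorem exists_jet {n : ℕ} (N : Matrix (Fin n) (Fin n) ℂ) (hN : N ^ n = 0)
    (Fl : ℤ → Submodule ℂ (Fin n → ℂ)) (hF : N ∉ FEnd Fl 0) :
    ∃ a : Matrix (Fin n) (Fin n) ℂ →ₗ[ℝ] Polynomial ℂ, a N = 1 ∧
      (∀ X, Jet N Fl X → ∀ s : ℂ, uexp N (-s) * X * uexp N s - ((a X).eval s) • N ∈ FEnd Fl 0) ∧
      (∀ X Y, Jet N Fl X → Jet N Fl Y → Jet N Fl (br X Y) ∧
        a (br X Y) = Polynomial.derivative (a X) * a Y - a X * Polynomial.derivative (a Y)) := by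
  obtain ⟨f, hf, hker⟩ := Submodule.exists_le_ker_of_notMem hF
  set lam : Matrix (Fin n) (Fin n) ℂ →ₗ[ℂ] ℂ := (f N)⁻¹ • f with hlam
  have hlamN : lam N = 1 := by
    rw [hlam, LinearMap.smul_apply, smul_eq_mul, inv_mul_cancel₀ hf]
  have hlam0 : ∀ Y ∈ FEnd Fl 0, lam Y = 0 := by
    intro Y hY
    have h1 : f Y = 0 := LinearMap.mem_ker.1 (hker hY)
    rw [hlam, LinearMap.smul_apply, h1, smul_zero]
  -- the number b in the jet condition
  have hb : ∀ X, Jet N Fl X → ∀ s : ℂ, G01_A N X s - ((G01_a N lam X).eval s) • N ∈ FEnd Fl 0 := by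
    intro X hX s
    obtain ⟨b, hb⟩ := hX s
    have h1 := hlam0 _ hb
    rw [map_sub, map_smul, hlamN, smul_eq_mul, mul_one] at h1
    have h2 : (G01_a N lam X).eval s = b := by
      rw [G01_eval]
      exact sub_eq_zero.1 h1
    rw [h2]
    exact hb
  -- the derivative
  have hd : ∀ X, Jet N Fl X → ∀ s : ℂ,
      br N (G01_A N X s) + ((Polynomial.derivative (G01_a N lam X)).eval s) • N ∈ FEnd Fl 0 := by
    intro X hX s
    apply G01_mem
    intro φ hφ
    have h1 : (fun t => φ (G01_A N X t) - (G01_a N lam X).eval t * φ N) = fun _ => 0 := by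
      funext t
      have h2 := hφ _ (hb X hX t)
      rw [map_sub, map_smul, smul_eq_mul] at h2
      exact h2
    have h3 := (G01_phi_deriv N X hN φ s).sub
      (((G01_a N lam X).hasDerivAt s).mul_const (φ N))
    have h4 : HasDerivAt (fun t => φ (G01_A N X t) - (G01_a N lam X).eval t * φ N) 0 s := by
      rw [h1]
      exact hasDerivAt_const _ _
    have h5 := h3.unique h4
    rw [map_add, map_smul, smul_eq_mul]
    rw [map_neg] at h5
    linear_combination -h5
  refine ⟨(G01_a N lam).restrictScalars ℝ, ?_, ?_, ?_⟩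
  · apply Polynomial.funext
    intro s
    show (G01_a N lam N).eval s = _
    rw [G01_eval, G01_A_N N hN, hlamN, Polynomial.eval_one]
  · intro X hX s
    exact hb X hX s
  · intro X Y hX hY
    have key : ∀ s : ℂ, G01_A N (br X Y) s -
        ((Polynomial.derivative (G01_a N lam X)).eval s * (G01_a N lam Y).eval s -
          (G01_a N lam X).eval s * (Polynomial.derivative (G01_a N lam Y)).eval s) • N ∈
        FEnd Fl 0 := by
      intro s
      set a := (G01_a N lam X).eval s
      set b := (G01_a N lam Y).eval s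
      set a' := (Polynomial.derivative (G01_a N lam X)).eval s
      set b' := (Polynomial.derivative (G01_a N lam Y)).eval s
      set P := G01_A N X s
      set R := G01_A N Y s
      have f1 : P - a • N ∈ FEnd Fl 0 := hb X hX s
      have f2 : R - b • N ∈ FEnd Fl 0 := hb Y hY s
      have f3 : br N P + a' • N ∈ FEnd Fl 0 := hd X hX s
      have f4 : br N R + b' • N ∈ FEnd Fl 0 := hd Y hY s
      have e : G01_A N (br X Y) s - (a' * b - a * b') • N =
          a • (br N R + b' • N) - b • (br N P + a' • N) +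
            ((P - a • N) * (R - b • N) - (R - b • N) * (P - a • N)) := by
        rw [G01_A_br N X Y hN]
        unfold br
        simp only [Matrix.sub_mul, Matrix.mul_sub, Matrix.smul_mul, Matrix.mul_smul, smul_add,
          smul_sub, smul_smul, sub_smul]
        rw [mul_comm b a, mul_comm b a']
        abel
      rw [e]
      exact Submodule.add_mem _ (Submodule.sub_mem _ (Submodule.smul_mem _ _ f4)
        (Submodule.smul_mem _ _ f3)) (Submodule.sub_mem _ (G01_FEnd_mul f1 f2)
        (G01_FEnd_mul f2 f1))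
    refine ⟨fun s => ⟨_, key s⟩, ?_⟩
    apply Polynomial.funext
    intro s
    show (G01_a N lam (br X Y)).eval s = _
    have h1 := hlam0 _ (key s)
    rw [map_sub, map_smul, hlamN, smul_eq_mul, mul_one] at h1
    rw [G01_eval, Polynomial.eval_sub, Polynomial.eval_mul, Polynomial.eval_mul]
    exact sub_eq_zero.1 h1

end MP2794d1
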