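import Pool.Agent.Lib.MP_2794d1_ag.G00

/-!
G02: if the condition holds for infinitely many s it holds for all s: uexp N (-s) X uexp N s is a polynomial in s with
matrix coefficients; the condition says that it lies in the subspace ℂN + FEnd Fl 0; apply every linear functional
vanishing on this subspace: a polynomial with infinitely many zeros. Second statement: same with the vector
uexp N s *ᵥ x ∈ W for infinitely many s, and then the coefficient of s gives N *ᵥ x ∈ W.
-/

namespace MP2794d1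

open Matrix Complex Filter Topology

theorem G02_poly {n : ℕ} (N X : Matrix (Fin n) (Fin n) ℂ)
    (φ : Matrix (Fin n) (Fin n) ℂ →ₗ[ℂ] ℂ) :
    ∃ p : Polynomial ℂ, ∀ s, p.eval s = φ (uexp N (-s) * X * uexp N s) := by
  refine ⟨∑ j ∈ Finset.range n, ∑ i ∈ Finset.range n,
    Polynomial.C (φ (N ^ i * X * N ^ j)) * Polynomial.C ((j.factorial : ℂ)⁻¹ * (i.factorial : ℂ)⁻¹) *
      (Polynomial.X ^ j * (-Polynomial.X) ^ i), ?_⟩
  intro s
  have h1 : uexp N (-s) * X * uexp N s = ∑ j ∈ Finset.range n, ∑ i ∈ Finset.range n,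
      ((j.factorial : ℂ)⁻¹ * (i.factorial : ℂ)⁻¹ * (s ^ j * (-s) ^ i)) • (N ^ i * X * N ^ j) := by
    unfold uexp
    rw [Finset.sum_mul, Finset.sum_mul_sum, Finset.sum_comm]
    refine Finset.sum_congr rfl (fun j _ => Finset.sum_congr rfl (fun i _ => ?_))
    rw [Matrix.smul_mul, Matrix.smul_mul, Matrix.mul_smul, smul_smul]
    congr 1
    ring
  rw [h1]
  simp only [map_sum, map_smul, Polynomial.eval_finsetSum, Polynomial.eval_mul, Polynomial.eval_C,
    Polynomial.eval_pow, Polynomial.eval_X, Polynomial.eval_neg, smul_eq_mul]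
  refine Finset.sum_congr rfl (fun j _ => Finset.sum_congr rfl (fun i _ => ?_))
  ring

theorem jet_of_infinite {n : ℕ} (N : Matrix (Fin n) (Fin n) ℂ)
    (Fl : ℤ → Submodule ℂ (Fin n → ℂ)) (X : Matrix (Fin n) (Fin n) ℂ) (S : Set ℂ)
    (hS : S.Infinite) (h : ∀ s ∈ S, ∃ b : ℂ, uexp N (-s) * X * uexp N s - b • N ∈ FEnd Fl 0) :
    Jet N Fl X := by
  classical
  intro t
  set W : Submodule ℂ (Matrix (Fin n) (Fin n) ℂ) := FEnd Fl 0 ⊔ Submodule.span ℂ {N} with hW
  have hiff : ∀ Y : Matrix (Fin n) (Fin n) ℂ, Y ∈ W ↔ ∃ b : ℂ, Y - b • N ∈ FEnd Fl 0 := by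
    intro Y
    rw [hW, Submodule.mem_sup]
    constructor
    · rintro ⟨y, hy, z, hz, rfl⟩
      obtain ⟨b, rfl⟩ := Submodule.mem_span_singleton.1 hz
      exact ⟨b, by rwa [add_sub_cancel_right]⟩
    · rintro ⟨b, hb⟩
      exact ⟨Y - b • N, hb, b • N, Submodule.smul_mem _ _ (Submodule.mem_span_singleton_self N),
        sub_add_cancel _ _⟩
  rw [← hiff]
  by_contra hno
  obtain ⟨φ, hφ1, hφ2⟩ := Submodule.exists_dual_map_eq_bot_of_notMem hno inferInstance
  have hφ3 : ∀ w ∈ W, φ w = 0 := by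
    intro w hw
    have : φ w ∈ W.map φ := Submodule.mem_map_of_mem hw
    rw [hφ2] at this
    exact (Submodule.mem_bot ℂ).1 this
  obtain ⟨p, hp⟩ := G02_poly N X φ
  have hroots : p = 0 := by
    refine Polynomial.eq_zero_of_infinite_isRoot p (hS.mono ?_)
    intro s hs
    change p.IsRoot s
    rw [Polynomial.IsRoot, hp]
    exact hφ3 _ ((hiff _).2 (h s hs))
  apply hφ1
  rw [← hp, hroots, Polynomial.eval_zero]

theorem mem_of_uexp_mem {n : ℕ} (N : Matrix (Fin n) (Fin n) ℂ) (hN : N ^ n = 0)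
    (W : Submodule ℂ (Fin n → ℂ)) (x : Fin n → ℂ) (h : ∀ s : ℂ, uexp N s *ᵥ x ∈ W) :
    N *ᵥ x ∈ W := by
  classical
  by_cases hn : n < 2
  · have h0 : N *ᵥ x = 0 := by
      interval_cases n
      · exact Subsingleton.elim _ _
      · rw [pow_one] at hN
        rw [hN, Matrix.zero_mulVec]
    rw [h0]
    exact W.zero_mem
  push Not at hn
  by_contra hno
  obtain ⟨φ, hφ1, hφ2⟩ := Submodule.exists_dual_map_eq_bot_of_notMem hno inferInstance
  have hφ3 : ∀ w ∈ W, φ w = 0 := by
    intro w hw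
    have : φ w ∈ W.map φ := Submodule.mem_map_of_mem hw
    rw [hφ2] at this
    exact (Submodule.mem_bot ℂ).1 this
  set p : Polynomial ℂ := ∑ j ∈ Finset.range n,
    Polynomial.C (φ (N ^ j *ᵥ x) * (j.factorial : ℂ)⁻¹) * Polynomial.X ^ j with hp
  have hev : ∀ s, p.eval s = φ (uexp N s *ᵥ x) := by
    intro s
    have h1 : uexp N s *ᵥ x = ∑ j ∈ Finset.range n, (s ^ j / (j.factorial : ℂ)) • (N ^ j *ᵥ x) := by
      unfold uexp
      rw [Matrix.sum_mulVec]
      exact Finset.sum_congr rfl (fun j _ => Matrix.smul_mulVec _ _ _)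
    rw [h1, hp]
    simp only [map_sum, map_smul, Polynomial.eval_finsetSum, Polynomial.eval_mul, Polynomial.eval_C,
      Polynomial.eval_pow, Polynomial.eval_X, smul_eq_mul]
    exact Finset.sum_congr rfl (fun j _ => by ring)
  have hp0 : p = 0 := by
    apply Polynomial.funext
    intro s
    rw [hev, Polynomial.eval_zero]
    exact hφ3 _ (h s)
  have hc : p.coeff 1 = φ (N *ᵥ x) := by
    rw [hp, Polynomial.finsetSum_coeff]
    rw [Finset.sum_eq_single 1]
    · simp
    · intro j _ hj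
      rw [Polynomial.coeff_C_mul, Polynomial.coeff_X_pow, if_neg (Ne.symm hj), mul_zero]
    · intro h1
      exact absurd (Finset.mem_range.2 (by omega)) h1
  apply hφ1
  rw [← hc, hp0, Polynomial.coeff_zero]

end MP2794d1
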