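import Pool.Agent.Lib.MP_2794d1_ag.S05
import Pool.Agent.Lib.MP_2794d1_ag.G01
import Pool.Agent.Lib.MP_2794d1_ag.G02
import Pool.Agent.Lib.MP_2794d1_ag.D03
import Pool.Agent.Lib.MP_2794d1_ag.D04
import Pool.Agent.Lib.MP_2794d1_ag.D05

/-!
S06: the sl_2. N = cm c.N, N' = cm (c.conj g). N ∉ FEnd F0 0 (FEnd_map_iff at a point of the strip and N_not_mem).
exists_jet for Fl = F0 gives a. U = {X | mconj X = X ∧ Skew V.Q X ∧ Jet N F0 X}, a real subspace. u1 = u y1 for a point y1
of the strip. SlData U a u1: real, closed, jet clear (Skew.br, exists_jet); neg: if (a X).eval u1 = 0 then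
uexp(-u1) X uexp(u1) ∈ FEnd F0 0, so X ∈ FEnd_{y1} 0, br μ X = 0 (comm_of_FEnd, μ from exists_gr), pos0.
N ∈ U (Jet: b = 1, N commutes with uexp). N' ∈ U: jet_of_infinite with S = the image of the strip under u, infinite since
deriv u ≠ 0 somewhere (u is not locally constant there: e.g. open mapping, or injectivity near that point); the condition
holds by conj_line and FEnd_map_iff. field_form, alpha_real, relations give α real ≠ 0, r. As cm c.N ≠ 0 has rational
entries and br N (br N N') = cm(...) = (2α) N, α = q is rational; the relations for rational matrices follow from the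
injectivity of cm. On the strip: (a N').eval (u y) = q (u y - r)², and a (br N N') = -(a N')' = -2q(X - r): translate back by
FEnd_map_iff.
-/

namespace MP2794d1

open Matrix Complex Filter Topology

theorem cm_br {n : ℕ} (N N' : Matrix (Fin n) (Fin n) ℚ) :
    cm (N * N' - N' * N) = br (cm N) (cm N') := by
  ext i j
  simp only [cm, br, Matrix.map_apply, Matrix.sub_apply, Matrix.mul_apply]
  push_cast
  rfl

theorem S06_cm_inj {n : ℕ} {X Y : Matrix (Fin n) (Fin n) ℚ} (h : cm X = cm Y) : X = Y := by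
  ext i j
  have h1 := congrFun (congrFun h i) j
  simp only [cm, Matrix.map_apply] at h1
  exact_mod_cast h1

theorem S06_conj_N {n : ℕ} (N : Matrix (Fin n) (Fin n) ℂ) (hN : N ^ n = 0) (s : ℂ) :
    uexp N (-s) * N * uexp N s = N := by
  rw [Matrix.mul_assoc, uexp_comm N N rfl s, ← Matrix.mul_assoc, uexp_neg_mul N hN,
    Matrix.one_mul]

theorem S06_conj_sub {n : ℕ} (N : Matrix (Fin n) (Fin n) ℂ) (hN : N ^ n = 0) (s b : ℂ)
    (X : Matrix (Fin n) (Fin n) ℂ) :
    uexp N (-s) * (X - b • N) * uexp N s = uexp N (-s) * X * uexp N s - b • N := by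
  rw [Matrix.mul_sub, Matrix.sub_mul, Matrix.mul_smul, Matrix.smul_mul, S06_conj_N N hN]

theorem S06_mconj_br {n : ℕ} (X Y : Matrix (Fin n) (Fin n) ℂ) :
    mconj (br X Y) = br (mconj X) (mconj Y) := by
  ext i j
  simp only [mconj, br, Matrix.map_apply, Matrix.sub_apply, Matrix.mul_apply, map_sub, map_sum,
    map_mul]

/-- The real subspace of real skew matrices satisfying the jet condition. -/
def S06_U {n : ℕ} (Q : Matrix (Fin n) (Fin n) ℤ) (N : Matrix (Fin n) (Fin n) ℂ)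
    (Fl : ℤ → Submodule ℂ (Fin n → ℂ)) : Submodule ℝ (Matrix (Fin n) (Fin n) ℂ) where
  carrier := {X | mconj X = X ∧ Skew Q X ∧ Jet N Fl X}
  add_mem' := by
    rintro X Y ⟨h1, h2, h3⟩ ⟨k1, k2, k3⟩
    refine ⟨?_, h2.add k2, ?_⟩
    · ext i j
      have e1 := congrFun (congrFun h1 i) j
      have e2 := congrFun (congrFun k1 i) j
      simp only [mconj, Matrix.map_apply, Matrix.add_apply, map_add] at e1 e2 ⊢
      rw [e1, e2]
    · intro s
      obtain ⟨b, hb⟩ := h3 s
      obtain ⟨b', hb'⟩ := k3 s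
      refine ⟨b + b', ?_⟩
      have e : uexp N (-s) * (X + Y) * uexp N s - (b + b') • N =
          (uexp N (-s) * X * uexp N s - b • N) + (uexp N (-s) * Y * uexp N s - b' • N) := by
        rw [Matrix.mul_add, Matrix.add_mul, add_smul]
        abel
      rw [e]
      exact Submodule.add_mem _ hb hb'
  zero_mem' := by
    refine ⟨?_, ?_, ?_⟩
    · ext i j
      simp [mconj]
    · simp [Skew]
    · intro s
      refine ⟨0, ?_⟩
      have e : uexp N (-s) * 0 * uexp N s - (0 : ℂ) • N = 0 := by simp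
      rw [e]
      exact Submodule.zero_mem _
  smul_mem' := by
    rintro r X ⟨h1, h2, h3⟩
    have hr : r • X = (r : ℂ) • X := by
      ext i j
      simp
    refine ⟨?_, ?_, ?_⟩
    · ext i j
      have e1 := congrFun (congrFun h1 i) j
      simp only [mconj, Matrix.map_apply] at e1
      simp only [hr, mconj, Matrix.map_apply, Matrix.smul_apply, smul_eq_mul, map_mul,
        Complex.conj_ofReal]
      rw [e1]
      simp
    · rw [hr]
      exact h2.smul _
    · intro s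
      obtain ⟨b, hb⟩ := h3 s
      refine ⟨r * b, ?_⟩
      have e : uexp N (-s) * (r • X) * uexp N s - ((r : ℂ) * b) • N =
          (r : ℂ) • (uexp N (-s) * X * uexp N s - b • N) := by
        rw [hr, Matrix.mul_smul, Matrix.smul_mul, smul_sub, smul_smul]
      rw [e]
      exact Submodule.smul_mem _ _ hb

theorem S06_mem_U {n : ℕ} (Q : Matrix (Fin n) (Fin n) ℤ) (N : Matrix (Fin n) (Fin n) ℂ)
    (Fl : ℤ → Submodule ℂ (Fin n → ℂ)) (X : Matrix (Fin n) (Fin n) ℂ) :
    X ∈ S06_U Q N Fl ↔ mconj X = X ∧ Skew Q X ∧ Jet N Fl X := Iff.rfl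

theorem S06_infinite {u : ℂ → ℂ} {y1 : ℂ} (hu : AnalyticAt ℂ u y1) (hd : deriv u y1 ≠ 0)
    (S : Set ℂ) (hS : S ∈ 𝓝 y1) : (u '' S).Infinite := by
  rcases hu.eventually_constant_or_nhds_le_map_nhds with h1 | h1
  · exfalso
    apply hd
    have h2 : u =ᶠ[𝓝 y1] fun _ => u y1 := h1
    rw [h2.deriv_eq]
    exact deriv_const _ _
  · have h2 : u '' S ∈ 𝓝 (u y1) := by
      apply h1
      rw [Filter.mem_map]
      exact Filter.mem_of_superset hS (Set.subset_preimage_image u S)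
    exact infinite_of_mem_nhds _ h2

theorem sl2_data {n : ℕ} (V : PolVHS n) (c : Cusp V) (g : V.grp)
    (hg : c.N * c.conj g ≠ c.conj g * c.N) {a : ℝ} {u : ℂ → ℂ}
    {F0 : ℤ → Submodule ℂ (Fin n → ℂ)} (h : StageOne V c a u F0) :
    ∃ (q : ℚ) (r : ℂ), q ≠ 0 ∧
      c.N * (c.N * c.conj g - c.conj g * c.N) - (c.N * c.conj g - c.conj g * c.N) * c.N =
        (2 * q) • c.N ∧
      c.conj g * (c.N * c.conj g - c.conj g * c.N) - (c.N * c.conj g - c.conj g * c.N) * c.conj g =
        (-(2 * q)) • c.conj g ∧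
      ∀ y : ℂ, |y.re| < 1 → a < y.im →
        cm (c.conj g) - (((q : ℝ) : ℂ) * (u y - r) ^ 2) • cm c.N ∈ FEnd (fun p => V.F p y) 0 ∧
        br (cm c.N) (cm (c.conj g)) + (2 * ((q : ℝ) : ℂ) * (u y - r)) • cm c.N ∈
          FEnd (fun p => V.F p y) 0 := by
  have hN : c.N ≠ 0 := by
    intro h0
    apply hg
    rw [h0]
    simp
  have hNn : (cm c.N) ^ n = 0 := cm_pow c.N c.nil
  obtain ⟨y1, hy1re, hy1im, hy1d⟩ := h.ne
  have hpos : ∀ y : ℂ, a < y.im → 0 < y.im := fun y hy => lt_of_le_of_lt h.ha hy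
  -- moving between F0 and the filtration at y
  have hback : ∀ y : ℂ, |y.re| < 1 → a < y.im → ∀ (X : Matrix (Fin n) (Fin n) ℂ) (b : ℂ),
      uexp (cm c.N) (-(u y)) * X * uexp (cm c.N) (u y) - b • cm c.N ∈ FEnd F0 0 ↔
        X - b • cm c.N ∈ FEnd (fun p => V.F p y) 0 := by
    intro y hy1 hy2 X b
    rw [FEnd_map_iff (cm c.N) hNn (u y) F0 (fun p => V.F p y) (h.eq y hy1 hy2), S06_conj_sub _ hNn]
  have hback0 : ∀ y : ℂ, |y.re| < 1 → a < y.im → ∀ (X : Matrix (Fin n) (Fin n) ℂ),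
      uexp (cm c.N) (-(u y)) * X * uexp (cm c.N) (u y) ∈ FEnd F0 0 ↔
        X ∈ FEnd (fun p => V.F p y) 0 := by
    intro y hy1 hy2 X
    rw [FEnd_map_iff (cm c.N) hNn (u y) F0 (fun p => V.F p y) (h.eq y hy1 hy2)]
  have hNF0 : cm c.N ∉ FEnd F0 0 := by
    intro hmem
    apply N_not_mem V c hN y1 (hpos y1 hy1im)
    rw [← hback0 y1 hy1re hy1im, S06_conj_N _ hNn]
    exact hmem
  obtain ⟨A, hAN, hAjet, hAbr⟩ := exists_jet (cm c.N) hNn F0 hNF0
  have hS : SlData (S06_U V.Q (cm c.N) F0) A (u y1) := by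
    refine ⟨fun X hX => hX.1, ?_, ?_, ?_⟩
    · rintro X ⟨h1, h2, h3⟩ Y ⟨k1, k2, k3⟩
      refine ⟨?_, h2.br k2, (hAbr X Y h3 k3).1⟩
      rw [S06_mconj_br, h1, k1]
    · rintro X ⟨h1, h2, h3⟩ Y ⟨k1, k2, k3⟩
      exact (hAbr X Y h3 k3).2
    · rintro X ⟨h1, h2, h3⟩ hev hne
      obtain ⟨μ, hμ⟩ := exists_gr (V.phs y1 (hpos y1 hy1im))
      have e1 := hAjet X h3 (u y1)
      rw [hev, zero_smul, sub_zero, hback0 y1 hy1re hy1im] at e1
      have e2 := comm_of_FEnd (V.phs y1 (hpos y1 hy1im)) hμ X e1 (by rw [h1]; exact e1)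
      have e3 := pos0 (V.phs y1 (hpos y1 hy1im)) hμ X h2 e2 hne
      rwa [h1] at e3
  have hNU : cm c.N ∈ S06_U V.Q (cm c.N) F0 := by
    refine ⟨mconj_cm _, skew_N V c, fun s => ⟨1, ?_⟩⟩
    rw [S06_conj_N _ hNn, one_smul, sub_self]
    exact Submodule.zero_mem _
  have hstripopen : {y : ℂ | |y.re| < 1 ∧ a < y.im} ∈ 𝓝 y1 := by
    apply IsOpen.mem_nhds
    · apply IsOpen.inter
      · exact isOpen_lt (Complex.continuous_re.abs) continuous_const
      · exact isOpen_lt continuous_const Complex.continuous_im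
    · exact ⟨hy1re, hy1im⟩
  have hN'U : cm (c.conj g) ∈ S06_U V.Q (cm c.N) F0 := by
    refine ⟨mconj_cm _, skew_conj V c g, ?_⟩
    apply jet_of_infinite (cm c.N) F0 (cm (c.conj g)) _
      (S06_infinite (h.an y1 hy1re hy1im) hy1d _ hstripopen)
    rintro s ⟨y, ⟨hyr, hyi⟩, rfl⟩
    obtain ⟨b, hb⟩ := conj_line V c hN g h y (hpos y hyi)
    exact ⟨b, (hback y hyr hyi _ b).2 hb⟩
  have hnc : br (cm c.N) (cm (c.conj g)) ≠ 0 := by
    intro h0
    apply hg
    rw [← cm_br] at h0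
    have h1 : c.N * c.conj g - c.conj g * c.N = 0 := by
      apply S06_cm_inj
      rw [h0]
      ext i j
      simp [cm]
    exact sub_eq_zero.1 h1
  have nilN : IsNilpotent (cm c.N) := ⟨n, hNn⟩
  have nilN' : IsNilpotent (cm (c.conj g)) := ⟨n, nil_conj V c g⟩
  obtain ⟨α, r, hα, hAN'⟩ := field_form hS _ _ hNU hN'U nilN nilN' hAN hnc
  have hαim := alpha_real hS _ _ hNU hN'U nilN nilN' hAN α r hα hAN'
  have hαre : ((α.re : ℝ) : ℂ) = α := by
    apply Complex.ext
    · simp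
    · simp [hαim]
  obtain ⟨rel1, rel2⟩ := relations hS _ _ hNU hN'U nilN nilN' hAN α.re r (by rw [hαre]; exact hAN')
  -- rationality
  obtain ⟨i0, j0, hij⟩ : ∃ i j, c.N i j ≠ 0 := by
    by_contra hcon
    push Not at hcon
    apply hN
    ext i j
    exact hcon i j
  set L : Matrix (Fin n) (Fin n) ℚ := c.N * c.conj g - c.conj g * c.N with hL
  have hLc : br (cm c.N) (cm (c.conj g)) = cm L := (cm_br _ _).symm
  rw [hLc] at rel1 rel2
  rw [← cm_br] at rel1 rel2
  set q : ℚ := (c.N * L - L * c.N) i0 j0 / (2 * c.N i0 j0) with hq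
  have hqα : (q : ℝ) = α.re := by
    have e1 := congrFun (congrFun rel1 i0) j0
    simp only [cm, Matrix.map_apply, Matrix.smul_apply, smul_eq_mul] at e1
    have e2 : (((c.N * L - L * c.N) i0 j0 : ℚ) : ℝ) = 2 * α.re * ((c.N i0 j0 : ℚ) : ℝ) := by
      have e3 : ((((c.N * L - L * c.N) i0 j0 : ℚ) : ℝ) : ℂ) =
          ((2 * α.re * ((c.N i0 j0 : ℚ) : ℝ) : ℝ) : ℂ) := by
        push_cast
        push_cast at e1
        exact e1
      exact_mod_cast e3
    rw [hq]
    push_cast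
    rw [e2]
    have e4 : ((c.N i0 j0 : ℚ) : ℝ) ≠ 0 := by exact_mod_cast hij
    field_simp
  have hq0 : q ≠ 0 := by
    intro h0
    apply hα
    rw [← hαre, ← hqα, h0]
    simp
  refine ⟨q, r, hq0, ?_, ?_, ?_⟩
  · apply S06_cm_inj
    rw [rel1, ← hqα]
    ext i j
    simp [cm]
  · apply S06_cm_inj
    rw [rel2, ← hqα]
    ext i j
    simp [cm]
  · intro y hyr hyi
    have hqα' : ((q : ℝ) : ℂ) = α := by rw [hqα, hαre]
    rw [hqα']
    constructor
    · rw [← hback y hyr hyi]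
      have e1 := hAjet _ hN'U.2.2 (u y)
      rw [hAN'] at e1
      simpa using e1
    · have hLjet := hAbr _ _ hNU.2.2 hN'U.2.2
      have e1 := hAjet _ hLjet.1 (u y)
      rw [hLjet.2, hAN, hAN'] at e1
      have e2 : (Polynomial.derivative (1 : Polynomial ℂ) *
          (Polynomial.C α * (Polynomial.X - Polynomial.C r) ^ 2) -
          1 * Polynomial.derivative (Polynomial.C α * (Polynomial.X - Polynomial.C r) ^ 2)).eval
            (u y) = -(2 * α * (u y - r)) := by
        simp [Polynomial.derivative_pow]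
        ring
      rw [e2, hback y hyr hyi] at e1
      have e3 : br (cm c.N) (cm (c.conj g)) + (2 * α * (u y - r)) • cm c.N =
          br (cm c.N) (cm (c.conj g)) - (-(2 * α * (u y - r))) • cm c.N := by
        rw [neg_smul, sub_neg_eq_add]
      rw [e3]
      exact e1

end MP2794d1
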