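import Pool.Agent.Lib.MP_2794d1_ag.H01
import Pool.Agent.Lib.MP_2794d1_ag.H03
import Pool.Agent.Lib.MP_2794d1_ag.S04
import Pool.Agent.Lib.MP_2794d1_ag.S06
import Pool.Agent.Lib.MP_2794d1_ag.E04

/-!
S10: the generic Mumford-Tate Lie algebra. Put N, N', L rational as in H03, h z = hmat ... (w z), μ_z = h z + t.
Uniqueness of gradings: gr_unique. m from H03 (A = the integral matrix of one CM point z0: it preserves F_{z0} and is
real, so br μ A = 0 by comm_of_FEnd: hcomm). genericMT V ≤ m: m belongs to the set (IsLie, and every grading at z is μ_z ∈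
cx m). 
mem: let y = im (w z) ≠ 0. h(z+2) - 2 h(z+1) + h z = (i/y) • N (w(z+1) = w z + 1, w (z+2) = w z + 2: the coefficients are
(i/(2qy)) (1, x, q(x²+y²)), second difference (i/(2qy)) (0, 0, 2q)). So for every m' in the set (i/y) • cm N ∈ cx m'
(differences of gradings); with l : ℂ →ₗ[ℚ] ℚ, l (i/y) ≠ 0, H01 gives
N ∈ m'.
grading: by H01, μ_z.map l belongs to every m' in the set, hence to the infimum, hence μ_z ∈ cx (genericMT V).
lie: an infimum of IsLie subspaces is IsLie.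
sv1, line: X ∈ genericMT V ≤ m: X = a N + b N' + c L + Z; cm Z commutes with N, N' (so with L) and t, so with μ_z:
br μ_z (cm Z) = 0, cm Z ∈ FEnd_z 0 (FEnd0_of_comm). N' - q w² N ∈ FEnd_z 0, L + 2q w N ∈ FEnd_z 0. So
cm X - (a + b q w² - 2 c q w) • N ∈ FEnd_z 0. And N ∈ FEnd_z (-1) (N_trans), FEnd_z 0 ≤ FEnd_z (-1).
ne: N_not_mem.
-/

namespace MP2794d1

open Matrix Complex Filter Topology

theorem S10_diff {n : ℕ} (N N' L : Matrix (Fin n) (Fin n) ℂ) (α : ℝ) (hα : α ≠ 0) (w : ℂ)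
    (hw : w.im ≠ 0) :
    hmat N N' L α (w + 2) - (2 : ℂ) • hmat N N' L α (w + 1) + hmat N N' L α w =
      (Complex.I / (w.im : ℂ)) • N := by
  have h1 : (w + 1).im = w.im := by simp
  have h2 : (w + 2).im = w.im := by simp
  have h3 : (w + 1).re = w.re + 1 := by simp
  have h4 : (w + 2).re = w.re + 2 := by simp
  have hα' : (α : ℂ) ≠ 0 := by exact_mod_cast hα
  have hw' : (w.im : ℂ) ≠ 0 := by exact_mod_cast hw
  unfold hmat Kmat
  rw [h1, h2, h3, h4, Complex.normSq_apply, Complex.normSq_apply, Complex.normSq_apply, h1, h2, h3,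
    h4]
  ext i j
  simp only [Matrix.add_apply, Matrix.sub_apply, Matrix.smul_apply, smul_eq_mul]
  push_cast
  field_simp
  ring

theorem S10_grading_eq {n : ℕ} (V : PolVHS n) (z : ℂ) (hz : 0 < z.im)
    (μ ν : Matrix (Fin n) (Fin n) ℂ) (hμ : IsGrading V z μ)
    (hν : IsGr V.wt (fun p => V.F p z) ν) : μ = ν :=
  gr_unique (V.phs z hz) (fun p x hx => hμ p x hx) hν

theorem S10_lie {n : ℕ} (V : PolVHS n) : IsLie (genericMT V) := by
  intro X hX Y hY
  unfold genericMT at hX hY ⊢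
  rw [Submodule.mem_sInf] at hX hY ⊢
  intro m hm
  exact hm.1 X (hX m hm) Y (hY m hm)

theorem S10_smul_mem {n : ℕ} (N : Matrix (Fin n) (Fin n) ℚ)
    (m : Submodule ℚ (Matrix (Fin n) (Fin n) ℚ)) (b : ℂ) (hb : b ≠ 0)
    (h : b • cm N ∈ cx (m : Set (Matrix (Fin n) (Fin n) ℚ))) : N ∈ m := by
  have h1 := (mem_cx_iff m (b • cm N)).1 h
  have hb' : b ∉ (⊥ : Submodule ℚ ℂ) := by simpa using hb
  obtain ⟨l, hl, -⟩ := Submodule.exists_le_ker_of_notMem hb'
  have h2 := h1 l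
  have h3 : (b • cm N).map l = (l b) • N := by
    ext i j
    simp only [Matrix.map_apply, Matrix.smul_apply, smul_eq_mul, cm]
    have h4 : b * ((N i j : ℚ) : ℂ) = (N i j) • b := by
      rw [Rat.smul_def, mul_comm]
    rw [h4, map_smul, smul_eq_mul, mul_comm]
  rw [h3] at h2
  have h5 := m.smul_mem (l b)⁻¹ h2
  rwa [smul_smul, inv_mul_cancel₀ hl, one_smul] at h5

theorem shimura_line {n : ℕ} (V : PolVHS n) (c : Cusp V) (hN : c.N ≠ 0) (g : V.grp) {a : ℝ}
    {u : ℂ → ℂ} {F0 : ℤ → Submodule ℂ (Fin n → ℂ)} (h : StageOne V c a u F0) (q : ℚ) (hq : q ≠ 0)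
    (rel1 : c.N * (c.N * c.conj g - c.conj g * c.N) - (c.N * c.conj g - c.conj g * c.N) * c.N =
      (2 * q) • c.N)
    (rel2 : c.conj g * (c.N * c.conj g - c.conj g * c.N) -
      (c.N * c.conj g - c.conj g * c.N) * c.conj g = (-(2 * q)) • c.conj g)
    (w : ℂ → ℂ) (hshift : ∀ z : ℂ, 0 < z.im → w (z + 1) = w z + 1)
    (hw : ∀ z : ℂ, 0 < z.im →
        cm (c.conj g) - (((q : ℝ) : ℂ) * (w z) ^ 2) • cm c.N ∈ FEnd (fun p => V.F p z) 0 ∧
        br (cm c.N) (cm (c.conj g)) + (2 * ((q : ℝ) : ℂ) * (w z)) • cm c.N ∈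
          FEnd (fun p => V.F p z) 0)
    (t : Matrix (Fin n) (Fin n) ℂ) (ht : br t (cm c.N) = 0) (ht' : br t (cm (c.conj g)) = 0)
    (hμ : ∀ z : ℂ, 0 < z.im → (w z).im ≠ 0 ∧
        IsGr V.wt (fun p => V.F p z)
          (hmat (cm c.N) (cm (c.conj g)) (br (cm c.N) (cm (c.conj g))) q (w z) + t))
    (z0 : ℂ) (hz0 : 0 < z0.im) (H0 : ℝ) (hcm : IsCM V z0 H0) : IsShimuraLine V c.N := by
  obtain ⟨A, -, hsep, hA⟩ := hcm
  have hqR : (q : ℝ) ≠ 0 := by exact_mod_cast hq
  -- the integral matrix commutes with the grading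
  have hAF : im A ∈ FEnd (fun p => V.F p z0) 0 := by
    intro p x hx
    have h1 := hA p x hx
    simpa using h1
  have hAr : mconj (im A) = im A := by
    ext i j
    simp [mconj, im]
  have hAc := comm_of_FEnd (V.phs z0 hz0) (hμ z0 hz0).2 (im A) hAF (by rw [hAr]; exact hAF)
  obtain ⟨m, hLie, hcx, hdec⟩ := rational_algebra c.N (c.conj g) q hq rel1 rel2 t
    (sub_eq_zero.1 ht) (sub_eq_zero.1 ht') A hsep (w z0) (by
      rw [cm_br]
      exact sub_eq_zero.1 hAc)
  have hset : m ∈ {m : Submodule ℚ (Matrix (Fin n) (Fin n) ℚ) | IsLie m ∧ ∀ z : ℂ, 0 < z.im →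
      ∀ μ, IsGrading V z μ → μ ∈ cx (m : Set (Matrix (Fin n) (Fin n) ℚ))} := by
    refine ⟨hLie, fun z hz μ hμ' => ?_⟩
    rw [S10_grading_eq V z hz μ _ hμ' (hμ z hz).2]
    have h1 := hcx (w z)
    rwa [cm_br] at h1
  have hle : genericMT V ≤ m := sInf_le hset
  -- decomposition at a point
  have hZ : ∀ z : ℂ, 0 < z.im → ∀ Z : Matrix (Fin n) (Fin n) ℚ, Z * c.N = c.N * Z →
      Z * c.conj g = c.conj g * Z → t * cm Z = cm Z * t → cm Z ∈ FEnd (fun p => V.F p z) 0 := by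
    intro z hz Z hZ1 hZ2 hZ3
    apply FEnd0_of_comm (V.phs z hz) (hμ z hz).2
    have e1 : cm Z * cm c.N = cm c.N * cm Z := by
      have h1 := congrArg cm hZ1
      ext i j
      have h2 := congrFun (congrFun h1 i) j
      simp only [cm, Matrix.map_apply, Matrix.mul_apply] at h2 ⊢
      push_cast at h2
      exact h2
    have e2 : cm Z * cm (c.conj g) = cm (c.conj g) * cm Z := by
      have h1 := congrArg cm hZ2
      ext i j
      have h2 := congrFun (congrFun h1 i) j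
      simp only [cm, Matrix.map_apply, Matrix.mul_apply] at h2 ⊢
      push_cast at h2
      exact h2
    have e3 : br (cm c.N) (cm (c.conj g)) * cm Z = cm Z * br (cm c.N) (cm (c.conj g)) := by
      unfold br
      rw [Matrix.sub_mul, Matrix.mul_sub, Matrix.mul_assoc, ← e2, ← Matrix.mul_assoc, ← e1,
        Matrix.mul_assoc (cm (c.conj g)), ← e1, ← Matrix.mul_assoc (cm (c.conj g)), ← e2,
        Matrix.mul_assoc, Matrix.mul_assoc]
    have e4 : hmat (cm c.N) (cm (c.conj g)) (br (cm c.N) (cm (c.conj g))) q (w z) * cm Z =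
        cm Z * hmat (cm c.N) (cm (c.conj g)) (br (cm c.N) (cm (c.conj g))) q (w z) := by
      unfold hmat Kmat
      rw [Matrix.smul_mul, Matrix.mul_smul, Matrix.add_mul, Matrix.add_mul, Matrix.mul_add,
        Matrix.mul_add, Matrix.smul_mul, Matrix.smul_mul, Matrix.mul_smul, Matrix.mul_smul, e1, e2,
        e3]
    show (hmat (cm c.N) (cm (c.conj g)) (br (cm c.N) (cm (c.conj g))) q (w z) + t) * cm Z -
      cm Z * (hmat (cm c.N) (cm (c.conj g)) (br (cm c.N) (cm (c.conj g))) q (w z) + t) = 0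
    rw [Matrix.add_mul, Matrix.mul_add, e4, hZ3, sub_self]
  have hline : ∀ z : ℂ, 0 < z.im → ∀ X ∈ genericMT V, ∃ b : ℂ,
      cm X - b • cm c.N ∈ FEnd (fun p => V.F p z) 0 := by
    intro z hz X hX
    obtain ⟨a1, b1, c1, Z, hXe, hZ1, hZ2, hZ3⟩ := hdec X (hle hX)
    refine ⟨(a1 : ℂ) + (b1 : ℂ) * (((q : ℝ) : ℂ) * (w z) ^ 2) -
      (c1 : ℂ) * (2 * ((q : ℝ) : ℂ) * (w z)), ?_⟩
    have e1 : cm X - ((a1 : ℂ) + (b1 : ℂ) * (((q : ℝ) : ℂ) * (w z) ^ 2) -
        (c1 : ℂ) * (2 * ((q : ℝ) : ℂ) * (w z))) • cm c.N =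
        (b1 : ℂ) • (cm (c.conj g) - (((q : ℝ) : ℂ) * (w z) ^ 2) • cm c.N) +
        (c1 : ℂ) • (br (cm c.N) (cm (c.conj g)) + (2 * ((q : ℝ) : ℂ) * (w z)) • cm c.N) +
        cm Z := by
      rw [← cm_br, hXe]
      ext i j
      simp only [cm, Matrix.map_apply, Matrix.add_apply, Matrix.sub_apply, Matrix.smul_apply,
        smul_eq_mul]
      push_cast
      ring
    rw [e1]
    exact Submodule.add_mem _ (Submodule.add_mem _ (Submodule.smul_mem _ _ (hw z hz).1)
      (Submodule.smul_mem _ _ (hw z hz).2)) (hZ z hz Z hZ1 hZ2 hZ3)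
  refine ⟨?_, S10_lie V, ?_, ?_, ?_, ?_⟩
  · -- grading
    intro z hz
    refine ⟨_, fun p x hx => (hμ z hz).2 p x hx, ?_⟩
    rw [mem_cx_iff]
    intro l
    unfold genericMT
    rw [Submodule.mem_sInf]
    intro m' hm'
    exact (mem_cx_iff m' _).1 (hm'.2 z hz _ (fun p x hx => (hμ z hz).2 p x hx)) l
  · -- sv1
    intro z hz X hX p x hx
    obtain ⟨b, hb⟩ := hline z hz X hX
    have h1 : (cm X - b • cm c.N) *ᵥ x ∈ V.F (p + 0) z := hb p x hx
    have h2 : cm c.N *ᵥ x ∈ V.F (p + -1) z := N_trans V c h z hz p x hx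
    have h3 : V.F (p + 0) z ≤ V.F (p - 1) z := (V.phs z hz).anti (p - 1) (p + 0) (by omega)
    have h4 : cm X *ᵥ x = (cm X - b • cm c.N) *ᵥ x + b • (cm c.N *ᵥ x) := by
      rw [Matrix.sub_mulVec, Matrix.smul_mulVec]
      abel
    rw [h4]
    exact (V.F (p - 1) z).add_mem (h3 h1) ((V.F (p - 1) z).smul_mem b h2)
  · -- line
    intro z hz X hX
    obtain ⟨b, hb⟩ := hline z hz X hX
    refine ⟨b, fun p x hx => ?_⟩
    have h1 : (cm X - b • cm c.N) *ᵥ x ∈ V.F (p + 0) z := hb p x hx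
    simpa using h1
  · -- mem
    unfold genericMT
    rw [Submodule.mem_sInf]
    intro m' hm'
    have hI : 0 < (Complex.I).im := by simp
    have hI1 : 0 < (Complex.I + 1).im := by simp
    have hI2 : 0 < (Complex.I + 2).im := by simp
    have w1 := hshift Complex.I hI
    have w2 : w (Complex.I + 2) = w Complex.I + 2 := by
      have h1 := hshift (Complex.I + 1) hI1
      have h2 : Complex.I + 1 + 1 = Complex.I + 2 := by ring
      rw [h2, w1] at h1
      rw [h1]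
      ring
    have k0 := hm'.2 Complex.I hI _ (fun p x hx => (hμ Complex.I hI).2 p x hx)
    have k1 := hm'.2 (Complex.I + 1) hI1 _ (fun p x hx => (hμ (Complex.I + 1) hI1).2 p x hx)
    have k2 := hm'.2 (Complex.I + 2) hI2 _ (fun p x hx => (hμ (Complex.I + 2) hI2).2 p x hx)
    rw [w1] at k1
    rw [w2] at k2
    have hne := (hμ Complex.I hI).1
    have hd := S10_diff (cm c.N) (cm (c.conj g)) (br (cm c.N) (cm (c.conj g))) q hqR
      (w Complex.I) hne
    apply S10_smul_mem c.N m' (Complex.I / ((w Complex.I).im : ℂ))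
    · apply div_ne_zero Complex.I_ne_zero
      exact_mod_cast hne
    · rw [← hd]
      have h3 : hmat (cm c.N) (cm (c.conj g)) (br (cm c.N) (cm (c.conj g))) q (w Complex.I + 2) -
          (2 : ℂ) • hmat (cm c.N) (cm (c.conj g)) (br (cm c.N) (cm (c.conj g))) q
            (w Complex.I + 1) +
          hmat (cm c.N) (cm (c.conj g)) (br (cm c.N) (cm (c.conj g))) q (w Complex.I) =
          (hmat (cm c.N) (cm (c.conj g)) (br (cm c.N) (cm (c.conj g))) q (w Complex.I + 2) + t) -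
          (2 : ℂ) • (hmat (cm c.N) (cm (c.conj g)) (br (cm c.N) (cm (c.conj g))) q
            (w Complex.I + 1) + t) +
          (hmat (cm c.N) (cm (c.conj g)) (br (cm c.N) (cm (c.conj g))) q (w Complex.I) + t) := by
        rw [smul_add, two_smul ℂ t]
        abel
      rw [h3]
      exact Submodule.add_mem _ (Submodule.sub_mem _ k2 (Submodule.smul_mem _ _ k1)) k0
  · -- ne
    intro z hz hall
    apply N_not_mem V c hN z hz
    intro p x hx
    have h1 := hall p x hx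
    simpa using h1

end MP2794d1
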