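import Pool.Agent.Lib.MP_2794d1_ag.E03

/-!
E06: positivity. In an adapted basis put J = diagonal (I^(wt - 2 d a))⁻¹... With x = S⁻¹ X S and D := diagonal
(I^(wt - 2 d a)) = Sᵀ (im Q) (mconj S) (so im Q = (Sᵀ)⁻¹ D (mconj S)⁻¹): Skew gives
X = - (mconj S) D⁻¹ xᵀ D (mconj S)⁻¹ , hence (conjugating, mconj D = D⁻¹) mconj X = - S D x^H D⁻¹ S⁻¹ and
trace (X * mconj X) = - trace (x D x^H D⁻¹) = - ∑_{a,b} |x a b|² I^(wt - 2 d b) I^(-(wt - 2 d a)) =
- ∑ |x a b|² (-1)^(d a - d b) (I^(2(d a - d b))). If br μ X = 0, x a b ≠ 0 only for d a = d b: trace = -∑|x a b|²; if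
br μ X = X, only for d a = d b + 1: trace = +∑|x a b|². X ≠ 0 gives some x a b ≠ 0.
-/

namespace MP2794d1

open Matrix Complex Filter Topology

theorem e06_mul {n : ℕ} (A B : Matrix (Fin n) (Fin n) ℂ) :
    mconj (A * B) = mconj A * mconj B := by
  unfold mconj
  exact Matrix.map_mul

theorem e06_one {n : ℕ} : mconj (1 : Matrix (Fin n) (Fin n) ℂ) = 1 := by
  unfold mconj
  exact Matrix.map_one _ (map_zero _) (map_one _)

theorem e06_mconj_mconj {n : ℕ} (A : Matrix (Fin n) (Fin n) ℂ) : mconj (mconj A) = A := by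
  ext i j
  simp [mconj]

theorem e06_conj_zpow (k : ℤ) : (starRingEnd ℂ) (Complex.I ^ k) = Complex.I ^ (-k) := by
  rw [map_zpow₀, Complex.conj_I, ← Complex.inv_I, _root_.inv_zpow, _root_.zpow_neg]

theorem e06_key {n : ℕ} {wt : ℤ} {Q : Matrix (Fin n) (Fin n) ℤ}
    {Fl : ℤ → Submodule ℂ (Fin n → ℂ)} {S : Matrix (Fin n) (Fin n) ℂ} {d : Fin n → ℤ}
    (hS : Adapted wt Q Fl S d) (X : Matrix (Fin n) (Fin n) ℂ) (hX : Skew Q X) :
    Matrix.trace (X * mconj X) =
      -∑ a, ∑ b, ((Complex.normSq ((S⁻¹ * X * S) a b) : ℝ) : ℂ) * Complex.I ^ (2 * (d a - d b)) := by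
  have hSu : IsUnit S.det := hS.inv
  have hSS : S * S⁻¹ = 1 := Matrix.mul_nonsing_inv S hSu
  have hSS' : S⁻¹ * S = 1 := Matrix.nonsing_inv_mul S hSu
  have hT : mconj S * mconj S⁻¹ = 1 := by rw [← e06_mul, hSS, e06_one]
  have hSt : S⁻¹ᵀ * Sᵀ = 1 := by rw [← Matrix.transpose_mul, hSS, Matrix.transpose_one]
  set D : Matrix (Fin n) (Fin n) ℂ := Matrix.diagonal (fun a => Complex.I ^ (wt - 2 * d a)) with hD
  have hon : Sᵀ * im Q * mconj S = D := hS.on
  set x := S⁻¹ * X * S with hx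
  set z := mconj S⁻¹ * X * mconj S with hz
  have e1 : xᵀ * D = Sᵀ * (Xᵀ * im Q) * mconj S := by
    calc xᵀ * D = Sᵀ * Xᵀ * (S⁻¹ᵀ * Sᵀ) * im Q * mconj S := by
          rw [← hon, hx, Matrix.transpose_mul, Matrix.transpose_mul]
          simp only [Matrix.mul_assoc]
      _ = _ := by rw [hSt]; simp only [Matrix.mul_assoc, Matrix.mul_one]
  have e2 : D * z = Sᵀ * (im Q * X) * mconj S := by
    calc D * z = Sᵀ * im Q * (mconj S * mconj S⁻¹) * X * mconj S := by
          rw [← hon, hz]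
          simp only [Matrix.mul_assoc]
      _ = _ := by rw [hT]; simp only [Matrix.mul_assoc, Matrix.mul_one]
  have key : xᵀ * D + D * z = 0 := by
    rw [e1, e2, ← Matrix.add_mul, ← Matrix.mul_add, hX, Matrix.mul_zero, Matrix.zero_mul]
  have hzc : mconj z = S⁻¹ * mconj X * S := by
    rw [hz, e06_mul, e06_mul, e06_mconj_mconj, e06_mconj_mconj]
  have htr : Matrix.trace (X * mconj X) = Matrix.trace (x * mconj z) := by
    have : x * mconj z = S⁻¹ * (X * mconj X * S) := by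
      calc x * mconj z = S⁻¹ * X * (S * S⁻¹) * mconj X * S := by
            rw [hzc, hx]; simp only [Matrix.mul_assoc]
        _ = _ := by rw [hSS]; simp only [Matrix.mul_assoc, Matrix.mul_one]
    rw [this, Matrix.trace_mul_comm S⁻¹, Matrix.mul_assoc, hSS, Matrix.mul_one]
  rw [htr, Matrix.trace, ← Finset.sum_neg_distrib]
  refine Finset.sum_congr rfl fun a _ => ?_
  rw [Matrix.diag_apply, Matrix.mul_apply, ← Finset.sum_neg_distrib]
  refine Finset.sum_congr rfl fun b _ => ?_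
  have hk := congrFun (congrFun key b) a
  rw [Matrix.add_apply, hD, Matrix.mul_diagonal, Matrix.diagonal_mul, Matrix.transpose_apply,
    Matrix.zero_apply] at hk
  have hI : ∀ k : ℤ, Complex.I ^ k ≠ 0 := fun k => zpow_ne_zero _ Complex.I_ne_zero
  have hzba : z b a = -(x a b * Complex.I ^ (2 * (d b - d a))) := by
    have h1 : Complex.I ^ (wt - 2 * d b) * z b a = Complex.I ^ (wt - 2 * d b) *
        (-(x a b * Complex.I ^ (2 * (d b - d a)))) := by
      have h2 : Complex.I ^ (wt - 2 * d b) * (-(x a b * Complex.I ^ (2 * (d b - d a)))) =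
          -(x a b * (Complex.I ^ (wt - 2 * d b) * Complex.I ^ (2 * (d b - d a)))) := by ring
      rw [h2, ← zpow_add₀ Complex.I_ne_zero]
      have h3 : wt - 2 * d b + 2 * (d b - d a) = wt - 2 * d a := by ring
      rw [h3]
      linear_combination hk
    exact mul_left_cancel₀ (hI _) h1
  have h4 : mconj z b a = (starRingEnd ℂ) (z b a) := rfl
  rw [h4, hzba, map_neg, map_mul, e06_conj_zpow, Complex.normSq_eq_conj_mul_self]
  have h5 : -(2 * (d b - d a)) = 2 * (d a - d b) := by ring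
  rw [h5]
  ring

theorem e06_ne {n : ℕ} {S X : Matrix (Fin n) (Fin n) ℂ} (hSu : IsUnit S.det) (hne : X ≠ 0) :
    ∃ a b, (S⁻¹ * X * S) a b ≠ 0 := by
  by_contra hcon
  push Not at hcon
  apply hne
  have hSS : S * S⁻¹ = 1 := Matrix.mul_nonsing_inv S hSu
  have hx : S⁻¹ * X * S = 0 := by
    ext a b
    exact hcon a b
  calc X = (S * S⁻¹) * X * (S * S⁻¹) := by rw [hSS, Matrix.one_mul, Matrix.mul_one]
    _ = S * (S⁻¹ * X * S) * S⁻¹ := by simp only [Matrix.mul_assoc]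
    _ = 0 := by rw [hx, Matrix.mul_zero, Matrix.zero_mul]

theorem e06_br {n : ℕ} {wt : ℤ} {Q : Matrix (Fin n) (Fin n) ℤ}
    {Fl : ℤ → Submodule ℂ (Fin n → ℂ)} {S : Matrix (Fin n) (Fin n) ℂ} {d : Fin n → ℤ}
    (hS : Adapted wt Q Fl S d) {μ : Matrix (Fin n) (Fin n) ℂ} (hμ : IsGr wt Fl μ)
    (X : Matrix (Fin n) (Fin n) ℂ) (a b : Fin n) :
    (S⁻¹ * br μ X * S) a b = ((d a : ℂ) - (d b : ℂ)) * (S⁻¹ * X * S) a b := by
  have hSu : IsUnit S.det := hS.inv
  have hSS' : S⁻¹ * S = 1 := Matrix.nonsing_inv_mul S hSu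
  have hm := gr_eq hS μ hμ
  have h1 : S⁻¹ * br μ X * S = Matrix.diagonal (fun a => (d a : ℂ)) * (S⁻¹ * X * S) -
      (S⁻¹ * X * S) * Matrix.diagonal (fun a => (d a : ℂ)) := by
    have e1 : S⁻¹ * (μ * X) * S = (S⁻¹ * S) * Matrix.diagonal (fun a => (d a : ℂ)) *
        (S⁻¹ * X * S) := by
      rw [hm]; simp only [Matrix.mul_assoc]
    have e2 : S⁻¹ * (X * μ) * S = (S⁻¹ * X * S) * Matrix.diagonal (fun a => (d a : ℂ)) *
        (S⁻¹ * S) := by
      rw [hm]; simp only [Matrix.mul_assoc]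
    rw [hSS', Matrix.one_mul] at e1
    rw [hSS', Matrix.mul_one] at e2
    rw [← e1, ← e2]
    unfold br
    rw [Matrix.mul_sub, Matrix.sub_mul]
  rw [h1, Matrix.sub_apply, Matrix.diagonal_mul, Matrix.mul_diagonal]
  ring

theorem e06_sum_pos {n : ℕ} {x : Matrix (Fin n) (Fin n) ℂ} (h : ∃ a b, x a b ≠ 0) :
    0 < ∑ a, ∑ b, Complex.normSq (x a b) := by
  obtain ⟨a, b, hab⟩ := h
  refine Finset.sum_pos' (fun i _ => Finset.sum_nonneg fun j _ => Complex.normSq_nonneg _)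
    ⟨a, Finset.mem_univ _, ?_⟩
  exact Finset.sum_pos' (fun j _ => Complex.normSq_nonneg _)
    ⟨b, Finset.mem_univ _, Complex.normSq_pos.mpr hab⟩

theorem pos0 {n : ℕ} {wt : ℤ} {Q : Matrix (Fin n) (Fin n) ℤ}
    {Fl : ℤ → Submodule ℂ (Fin n → ℂ)} (h : IsPHS wt Q Fl) {μ : Matrix (Fin n) (Fin n) ℂ}
    (hμ : IsGr wt Fl μ) (X : Matrix (Fin n) (Fin n) ℂ) (hX : Skew Q X) (h0 : br μ X = 0)
    (hne : X ≠ 0) : (Matrix.trace (X * mconj X)).re < 0 := by
  obtain ⟨S, d, hS⟩ := exists_adapted h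
  have h1 : ∀ a b, ((Complex.normSq ((S⁻¹ * X * S) a b) : ℝ) : ℂ) *
      Complex.I ^ (2 * (d a - d b)) = ((Complex.normSq ((S⁻¹ * X * S) a b) : ℝ) : ℂ) := by
    intro a b
    by_cases hz : (S⁻¹ * X * S) a b = 0
    · rw [hz]; simp
    · have h2 := e06_br hS hμ X a b
      rw [h0, Matrix.mul_zero, Matrix.zero_mul, Matrix.zero_apply] at h2
      have h3 : (d a : ℂ) - (d b : ℂ) = 0 := by
        rcases mul_eq_zero.mp h2.symm with h3 | h3
        · exact h3
        · exact absurd h3 hz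
      have h4 : d a = d b := by exact_mod_cast sub_eq_zero.mp h3
      rw [h4]; simp
  rw [e06_key hS X hX, Finset.sum_congr rfl fun a _ => Finset.sum_congr rfl fun b _ => h1 a b]
  have h5 := e06_sum_pos (e06_ne (X := X) hS.inv hne)
  have h6 : (-∑ a, ∑ b, ((Complex.normSq ((S⁻¹ * X * S) a b) : ℝ) : ℂ)).re =
      -∑ a, ∑ b, Complex.normSq ((S⁻¹ * X * S) a b) := by
    rw [Complex.neg_re, Complex.re_sum]
    congr 1
    refine Finset.sum_congr rfl fun a _ => ?_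
    rw [Complex.re_sum]
    exact Finset.sum_congr rfl fun b _ => Complex.ofReal_re _
  rw [h6]
  linarith

theorem pos1 {n : ℕ} {wt : ℤ} {Q : Matrix (Fin n) (Fin n) ℤ}
    {Fl : ℤ → Submodule ℂ (Fin n → ℂ)} (h : IsPHS wt Q Fl) {μ : Matrix (Fin n) (Fin n) ℂ}
    (hμ : IsGr wt Fl μ) (X : Matrix (Fin n) (Fin n) ℂ) (hX : Skew Q X) (h0 : br μ X = X)
    (hne : X ≠ 0) : 0 < (Matrix.trace (X * mconj X)).re := by
  obtain ⟨S, d, hS⟩ := exists_adapted h
  have h1 : ∀ a b, ((Complex.normSq ((S⁻¹ * X * S) a b) : ℝ) : ℂ) *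
      Complex.I ^ (2 * (d a - d b)) = -((Complex.normSq ((S⁻¹ * X * S) a b) : ℝ) : ℂ) := by
    intro a b
    by_cases hz : (S⁻¹ * X * S) a b = 0
    · rw [hz]; simp
    · have h2 := e06_br hS hμ X a b
      rw [h0] at h2
      have h3 : (d a : ℂ) - (d b : ℂ) = 1 := by
        have h3 : ((d a : ℂ) - (d b : ℂ)) * (S⁻¹ * X * S) a b = 1 * (S⁻¹ * X * S) a b := by
          rw [one_mul]; exact h2.symm
        exact mul_right_cancel₀ hz h3
      have h4 : d a - d b = 1 := by exact_mod_cast h3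
      rw [h4]
      have h5 : Complex.I ^ (2 * (1 : ℤ)) = -1 := by
        have : Complex.I ^ (2 * (1 : ℤ)) = Complex.I ^ (2 : ℕ) := by norm_cast
        rw [this, Complex.I_sq]
      rw [h5]; ring
  rw [e06_key hS X hX, Finset.sum_congr rfl fun a _ => Finset.sum_congr rfl fun b _ => h1 a b]
  have h5 := e06_sum_pos (e06_ne (X := X) hS.inv hne)
  have h6 : (-∑ a, ∑ b, -((Complex.normSq ((S⁻¹ * X * S) a b) : ℝ) : ℂ)).re =
      ∑ a, ∑ b, Complex.normSq ((S⁻¹ * X * S) a b) := by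
    simp only [Finset.sum_neg_distrib, neg_neg]
    rw [Complex.re_sum]
    refine Finset.sum_congr rfl fun a _ => ?_
    rw [Complex.re_sum]
    exact Finset.sum_congr rfl fun b _ => Complex.ofReal_re _
  rw [h6]
  exact h5

theorem trace_conj_im {n : ℕ} (X : Matrix (Fin n) (Fin n) ℂ) :
    (Matrix.trace (X * mconj X)).im = 0 := by
  have h1 : (starRingEnd ℂ) (Matrix.trace (X * mconj X)) = Matrix.trace (X * mconj X) := by
    have h2 : (starRingEnd ℂ) (Matrix.trace (X * mconj X)) =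
        Matrix.trace (mconj (X * mconj X)) := by
      simp only [Matrix.trace, Matrix.diag_apply, map_sum]
      rfl
    rw [h2, e06_mul, e06_mconj_mconj, Matrix.trace_mul_comm]
  exact Complex.conj_eq_iff_im.mp h1

end MP2794d1
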