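import Pool.Agent.Lib.MP_2794d1_ag.J04

/-!
J05: The harmonic equation. Write θ = TV V, φ = Db (JV V) = - mconj θ. Differentiate br J θ = -θ (valid on the upper half
plane, so near z) with Db: br φ θ + br J (Db θ) = - Db θ. Differentiate br J (mconj θ) = mconj θ with Dz; with
Dz (mconj θ) = mconj (Db θ): br θ (mconj θ) + br J (mconj (Db θ)) = mconj (Db θ); also, since φ = - mconj θ near z,
Dz φ = - mconj (Db θ), and Dz φ = Dz (Db J) = Db (Dz J) = Db θ. So with κ = Db θ: mconj κ = -κ, and
br J κ + κ = br θ φ, - br θ φ - br J κ = - κ. Adding: κ = br θ φ.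
-/

namespace MP2794d1

open Matrix Complex Filter Topology
open scoped ContDiff

variable {n : ℕ} (V : PolVHS n) {z : ℂ} (hz : 0 < z.im)
include hz

omit hz in
theorem j05_neg {X : ℂ → Matrix (Fin n) (Fin n) ℂ} (hX : SmA X z) :
    Dz (fun y => -X y) z = -Dz X z ∧ Db (fun y => -X y) z = -Db X z := by
  have h1 : (fun y => -X y) = fun y => (-1 : ℂ) • X y := by
    funext y
    rw [neg_smul, one_smul]
  rw [h1, Dz_smulc _ hX, Db_smulc _ hX, neg_smul, neg_smul, one_smul, one_smul]
  exact ⟨rfl, rfl⟩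

theorem TV_db_conj : mconj (Db (TV V) z) = -Db (TV V) z := by
  have hJ := JV_smooth V hz
  have hT := TV_smooth V hz
  have h1 : Dz (Db (JV V)) z = Db (TV V) z := Dz_Db_comm hJ
  have h2 : Dz (Db (JV V)) z = Dz (fun y => -mconj (TV V y)) z := by
    apply Dz_congr
    filter_upwards [j03_im hz] with y hy
    exact JV_db V hy
  rw [h1, (j05_neg hT.mconj).1, Dz_mconj hT] at h2
  exact neg_eq_iff_eq_neg.1 h2.symm

omit hz in
theorem j05_br_swap (X Y : Matrix (Fin n) (Fin n) ℂ) : br X Y = -br Y X := by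
  unfold br
  abel

omit hz in
theorem j05_br_neg (X Y : Matrix (Fin n) (Fin n) ℂ) : br X (-Y) = -br X Y := by
  unfold br
  rw [Matrix.mul_neg, Matrix.neg_mul]
  abel

theorem TV_db : Db (TV V) z = -br (TV V z) (mconj (TV V z)) := by
  have hJ := JV_smooth V hz
  have hT := TV_smooth V hz
  have h1 : Db (fun y => br (JV V y) (TV V y)) z = Db (fun y => -TV V y) z := by
    apply Db_congr
    filter_upwards [j03_im hz] with y hy
    exact JV_br V hy
  rw [Db_br hJ hT, (j05_neg hT).2, JV_db V hz] at h1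
  have h2 : Dz (fun y => br (JV V y) (mconj (TV V y))) z = Dz (fun y => mconj (TV V y)) z := by
    apply Dz_congr
    filter_upwards [j03_im hz] with y hy
    exact JV_br' V hy
  rw [Dz_br hJ hT.mconj, Dz_mconj hT, TV_db_conj V hz, j05_br_neg] at h2
  have h3 : br (-mconj (TV V z)) (TV V z) = br (TV V z) (mconj (TV V z)) := by
    rw [j05_br_swap, j05_br_neg, neg_neg]
  rw [h3] at h1
  have h4 : Dz (JV V) z = TV V z := rfl
  rw [h4] at h2
  -- h1 : b + a = -k, h2 : b + -a = -k
  set b := br (TV V z) (mconj (TV V z))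
  set a := br (JV V z) (Db (TV V) z)
  set k := Db (TV V) z
  have h5 : (2 : ℂ) • b = (2 : ℂ) • (-k) := by
    rw [two_smul, two_smul]
    calc b + b = (b + a) + (b + -a) := by abel
      _ = -k + -k := by rw [h1, h2]
  have h6 : b = -k := smul_right_injective _ (two_ne_zero) h5
  rw [h6, neg_neg]

/-- the derivative of the Higgs field is again of degree `-1` and skew -/
theorem TV_dz_br : br (JV V z) (Dz (TV V) z) = -Dz (TV V) z := by
  have hJ := JV_smooth V hz
  have hT := TV_smooth V hz
  have h1 : Dz (fun y => br (JV V y) (TV V y)) z = Dz (fun y => -TV V y) z := by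
    apply Dz_congr
    filter_upwards [j03_im hz] with y hy
    exact JV_br V hy
  rw [Dz_br hJ hT, (j05_neg hT).1] at h1
  have h4 : Dz (JV V) z = TV V z := rfl
  have h5 : br (TV V z) (TV V z) = 0 := by
    unfold br
    exact sub_self _
  rw [h4, h5, zero_add] at h1
  exact h1

theorem TV_dz_skew : Skew V.Q (Dz (TV V) z) := by
  have hT := TV_smooth V hz
  have h1 : Dz (fun y => (TV V y)ᵀ * im V.Q + im V.Q * TV V y) z =
      Dz (fun _ => (0 : Matrix (Fin n) (Fin n) ℂ)) z := by
    apply Dz_congr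
    filter_upwards [j03_im hz] with y hy
    exact TV_skew V hy
  rw [Dz_add (hT.transpose.mul (SmA.const _)) ((SmA.const _).mul hT),
    Dz_mul hT.transpose (SmA.const _), Dz_mul (SmA.const _) hT, Dz_const, Dz_const,
    Matrix.mul_zero, add_zero, Matrix.zero_mul, zero_add, Dz_transpose] at h1
  exact h1

end MP2794d1
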