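import Pool.Agent.Lib.MP_2794d1_ag.L04

/-!
L05: Flat entries of an adapted basis. From qf_growth and qf_adapted. Let S₀, d₀ be adapted at mob σ I (exists_adapted). For
S adapted at z = mob σ w: ∑_a |(S⁻¹ e_b) a|² = qf V z e_b ≤ C (im w)^K qf V (mob σ I) e_b; and with v = S e_b,
∑_a |(S₀⁻¹ S) a b|² = qf V (mob σ I) (S e_b) ≤ C (im w)^K qf V z (S e_b) = C (im w)^K, and S = S₀ (S₀⁻¹ S).
-/

namespace MP2794d1

open Matrix Complex Filter Topology
open scoped ContDiff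

theorem L05_norm_le {n : ℕ} (c : Fin n → ℂ) {y : ℝ} (h : ∑ a, Complex.normSq (c a) ≤ y)
    (a : Fin n) : ‖c a‖ ≤ 1 + y := by
  have h1 : Complex.normSq (c a) ≤ ∑ a, Complex.normSq (c a) :=
    Finset.single_le_sum (f := fun a => Complex.normSq (c a))
      (fun _ _ => Complex.normSq_nonneg _) (Finset.mem_univ a)
  rw [Complex.normSq_eq_norm_sq] at h1
  nlinarith [sq_nonneg (‖c a‖ - 1), norm_nonneg (c a)]

theorem flat_entries {n : ℕ} (V : PolVHS n) (σ : Matrix.SpecialLinearGroup (Fin 2) ℝ) :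
    ∃ (C : ℝ) (K : ℕ), 1 ≤ C ∧ ∀ w : ℂ, |w.re| ≤ 1 → 1 ≤ w.im →
      ∀ (S : Matrix (Fin n) (Fin n) ℂ) (d : Fin n → ℤ),
        Adapted V.wt V.Q (fun p => V.F p (mob σ w)) S d →
        ∀ a b, ‖S a b‖ ≤ C * w.im ^ K ∧ ‖S⁻¹ a b‖ ≤ C * w.im ^ K := by
  obtain ⟨C, K, hC, hq⟩ := qf_growth V σ
  have hI : 0 < (mob σ Complex.I).im := mob_im_pos σ _ (by simp)
  obtain ⟨S₀, d₀, hS₀⟩ := exists_adapted (V.phs _ hI)
  set M : ℝ := ∑ a, ∑ b, ‖S₀⁻¹ a b‖ ^ 2 with hM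
  set M₁ : ℝ := ∑ a, ∑ b, ‖S₀ a b‖ with hM₁
  have hM0 : 0 ≤ M := by positivity
  have hM₁0 : 0 ≤ M₁ := by positivity
  have hC0 : 0 ≤ C := by linarith
  have hA : 0 ≤ C * M := mul_nonneg hC0 hM0
  have hB : 0 ≤ C * M₁ := mul_nonneg hC0 hM₁0
  refine ⟨1 + C * M + 2 * C * M₁, K, by nlinarith, fun w hw1 hw2 S d hS a b => ?_⟩
  have hw0 : 0 < w.im := by linarith
  have hz : 0 < (mob σ w).im := mob_im_pos σ w hw0
  have hpow : 1 ≤ w.im ^ K := one_le_pow₀ hw2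
  have hCw : 0 ≤ C * w.im ^ K := by positivity
  constructor
  · -- entries of S
    have h1 := (hq w hw1 hw2 (Sᵀ b)).2
    rw [qf_adapted V hI hS₀, qf_adapted V hz hS, E03_col hS.inv b] at h1
    have h2 : ∑ a, Complex.normSq ((Pi.single b (1 : ℂ) : Fin n → ℂ) a) = 1 := by
      rw [Finset.sum_eq_single b]
      · simp
      · intro c _ hc
        simp [hc]
      · intro hc
        exact absurd (Finset.mem_univ _) hc
    rw [h2, mul_one] at h1
    have h3 : ∀ c, ‖(S₀⁻¹ * S) c b‖ ≤ 2 * C * w.im ^ K := by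
      intro c
      have h4 := L05_norm_le (S₀⁻¹ *ᵥ (Sᵀ b)) h1 c
      have h5 : (S₀⁻¹ * S) c b = (S₀⁻¹ *ᵥ (Sᵀ b)) c := rfl
      rw [h5]
      nlinarith
    have h6 : S a b = ∑ c, S₀ a c * (S₀⁻¹ * S) c b := by
      have h7 : S = S₀ * (S₀⁻¹ * S) := by
        rw [← Matrix.mul_assoc, Matrix.mul_nonsing_inv _ hS₀.inv, Matrix.one_mul]
      conv_lhs => rw [h7]
      rw [Matrix.mul_apply]
    rw [h6]
    calc ‖∑ c, S₀ a c * (S₀⁻¹ * S) c b‖ ≤ ∑ c, ‖S₀ a c * (S₀⁻¹ * S) c b‖ := norm_sum_le _ _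
      _ ≤ ∑ c, ‖S₀ a c‖ * (2 * C * w.im ^ K) := by
          refine Finset.sum_le_sum fun c _ => ?_
          rw [norm_mul]
          exact mul_le_mul_of_nonneg_left (h3 c) (norm_nonneg _)
      _ = (∑ c, ‖S₀ a c‖) * (2 * C * w.im ^ K) := by rw [Finset.sum_mul]
      _ ≤ M₁ * (2 * C * w.im ^ K) := by
          apply mul_le_mul_of_nonneg_right _ (by positivity)
          rw [hM₁]
          exact Finset.single_le_sum (f := fun a => ∑ b, ‖S₀ a b‖)
            (fun _ _ => by positivity) (Finset.mem_univ a)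
      _ ≤ (1 + C * M + 2 * C * M₁) * w.im ^ K := by
          have : 0 ≤ (1 + C * M) * w.im ^ K := by positivity
          nlinarith
  · have h1 := (hq w hw1 hw2 (Pi.single b 1)).1
    rw [qf_adapted V hI hS₀, qf_adapted V hz hS] at h1
    have h2 : ∑ a, Complex.normSq ((S₀⁻¹ *ᵥ (Pi.single b 1)) a) ≤ M := by
      rw [hM, Finset.sum_comm]
      refine le_trans ?_ (Finset.single_le_sum (f := fun b => ∑ a, ‖S₀⁻¹ a b‖ ^ 2)
            (fun _ _ => by positivity) (Finset.mem_univ b))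
      refine le_of_eq (Finset.sum_congr rfl fun c _ => ?_)
      rw [Complex.normSq_eq_norm_sq, Matrix.mulVec_single_one]
      rfl
    have h3 : ∑ a, Complex.normSq ((S⁻¹ *ᵥ (Pi.single b 1)) a) ≤ C * w.im ^ K * M :=
      h1.trans (mul_le_mul_of_nonneg_left h2 hCw)
    have h4 := L05_norm_le _ h3 a
    have h5 : (S⁻¹ *ᵥ (Pi.single b 1)) a = S⁻¹ a b := by
      rw [Matrix.mulVec_single_one]
      rfl
    rw [h5] at h4
    refine h4.trans ?_
    have h6 : 0 ≤ 2 * C * M₁ * w.im ^ K := by positivity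
    nlinarith

end MP2794d1
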