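import Pool.Agent.Lib.MP_2794d1_ag.J01
import Pool.Agent.Lib.MP_2794d1_ag.E05
import Pool.Agent.Lib.MP_2794d1_ag.E06
import Pool.Agent.Lib.MP_2794d1_ag.E07

/-!
K01: Cauchy-Schwarz inequalities. Choose an adapted S, d (exists_adapted). For Skew A, B of degree -1
(br μ A = -A: by E05_mu the entry (S⁻¹ A S) a b vanishes unless d a - d b = -1), polarise the computation of e06_key (or apply
e06_key to A + B, A + i B; or redo it: S⁻¹ (mconj B) S is computed from Adapted.on and Skew):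
trace (A * mconj B) = ∑ (S⁻¹AS) a b * conj ((S⁻¹BS) a b) (as I^(2*(-1)) = -1), and use Cauchy-Schwarz for finite sums. cs0: for
κ skew, br μ κ = 0, mconj κ = -κ: trace (κ κ) = - trace (κ mconj κ) = ∑ |(S⁻¹κS) a b|², and
trace (κ μ) = ∑_a (S⁻¹κS) a a * d a (gr_eq), with |d a| ≤ D by adapted_bounds (lo ≤ d a < hi).
tr_deg1_nonneg: from pos1 applied to mconj A (br μ (mconj A) = mconj A by gr_conj, Skew.mconj).
-/

namespace MP2794d1

open Matrix Complex Filter Topology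
open scoped ContDiff

variable {n : ℕ} {wt : ℤ} {Q : Matrix (Fin n) (Fin n) ℤ} {Fl : ℤ → Submodule ℂ (Fin n → ℂ)}
  {μ : Matrix (Fin n) (Fin n) ℂ}

/-- the trace of `A` times the conjugate of `B` in an adapted basis, `B` skew -/
theorem K01_key {S : Matrix (Fin n) (Fin n) ℂ} {d : Fin n → ℤ}
    (hS : Adapted wt Q Fl S d) (A X : Matrix (Fin n) (Fin n) ℂ) (hX : Skew Q X) :
    Matrix.trace (A * mconj X) =
      -∑ a, ∑ b, ((S⁻¹ * A * S) a b * (starRingEnd ℂ) ((S⁻¹ * X * S) a b)) *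
        Complex.I ^ (2 * (d a - d b)) := by
  have hSu : IsUnit S.det := hS.inv
  have hSS : S * S⁻¹ = 1 := Matrix.mul_nonsing_inv S hSu
  have hT : mconj S * mconj S⁻¹ = 1 := by rw [← e06_mul, hSS, e06_one]
  have hSt : S⁻¹ᵀ * Sᵀ = 1 := by rw [← Matrix.transpose_mul, hSS, Matrix.transpose_one]
  set D : Matrix (Fin n) (Fin n) ℂ := Matrix.diagonal (fun a => Complex.I ^ (wt - 2 * d a)) with hD
  have hon : Sᵀ * im Q * mconj S = D := hS.on
  set y := S⁻¹ * A * S with hy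
  set x := S⁻¹ * X * S with hx
  set z := mconj S⁻¹ * X * mconj S with hz
  have e1 : xᵀ * D = Sᵀ * (Xᵀ * im Q) * mconj S := by
    calc xᵀ * D = Sᵀ * Xᵀ * (S⁻¹ᵀ * Sᵀ) * im Q * mconj S := by
          rw [← hon, hx, Matrix.transpose_mul, Matrix.transpose_mul]
          simp only [Matrix.mul_assoc]
      _ = _ := by rw [hSt]; simp only [Matrix.mul_assoc, Matrix.mul_one]
  have e2 : D * z = Sᵀ * (im Q * X) * mconj S := by
    calc D * z = Sᵀ * im Q * (mconj S * mconj S⁻¹) * X * mconj S := by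
          rw [← hon, hz]
          simp only [Matrix.mul_assoc]
      _ = _ := by rw [hT]; simp only [Matrix.mul_assoc, Matrix.mul_one]
  have key : xᵀ * D + D * z = 0 := by
    rw [e1, e2, ← Matrix.add_mul, ← Matrix.mul_add, hX, Matrix.mul_zero, Matrix.zero_mul]
  have hzc : mconj z = S⁻¹ * mconj X * S := by
    rw [hz, e06_mul, e06_mul, e06_mconj_mconj, e06_mconj_mconj]
  have htr : Matrix.trace (A * mconj X) = Matrix.trace (y * mconj z) := by
    have : y * mconj z = S⁻¹ * (A * mconj X * S) := by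
      calc y * mconj z = S⁻¹ * A * (S * S⁻¹) * mconj X * S := by
            rw [hzc, hy]; simp only [Matrix.mul_assoc]
        _ = _ := by rw [hSS]; simp only [Matrix.mul_assoc, Matrix.mul_one]
    rw [this, Matrix.trace_mul_comm S⁻¹, Matrix.mul_assoc, hSS, Matrix.mul_one]
  rw [htr, Matrix.trace, ← Finset.sum_neg_distrib]
  refine Finset.sum_congr rfl fun a _ => ?_
  rw [Matrix.diag_apply, Matrix.mul_apply, ← Finset.sum_neg_distrib]
  refine Finset.sum_congr rfl fun b _ => ?_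
  have hk := congrFun (congrFun key b) a
  rw [Matrix.add_apply, hD, Matrix.mul_diagonal, Matrix.diagonal_mul, Matrix.transpose_apply,
    Matrix.zero_apply] at hk
  have hI : ∀ k : ℤ, Complex.I ^ k ≠ 0 := fun k => zpow_ne_zero _ Complex.I_ne_zero
  have hzba : z b a = -(x a b * Complex.I ^ (2 * (d b - d a))) := by
    have h1 : Complex.I ^ (wt - 2 * d b) * z b a = Complex.I ^ (wt - 2 * d b) *
        (-(x a b * Complex.I ^ (2 * (d b - d a)))) := by
      have h2 : Complex.I ^ (wt - 2 * d b) * (-(x a b * Complex.I ^ (2 * (d b - d a)))) =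
          -(x a b * (Complex.I ^ (wt - 2 * d b) * Complex.I ^ (2 * (d b - d a)))) := by ring
      rw [h2, ← zpow_add₀ Complex.I_ne_zero]
      have h3 : wt - 2 * d b + 2 * (d b - d a) = wt - 2 * d a := by ring
      rw [h3]
      linear_combination hk
    exact mul_left_cancel₀ (hI _) h1
  have h4 : mconj z b a = (starRingEnd ℂ) (z b a) := rfl
  rw [h4, hzba, map_neg, map_mul, e06_conj_zpow]
  have h5 : -(2 * (d b - d a)) = 2 * (d a - d b) := by ring
  rw [h5]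
  ring

theorem K01_deg {S : Matrix (Fin n) (Fin n) ℂ} {d : Fin n → ℤ}
    (hS : Adapted wt Q Fl S d) (hμ : IsGr wt Fl μ) (A : Matrix (Fin n) (Fin n) ℂ)
    (hA1 : br μ A = -A) (a b : Fin n) (h0 : (S⁻¹ * A * S) a b ≠ 0) : d a - d b = -1 := by
  have h2 := e06_br hS hμ A a b
  rw [hA1, Matrix.mul_neg, Matrix.neg_mul, Matrix.neg_apply] at h2
  have h3 : (d a : ℂ) - (d b : ℂ) = -1 := by
    have h3 : ((d a : ℂ) - (d b : ℂ)) * (S⁻¹ * A * S) a b = (-1) * (S⁻¹ * A * S) a b := by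
      rw [← h2]; ring
    exact mul_right_cancel₀ h0 h3
  exact_mod_cast h3

theorem tr_polar (h : IsPHS wt Q Fl) (hμ : IsGr wt Fl μ) {S : Matrix (Fin n) (Fin n) ℂ}
    {d : Fin n → ℤ} (hS : Adapted wt Q Fl S d) (A B : Matrix (Fin n) (Fin n) ℂ)
    (hA : Skew Q A) (hB : Skew Q B) (hA1 : br μ A = -A) :
    Matrix.trace (A * mconj B) =
      ∑ a, ∑ b, (S⁻¹ * A * S) a b * (starRingEnd ℂ) ((S⁻¹ * B * S) a b) := by
  rw [K01_key hS A B hB, ← Finset.sum_neg_distrib]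
  refine Finset.sum_congr rfl fun a _ => ?_
  rw [← Finset.sum_neg_distrib]
  refine Finset.sum_congr rfl fun b _ => ?_
  by_cases h0 : (S⁻¹ * A * S) a b = 0
  · rw [h0]; simp
  · rw [K01_deg hS hμ A hA1 a b h0]
    have h5 : Complex.I ^ (2 * (-1 : ℤ)) = -1 := by
      have : Complex.I ^ (2 * (-1 : ℤ)) = (Complex.I ^ (2 : ℕ))⁻¹ := by
        rw [show (2 * (-1 : ℤ)) = -((2 : ℕ) : ℤ) by norm_num, _root_.zpow_neg, zpow_natCast]
      rw [this, Complex.I_sq]
      norm_num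
    rw [h5]
    ring

theorem tr_deg1 (h : IsPHS wt Q Fl) (hμ : IsGr wt Fl μ) {S : Matrix (Fin n) (Fin n) ℂ}
    {d : Fin n → ℤ} (hS : Adapted wt Q Fl S d) (A : Matrix (Fin n) (Fin n) ℂ)
    (hA : Skew Q A) (hA1 : br μ A = -A) :
    (Matrix.trace (A * mconj A)).re = ∑ a, ∑ b, Complex.normSq ((S⁻¹ * A * S) a b) := by
  rw [tr_polar h hμ hS A A hA hA hA1, Complex.re_sum]
  refine Finset.sum_congr rfl fun a _ => ?_
  rw [Complex.re_sum]
  refine Finset.sum_congr rfl fun b _ => ?_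
  rw [Complex.mul_conj, Complex.ofReal_re]

theorem tr_deg1_nonneg (h : IsPHS wt Q Fl) (hμ : IsGr wt Fl μ) (A : Matrix (Fin n) (Fin n) ℂ)
    (hA : Skew Q A) (hA1 : br μ A = -A) : 0 ≤ (Matrix.trace (A * mconj A)).re := by
  obtain ⟨S, d, hS⟩ := exists_adapted h
  rw [tr_deg1 h hμ hS A hA hA1]
  exact Finset.sum_nonneg fun a _ => Finset.sum_nonneg fun b _ => Complex.normSq_nonneg _

theorem cs1 (h : IsPHS wt Q Fl) (hμ : IsGr wt Fl μ) (A B : Matrix (Fin n) (Fin n) ℂ)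
    (hA : Skew Q A) (hB : Skew Q B) (hA1 : br μ A = -A) (hB1 : br μ B = -B) :
    ‖Matrix.trace (A * mconj B)‖ ^ 2 ≤
      (Matrix.trace (A * mconj A)).re * (Matrix.trace (B * mconj B)).re := by
  obtain ⟨S, d, hS⟩ := exists_adapted h
  rw [tr_deg1 h hμ hS A hA hA1, tr_deg1 h hμ hS B hB hB1, tr_polar h hμ hS A B hA hB hA1,
    ← Finset.sum_product', ← Finset.sum_product', ← Finset.sum_product']
  set x := S⁻¹ * A * S
  set y := S⁻¹ * B * S
  have h1 : ‖∑ p ∈ (Finset.univ : Finset (Fin n)) ×ˢ (Finset.univ : Finset (Fin n)),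
      x p.1 p.2 * (starRingEnd ℂ) (y p.1 p.2)‖ ≤
      ∑ p ∈ (Finset.univ : Finset (Fin n)) ×ˢ (Finset.univ : Finset (Fin n)),
        ‖x p.1 p.2‖ * ‖y p.1 p.2‖ := by
    refine (norm_sum_le _ _).trans (le_of_eq ?_)
    refine Finset.sum_congr rfl fun p _ => ?_
    rw [norm_mul, RCLike.norm_conj]
  have h2 := Finset.sum_mul_sq_le_sq_mul_sq
    ((Finset.univ : Finset (Fin n)) ×ˢ (Finset.univ : Finset (Fin n)))
    (fun p => ‖x p.1 p.2‖) (fun p => ‖y p.1 p.2‖)
  have h3 : ∀ w : ℂ, Complex.normSq w = ‖w‖ ^ 2 := fun w => Complex.normSq_eq_norm_sq w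
  simp only [h3]
  exact (pow_le_pow_left₀ (norm_nonneg _) h1 2).trans h2

theorem cs0 (h : IsPHS wt Q Fl) (hμ : IsGr wt Fl μ) {lo hi : ℤ} (hlo : Fl lo = ⊤)
    (hhi : Fl hi = ⊥) (κ : Matrix (Fin n) (Fin n) ℂ) (hκ : Skew Q κ) (hκ0 : br μ κ = 0)
    (hκc : mconj κ = -κ) :
    ‖Matrix.trace (κ * μ)‖ ^ 2 ≤
      ((n : ℝ) * (|(lo : ℝ)| + |(hi : ℝ)|) ^ 2) * (Matrix.trace (κ * κ)).re ∧
    0 ≤ (Matrix.trace (κ * κ)).re := by
  obtain ⟨S, d, hS⟩ := exists_adapted h
  have hSu : IsUnit S.det := hS.inv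
  have hSS' : S⁻¹ * S = 1 := Matrix.nonsing_inv_mul S hSu
  have hSS : S * S⁻¹ = 1 := Matrix.mul_nonsing_inv S hSu
  set x := S⁻¹ * κ * S with hx
  -- trace κ κ
  have h1 : (Matrix.trace (κ * κ)).re = ∑ a, ∑ b, ‖x a b‖ ^ 2 := by
    have e1 : Matrix.trace (κ * κ) = -Matrix.trace (κ * mconj κ) := by
      rw [hκc, Matrix.mul_neg, Matrix.trace_neg, neg_neg]
    rw [e1, e06_key hS κ hκ, neg_neg, Complex.re_sum]
    refine Finset.sum_congr rfl fun a _ => ?_
    rw [Complex.re_sum]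
    refine Finset.sum_congr rfl fun b _ => ?_
    by_cases h0 : x a b = 0
    · rw [← hx, h0]; simp
    · have h2 := e06_br hS hμ κ a b
      rw [hκ0, Matrix.mul_zero, Matrix.zero_mul, Matrix.zero_apply] at h2
      have h3 : (d a : ℂ) - (d b : ℂ) = 0 := by
        rcases mul_eq_zero.mp h2.symm with h3 | h3
        · exact h3
        · exact absurd h3 h0
      have h4 : d a = d b := by exact_mod_cast sub_eq_zero.mp h3
      rw [h4, sub_self, mul_zero, zpow_zero, mul_one, Complex.ofReal_re, Complex.normSq_eq_norm_sq]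
  have h2 : Matrix.trace (κ * μ) = ∑ a, x a a * (d a : ℂ) := by
    have e1 : κ * μ = S * (x * Matrix.diagonal (fun a => (d a : ℂ)) * S⁻¹) := by
      rw [gr_eq hS μ hμ, hx]
      calc κ * (S * Matrix.diagonal (fun a => (d a : ℂ)) * S⁻¹)
          = (S * S⁻¹) * κ * (S * Matrix.diagonal (fun a => (d a : ℂ)) * S⁻¹) := by
            rw [hSS, Matrix.one_mul]
        _ = _ := by simp only [Matrix.mul_assoc]
    rw [e1, Matrix.trace_mul_comm S, Matrix.mul_assoc, hSS', Matrix.mul_one, Matrix.trace]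
    refine Finset.sum_congr rfl fun a _ => ?_
    rw [Matrix.diag_apply, Matrix.mul_diagonal]
  have h5 : ∑ a, ‖x a a‖ ^ 2 ≤ (Matrix.trace (κ * κ)).re := by
    rw [h1]
    refine Finset.sum_le_sum fun a _ => ?_
    exact Finset.single_le_sum (f := fun b => ‖x a b‖ ^ 2) (fun b _ => sq_nonneg _)
      (Finset.mem_univ a)
  have h6 : ∑ a, ‖(d a : ℂ)‖ ^ 2 ≤ (n : ℝ) * (|(lo : ℝ)| + |(hi : ℝ)|) ^ 2 := by
    have : ∀ a ∈ (Finset.univ : Finset (Fin n)), ‖(d a : ℂ)‖ ^ 2 ≤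
        (|(lo : ℝ)| + |(hi : ℝ)|) ^ 2 := by
      intro a _
      obtain ⟨b1, b2⟩ := adapted_bounds hS hlo hhi a
      have b1' : (lo : ℝ) ≤ (d a : ℝ) := by exact_mod_cast b1
      have b2' : (d a : ℝ) ≤ (hi : ℝ) := by exact_mod_cast b2.le
      refine pow_le_pow_left₀ (norm_nonneg _) ?_ 2
      rw [Complex.norm_intCast, abs_le]
      constructor
      · have := neg_abs_le (lo : ℝ)
        have := abs_nonneg (hi : ℝ)
        linarith
      · have := le_abs_self (hi : ℝ)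
        have := abs_nonneg (lo : ℝ)
        linarith
    refine (Finset.sum_le_sum this).trans (le_of_eq ?_)
    rw [Finset.sum_const, Finset.card_univ, Fintype.card_fin, nsmul_eq_mul]
  have h0 : 0 ≤ (Matrix.trace (κ * κ)).re :=
    (Finset.sum_nonneg fun a _ => sq_nonneg _).trans h5
  refine ⟨?_, h0⟩
  have h7 : ‖∑ a, x a a * (d a : ℂ)‖ ≤ ∑ a, ‖(d a : ℂ)‖ * ‖x a a‖ := by
    refine (norm_sum_le _ _).trans (le_of_eq ?_)
    refine Finset.sum_congr rfl fun a _ => ?_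
    rw [norm_mul, mul_comm]
  have h8 := Finset.sum_mul_sq_le_sq_mul_sq (Finset.univ : Finset (Fin n))
    (fun a => ‖(d a : ℂ)‖) (fun a => ‖x a a‖)
  rw [h2]
  refine (pow_le_pow_left₀ (norm_nonneg _) h7 2).trans (h8.trans ?_)
  exact mul_le_mul h6 h5 (Finset.sum_nonneg fun a _ => sq_nonneg _) (by positivity)

end MP2794d1
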