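import Pool.Agent.Lib.MP_2794d1_ag.T03
import Pool.Agent.Lib.MP_2794d1_ag.K01
import Pool.Agent.Lib.MP_2794d1_ag.L05
import Pool.Agent.Lib.MP_2794d1_ag.F07

/-!
T08: Growth at a cusp: ψ(σ w) = ∑ |(S⁻¹BS) a b|² (tr_deg1, S adapted at σ w) ≤ ∑ |(S⁻¹NS) a b|² since the entries of S⁻¹BS are 0 or
those of S⁻¹NS, and by flat_entries the entries of S, S⁻¹ are ≤ C (im w)^K. Take logarithms (ψ > 0: B ≠ 0, pos).
-/

namespace MP2794d1

open Matrix Complex Filter Topology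
open scoped ContDiff

theorem T08_entry {n : ℕ} {wt : ℤ} {Q : Matrix (Fin n) (Fin n) ℤ}
    {Fl : ℤ → Submodule ℂ (Fin n → ℂ)} {S : Matrix (Fin n) (Fin n) ℂ} {d : Fin n → ℤ}
    (hS : Adapted wt Q Fl S d) {μ : Matrix (Fin n) (Fin n) ℂ}
    (hμ : IsGr wt Fl μ) (X : Matrix (Fin n) (Fin n) ℂ) (h1 : X ∈ FEnd Fl (-1))
    (h2 : mconj X ∈ FEnd Fl (-1)) (a b : Fin n) :
    ‖(S⁻¹ * ((1 / 2 : ℂ) • (br μ (br μ X) - br μ X)) * S) a b‖ ≤ ‖(S⁻¹ * X * S) a b‖ := by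
  rw [T03_lin, T03_sub, E05_mu hS hμ, E05_mu hS hμ]
  by_cases h0 : (S⁻¹ * X * S) a b = 0
  · rw [h0]
    simp
  · have e1 := (mem_FEnd_iff hS X (-1)).mp h1 a b h0
    have e2 := (conj_mem_FEnd_iff hS X (-1)).mp h2 a b h0
    have hc : d a = d b - 1 ∨ d a = d b ∨ d a = d b + 1 := by omega
    have hn := norm_nonneg ((S⁻¹ * X * S) a b)
    rcases hc with e | e | e
    · have e3 : (1 / 2 : ℂ) * (((d a : ℂ) - (d b : ℂ)) * (((d a : ℂ) - (d b : ℂ)) *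
          (S⁻¹ * X * S) a b) - ((d a : ℂ) - (d b : ℂ)) * (S⁻¹ * X * S) a b) =
          (S⁻¹ * X * S) a b := by
        rw [e]
        push_cast
        ring
      rw [e3]
    · have e3 : (1 / 2 : ℂ) * (((d a : ℂ) - (d b : ℂ)) * (((d a : ℂ) - (d b : ℂ)) *
          (S⁻¹ * X * S) a b) - ((d a : ℂ) - (d b : ℂ)) * (S⁻¹ * X * S) a b) = 0 := by
        rw [e]
        ring
      rw [e3, norm_zero]
      exact hn
    · have e3 : (1 / 2 : ℂ) * (((d a : ℂ) - (d b : ℂ)) * (((d a : ℂ) - (d b : ℂ)) *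
          (S⁻¹ * X * S) a b) - ((d a : ℂ) - (d b : ℂ)) * (S⁻¹ * X * S) a b) = 0 := by
        rw [e]
        push_cast
        ring
      rw [e3, norm_zero]
      exact hn

theorem T08_prod {n : ℕ} (A N S : Matrix (Fin n) (Fin n) ℂ) {t : ℝ} (hA : ∀ a b, ‖A a b‖ ≤ t)
    (hS : ∀ a b, ‖S a b‖ ≤ t) (ht : 0 ≤ t) (a b : Fin n) :
    ‖(A * N * S) a b‖ ≤ t ^ 2 * ∑ i, ∑ j, ‖N i j‖ := by
  rw [Matrix.mul_apply]
  refine le_trans (norm_sum_le _ _) ?_
  have e : t ^ 2 * ∑ i, ∑ j, ‖N i j‖ = ∑ j, (∑ i, t * ‖N i j‖) * t := by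
    rw [Finset.sum_comm, Finset.mul_sum]
    apply Finset.sum_congr rfl
    intro j _
    rw [Finset.mul_sum, Finset.sum_mul]
    apply Finset.sum_congr rfl
    intro i _
    ring
  rw [e]
  apply Finset.sum_le_sum
  intro j _
  rw [norm_mul, Matrix.mul_apply]
  apply mul_le_mul _ (hS j b) (norm_nonneg _)
  · exact Finset.sum_nonneg fun i _ => mul_nonneg ht (norm_nonneg _)
  · refine le_trans (norm_sum_le _ _) ?_
    apply Finset.sum_le_sum
    intro i _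
    rw [norm_mul]
    exact mul_le_mul_of_nonneg_right (hA a i) (norm_nonneg _)

theorem vB_growth {n : ℕ} (V : PolVHS n) (c : Cusp V) (hN : c.N ≠ 0) {a : ℝ}
    {u : ℂ → ℂ} {F0 : ℤ → Submodule ℂ (Fin n → ℂ)} (h : StageOne V c a u F0)
    (σ : Matrix.SpecialLinearGroup (Fin 2) ℝ) : ∃ C K : ℝ, 0 ≤ K ∧ ∀ w : ℂ, |w.re| ≤ 1 →
      1 ≤ w.im → vB V (cm c.N) (mob σ w) ≤ C + K * Real.log w.im := by
  obtain ⟨C, K, hC, hfl⟩ := flat_entries V σ
  set M : ℝ := ∑ i, ∑ j, ‖cm c.N i j‖ with hM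
  have hM0 : 0 ≤ M := Finset.sum_nonneg fun i _ => Finset.sum_nonneg fun j _ => norm_nonneg _
  set A : ℝ := (n : ℝ) ^ 2 * (C ^ 2 * M) ^ 2 + 1 with hA
  have hA1 : 1 ≤ A := by
    rw [hA]
    have : 0 ≤ (n : ℝ) ^ 2 * (C ^ 2 * M) ^ 2 := by positivity
    linarith
  refine ⟨Real.log A, 4 * K, by positivity, ?_⟩
  intro w hw1 hw2
  have hw : 0 < w.im := by linarith
  have hz : 0 < (mob σ w).im := mob_im_pos σ w hw
  set z := mob σ w with hzd
  obtain ⟨p1, p2, p3, p4, p5, b', p6⟩ := BV_props V c hN h hz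
  obtain ⟨S, d, hS⟩ := exists_adapted (V.phs z hz)
  have hfl' := hfl w hw1 hw2 S d hS
  have hNm : cm c.N ∈ FEnd (fun p => V.F p z) (-1) := N_trans V c h z hz
  have hNm' : mconj (cm c.N) ∈ FEnd (fun p => V.F p z) (-1) := by
    rw [mconj_cm]
    exact hNm
  have hψ := tr_deg1 (V.phs z hz) (JV_gr V hz) hS (BV V (cm c.N) z) p2 p1
  have ht0 : 0 ≤ C * w.im ^ K := by positivity
  have hent : ∀ a b, ‖(S⁻¹ * BV V (cm c.N) z * S) a b‖ ≤ (C * w.im ^ K) ^ 2 * M := by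
    intro a b
    refine le_trans (T08_entry hS (JV_gr V hz) (cm c.N) hNm hNm' a b) ?_
    exact T08_prod S⁻¹ (cm c.N) S (fun a b => (hfl' a b).2) (fun a b => (hfl' a b).1) ht0 a b
  have hψ2 : (Matrix.trace (BV V (cm c.N) z * mconj (BV V (cm c.N) z))).re ≤
      A * w.im ^ (4 * K) := by
    rw [hψ]
    have h1 : ∑ a, ∑ b, Complex.normSq ((S⁻¹ * BV V (cm c.N) z * S) a b) ≤
        ∑ _a : Fin n, ∑ _b : Fin n, ((C * w.im ^ K) ^ 2 * M) ^ 2 := by
      apply Finset.sum_le_sum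
      intro a _
      apply Finset.sum_le_sum
      intro b _
      rw [Complex.normSq_eq_norm_sq]
      exact pow_le_pow_left₀ (norm_nonneg _) (hent a b) 2
    refine le_trans h1 ?_
    simp only [Finset.sum_const, Finset.card_univ, Fintype.card_fin, nsmul_eq_mul]
    have h2 : (n : ℝ) * ((n : ℝ) * ((C * w.im ^ K) ^ 2 * M) ^ 2) =
        (n : ℝ) ^ 2 * (C ^ 2 * M) ^ 2 * w.im ^ (4 * K) := by
      have h3 : w.im ^ (4 * K) = (w.im ^ K) ^ 4 := by
        rw [← pow_mul, mul_comm]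
      rw [h3]
      ring
    rw [h2, hA]
    have h4 : 0 ≤ w.im ^ (4 * K) := by positivity
    nlinarith
  have hψ0 : 0 ≤ (Matrix.trace (BV V (cm c.N) z * mconj (BV V (cm c.N) z))).re := by
    rw [hψ]
    exact Finset.sum_nonneg fun a _ => Finset.sum_nonneg fun b _ => Complex.normSq_nonneg _
  have hR : Real.log (A * w.im ^ (4 * K)) = Real.log A + (4 * K : ℝ) * Real.log w.im := by
    rw [Real.log_mul (by linarith) (by positivity), Real.log_pow]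
    push_cast
    ring
  unfold vB
  rw [← hR]
  rcases hψ0.lt_or_eq with h5 | h5
  · exact Real.log_le_log h5 hψ2
  · rw [← h5, Real.log_zero, hR]
    have h6 : 0 ≤ Real.log A := Real.log_nonneg hA1
    have h7 : 0 ≤ Real.log w.im := Real.log_nonneg hw2
    positivity

end MP2794d1
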