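import Pool.Agent.Lib.MP_2794d1_ag.T00
import Pool.Agent.Lib.MP_2794d1_ag.K04

/-!
T11: Strong maximum principle. Let M = f z₁ = max. Key: if ball(a, R) closed is in the upper half plane and f a < M then f < M on the
open ball(a,R). Choose 0 < r < R, δ > 0 with f ≤ M - δ on ‖z - a‖ ≤ r (continuity) and β z = log (R/‖z-a‖)/log (R/r) on the
annulus, β = 1 on the inner and 0 on the outer circle, Δβ = 0. If f z₀ + δ β z₀ > M for a z₀ in the annulus, take ε > 0 small:
G = f + δ β + ε ‖z-a‖² has G z₀ > M + ε R² ≥ G on the boundary circles, so an interior maximum, where ΔG = Δf + 4 ε > 0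
contradicts lapl_max. So f ≤ M - δ β < M on the open annulus. Consequence: {z | 0 < im z, f z = M} is open: if f z₂ = M, and
ρ > 0 with ball(z₂, 2ρ) in the upper half plane, then for ‖a - z₂‖ < ρ/2.. f a < M would give f z₂ < M (z₂ ∈ ball(a, ρ)). It is
closed by continuity and the upper half plane is connected (convex).
-/

namespace MP2794d1

open Matrix Complex Filter Topology
open scoped ContDiff

/-- the barrier -/
noncomputable def t11_g (α : ℝ) (a z : ℂ) : ℝ :=
  Real.exp (-α * ((z.re - a.re) ^ 2 + (z.im - a.im) ^ 2))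

theorem t11_hasF (α : ℝ) (a z : ℂ) : HasFDerivAt (t11_g α a)
    (t11_g α a z • ((-α) • ((2 * (z.re - a.re)) • Complex.reCLM +
      (2 * (z.im - a.im)) • Complex.imCLM))) z := by
  unfold t11_g
  have h1 : HasFDerivAt (fun z : ℂ => z.re - a.re) Complex.reCLM z :=
    Complex.reCLM.hasFDerivAt.sub_const _
  have h2 : HasFDerivAt (fun z : ℂ => z.im - a.im) Complex.imCLM z :=
    Complex.imCLM.hasFDerivAt.sub_const _
  have h3 := (((h1.pow 2).fun_add (h2.pow 2)).const_mul (-α)).exp
  refine h3.congr_fderiv ?_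
  ext <;> simp

theorem t11_px (α : ℝ) (a z : ℂ) : px (t11_g α a) z = (-(2 * α) * (z.re - a.re)) * t11_g α a z := by
  unfold px
  rw [(t11_hasF α a z).fderiv]
  simp
  ring

theorem t11_py (α : ℝ) (a z : ℂ) : py (t11_g α a) z = (-(2 * α) * (z.im - a.im)) * t11_g α a z := by
  unfold py
  rw [(t11_hasF α a z).fderiv]
  simp
  ring

theorem t11_lapl (α : ℝ) (a z : ℂ) : px (px (t11_g α a)) z + py (py (t11_g α a)) z =
    4 * α * (α * ((z.re - a.re) ^ 2 + (z.im - a.im) ^ 2) - 1) * t11_g α a z := by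
  have e1 : px (t11_g α a) = fun z => (-(2 * α) * (z.re - a.re)) * t11_g α a z :=
    funext fun z => t11_px α a z
  have e2 : py (t11_g α a) = fun z => (-(2 * α) * (z.im - a.im)) * t11_g α a z :=
    funext fun z => t11_py α a z
  have h1 : HasFDerivAt (fun z : ℂ => -(2 * α) * (z.re - a.re)) (-(2 * α) • Complex.reCLM) z :=
    (Complex.reCLM.hasFDerivAt.sub_const _).const_mul _
  have h2 : HasFDerivAt (fun z : ℂ => -(2 * α) * (z.im - a.im)) (-(2 * α) • Complex.imCLM) z :=
    (Complex.imCLM.hasFDerivAt.sub_const _).const_mul _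
  rw [e1, e2]
  unfold px py
  rw [(h1.fun_mul (t11_hasF α a z)).fderiv, (h2.fun_mul (t11_hasF α a z)).fderiv]
  simp
  ring

theorem t11_contDiff (α : ℝ) (a : ℂ) : ContDiff ℝ 2 (t11_g α a) := by
  unfold t11_g
  have h1 : ContDiff ℝ 2 (fun z : ℂ => z.re - a.re) := Complex.reCLM.contDiff.sub contDiff_const
  have h2 : ContDiff ℝ 2 (fun z : ℂ => z.im - a.im) := Complex.imCLM.contDiff.sub contDiff_const
  exact (contDiff_const.mul ((h1.pow 2).add (h2.pow 2))).exp

theorem t11_second {f g : ℂ → ℝ} {z : ℂ} (hf : ContDiffAt ℝ 2 f z) (hg : ContDiffAt ℝ 2 g z)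
    (c : ℝ) (v : ℂ) :
    fderiv ℝ (fun y => fderiv ℝ (fun x => f x + c * g x) y v) z v =
      fderiv ℝ (fun y => fderiv ℝ f y v) z v + c * fderiv ℝ (fun y => fderiv ℝ g y v) z v := by
  have h1 : (fun y => fderiv ℝ (fun x => f x + c * g x) y v) =ᶠ[𝓝 z]
      fun y => fderiv ℝ f y v + c * fderiv ℝ g y v := by
    filter_upwards [hf.eventually (by simp), hg.eventually (by simp)] with y hfy hgy
    have d1 : DifferentiableAt ℝ f y := hfy.differentiableAt (by simp)
    have d2 : DifferentiableAt ℝ g y := hgy.differentiableAt (by simp)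
    rw [fderiv_fun_add d1 (d2.const_mul c), fderiv_const_mul d2]
    simp
  rw [h1.fderiv_eq]
  have h2 : ∀ {f : ℂ → ℝ}, ContDiffAt ℝ 2 f z → DifferentiableAt ℝ (fun y => fderiv ℝ f y v) z := by
    intro f hf
    have h3 : ContDiffAt ℝ 1 (fderiv ℝ f) z := hf.fderiv_right (by norm_num)
    exact (h3.clm_apply contDiffAt_const).differentiableAt (by simp)
  rw [fderiv_fun_add (h2 hf) ((h2 hg).const_mul c), fderiv_const_mul (h2 hg)]
  simp

theorem t11_norm (z a : ℂ) : ‖z - a‖ ^ 2 = (z.re - a.re) ^ 2 + (z.im - a.im) ^ 2 := by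
  rw [← Complex.normSq_eq_norm_sq, Complex.normSq_apply, Complex.sub_re, Complex.sub_im]
  ring

theorem t11_ball {f : ℂ → ℝ} (hf : SubL f) {M : ℝ} (hM : ∀ z : ℂ, 0 < z.im → f z ≤ M) {a : ℂ}
    {R : ℝ} (hR : 0 < R) (hball : ∀ z : ℂ, ‖z - a‖ ≤ R → 0 < z.im) (ha : f a < M) :
    ∀ z : ℂ, ‖z - a‖ < R → f z < M := by
  have haim : 0 < a.im := hball a (by simpa using hR.le)
  have hcont : ∀ z : ℂ, 0 < z.im → ContinuousAt f z := fun z hz => (hf z hz).1.continuousAt
  obtain ⟨δ, hδ, hδM⟩ : ∃ δ : ℝ, 0 < δ ∧ f a < M - δ := ⟨(M - f a) / 2, by linarith, by linarith⟩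
  obtain ⟨r₀, hr₀, hr₀'⟩ := Metric.eventually_nhds_iff.1 ((hcont a haim).eventually_lt
    (continuousAt_const (y := M - δ)) hδM)
  obtain ⟨r, hr, hrr, hrR⟩ : ∃ r : ℝ, 0 < r ∧ r < r₀ ∧ r < R :=
    ⟨min r₀ R / 2, by positivity, by
      have := min_le_left r₀ R
      have : 0 < min r₀ R := lt_min hr₀ hR
      linarith, by
      have := min_le_right r₀ R
      have : 0 < min r₀ R := lt_min hr₀ hR
      linarith⟩
  have hin : ∀ z : ℂ, ‖z - a‖ ≤ r → f z < M - δ := by
    intro z hz
    exact hr₀' (by rw [dist_eq_norm]; linarith)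
  obtain ⟨α, hα⟩ : ∃ α : ℝ, α = 2 / r ^ 2 := ⟨_, rfl⟩
  have hα0 : 0 < α := by rw [hα]; positivity
  have hαr : α * r ^ 2 = 2 := by
    rw [hα]
    field_simp
  have hgval : ∀ z, t11_g α a z = Real.exp (-α * ‖z - a‖ ^ 2) := by
    intro z
    rw [t11_norm]
    rfl
  have hgpos : ∀ z, 0 < t11_g α a z := fun z => Real.exp_pos _
  have key : ∀ z : ℂ, r ≤ ‖z - a‖ → ‖z - a‖ ≤ R →
      f z + δ * t11_g α a z ≤ M + δ * Real.exp (-α * R ^ 2) := by
    by_contra hcon
    push Not at hcon
    obtain ⟨z₀, h1, h2, h3⟩ := hcon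
    have hnc : Continuous fun z : ℂ => ‖z - a‖ := by fun_prop
    let K : Set ℂ := {z | r ≤ ‖z - a‖ ∧ ‖z - a‖ ≤ R}
    have hKc : IsCompact K := by
      refine Metric.isCompact_of_isClosed_isBounded ?_ ?_
      · exact (isClosed_le continuous_const hnc).inter (isClosed_le hnc continuous_const)
      · refine (Metric.isBounded_closedBall (x := a) (r := R)).subset fun z hz => ?_
        rw [Metric.mem_closedBall, dist_eq_norm]
        exact hz.2
    have hGc : ContinuousOn (fun z => f z + δ * t11_g α a z) K := by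
      intro z hz
      refine ContinuousAt.continuousWithinAt ?_
      exact (hcont z (hball z hz.2)).add
        (continuousAt_const.mul (t11_contDiff α a).continuous.continuousAt)
    obtain ⟨w, hwK, hw⟩ := hKc.exists_isMaxOn ⟨z₀, h1, h2⟩ hGc
    have hwz : f z₀ + δ * t11_g α a z₀ ≤ f w + δ * t11_g α a w := hw ⟨h1, h2⟩
    have hwM : M + δ * Real.exp (-α * R ^ 2) < f w + δ * t11_g α a w := h3.trans_le hwz
    have hwim := hball w hwK.2
    have hwr : r < ‖w - a‖ := by
      rcases hwK.1.lt_or_eq with h4 | h4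
      · exact h4
      · exfalso
        have h5 := hin w h4.ge
        have h6 : t11_g α a w ≤ 1 := by
          rw [hgval]
          exact Real.exp_le_one_iff.2 (by nlinarith [sq_nonneg ‖w - a‖])
        have h7 := Real.exp_pos (-α * R ^ 2)
        nlinarith
    have hwR : ‖w - a‖ < R := by
      rcases hwK.2.lt_or_eq with h4 | h4
      · exact h4
      · exfalso
        rw [hgval, h4] at hwM
        have := hM w hwim
        linarith
    have hloc : IsLocalMax (fun z => f z + δ * t11_g α a z) w := by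
      have hnhds : K ∈ 𝓝 w := by
        have h5 : IsOpen {z : ℂ | r < ‖z - a‖ ∧ ‖z - a‖ < R} :=
          (isOpen_lt continuous_const hnc).inter (isOpen_lt hnc continuous_const)
        exact Filter.mem_of_superset (h5.mem_nhds ⟨hwr, hwR⟩) fun z hz => ⟨hz.1.le, hz.2.le⟩
      filter_upwards [hnhds] with z hz
      exact hw hz
    have hf2 : ContDiffAt ℝ 2 f w := (hf w hwim).1.of_le (by norm_cast)
    have hg2 : ContDiffAt ℝ 2 (t11_g α a) w := (t11_contDiff α a).contDiffAt
    obtain ⟨-, -, m1, m2⟩ := lapl_max (hf2.add (contDiffAt_const.mul hg2)) hloc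
    have e1 : px (px fun z => f z + δ * t11_g α a z) w = px (px f) w + δ * px (px (t11_g α a)) w :=
      t11_second hf2 hg2 δ 1
    have e2 : py (py fun z => f z + δ * t11_g α a z) w = py (py f) w + δ * py (py (t11_g α a)) w :=
      t11_second hf2 hg2 δ Complex.I
    have e3 := t11_lapl α a w
    rw [← t11_norm] at e3
    have e4 := (hf w hwim).2
    have h8 : 2 < α * ‖w - a‖ ^ 2 := by
      rw [← hαr]
      have : r ^ 2 < ‖w - a‖ ^ 2 := by gcongr
      nlinarith
    have h9 : 0 < 4 * α * (α * ‖w - a‖ ^ 2 - 1) * t11_g α a w := by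
      have := hgpos w
      have : 0 < α * ‖w - a‖ ^ 2 - 1 := by linarith
      positivity
    rw [← e3] at h9
    have h10 := mul_pos hδ h9
    rw [e1] at m1
    rw [e2] at m2
    nlinarith
  intro z hz
  rcases le_total ‖z - a‖ r with h1 | h1
  · have := hin z h1
    linarith
  · have h2 := key z h1 hz.le
    have h3 : Real.exp (-α * R ^ 2) < t11_g α a z := by
      rw [hgval]
      refine Real.exp_lt_exp.2 ?_
      have : ‖z - a‖ ^ 2 < R ^ 2 := by
        have := norm_nonneg (z - a)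
        gcongr
      nlinarith
    nlinarith

theorem strong_max {f : ℂ → ℝ} (hf : SubL f) {z₁ : ℂ} (hz₁ : 0 < z₁.im)
    (hmax : ∀ z : ℂ, 0 < z.im → f z ≤ f z₁) : ∀ z : ℂ, 0 < z.im → f z = f z₁ := by
  have hopen : IsOpen {z : ℂ | 0 < z.im} := isOpen_lt continuous_const Complex.continuous_im
  have hcontOn : ContinuousOn f {z : ℂ | 0 < z.im} := fun z hz =>
    (hf z hz).1.continuousAt.continuousWithinAt
  have hU : IsOpen {z : ℂ | 0 < z.im ∧ f z = f z₁} := by
    rw [Metric.isOpen_iff]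
    rintro z₂ ⟨hz2, hz2'⟩
    refine ⟨z₂.im / 3, by positivity, fun a ha => ?_⟩
    rw [Metric.mem_ball, dist_eq_norm] at ha
    have him : ∀ z : ℂ, ‖z - a‖ ≤ z₂.im / 3 → 0 < z.im := by
      intro z hz
      have h1 := Complex.abs_im_le_norm (z - a)
      have h2 := Complex.abs_im_le_norm (a - z₂)
      rw [Complex.sub_im] at h1 h2
      have h3 := abs_le.1 h1
      have h4 := abs_le.1 h2
      linarith [h3.1, h4.1]
    have haim : 0 < a.im := him a (by simpa using (by positivity : (0 : ℝ) ≤ z₂.im / 3))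
    refine ⟨haim, ?_⟩
    by_contra hne
    have h5 : f a < f z₁ := lt_of_le_of_ne (hmax a haim) hne
    have h6 := t11_ball hf hmax (R := z₂.im / 3) (by positivity) him h5 z₂
      (by rw [norm_sub_rev]; exact ha)
    linarith
  have hV : IsOpen ({z : ℂ | 0 < z.im} ∩ f ⁻¹' Set.Iio (f z₁)) :=
    hcontOn.isOpen_inter_preimage hopen isOpen_Iio
  have hconn : IsPreconnected {z : ℂ | 0 < z.im} := (convex_halfSpace_im_gt 0).isPreconnected
  have hsub := IsPreconnected.subset_left_of_subset_union hU hV (by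
      rw [Set.disjoint_left]
      rintro z ⟨h1, h2⟩ ⟨h3, h4⟩
      have : f z < f z₁ := h4
      linarith) (by
      intro z hz
      rcases (hmax z hz).lt_or_eq with h1 | h1
      · exact Or.inr ⟨hz, h1⟩
      · exact Or.inl ⟨hz, h1⟩) ⟨z₁, hz₁, hz₁, rfl⟩ hconn
  intro z hz
  exact (hsub hz).2

end MP2794d1
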