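import Pool.Agent.Lib.MP_2794d1_ag.Defs

/-!
U00: Definitions for the intrinsic (basis independent) form of the theorem.
-/

namespace MP2794d1

open Matrix Complex Filter Topology
open scoped ContDiff

/-- An integral matrix, viewed over `ℚ`. -/
def qm {n : ℕ} (X : Matrix (Fin n) (Fin n) ℤ) : Matrix (Fin n) (Fin n) ℚ :=
  X.map (fun q : ℤ => (q : ℚ))

/-- The adjoint of `A` with respect to the polarisation `Q`: `Q (A x, y) = Q (x, A' y)`. -/
noncomputable def radj {n : ℕ} (Q A : Matrix (Fin n) (Fin n) ℤ) : Matrix (Fin n) (Fin n) ℚ :=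
  (qm Q)⁻¹ * (qm A)ᵀ * qm Q

/-- `z` is a CM point of complexity at most `H`: some endomorphism `A` of the integral Hodge
structure at `z` has separable characteristic polynomial and `trace (A A') ≤ H ^ 2`, where `A'` is
the adjoint of `A` with respect to the polarisation (the trace is the square of the Hodge norm of
`A`). -/
def IsCMc {n : ℕ} (V : PolVHS n) (z : ℂ) (H : ℝ) : Prop :=
  ∃ A : Matrix (Fin n) (Fin n) ℤ, (im A).charpoly.Separable ∧
    (∀ p, ∀ x ∈ V.F p z, (im A) *ᵥ x ∈ V.F p z) ∧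
    (((qm A * radj V.Q A).trace : ℚ) : ℝ) ≤ H ^ 2

/-- `Δ \ ℍ` is a compact Riemann surface minus finitely many points: outside the orbit of a compact
subset of `ℍ` every point is equivalent to a point of one of finitely many cusp neighbourhoods
`σ i {w | |Re w| ≤ 1, 1 ≤ Im w}`, and `Δ` contains the parabolic elements `σ i (w ↦ w + 1) (σ i)⁻¹`. -/
def FiniteType (Δ : Subgroup (Matrix.SpecialLinearGroup (Fin 2) ℝ)) : Prop :=
  ∃ (K : Set ℂ) (m : ℕ) (σ : Fin m → Matrix.SpecialLinearGroup (Fin 2) ℝ),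
    IsCompact K ∧ (∀ z ∈ K, 0 < z.im) ∧
    (∀ i, ∃ T ∈ Δ, ∀ w : ℂ, 0 < w.im → mob T (mob (σ i) w) = mob (σ i) (w + 1)) ∧
    ∀ z : ℂ, 0 < z.im → ∃ g ∈ Δ, mob g z ∈ K ∨
      ∃ i, ∃ w : ℂ, |w.re| ≤ 1 ∧ 1 ≤ w.im ∧ mob g z = mob (σ i) w

end MP2794d1
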