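import Pool.Agent.Lib.MP_2794d1_ag.T09
import Pool.Agent.Lib.MP_2794d1_ag.T10
import Pool.Agent.Lib.MP_2794d1_ag.T11
import Pool.Agent.Lib.MP_2794d1_ag.U00
import Pool.Agent.Lib.MP_2794d1_ag.F07

/-!
T12: Parabolicity: a Δ-invariant smooth subharmonic function of logarithmic growth at the cusps is constant. With K, σ from
FiniteType: for every i the function f ∘ mob (σ i) is SubL (SubL.comp), 1-periodic (hinv with T), so by cusp_max bounded on the
cusp neighbourhood by its supremum over the segment |re w| ≤ 1, im w = 1 (compact). So f ≤ max over the compact set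
K ∪ ⋃ i σ i {|re w| ≤ 1, im w = 1} everywhere (hinv); this set is compact and f continuous on it (if it is empty then the upper
half plane would be empty), so f attains its maximum over the upper half plane: strong_max.
-/

namespace MP2794d1

open Matrix Complex Filter Topology
open scoped ContDiff

theorem parabolic {Δ : Subgroup (Matrix.SpecialLinearGroup (Fin 2) ℝ)} (hΔ : FiniteType Δ)
    {f : ℂ → ℝ} (hf : SubL f) (hinv : ∀ g ∈ Δ, ∀ z : ℂ, 0 < z.im → f (mob g z) = f z)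
    (hg : ∀ σ : Matrix.SpecialLinearGroup (Fin 2) ℝ, ∃ C K : ℝ, 0 ≤ K ∧ ∀ w : ℂ, |w.re| ≤ 1 →
      1 ≤ w.im → f (mob σ w) ≤ C + K * Real.log w.im) :
    ∀ z w : ℂ, 0 < z.im → 0 < w.im → f z = f w := by
  obtain ⟨K, m, σ, hK, hKim, hT, hcov⟩ := hΔ
  -- the segment
  let S : Set ℂ := Set.Icc (-1 : ℝ) 1 ×ℂ {1}
  have hS : IsCompact S := isCompact_Icc.reProdIm isCompact_singleton
  have hSim : ∀ w ∈ S, w.im = 1 := fun w hw => hw.2
  have hSmem : ∀ w : ℂ, |w.re| ≤ 1 → w.im = 1 → w ∈ S := fun w h1 h2 => ⟨abs_le.1 h1, h2⟩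
  let L : Set ℂ := K ∪ ⋃ i : Fin m, (mob (σ i)) '' S
  have hL : IsCompact L := by
    refine hK.union (isCompact_iUnion fun i => hS.image_of_continuousOn ?_)
    intro w hw
    exact (mob_analytic (σ i) w (by rw [hSim w hw]; norm_num)).1.continuousAt.continuousWithinAt
  have hLim : ∀ z ∈ L, 0 < z.im := by
    rintro z (hz | hz)
    · exact hKim z hz
    · rw [Set.mem_iUnion] at hz
      obtain ⟨i, w, hw, rfl⟩ := hz
      exact mob_im_pos _ _ (by rw [hSim w hw]; norm_num)
  have hLne : L.Nonempty := by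
    obtain ⟨g, _, h | ⟨i, w, _, _, _⟩⟩ := hcov Complex.I (by simp)
    · exact ⟨_, Or.inl h⟩
    · refine ⟨mob (σ i) Complex.I, Or.inr (Set.mem_iUnion.2 ⟨i, Complex.I, hSmem _ ?_ ?_, rfl⟩)⟩
      · simp
      · simp
  have hfc : ContinuousOn f L := fun z hz => (hf z (hLim z hz)).1.continuousAt.continuousWithinAt
  obtain ⟨z₁, hz₁, hmax⟩ := hL.exists_isMaxOn hLne hfc
  have hall : ∀ z : ℂ, 0 < z.im → f z ≤ f z₁ := by
    intro z hz
    obtain ⟨g, hgΔ, h⟩ := hcov z hz
    rw [← hinv g hgΔ z hz]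
    rcases h with h | ⟨i, w, hw1, hw2, hw⟩
    · exact hmax (Or.inl h)
    · rw [hw]
      obtain ⟨C, K', hK', hgr⟩ := hg (σ i)
      obtain ⟨T, hTΔ, hTw⟩ := hT i
      refine cusp_max (f := fun w => f (mob (σ i) w)) (hf.comp (σ i)) ?_ C K' hK' hgr (f z₁) ?_ w
        hw1 hw2
      · intro y hy
        change f (mob (σ i) (y + 1)) = f (mob (σ i) y)
        rw [← hTw y hy]
        exact hinv T hTΔ _ (mob_im_pos _ _ hy)
      · intro y hy1 hy2
        exact hmax (Or.inr (Set.mem_iUnion.2 ⟨i, y, hSmem y hy1 hy2, rfl⟩))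
  intro z w hz hw
  have h1 := strong_max hf (hLim z₁ hz₁) hall
  rw [h1 z hz, h1 w hw]

end MP2794d1
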