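import Pool.Agent.Lib.MP_2794d1_ag.F07

/-!
F08: comparison of velocities at z and at g z. Let ρ = im (V.rho g), ρ' = im (V.rho g⁻¹), ρ ρ' = ρ' ρ = 1, y0 = mob g z.
Let x ∈ V.F p y0; by V.hol and F01 there is an analytic section s of F p near y0 with s y0 = x (s y = P y *ᵥ x). Then
t y := ρ' *ᵥ s (mob g y) is an analytic section of F p near z (V.equiv: F p (mob g y) = ρ F p y for y near z), t z = ρ' x,
deriv t z = γ' • ρ' *ᵥ s'(y0) with γ' = deriv (mob g) z. Vel at z: γ' ρ' s'(y0) - c N ρ' x ∈ F p z; apply ρ: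
γ' s'(y0) - c (ρ N ρ') x ∈ F p y0. Vel at y0: s'(y0) - c2 N x ∈ F p y0. So (ρ N ρ' - (γ' c2/c) N) x ∈ F p y0 for every
p and x ∈ F p y0.
-/

namespace MP2794d1

open Matrix Complex Filter Topology

theorem F08_im_mul {n : ℕ} (A B : Matrix (Fin n) (Fin n) ℤ) : im (A * B) = im A * im B := by
  have : ∀ X : Matrix (Fin n) (Fin n) ℤ, im X = X.map (Int.castRingHom ℂ) := fun X => rfl
  rw [this, this, this, Matrix.map_mul]

theorem F08_im_one {n : ℕ} : im (1 : Matrix (Fin n) (Fin n) ℤ) = 1 := by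
  have : im (1 : Matrix (Fin n) (Fin n) ℤ) =
      (1 : Matrix (Fin n) (Fin n) ℤ).map (Int.castRingHom ℂ) := rfl
  rw [this, Matrix.map_one _ (map_zero _) (map_one _)]

theorem F08_rho {n : ℕ} (V : PolVHS n) (g : V.grp) :
    im (V.rho g : Matrix (Fin n) (Fin n) ℤ) * im (V.rho g⁻¹ : Matrix (Fin n) (Fin n) ℤ) = 1 ∧
    im (V.rho g⁻¹ : Matrix (Fin n) (Fin n) ℤ) * im (V.rho g : Matrix (Fin n) (Fin n) ℤ) = 1 := by
  constructor
  · rw [← F08_im_mul, ← Units.val_mul, ← map_mul, mul_inv_cancel, map_one, Units.val_one,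
      F08_im_one]
  · rw [← F08_im_mul, ← Units.val_mul, ← map_mul, inv_mul_cancel, map_one, Units.val_one,
      F08_im_one]

theorem vel_equiv {n : ℕ} (V : PolVHS n) (g : V.grp) (N : Matrix (Fin n) (Fin n) ℂ) (z c c2 : ℂ)
    (hz : 0 < z.im) (hv : Vel V N z c) (hc : c ≠ 0)
    (hv2 : Vel V N (mob g z) c2) :
    ∃ b : ℂ, im (V.rho g : Matrix (Fin n) (Fin n) ℤ) * N * im (V.rho g⁻¹ : Matrix (Fin n) (Fin n) ℤ)
      - b • N ∈ FEnd (fun p => V.F p (mob g z)) 0 := by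
  obtain ⟨h1, h2⟩ := F08_rho V g
  set ρ := im (V.rho g : Matrix (Fin n) (Fin n) ℤ) with hρ
  set ρ' := im (V.rho g⁻¹ : Matrix (Fin n) (Fin n) ℤ) with hρ'
  have hy0 : 0 < (mob g z).im := mob_im_pos _ z hz
  obtain ⟨hmob, -⟩ := mob_analytic (g : Matrix.SpecialLinearGroup (Fin 2) ℝ) z hz
  refine ⟨deriv (mob g) z * c2 / c, ?_⟩
  intro p x hx
  show (ρ * N * ρ' - (deriv (mob g) z * c2 / c) • N) *ᵥ x ∈ V.F (p + 0) (mob g z)
  rw [add_zero]
  obtain ⟨Pr, hPan, hPev⟩ := (V.hol p (mob g z) hy0).proj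
  have hP0 := hPev.self_of_nhds
  have hx' : Pr (mob g z) *ᵥ x = x := by
    have : x ∈ LinearMap.range (Pr (mob g z)).mulVecLin := by rw [← hP0.2]; exact hx
    exact (proj_mem_iff hP0.1 x).1 this
  -- the section at the point `mob g z`
  have hsan : ∀ i, AnalyticAt ℂ (fun y => (Pr y *ᵥ x) i) (mob g z) := by
    intro i
    simp only [Matrix.mulVec, dotProduct]
    exact Finset.analyticAt_fun_sum _ fun j _ => (hPan i j).mul analyticAt_const
  have hsev : ∀ᶠ y in 𝓝 (mob g z), Pr y *ᵥ x ∈ V.F p y := by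
    filter_upwards [hPev] with y hy
    rw [hy.2]
    exact ⟨x, rfl⟩
  have v2 := hv2 p (fun y => Pr y *ᵥ x) hsan hsev
  -- the section at `z`
  have htan : ∀ i, AnalyticAt ℂ (fun y => (ρ' *ᵥ (Pr (mob g y) *ᵥ x)) i) z := by
    intro i
    have : (fun y => (ρ' *ᵥ (Pr (mob g y) *ᵥ x)) i) =
        fun y => ∑ j, ρ' i j * (Pr (mob g y) *ᵥ x) j := rfl
    rw [this]
    refine Finset.analyticAt_fun_sum _ fun j _ => analyticAt_const.mul ?_
    exact (hsan j).comp hmob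
  have htev : ∀ᶠ y in 𝓝 z, ρ' *ᵥ (Pr (mob g y) *ᵥ x) ∈ V.F p y := by
    have e1 : ∀ᶠ y in 𝓝 z, Pr (mob g y) *ᵥ x ∈ V.F p (mob g y) :=
      hmob.continuousAt.eventually hsev
    have e2 : ∀ᶠ y in 𝓝 z, 0 < y.im :=
      (isOpen_lt continuous_const Complex.continuous_im).mem_nhds hz
    filter_upwards [e1, e2] with y hy1 hy2
    rw [V.equiv g p y hy2] at hy1
    obtain ⟨w, hw, hw2⟩ := hy1
    rw [← hw2]
    show ρ' *ᵥ (ρ *ᵥ w) ∈ V.F p y
    rw [Matrix.mulVec_mulVec, h2, Matrix.one_mulVec]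
    exact hw
  have v1 := hv p (fun y => ρ' *ᵥ (Pr (mob g y) *ᵥ x)) htan htev
  -- the derivative of the transported section
  have hder : (fun i => deriv (fun y => (ρ' *ᵥ (Pr (mob g y) *ᵥ x)) i) z) =
      deriv (mob g) z • (ρ' *ᵥ fun i => deriv (fun y => (Pr y *ᵥ x) i) (mob g z)) := by
    funext i
    have hmd : HasDerivAt (mob g) (deriv (mob g) z) z := hmob.differentiableAt.hasDerivAt
    have hd : HasDerivAt (fun y => ∑ j, ρ' i j * (Pr (mob g y) *ᵥ x) j)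
        (∑ j, ρ' i j * (deriv (fun y => (Pr y *ᵥ x) j) (mob g z) * deriv (mob g) z)) z := by
      refine HasDerivAt.fun_sum fun j _ => HasDerivAt.const_mul _ ?_
      exact HasDerivAt.comp z (hsan j).differentiableAt.hasDerivAt hmd
    have : (fun y => (ρ' *ᵥ (Pr (mob g y) *ᵥ x)) i) =
        fun y => ∑ j, ρ' i j * (Pr (mob g y) *ᵥ x) j := rfl
    rw [this, hd.deriv]
    simp only [Pi.smul_apply, smul_eq_mul, Matrix.mulVec, dotProduct, Finset.mul_sum]
    refine Finset.sum_congr rfl fun j _ => by ring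
  rw [hder] at v1
  -- apply the matrix of the group element
  have v3 : ρ *ᵥ (deriv (mob g) z • (ρ' *ᵥ fun i => deriv (fun y => (Pr y *ᵥ x) i) (mob g z)) -
      c • (N *ᵥ (ρ' *ᵥ (Pr (mob g z) *ᵥ x)))) ∈ V.F p (mob g z) := by
    rw [V.equiv g p z hz]
    exact ⟨_, v1, rfl⟩
  rw [hx', Matrix.mulVec_sub, Matrix.mulVec_smul, Matrix.mulVec_smul, Matrix.mulVec_mulVec, h1,
    Matrix.one_mulVec, Matrix.mulVec_mulVec, Matrix.mulVec_mulVec] at v3
  simp only [hx'] at v2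
  have v4 := (V.F p (mob g z)).sub_mem ((V.F p (mob g z)).smul_mem (deriv (mob g) z) v2) v3
  have v5 := (V.F p (mob g z)).smul_mem c⁻¹ v4
  convert v5 using 1
  rw [Matrix.sub_mulVec, Matrix.smul_mulVec]
  ext i
  simp only [Pi.sub_apply, Pi.smul_apply, smul_eq_mul]
  field_simp
  ring

end MP2794d1
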