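import Pool.Agent.Lib.MP_2794d1_ag.J04
import Pool.Agent.Lib.MP_2794d1_ag.E04
import Pool.Agent.Lib.MP_2794d1_ag.F07
import Pool.Agent.Lib.MP_2794d1_ag.F08
import Pool.Agent.Lib.MP_2794d1_ag.S01

/-!
J07: Equivariance. With ρ = im (V.rho g), ρ' = im (V.rho g⁻¹), F p (mob g z) = ρ F p z (V.equiv), ρ real, ρᵀ Q ρ = Q:
ρ * Π p z * ρ' satisfies the two conditions of prj_unique at mob g z (conjSub of ρ F is ρ conjSub F since ρ is real), and
ρ J ρ' is a grading at mob g z (gr_unique). CV by its definition. hf: star (ρ v) ⬝ᵥ Q ρ C ρ' ρ w = star v ⬝ᵥ ρᵀ Q ρ C w.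
Adapted: the columns of ρ S. For JV near z: JV V (mob g y) = ρ JV V y ρ' for all y in the upper half plane.
-/

namespace MP2794d1

open Matrix Complex Filter Topology
open scoped ContDiff

section J07aux
variable {n : ℕ}

theorem J07_mconj_im (X : Matrix (Fin n) (Fin n) ℤ) : mconj (im X) = im X := by
  ext i j; simp [mconj, im]

theorem J07_mconj_mul (X Y : Matrix (Fin n) (Fin n) ℂ) : mconj (X * Y) = mconj X * mconj Y := by
  unfold mconj
  exact Matrix.map_mul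

theorem J07_star_im (X : Matrix (Fin n) (Fin n) ℤ) (x : Fin n → ℂ) :
    star (im X *ᵥ x) = im X *ᵥ star x := by
  rw [E03_star, J07_mconj_im]

theorem J07_mem (V : PolVHS n) (g : V.grp) {z : ℂ} (hz : 0 < z.im) (p : ℤ) (x : Fin n → ℂ) :
    x ∈ V.F p (mob g z) ↔ im (V.rho g⁻¹ : Matrix (Fin n) (Fin n) ℤ) *ᵥ x ∈ V.F p z := by
  obtain ⟨h1, h2⟩ := rho_mul_inv V g
  rw [V.equiv g p z hz, Submodule.mem_map]
  constructor
  · rintro ⟨y, hy, rfl⟩
    rw [Matrix.mulVecLin_apply, Matrix.mulVec_mulVec, h2, Matrix.one_mulVec]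
    exact hy
  · intro h
    refine ⟨_, h, ?_⟩
    rw [Matrix.mulVecLin_apply, Matrix.mulVec_mulVec, h1, Matrix.one_mulVec]

theorem J07_cmem (V : PolVHS n) (g : V.grp) {z : ℂ} (hz : 0 < z.im) (p : ℤ) (x : Fin n → ℂ) :
    x ∈ conjSub (V.F p (mob g z)) ↔
      im (V.rho g⁻¹ : Matrix (Fin n) (Fin n) ℤ) *ᵥ x ∈ conjSub (V.F p z) := by
  show star x ∈ V.F p (mob g z) ↔ star (im (V.rho g⁻¹ : Matrix (Fin n) (Fin n) ℤ) *ᵥ x) ∈ V.F p z
  rw [J07_mem V g hz, J07_star_im]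

end J07aux

variable {n : ℕ} (V : PolVHS n) (g : V.grp) {z : ℂ} (hz : 0 < z.im)
include hz

theorem PiV_equiv (p : ℤ) : PiV V p (mob g z) = im (V.rho g : Matrix (Fin n) (Fin n) ℤ) *
    PiV V p z * im (V.rho g⁻¹ : Matrix (Fin n) (Fin n) ℤ) := by
  obtain ⟨h1, h2⟩ := rho_mul_inv V g
  have hz' : 0 < (mob g z).im := mob_im_pos _ z hz
  rw [PiV_eq V hz' p]
  symm
  refine prj_unique (V.phs _ hz') p _ ?_ ?_
  · intro x hx
    have hx' := (J07_mem V g hz p x).1 hx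
    rw [PiV_mem V hz p] at hx'
    rw [← Matrix.mulVec_mulVec, ← Matrix.mulVec_mulVec, hx', Matrix.mulVec_mulVec, h1,
      Matrix.one_mulVec]
  · intro x hx
    have hx' := (J07_cmem V g hz (V.wt + 1 - p) x).1 hx
    rw [prj_ker (V.phs z hz) p] at hx'
    rw [← Matrix.mulVec_mulVec, ← Matrix.mulVec_mulVec, PiV_eq V hz p, hx', Matrix.mulVec_zero]

theorem JV_equiv : JV V (mob g z) = im (V.rho g : Matrix (Fin n) (Fin n) ℤ) *
    JV V z * im (V.rho g⁻¹ : Matrix (Fin n) (Fin n) ℤ) := by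
  obtain ⟨h1, h2⟩ := rho_mul_inv V g
  have hz' : 0 < (mob g z).im := mob_im_pos _ z hz
  refine gr_unique (V.phs _ hz') (JV_gr V hz') ?_
  intro p x hx
  obtain ⟨hx1, hx2⟩ := Submodule.mem_inf.1 hx
  have e1 := (J07_mem V g hz p x).1 hx1
  have e2 := (J07_cmem V g hz (V.wt - p) x).1 hx2
  have e3 := JV_gr V hz p _ (Submodule.mem_inf.2 ⟨e1, e2⟩)
  rw [← Matrix.mulVec_mulVec, ← Matrix.mulVec_mulVec, e3, Matrix.mulVec_smul,
    Matrix.mulVec_mulVec, h1, Matrix.one_mulVec]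

theorem CV_equiv : CV V (mob g z) = im (V.rho g : Matrix (Fin n) (Fin n) ℤ) *
    CV V z * im (V.rho g⁻¹ : Matrix (Fin n) (Fin n) ℤ) := by
  obtain ⟨h1, h2⟩ := rho_mul_inv V g
  unfold CV
  rw [Matrix.mul_add, Matrix.add_mul, Matrix.mul_smul, Matrix.mul_one, Matrix.smul_mul, h1,
    Finset.mul_sum, Finset.sum_mul]
  congr 1
  refine Finset.sum_congr rfl fun p _ => ?_
  rw [PiV_equiv V g hz p, Matrix.mul_smul, Matrix.smul_mul]

theorem qf_equiv (v : Fin n → ℂ) :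
    qf V (mob g z) (im (V.rho g : Matrix (Fin n) (Fin n) ℤ) *ᵥ v) = qf V z v := by
  obtain ⟨h1, h2⟩ := rho_mul_inv V g
  unfold qf hf
  rw [CV_equiv V g hz, J07_star_im]
  congr 2
  have e1 : (im (V.rho g : Matrix (Fin n) (Fin n) ℤ) * CV V z *
      im (V.rho g⁻¹ : Matrix (Fin n) (Fin n) ℤ)) *ᵥ
      (im (V.rho g : Matrix (Fin n) (Fin n) ℤ) *ᵥ v) =
      im (V.rho g : Matrix (Fin n) (Fin n) ℤ) *ᵥ (CV V z *ᵥ v) := by
    rw [← Matrix.mulVec_mulVec, ← Matrix.mulVec_mulVec, Matrix.mulVec_mulVec v, h2,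
      Matrix.one_mulVec]
  rw [e1]
  have hf := S01_flat V g
  have e2 : ∀ (X : Matrix (Fin n) (Fin n) ℂ) (a b : Fin n → ℂ),
      (X *ᵥ a) ⬝ᵥ b = a ⬝ᵥ (Xᵀ *ᵥ b) := by
    intro X a b
    rw [Matrix.dotProduct_mulVec, Matrix.vecMul_transpose]
  rw [e2]
  generalize CV V z *ᵥ v = w
  rw [Matrix.mulVec_mulVec, Matrix.mulVec_mulVec, hf]

theorem adapted_equiv {S : Matrix (Fin n) (Fin n) ℂ} {d : Fin n → ℤ}
    (hS : Adapted V.wt V.Q (fun p => V.F p z) S d) :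
    Adapted V.wt V.Q (fun p => V.F p (mob g z))
      (im (V.rho g : Matrix (Fin n) (Fin n) ℤ) * S) d := by
  obtain ⟨h1, h2⟩ := rho_mul_inv V g
  have hcol : ∀ a, (im (V.rho g : Matrix (Fin n) (Fin n) ℤ) * S)ᵀ a =
      (im (V.rho g : Matrix (Fin n) (Fin n) ℤ)).mulVecLin (Sᵀ a) := by
    intro a
    funext i
    rfl
  have himg : ∀ A : Set (Fin n), (im (V.rho g : Matrix (Fin n) (Fin n) ℤ) * S)ᵀ '' A =
      (im (V.rho g : Matrix (Fin n) (Fin n) ℤ)).mulVecLin '' (Sᵀ '' A) := by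
    intro A
    rw [Set.image_image]
    exact Set.image_congr fun a _ => hcol a
  have hcmap : ∀ p, conjSub (V.F p (mob g z)) = (conjSub (V.F p z)).map
      (im (V.rho g : Matrix (Fin n) (Fin n) ℤ)).mulVecLin := by
    intro p
    ext x
    rw [J07_cmem V g hz, Submodule.mem_map]
    constructor
    · intro h
      refine ⟨_, h, ?_⟩
      rw [Matrix.mulVecLin_apply, Matrix.mulVec_mulVec, h1, Matrix.one_mulVec]
    · rintro ⟨y, hy, rfl⟩
      rw [Matrix.mulVecLin_apply, Matrix.mulVec_mulVec, h2, Matrix.one_mulVec]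
      exact hy
  refine ⟨?_, ?_, ?_, ?_⟩
  · rw [Matrix.det_mul]
    refine IsUnit.mul ?_ hS.inv
    refine IsUnit.of_mul_eq_one (im (V.rho g⁻¹ : Matrix (Fin n) (Fin n) ℤ)).det ?_
    rw [← Matrix.det_mul, h1, Matrix.det_one]
  · intro p
    show V.F p (mob g z) = _
    rw [V.equiv g p z hz, himg, ← Submodule.map_span]
    congr 1
    exact hS.fl p
  · intro p
    show conjSub (V.F p (mob g z)) = _
    rw [hcmap, himg, ← Submodule.map_span]
    congr 1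
    exact hS.cfl p
  · rw [J07_mconj_mul, J07_mconj_im, Matrix.transpose_mul, ← hS.on]
    calc Sᵀ * (im (V.rho g : Matrix (Fin n) (Fin n) ℤ))ᵀ * im V.Q *
          (im (V.rho g : Matrix (Fin n) (Fin n) ℤ) * mconj S)
        = Sᵀ * ((im (V.rho g : Matrix (Fin n) (Fin n) ℤ))ᵀ * im V.Q *
          im (V.rho g : Matrix (Fin n) (Fin n) ℤ)) * mconj S := by
          simp only [Matrix.mul_assoc]
      _ = Sᵀ * im V.Q * mconj S := by rw [S01_flat V g]

end MP2794d1
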