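import Pool.Agent.Lib.MP_2794d1_ag.J04
import Pool.Agent.Lib.MP_2794d1_ag.K01

/-!
L01: The Weil operator and the Hodge norm in an adapted basis. CV_adapted: from prj_adapted (PiV_eq) and adapted_bounds: the
diagonal entry at a is (-1)^lo + ∑_{p ∈ Ioo lo hi, p ≤ d a} 2 (-1)^p = (-1)^(d a) (induction on d a - lo; lo ≤ d a < hi).
qf_adapted: hS.on conjugated reads (mconj S)ᵀ Q S = diagonal (conj I^(wt - 2 d a)) = diagonal (I^(2 d a - wt)); with
v = S c, w = S c': hf = I^wt ∑ conj(c a) I^(2 d a - wt) (-1)^(d a) c' a = ∑ conj (c a) c' a since I^(2d) (-1)^d = 1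
(zpow). hf_mconj: mconj C = (-1)^wt C follows from mconj Π p = 1 - Π (wt + 1 - p) or from the adapted basis. TV_frob:
tr_deg1 with μ = JV. TVc_frob: the same for mconj θ: trace (θ mconj θ) = trace (mconj θ θ), and by the relation in
tr_polar |(S⁻¹ mconj θ S) b a| = |(S⁻¹ θ S) a b|.
-/

namespace MP2794d1

open Matrix Complex Filter Topology
open scoped ContDiff

/-- alternating sum -/
theorem L01_alt (lo hi d : ℤ) (h1 : lo ≤ d) (h2 : d < hi) :
    (-1 : ℂ) ^ lo + ∑ p ∈ Finset.Ioo lo hi, (2 * (-1 : ℂ) ^ p) * (if p ≤ d then (1 : ℂ) else 0) =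
      (-1 : ℂ) ^ d := by
  induction d, h1 using Int.leInduction with
  | base =>
    have h3 : ∑ p ∈ Finset.Ioo lo hi, (2 * (-1 : ℂ) ^ p) * (if p ≤ lo then (1 : ℂ) else 0) = 0 := by
      apply Finset.sum_eq_zero
      intro p hp
      rw [Finset.mem_Ioo] at hp
      rw [if_neg (by omega), mul_zero]
    rw [h3, add_zero]
  | succ d hd ih =>
    have h3 : ∀ p ∈ Finset.Ioo lo hi, (2 * (-1 : ℂ) ^ p) * (if p ≤ d + 1 then (1 : ℂ) else 0) =
        (2 * (-1 : ℂ) ^ p) * (if p ≤ d then (1 : ℂ) else 0) +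
        (if p = d + 1 then (2 * (-1 : ℂ) ^ p) else 0) := by
      intro p _
      by_cases h4 : p ≤ d
      · rw [if_pos h4, if_pos (by omega), if_neg (by omega)]
        ring
      · by_cases h5 : p = d + 1
        · rw [if_neg h4, if_pos (by omega), if_pos h5]
          ring
        · rw [if_neg h4, if_neg (by omega), if_neg h5]
          ring
    rw [Finset.sum_congr rfl h3, Finset.sum_add_distrib, Finset.sum_ite_eq', if_pos, ← add_assoc,
      ih (by omega), zpow_add₀ (by norm_num : (-1 : ℂ) ≠ 0)]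
    · ring
    · rw [Finset.mem_Ioo]
      omega

theorem L01_conj {n : ℕ} {S : Matrix (Fin n) (Fin n) ℂ} (hS : IsUnit S.det)
    (D : Matrix (Fin n) (Fin n) ℂ) : S⁻¹ * (S * D * S⁻¹) * S = D := by
  have h1 : S⁻¹ * S = 1 := Matrix.nonsing_inv_mul S hS
  calc S⁻¹ * (S * D * S⁻¹) * S = (S⁻¹ * S) * D * (S⁻¹ * S) := by noncomm_ring
    _ = D := by rw [h1, one_mul, mul_one]

theorem L01_sgn_sq (k : ℤ) : (-1 : ℂ) ^ k * (-1 : ℂ) ^ k = 1 := by
  rw [← mul_zpow]
  simp

theorem L01_I (k : ℤ) : (Complex.I) ^ (2 * k) * (-1 : ℂ) ^ k = 1 := by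
  rw [_root_.zpow_mul]
  have h1 : (Complex.I) ^ (2 : ℤ) = -1 := by
    rw [show (2 : ℤ) = ((2 : ℕ) : ℤ) by norm_num, zpow_natCast, Complex.I_sq]
  rw [h1, L01_sgn_sq]

variable {n : ℕ} (V : PolVHS n) {z : ℂ} (hz : 0 < z.im) {S : Matrix (Fin n) (Fin n) ℂ}
  {d : Fin n → ℤ}
include hz

theorem CV_adapted (hS : Adapted V.wt V.Q (fun p => V.F p z) S d) :
    CV V z = S * Matrix.diagonal (fun a => (-1 : ℂ) ^ d a) * S⁻¹ := by
  have hb : ∀ a, V.lo ≤ d a ∧ d a < V.hi := adapted_bounds hS (V.F_lo z hz) (V.F_hi z hz)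
  have h1 : CV V z = S * (((-1 : ℂ) ^ V.lo) • (1 : Matrix (Fin n) (Fin n) ℂ) +
      ∑ p ∈ Finset.Ioo V.lo V.hi, (2 * (-1 : ℂ) ^ p) •
        Matrix.diagonal (fun a => if p ≤ d a then (1 : ℂ) else 0)) * S⁻¹ := by
    unfold CV
    rw [Matrix.mul_add, Matrix.add_mul, Matrix.mul_smul, Matrix.smul_mul, mul_one,
      Matrix.mul_nonsing_inv S hS.inv, Matrix.mul_sum, Matrix.sum_mul]
    congr 1
    apply Finset.sum_congr rfl
    intro p _
    rw [Matrix.mul_smul, Matrix.smul_mul, PiV_eq V hz p, prj_adapted (V.phs z hz) hS p]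
  rw [h1]
  congr 2
  ext a b
  rw [Matrix.add_apply, Matrix.smul_apply, Matrix.sum_apply]
  by_cases hab : a = b
  · subst hab
    rw [Matrix.diagonal_apply_eq, Matrix.one_apply_eq, smul_eq_mul, mul_one,
      ← L01_alt V.lo V.hi (d a) (hb a).1 (hb a).2]
    congr 1
    apply Finset.sum_congr rfl
    intro p _
    rw [Matrix.smul_apply, Matrix.diagonal_apply_eq, smul_eq_mul]
  · rw [Matrix.diagonal_apply_ne _ hab, Matrix.one_apply_ne hab, smul_zero, zero_add]
    apply Finset.sum_eq_zero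
    intro p _
    rw [Matrix.smul_apply, Matrix.diagonal_apply_ne _ hab, smul_zero]

theorem CV_sq : CV V z * CV V z = 1 := by
  obtain ⟨S, d, hS⟩ := exists_adapted (V.phs z hz)
  have h1 : S⁻¹ * S = 1 := Matrix.nonsing_inv_mul S hS.inv
  have h2 : S * S⁻¹ = 1 := Matrix.mul_nonsing_inv S hS.inv
  rw [CV_adapted V hz hS]
  have h3 : Matrix.diagonal (fun a => (-1 : ℂ) ^ d a) * Matrix.diagonal (fun a => (-1 : ℂ) ^ d a) =
      (1 : Matrix (Fin n) (Fin n) ℂ) := by
    rw [Matrix.diagonal_mul_diagonal, ← Matrix.diagonal_one]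
    congr 1
    funext a
    exact L01_sgn_sq (d a)
  calc S * Matrix.diagonal (fun a => (-1 : ℂ) ^ d a) * S⁻¹ *
        (S * Matrix.diagonal (fun a => (-1 : ℂ) ^ d a) * S⁻¹) =
      S * (Matrix.diagonal (fun a => (-1 : ℂ) ^ d a) * (S⁻¹ * S) *
        Matrix.diagonal (fun a => (-1 : ℂ) ^ d a)) * S⁻¹ := by noncomm_ring
    _ = 1 := by rw [h1, mul_one, h3, mul_one, h2]

theorem L01_deg (hS : Adapted V.wt V.Q (fun p => V.F p z) S d) (a b : Fin n)
    (h : (S⁻¹ * TV V z * S) a b ≠ 0) : d b = d a + 1 := by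
  have h1 := E05_mu hS (JV_gr V hz) (TV V z) a b
  rw [JV_br V hz, Matrix.mul_neg, Matrix.neg_mul, Matrix.neg_apply] at h1
  have h2 : (((d a : ℂ) - (d b : ℂ)) + 1) * (S⁻¹ * TV V z * S) a b = 0 := by
    linear_combination -h1
  rcases mul_eq_zero.1 h2 with h3 | h3
  · have h4 : ((d b : ℤ) : ℂ) = ((d a + 1 : ℤ) : ℂ) := by
      push_cast
      linear_combination -h3
    exact_mod_cast h4
  · exact absurd h3 h

theorem L01_degc (hS : Adapted V.wt V.Q (fun p => V.F p z) S d) (a b : Fin n)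
    (h : (S⁻¹ * mconj (TV V z) * S) a b ≠ 0) : d a = d b + 1 := by
  have h1 := E05_mu hS (JV_gr V hz) (mconj (TV V z)) a b
  rw [JV_br' V hz] at h1
  have h2 : (((d a : ℂ) - (d b : ℂ)) - 1) * (S⁻¹ * mconj (TV V z) * S) a b = 0 := by
    linear_combination -h1
  rcases mul_eq_zero.1 h2 with h3 | h3
  · have h4 : ((d a : ℤ) : ℂ) = ((d b + 1 : ℤ) : ℂ) := by
      push_cast
      linear_combination h3
    exact_mod_cast h4
  · exact absurd h3 h

theorem L01_CX (hS : Adapted V.wt V.Q (fun p => V.F p z) S d) (X : Matrix (Fin n) (Fin n) ℂ)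
    (a b : Fin n) : (S⁻¹ * (CV V z * X) * S) a b = (-1 : ℂ) ^ d a * (S⁻¹ * X * S) a b := by
  have h1 : S⁻¹ * S = 1 := Matrix.nonsing_inv_mul S hS.inv
  have h2 : S⁻¹ * (CV V z * X) * S =
      Matrix.diagonal (fun a => (-1 : ℂ) ^ d a) * (S⁻¹ * X * S) := by
    rw [CV_adapted V hz hS]
    calc S⁻¹ * (S * Matrix.diagonal (fun a => (-1 : ℂ) ^ d a) * S⁻¹ * X) * S =
        (S⁻¹ * S) * Matrix.diagonal (fun a => (-1 : ℂ) ^ d a) * (S⁻¹ * X * S) := by noncomm_ring
      _ = _ := by rw [h1, one_mul]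
  rw [h2, Matrix.diagonal_mul]

theorem L01_XC (hS : Adapted V.wt V.Q (fun p => V.F p z) S d) (X : Matrix (Fin n) (Fin n) ℂ)
    (a b : Fin n) : (S⁻¹ * (X * CV V z) * S) a b = (S⁻¹ * X * S) a b * (-1 : ℂ) ^ d b := by
  have h1 : S⁻¹ * S = 1 := Matrix.nonsing_inv_mul S hS.inv
  have h2 : S⁻¹ * (X * CV V z) * S =
      (S⁻¹ * X * S) * Matrix.diagonal (fun a => (-1 : ℂ) ^ d a) := by
    rw [CV_adapted V hz hS]
    calc S⁻¹ * (X * (S * Matrix.diagonal (fun a => (-1 : ℂ) ^ d a) * S⁻¹)) * S =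
        (S⁻¹ * X * S) * Matrix.diagonal (fun a => (-1 : ℂ) ^ d a) * (S⁻¹ * S) := by noncomm_ring
      _ = _ := by rw [h1, mul_one]
  rw [h2, Matrix.mul_diagonal]

theorem CV_TV : CV V z * TV V z = -(TV V z * CV V z) := by
  obtain ⟨S, d, hS⟩ := exists_adapted (V.phs z hz)
  apply E05_inj hS.inv
  intro a b
  rw [Matrix.mul_neg, Matrix.neg_mul, Matrix.neg_apply, L01_CX V hz hS, L01_XC V hz hS]
  by_cases h : (S⁻¹ * TV V z * S) a b = 0
  · rw [h]
    ring
  · have h1 := L01_deg V hz hS a b h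
    rw [h1, zpow_add₀ (by norm_num : (-1 : ℂ) ≠ 0)]
    ring

theorem mconj_CV : mconj (CV V z) = ((-1 : ℂ) ^ V.wt) • CV V z := by
  obtain ⟨S, d, hS⟩ := exists_adapted (V.phs z hz)
  have h := V.phs z hz
  have hconj1 : ∀ k : ℤ, (starRingEnd ℂ) ((-1 : ℂ) ^ k) = (-1 : ℂ) ^ k := by
    intro k
    rw [map_zpow₀, map_neg, map_one]
  have hPi : ∀ p : ℤ, mconj (PiV V p z) = 1 - PiV V (V.wt + 1 - p) z := by
    intro p
    rw [PiV_eq V hz, PiV_eq V hz]
    have h0 : 1 - mconj (prj h p) = prj h (V.wt + 1 - p) := by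
      apply prj_unique h
      · intro x hx
        have h2 : star x ∈ conjSub (V.F (V.wt + 1 - p) z) := by
          show star (star x) ∈ V.F (V.wt + 1 - p) z
          rw [star_star]
          exact hx
        have h3 := (prj_ker h p (star x)).1 h2
        have h4 := E03_star (prj h p) (star x)
        rw [h3, star_star, star_zero] at h4
        rw [Matrix.sub_mulVec, Matrix.one_mulVec, ← h4, sub_zero]
      · intro x hx
        have h2 : star x ∈ V.F p z := by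
          have h2' : star x ∈ V.F (V.wt + 1 - (V.wt + 1 - p)) z := hx
          rwa [sub_sub_cancel] at h2'
        have h3 := (prj_mem h p (star x)).1 h2
        have h4 := E03_star (prj h p) (star x)
        rw [h3, star_star] at h4
        rw [Matrix.sub_mulVec, Matrix.one_mulVec, ← h4, sub_self]
    rw [← h0]
    abel
  have hadd : ∀ A B : Matrix (Fin n) (Fin n) ℂ, mconj (A + B) = mconj A + mconj B := by
    intro A B
    ext i j
    simp [mconj]
  have hsmul : ∀ (c : ℂ) (A : Matrix (Fin n) (Fin n) ℂ),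
      mconj (c • A) = (starRingEnd ℂ) c • mconj A := by
    intro c A
    ext i j
    simp [mconj]
  have hsum : ∀ (s : Finset ℤ) (A : ℤ → Matrix (Fin n) (Fin n) ℂ),
      mconj (∑ p ∈ s, A p) = ∑ p ∈ s, mconj (A p) := by
    intro s A
    ext i j
    simp [mconj, Matrix.sum_apply]
  have h1 : mconj (CV V z) = ((-1 : ℂ) ^ V.lo) • (1 : Matrix (Fin n) (Fin n) ℂ) +
      ∑ p ∈ Finset.Ioo V.lo V.hi, (2 * (-1 : ℂ) ^ p) • (1 - PiV V (V.wt + 1 - p) z) := by
    unfold CV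
    rw [hadd, hsmul, hconj1, e06_one, hsum]
    congr 1
    apply Finset.sum_congr rfl
    intro p _
    rw [hsmul, hPi, map_mul, hconj1, Complex.conj_ofNat]
  have h2 : mconj (CV V z) = S * (((-1 : ℂ) ^ V.lo) • (1 : Matrix (Fin n) (Fin n) ℂ) +
      ∑ p ∈ Finset.Ioo V.lo V.hi, (2 * (-1 : ℂ) ^ p) •
        (1 - Matrix.diagonal (fun a => if V.wt + 1 - p ≤ d a then (1 : ℂ) else 0))) * S⁻¹ := by
    rw [h1, Matrix.mul_add, Matrix.add_mul, Matrix.mul_smul, Matrix.smul_mul, mul_one,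
      Matrix.mul_nonsing_inv S hS.inv, Matrix.mul_sum, Matrix.sum_mul]
    congr 1
    apply Finset.sum_congr rfl
    intro p _
    rw [Matrix.mul_smul, Matrix.smul_mul, PiV_eq V hz, prj_adapted (V.phs z hz) hS, Matrix.mul_sub,
      Matrix.sub_mul, mul_one, Matrix.mul_nonsing_inv S hS.inv]
  rw [h2, CV_adapted V hz hS, ← Matrix.smul_mul, ← Matrix.mul_smul]
  congr 2
  have hlo : ∀ a, V.lo ≤ V.wt - d a := by
    intro a
    have h3 : Sᵀ a ∈ conjSub (V.F V.lo z) := by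
      show star (Sᵀ a) ∈ V.F V.lo z
      rw [V.F_lo z hz]
      exact Submodule.mem_top
    have h4 := (E03_cfl hS V.lo (Sᵀ a)).1 h3 a (by
      rw [E03_col hS.inv, Pi.single_eq_same]
      exact one_ne_zero)
    omega
  have hhi : ∀ a, V.wt - d a < V.hi := by
    intro a
    by_contra hcon
    have h3 : Sᵀ a ∈ conjSub (V.F V.hi z) := by
      apply (E03_cfl hS V.hi (Sᵀ a)).2
      intro b hb
      have h4 := E03_colcoef hS.inv b a hb
      rw [h4]
      omega
    have h4 : star (Sᵀ a) ∈ V.F V.hi z := h3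
    rw [V.F_hi z hz, Submodule.mem_bot, star_eq_zero] at h4
    have h5 := E03_col hS.inv a
    rw [h4, Matrix.mulVec_zero] at h5
    have h6 := congrFun h5 a
    rw [Pi.single_eq_same, Pi.zero_apply] at h6
    exact zero_ne_one h6
  ext a b
  rw [Matrix.add_apply, Matrix.smul_apply, Matrix.smul_apply, Matrix.sum_apply]
  by_cases hab : a = b
  · subst hab
    rw [Matrix.diagonal_apply_eq, Matrix.one_apply_eq, smul_eq_mul, smul_eq_mul, mul_one]
    have h3 := L01_alt V.lo V.hi (V.wt - d a) (hlo a) (hhi a)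
    have h4 : (-1 : ℂ) ^ (V.wt - d a) = (-1 : ℂ) ^ V.wt * (-1 : ℂ) ^ d a := by
      have h5 := L01_sgn_sq (d a)
      have h6 : (-1 : ℂ) ^ (V.wt - d a) * (-1 : ℂ) ^ (d a) = (-1 : ℂ) ^ V.wt := by
        rw [← zpow_add₀ (by norm_num : (-1 : ℂ) ≠ 0), sub_add_cancel]
      rw [← h6, mul_assoc, h5, mul_one]
    rw [← h4, ← h3]
    congr 1
    apply Finset.sum_congr rfl
    intro p _
    rw [Matrix.smul_apply, Matrix.sub_apply, Matrix.one_apply_eq, Matrix.diagonal_apply_eq,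
      smul_eq_mul]
    congr 1
    by_cases h7 : p ≤ V.wt - d a
    · rw [if_pos h7, if_neg (by omega), sub_zero]
    · rw [if_neg h7, if_pos (by omega), sub_self]
  · rw [Matrix.diagonal_apply_ne _ hab, Matrix.one_apply_ne hab, smul_zero, smul_zero, zero_add]
    apply Finset.sum_eq_zero
    intro p _
    rw [Matrix.smul_apply, Matrix.sub_apply, Matrix.one_apply_ne hab,
      Matrix.diagonal_apply_ne _ hab, sub_zero, smul_zero]

theorem hf_adapted (hS : Adapted V.wt V.Q (fun p => V.F p z) S d) (v w : Fin n → ℂ) :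
    hf V z v w = ∑ a, (starRingEnd ℂ) ((S⁻¹ *ᵥ v) a) * (S⁻¹ *ᵥ w) a := by
  have hSi : S * S⁻¹ = 1 := Matrix.mul_nonsing_inv S hS.inv
  set c := S⁻¹ *ᵥ v with hc
  set c' := S⁻¹ *ᵥ w with hc'
  have hv : v = S *ᵥ c := by
    rw [hc, Matrix.mulVec_mulVec, hSi, Matrix.one_mulVec]
  have hsv : star v = mconj S *ᵥ star c := by
    rw [hv, E03_star]
  have hCw : CV V z *ᵥ w = S *ᵥ (Matrix.diagonal (fun a => (-1 : ℂ) ^ d a) *ᵥ c') := by
    rw [CV_adapted V hz hS, hc', Matrix.mulVec_mulVec, Matrix.mulVec_mulVec]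
  have hon : (mconj S)ᵀ * im V.Q * S = Matrix.diagonal (fun a => Complex.I ^ (2 * d a - V.wt)) := by
    have h1 := congrArg mconj hS.on
    rw [e06_mul, e06_mul, e07_im_conj, e06_mconj_mconj, e07_transpose] at h1
    rw [h1]
    ext a b
    by_cases hab : a = b
    · subst hab
      show (starRingEnd ℂ) (Matrix.diagonal (fun a => Complex.I ^ (V.wt - 2 * d a)) a a) = _
      rw [Matrix.diagonal_apply_eq, Matrix.diagonal_apply_eq, e06_conj_zpow]
      congr 1
      ring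
    · show (starRingEnd ℂ) (Matrix.diagonal (fun a => Complex.I ^ (V.wt - 2 * d a)) a b) = _
      rw [Matrix.diagonal_apply_ne _ hab, Matrix.diagonal_apply_ne _ hab, map_zero]
  unfold hf
  have h2 : star v ⬝ᵥ (im V.Q *ᵥ (CV V z *ᵥ w)) = star c ⬝ᵥ
      ((Matrix.diagonal (fun a => Complex.I ^ (2 * d a - V.wt))) *ᵥ
        (Matrix.diagonal (fun a => (-1 : ℂ) ^ d a) *ᵥ c')) := by
    rw [← hon, hsv, hCw]
    rw [← Matrix.vecMul_transpose (mconj S) (star c), ← Matrix.dotProduct_mulVec,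
      Matrix.mulVec_mulVec, Matrix.mulVec_mulVec]
  rw [h2]
  unfold dotProduct
  rw [Finset.mul_sum]
  apply Finset.sum_congr rfl
  intro a _
  rw [Matrix.mulVec_diagonal, Matrix.mulVec_diagonal, Pi.star_apply, RCLike.star_def]
  have h3 : Complex.I ^ V.wt * Complex.I ^ (2 * d a - V.wt) = Complex.I ^ (2 * d a) := by
    rw [← zpow_add₀ Complex.I_ne_zero]
    congr 1
    ring
  have h4 := L01_I (d a)
  calc Complex.I ^ V.wt * ((starRingEnd ℂ) (c a) *
        (Complex.I ^ (2 * d a - V.wt) * ((-1 : ℂ) ^ d a * c' a))) =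
      (Complex.I ^ V.wt * Complex.I ^ (2 * d a - V.wt)) * (-1 : ℂ) ^ d a *
        ((starRingEnd ℂ) (c a) * c' a) := by ring
    _ = (starRingEnd ℂ) (c a) * c' a := by rw [h3, h4, one_mul]

theorem qf_adapted (hS : Adapted V.wt V.Q (fun p => V.F p z) S d) (v : Fin n → ℂ) :
    qf V z v = ∑ a, Complex.normSq ((S⁻¹ *ᵥ v) a) := by
  unfold qf
  rw [hf_adapted V hz hS, Complex.re_sum]
  apply Finset.sum_congr rfl
  intro a _
  rw [mul_comm, Complex.mul_conj, Complex.ofReal_re]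

theorem TV_frob (hS : Adapted V.wt V.Q (fun p => V.F p z) S d) :
    eV V z = ∑ a, ∑ b, Complex.normSq ((S⁻¹ * TV V z * S) a b) :=
  tr_deg1 (V.phs z hz) (JV_gr V hz) hS (TV V z) (TV_skew V hz) (JV_br V hz)

theorem TVc_frob (hS : Adapted V.wt V.Q (fun p => V.F p z) S d) :
    eV V z = ∑ a, ∑ b, Complex.normSq ((S⁻¹ * mconj (TV V z) * S) a b) := by
  have h1 := e06_key hS (mconj (TV V z)) (TV_skew V hz).mconj
  rw [e06_mconj_mconj, Matrix.trace_mul_comm] at h1
  unfold eV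
  rw [h1, Complex.neg_re, Complex.re_sum, ← Finset.sum_neg_distrib]
  apply Finset.sum_congr rfl
  intro a _
  rw [Complex.re_sum, ← Finset.sum_neg_distrib]
  apply Finset.sum_congr rfl
  intro b _
  by_cases h : (S⁻¹ * mconj (TV V z) * S) a b = 0
  · rw [h]
    simp
  · have h2 := L01_degc V hz hS a b h
    have h3 : Complex.I ^ (2 * (d a - d b)) = -1 := by
      rw [h2, add_sub_cancel_left, mul_one, show (2 : ℤ) = ((2 : ℕ) : ℤ) by norm_num, zpow_natCast,
        Complex.I_sq]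
    rw [h3, mul_neg, mul_one, Complex.neg_re, Complex.ofReal_re, neg_neg]

theorem qf_nonneg (v : Fin n → ℂ) : 0 ≤ qf V z v := by
  obtain ⟨S, d, hS⟩ := exists_adapted (V.phs z hz)
  rw [qf_adapted V hz hS]
  exact Finset.sum_nonneg fun a _ => Complex.normSq_nonneg _

theorem qf_pos {v : Fin n → ℂ} (hv : v ≠ 0) : 0 < qf V z v := by
  obtain ⟨S, d, hS⟩ := exists_adapted (V.phs z hz)
  rw [qf_adapted V hz hS]
  have h1 : ∃ a, (S⁻¹ *ᵥ v) a ≠ 0 := by
    by_contra hcon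
    push Not at hcon
    apply hv
    have h2 : S⁻¹ *ᵥ v = 0 := funext hcon
    have h3 : S *ᵥ (S⁻¹ *ᵥ v) = v := by
      rw [Matrix.mulVec_mulVec, Matrix.mul_nonsing_inv S hS.inv, Matrix.one_mulVec]
    rw [← h3, h2, Matrix.mulVec_zero]
  obtain ⟨a, ha⟩ := h1
  exact Finset.sum_pos' (fun a _ => Complex.normSq_nonneg _)
    ⟨a, Finset.mem_univ a, Complex.normSq_pos.2 ha⟩

end MP2794d1
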