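import Pool.Agent.Lib.MP_2794d1_ag.Base

/-!
E02: an adapted orthonormal basis. H^p := Fl p ⊓ conjSub (Fl (wt - p)). Facts: Fl p = H^p ⊕ Fl (p+1) (for x ∈ Fl p write
x = y + z, y ∈ Fl (p+1), z ∈ conjSub (Fl (wt - p)) by opp at p+1; then z ∈ H^p), so by descending induction
Fl p = ⊕_{p' ≥ p} H^{p'} and ℂ^n = ⊕ H^p (internal, finite), and conj H^p = H^{wt-p}, so conjSub (Fl q) =
⊕_{p' ≤ wt - q} H^{p'}. For x ∈ H^p, y ∈ H^{p'} and p ≠ p', x ⬝ᵥ Q (star y) = 0: star y ∈ H^{wt-p'} ⊂ Fl (wt - p'); if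
p' < p this is in Fl (wt + 1 - p) (orth at p); if p' > p: x ∈ H^p ⊂ conj..., use symmetry of Q (symm) and conjugate, or
orth at wt - p' with y' = star... On H^p the form h(x,y) = i^{2p-wt} x ⬝ᵥ Q (star y) is hermitian (symm) and positive
definite (pos). Choose an h-orthonormal basis of every H^p (e.g. Gram-Schmidt, or glue the h's to a positive definite
hermitian form on ℂ^n and use an InnerProductSpace.Core and OrthogonalFamily /
DirectSum.IsInternal.subordinateOrthonormalBasis); S = matrix whose columns are these vectors, d = degrees p.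
-/

namespace MP2794d1

open Matrix Complex Filter Topology

/-- Basis (columns of `S`, of degrees `d`) adapted to a polarised Hodge structure. -/
structure Adapted {n : ℕ} (wt : ℤ) (Q : Matrix (Fin n) (Fin n) ℤ)
    (Fl : ℤ → Submodule ℂ (Fin n → ℂ)) (S : Matrix (Fin n) (Fin n) ℂ) (d : Fin n → ℤ) : Prop where
  inv : IsUnit S.det
  fl : ∀ p, Fl p = Submodule.span ℂ (Sᵀ '' {a | p ≤ d a})
  cfl : ∀ p, conjSub (Fl p) = Submodule.span ℂ (Sᵀ '' {a | d a ≤ wt - p})
  on : Sᵀ * im Q * mconj S = Matrix.diagonal (fun a => Complex.I ^ (wt - 2 * d a))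

theorem E02_onb0 {V : Type} [AddCommGroup V] [Module ℂ V] [FiniteDimensional ℂ V]
    (B : V → V → ℂ)
    (hadd : ∀ x y z, B x (y + z) = B x y + B x z)
    (hsmul : ∀ x y (r : ℂ), B x (r • y) = (starRingEnd ℂ) r * B x y)
    (hsymm : ∀ x y, (starRingEnd ℂ) (B x y) = B y x)
    (hpos : ∀ x, x ≠ 0 → 0 < (B x x).re) :
    ∃ (m : ℕ) (v : Fin m → V),
      (⊤ : Submodule ℂ V) ≤ Submodule.span ℂ (Set.range v) ∧
      ∀ i j, B (v i) (v j) = if i = j then 1 else 0 := by
  let c : InnerProductSpace.Core ℂ V :=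
    { inner := fun x y => B y x
      conj_inner_symm := fun x y => hsymm _ _
      re_inner_nonneg := fun x => by
        by_cases hx : x = 0
        · have h0 : B x x = 0 := by
            have := hsmul x x 0
            rw [zero_smul] at this
            rw [hx] at this ⊢
            rw [this]
            simp
          show 0 ≤ RCLike.re (B x x)
          rw [h0]
          simp
        · exact (hpos x hx).le
      add_left := fun x y z => hadd _ _ _
      smul_left := fun x y r => hsmul _ _ _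
      definite := fun x hx => by
        by_contra hne
        have := hpos x hne
        have hx' : B x x = 0 := hx
        rw [hx'] at this
        simp at this }
  let i1 : NormedAddCommGroup V := c.toNormedAddCommGroup
  let i2 : InnerProductSpace ℂ V := InnerProductSpace.ofCore c.toCore
  let b := stdOrthonormalBasis ℂ V
  refine ⟨Module.finrank ℂ V, fun i => b i, ?_, ?_⟩
  · have hs := b.toBasis.span_eq
    have : Submodule.span ℂ (Set.range b) = ⊤ := by
      rw [← hs]; simp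
    rw [← this]
  · intro i j
    have ho := (orthonormal_iff_ite.mp b.orthonormal) j i
    have h1 : B (b i) (b j) = if j = i then 1 else 0 := ho
    rw [h1]
    by_cases h : i = j
    · subst h; simp
    · rw [if_neg h, if_neg (fun h' => h h'.symm)]

theorem E02_onb {n : ℕ} (W : Submodule ℂ (Fin n → ℂ)) (B : (Fin n → ℂ) → (Fin n → ℂ) → ℂ)
    (hadd : ∀ x y z, B x (y + z) = B x y + B x z)
    (hsmul : ∀ x y (r : ℂ), B x (r • y) = (starRingEnd ℂ) r * B x y)
    (hsymm : ∀ x y, (starRingEnd ℂ) (B x y) = B y x)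
    (hpos : ∀ x ∈ W, x ≠ 0 → 0 < (B x x).re) :
    ∃ (m : ℕ) (v : Fin m → (Fin n → ℂ)), (∀ i, v i ∈ W) ∧
      W ≤ Submodule.span ℂ (Set.range v) ∧ ∀ i j, B (v i) (v j) = if i = j then 1 else 0 := by
  obtain ⟨m, v, h1, h2⟩ := E02_onb0 (V := W) (fun x y => B x.1 y.1)
    (fun x y z => hadd _ _ _) (fun x y r => hsmul _ _ _) (fun x y => hsymm _ _)
    (fun x hx => hpos x.1 x.2 (fun h => hx (Subtype.ext h)))
  refine ⟨m, fun i => (v i).1, fun i => (v i).2, ?_, h2⟩
  intro x hx
  have hm : (⟨x, hx⟩ : W) ∈ Submodule.span ℂ (Set.range v) := h1 trivial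
  have hm2 := Submodule.mem_map_of_mem (f := W.subtype) hm
  rw [Submodule.map_span, ← Set.range_comp] at hm2
  exact hm2

theorem E02_conj {n : ℕ} (Q : Matrix (Fin n) (Fin n) ℤ) (x y : Fin n → ℂ) :
    (starRingEnd ℂ) (x ⬝ᵥ ((im Q) *ᵥ y)) = star x ⬝ᵥ ((im Q) *ᵥ (star y)) := by
  simp [dotProduct, Matrix.mulVec, im, map_sum]

theorem E02_symm {n : ℕ} {wt : ℤ} (Q : Matrix (Fin n) (Fin n) ℤ)
    (hs : ∀ i j, Q j i = ((wt.negOnePow : ℤˣ) : ℤ) * Q i j) (x y : Fin n → ℂ) :
    x ⬝ᵥ ((im Q) *ᵥ y) = (((wt.negOnePow : ℤˣ) : ℤ) : ℂ) * (y ⬝ᵥ ((im Q) *ᵥ x)) := by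
  simp only [dotProduct, Matrix.mulVec, im, Finset.mul_sum, Matrix.map_apply]
  rw [Finset.sum_comm]
  refine Finset.sum_congr rfl fun i _ => Finset.sum_congr rfl fun j _ => ?_
  rw [hs i j]
  push_cast
  ring

theorem E02_Iconj (k : ℤ) : (starRingEnd ℂ) (Complex.I ^ k) =
    (((k.negOnePow : ℤˣ) : ℤ) : ℂ) * Complex.I ^ k := by
  rw [map_zpow₀, Complex.conj_I]
  rcases Int.even_or_odd k with hk | hk
  · rw [Int.negOnePow_even k hk, hk.neg_zpow]
    simp
  · rw [Int.negOnePow_odd k hk, hk.neg_zpow]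
    simp

theorem E02_neg (wt p : ℤ) : (((((2 * p - wt).negOnePow : ℤˣ) : ℤ) : ℂ) *
    (((wt.negOnePow : ℤˣ) : ℤ) : ℂ)) = 1 := by
  have h : (2 * p - wt).negOnePow = wt.negOnePow := by
    rw [Int.negOnePow_sub, Int.negOnePow_even (2 * p) (even_two_mul p)]
    simp
  rw [h]
  rcases Int.even_or_odd wt with hk | hk
  · rw [Int.negOnePow_even wt hk]; simp
  · rw [Int.negOnePow_odd wt hk]; simp

theorem E02_onbH {n : ℕ} {wt : ℤ} {Q : Matrix (Fin n) (Fin n) ℤ}
    {Fl : ℤ → Submodule ℂ (Fin n → ℂ)} (h : IsPHS wt Q Fl) (p : ℤ) :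
    ∃ (m : ℕ) (v : Fin m → (Fin n → ℂ)), (∀ i, v i ∈ Fl p ⊓ conjSub (Fl (wt - p))) ∧
      Fl p ⊓ conjSub (Fl (wt - p)) ≤ Submodule.span ℂ (Set.range v) ∧
      ∀ i j, v i ⬝ᵥ ((im Q) *ᵥ star (v j)) = if i = j then Complex.I ^ (wt - 2 * p) else 0 := by
  obtain ⟨m, v, h1, h2, h3⟩ := E02_onb (Fl p ⊓ conjSub (Fl (wt - p)))
    (fun x y => Complex.I ^ (2 * p - wt) * (x ⬝ᵥ ((im Q) *ᵥ (star y))))
    (by
      intro x y z
      simp only [star_add, Matrix.mulVec_add, dotProduct_add, mul_add])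
    (by
      intro x y r
      simp only [star_smul, Matrix.mulVec_smul, dotProduct_smul, smul_eq_mul]
      simp only [starRingEnd_apply]
      ring)
    (by
      intro x y
      simp only [map_mul]
      rw [E02_conj, star_star, E02_Iconj, E02_symm (wt := wt) Q h.symm (star x) y]
      have hh := E02_neg wt p
      linear_combination (Complex.I ^ (2 * p - wt) * (y ⬝ᵥ ((im Q) *ᵥ (star x)))) * hh)
    (by
      intro x hx hx0
      exact h.pos p x hx hx0)
  refine ⟨m, v, h1, h2, ?_⟩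
  intro i j
  have h4 : Complex.I ^ (2 * p - wt) * (v i ⬝ᵥ ((im Q) *ᵥ (star (v j)))) =
      if i = j then 1 else 0 := h3 i j
  have hI : Complex.I ^ (wt - 2 * p) * Complex.I ^ (2 * p - wt) = 1 := by
    rw [← zpow_add₀ Complex.I_ne_zero]
    simp
  by_cases hij : i = j
  · rw [if_pos hij] at h4 ⊢
    have := congrArg (fun t => Complex.I ^ (wt - 2 * p) * t) h4
    simp only [← mul_assoc] at this
    rw [hI] at this
    simpa using this
  · rw [if_neg hij] at h4 ⊢
    rcases mul_eq_zero.mp h4 with h5 | h5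
    · exact absurd h5 (zpow_ne_zero _ Complex.I_ne_zero)
    · exact h5

theorem E02_orth1 {n : ℕ} {wt : ℤ} {Q : Matrix (Fin n) (Fin n) ℤ}
    {Fl : ℤ → Submodule ℂ (Fin n → ℂ)} (h : IsPHS wt Q Fl) (p q : ℤ) (hpq : q < p)
    (x y : Fin n → ℂ) (hx : x ∈ Fl p) (hy : star y ∈ Fl (wt - q)) :
    x ⬝ᵥ ((im Q) *ᵥ star y) = 0 :=
  h.orth p x hx (star y) (h.anti _ _ (by omega) hy)

theorem E02_orth2 {n : ℕ} {wt : ℤ} {Q : Matrix (Fin n) (Fin n) ℤ}
    {Fl : ℤ → Submodule ℂ (Fin n → ℂ)} (h : IsPHS wt Q Fl) (p q : ℤ) (hpq : wt - p < q)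
    (x y : Fin n → ℂ) (hx : star x ∈ Fl p) (hy : y ∈ Fl q) :
    x ⬝ᵥ ((im Q) *ᵥ star y) = 0 := by
  have h1 := h.orth p (star x) hx y (h.anti _ _ (by omega) hy)
  have h2 := congrArg (starRingEnd ℂ) h1
  rw [E02_conj, star_star] at h2
  simpa using h2

theorem E02_step {n : ℕ} {wt : ℤ} {Q : Matrix (Fin n) (Fin n) ℤ}
    {Fl : ℤ → Submodule ℂ (Fin n → ℂ)} (h : IsPHS wt Q Fl) (p : ℤ) (x : Fin n → ℂ)
    (hx : x ∈ Fl p) : ∃ y ∈ Fl (p + 1), ∃ z ∈ Fl p ⊓ conjSub (Fl (wt - p)), x = y + z := by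
  have hc := h.opp (p + 1)
  have ht : x ∈ Fl (p + 1) ⊔ conjSub (Fl (wt + 1 - (p + 1))) := by
    rw [hc.sup_eq_top]; trivial
  obtain ⟨y, hy, z, hz, hyz⟩ := Submodule.mem_sup.mp ht
  refine ⟨y, hy, z, ⟨?_, ?_⟩, hyz.symm⟩
  · have : z = x - y := by rw [← hyz]; abel
    rw [this]
    exact (Fl p).sub_mem hx (h.anti _ _ (by omega) hy)
  · have : wt + 1 - (p + 1) = wt - p := by ring
    rw [this] at hz
    exact hz

theorem exists_adapted {n : ℕ} {wt : ℤ} {Q : Matrix (Fin n) (Fin n) ℤ}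
    {Fl : ℤ → Submodule ℂ (Fin n → ℂ)} (h : IsPHS wt Q Fl) :
    ∃ (S : Matrix (Fin n) (Fin n) ℂ) (d : Fin n → ℤ), Adapted wt Q Fl S d := by
  classical
  obtain ⟨lo0, hlo0⟩ := h.top
  obtain ⟨hi, hhi⟩ := h.bot
  obtain ⟨lo, hlo, K, hK⟩ : ∃ lo : ℤ, Fl lo = ⊤ ∧ ∃ K : ℕ, hi = lo + K := by
    refine ⟨min lo0 hi, ?_, (hi - min lo0 hi).toNat, ?_⟩
    · rw [eq_top_iff, ← hlo0]
      exact h.anti _ _ (min_le_left _ _)
    · have : min lo0 hi ≤ hi := min_le_right _ _
      omega
  choose m v hv1 hv2 hv3 using fun p : ℤ => E02_onbH h p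
  let ι : Type := Σ k : Fin K, Fin (m (lo + (k : ℕ)))
  let w : ι → (Fin n → ℂ) := fun x => v (lo + (x.1 : ℕ)) x.2
  let dg : ι → ℤ := fun x => lo + ((x.1 : ℕ) : ℤ)
  have hw1 : ∀ a, w a ∈ Fl (dg a) := fun a => (hv1 (dg a) a.2).1
  have hw2 : ∀ a, star (w a) ∈ Fl (wt - dg a) := fun a => (hv1 (dg a) a.2).2
  have hgram : ∀ a b, w a ⬝ᵥ ((im Q) *ᵥ star (w b)) =
      if a = b then Complex.I ^ (wt - 2 * dg a) else 0 := by
    intro a b
    rcases lt_trichotomy (dg a) (dg b) with hab | hab | hab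
    · have hne : a ≠ b := fun h' => by rw [h'] at hab; exact lt_irrefl _ hab
      rw [if_neg hne]
      exact E02_orth2 h (wt - dg a) (dg b) (by linarith) _ _ (hw2 a) (hw1 b)
    · obtain ⟨ka, ia⟩ := a
      obtain ⟨kb, ib⟩ := b
      have hk : ka = kb := by
        apply Fin.ext
        have : lo + ((ka : ℕ) : ℤ) = lo + ((kb : ℕ) : ℤ) := hab
        omega
      subst hk
      have h3 := hv3 (lo + ((ka : ℕ) : ℤ)) ia ib
      show v (lo + ((ka : ℕ) : ℤ)) ia ⬝ᵥ ((im Q) *ᵥ star (v (lo + ((ka : ℕ) : ℤ)) ib)) = _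
      rw [h3]
      by_cases hi' : ia = ib
      · subst hi'
        rw [if_pos rfl, if_pos rfl]
      · rw [if_neg hi', if_neg]
        intro h'
        apply hi'
        have := Sigma.mk.inj_iff.mp h'
        exact eq_of_heq this.2
    · have hne : a ≠ b := fun h' => by rw [h'] at hab; exact lt_irrefl _ hab
      rw [if_neg hne]
      exact E02_orth1 h (dg a) (dg b) hab _ _ (hw1 a) (hw2 b)
  -- spanning
  have hspan0 : ∀ k : ℕ, k ≤ K → Fl (hi - k) ≤ Submodule.span ℂ (Set.range w) := by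
    intro k
    induction k with
    | zero =>
      intro _
      have : hi - ((0 : ℕ) : ℤ) = hi := by simp
      rw [this, hhi]
      exact bot_le
    | succ k ih =>
      intro hk x hx
      obtain ⟨y, hy, z, hz, hyz⟩ := E02_step h _ x hx
      rw [hyz]
      refine Submodule.add_mem _ ?_ ?_
      · have : hi - ((k + 1 : ℕ) : ℤ) + 1 = hi - (k : ℤ) := by push_cast; ring
        rw [this] at hy
        exact ih (by omega) hy
      · have hkk : ∃ l : Fin K, hi - ((k + 1 : ℕ) : ℤ) = lo + ((l : ℕ) : ℤ) := by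
          refine ⟨⟨K - (k + 1), by omega⟩, ?_⟩
          rw [hK]
          simp only
          omega
        obtain ⟨l, hl⟩ := hkk
        rw [hl] at hz
        have hz' := hv2 _ hz
        refine Submodule.span_mono ?_ hz'
        rintro _ ⟨i, rfl⟩
        exact ⟨⟨l, i⟩, rfl⟩
  have hspan : ⊤ ≤ Submodule.span ℂ (Set.range w) := by
    have := hspan0 K le_rfl
    have h' : hi - (K : ℤ) = lo := by rw [hK]; ring
    rw [h', hlo] at this
    exact this
  -- coefficient formula
  have hcoef : ∀ (c : ι → ℂ) (b : ι), (∑ a, c a • w a) ⬝ᵥ ((im Q) *ᵥ star (w b)) =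
      c b * Complex.I ^ (wt - 2 * dg b) := by
    intro c b
    rw [sum_dotProduct]
    rw [Finset.sum_eq_single b]
    · rw [smul_dotProduct, hgram, if_pos rfl, smul_eq_mul]
    · intro a _ hab
      rw [smul_dotProduct, hgram, if_neg hab, smul_zero]
    · intro hb
      exact absurd (Finset.mem_univ b) hb
  have hI : ∀ k : ℤ, Complex.I ^ k ≠ 0 := fun k => zpow_ne_zero _ Complex.I_ne_zero
  have hli : LinearIndependent ℂ w := by
    rw [Fintype.linearIndependent_iff]
    intro c hc b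
    have h1 := hcoef c b
    rw [hc, zero_dotProduct] at h1
    rcases mul_eq_zero.mp h1.symm with h2 | h2
    · exact h2
    · exact absurd h2 (hI _)
  let bas : Module.Basis ι ℂ (Fin n → ℂ) := Module.Basis.mk hli hspan
  have hcard : Fintype.card (Fin n) = Fintype.card ι := by
    have h1 := Module.finrank_eq_card_basis bas
    rw [Module.finrank_fin_fun] at h1
    rw [Fintype.card_fin]
    exact h1
  let e : Fin n ≃ ι := Fintype.equivOfCardEq hcard
  let S : Matrix (Fin n) (Fin n) ℂ := Matrix.of fun i a => w (e a) i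
  have hST : ∀ a, Sᵀ a = w (e a) := fun a => rfl
  have hmemc : ∀ (x : Fin n → ℂ), ∃ c : ι → ℂ, x = ∑ a, c a • w a := by
    intro x
    refine ⟨fun a => bas.repr x a, ?_⟩
    have h1 := bas.sum_repr x
    have h2 : ∀ a, bas a = w a := fun a => by simp only [bas, Module.Basis.mk_apply]
    simp only [h2] at h1
    exact h1.symm
  refine ⟨S, fun a => dg (e a), ?_, ?_, ?_, ?_⟩
  · rw [← Matrix.isUnit_iff_isUnit_det]
    rw [← Matrix.isUnit_transpose]
    rw [← Matrix.linearIndependent_rows_iff_isUnit]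
    exact hli.comp e e.injective
  · intro p
    apply le_antisymm
    · intro x hx
      obtain ⟨c, hc⟩ := hmemc x
      rw [hc]
      refine Submodule.sum_mem _ fun a _ => ?_
      by_cases ha : p ≤ dg a
      · refine Submodule.smul_mem _ _ (Submodule.subset_span ⟨e.symm a, ?_, ?_⟩)
        · show p ≤ dg (e (e.symm a))
          rw [Equiv.apply_symm_apply]; exact ha
        · rw [hST, Equiv.apply_symm_apply]
      · have h1 := hcoef c a
        rw [← hc, E02_orth1 h p (dg a) (not_le.mp ha) x (w a) hx (hw2 a)] at h1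
        rcases mul_eq_zero.mp h1.symm with h2 | h2
        · rw [h2, zero_smul]; exact Submodule.zero_mem _
        · exact absurd h2 (hI _)
    · rw [Submodule.span_le]
      rintro _ ⟨a, ha, rfl⟩
      rw [hST]
      exact h.anti _ _ ha (hw1 (e a))
  · intro p
    apply le_antisymm
    · intro x hx
      obtain ⟨c, hc⟩ := hmemc x
      rw [hc]
      refine Submodule.sum_mem _ fun a _ => ?_
      by_cases ha : dg a ≤ wt - p
      · refine Submodule.smul_mem _ _ (Submodule.subset_span ⟨e.symm a, ?_, ?_⟩)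
        · show dg (e (e.symm a)) ≤ wt - p
          rw [Equiv.apply_symm_apply]; exact ha
        · rw [hST, Equiv.apply_symm_apply]
      · have h1 := hcoef c a
        rw [← hc, E02_orth2 h p (dg a) (not_le.mp ha) x (w a) hx (hw1 a)] at h1
        rcases mul_eq_zero.mp h1.symm with h2 | h2
        · rw [h2, zero_smul]; exact Submodule.zero_mem _
        · exact absurd h2 (hI _)
    · rw [Submodule.span_le]
      rintro _ ⟨a, ha, rfl⟩
      rw [hST]
      have ha' : dg (e a) ≤ wt - p := ha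
      show star (w (e a)) ∈ Fl p
      exact h.anti _ _ (by omega) (hw2 (e a))
  · ext a b
    have h1 := hgram (e a) (e b)
    have h2 : (Sᵀ * im Q * mconj S) a b = w (e a) ⬝ᵥ ((im Q) *ᵥ star (w (e b))) := by
      rw [Matrix.mul_assoc]
      simp only [Matrix.mul_apply, dotProduct, Matrix.mulVec]
      rfl
    rw [h2, h1, Matrix.diagonal_apply]
    simp only [EmbeddingLike.apply_eq_iff_eq]

end MP2794d1
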