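import Pool.Agent.Lib.MP_2794d1_ag.E01
import Pool.Agent.Lib.MP_2794d1_ag.E02

/-!
W00: definitions for the analytic part (Wirtinger derivatives, Hodge projectors, the grading as a smooth function,
the Weil operator, the Hodge norm).
-/

namespace MP2794d1

open Matrix Complex Filter Topology
open scoped ContDiff

/-- directional derivative -/
noncomputable def pd (f : ℂ → ℂ) (v z : ℂ) : ℂ := fderiv ℝ f z v

/-- Wirtinger derivative with respect to `z` -/
noncomputable def dz (f : ℂ → ℂ) (z : ℂ) : ℂ := (pd f 1 z - Complex.I * pd f Complex.I z) / 2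

/-- Wirtinger derivative with respect to the conjugate of `z` -/
noncomputable def db (f : ℂ → ℂ) (z : ℂ) : ℂ := (pd f 1 z + Complex.I * pd f Complex.I z) / 2

/-- entrywise `dz` -/
noncomputable def Dz {n m : ℕ} (X : ℂ → Matrix (Fin n) (Fin m) ℂ) (z : ℂ) :
    Matrix (Fin n) (Fin m) ℂ := Matrix.of fun i j => dz (fun y => X y i j) z

/-- entrywise `db` -/
noncomputable def Db {n m : ℕ} (X : ℂ → Matrix (Fin n) (Fin m) ℂ) (z : ℂ) :
    Matrix (Fin n) (Fin m) ℂ := Matrix.of fun i j => db (fun y => X y i j) z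

/-- smooth on the upper half plane -/
def Sf (f : ℂ → ℂ) : Prop := ∀ z : ℂ, 0 < z.im → ContDiffAt ℝ ∞ f z

/-- smooth matrix valued function on the upper half plane -/
def Sm {n m : ℕ} (X : ℂ → Matrix (Fin n) (Fin m) ℂ) : Prop := ∀ i j, Sf (fun y => X y i j)

/-- the projector onto `Fl p` along the complex conjugate of `Fl (wt + 1 - p)` -/
noncomputable def prj {n : ℕ} {wt : ℤ} {Q : Matrix (Fin n) (Fin n) ℤ}
    {Fl : ℤ → Submodule ℂ (Fin n → ℂ)} (h : IsPHS wt Q Fl) (p : ℤ) : Matrix (Fin n) (Fin n) ℂ :=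
  LinearMap.toMatrix' (Submodule.projection (Fl p) (conjSub (Fl (wt + 1 - p))) (h.opp p))

/-- the Hodge projectors as functions on the upper half plane -/
noncomputable def PiV {n : ℕ} (V : PolVHS n) (p : ℤ) (z : ℂ) : Matrix (Fin n) (Fin n) ℂ :=
  open Classical in if h : 0 < z.im then prj (V.phs z h) p else 0

/-- the Hodge grading as a function on the upper half plane -/
noncomputable def JV {n : ℕ} (V : PolVHS n) (z : ℂ) : Matrix (Fin n) (Fin n) ℂ :=
  open Classical in if h : 0 < z.im then Classical.choose (exists_gr (V.phs z h)) else 0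

/-- the Higgs field: the derivative of the grading -/
noncomputable def TV {n : ℕ} (V : PolVHS n) (z : ℂ) : Matrix (Fin n) (Fin n) ℂ := Dz (JV V) z

/-- the parity operator `(-1)^p` on `H^{p,q}` -/
noncomputable def CV {n : ℕ} (V : PolVHS n) (z : ℂ) : Matrix (Fin n) (Fin n) ℂ :=
  ((-1 : ℂ) ^ V.lo) • (1 : Matrix (Fin n) (Fin n) ℂ) +
    ∑ p ∈ Finset.Ioo V.lo V.hi, (2 * (-1 : ℂ) ^ p) • PiV V p z

/-- the Hodge form `v^* (i^wt Q C) w`, complex valued -/
noncomputable def hf {n : ℕ} (V : PolVHS n) (z : ℂ) (v w : Fin n → ℂ) : ℂ :=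
  Complex.I ^ V.wt * (star v ⬝ᵥ (im V.Q *ᵥ (CV V z *ᵥ w)))

/-- the square of the Hodge norm of a vector -/
noncomputable def qf {n : ℕ} (V : PolVHS n) (z : ℂ) (v : Fin n → ℂ) : ℝ := (hf V z v v).re

/-- the energy density of the period map -/
noncomputable def eV {n : ℕ} (V : PolVHS n) (z : ℂ) : ℝ :=
  (Matrix.trace (TV V z * mconj (TV V z))).re

/-- partial derivatives of real valued functions -/
noncomputable def px (f : ℂ → ℝ) (z : ℂ) : ℝ := fderiv ℝ f z 1

noncomputable def py (f : ℂ → ℝ) (z : ℂ) : ℝ := fderiv ℝ f z Complex.I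

/-- the smallest data of a cusp: no extension hypothesis -/
structure UCusp {n : ℕ} (V : PolVHS n) where
  /-- the parabolic element `z ↦ z + 1` -/
  T : V.grp
  T_eq : ∀ z : ℂ, mob T z = z + 1
  /-- the logarithm of the local monodromy -/
  N : Matrix (Fin n) (Fin n) ℚ
  nil : N ^ n = 0
  exp_eq : im (V.rho T : Matrix (Fin n) (Fin n) ℤ) = uexp (cm N) 1

/-- the Hodge projector moved by the nilpotent orbit -/
noncomputable def PW {n : ℕ} (V : PolVHS n) (N : Matrix (Fin n) (Fin n) ℂ) (p : ℤ) (z₀ z : ℂ) :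
    Matrix (Fin n) (Fin n) ℂ := uexp N (-(z - z₀)) * PiV V p z * uexp N (z - z₀)

/-- projector onto `exp (-(z - z₀) N) F^p_z` along the conjugate of `F^{wt+1-p}` at `z₀` -/
noncomputable def RW {n : ℕ} (V : PolVHS n) (N : Matrix (Fin n) (Fin n) ℂ) (p : ℤ) (z₀ z : ℂ) :
    Matrix (Fin n) (Fin n) ℂ :=
  PW V N p z₀ z * (1 - PiV V p z₀ + PiV V p z₀ * PW V N p z₀ z)⁻¹

/-- the untwisted filtration `exp (-z N) F^p_z` -/
noncomputable def Psi {n : ℕ} (V : PolVHS n) (N : Matrix (Fin n) (Fin n) ℂ) (p : ℤ) (z : ℂ) :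
    Submodule ℂ (Fin n → ℂ) := (V.F p z).map (uexp N (-z)).mulVecLin

end MP2794d1
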