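import Pool.Agent.Lib.MP_2794d1_ag.E02

/-!
E03: consequences of an adapted basis. x ∈ Fl p iff (S⁻¹ x)_a = 0 whenever d a < p; x ∈ conjSub (Fl p) iff
(S⁻¹ x)_a = 0 whenever d a > wt - p. (i) gr_unique: H^p = span of the columns with d a = p, these span everything, so
μ (col a) = d a • col a for all a, i.e. μ = S * diagonal d * S⁻¹. (ii) X maps Fl p into Fl (p+k) for all p iff
(S⁻¹ X S) a b ≠ 0 → d b + k ≤ d a (take p = d b). (iii) mconj X ∈ FEnd Fl k iff X maps conjSub (Fl p) into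
conjSub (Fl (p+k)) for all p (star (X *ᵥ v) = mconj X *ᵥ star v) iff ((S⁻¹ X S) a b ≠ 0 → d a + k ≤ d b).
-/

namespace MP2794d1

open Matrix Complex Filter Topology

theorem E03_col {n : ℕ} {S : Matrix (Fin n) (Fin n) ℂ} (hS : IsUnit S.det) (b : Fin n) :
    S⁻¹ *ᵥ (Sᵀ b) = Pi.single b 1 := by
  have h1 : Sᵀ b = S *ᵥ (Pi.single b 1) := by
    rw [Matrix.mulVec_single_one]
    rfl
  rw [h1, Matrix.mulVec_mulVec, Matrix.nonsing_inv_mul _ hS, Matrix.one_mulVec]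

theorem E03_mem {n : ℕ} {S : Matrix (Fin n) (Fin n) ℂ} (hS : IsUnit S.det) (A : Set (Fin n))
    (x : Fin n → ℂ) :
    x ∈ Submodule.span ℂ (Sᵀ '' A) ↔ ∀ a, a ∉ A → (S⁻¹ *ᵥ x) a = 0 := by
  constructor
  · intro hx
    refine Submodule.span_induction (p := fun x _ => ∀ a, a ∉ A → (S⁻¹ *ᵥ x) a = 0)
      ?_ ?_ ?_ ?_ hx
    · rintro _ ⟨b, hb, rfl⟩ a ha
      rw [E03_col hS, Pi.single_apply, if_neg]
      rintro rfl
      exact ha hb
    · intro a _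
      rw [Matrix.mulVec_zero]; rfl
    · intro x y _ _ h1 h2 a ha
      rw [Matrix.mulVec_add, Pi.add_apply, h1 a ha, h2 a ha, add_zero]
    · intro c x _ h1 a ha
      rw [Matrix.mulVec_smul, Pi.smul_apply, h1 a ha, smul_zero]
  · intro h
    have hx : x = ∑ a, (S⁻¹ *ᵥ x) a • Sᵀ a := by
      have h1 : x = S *ᵥ (S⁻¹ *ᵥ x) := by
        rw [Matrix.mulVec_mulVec, Matrix.mul_nonsing_inv _ hS, Matrix.one_mulVec]
      conv_lhs => rw [h1]
      rw [Matrix.mulVec_eq_sum]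
      refine Finset.sum_congr rfl fun a _ => ?_
      ext i
      simp [mul_comm]
    rw [hx]
    refine Submodule.sum_mem _ fun a _ => ?_
    by_cases ha : a ∈ A
    · exact Submodule.smul_mem _ _ (Submodule.subset_span ⟨a, ha, rfl⟩)
    · rw [h a ha, zero_smul]
      exact Submodule.zero_mem _

theorem E03_fl {n : ℕ} {wt : ℤ} {Q : Matrix (Fin n) (Fin n) ℤ}
    {Fl : ℤ → Submodule ℂ (Fin n → ℂ)} {S : Matrix (Fin n) (Fin n) ℂ} {d : Fin n → ℤ}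
    (hS : Adapted wt Q Fl S d) (p : ℤ) (x : Fin n → ℂ) :
    x ∈ Fl p ↔ ∀ a, (S⁻¹ *ᵥ x) a ≠ 0 → p ≤ d a := by
  rw [hS.fl p, E03_mem hS.inv]
  constructor
  · intro h a ha
    by_contra hc
    exact ha (h a hc)
  · intro h a ha
    by_contra hc
    exact ha (h a hc)

theorem E03_cfl {n : ℕ} {wt : ℤ} {Q : Matrix (Fin n) (Fin n) ℤ}
    {Fl : ℤ → Submodule ℂ (Fin n → ℂ)} {S : Matrix (Fin n) (Fin n) ℂ} {d : Fin n → ℤ}
    (hS : Adapted wt Q Fl S d) (p : ℤ) (x : Fin n → ℂ) :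
    x ∈ conjSub (Fl p) ↔ ∀ a, (S⁻¹ *ᵥ x) a ≠ 0 → d a ≤ wt - p := by
  rw [hS.cfl p, E03_mem hS.inv]
  constructor
  · intro h a ha
    by_contra hc
    exact ha (h a hc)
  · intro h a ha
    by_contra hc
    exact ha (h a hc)

theorem E03_colcoef {n : ℕ} {S : Matrix (Fin n) (Fin n) ℂ} (hS : IsUnit S.det) (a b : Fin n)
    (h : (S⁻¹ *ᵥ (Sᵀ b)) a ≠ 0) : a = b := by
  rw [E03_col hS, Pi.single_apply] at h
  by_contra hc
  rw [if_neg hc] at h
  exact h rfl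

theorem gr_eq {n : ℕ} {wt : ℤ} {Q : Matrix (Fin n) (Fin n) ℤ}
    {Fl : ℤ → Submodule ℂ (Fin n → ℂ)} {S : Matrix (Fin n) (Fin n) ℂ} {d : Fin n → ℤ}
    (hS : Adapted wt Q Fl S d) (μ : Matrix (Fin n) (Fin n) ℂ) (hμ : IsGr wt Fl μ) :
    μ = S * Matrix.diagonal (fun a => (d a : ℂ)) * S⁻¹ := by
  have h1 : μ * S = S * Matrix.diagonal (fun a => (d a : ℂ)) := by
    ext i a
    have h2 : μ *ᵥ (Sᵀ a) = ((d a : ℤ) : ℂ) • Sᵀ a := by
      apply hμ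
      refine Submodule.mem_inf.mpr ⟨?_, ?_⟩
      · refine (E03_fl hS _ _).mpr ?_
        intro b hb
        rw [E03_colcoef hS.inv b a hb]
      · refine (E03_cfl hS _ _).mpr ?_
        intro b hb
        rw [E03_colcoef hS.inv b a hb]
        linarith
    have h3 := congrFun h2 i
    rw [Matrix.mul_diagonal]
    have h4 : (μ * S) i a = (μ *ᵥ (Sᵀ a)) i := rfl
    rw [h4, h3, Pi.smul_apply, smul_eq_mul, mul_comm]
    rfl
  rw [← h1, Matrix.mul_assoc, Matrix.mul_nonsing_inv _ hS.inv, Matrix.mul_one]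

theorem gr_of_adapted {n : ℕ} {wt : ℤ} {Q : Matrix (Fin n) (Fin n) ℤ}
    {Fl : ℤ → Submodule ℂ (Fin n → ℂ)} {S : Matrix (Fin n) (Fin n) ℂ} {d : Fin n → ℤ}
    (hS : Adapted wt Q Fl S d) : IsGr wt Fl (S * Matrix.diagonal (fun a => (d a : ℂ)) * S⁻¹) := by
  intro p x hx
  obtain ⟨hx1, hx2⟩ := hx
  have hx2' := (E03_cfl hS (wt - p) x).mp hx2
  have hx1' := (E03_fl hS p x).mp hx1
  have h1 : Matrix.diagonal (fun a => (d a : ℂ)) *ᵥ (S⁻¹ *ᵥ x) = (p : ℂ) • (S⁻¹ *ᵥ x) := by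
    ext a
    rw [Matrix.mulVec_diagonal, Pi.smul_apply, smul_eq_mul]
    by_cases h0 : (S⁻¹ *ᵥ x) a = 0
    · rw [h0, mul_zero, mul_zero]
    · have e1 := hx1' a h0
      have e2 := hx2' a h0
      have e3 : d a = p := by omega
      rw [e3]
  rw [← Matrix.mulVec_mulVec, ← Matrix.mulVec_mulVec, h1, Matrix.mulVec_smul,
    Matrix.mulVec_mulVec, Matrix.mul_nonsing_inv _ hS.inv, Matrix.one_mulVec]

theorem E03_coord {n : ℕ} {S : Matrix (Fin n) (Fin n) ℂ} (hS : IsUnit S.det)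
    (X : Matrix (Fin n) (Fin n) ℂ) (x : Fin n → ℂ) :
    S⁻¹ *ᵥ (X *ᵥ x) = (S⁻¹ * X * S) *ᵥ (S⁻¹ *ᵥ x) := by
  rw [Matrix.mulVec_mulVec, Matrix.mulVec_mulVec, Matrix.mul_assoc (S⁻¹ * X) S,
    Matrix.mul_nonsing_inv _ hS, Matrix.mul_one]

theorem E03_entry {n : ℕ} {S : Matrix (Fin n) (Fin n) ℂ} (hS : IsUnit S.det)
    (X : Matrix (Fin n) (Fin n) ℂ) (a b : Fin n) :
    (S⁻¹ * X * S) a b = (S⁻¹ *ᵥ (X *ᵥ (Sᵀ b))) a := by
  rw [E03_coord hS, E03_col hS, Matrix.mulVec_single_one]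
  rfl

theorem E03_supp {n : ℕ} (M : Matrix (Fin n) (Fin n) ℂ) (c : Fin n → ℂ) (a : Fin n)
    (h : (M *ᵥ c) a ≠ 0) : ∃ b, M a b ≠ 0 ∧ c b ≠ 0 := by
  by_contra hc
  push Not at hc
  apply h
  show ∑ b, M a b * c b = 0
  refine Finset.sum_eq_zero fun b _ => ?_
  by_cases hb : M a b = 0
  · rw [hb, zero_mul]
  · rw [hc b hb, mul_zero]

theorem mem_FEnd_iff {n : ℕ} {wt : ℤ} {Q : Matrix (Fin n) (Fin n) ℤ}
    {Fl : ℤ → Submodule ℂ (Fin n → ℂ)} {S : Matrix (Fin n) (Fin n) ℂ} {d : Fin n → ℤ}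
    (hS : Adapted wt Q Fl S d) (X : Matrix (Fin n) (Fin n) ℂ) (k : ℤ) :
    X ∈ FEnd Fl k ↔ ∀ a b, (S⁻¹ * X * S) a b ≠ 0 → d b + k ≤ d a := by
  constructor
  · intro h a b hab
    have h1 : Sᵀ b ∈ Fl (d b) := by
      rw [E03_fl hS]
      intro c hc
      rw [E03_colcoef hS.inv c b hc]
    have h2 : X *ᵥ (Sᵀ b) ∈ Fl (d b + k) := h _ _ h1
    rw [E03_fl hS] at h2
    rw [E03_entry hS.inv] at hab
    exact h2 a hab
  · intro h p x hx
    rw [E03_fl hS] at hx ⊢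
    intro a ha
    rw [E03_coord hS.inv] at ha
    obtain ⟨b, hb1, hb2⟩ := E03_supp _ _ _ ha
    have e1 := h a b hb1
    have e2 := hx b hb2
    omega

theorem E03_star {n : ℕ} (X : Matrix (Fin n) (Fin n) ℂ) (x : Fin n → ℂ) :
    star (X *ᵥ x) = mconj X *ᵥ star x := by
  ext i
  simp [mconj, Matrix.mulVec, dotProduct]

theorem E03_mconj_mconj {n : ℕ} (X : Matrix (Fin n) (Fin n) ℂ) : mconj (mconj X) = X := by
  ext i j
  simp [mconj]

theorem conj_mem_FEnd_iff {n : ℕ} {wt : ℤ} {Q : Matrix (Fin n) (Fin n) ℤ}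
    {Fl : ℤ → Submodule ℂ (Fin n → ℂ)} {S : Matrix (Fin n) (Fin n) ℂ} {d : Fin n → ℤ}
    (hS : Adapted wt Q Fl S d) (X : Matrix (Fin n) (Fin n) ℂ) (k : ℤ) :
    mconj X ∈ FEnd Fl k ↔ ∀ a b, (S⁻¹ * X * S) a b ≠ 0 → d a + k ≤ d b := by
  have key : mconj X ∈ FEnd Fl k ↔ ∀ p, ∀ y ∈ conjSub (Fl p), X *ᵥ y ∈ conjSub (Fl (p + k)) := by
    constructor
    · intro h p y hy
      have h1 : mconj X *ᵥ star y ∈ Fl (p + k) := h p (star y) hy
      show star (X *ᵥ y) ∈ Fl (p + k)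
      rw [E03_star]
      exact h1
    · intro h p x hx
      have h1 : star x ∈ conjSub (Fl p) := by
        show star (star x) ∈ Fl p
        rw [star_star]; exact hx
      have h2 : star (X *ᵥ star x) ∈ Fl (p + k) := h p (star x) h1
      rw [E03_star, star_star] at h2
      exact h2
  rw [key]
  constructor
  · intro h a b hab
    have h1 : Sᵀ b ∈ conjSub (Fl (wt - d b)) := by
      rw [E03_cfl hS]
      intro c hc
      rw [E03_colcoef hS.inv c b hc]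
      linarith
    have h2 := h _ _ h1
    rw [E03_cfl hS] at h2
    rw [E03_entry hS.inv] at hab
    have h3 := h2 a hab
    omega
  · intro h p x hx
    rw [E03_cfl hS] at hx ⊢
    intro a ha
    rw [E03_coord hS.inv] at ha
    obtain ⟨b, hb1, hb2⟩ := E03_supp _ _ _ ha
    have e1 := h a b hb1
    have e2 := hx b hb2
    omega

end MP2794d1
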