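import Pool.Agent.Lib.MP_2794d1_ag.W00
import Pool.Agent.Lib.MP_2794d1_ag.E03
import Pool.Agent.Lib.MP_2794d1_ag.E04

/-!
J01: The Hodge projectors at a point. prj h p is the matrix of Submodule.projection, so prj_mem, prj_ker,
prj_idem, prj_unique are its defining properties (LinearMap.toMatrix'_apply / toLin'; Submodule.projection_apply_of_mem_left,
projection_apply_eq_zero_iff ...; prj_unique: the two subspaces span). prj_adapted: use prj_unique and E03_fl, E03_cfl: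
with c = S⁻¹ x, x in Fl p iff c is supported on the a with p ≤ d a, and x in conjSub (Fl (wt+1-p)) iff c is supported on
d a ≤ p - 1. im_Q_unit: from Adapted.on, Sᵀ * im Q * mconj S is an invertible diagonal matrix. prj_symm: let
Δ = diagonal(if p ≤ d a then 1 else 0) and D = Sᵀ Q mconj S; conjugating, S^* Q S = mconj D (im Q is real), i.e.
Q = (S⁻¹)^* D' S⁻¹ with D' = mconj D diagonal, so Q Π = (S⁻¹)^* D' Δ S⁻¹ = (S⁻¹)^* Δ D' S⁻¹ = Π^* Q. gr_eq_sum: both sides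
are S * diagonal * S⁻¹; for lo ≤ d a < hi, lo + #{p ∈ Ioc lo hi : p ≤ d a} = d a. The bounds lo ≤ d a < hi follow from
Fl lo = ⊤, Fl hi = ⊥ (E03_fl applied to the column Sᵀ a).
-/

namespace MP2794d1

open Matrix Complex Filter Topology
open scoped ContDiff

variable {n : ℕ} {wt : ℤ} {Q : Matrix (Fin n) (Fin n) ℤ} {Fl : ℤ → Submodule ℂ (Fin n → ℂ)}

theorem prj_mem (h : IsPHS wt Q Fl) (p : ℤ) (x : Fin n → ℂ) : x ∈ Fl p ↔ prj h p *ᵥ x = x := by
  unfold prj
  rw [LinearMap.toMatrix'_mulVec, Submodule.projection_eq_self_iff]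

theorem prj_ker (h : IsPHS wt Q Fl) (p : ℤ) (x : Fin n → ℂ) :
    x ∈ conjSub (Fl (wt + 1 - p)) ↔ prj h p *ᵥ x = 0 := by
  unfold prj
  rw [LinearMap.toMatrix'_mulVec, Submodule.projection_apply_eq_zero_iff]

theorem prj_range (h : IsPHS wt Q Fl) (p : ℤ) (x : Fin n → ℂ) : prj h p *ᵥ x ∈ Fl p := by
  unfold prj
  rw [LinearMap.toMatrix'_mulVec]
  exact Submodule.projection_apply_mem _ _

theorem j01_ext {A B : Matrix (Fin n) (Fin n) ℂ} (h : ∀ x, A *ᵥ x = B *ᵥ x) : A = B := by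
  ext i j
  have h1 := congrFun (h (Pi.single j 1)) i
  rw [Matrix.mulVec_single_one, Matrix.mulVec_single_one] at h1
  exact h1

theorem prj_idem (h : IsPHS wt Q Fl) (p : ℤ) : prj h p * prj h p = prj h p := by
  apply j01_ext
  intro x
  rw [← Matrix.mulVec_mulVec]
  exact (prj_mem h p _).1 (prj_range h p x)

theorem prj_unique (h : IsPHS wt Q Fl) (p : ℤ) (R : Matrix (Fin n) (Fin n) ℂ)
    (h1 : ∀ x ∈ Fl p, R *ᵥ x = x) (h2 : ∀ x ∈ conjSub (Fl (wt + 1 - p)), R *ᵥ x = 0) :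
    R = prj h p := by
  apply j01_ext
  intro x
  have hx : x - prj h p *ᵥ x ∈ conjSub (Fl (wt + 1 - p)) := by
    rw [prj_ker h p, Matrix.mulVec_sub, Matrix.mulVec_mulVec, prj_idem, sub_self]
  have h3 := h2 _ hx
  rw [Matrix.mulVec_sub, h1 _ (prj_range h p x), sub_eq_zero] at h3
  exact h3

theorem prj_adapted (h : IsPHS wt Q Fl) {S : Matrix (Fin n) (Fin n) ℂ} {d : Fin n → ℤ}
    (hS : Adapted wt Q Fl S d) (p : ℤ) :
    prj h p = S * Matrix.diagonal (fun a => if p ≤ d a then (1 : ℂ) else 0) * S⁻¹ := by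
  symm
  apply prj_unique
  · intro x hx
    rw [E03_fl hS] at hx
    have h1 : Matrix.diagonal (fun a => if p ≤ d a then (1 : ℂ) else 0) *ᵥ (S⁻¹ *ᵥ x) =
        S⁻¹ *ᵥ x := by
      ext a
      rw [Matrix.mulVec_diagonal]
      by_cases h0 : (S⁻¹ *ᵥ x) a = 0
      · rw [h0, mul_zero]
      · rw [if_pos (hx a h0), one_mul]
    rw [← Matrix.mulVec_mulVec, ← Matrix.mulVec_mulVec, h1, Matrix.mulVec_mulVec,
      Matrix.mul_nonsing_inv _ hS.inv, Matrix.one_mulVec]
  · intro x hx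
    rw [E03_cfl hS] at hx
    have h1 : Matrix.diagonal (fun a => if p ≤ d a then (1 : ℂ) else 0) *ᵥ (S⁻¹ *ᵥ x) = 0 := by
      ext a
      rw [Matrix.mulVec_diagonal, Pi.zero_apply]
      by_cases h0 : (S⁻¹ *ᵥ x) a = 0
      · rw [h0, mul_zero]
      · have h2 := hx a h0
        rw [if_neg (by omega), zero_mul]
    rw [← Matrix.mulVec_mulVec, ← Matrix.mulVec_mulVec, h1, Matrix.mulVec_zero]

theorem j01_mul {S : Matrix (Fin n) (Fin n) ℂ} (hS : IsUnit S.det) (A B : Matrix (Fin n) (Fin n) ℂ) :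
    (S * A * S⁻¹) * (S * B * S⁻¹) = S * (A * B) * S⁻¹ := by
  have h1 : S⁻¹ * S = 1 := Matrix.nonsing_inv_mul _ hS
  calc (S * A * S⁻¹) * (S * B * S⁻¹) = S * A * (S⁻¹ * S) * B * S⁻¹ := by
        simp only [Matrix.mul_assoc]
    _ = S * (A * B) * S⁻¹ := by rw [h1, Matrix.mul_one, Matrix.mul_assoc S A B]

theorem prj_mul_of_le (h : IsPHS wt Q Fl) {p q : ℤ} (hpq : p ≤ q) :
    prj h p * prj h q = prj h q ∧ prj h q * prj h p = prj h q := by
  obtain ⟨S, d, hS⟩ := exists_adapted h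
  rw [prj_adapted h hS p, prj_adapted h hS q, j01_mul hS.inv, j01_mul hS.inv,
    Matrix.diagonal_mul_diagonal, Matrix.diagonal_mul_diagonal]
  constructor
  · congr 3
    ext a
    by_cases h1 : q ≤ d a
    · rw [if_pos h1, if_pos (hpq.trans h1), one_mul]
    · rw [if_neg h1, mul_zero]
  · congr 3
    ext a
    by_cases h1 : q ≤ d a
    · rw [if_pos h1, if_pos (hpq.trans h1), one_mul]
    · rw [if_neg h1, zero_mul]

theorem im_Q_unit (h : IsPHS wt Q Fl) : IsUnit (im Q).det := by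
  obtain ⟨S, d, hS⟩ := exists_adapted h
  rw [isUnit_iff_ne_zero]
  intro h0
  have h1 := congrArg Matrix.det hS.on
  rw [Matrix.det_mul, Matrix.det_mul, h0, mul_zero, zero_mul, Matrix.det_diagonal] at h1
  have h2 : ∏ a, Complex.I ^ (wt - 2 * d a) ≠ 0 :=
    Finset.prod_ne_zero_iff.2 fun a _ => zpow_ne_zero _ Complex.I_ne_zero
  exact h2 h1.symm

theorem j01_mconj_mul (A B : Matrix (Fin n) (Fin n) ℂ) : mconj (A * B) = mconj A * mconj B := by
  unfold mconj
  exact Matrix.map_mul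

theorem j01_mconj_one : mconj (1 : Matrix (Fin n) (Fin n) ℂ) = 1 := by
  unfold mconj
  exact Matrix.map_one _ (map_zero _) (map_one _)

theorem prj_symm (h : IsPHS wt Q Fl) (p : ℤ) :
    (mconj (prj h p))ᵀ * im Q = im Q * prj h p := by
  obtain ⟨S, d, hS⟩ := exists_adapted h
  set Δ : Matrix (Fin n) (Fin n) ℂ := Matrix.diagonal (fun a => if p ≤ d a then (1 : ℂ) else 0)
    with hΔ
  have hSS : S * S⁻¹ = 1 := Matrix.mul_nonsing_inv _ hS.inv
  have hSS' : S⁻¹ * S = 1 := Matrix.nonsing_inv_mul _ hS.inv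
  have e1 : prj h p * S = S * Δ := by
    rw [prj_adapted h hS p, Matrix.mul_assoc, hSS', Matrix.mul_one]
  -- the conjugate of the orthonormality relation
  have e2 : (mconj S)ᵀ * im Q * S =
      Matrix.diagonal (fun a => (starRingEnd ℂ) (Complex.I ^ (wt - 2 * d a))) := by
    have h1 := congrArg mconj hS.on
    rw [j01_mconj_mul, j01_mconj_mul, E03_mconj_mconj] at h1
    have h2 : mconj (im Q) = im Q := by
      ext i j
      simp [mconj, im]
    have h3 : mconj Sᵀ = (mconj S)ᵀ := by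
      ext i j
      simp [mconj]
    rw [h2, h3] at h1
    rw [h1]
    ext i j
    simp only [mconj, Matrix.map_apply, Matrix.diagonal_apply]
    split_ifs
    · rfl
    · exact map_zero _
  have e3 : mconj Δ = Δ := by
    ext i j
    simp only [mconj, Matrix.map_apply, hΔ, Matrix.diagonal_apply]
    split_ifs <;> simp
  have e4 : Δᵀ = Δ := Matrix.diagonal_transpose _
  have e5 : (mconj S)ᵀ * ((mconj (prj h p))ᵀ * im Q) * S = Δ * ((mconj S)ᵀ * im Q * S) := by
    calc (mconj S)ᵀ * ((mconj (prj h p))ᵀ * im Q) * S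
        = (mconj (prj h p) * mconj S)ᵀ * im Q * S := by
          rw [Matrix.transpose_mul]; simp only [Matrix.mul_assoc]
      _ = (mconj (prj h p * S))ᵀ * im Q * S := by rw [j01_mconj_mul]
      _ = (mconj S * Δ)ᵀ * im Q * S := by rw [e1, j01_mconj_mul, e3]
      _ = Δ * ((mconj S)ᵀ * im Q * S) := by
          rw [Matrix.transpose_mul, e4]; simp only [Matrix.mul_assoc]
  have e6 : (mconj S)ᵀ * (im Q * prj h p) * S = ((mconj S)ᵀ * im Q * S) * Δ := by
    calc (mconj S)ᵀ * (im Q * prj h p) * S = (mconj S)ᵀ * im Q * (prj h p * S) := by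
          simp only [Matrix.mul_assoc]
      _ = ((mconj S)ᵀ * im Q * S) * Δ := by rw [e1]; simp only [Matrix.mul_assoc]
  have e7 : (mconj S)ᵀ * ((mconj (prj h p))ᵀ * im Q) * S =
      (mconj S)ᵀ * (im Q * prj h p) * S := by
    rw [e5, e6, e2, hΔ, Matrix.diagonal_mul_diagonal, Matrix.diagonal_mul_diagonal]
    congr 1
    ext a
    rw [mul_comm]
  have e8 : (mconj S⁻¹)ᵀ * (mconj S)ᵀ = 1 := by
    rw [← Matrix.transpose_mul, ← j01_mconj_mul, hSS, j01_mconj_one, Matrix.transpose_one]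
  have e9 : ∀ X : Matrix (Fin n) (Fin n) ℂ, (mconj S⁻¹)ᵀ * ((mconj S)ᵀ * X * S) * S⁻¹ = X := by
    intro X
    calc (mconj S⁻¹)ᵀ * ((mconj S)ᵀ * X * S) * S⁻¹
        = ((mconj S⁻¹)ᵀ * (mconj S)ᵀ) * X * (S * S⁻¹) := by simp only [Matrix.mul_assoc]
      _ = X := by rw [e8, hSS, Matrix.one_mul, Matrix.mul_one]
  rw [← e9 ((mconj (prj h p))ᵀ * im Q), e7, e9]

theorem adapted_bounds {S : Matrix (Fin n) (Fin n) ℂ} {d : Fin n → ℤ}
    (hS : Adapted wt Q Fl S d) {lo hi : ℤ} (hlo : Fl lo = ⊤) (hhi : Fl hi = ⊥) (a : Fin n) :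
    lo ≤ d a ∧ d a < hi := by
  have h0 : (S⁻¹ *ᵥ (Sᵀ a)) a ≠ 0 := by
    rw [E03_col hS.inv, Pi.single_eq_same]
    exact one_ne_zero
  constructor
  · have h1 : Sᵀ a ∈ Fl lo := by rw [hlo]; trivial
    rw [E03_fl hS] at h1
    exact h1 a h0
  · by_contra hc
    push Not at hc
    have h1 : Sᵀ a ∈ Fl hi := by
      rw [E03_fl hS]
      intro b hb
      rw [E03_colcoef hS.inv b a hb]
      exact hc
    rw [hhi, Submodule.mem_bot] at h1
    rw [h1, Matrix.mulVec_zero] at h0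
    exact h0 rfl

theorem gr_eq_sum (h : IsPHS wt Q Fl) {μ : Matrix (Fin n) (Fin n) ℂ} (hμ : IsGr wt Fl μ)
    {lo hi : ℤ} (hlo : Fl lo = ⊤) (hhi : Fl hi = ⊥) :
    μ = (lo : ℂ) • (1 : Matrix (Fin n) (Fin n) ℂ) + ∑ p ∈ Finset.Ioc lo hi, prj h p := by
  obtain ⟨S, d, hS⟩ := exists_adapted h
  have hSS : S * S⁻¹ = 1 := Matrix.mul_nonsing_inv _ hS.inv
  rw [gr_eq hS μ hμ]
  have h1 : ∀ p ∈ Finset.Ioc lo hi, prj h p =
      S * Matrix.diagonal (fun a => if p ≤ d a then (1 : ℂ) else 0) * S⁻¹ :=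
    fun p _ => prj_adapted h hS p
  rw [Finset.sum_congr rfl h1, ← Finset.sum_mul, ← Finset.mul_sum]
  have h2 : (lo : ℂ) • (1 : Matrix (Fin n) (Fin n) ℂ) =
      S * ((lo : ℂ) • (1 : Matrix (Fin n) (Fin n) ℂ)) * S⁻¹ := by
    rw [Matrix.mul_smul, Matrix.smul_mul, Matrix.mul_one, hSS]
  rw [h2, ← Matrix.add_mul, ← Matrix.mul_add]
  congr 2
  ext a b
  rw [Matrix.add_apply, Matrix.smul_apply, Matrix.sum_apply]
  by_cases hab : a = b
  · subst hab
    simp only [Matrix.diagonal_apply_eq, Matrix.one_apply_eq, smul_eq_mul, mul_one]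
    obtain ⟨e1, e2⟩ := adapted_bounds hS hlo hhi a
    rw [Finset.sum_ite, Finset.sum_const_zero, add_zero, Finset.sum_const]
    have h3 : (Finset.Ioc lo hi).filter (fun p => p ≤ d a) = Finset.Ioc lo (d a) := by
      ext p
      simp only [Finset.mem_filter, Finset.mem_Ioc]
      constructor
      · rintro ⟨⟨h3, _⟩, h4⟩
        exact ⟨h3, h4⟩
      · rintro ⟨h3, h4⟩
        exact ⟨⟨h3, by omega⟩, h4⟩
    rw [h3, Int.card_Ioc, nsmul_eq_mul, mul_one]
    have h4 : (((d a - lo).toNat : ℕ) : ℂ) = ((((d a - lo).toNat : ℕ) : ℤ) : ℂ) := by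
      push_cast
      rfl
    rw [h4, Int.toNat_of_nonneg (by omega)]
    push_cast
    ring
  · rw [Matrix.diagonal_apply_ne _ hab, Matrix.one_apply_ne hab, smul_zero, zero_add]
    symm
    exact Finset.sum_eq_zero fun p _ => Matrix.diagonal_apply_ne _ hab

end MP2794d1
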