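import Pool.Agent.Lib.MP_2794d1_ag.W03
import Pool.Agent.Lib.MP_2794d1_ag.J01

/-!
J02: The Hodge projectors are smooth. Fix z₀ with 0 < z₀.im and take from V.hol p z₀ a frame W : ℂ → Matrix n r, analytic
at z₀, with F p z = range (W z), columns independent, for z near z₀. Let W^* be the conjugate transpose and
A z = (W z)^* * im Q * W z (r × r). Claim: (A z).det ≠ 0 and PiV V p z = W z * (A z)⁻¹ * (W z)^* * im Q for z near z₀,
0 < z.im. If A z c = 0 then v = W z c ∈ F p z satisfies x^* Q v = 0 for all x ∈ F p z; also x^* Q v = 0 for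
x ∈ conj F (wt+1-p): star x ∈ F(wt+1-p) and orth (with symm) gives v ⬝ᵥ Q (star x) = 0. By opp, x^* Q v = 0 for all x, so
Q v = 0 and v = 0 (im_Q_unit). The formula: R = W A⁻¹ W^* Q satisfies R W = W, so R x = x on F p z, and R kills
conj F(wt+1-p) since W^* Q x = 0 for such x; use prj_unique. The entries are smooth by smooth_of_analytic, smooth_conj,
smooth_inv.
-/

namespace MP2794d1

open Matrix Complex Filter Topology
open scoped ContDiff

section
variable {n r : ℕ} {wt : ℤ} {Q : Matrix (Fin n) (Fin n) ℤ} {Fl : ℤ → Submodule ℂ (Fin n → ℂ)}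

theorem j02_star (W : Matrix (Fin n) (Fin r) ℂ) (M : Matrix (Fin n) (Fin n) ℂ)
    (e : Fin r → ℂ) (y : Fin n → ℂ) :
    star (W *ᵥ e) ⬝ᵥ (M *ᵥ y) = star e ⬝ᵥ ((Wᴴ * M) *ᵥ y) := by
  rw [Matrix.star_mulVec, ← Matrix.dotProduct_mulVec, Matrix.mulVec_mulVec]

open scoped ComplexOrder in
theorem j02_det (h : IsPHS wt Q Fl) (p : ℤ) (W : Matrix (Fin n) (Fin r) ℂ)
    (hW : LinearIndependent ℂ Wᵀ) (hF : Fl p = LinearMap.range W.mulVecLin) :
    (Wᴴ * im Q * W).det ≠ 0 := by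
  intro h0
  obtain ⟨c, hc, hc0⟩ := Matrix.exists_mulVec_eq_zero_iff.2 h0
  apply hc
  have hv : W *ᵥ c ∈ Fl p := by
    rw [hF]
    exact ⟨c, rfl⟩
  have h1 : ∀ x ∈ Fl p, star x ⬝ᵥ (im Q *ᵥ (W *ᵥ c)) = 0 := by
    intro x hx
    rw [hF] at hx
    obtain ⟨e, rfl⟩ := hx
    rw [Matrix.mulVecLin_apply, j02_star, Matrix.mulVec_mulVec, hc0, dotProduct_zero]
  have h2 : ∀ x ∈ conjSub (Fl (wt + 1 - p)), star x ⬝ᵥ (im Q *ᵥ (W *ᵥ c)) = 0 := by
    intro x hx
    have hx' : star x ∈ Fl (wt + 1 - p) := hx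
    refine h.orth (wt + 1 - p) _ hx' _ ?_
    have : wt + 1 - (wt + 1 - p) = p := by ring
    rw [this]
    exact hv
  have h3 : ∀ x : Fin n → ℂ, star x ⬝ᵥ (im Q *ᵥ (W *ᵥ c)) = 0 := by
    intro x
    have hx : x ∈ Fl p ⊔ conjSub (Fl (wt + 1 - p)) := by
      rw [(h.opp p).sup_eq_top]
      trivial
    obtain ⟨a, ha, b, hb, rfl⟩ := Submodule.mem_sup.1 hx
    rw [star_add, add_dotProduct, h1 a ha, h2 b hb, add_zero]
  have h4 : im Q *ᵥ (W *ᵥ c) = 0 := by
    have h5 := h3 (im Q *ᵥ (W *ᵥ c))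
    exact dotProduct_star_self_eq_zero.1 h5
  have h5 : W *ᵥ c = 0 := by
    have h6 := congrArg (fun y => (im Q)⁻¹ *ᵥ y) h4
    simp only [Matrix.mulVec_mulVec, Matrix.mulVec_zero] at h6
    rw [← Matrix.mul_assoc, Matrix.nonsing_inv_mul _ (im_Q_unit h), Matrix.one_mul] at h6
    exact h6
  rw [Fintype.linearIndependent_iff] at hW
  funext i
  refine hW c ?_ i
  rw [← h5, Matrix.mulVec_eq_sum]
  refine Finset.sum_congr rfl fun a _ => ?_
  ext i
  simp [mul_comm]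

theorem j02_formula (h : IsPHS wt Q Fl) (p : ℤ) (W : Matrix (Fin n) (Fin r) ℂ)
    (hW : LinearIndependent ℂ Wᵀ) (hF : Fl p = LinearMap.range W.mulVecLin) :
    prj h p = W * (Wᴴ * im Q * W)⁻¹ * (Wᴴ * im Q) := by
  symm
  have hdet := j02_det h p W hW hF
  have hinv : (Wᴴ * im Q * W)⁻¹ * (Wᴴ * im Q * W) = 1 :=
    Matrix.nonsing_inv_mul _ (isUnit_iff_ne_zero.2 hdet)
  apply prj_unique
  · intro x hx
    rw [hF] at hx
    obtain ⟨e, rfl⟩ := hx
    rw [Matrix.mulVecLin_apply, Matrix.mulVec_mulVec]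
    congr 1
    calc W * (Wᴴ * im Q * W)⁻¹ * (Wᴴ * im Q) * W
        = W * ((Wᴴ * im Q * W)⁻¹ * (Wᴴ * im Q * W)) := by simp only [Matrix.mul_assoc]
      _ = W := by rw [hinv, Matrix.mul_one]
  · intro x hx
    have hx' : star x ∈ Fl (wt + 1 - p) := hx
    have h1 : (Wᴴ * im Q) *ᵥ x = 0 := by
      funext j
      have h2 : W *ᵥ (Pi.single j 1) ∈ Fl p := by
        rw [hF]
        exact ⟨_, rfl⟩
      have h3 := h.orth p _ h2 _ hx'
      have h4 := congrArg (starRingEnd ℂ) h3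
      rw [E02_conj, star_star, map_zero, j02_star] at h4
      simpa using h4
    rw [← Matrix.mulVec_mulVec, h1, Matrix.mulVec_zero]

end

theorem j02_conjTranspose {n r : ℕ} {X : ℂ → Matrix (Fin n) (Fin r) ℂ} {z : ℂ} (hX : SmA X z) :
    SmA (fun y => (X y)ᴴ) z := by
  intro i j
  exact smooth_conj (hX j i)

theorem Pi_smooth {n : ℕ} (V : PolVHS n) (p : ℤ) {z : ℂ} (hz : 0 < z.im) : SmA (PiV V p) z := by
  obtain ⟨r, W, hW, hev⟩ := V.hol p z hz
  have hWs : SmA W z := SmA.of_analytic hW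
  have h0 := hev.self_of_nhds
  have hA : SmA (fun y => (W y)ᴴ * im V.Q * W y) z :=
    ((j02_conjTranspose hWs).mul (SmA.const _)).mul hWs
  have hd := j02_det (V.phs z hz) p (W z) h0.1 h0.2
  have hR : SmA (fun y => W y * ((W y)ᴴ * im V.Q * W y)⁻¹ * ((W y)ᴴ * im V.Q)) z :=
    (hWs.mul (hA.inv hd)).mul ((j02_conjTranspose hWs).mul (SmA.const _))
  refine hR.congr ?_
  have him : ∀ᶠ y in 𝓝 z, 0 < y.im :=
    Complex.continuous_im.continuousAt.eventually (lt_mem_nhds hz)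
  filter_upwards [hev, him] with y hy hy'
  unfold PiV
  rw [dif_pos hy', j02_formula (V.phs y hy') p (W y) hy.1 hy.2]

end MP2794d1
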