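import Pool.Agent.Lib.MP_2794d1_ag.B07

/-!
G00: conjugating FEnd by uexp: X maps g Fl p into g Fl (p+k) iff g⁻¹ X g maps Fl p into Fl (p+k), g = uexp N s invertible
with inverse uexp N (-s).
-/

namespace MP2794d1

open Matrix Complex Filter Topology

theorem FEnd_map_iff {n : ℕ} (N : Matrix (Fin n) (Fin n) ℂ) (hN : N ^ n = 0) (s : ℂ)
    (Fl Fl' : ℤ → Submodule ℂ (Fin n → ℂ)) (h : ∀ p, Fl' p = (Fl p).map (uexp N s).mulVecLin)
    (X : Matrix (Fin n) (Fin n) ℂ) (k : ℤ) :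
    X ∈ FEnd Fl' k ↔ uexp N (-s) * X * uexp N s ∈ FEnd Fl k := by
  constructor
  · intro hX p x hx
    have h1 : (uexp N s) *ᵥ x ∈ Fl' p := by
      rw [h]; exact ⟨x, hx, rfl⟩
    have h2 := hX p _ h1
    rw [h] at h2
    obtain ⟨y, hy, hy2⟩ := h2
    have h3 : (uexp N s) *ᵥ y = X *ᵥ ((uexp N s) *ᵥ x) := hy2
    have h4 : (uexp N (-s) * X * uexp N s) *ᵥ x = y := by
      rw [← Matrix.mulVec_mulVec, ← Matrix.mulVec_mulVec, ← h3, Matrix.mulVec_mulVec,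
        uexp_neg_mul N hN s, Matrix.one_mulVec]
    rw [h4]; exact hy
  · intro hX p x hx
    rw [h] at hx
    obtain ⟨y, hy, hy2⟩ := hx
    have h3 : (uexp N s) *ᵥ y = x := hy2
    have h4 := hX p y hy
    rw [h]
    refine ⟨_, h4, ?_⟩
    rw [Matrix.mulVecLin_apply, Matrix.mulVec_mulVec, ← h3, Matrix.mulVec_mulVec]
    congr 1
    rw [← Matrix.mul_assoc, ← Matrix.mul_assoc, uexp_mul_neg N hN s, Matrix.one_mul]

/-- The jet condition: `exp(-sN) X exp(sN) ∈ ℂ N + F^0 End` for all `s`. -/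
def Jet {n : ℕ} (N : Matrix (Fin n) (Fin n) ℂ) (Fl : ℤ → Submodule ℂ (Fin n → ℂ))
    (X : Matrix (Fin n) (Fin n) ℂ) : Prop :=
  ∀ s : ℂ, ∃ b : ℂ, uexp N (-s) * X * uexp N s - b • N ∈ FEnd Fl 0

end MP2794d1
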