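import Pool.Agent.Lib.MP_2794d1_ag.E01
import Pool.Agent.Lib.MP_2794d1_ag.E05
import Pool.Agent.Lib.MP_2794d1_ag.E06

/-!
S02: a nonzero real nilpotent skew matrix is not in F^0: otherwise br μ N = 0 (comm_of_FEnd, mconj N = N) and
trace(N * mconj N) = trace(N²) < 0 by pos0, but N² is nilpotent, so trace 0.
-/

namespace MP2794d1

open Matrix Complex Filter Topology

theorem nil_not_mem {n : ℕ} {wt : ℤ} {Q : Matrix (Fin n) (Fin n) ℤ}
    {Fl : ℤ → Submodule ℂ (Fin n → ℂ)} (h : IsPHS wt Q Fl) (N : Matrix (Fin n) (Fin n) ℂ)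
    (hr : mconj N = N) (hs : Skew Q N) (hn : IsNilpotent N) (hne : N ≠ 0) : N ∉ FEnd Fl 0 := by
  intro hmem
  obtain ⟨μ, hμ⟩ := exists_gr h
  have h0 : br μ N = 0 := comm_of_FEnd h hμ N hmem (by rw [hr]; exact hmem)
  have h1 := pos0 h hμ N hs h0 hne
  rw [hr] at h1
  have h2 : IsNilpotent (N * N) := Commute.isNilpotent_mul_left (Commute.refl N) hn
  have h3 : IsNilpotent (Matrix.trace (N * N)) := Matrix.isNilpotent_trace_of_isNilpotent h2
  have h4 : Matrix.trace (N * N) = 0 := h3.eq_zero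
  rw [h4, Complex.zero_re] at h1
  exact lt_irrefl _ h1

end MP2794d1
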