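import Pool.Agent.Lib.MP_2794d1_ag.C12
import Pool.Agent.Lib.MP_2794d1_ag.G00
import Pool.Agent.Lib.MP_2794d1_ag.G02
import Pool.Agent.Lib.MP_2794d1_ag.S01
import Pool.Agent.Lib.MP_2794d1_ag.S02

/-!
S03: Stage 1 in the non-degenerate form. From stage1 exclude the second alternative: it gives N *ᵥ x ∈ F0 p for x ∈ F0 p
(mem_of_uexp_mem), so cm N ∈ FEnd F0 0; by FEnd_map_iff at a point y of the strip (N commutes with uexp N) cm N ∈
FEnd (fun p => V.F p y) 0, contradicting nil_not_mem (cm N ≠ 0 as c.N ≠ 0, nilpotent by cm_pow, skew, real).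
-/

namespace MP2794d1

open Matrix Complex Filter Topology

/-- The outcome of the first stage: near the cusp the Hodge filtration moves in an orbit of
`exp (ℂ N)`. -/
structure StageOne {n : ℕ} (V : PolVHS n) (c : Cusp V) (a : ℝ) (u : ℂ → ℂ)
    (F0 : ℤ → Submodule ℂ (Fin n → ℂ)) : Prop where
  ha : 0 ≤ a
  an : ∀ y : ℂ, |y.re| < 1 → a < y.im → AnalyticAt ℂ u y
  eq : ∀ y : ℂ, |y.re| < 1 → a < y.im → ∀ p, V.F p y = (F0 p).map (uexp (cm c.N) (u y)).mulVecLin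
  ne : ∃ y : ℂ, |y.re| < 1 ∧ a < y.im ∧ deriv u y ≠ 0

theorem cm_N_ne {n : ℕ} {V : PolVHS n} (c : Cusp V) (hN : c.N ≠ 0) : cm c.N ≠ 0 := by
  intro h
  apply hN
  ext i j
  have h1 : cm c.N i j = 0 := by rw [h]; rfl
  have h2 : ((c.N i j : ℚ) : ℂ) = 0 := h1
  exact_mod_cast h2

theorem N_not_mem {n : ℕ} (V : PolVHS n) (c : Cusp V) (hN : c.N ≠ 0) (z : ℂ) (hz : 0 < z.im) :
    cm c.N ∉ FEnd (fun p => V.F p z) 0 :=
  nil_not_mem (V.phs z hz) (cm c.N) (mconj_cm c.N) (skew_N V c) ⟨n, cm_pow c.N c.nil⟩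
    (cm_N_ne c hN)

theorem S03_conj {n : ℕ} {V : PolVHS n} (c : Cusp V) (s : ℂ) :
    uexp (cm c.N) (-s) * cm c.N * uexp (cm c.N) s = cm c.N := by
  rw [Matrix.mul_assoc, uexp_comm (cm c.N) (cm c.N) rfl, ← Matrix.mul_assoc,
    uexp_neg_mul _ (cm_pow c.N c.nil), Matrix.one_mul]

theorem stageOne_of {n : ℕ} (V : PolVHS n) (c : Cusp V) (hN : c.N ≠ 0) :
    ∃ δ : ℝ, 0 < δ ∧ ∀ (z : ℕ → ℂ) (H : ℕ → ℝ), (∀ k, |(z k).re| ≤ 1) → (∀ k, 0 < (z k).im) →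
      Monotone (fun k => (z k).im) → Tendsto (fun k => (z k).im) atTop atTop →
      (∀ k, 1 ≤ H k) → (∀ k, IsCM V (z k) (H k)) →
      (∀ k, H k * H (k + 1) ≤ Real.exp (δ * (z k).im)) →
      ∃ (a : ℝ) (u : ℂ → ℂ) (F0 : ℤ → Submodule ℂ (Fin n → ℂ)), StageOne V c a u F0 := by
  obtain ⟨δ, hδ, H1⟩ := stage1 V c
  refine ⟨δ, hδ, ?_⟩
  intro z H h1 h2 h3 h4 h5 h6 h7
  obtain ⟨a, u, F0, ha, han, heq, hor⟩ := H1 z H h1 h2 h3 h4 h5 h6 h7
  refine ⟨a, u, F0, ha, han, heq, ?_⟩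
  rcases hor with h | h
  · exact h
  · exfalso
    have hnil := cm_pow c.N c.nil
    have hmem : cm c.N ∈ FEnd F0 0 := by
      intro p x hx
      rw [add_zero]
      exact mem_of_uexp_mem (cm c.N) hnil (F0 p) x (h p x hx)
    set y : ℂ := ⟨0, a + 1⟩ with hy
    have hy1 : |y.re| < 1 := by simp [hy]
    have hy2 : a < y.im := by simp [hy]
    have h8 := (FEnd_map_iff (cm c.N) hnil (u y) F0 (fun p => V.F p y)
      (fun p => heq y hy1 hy2 p) (cm c.N) 0).2 (by rw [S03_conj]; exact hmem)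
    exact N_not_mem V c hN y (lt_of_le_of_lt ha hy2) h8

end MP2794d1
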