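import Pool.Agent.Lib.MP_2794d1_ag.L02
import Pool.Agent.Lib.MP_2794d1_ag.K06
import Pool.Agent.Lib.MP_2794d1_ag.E02

/-!
L03: Comparison of Hodge norms at points of bounded hyperbolic distance. Let K = 2 / kc V, C = 8 sqrt K. For ‖z₁ - z₀‖ ≤
im z₀ / 2 all points z_t = z₀ + t (z₁ - z₀), t ∈ [0,1], have im z_t ≥ im z₀ / 2, so sqrt (eV V z_t) ≤ 2 sqrt K / im z₀
(eV_bound) and f t = qf V z_t v satisfies |f' t| ≤ L f t with L = C ‖z₁ - z₀‖ / im z₀ (qf_deriv, chain rule). Then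
f t exp (-L t) is nonincreasing and f t exp (L t) nondecreasing on [0,1] (or norm_le_gronwallBound). conv_entries: for adapted
S at z₀ and S' at z₁, v = S' e_b: ∑_a |(S⁻¹ S') a b|² = qf V z₀ (S' e_b) ≤ e^(C/2) qf V z₁ (S' e_b) = e^(C/2), and
similarly with z₀, z₁ exchanged.
-/

namespace MP2794d1

open Matrix Complex Filter Topology
open scoped ContDiff

theorem L03_gronwall {f f' : ℝ → ℝ} {L : ℝ}
    (hd : ∀ t ∈ Set.Icc (0 : ℝ) 1, HasDerivAt f (f' t) t)
    (hb : ∀ t ∈ Set.Icc (0 : ℝ) 1, |f' t| ≤ L * f t) :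
    f 1 ≤ Real.exp L * f 0 ∧ f 0 ≤ Real.exp L * f 1 := by
  have h0 : (0 : ℝ) ∈ Set.Icc (0 : ℝ) 1 := ⟨le_refl _, zero_le_one⟩
  have h1 : (1 : ℝ) ∈ Set.Icc (0 : ℝ) 1 := ⟨zero_le_one, le_refl _⟩
  constructor
  · have hg : ∀ t ∈ Set.Icc (0 : ℝ) 1, HasDerivAt (fun t => f t * Real.exp (-(L * t)))
        (f' t * Real.exp (-(L * t)) + f t * (Real.exp (-(L * t)) * (-(L * 1)))) t := by
      intro t ht
      exact (hd t ht).mul ((((hasDerivAt_id t).const_mul L).neg).exp)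
    have hanti : AntitoneOn (fun t => f t * Real.exp (-(L * t))) (Set.Icc (0 : ℝ) 1) := by
      apply antitoneOn_of_deriv_nonpos (convex_Icc 0 1)
      · exact fun t ht => (hg t ht).continuousAt.continuousWithinAt
      · intro t ht
        rw [interior_Icc] at ht
        exact (hg t (Set.Ioo_subset_Icc_self ht)).differentiableAt.differentiableWithinAt
      · intro t ht
        rw [interior_Icc] at ht
        have ht' := Set.Ioo_subset_Icc_self ht
        rw [(hg t ht').deriv]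
        have h2 := (abs_le.mp (hb t ht')).2
        have h3 : 0 < Real.exp (-(L * t)) := Real.exp_pos _
        have : f' t * Real.exp (-(L * t)) + f t * (Real.exp (-(L * t)) * (-(L * 1)))
            = (f' t - L * f t) * Real.exp (-(L * t)) := by ring
        rw [this]
        exact mul_nonpos_of_nonpos_of_nonneg (by linarith) h3.le
    have h := hanti h0 h1 zero_le_one
    simp only [mul_zero, neg_zero, Real.exp_zero, mul_one] at h
    rw [Real.exp_neg] at h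
    have hpos : 0 < Real.exp L := Real.exp_pos _
    have h5 : f 1 ≤ f 0 * Real.exp L := by
      have := mul_le_mul_of_nonneg_right h hpos.le
      rwa [mul_assoc, inv_mul_cancel₀ hpos.ne', mul_one] at this
    linarith
  · have hg : ∀ t ∈ Set.Icc (0 : ℝ) 1, HasDerivAt (fun t => f t * Real.exp (L * t))
        (f' t * Real.exp (L * t) + f t * (Real.exp (L * t) * (L * 1))) t := by
      intro t ht
      exact (hd t ht).mul ((((hasDerivAt_id t).const_mul L)).exp)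
    have hmono : MonotoneOn (fun t => f t * Real.exp (L * t)) (Set.Icc (0 : ℝ) 1) := by
      apply monotoneOn_of_deriv_nonneg (convex_Icc 0 1)
      · exact fun t ht => (hg t ht).continuousAt.continuousWithinAt
      · intro t ht
        rw [interior_Icc] at ht
        exact (hg t (Set.Ioo_subset_Icc_self ht)).differentiableAt.differentiableWithinAt
      · intro t ht
        rw [interior_Icc] at ht
        have ht' := Set.Ioo_subset_Icc_self ht
        rw [(hg t ht').deriv]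
        have h2 := (abs_le.mp (hb t ht')).1
        have h3 : 0 < Real.exp (L * t) := Real.exp_pos _
        have : f' t * Real.exp (L * t) + f t * (Real.exp (L * t) * (L * 1))
            = (f' t + L * f t) * Real.exp (L * t) := by ring
        rw [this]
        exact mul_nonneg (by linarith) h3.le
    have h := hmono h0 h1 zero_le_one
    simp only [mul_zero, Real.exp_zero, mul_one] at h
    linarith

theorem L03_eV {n : ℕ} (V : PolVHS n) {y : ℝ} (hy : 0 < y) {z : ℂ} (hz : y / 2 ≤ z.im) :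
    Real.sqrt (eV V z) ≤ 2 * Real.sqrt (2 / kc V) / y := by
  have hk := kc_pos V
  have hz0 : 0 < z.im := by linarith
  have h1 := eV_bound V z hz0
  have h2 : eV V z ≤ (2 / kc V) * (2 / y) ^ 2 := by
    refine h1.trans ?_
    rw [show 2 / (kc V * z.im ^ 2) = (2 / kc V) * (1 / z.im) ^ 2 by field_simp]
    apply mul_le_mul_of_nonneg_left _ (by positivity)
    apply pow_le_pow_left₀ (by positivity)
    rw [div_le_div_iff₀ hz0 hy]
    linarith
  calc Real.sqrt (eV V z) ≤ Real.sqrt ((2 / kc V) * (2 / y) ^ 2) := Real.sqrt_le_sqrt h2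
    _ = Real.sqrt (2 / kc V) * (2 / y) := by
        rw [Real.sqrt_mul (by positivity), Real.sqrt_sq (by positivity)]
    _ = _ := by ring

theorem qf_compare {n : ℕ} (V : PolVHS n) : ∃ C : ℝ, 0 ≤ C ∧ ∀ z₀ z₁ : ℂ, 0 < z₀.im →
    ‖z₁ - z₀‖ ≤ z₀.im / 2 → ∀ v : Fin n → ℂ,
      qf V z₁ v ≤ Real.exp (C * (‖z₁ - z₀‖ / z₀.im)) * qf V z₀ v ∧
      qf V z₀ v ≤ Real.exp (C * (‖z₁ - z₀‖ / z₀.im)) * qf V z₁ v := by
  refine ⟨8 * Real.sqrt (2 / kc V), by positivity, ?_⟩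
  intro z₀ z₁ hz₀ hd v
  have him : ∀ t ∈ Set.Icc (0 : ℝ) 1, z₀.im / 2 ≤ (z₀ + (t : ℂ) * (z₁ - z₀)).im := by
    intro t ht
    have h1 : (z₀ + (t : ℂ) * (z₁ - z₀)).im = z₀.im + t * (z₁ - z₀).im := by
      simp [Complex.add_im, Complex.mul_im]
    rw [h1]
    have h2 : |(z₁ - z₀).im| ≤ z₀.im / 2 := (Complex.abs_im_le_norm _).trans hd
    have h3 : |t * (z₁ - z₀).im| ≤ z₀.im / 2 := by
      rw [abs_mul, abs_of_nonneg ht.1]
      calc t * |(z₁ - z₀).im| ≤ 1 * (z₀.im / 2) :=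
            mul_le_mul ht.2 h2 (abs_nonneg _) zero_le_one
        _ = _ := one_mul _
    have := (abs_le.mp h3).1
    linarith
  have hγ : ∀ t : ℝ, HasDerivAt (fun t : ℝ => z₀ + (t : ℂ) * (z₁ - z₀)) (z₁ - z₀) t := by
    intro t
    have h1 : HasDerivAt (fun t : ℝ => (t : ℂ)) 1 t := (hasDerivAt_id t).ofReal_comp
    have h2 := (h1.mul_const (z₁ - z₀)).const_add z₀
    rwa [one_mul] at h2
  have hder : ∀ t ∈ Set.Icc (0 : ℝ) 1,
      HasDerivAt (fun t : ℝ => qf V (z₀ + (t : ℂ) * (z₁ - z₀)) v)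
        (fderiv ℝ (fun y => qf V y v) (z₀ + (t : ℂ) * (z₁ - z₀)) (z₁ - z₀)) t := by
    intro t ht
    have hp : 0 < (z₀ + (t : ℂ) * (z₁ - z₀)).im := lt_of_lt_of_le (by linarith) (him t ht)
    have hs : DifferentiableAt ℝ (fun y => qf V y v) (z₀ + (t : ℂ) * (z₁ - z₀)) :=
      (qf_smooth V hp v).differentiableAt (by simp)
    exact HasFDerivAt.comp_hasDerivAt (l := fun y => qf V y v)
      (f := fun t : ℝ => z₀ + (t : ℂ) * (z₁ - z₀)) t hs.hasFDerivAt (hγ t)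
  have hbd : ∀ t ∈ Set.Icc (0 : ℝ) 1,
      |fderiv ℝ (fun y => qf V y v) (z₀ + (t : ℂ) * (z₁ - z₀)) (z₁ - z₀)|
        ≤ 8 * Real.sqrt (2 / kc V) * (‖z₁ - z₀‖ / z₀.im) *
            qf V (z₀ + (t : ℂ) * (z₁ - z₀)) v := by
    intro t ht
    have hp : 0 < (z₀ + (t : ℂ) * (z₁ - z₀)).im := lt_of_lt_of_le (by linarith) (him t ht)
    have h1 := qf_deriv V hp v (z₁ - z₀)
    have h2 := L03_eV V hz₀ (him t ht)
    have h3 := qf_nonneg V hp v
    refine h1.trans ?_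
    apply mul_le_mul_of_nonneg_right _ h3
    calc 4 * Real.sqrt (eV V (z₀ + (t : ℂ) * (z₁ - z₀))) * ‖z₁ - z₀‖
        ≤ 4 * (2 * Real.sqrt (2 / kc V) / z₀.im) * ‖z₁ - z₀‖ := by gcongr
      _ = _ := by ring
  have h := L03_gronwall hder hbd
  simp only [Complex.ofReal_one, Complex.ofReal_zero, one_mul, zero_mul, add_zero,
    add_sub_cancel] at h
  exact h

theorem L03_entry {n : ℕ} (V : PolVHS n) {z₀ z₁ : ℂ} (h0 : 0 < z₀.im) (h1 : 0 < z₁.im) {E : ℝ}
    (hE : 1 ≤ E) (hq : ∀ v : Fin n → ℂ, qf V z₀ v ≤ E * qf V z₁ v)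
    {S S' : Matrix (Fin n) (Fin n) ℂ} {d d' : Fin n → ℤ}
    (hS : Adapted V.wt V.Q (fun p => V.F p z₀) S d)
    (hS' : Adapted V.wt V.Q (fun p => V.F p z₁) S' d') (a b : Fin n) :
    ‖(S⁻¹ * S') a b‖ ≤ E := by
  have e1 := qf_adapted V h0 hS (S' *ᵥ Pi.single b 1)
  have e2 := qf_adapted V h1 hS' (S' *ᵥ Pi.single b 1)
  rw [Matrix.mulVec_mulVec] at e1 e2
  rw [Matrix.nonsing_inv_mul _ hS'.inv, Matrix.one_mulVec] at e2
  have e3 : ∑ a, Complex.normSq ((Pi.single b (1 : ℂ) : Fin n → ℂ) a) = 1 := by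
    rw [Finset.sum_eq_single b]
    · rw [Pi.single_eq_same, map_one]
    · intro c _ hc
      rw [Pi.single_eq_of_ne hc, map_zero]
    · intro h
      exact absurd (Finset.mem_univ b) h
  rw [e3] at e2
  have e4 := hq (S' *ᵥ Pi.single b 1)
  rw [e1, e2, mul_one] at e4
  have e5 : Complex.normSq (((S⁻¹ * S') *ᵥ Pi.single b 1) a) ≤ E :=
    (Finset.single_le_sum (f := fun a => Complex.normSq (((S⁻¹ * S') *ᵥ Pi.single b 1) a))
      (fun i _ => Complex.normSq_nonneg _) (Finset.mem_univ a)).trans e4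
  rw [Matrix.mulVec_single_one, Matrix.col_apply, Complex.normSq_eq_norm_sq] at e5
  by_contra hc
  push Not at hc
  have : E * E < ‖(S⁻¹ * S') a b‖ ^ 2 := by
    rw [sq]
    exact mul_lt_mul'' hc hc (by linarith) (by linarith)
  nlinarith

theorem conv_entries {n : ℕ} (V : PolVHS n) : ∃ C : ℝ, 0 ≤ C ∧ ∀ z₀ z₁ : ℂ, 0 < z₀.im →
    ‖z₁ - z₀‖ ≤ z₀.im / 2 → ∀ (S S' : Matrix (Fin n) (Fin n) ℂ) (d d' : Fin n → ℤ),
      Adapted V.wt V.Q (fun p => V.F p z₀) S d → Adapted V.wt V.Q (fun p => V.F p z₁) S' d' →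
      ∀ a b, ‖(S⁻¹ * S') a b‖ ≤ C ∧ ‖(S'⁻¹ * S) a b‖ ≤ C := by
  obtain ⟨C, hC, hqc⟩ := qf_compare V
  refine ⟨Real.exp (C * (1 / 2)), (Real.exp_pos _).le, ?_⟩
  intro z₀ z₁ hz₀ hd S S' d d' hS hS' a b
  have hz₁ : 0 < z₁.im := by
    have h2 : |(z₁ - z₀).im| ≤ z₀.im / 2 := (Complex.abs_im_le_norm _).trans hd
    have h3 := (abs_le.mp h2).1
    rw [Complex.sub_im] at h3
    linarith
  have hE : 1 ≤ Real.exp (C * (1 / 2)) := Real.one_le_exp (by positivity)
  have hexp : Real.exp (C * (‖z₁ - z₀‖ / z₀.im)) ≤ Real.exp (C * (1 / 2)) := by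
    apply Real.exp_le_exp.mpr
    apply mul_le_mul_of_nonneg_left _ hC
    rw [div_le_div_iff₀ hz₀ (by norm_num)]
    linarith
  constructor
  · refine L03_entry V hz₀ hz₁ hE ?_ hS hS' a b
    intro v
    exact (hqc z₀ z₁ hz₀ hd v).2.trans
      (mul_le_mul_of_nonneg_right hexp (qf_nonneg V hz₁ v))
  · refine L03_entry V hz₁ hz₀ hE ?_ hS' hS a b
    intro v
    exact (hqc z₀ z₁ hz₀ hd v).1.trans
      (mul_le_mul_of_nonneg_right hexp (qf_nonneg V hz₀ v))

end MP2794d1
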