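import Pool.Agent.Lib.MP_2794d1_ag.F01
import Pool.Agent.Lib.MP_2794d1_ag.F02
import Pool.Agent.Lib.MP_2794d1_ag.F04

/-!
F05: continuation of the velocity condition. Fix z0 and projectors P_p analytic near z0 for p in the finite range
lo ≤ p ≤ hi (for p ≤ lo, F p = ⊤; for p ≥ hi, F p = ⊥ and s = 0 near z: no condition). For z near z0 (where the P_p are
analytic, idempotent with range F p in a neighbourhood of z):
Vel V N z c ↔ ∀ p in the range, (1 - P_p z) * (P_p' z - c • N) * P_p z = 0, with P_p' the entrywise derivative.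
(←) s = P_p s near z, so s' = P_p' s + P_p s' and (1-P_p) s' = (1-P_p) P_p' P_p s. (→) take s y = P_p y *ᵥ x: s' = P_p' x;
and (1-P)P' = P'P - ... from P² = P: P' = P'P + PP', so (1-P)P' = (1-P)P'P.
Now proceed as in F04 with x z := ((1-P_p) P_p' P_p)_{p,i,j} and n z as there.
-/

namespace MP2794d1

open Matrix Complex Filter Topology

/-- entrywise derivative -/
noncomputable def f05_D {n : ℕ} (P : ℂ → Matrix (Fin n) (Fin n) ℂ) (z : ℂ) :
    Matrix (Fin n) (Fin n) ℂ := Matrix.of fun i j => deriv (fun y => P y i j) z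

theorem f05_deriv {n : ℕ} {P : ℂ → Matrix (Fin n) (Fin n) ℂ} {s : ℂ → (Fin n → ℂ)} {z : ℂ}
    (hP : ∀ i j, AnalyticAt ℂ (fun y => P y i j) z) (hs : ∀ i, AnalyticAt ℂ (fun y => s y i) z) :
    (fun i => deriv (fun y => (P y *ᵥ s y) i) z) =
      f05_D P z *ᵥ s z + P z *ᵥ (fun i => deriv (fun y => s y i) z) := by
  funext i
  have h1 : HasDerivAt (fun y => (P y *ᵥ s y) i)
      (∑ j ∈ Finset.univ, (deriv (fun y => P y i j) z * s z j +
        P z i j * deriv (fun y => s y j) z)) z := by
    have h2 : (fun y => (P y *ᵥ s y) i) = fun y => ∑ j ∈ Finset.univ, P y i j * s y j := rfl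
    rw [h2]
    refine HasDerivAt.fun_sum fun j _ => ?_
    exact (hP i j).differentiableAt.hasDerivAt.mul (hs j).differentiableAt.hasDerivAt
  rw [h1.deriv, Finset.sum_add_distrib]
  rfl

theorem f05_vel {n : ℕ} (V : PolVHS n) (N : Matrix (Fin n) (Fin n) ℂ) {z : ℂ} (hz : 0 < z.im)
    {P : ℤ → ℂ → Matrix (Fin n) (Fin n) ℂ} (hP1 : ∀ p i j, p ∈ Finset.Icc V.lo V.hi →
      AnalyticAt ℂ (fun z => P p z i j) z)
    (hP2 : ∀ᶠ y in 𝓝 z, ∀ p ∈ Finset.Icc V.lo V.hi,
      P p y * P p y = P p y ∧ V.F p y = LinearMap.range (P p y).mulVecLin) (c : ℂ) :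
    Vel V N z c ↔ ∀ p ∈ Finset.Icc V.lo V.hi,
      (1 - P p z) * f05_D (P p) z * P p z = c • ((1 - P p z) * N * P p z) := by
  have hP3 := hP2.self_of_nhds
  constructor
  · intro hv p hp
    obtain ⟨h1, h2⟩ := hP3 p hp
    have key : ∀ v : Fin n → ℂ, (1 - P p z) *ᵥ (f05_D (P p) z *ᵥ v) =
        c • ((1 - P p z) *ᵥ (N *ᵥ (P p z *ᵥ v))) := by
      intro v
      have h3 := hv p (fun y => P p y *ᵥ v) (fun i => by
          have h4 : (fun y => (P p y *ᵥ v) i) = fun y => ∑ j ∈ Finset.univ, P p y i j * v j := rfl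
          rw [h4]
          exact Finset.analyticAt_fun_sum _ fun j _ => (hP1 p i j hp).mul analyticAt_const) (by
          filter_upwards [hP2] with y hy
          rw [(hy p hp).2]
          exact ⟨v, rfl⟩)
      have h5 := f05_deriv (P := P p) (s := fun _ => v) (z := z) (fun i j => hP1 p i j hp)
        (fun i => analyticAt_const)
      simp only [deriv_const] at h5
      have h6 : (P p z *ᵥ fun _ : Fin n => (0 : ℂ)) = 0 := Matrix.mulVec_zero _
      rw [h6, add_zero] at h5
      rw [h5, h2, proj_mem_iff h1] at h3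
      have h7 : (1 - P p z) *ᵥ (f05_D (P p) z *ᵥ v - c • (N *ᵥ (P p z *ᵥ v))) = 0 := by
        rw [Matrix.sub_mulVec, Matrix.one_mulVec, h3, sub_self]
      rw [Matrix.mulVec_sub, Matrix.mulVec_smul, sub_eq_zero] at h7
      exact h7
    ext i j
    have h8 := congrFun (key (P p z *ᵥ Pi.single j 1)) i
    have h9 : (1 - P p z) *ᵥ (f05_D (P p) z *ᵥ (P p z *ᵥ Pi.single j 1)) =
        ((1 - P p z) * f05_D (P p) z * P p z) *ᵥ Pi.single j 1 := by
      simp only [Matrix.mulVec_mulVec, Matrix.mul_assoc]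
    have h10 : (1 - P p z) *ᵥ (N *ᵥ (P p z *ᵥ (P p z *ᵥ Pi.single j 1))) =
        ((1 - P p z) * N * P p z) *ᵥ Pi.single j 1 := by
      rw [Matrix.mulVec_mulVec (Pi.single j 1) (P p z) (P p z), h1]
      simp only [Matrix.mulVec_mulVec, Matrix.mul_assoc]
    rw [h9, h10, Matrix.mulVec_single_one, Matrix.mulVec_single_one] at h8
    exact h8
  · intro h p s hs hmem
    rcases le_or_gt p V.lo with hp | hp
    · rw [f04_top V hz hp]
      trivial
    · rcases le_or_gt V.hi p with hp' | hp'
      · have him : ∀ᶠ z : ℂ in 𝓝 z, 0 < z.im :=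
          (isOpen_lt continuous_const Complex.continuous_im).mem_nhds hz
        have h0 : ∀ᶠ y in 𝓝 z, s y = 0 := by
          filter_upwards [him, hmem] with y hy1 hy2
          rw [f04_bot V hy1 hp', Submodule.mem_bot] at hy2
          exact hy2
        have h1 : (fun i => deriv (fun y => s y i) z) = 0 := by
          funext i
          have h2 : (fun y => s y i) =ᶠ[𝓝 z] fun _ => 0 := by
            filter_upwards [h0] with y hy
            rw [hy]
            rfl
          rw [h2.deriv_eq, deriv_const]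
          rfl
        rw [h1, h0.self_of_nhds, Matrix.mulVec_zero, smul_zero, sub_zero]
        exact Submodule.zero_mem _
      · have hp2 : p ∈ Finset.Icc V.lo V.hi := Finset.mem_Icc.2 ⟨hp.le, hp'.le⟩
        obtain ⟨h1, h2⟩ := hP3 p hp2
        have h3 : ∀ᶠ y in 𝓝 z, s y = P p y *ᵥ s y := by
          filter_upwards [hP2, hmem] with y hy1 hy2
          rw [(hy1 p hp2).2, proj_mem_iff (hy1 p hp2).1] at hy2
          exact hy2.symm
        have h4 : (fun i => deriv (fun y => s y i) z) =
            fun i => deriv (fun y => (P p y *ᵥ s y) i) z := by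
          funext i
          have h5 : (fun y => s y i) =ᶠ[𝓝 z] fun y => (P p y *ᵥ s y) i := by
            filter_upwards [h3] with y hy
            exact congrFun hy i
          exact h5.deriv_eq
        set s' : Fin n → ℂ := fun i => deriv (fun y => s y i) z with hs'
        have h6 : s' = f05_D (P p) z *ᵥ s z + P p z *ᵥ s' := by
          rw [f05_deriv (fun i j => hP1 p i j hp2) hs] at h4
          exact h4
        have h7 : s z = P p z *ᵥ s z := h3.self_of_nhds
        rw [h2, proj_mem_iff h1]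
        -- (1 - P) s' = D s
        have h8 : (1 - P p z) *ᵥ s' = f05_D (P p) z *ᵥ s z := by
          rw [Matrix.sub_mulVec, Matrix.one_mulVec]
          nth_rewrite 1 [h6]
          rw [add_sub_cancel_right]
        have h9 : (1 - P p z) * (1 - P p z) = 1 - P p z := by
          rw [Matrix.mul_sub, Matrix.sub_mul (1 : Matrix (Fin n) (Fin n) ℂ) (P p z) (P p z), h1,
            Matrix.mul_one, Matrix.one_mul, sub_self, sub_zero]
        have h10 : (1 - P p z) *ᵥ s' = (1 - P p z) *ᵥ (f05_D (P p) z *ᵥ s z) := by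
          rw [← h8, Matrix.mulVec_mulVec, h9]
        have h11 : (1 - P p z) *ᵥ (f05_D (P p) z *ᵥ s z) =
            c • ((1 - P p z) *ᵥ (N *ᵥ s z)) := by
          have h12 : (1 - P p z) *ᵥ (f05_D (P p) z *ᵥ s z) =
              ((1 - P p z) * f05_D (P p) z * P p z) *ᵥ s z := by
            nth_rewrite 1 [h7]
            simp only [Matrix.mulVec_mulVec, Matrix.mul_assoc]
          have h13 : (1 - P p z) *ᵥ (N *ᵥ s z) = ((1 - P p z) * N * P p z) *ᵥ s z := by
            nth_rewrite 1 [h7]
            simp only [Matrix.mulVec_mulVec, Matrix.mul_assoc]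
          rw [h12, h13, h p hp2, Matrix.smul_mulVec]
        have h14 : (1 - P p z) *ᵥ (s' - c • (N *ᵥ s z)) = 0 := by
          rw [Matrix.mulVec_sub, Matrix.mulVec_smul, h10, h11, sub_self]
        rw [Matrix.sub_mulVec, Matrix.one_mulVec, sub_eq_zero] at h14
        exact h14.symm

theorem cont_vel {n : ℕ} (V : PolVHS n) (N : Matrix (Fin n) (Fin n) ℂ)
    (hN : ∀ z : ℂ, 0 < z.im → N ∉ FEnd (fun p => V.F p z) 0)
    (U : Set ℂ) (hU : IsOpen U) (hne : U.Nonempty) (hUH : ∀ z ∈ U, 0 < z.im)
    (h : ∀ z ∈ U, ∃ b : ℂ, Vel V N z b) : ∀ z : ℂ, 0 < z.im → ∃ b : ℂ, Vel V N z b := by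
  obtain ⟨b, _, hb⟩ := f04_line (fun z b => Vel V N z b) (by
    intro z₀ hz₀
    obtain ⟨P, hP1, hP2⟩ := f04_proj V hz₀
    refine ⟨{p : ℤ // p ∈ Finset.Icc V.lo V.hi} × Fin n × Fin n, inferInstance,
      fun k z => ((1 - P k.1 z) * f05_D (P k.1) z * P k.1 z) k.2.1 k.2.2,
      fun k z => ((1 - P k.1 z) * N * P k.1 z) k.2.1 k.2.2, ?_, ?_, ?_, ?_⟩
    · intro k
      refine f01_mul (f01_mul ?_ ?_) (hP1 _) _ _
      · intro i j
        simp only [Matrix.sub_apply]
        exact analyticAt_const.sub (hP1 _ i j)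
      · intro i j
        exact (hP1 _ i j).deriv
    · intro k
      refine f01_mul (f01_mul ?_ ?_) (hP1 _) _ _
      · intro i j
        simp only [Matrix.sub_apply]
        exact analyticAt_const.sub (hP1 _ i j)
      · intro i j
        exact analyticAt_const
    · by_contra hcon
      push Not at hcon
      apply hN z₀ hz₀
      rw [f04_mem V hz₀ hP2.self_of_nhds N]
      intro p hp
      ext i j
      exact hcon (⟨p, hp⟩, i, j)
    · have him : ∀ᶠ z : ℂ in 𝓝 z₀, 0 < z.im :=
        (isOpen_lt continuous_const Complex.continuous_im).mem_nhds hz₀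
      have hana : ∀ᶠ z in 𝓝 z₀, ∀ p ∈ Finset.Icc V.lo V.hi, ∀ i j,
          AnalyticAt ℂ (fun z => P p z i j) z := by
        rw [Filter.eventually_all_finset]
        intro p _
        rw [Filter.eventually_all]
        intro i
        rw [Filter.eventually_all]
        intro j
        exact (hP1 p i j).eventually_analyticAt
      filter_upwards [hP2.eventually_nhds, him, hana] with z hz1 hz2 hz3 c
      rw [f05_vel V N hz2 (fun p i j hp => hz3 p hp i j) hz1 c]
      constructor
      · rintro h1 ⟨⟨p, hp⟩, i, j⟩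
        have h3 := congrFun (congrFun (h1 p hp) i) j
        exact h3
      · intro h1 p hp
        ext i j
        exact h1 (⟨p, hp⟩, i, j)) U hU hne hUH h
  exact fun z hz => ⟨b z, hb z hz⟩

end MP2794d1
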