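import Pool.Agent.Lib.MP_2794d1_ag.A04
import Pool.Agent.Lib.MP_2794d1_ag.A07
import Pool.Agent.Lib.MP_2794d1_ag.B02
import Pool.Agent.Lib.MP_2794d1_ag.B03

/-!
B04: for each i let e i be the eigenvalues from B02 (exists_eigs) for im (A i), T i the finset for the stable subspace
range (W i), (J i, c i) from B03 for P = aeval (im (A i)) (∏_{j ∈ T i} (X - C (e i j))). For fixed T : Finset (Fin n),
all entries of the matrix aeval (im (A i)) (∏_{j ∈ T} (X - C (e i j))), as functions of i, are in algSub H hH: induction
on T (Finset.induction_on, aeval of (X - C e) * p is (A - e • 1) * aeval A p, entries are sums of products of members: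
AlgFam.int for the entries of A, AlgFam.eigen for i ↦ e i j). Hence for fixed T, J the determinant of the submatrix is
a member (det_apply: sum of products). Finally i ↦ c i * minor (W i) f selects one of finitely many members
(AlgFam.select with J := Finset (Fin n) × (Fin r → Fin n)).
-/

namespace MP2794d1

open Matrix Complex Filter Topology

theorem plucker_alg {I : Type} {n r : ℕ} {H : I → ℝ} (hH : ∀ i, 1 ≤ H i)
    (A : I → Matrix (Fin n) (Fin n) ℤ) (hA : ∀ i a b, |(A i a b : ℝ)| ≤ H i)
    (hsep : ∀ i, (im (A i)).charpoly.Separable) (W : I → Matrix (Fin n) (Fin r) ℂ)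
    (hW : ∀ i, LinearIndependent ℂ (W i)ᵀ)
    (hst : ∀ i, ∀ x ∈ LinearMap.range (W i).mulVecLin,
      im (A i) *ᵥ x ∈ LinearMap.range (W i).mulVecLin) :
    ∃ c : I → ℂ, (∀ i, c i ≠ 0) ∧ ∀ f : Fin r → Fin n, AlgFam H (fun i => c i * minor (W i) f) := by
  classical
  have hE := fun i => exists_eigs (im (A i)) (hsep i)
  choose e he hF using hE
  have hT := fun i => hF i (LinearMap.range (W i).mulVecLin) (hst i)
  choose T hT using hT
  have hM := fun i => minor_range (Polynomial.aeval (im (A i))
    (∏ j ∈ T i, (Polynomial.X - Polynomial.C (e i j)))) (W i) (hW i) (hT i).symm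
  choose J c hc hJ using hM
  refine ⟨c, hc, fun f => ?_⟩
  have hent : ∀ (S : Finset (Fin n)) (a b : Fin n),
      (fun i => (Polynomial.aeval (im (A i))
        (∏ j ∈ S, (Polynomial.X - Polynomial.C (e i j)))) a b) ∈ algSub H hH := by
    intro S
    induction S using Finset.induction_on with
    | empty =>
      intro a b
      by_cases hab : a = b
      · have h1 : (fun i => (Polynomial.aeval (im (A i))
            (∏ j ∈ (∅ : Finset (Fin n)), (Polynomial.X - Polynomial.C (e i j)))) a b)
            = (1 : I → ℂ) := by
          funext i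
          rw [Finset.prod_empty, map_one, hab, Matrix.one_apply_eq, Pi.one_apply]
        rw [h1]
        exact Subalgebra.one_mem _
      · have h1 : (fun i => (Polynomial.aeval (im (A i))
            (∏ j ∈ (∅ : Finset (Fin n)), (Polynomial.X - Polynomial.C (e i j)))) a b)
            = (0 : I → ℂ) := by
          funext i
          rw [Finset.prod_empty, map_one, Matrix.one_apply_ne hab, Pi.zero_apply]
        rw [h1]
        exact Subalgebra.zero_mem _
    | insert j S hj ih =>
      intro a b
      have h : (fun i => (Polynomial.aeval (im (A i))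
          (∏ j' ∈ insert j S, (Polynomial.X - Polynomial.C (e i j')))) a b) =
          ∑ k, ((fun i => ((A i a k : ℤ) : ℂ)) - (if a = k then (fun i => e i j) else (0 : I → ℂ))) *
            (fun i => (Polynomial.aeval (im (A i))
              (∏ j' ∈ S, (Polynomial.X - Polynomial.C (e i j')))) k b) := by
        funext i
        rw [Finset.prod_insert hj, map_mul, map_sub, Polynomial.aeval_X, Polynomial.aeval_C,
          Matrix.mul_apply, Finset.sum_apply]
        refine Finset.sum_congr rfl fun k _ => ?_
        rw [Pi.mul_apply, Pi.sub_apply, Matrix.sub_apply]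
        congr 2
        rw [Matrix.algebraMap_matrix_apply]
        by_cases hak : a = k
        · rw [if_pos hak, if_pos hak]
          rfl
        · rw [if_neg hak, if_neg hak]
          rfl
      rw [h]
      refine Subalgebra.sum_mem _ fun k _ => Subalgebra.mul_mem _ (Subalgebra.sub_mem _ ?_ ?_)
        (ih k b)
      · exact AlgFam.int hH (fun i => A i a k) (fun i => hA i a k)
      · by_cases hak : a = k
        · rw [if_pos hak]
          exact AlgFam.eigen hH A hA (fun i => e i j) (fun i => he i j)
        · rw [if_neg hak]
          exact Subalgebra.zero_mem _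
  have hdet : ∀ (p : Finset (Fin n) × (Fin r → Fin n)),
      AlgFam H (fun i => ((Polynomial.aeval (im (A i))
        (∏ j ∈ p.1, (Polynomial.X - Polynomial.C (e i j)))).submatrix f p.2).det) := by
    intro p
    rw [← mem_algSub hH]
    have h : (fun i => ((Polynomial.aeval (im (A i))
        (∏ j ∈ p.1, (Polynomial.X - Polynomial.C (e i j)))).submatrix f p.2).det) =
        ∑ σ : Equiv.Perm (Fin r), (Equiv.Perm.sign σ : ℤ) • ∏ k, (fun i =>
          (Polynomial.aeval (im (A i))
            (∏ j ∈ p.1, (Polynomial.X - Polynomial.C (e i j)))) (f (σ k)) (p.2 k)) := by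
      funext i
      rw [Matrix.det_apply, Finset.sum_apply]
      refine Finset.sum_congr rfl fun σ _ => ?_
      rw [Pi.smul_apply, Finset.prod_apply]
      rfl
    rw [h]
    exact Subalgebra.sum_mem _ fun σ _ => zsmul_mem (Subalgebra.prod_mem _ fun k _ => hent _ _ _) _
  refine AlgFam.select hH _ hdet _ fun i => ⟨(T i, J i), ?_⟩
  exact (hJ i f).symm

end MP2794d1
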