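import Pool.Agent.Lib.MP_2794d1_ag.B06
import Pool.Agent.Lib.MP_2794d1_ag.B07

/-!
B08: the tensor power of uexp is a polynomial one-parameter group: P f g = ∏_i P0 (f i) (g i) with P0 from uexp_poly;
zero' and add' from tens_one, tens_mul, uexp_zero, uexp_add.
-/

namespace MP2794d1

open Matrix Complex Filter Topology

theorem exists_tensGroup {n : ℕ} (r : ℕ) (N : Matrix (Fin n) (Fin n) ℚ) (hN : N ^ n = 0) :
    ∃ G : PolyGroup (Fin r → Fin n), ∀ s : ℂ, G.E s = tens r (uexp (cm N) s) := by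
  obtain ⟨P0, hP0⟩ := uexp_poly N
  let P : Matrix (Fin r → Fin n) (Fin r → Fin n) (Polynomial ℚ) :=
    Matrix.of fun f g => ∏ i, P0 (f i) (g i)
  have hP : ∀ s : ℂ, P.map (fun p => Polynomial.aeval s p) = tens r (uexp (cm N) s) := by
    intro s
    ext f g
    rw [hP0 s]
    simp only [P, Matrix.map_apply, Matrix.of_apply, tens, map_prod]
  refine ⟨⟨P, ?_, fun s t => ?_⟩, hP⟩
  · rw [hP, uexp_zero, tens_one]
  · rw [hP, hP, hP, uexp_add (cm N) (cm_pow N hN), tens_mul]

end MP2794d1
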