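import Pool.Agent.Lib.MP_2794d1_ag.U00
import Pool.Agent.Lib.MP_2794d1_ag.J01
import Pool.Agent.Lib.MP_2794d1_ag.E05
import Pool.Agent.Lib.MP_2794d1_ag.E06
import Pool.Agent.Lib.MP_2794d1_ag.S01

/-!
U01: The Rosati trace is the Frobenius norm in the Hodge metric. A is real and preserves F^p, so it commutes with the grading
(comm_of_FEnd) and M = S⁻¹ (im A) S has M a b = 0 unless d a = d b (E05_mu). From Adapted.on: Sᵀ Q S̄ = D, D diagonal with
entries I^(wt - 2 d a). A' = Q⁻¹ Aᵀ Q (complexified radj; cm, im, inverses commute with the casts, im Q invertible by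
im_Q_unit), Q = (Sᵀ)⁻¹ D S̄⁻¹, so A' = S̄ D⁻¹ Sᵀ Aᵀ (Sᵀ)⁻¹ D S̄⁻¹ = S̄ D⁻¹ Mᵀ D S̄⁻¹; A' is real, so conjugating
A' = S D̄⁻¹ M^* D̄ S⁻¹ and S⁻¹ A' S = M^* (entries with d a = d b only). So trace (A A') = trace (M M^*) =
∑ |M a b|².
-/

namespace MP2794d1

open Matrix Complex Filter Topology
open scoped ContDiff

theorem U01_cm_qm {n : ℕ} (X : Matrix (Fin n) (Fin n) ℤ) : cm (qm X) = im X := by
  ext i j; simp [cm, qm, im]

theorem U01_mconj_im {n : ℕ} (X : Matrix (Fin n) (Fin n) ℤ) : mconj (im X) = im X := by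
  ext i j; simp [mconj, im]

theorem U01_cm_trace {n : ℕ} (X : Matrix (Fin n) (Fin n) ℚ) :
    (cm X).trace = ((X.trace : ℚ) : ℂ) := by
  simp [Matrix.trace, cm]

theorem U01_det {n : ℕ} (X : Matrix (Fin n) (Fin n) ℚ) (h : IsUnit (cm X).det) :
    IsUnit X.det := by
  have h1 : (cm X).det = (Rat.castHom ℂ) X.det := by
    rw [RingHom.map_det]
    rfl
  rw [isUnit_iff_ne_zero] at h ⊢
  intro h0
  rw [h1, h0, map_zero] at h
  exact h rfl

/-- the complexified adjoint -/
theorem U01_radj {n : ℕ} (Q A : Matrix (Fin n) (Fin n) ℤ) (hQ : IsUnit (im Q).det) :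
    im Q * cm (radj Q A) = (im A)ᵀ * im Q := by
  have h1 : IsUnit (qm Q).det := U01_det (qm Q) (by rw [U01_cm_qm]; exact hQ)
  have h2 : qm Q * radj Q A = (qm A)ᵀ * qm Q := by
    unfold radj
    rw [← Matrix.mul_assoc, ← Matrix.mul_assoc, Matrix.mul_nonsing_inv _ h1, Matrix.one_mul]
  have h3 := congrArg cm h2
  rw [S01_cm_mul, S01_cm_mul, U01_cm_qm] at h3
  have h4 : cm (qm A)ᵀ = (im A)ᵀ := by
    rw [← U01_cm_qm]
    rfl
  rw [h3, h4]

theorem rosati_frob {n : ℕ} {wt : ℤ} {Q : Matrix (Fin n) (Fin n) ℤ}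
    {Fl : ℤ → Submodule ℂ (Fin n → ℂ)} (h : IsPHS wt Q Fl) {S : Matrix (Fin n) (Fin n) ℂ}
    {d : Fin n → ℤ} (hS : Adapted wt Q Fl S d) (A : Matrix (Fin n) (Fin n) ℤ)
    (hA : ∀ p, ∀ x ∈ Fl p, (im A) *ᵥ x ∈ Fl p) :
    (((qm A * radj Q A).trace : ℚ) : ℝ) = ∑ a, ∑ b, Complex.normSq ((S⁻¹ * im A * S) a b) := by
  have hSu : IsUnit S.det := hS.inv
  have hSS : S * S⁻¹ = 1 := Matrix.mul_nonsing_inv S hSu
  have hSS' : S⁻¹ * S = 1 := Matrix.nonsing_inv_mul S hSu
  have hT : mconj S * mconj S⁻¹ = 1 := by rw [← e06_mul, hSS, e06_one]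
  have hSt : S⁻¹ᵀ * Sᵀ = 1 := by rw [← Matrix.transpose_mul, hSS, Matrix.transpose_one]
  have hrel := U01_radj Q A (im_Q_unit h)
  set A' := cm (radj Q A) with hA'
  have hreal : mconj A' = A' := mconj_cm _
  set D : Matrix (Fin n) (Fin n) ℂ := Matrix.diagonal (fun a => Complex.I ^ (wt - 2 * d a)) with hD
  have hon : Sᵀ * im Q * mconj S = D := hS.on
  set M := S⁻¹ * im A * S with hM
  set M' := S⁻¹ * A' * S with hM'
  have hMc : mconj M' = mconj S⁻¹ * A' * mconj S := by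
    rw [hM', e06_mul, e06_mul, hreal]
  have key : D * mconj M' = Mᵀ * D := by
    calc D * mconj M' = Sᵀ * im Q * (mconj S * mconj S⁻¹) * A' * mconj S := by
          rw [hMc, ← hon]; simp only [Matrix.mul_assoc]
      _ = Sᵀ * (im Q * A') * mconj S := by
          rw [hT]; simp only [Matrix.mul_assoc, Matrix.mul_one]
      _ = Sᵀ * ((im A)ᵀ * im Q) * mconj S := by rw [hrel]
      _ = Sᵀ * (im A)ᵀ * (S⁻¹ᵀ * Sᵀ) * im Q * mconj S := by
          rw [hSt]; simp only [Matrix.mul_assoc, Matrix.mul_one]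
      _ = Mᵀ * D := by
          rw [← hon, hM, Matrix.transpose_mul, Matrix.transpose_mul]
          simp only [Matrix.mul_assoc]
  have hdeg : ∀ a b, M a b ≠ 0 → d a = d b := by
    intro a b hab
    have m1 : im A ∈ FEnd Fl 0 := by
      intro p x hx
      rw [add_zero]
      exact hA p x hx
    have m2 : mconj (im A) ∈ FEnd Fl 0 := by rw [U01_mconj_im]; exact m1
    have h1 := (mem_FEnd_iff hS (im A) 0).1 m1 a b hab
    have h2 := (conj_mem_FEnd_iff hS (im A) 0).1 m2 a b hab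
    omega
  have hent : ∀ a b, M' b a = (starRingEnd ℂ) (M a b) := by
    intro a b
    have hk := congrFun (congrFun key b) a
    rw [hD, Matrix.mul_diagonal, Matrix.diagonal_mul, Matrix.transpose_apply] at hk
    have h4 : mconj M' b a = (starRingEnd ℂ) (M' b a) := rfl
    rw [h4] at hk
    have hI : ∀ k : ℤ, Complex.I ^ k ≠ 0 := fun k => zpow_ne_zero _ Complex.I_ne_zero
    have h5 : (starRingEnd ℂ) (M' b a) = M a b := by
      by_cases h0 : M a b = 0
      · rw [h0, zero_mul] at hk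
        rcases mul_eq_zero.mp hk with h6 | h6
        · exact absurd h6 (hI _)
        · rw [h6, h0]
      · rw [hdeg a b h0] at hk
        apply mul_left_cancel₀ (hI (wt - 2 * d b))
        rw [hk, mul_comm]
    rw [← h5, Complex.conj_conj]
  have htr : (cm (qm A * radj Q A)).trace = ∑ a, ∑ b, ((Complex.normSq (M a b) : ℝ) : ℂ) := by
    rw [S01_cm_mul, U01_cm_qm, ← hA']
    have e1 : im A * A' = S * (M * M' * S⁻¹) := by
      calc im A * A' = (S * S⁻¹) * im A * (S * S⁻¹) * A' * (S * S⁻¹) := by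
            rw [hSS, Matrix.one_mul, Matrix.mul_one, Matrix.mul_one]
        _ = _ := by rw [hM, hM']; simp only [Matrix.mul_assoc]
    rw [e1, Matrix.trace_mul_comm S, Matrix.mul_assoc, hSS', Matrix.mul_one, Matrix.trace]
    refine Finset.sum_congr rfl fun a _ => ?_
    rw [Matrix.diag_apply, Matrix.mul_apply]
    refine Finset.sum_congr rfl fun b _ => ?_
    rw [hent a b, Complex.mul_conj]
  rw [U01_cm_trace] at htr
  have h9 := congrArg Complex.re htr
  rw [Complex.re_sum] at h9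
  have h10 : ((((qm A * radj Q A).trace : ℚ) : ℂ)).re = (((qm A * radj Q A).trace : ℚ) : ℝ) := by
    rw [← Complex.ofReal_ratCast, Complex.ofReal_re]
  rw [← h10, h9]
  refine Finset.sum_congr rfl fun a _ => ?_
  rw [Complex.re_sum]
  exact Finset.sum_congr rfl fun b _ => Complex.ofReal_re _

end MP2794d1
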