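import Pool.Agent.Lib.MP_2794d1_ag.W00

/-!
P01: Elementary bounds with entries. small_inv: if (1 + E) x = 0, then max |x| ≤ n * (1/(2n)) max |x|, so x = 0 (Matrix.exists_mulVec_eq_zero_iff
gives det ≠ 0); and X = (1+E)⁻¹ satisfies X = 1 - E X, so max |X| ≤ 1 + (1/2) max |X|. mul_entries: finite sum.
-/

namespace MP2794d1

open Matrix Complex Filter Topology
open scoped ContDiff

theorem mul_entries {n m k : ℕ} {A : Matrix (Fin n) (Fin m) ℂ} {B : Matrix (Fin m) (Fin k) ℂ}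
    {a b : ℝ} (hA : ∀ i j, ‖A i j‖ ≤ a) (hB : ∀ i j, ‖B i j‖ ≤ b) (i : Fin n) (j : Fin k) :
    ‖(A * B) i j‖ ≤ m * (a * b) := by
  rw [Matrix.mul_apply]
  calc ‖∑ l, A i l * B l j‖ ≤ ∑ l, ‖A i l * B l j‖ := norm_sum_le _ _
    _ ≤ ∑ _l : Fin m, a * b := by
        refine Finset.sum_le_sum fun l _ => ?_
        rw [norm_mul]
        exact mul_le_mul (hA i l) (hB l j) (norm_nonneg _) ((norm_nonneg _).trans (hA i l))
    _ = m * (a * b) := by simp

theorem P01_half {n : ℕ} (hn : 0 < n) {E : Matrix (Fin n) (Fin n) ℂ}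
    (h : ∀ a b, ‖E a b‖ ≤ 1 / (2 * (n : ℝ))) {v : Fin n → ℂ} {M : ℝ} (hv : ∀ j, ‖v j‖ ≤ M)
    (i : Fin n) : ‖∑ j, E i j * v j‖ ≤ M / 2 := by
  have hn' : (0 : ℝ) < n := by exact_mod_cast hn
  calc ‖∑ j, E i j * v j‖ ≤ ∑ j, ‖E i j * v j‖ := norm_sum_le _ _
    _ ≤ ∑ _j : Fin n, 1 / (2 * (n : ℝ)) * M := by
        refine Finset.sum_le_sum fun l _ => ?_
        rw [norm_mul]
        exact mul_le_mul (h i l) (hv l) (norm_nonneg _) (by positivity)
    _ = M / 2 := by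
        simp only [Finset.sum_const, Finset.card_univ, Fintype.card_fin, nsmul_eq_mul]
        field_simp

theorem small_inv {n : ℕ} (E : Matrix (Fin n) (Fin n) ℂ)
    (h : ∀ a b, ‖E a b‖ ≤ 1 / (2 * (n : ℝ))) :
    IsUnit (1 + E).det ∧ ∀ a b, ‖(1 + E)⁻¹ a b‖ ≤ 2 := by
  rcases Nat.eq_zero_or_pos n with h0 | hn
  · subst h0
    refine ⟨by simp, fun a => a.elim0⟩
  have : Nonempty (Fin n) := ⟨⟨0, hn⟩⟩
  have hdet : IsUnit (1 + E).det := by
    rw [isUnit_iff_ne_zero]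
    intro hd
    obtain ⟨v, hv0, hv⟩ := Matrix.exists_mulVec_eq_zero_iff.2 hd
    obtain ⟨i, hi⟩ := Finite.exists_max fun j => ‖v j‖
    have h1 : v i = -∑ j, E i j * v j := by
      have := congrFun hv i
      rw [Matrix.add_mulVec, Matrix.one_mulVec, Pi.add_apply, Pi.zero_apply] at this
      exact eq_neg_of_add_eq_zero_left this
    have h2 : ‖v i‖ ≤ ‖v i‖ / 2 := by
      conv_lhs => rw [h1, norm_neg]
      exact P01_half hn h hi i
    have h3 : ‖v i‖ = 0 := by linarith [norm_nonneg (v i)]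
    apply hv0
    funext j
    have := hi j
    rw [h3] at this
    exact norm_le_zero_iff.1 this
  refine ⟨hdet, fun a b => ?_⟩
  set X : Matrix (Fin n) (Fin n) ℂ := (1 + E)⁻¹ with hX
  obtain ⟨i, hi⟩ := Finite.exists_max fun j => ‖X j b‖
  have hmul : (1 + E) * X = 1 := Matrix.mul_nonsing_inv _ hdet
  have h1 : X i b = (1 : Matrix (Fin n) (Fin n) ℂ) i b - ∑ j, E i j * X j b := by
    have := congrFun (congrFun hmul i) b
    rw [add_mul, one_mul, Matrix.add_apply, Matrix.mul_apply] at this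
    exact eq_sub_of_add_eq this
  have h2 : ‖X i b‖ ≤ 1 + ‖X i b‖ / 2 := by
    conv_lhs => rw [h1]
    refine (norm_sub_le _ _).trans (add_le_add ?_ (P01_half hn h hi i))
    rw [Matrix.one_apply]
    split_ifs <;> simp
  have h3 := hi a
  linarith

end MP2794d1
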