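import Pool.Agent.Lib.MP_2794d1_ag.B07

/-!
F06: velocity along an orbit. s y ∈ V.F p y near z0 means t y := uexp N (-(u y)) *ᵥ s y ∈ F0 p near z0; t is analytic at
z0 with values in the (closed, finite-dimensional) subspace F0 p, so deriv t z0 ∈ F0 p (e.g. write F0 p as the kernel of a
matrix B: B *ᵥ t = 0 near z0, differentiate). s = uexp N (u y) *ᵥ t y, so s' = u' • N *ᵥ s + uexp N (u) *ᵥ t' (uexp_deriv,
chain rule), i.e. s' - u' • (N *ᵥ s z0) ∈ uexp N (u z0) F0 p = V.F p z0.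
-/

namespace MP2794d1

open Matrix Complex Filter Topology

theorem F06_hasDerivAt_vec {n : ℕ} {s : ℂ → (Fin n → ℂ)} {z₀ : ℂ}
    (hs : ∀ i, AnalyticAt ℂ (fun y => s y i) z₀) :
    HasDerivAt s (fun i => deriv (fun y => s y i) z₀) z₀ := by
  rw [hasDerivAt_pi]
  intro i
  exact (hs i).differentiableAt.hasDerivAt

theorem F06_deriv_mem {n : ℕ} (W : Submodule ℂ (Fin n → ℂ)) {t : ℂ → (Fin n → ℂ)}
    {t' : Fin n → ℂ} {z₀ : ℂ} (ht : HasDerivAt t t' z₀) (h : ∀ᶠ y in 𝓝 z₀, t y ∈ W) : t' ∈ W := by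
  have h0 : t z₀ ∈ W := h.self_of_nhds
  have h1 := hasDerivAt_iff_tendsto_slope.1 ht
  have h2 : ∀ᶠ y in 𝓝[≠] z₀, slope t z₀ y ∈ (W : Set (Fin n → ℂ)) := by
    filter_upwards [mem_nhdsWithin_of_mem_nhds h] with y hy
    rw [slope_def_module]
    exact W.smul_mem _ (W.sub_mem hy h0)
  exact (Submodule.closed_of_finiteDimensional W).mem_of_tendsto h1 h2

theorem F06_uexp {n : ℕ} (N : Matrix (Fin n) (Fin n) ℂ) (hN : N ^ n = 0) {v : ℂ → ℂ} {v' z₀ : ℂ}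
    (hv : HasDerivAt v v' z₀) {s : ℂ → (Fin n → ℂ)} {s' : Fin n → ℂ} (hs : HasDerivAt s s' z₀) :
    HasDerivAt (fun y => uexp N (v y) *ᵥ s y)
      (v' • (N *ᵥ (uexp N (v z₀) *ᵥ s z₀)) + uexp N (v z₀) *ᵥ s') z₀ := by
  rw [hasDerivAt_pi] at hs ⊢
  intro i
  have h1 : ∀ j, HasDerivAt (fun y => uexp N (v y) i j) ((N * uexp N (v z₀)) i j * v') z₀ := by
    intro j
    exact (uexp_deriv N hN (v z₀) i j).comp z₀ hv
  have h2 : HasDerivAt (fun y => ∑ j, uexp N (v y) i j * s y j)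
      (∑ j, ((N * uexp N (v z₀)) i j * v' * s z₀ j + uexp N (v z₀) i j * s' j)) z₀ := by
    apply HasDerivAt.fun_sum
    intro j _
    exact (h1 j).mul (hs j)
  have e : (v' • (N *ᵥ (uexp N (v z₀) *ᵥ s z₀)) + uexp N (v z₀) *ᵥ s') i =
      ∑ j, ((N * uexp N (v z₀)) i j * v' * s z₀ j + uexp N (v z₀) i j * s' j) := by
    rw [Matrix.mulVec_mulVec, Pi.add_apply, Pi.smul_apply, Finset.sum_add_distrib]
    simp only [Matrix.mulVec, dotProduct, smul_eq_mul]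
    rw [Finset.mul_sum]
    congr 1
    apply Finset.sum_congr rfl
    intro j _
    ring
  rw [e]
  exact h2

theorem vel_orbit {n : ℕ} (V : PolVHS n) (N : Matrix (Fin n) (Fin n) ℂ) (hN : N ^ n = 0)
    (F0 : ℤ → Submodule ℂ (Fin n → ℂ)) (u : ℂ → ℂ) (z₀ : ℂ) (hu : AnalyticAt ℂ u z₀)
    (h : ∀ᶠ y in 𝓝 z₀, ∀ p, V.F p y = (F0 p).map (uexp N (u y)).mulVecLin) :
    Vel V N z₀ (deriv u z₀) := by
  intro p s hs hmem
  have hs' := F06_hasDerivAt_vec hs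
  have hu' : HasDerivAt (fun y => -(u y)) (-(deriv u z₀)) z₀ :=
    hu.differentiableAt.hasDerivAt.neg
  have ht := F06_uexp N hN hu' hs'
  have hmem2 : ∀ᶠ y in 𝓝 z₀, uexp N (-(u y)) *ᵥ s y ∈ F0 p := by
    filter_upwards [h, hmem] with y hy1 hy2
    rw [hy1 p] at hy2
    obtain ⟨x, hx, hxs⟩ := hy2
    rw [← hxs, Matrix.mulVecLin_apply, Matrix.mulVec_mulVec, uexp_neg_mul N hN, Matrix.one_mulVec]
    exact hx
  have h1 := F06_deriv_mem (F0 p) ht hmem2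
  rw [(h.self_of_nhds p)]
  refine ⟨_, h1, ?_⟩
  have e1 : uexp N (u z₀) * N * uexp N (-(u z₀)) = N := by
    rw [← uexp_comm N N rfl, Matrix.mul_assoc, uexp_mul_neg N hN, Matrix.mul_one]
  rw [Matrix.mulVecLin_apply, Matrix.mulVec_add, Matrix.mulVec_smul, Matrix.mulVec_mulVec,
    Matrix.mulVec_mulVec, Matrix.mulVec_mulVec, e1, uexp_mul_neg N hN, Matrix.one_mulVec,
    neg_smul, neg_add_eq_sub]

end MP2794d1
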