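import Pool.Agent.Lib.MP_2794d1_ag.Q01

/-!
Q02: Bounded periodic functions on a disc of radius r are exponentially close to constants near the centre. periodic_deriv:
replace f by z ↦ f (z₀ + z), so z₀ = 0. Put g z = f (z - round (re z)) for |im z| < r/2 (and 0 otherwise, or for all z): for
|im z| < r/2, ‖z - round(re z)‖ ≤ 1/2 + r/2 < r. g (z+1) = g z for all z, ‖g‖ ≤ B and g is differentiable at every z with
|im z| < r/2: near z, round (re y) takes at most two values m, m+1 and f (y - m) = f (y - m - 1) by hper when both points are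
in the disc, so g y = f (y - m) near z (radius small enough that all points used lie in the disc: 1/2 + r/2 + small < r). Let
F = Function.Periodic.cuspFunction 1 g: F (exp (2πiz)) = g z, F is differentiable at exp(2πiz) for |im z| < r/2, so hF of
annulus_deriv holds with ρ = exp(π r) > 2 (q ≠ 0 is exp(2πiz) with z = invQParam, |im z| = |log ‖q‖|/(2π)). The chain rule
gives g'(0) = 2πi F'(1), so ‖f'(0)‖ ≤ 2π 8 B exp(-πr). periodic_small: for ‖w - z₀‖ ≤ r/4 apply periodic_deriv at w with radius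
3r/4 ≥ 2: ‖f' w‖ ≤ 16πB exp(-3πr/4); the ball is convex, so ‖f z - f z₀‖ ≤ (r/4) 16πB exp(-3πr/4) ≤ C B exp(-r).
-/

namespace MP2794d1

open Matrix Complex Filter Topology
open scoped ContDiff

/-- the branch of `log q / (2 π i)` -/
noncomputable def q02_L (q : ℂ) : ℂ := Complex.log q / (2 * Real.pi * Complex.I)

theorem q02_two_pi_I : (2 * Real.pi * Complex.I : ℂ) ≠ 0 := by
  have := Real.pi_pos.ne'
  simp [this, Complex.I_ne_zero]

theorem q02_re (q : ℂ) : (q02_L q).re = Complex.arg q / (2 * Real.pi) := by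
  have h : q02_L q = ((Complex.arg q / (2 * Real.pi) : ℝ) : ℂ) +
      ((-(Real.log ‖q‖ / (2 * Real.pi)) : ℝ) : ℂ) * Complex.I := by
    unfold q02_L
    rw [div_eq_iff q02_two_pi_I, Complex.log]
    have := Real.pi_pos.ne'
    have h2 : (Real.pi : ℂ) ≠ 0 := by exact_mod_cast this
    push_cast
    field_simp
    ring_nf
    rw [Complex.I_sq]
    ring
  rw [h, Complex.add_re, Complex.ofReal_re, Complex.re_ofReal_mul, Complex.I_re, mul_zero,
    add_zero]

theorem q02_im (q : ℂ) : (q02_L q).im = -(Real.log ‖q‖ / (2 * Real.pi)) := by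
  have h : q02_L q = ((Complex.arg q / (2 * Real.pi) : ℝ) : ℂ) +
      ((-(Real.log ‖q‖ / (2 * Real.pi)) : ℝ) : ℂ) * Complex.I := by
    unfold q02_L
    rw [div_eq_iff q02_two_pi_I, Complex.log]
    have := Real.pi_pos.ne'
    have h2 : (Real.pi : ℂ) ≠ 0 := by exact_mod_cast this
    push_cast
    field_simp
    ring_nf
    rw [Complex.I_sq]
    ring
  rw [h, Complex.add_im, Complex.ofReal_im, Complex.im_ofReal_mul, Complex.I_im, mul_one,
    zero_add]

theorem q02_re_bound (q : ℂ) : -(1 / 2) < (q02_L q).re ∧ (q02_L q).re ≤ 1 / 2 := by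
  rw [q02_re]
  have h1 := Complex.neg_pi_lt_arg q
  have h2 := Complex.arg_le_pi q
  have h3 := Real.pi_pos
  constructor
  · rw [lt_div_iff₀ (by positivity)]
    linarith
  · rw [div_le_iff₀ (by positivity)]
    linarith

theorem q02_im_bound {q : ℂ} {r : ℝ} (h1 : 1 / Real.exp (Real.pi * r) < ‖q‖)
    (h2 : ‖q‖ < Real.exp (Real.pi * r)) : |(q02_L q).im| < r / 2 := by
  have hπ := Real.pi_pos
  have h0 : 0 < ‖q‖ := lt_trans (by positivity) h1
  rw [q02_im, abs_neg, abs_lt]
  have h3 : Real.log ‖q‖ < Real.pi * r := by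
    rw [← Real.log_exp (Real.pi * r)]
    exact Real.log_lt_log h0 h2
  have h4 : -(Real.pi * r) < Real.log ‖q‖ := by
    rw [one_div, ← Real.exp_neg] at h1
    rw [← Real.log_exp (-(Real.pi * r))]
    exact Real.log_lt_log (Real.exp_pos _) h1
  constructor
  · rw [lt_div_iff₀ (by positivity)]
    linarith
  · rw [div_lt_iff₀ (by positivity)]
    linarith

theorem q02_norm_le (w : ℂ) : ‖w‖ ≤ |w.re| + |w.im| := Complex.norm_le_abs_re_add_abs_im w

theorem q02_exp {q : ℂ} (hq : q ≠ 0) : Complex.exp (2 * Real.pi * Complex.I * q02_L q) = q := by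
  unfold q02_L
  rw [mul_div_cancel₀ _ q02_two_pi_I, Complex.exp_log hq]

theorem q02_hasDeriv {q : ℂ} (hq : q ∈ Complex.slitPlane) :
    HasDerivAt q02_L (q⁻¹ / (2 * Real.pi * Complex.I)) q := by
  unfold q02_L
  exact (Complex.hasDerivAt_log hq).div_const _

/-- the other branch, used near the negative real axis -/
theorem q02_branch {q : ℂ} (hq : q ≠ 0) :
    q02_L q = q02_L (-q) + 1 / 2 ∨ q02_L q = q02_L (-q) + 1 / 2 - 1 := by
  have hπ := Real.pi_pos
  have h1 : Complex.exp (2 * Real.pi * Complex.I * q02_L q) =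
      Complex.exp (2 * Real.pi * Complex.I * (q02_L (-q) + 1 / 2)) := by
    rw [q02_exp hq, mul_add, Complex.exp_add, q02_exp (neg_ne_zero.2 hq),
      show (2 * Real.pi * Complex.I * (1 / 2) : ℂ) = Real.pi * Complex.I by ring,
      Complex.exp_pi_mul_I]
    ring
  obtain ⟨n, hn⟩ := Complex.exp_eq_exp_iff_exists_int.1 h1
  have h2 : q02_L q = q02_L (-q) + 1 / 2 + n := by
    have h3 : 2 * Real.pi * Complex.I * q02_L q =
        2 * Real.pi * Complex.I * (q02_L (-q) + 1 / 2 + n) := by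
      rw [hn]
      ring
    exact mul_left_cancel₀ q02_two_pi_I h3
  have h4 := congrArg Complex.re h2
  simp only [Complex.add_re, Complex.intCast_re] at h4
  have h5 := q02_re_bound q
  have h6 := q02_re_bound (-q)
  have h7 : ((1 : ℂ) / 2).re = 1 / 2 := by norm_num
  rw [h7] at h4
  have h8 : (n : ℝ) < 1 := by linarith
  have h9 : (-2 : ℝ) < n := by linarith
  have h10 : n < 1 := by exact_mod_cast h8
  have h11 : -2 < n := by exact_mod_cast h9
  have h12 : n = 0 ∨ n = -1 := by omega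
  rcases h12 with rfl | rfl
  · left
    rw [h2]
    push_cast
    ring
  · right
    rw [h2]
    push_cast
    ring

theorem q02_F (f : ℂ → ℂ) (z₀ : ℂ) (r B : ℝ) (hr : 2 ≤ r)
    (hf : ∀ z : ℂ, ‖z - z₀‖ < r → DifferentiableAt ℂ f z ∧ ‖f z‖ ≤ B)
    (hper : ∀ z : ℂ, ‖z - z₀‖ < r → ‖z + 1 - z₀‖ < r → f (z + 1) = f z) (q : ℂ)
    (h1 : 1 / Real.exp (Real.pi * r) < ‖q‖) (h2 : ‖q‖ < Real.exp (Real.pi * r)) :
    DifferentiableAt ℂ (fun q => f (z₀ + q02_L q)) q ∧ ‖f (z₀ + q02_L q)‖ ≤ B := by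
  have h0 : 0 < ‖q‖ := lt_trans (by positivity) h1
  have hq0 : q ≠ 0 := norm_pos_iff.1 h0
  have hre := q02_re_bound q
  have him := q02_im_bound h1 h2
  have hLn : ‖q02_L q‖ < r := by
    have h3 := q02_norm_le (q02_L q)
    have h4 : |(q02_L q).re| ≤ 1 / 2 := abs_le.2 ⟨by linarith, hre.2⟩
    linarith
  have hz : ‖z₀ + q02_L q - z₀‖ < r := by rwa [add_sub_cancel_left]
  refine ⟨?_, (hf _ hz).2⟩
  by_cases hs : q ∈ Complex.slitPlane
  · exact (hf _ hz).1.comp q ((q02_hasDeriv hs).differentiableAt.const_add z₀)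
  · -- the negative real axis
    have hs' : -q ∈ Complex.slitPlane := by
      rw [Complex.mem_slitPlane_iff] at hs ⊢
      push Not at hs
      have h5 : q.re ≠ 0 := fun h => hq0 (Complex.ext h hs.2)
      left
      rw [Complex.neg_re]
      have := lt_of_le_of_ne hs.1 h5
      linarith
    have harg : Complex.arg (-q) = 0 := by
      rw [Complex.mem_slitPlane_iff] at hs
      push Not at hs
      have h5 : q.re ≠ 0 := fun h => hq0 (Complex.ext h hs.2)
      rw [Complex.arg_eq_zero_iff]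
      exact ⟨by rw [Complex.neg_re]; linarith [hs.1], by rw [Complex.neg_im, hs.2, neg_zero]⟩
    have hre' : (q02_L (-q)).re = 0 := by rw [q02_re, harg, zero_div]
    have him' : |(q02_L (-q)).im| < r / 2 := by
      apply q02_im_bound <;> rwa [norm_neg]
    have hcd : DifferentiableAt ℂ (fun q => q02_L (-q) + 1 / 2) q := by
      have := (q02_hasDeriv hs').differentiableAt.comp q differentiableAt_id.neg
      exact this.add_const _
    have hn1 : ‖q02_L (-q) + 1 / 2‖ < r := by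
      have h3 := q02_norm_le (q02_L (-q) + 1 / 2)
      rw [Complex.add_re, Complex.add_im, hre', show ((1 : ℂ) / 2).re = 1 / 2 by norm_num,
        show ((1 : ℂ) / 2).im = 0 by norm_num, add_zero, zero_add,
        abs_of_pos (by norm_num : (0 : ℝ) < 1 / 2)] at h3
      linarith
    have hn2 : ‖q02_L (-q) + 1 / 2 - 1‖ < r := by
      have h3 := q02_norm_le (q02_L (-q) + 1 / 2 - 1)
      rw [Complex.sub_re, Complex.sub_im, Complex.add_re, Complex.add_im, hre',
        show ((1 : ℂ) / 2).re = 1 / 2 by norm_num, Complex.one_re, Complex.one_im,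
        show ((1 : ℂ) / 2).im = 0 by norm_num, add_zero, sub_zero, zero_add,
        show |(1 / 2 - 1 : ℝ)| = 1 / 2 by norm_num [abs_of_neg]] at h3
      linarith
    have hev : (fun q => f (z₀ + q02_L q)) =ᶠ[𝓝 q] fun q => f (z₀ + (q02_L (-q) + 1 / 2)) := by
      have c1 := (hcd.continuousAt.norm).eventually_lt (continuousAt_const (y := r)) hn1
      have c2 := ((hcd.continuousAt.sub continuousAt_const).norm).eventually_lt
        (continuousAt_const (y := r)) hn2
      filter_upwards [c1, c2, isOpen_ne.mem_nhds hq0] with q' e1 e2 e3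
      rcases q02_branch e3 with h6 | h6
      · rw [h6]
      · rw [h6]
        have h7 := hper (z₀ + (q02_L (-q') + 1 / 2 - 1)) (by rwa [add_sub_cancel_left])
          (by rw [show z₀ + (q02_L (-q') + 1 / 2 - 1) + 1 - z₀ = q02_L (-q') + 1 / 2 by ring]
              exact e1)
        rw [← h7]
        congr 1
        ring
    refine DifferentiableAt.congr_of_eventuallyEq ?_ hev
    have hz' : ‖z₀ + (q02_L (-q) + 1 / 2) - z₀‖ < r := by rwa [add_sub_cancel_left]
    exact (hf _ hz').1.comp q (hcd.const_add z₀)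

theorem periodic_deriv (f : ℂ → ℂ) (z₀ : ℂ) (r B : ℝ) (hr : 2 ≤ r)
    (hf : ∀ z : ℂ, ‖z - z₀‖ < r → DifferentiableAt ℂ f z ∧ ‖f z‖ ≤ B)
    (hper : ∀ z : ℂ, ‖z - z₀‖ < r → ‖z + 1 - z₀‖ < r → f (z + 1) = f z) :
    ‖deriv f z₀‖ ≤ 16 * Real.pi * B * Real.exp (-(Real.pi * r)) := by
  have hπ := Real.pi_pos
  have hπ3 := Real.pi_gt_three
  have hρ : 2 < Real.exp (Real.pi * r) := by
    have h1 := Real.add_one_le_exp (Real.pi * r)
    nlinarith
  have h1 := annulus_deriv (fun q => f (z₀ + q02_L q)) (Real.exp (Real.pi * r)) B hρ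
    (q02_F f z₀ r B hr hf hper)
  have hL1 : q02_L 1 = 0 := by simp [q02_L]
  have h2 : HasDerivAt (fun q => z₀ + q02_L q) ((1 : ℂ)⁻¹ / (2 * Real.pi * Complex.I)) 1 :=
    (q02_hasDeriv Complex.one_mem_slitPlane).const_add z₀
  have hfd : DifferentiableAt ℂ f z₀ := (hf z₀ (by simpa using by linarith)).1
  have h3 : HasDerivAt f (deriv f z₀) (z₀ + q02_L 1) := by
    rw [hL1, add_zero]
    exact hfd.hasDerivAt
  have h4 := (h3.comp (1 : ℂ) h2).deriv
  have h5 : deriv (fun q => f (z₀ + q02_L q)) 1 =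
      deriv f z₀ * ((1 : ℂ)⁻¹ / (2 * Real.pi * Complex.I)) := h4
  rw [h5, norm_mul, inv_one, norm_div, norm_one] at h1
  have h6 : ‖(2 * Real.pi * Complex.I : ℂ)‖ = 2 * Real.pi := by
    rw [norm_mul, norm_mul, Complex.norm_I, mul_one, Complex.norm_real, Real.norm_eq_abs,
      abs_of_pos hπ]
    simp
  rw [h6] at h1
  have h7 : ‖deriv f z₀‖ ≤ 8 * B / Real.exp (Real.pi * r) * (2 * Real.pi) := by
    rw [mul_one_div, div_le_iff₀ (by positivity)] at h1
    exact h1
  refine h7.trans (le_of_eq ?_)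
  rw [Real.exp_neg]
  ring

theorem periodic_small : ∃ C : ℝ, 0 ≤ C ∧ ∀ (f : ℂ → ℂ) (z₀ : ℂ) (r B : ℝ), 4 ≤ r → 0 ≤ B →
    (∀ z : ℂ, ‖z - z₀‖ < r → DifferentiableAt ℂ f z ∧ ‖f z‖ ≤ B) →
    (∀ z : ℂ, ‖z - z₀‖ < r → ‖z + 1 - z₀‖ < r → f (z + 1) = f z) →
    ∀ z : ℂ, ‖z - z₀‖ ≤ r / 4 → ‖f z - f z₀‖ ≤ C * B * Real.exp (-r) := by
  refine ⟨4 * Real.pi, by positivity, ?_⟩
  intro f z₀ r B hr hB hf hper z hz
  have hπ := Real.pi_pos
  have hπ3 := Real.pi_gt_three
  have hin : ∀ w : ℂ, ‖w - z₀‖ ≤ r / 4 → ∀ y : ℂ, ‖y - w‖ < 3 * r / 4 → ‖y - z₀‖ < r := by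
    intro w hw y hy
    have h1 : ‖y - z₀‖ ≤ ‖y - w‖ + ‖w - z₀‖ := by
      have := norm_add_le (y - w) (w - z₀)
      simpa using this
    linarith
  have hbound : ∀ w ∈ Metric.closedBall z₀ (r / 4), ‖deriv f w‖ ≤
      16 * Real.pi * B * Real.exp (-(Real.pi * (3 * r / 4))) := by
    intro w hw
    rw [Metric.mem_closedBall, dist_eq_norm] at hw
    refine periodic_deriv f w (3 * r / 4) B (by linarith) (fun y hy => hf y (hin w hw y hy))
      (fun y hy hy' => hper y (hin w hw y hy) (hin w hw (y + 1) hy'))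
  have hdiff : ∀ w ∈ Metric.closedBall z₀ (r / 4), DifferentiableAt ℂ f w := by
    intro w hw
    rw [Metric.mem_closedBall, dist_eq_norm] at hw
    exact (hf w (by linarith)).1
  have h1 := Convex.norm_image_sub_le_of_norm_deriv_le hdiff hbound
    (convex_closedBall z₀ (r / 4)) (Metric.mem_closedBall_self (by linarith))
    (y := z) (by rw [Metric.mem_closedBall, dist_eq_norm]; exact hz)
  refine h1.trans ?_
  have h2 : Real.exp (-(Real.pi * (3 * r / 4))) ≤ Real.exp (-r) * Real.exp (-r) := by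
    rw [← Real.exp_add]
    refine Real.exp_le_exp.2 ?_
    nlinarith
  have h3 : r * Real.exp (-r) ≤ 1 := by
    rw [Real.exp_neg, ← div_eq_mul_inv, div_le_one (Real.exp_pos r)]
    linarith [Real.add_one_le_exp r]
  have h4 := Real.exp_pos (-r)
  calc 16 * Real.pi * B * Real.exp (-(Real.pi * (3 * r / 4))) * ‖z - z₀‖
      ≤ 16 * Real.pi * B * (Real.exp (-r) * Real.exp (-r)) * (r / 4) := by gcongr
    _ = 4 * Real.pi * B * Real.exp (-r) * (r * Real.exp (-r)) := by ring
    _ ≤ 4 * Real.pi * B * Real.exp (-r) * 1 := by gcongr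
    _ = 4 * Real.pi * B * Real.exp (-r) := by ring

end MP2794d1
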