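import Pool.Agent.Lib.MP_2794d1_ag.P05
import Pool.Agent.Lib.MP_2794d1_ag.Q02
import Pool.Agent.Lib.MP_2794d1_ag.L05

/-!
R01: One step. Let N = cm c.N, R(z) = RW V N p z₀ z, D = PiV V p z₀ = R(z₀) (RW_self). For y = im z₀ large, |re z₀| ≤ 1:
the entries of R(z), ‖z - z₀‖ < ε y, are ≤ C y^K (RW_analytic and flat_entries with σ = 1, w = z₀), holomorphic and 1-periodic,
so by periodic_small with r = ε y: ‖(R(z) - D) i j‖ ≤ C y^K exp(-ε y) for ‖z - z₀‖ ≤ ε y/4. Let W be a frame of Ψ(z₀) =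
uexp N (-z₀) F^p_{z₀}, U = uexp N z₀ * W, so range U = F^p_{z₀}, D U = U (PiV_mem). Put U' = R(z) U and W' = uexp N (-z₀) * U'.
D U' = D U = U, so U' has independent columns (so has W'). Range U' = image of R(z) = uexp N(-(z-z₀)) F^p_z (the properties in
RW_props: P R = R, R P = P, PW_mem): if R x = x, then D x = U c for some c and R (x - D x) = 0 (R D = R), so x = R x = R D x =
R U c = U' c. So range W' = uexp N(-z₀) uexp N(-(z-z₀)) F^p_z = Ψ(z) (uexp_add). W' - W = uexp N(-z₀)(R(z) - D) uexp N z₀ W: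
the entries of uexp N (± z₀) are ≤ C y^n (|re z₀| ≤ 1 ≤ y), so ≤ C' y^K' exp(-ε y) B ≤ C'' B exp(-(ε/2) y).
-/

namespace MP2794d1

open Matrix Complex Filter Topology
open scoped ContDiff

theorem R01_uexp_bound {n : ℕ} (N : Matrix (Fin n) (Fin n) ℂ) : ∃ C : ℝ, 0 ≤ C ∧
    ∀ (s : ℂ) (y : ℝ), 1 ≤ y → ‖s‖ ≤ 2 * y → ∀ i j, ‖uexp N s i j‖ ≤ C * y ^ n := by
  refine ⟨∑ k ∈ Finset.range n, ∑ a, ∑ b, 2 ^ n * ‖(N ^ k) a b‖,
    Finset.sum_nonneg fun k _ => Finset.sum_nonneg fun a _ => Finset.sum_nonneg fun b _ => by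
      positivity, ?_⟩
  intro s y hy hs i j
  unfold uexp
  rw [Matrix.sum_apply, Finset.sum_mul]
  refine (norm_sum_le _ _).trans (Finset.sum_le_sum fun k hk => ?_)
  rw [Matrix.smul_apply, smul_eq_mul, norm_mul]
  have hkn : k ≤ n := (Finset.mem_range.1 hk).le
  have h1 : ‖s ^ k / (k.factorial : ℂ)‖ ≤ 2 ^ n * y ^ n := by
    rw [norm_div, norm_pow]
    have h2 : ‖((k.factorial : ℕ) : ℂ)‖ = (k.factorial : ℝ) := by
      rw [Complex.norm_natCast]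
    rw [h2]
    have h3 : (1 : ℝ) ≤ k.factorial := by exact_mod_cast Nat.factorial_pos k
    refine (div_le_self (by positivity) h3).trans ?_
    calc ‖s‖ ^ k ≤ (2 * y) ^ k := pow_le_pow_left₀ (norm_nonneg _) hs k
      _ ≤ (2 * y) ^ n := pow_le_pow_right₀ (by linarith) hkn
      _ = 2 ^ n * y ^ n := mul_pow _ _ _
  have h4 : 2 ^ n * ‖(N ^ k) i j‖ ≤ ∑ a, ∑ b, 2 ^ n * ‖(N ^ k) a b‖ := by
    refine le_trans ?_ (Finset.single_le_sum (f := fun a => ∑ b, 2 ^ n * ‖(N ^ k) a b‖)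
      (fun a _ => Finset.sum_nonneg fun b _ => by positivity) (Finset.mem_univ i))
    exact Finset.single_le_sum (f := fun b => 2 ^ n * ‖(N ^ k) i b‖)
      (fun b _ => by positivity) (Finset.mem_univ j)
  calc ‖s ^ k / (k.factorial : ℂ)‖ * ‖(N ^ k) i j‖ ≤ 2 ^ n * y ^ n * ‖(N ^ k) i j‖ :=
        mul_le_mul_of_nonneg_right h1 (norm_nonneg _)
    _ = (2 ^ n * ‖(N ^ k) i j‖) * y ^ n := by ring
    _ ≤ (∑ a, ∑ b, 2 ^ n * ‖(N ^ k) a b‖) * y ^ n :=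
        mul_le_mul_of_nonneg_right h4 (by positivity)

/-- polynomial times exponential -/
theorem R01_poly_exp (M : ℕ) {ε : ℝ} (hε : 0 < ε) : ∃ C : ℝ, 0 ≤ C ∧ ∀ y : ℝ, 0 ≤ y →
    y ^ M * Real.exp (-(ε * y)) ≤ C * Real.exp (-(ε / 2 * y)) := by
  refine ⟨(M.factorial : ℝ) * (2 / ε) ^ M, by positivity, fun y hy => ?_⟩
  have h1 := Real.pow_div_factorial_le_exp (ε / 2 * y) (by positivity) M
  have h2 : (0 : ℝ) < M.factorial := by exact_mod_cast Nat.factorial_pos M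
  rw [div_le_iff₀ h2] at h1
  have h3 : y ^ M = (2 / ε) ^ M * (ε / 2 * y) ^ M := by
    rw [← mul_pow]
    congr 1
    field_simp
  have h4 : Real.exp (-(ε * y)) = Real.exp (-(ε / 2 * y)) * Real.exp (-(ε / 2 * y)) := by
    rw [← Real.exp_add]
    congr 1
    ring
  have h5 : Real.exp (ε / 2 * y) * Real.exp (-(ε / 2 * y)) = 1 := by
    rw [← Real.exp_add, add_neg_cancel, Real.exp_zero]
  rw [h3, h4]
  calc (2 / ε) ^ M * (ε / 2 * y) ^ M * (Real.exp (-(ε / 2 * y)) * Real.exp (-(ε / 2 * y)))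
      ≤ (2 / ε) ^ M * (Real.exp (ε / 2 * y) * M.factorial) *
        (Real.exp (-(ε / 2 * y)) * Real.exp (-(ε / 2 * y))) := by
        refine mul_le_mul_of_nonneg_right (mul_le_mul_of_nonneg_left h1 (by positivity))
          (by positivity)
    _ = (M.factorial : ℝ) * (2 / ε) ^ M * Real.exp (-(ε / 2 * y)) *
        (Real.exp (ε / 2 * y) * Real.exp (-(ε / 2 * y))) := by ring
    _ = (M.factorial : ℝ) * (2 / ε) ^ M * Real.exp (-(ε / 2 * y)) := by rw [h5, mul_one]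

/-- the algebra of one step -/
theorem R01_algebra {n r : ℕ} {N P R D : Matrix (Fin n) (Fin n) ℂ} (hN : N ^ n = 0) {z₀ z : ℂ}
    {F₀ F₁ : Submodule ℂ (Fin n → ℂ)} (hRP : R * P = P) (hPR : P * R = R)
    (hDR : D * R = D) (hRD : R * D = R) (hD : ∀ x, x ∈ F₀ ↔ D *ᵥ x = x)
    (hDr : ∀ x, D *ᵥ x ∈ F₀)
    (hP : ∀ x, P *ᵥ x = x ↔ x ∈ F₁.map (uexp N (-(z - z₀))).mulVecLin)
    (W : Matrix (Fin n) (Fin r) ℂ) (hW : LinearIndependent ℂ Wᵀ)
    (hW₀ : F₀.map (uexp N (-z₀)).mulVecLin = LinearMap.range W.mulVecLin) :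
    LinearIndependent ℂ (uexp N (-z₀) * (R * (uexp N z₀ * W)))ᵀ ∧
    F₁.map (uexp N (-z)).mulVecLin =
      LinearMap.range (uexp N (-z₀) * (R * (uexp N z₀ * W))).mulVecLin ∧
    uexp N (-z₀) * (R * (uexp N z₀ * W)) - W =
      uexp N (-z₀) * ((R - D) * (uexp N z₀ * W)) := by
  set U : Matrix (Fin n) (Fin r) ℂ := uexp N z₀ * W with hU
  have hWU : W = uexp N (-z₀) * U := by
    rw [hU, ← Matrix.mul_assoc, uexp_neg_mul _ hN, Matrix.one_mul]
  have hUr : LinearMap.range U.mulVecLin = F₀ := by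
    rw [hU, Matrix.mulVecLin_mul, LinearMap.range_comp, ← hW₀, ← Submodule.map_comp,
      ← Matrix.mulVecLin_mul, uexp_mul_neg _ hN, Matrix.mulVecLin_one, Submodule.map_id]
  have hDU : D * U = U := by
    ext i j
    have h1 : U *ᵥ (Pi.single j 1) ∈ F₀ := by
      rw [← hUr]
      exact ⟨Pi.single j 1, rfl⟩
    have h2 := (hD _).1 h1
    rw [Matrix.mulVec_mulVec] at h2
    have h3 := congrFun h2 i
    simpa using h3
  have hinjW : Function.Injective W.mulVec := Matrix.mulVec_injective_iff.2 hW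
  have hinjU : Function.Injective U.mulVec := by
    intro a b hab
    apply hinjW
    have h1 := congrArg (fun v => uexp N (-z₀) *ᵥ v) hab
    simp only [Matrix.mulVec_mulVec] at h1
    rw [← hWU] at h1
    exact h1
  have hinj : Function.Injective (uexp N (-z₀) * (R * U)).mulVec := by
    intro a b hab
    apply hinjU
    have h1 := congrArg (fun v => (D * uexp N z₀) *ᵥ v) hab
    simp only [Matrix.mulVec_mulVec] at h1
    have h2 : D * uexp N z₀ * (uexp N (-z₀) * (R * U)) = U := by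
      calc D * uexp N z₀ * (uexp N (-z₀) * (R * U))
          = D * ((uexp N z₀ * uexp N (-z₀)) * (R * U)) := by simp only [Matrix.mul_assoc]
        _ = (D * R) * U := by rw [uexp_mul_neg _ hN, Matrix.one_mul, ← Matrix.mul_assoc]
        _ = U := by rw [hDR, hDU]
    rw [h2] at h1
    exact h1
  refine ⟨Matrix.mulVec_injective_iff.1 hinj, ?_, ?_⟩
  · have hrange : LinearMap.range (R * U).mulVecLin = F₁.map (uexp N (-(z - z₀))).mulVecLin := by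
      apply le_antisymm
      · rintro _ ⟨x, rfl⟩
        rw [← hP, Matrix.mulVecLin_apply, Matrix.mulVec_mulVec, ← Matrix.mul_assoc, hPR]
      · intro x hx
        have h1 := (hP x).2 hx
        have h2 : R *ᵥ x = x := by
          conv_lhs => rw [← h1]
          rw [Matrix.mulVec_mulVec, hRP, h1]
        have h3 : D *ᵥ x ∈ LinearMap.range U.mulVecLin := by
          rw [hUr]
          exact hDr x
        obtain ⟨c, hc⟩ := h3
        rw [Matrix.mulVecLin_apply] at hc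
        refine ⟨c, ?_⟩
        rw [Matrix.mulVecLin_apply, ← Matrix.mulVec_mulVec, hc, Matrix.mulVec_mulVec, hRD, h2]
    rw [Matrix.mulVecLin_mul, LinearMap.range_comp, hrange, ← Submodule.map_comp,
      ← Matrix.mulVecLin_mul, ← uexp_add _ hN]
    congr 3
    ring
  · conv_lhs => rw [hWU]
    rw [Matrix.sub_mul, hDU, Matrix.mul_sub]

theorem frame_step {n : ℕ} (V : PolVHS n) (c : UCusp V) : ∃ ε C c₀ Y : ℝ, 0 < ε ∧ ε ≤ 1 / 2 ∧
    0 ≤ C ∧ 0 < c₀ ∧ 1 ≤ Y ∧ ∀ z₀ z : ℂ, |z₀.re| ≤ 1 → Y ≤ z₀.im → ‖z - z₀‖ ≤ ε * z₀.im →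
    ∀ (p : ℤ) (r : ℕ) (W : Matrix (Fin n) (Fin r) ℂ), LinearIndependent ℂ Wᵀ →
      Psi V (cm c.N) p z₀ = LinearMap.range W.mulVecLin → ∀ B : ℝ, 0 ≤ B →
      (∀ i j, ‖W i j‖ ≤ B) → ∃ W' : Matrix (Fin n) (Fin r) ℂ, LinearIndependent ℂ W'ᵀ ∧
        Psi V (cm c.N) p z = LinearMap.range W'.mulVecLin ∧
        ∀ i j, ‖W' i j - W i j‖ ≤ C * B * Real.exp (-(c₀ * z₀.im)) := by
  have hN : cm c.N ^ n = 0 := cm_pow c.N c.nil
  obtain ⟨ε₁, C₁, Y₁, hε₁, hε₁2, hC₁, hY₁, hA⟩ := RW_analytic V c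
  obtain ⟨ε₂, C₂, Y₂, hε₂, hε₂2, hC₂, hY₂, hR⟩ := RW_props V c
  obtain ⟨C₃, K, hC₃, hflat⟩ := flat_entries V 1
  obtain ⟨C₄, hC₄, hper⟩ := periodic_small
  obtain ⟨C₅, hC₅, hU⟩ := R01_uexp_bound (cm c.N)
  set δ : ℝ := min ε₁ ε₂ with hδ
  have hδ0 : 0 < δ := lt_min hε₁ hε₂
  have hδ1 : δ ≤ ε₁ := min_le_left _ _
  have hδ2 : δ ≤ ε₂ := min_le_right _ _
  obtain ⟨C₆, hC₆, hpe⟩ := R01_poly_exp (2 * n + 2 * K) hδ0
  set C₇ : ℝ := n * (C₅ * (n * ((C₄ * (n * ((n * (C₃ * C₁)) * C₃))) * (n * C₅)))) with hC₇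
  have hC₇0 : 0 ≤ C₇ := by positivity
  refine ⟨δ / 4, C₇ * C₆, δ / 2, max (max Y₁ Y₂) (4 / δ), by positivity, by linarith,
    by positivity, by positivity, le_trans hY₁ ((le_max_left _ _).trans (le_max_left _ _)), ?_⟩
  intro z₀ z hre him hz p r W hW hW₀ B hB hWB
  set y : ℝ := z₀.im with hy
  have hyY₁ : Y₁ ≤ y := (le_max_left _ _).trans ((le_max_left _ _).trans him)
  have hyY₂ : Y₂ ≤ y := (le_max_right _ _).trans ((le_max_left _ _).trans him)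
  have hyδ : 4 / δ ≤ y := (le_max_right _ _).trans him
  have hy1 : 1 ≤ y := hY₁.trans hyY₁
  have hy0 : 0 < y := by linarith
  have hδy : 4 ≤ δ * y := by
    rw [div_le_iff₀ hδ0] at hyδ
    linarith
  obtain ⟨S, d, hS⟩ := exists_adapted (V.phs z₀ hy0)
  have hz₀n : ‖z₀‖ ≤ 2 * y := by
    refine (Complex.norm_le_abs_re_add_abs_im _).trans ?_
    rw [abs_of_nonneg (show 0 ≤ z₀.im from hy0.le)]
    linarith
  -- bounds of the entries of `S`
  have hSb : ∀ a b, ‖S a b‖ ≤ C₃ * y ^ K ∧ ‖S⁻¹ a b‖ ≤ C₃ * y ^ K := by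
    refine hflat z₀ hre hy1 S d ?_
    rw [mob_one]
    exact hS
  -- bounds of the entries of `R`
  have hRb : ∀ w : ℂ, ‖w - z₀‖ < δ * y → ∀ i j,
      ‖RW V (cm c.N) p z₀ w i j‖ ≤ n * ((n * ((C₃ * y ^ K) * C₁)) * (C₃ * y ^ K)) := by
    intro w hw i j
    have h1 : ‖w - z₀‖ < ε₁ * z₀.im := lt_of_lt_of_le hw (by
      exact mul_le_mul_of_nonneg_right hδ1 hy0.le)
    have h2 := (hA z₀ w hyY₁ h1 p).2.2 S d hS
    have h3 : RW V (cm c.N) p z₀ w = (S * (S⁻¹ * RW V (cm c.N) p z₀ w * S)) * S⁻¹ := by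
      have h4 : S * S⁻¹ = 1 := Matrix.mul_nonsing_inv _ hS.inv
      calc RW V (cm c.N) p z₀ w = (S * S⁻¹) * RW V (cm c.N) p z₀ w * (S * S⁻¹) := by
            rw [h4, Matrix.one_mul, Matrix.mul_one]
        _ = (S * (S⁻¹ * RW V (cm c.N) p z₀ w * S)) * S⁻¹ := by
            simp only [Matrix.mul_assoc]
    rw [h3]
    exact mul_entries (mul_entries (fun a b => (hSb a b).1) h2) (fun a b => (hSb a b).2) i j
  set B₁ : ℝ := n * ((n * ((C₃ * y ^ K) * C₁)) * (C₃ * y ^ K)) with hB₁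
  have hC₃0 : 0 ≤ C₃ := by linarith
  have hB₁0 : 0 ≤ B₁ := by positivity
  have hzδ : ‖z - z₀‖ ≤ δ * y / 4 := by
    calc ‖z - z₀‖ ≤ δ / 4 * y := hz
      _ = δ * y / 4 := by ring
  -- the difference `R - D`
  have hself : RW V (cm c.N) p z₀ z₀ = PiV V p z₀ := RW_self V (cm c.N) p hy0
  have hdiff : ∀ i j, ‖(RW V (cm c.N) p z₀ z - PiV V p z₀) i j‖ ≤
      C₄ * B₁ * Real.exp (-(δ * y)) := by
    intro i j
    rw [← hself, Matrix.sub_apply]
    refine hper (fun w => RW V (cm c.N) p z₀ w i j) z₀ (δ * y) B₁ hδy hB₁0 ?_ ?_ z hzδ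
    · intro w hw
      have h1 : ‖w - z₀‖ < ε₁ * z₀.im := lt_of_lt_of_le hw (by
        exact mul_le_mul_of_nonneg_right hδ1 hy0.le)
      exact ⟨((hA z₀ w hyY₁ h1 p).1 i j).differentiableAt, hRb w hw i j⟩
    · intro w hw hw1
      have h1 : ‖w - z₀‖ < ε₁ * z₀.im := lt_of_lt_of_le hw (by
        exact mul_le_mul_of_nonneg_right hδ1 hy0.le)
      have h2 : ‖w + 1 - z₀‖ < ε₁ * z₀.im := lt_of_lt_of_le hw1 (by
        exact mul_le_mul_of_nonneg_right hδ1 hy0.le)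
      show RW V (cm c.N) p z₀ (w + 1) i j = RW V (cm c.N) p z₀ w i j
      rw [(hA z₀ w hyY₁ h1 p).2.1 h2]
  have hz2 : ‖z - z₀‖ ≤ ε₂ * z₀.im := by
    refine hzδ.trans ?_
    have h1 : δ * y ≤ ε₂ * y := mul_le_mul_of_nonneg_right hδ2 hy0.le
    have h2 : 0 < δ * y := by positivity
    show δ * y / 4 ≤ ε₂ * y
    linarith
  have hzim : 0 < z.im := by
    have h1 := Complex.abs_im_le_norm (z - z₀)
    rw [Complex.sub_im] at h1
    have h2 := (abs_le.1 h1).1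
    have h3 : δ * y ≤ 1 / 2 * y := mul_le_mul_of_nonneg_right (hδ1.trans hε₁2) hy0.le
    have h4 : z₀.im = y := rfl
    rw [h4] at h2
    linarith
  obtain ⟨-, hRP, hPR, hDR, hRD, -⟩ := hR z₀ z hyY₂ hz2 p
  obtain ⟨w1, w2, w3⟩ := R01_algebra (N := cm c.N) hN (z₀ := z₀) (z := z) (F₀ := V.F p z₀)
    (F₁ := V.F p z) hRP hPR hDR hRD (fun x => PiV_mem V hy0 p x)
    (fun x => by
      rw [PiV_mem V hy0 p, Matrix.mulVec_mulVec]
      congr 1
      exact (PiV_mul_of_le V hy0 (le_refl p)).1)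
    (fun x => PW_mem V (cm c.N) hN p hzim x) W hW hW₀
  refine ⟨_, w1, w2, fun i j => ?_⟩
  have h1 := congrFun (congrFun w3 i) j
  rw [Matrix.sub_apply] at h1
  rw [h1]
  have hUn : ∀ i j, ‖uexp (cm c.N) (-z₀) i j‖ ≤ C₅ * y ^ n :=
    hU (-z₀) y hy1 (by rw [norm_neg]; exact hz₀n)
  have hUp : ∀ i j, ‖uexp (cm c.N) z₀ i j‖ ≤ C₅ * y ^ n := hU z₀ y hy1 hz₀n
  refine (mul_entries hUn (mul_entries hdiff (mul_entries hUp hWB)) i j).trans ?_
  have h2 := hpe y hy0.le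
  have h3 : n * (C₅ * y ^ n * (n * (C₄ * B₁ * Real.exp (-(δ * y)) *
      (n * (C₅ * y ^ n * B))))) = C₇ * B * (y ^ (2 * n + 2 * K) * Real.exp (-(δ * y))) := by
    rw [hC₇, hB₁]
    ring
  rw [h3]
  calc C₇ * B * (y ^ (2 * n + 2 * K) * Real.exp (-(δ * y)))
      ≤ C₇ * B * (C₆ * Real.exp (-(δ / 2 * y))) :=
        mul_le_mul_of_nonneg_left h2 (by positivity)
    _ = C₇ * C₆ * B * Real.exp (-(δ / 2 * z₀.im)) := by
        rw [← hy]
        ring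

end MP2794d1
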