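import Pool.Agent.Lib.MP_2794d1_ag.U03
import Pool.Agent.Lib.MP_2794d1_ag.L05
import Pool.Agent.Lib.MP_2794d1_ag.M02

/-!
U04: Flat height versus complexity, and translation. isCMc_shift: V.F p (z + m) = ρ(T)^m F p z, conjugate A by ρ(T)^m
(integral): the trace of A A' is unchanged (ρᵀ Q ρ = Q), the characteristic polynomial too. cm_height: for |re z| ≤ 1,
im z ≥ Y, A = S M S⁻¹, the entries of S, S⁻¹ are ≤ C y^K (flat_entries with σ = 1, mob 1 = id), those of M ≤ H
(rosati_frob), so |A i j| ≤ n² C² y^(2K) H ≤ C' (1+H)^(2nK+1) by im_le_complexity, and 1 + H ≤ 2H if H ≥ 1.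
-/

namespace MP2794d1

open Matrix Complex Filter Topology
open scoped ContDiff

theorem u04_mob {n : ℕ} (V : PolVHS n) (c : UCusp V) (m : ℤ) : ∀ z : ℂ, 0 < z.im →
    mob ((c.T ^ m : V.grp) : Matrix.SpecialLinearGroup (Fin 2) ℝ) z = z + m := by
  induction m using Int.induction_on with
  | zero =>
    intro z _
    rw [zpow_zero, Subgroup.coe_one, mob_one]
    simp
  | succ i ih =>
    intro z hz
    have h1 : 0 < (z + 1).im := by simpa using hz
    rw [_root_.zpow_add_one, Subgroup.coe_mul, ← mob_mob _ _ _ hz, c.T_eq, ih _ h1]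
    push_cast
    ring
  | pred i ih =>
    intro z hz
    have h1 : 0 < (z - 1).im := by simpa using hz
    have h2 : mob ((c.T⁻¹ : V.grp) : Matrix.SpecialLinearGroup (Fin 2) ℝ) z = z - 1 := by
      have h3 := mob_mob ((c.T⁻¹ : V.grp) : Matrix.SpecialLinearGroup (Fin 2) ℝ)
        (c.T : Matrix.SpecialLinearGroup (Fin 2) ℝ) (z - 1) h1
      rw [c.T_eq, ← Subgroup.coe_mul, inv_mul_cancel, Subgroup.coe_one, mob_one,
        sub_add_cancel] at h3
      exact h3
    rw [_root_.zpow_sub_one, Subgroup.coe_mul, ← mob_mob _ _ _ hz, h2, ih _ h1]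
    push_cast
    ring

theorem u04_qm_mul {n : ℕ} (A B : Matrix (Fin n) (Fin n) ℤ) : qm (A * B) = qm A * qm B := by
  ext i j
  simp [qm, Matrix.mul_apply]

theorem u04_qm_one {n : ℕ} : qm (1 : Matrix (Fin n) (Fin n) ℤ) = 1 := by
  ext i j
  by_cases h : i = j
  · subst h
    simp [qm]
  · simp [qm, Matrix.one_apply_ne h]

theorem u04_trace {n : ℕ} (Q A P P' : Matrix (Fin n) (Fin n) ℤ) (h1 : P * P' = 1) (h2 : P' * P = 1)
    (hQ : Pᵀ * Q * P = Q) :
    (qm (P * A * P') * radj Q (P * A * P')).trace = (qm A * radj Q A).trace := by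
  have e1 : qm P * qm P' = 1 := by rw [← u04_qm_mul, h1, u04_qm_one]
  have e2 : qm P' * qm P = 1 := by rw [← u04_qm_mul, h2, u04_qm_one]
  have e3 : (qm P)ᵀ * qm Q * qm P = qm Q := by
    have : (qm P)ᵀ = qm Pᵀ := rfl
    rw [this, ← u04_qm_mul, ← u04_qm_mul, hQ]
  have e4 : (qm P)ᵀ * qm Q = qm Q * qm P' := by
    calc (qm P)ᵀ * qm Q = (qm P)ᵀ * qm Q * (qm P * qm P') := by rw [e1, Matrix.mul_one]
      _ = ((qm P)ᵀ * qm Q * qm P) * qm P' := by simp only [Matrix.mul_assoc]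
      _ = _ := by rw [e3]
  have i1 : ((qm P)ᵀ)⁻¹ = (qm P')ᵀ := by
    apply Matrix.inv_eq_right_inv
    rw [← Matrix.transpose_mul, e2, Matrix.transpose_one]
  have i2 : (qm P')⁻¹ = qm P := Matrix.inv_eq_right_inv e2
  have e5 : (qm Q)⁻¹ * (qm P')ᵀ = qm P * (qm Q)⁻¹ := by
    have := congrArg (fun X => X⁻¹) e4
    simp only [Matrix.mul_inv_rev] at this
    rw [i1, i2] at this
    exact this
  have e6 : radj Q (P * A * P') = qm P * radj Q A * qm P' := by
    unfold radj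
    rw [u04_qm_mul, u04_qm_mul, Matrix.transpose_mul, Matrix.transpose_mul]
    calc (qm Q)⁻¹ * ((qm P')ᵀ * ((qm A)ᵀ * (qm P)ᵀ)) * qm Q
        = ((qm Q)⁻¹ * (qm P')ᵀ) * (qm A)ᵀ * ((qm P)ᵀ * qm Q) := by
          simp only [Matrix.mul_assoc]
      _ = _ := by
          rw [e5, e4]
          simp only [Matrix.mul_assoc]
  rw [e6, u04_qm_mul, u04_qm_mul]
  have e7 : qm P * qm A * qm P' * (qm P * radj Q A * qm P') =
      qm P * (qm A * radj Q A) * qm P' := by
    calc qm P * qm A * qm P' * (qm P * radj Q A * qm P')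
        = qm P * qm A * (qm P' * qm P) * radj Q A * qm P' := by simp only [Matrix.mul_assoc]
      _ = _ := by
          rw [e2, Matrix.mul_one]
          simp only [Matrix.mul_assoc]
  rw [e7, Matrix.trace_mul_comm, ← Matrix.mul_assoc, e2, Matrix.one_mul]

theorem u04_charpoly {n : ℕ} (A P P' : Matrix (Fin n) (Fin n) ℂ) (h3 : P * P' = 1)
    (h4 : P' * P = 1) : (P * A * P').charpoly = A.charpoly := by
  have h := Matrix.charpoly_units_conj (⟨P, P', h3, h4⟩ : (Matrix (Fin n) (Fin n) ℂ)ˣ) A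
  have h5 : P⁻¹ = P' := Matrix.inv_eq_right_inv h3
  rw [← h5]
  simpa only [Units.val_mk] using h

theorem isCMc_shift {n : ℕ} (V : PolVHS n) (c : UCusp V) (z : ℂ) (hz : 0 < z.im) (H : ℝ) (m : ℤ)
    (h : IsCMc V z H) : IsCMc V (z + m) H := by
  obtain ⟨A, hA1, hA2, hA3⟩ := h
  set g : V.grp := c.T ^ m with hg
  set P : Matrix (Fin n) (Fin n) ℤ := (V.rho g : Matrix (Fin n) (Fin n) ℤ) with hP
  set P' : Matrix (Fin n) (Fin n) ℤ := (V.rho g⁻¹ : Matrix (Fin n) (Fin n) ℤ) with hP'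
  have h1 : P * P' = 1 := by
    rw [hP, hP', ← Units.val_mul, ← map_mul, mul_inv_cancel, map_one, Units.val_one]
  have h2 : P' * P = 1 := by
    rw [hP, hP', ← Units.val_mul, ← map_mul, inv_mul_cancel, map_one, Units.val_one]
  have hmul : ∀ X Y : Matrix (Fin n) (Fin n) ℤ, im (X * Y) = im X * im Y := fun X Y => by
    ext i j
    simp [im, Matrix.mul_apply]
  have hone : im (1 : Matrix (Fin n) (Fin n) ℤ) = 1 := by
    ext i j
    by_cases h : i = j
    · subst h
      simp [im]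
    · simp [im, Matrix.one_apply_ne h]
  have h3 : im P * im P' = 1 := by rw [← hmul, h1, hone]
  have h4 : im P' * im P = 1 := by rw [← hmul, h2, hone]
  have hmob : mob (g : Matrix.SpecialLinearGroup (Fin 2) ℝ) z = z + m := u04_mob V c m z hz
  refine ⟨P * A * P', ?_, ?_, ?_⟩
  · rw [hmul, hmul]
    rw [u04_charpoly (im A) (im P) (im P') h3 h4]
    exact hA1
  · intro p x hx
    rw [← hmob, V.equiv g p z hz] at hx ⊢
    obtain ⟨y, hy, rfl⟩ := hx
    refine ⟨im A *ᵥ y, hA2 p y hy, ?_⟩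
    simp only [Matrix.mulVecLin_apply]
    rw [hmul, hmul, Matrix.mulVec_mulVec, Matrix.mulVec_mulVec]
    congr 1
    show im P * im A = im P * im A * im P' * im P
    rw [Matrix.mul_assoc (im P * im A), h4, Matrix.mul_one]
  · rw [u04_trace V.Q A P P' h1 h2 (V.flat g)]
    exact hA3

theorem cm_height {n : ℕ} (V : PolVHS n) (c : UCusp V) (hN : c.N ≠ 0) :
    ∃ (C : ℝ) (K : ℕ) (Y : ℝ), 1 ≤ C ∧ 1 ≤ K ∧ 1 ≤ Y ∧ ∀ z : ℂ, |z.re| ≤ 1 → Y ≤ z.im →
      ∀ H : ℝ, 1 ≤ H → IsCMc V z H → IsCM V z (C * H ^ K) := by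
  obtain ⟨C1, K1, hC1, hfl⟩ := flat_entries V 1
  obtain ⟨C2, Y2, hC2, hY2, hcx⟩ := im_le_complexity V c hN
  refine ⟨((n : ℝ) + 1) ^ 2 * (C1 ^ 2 * (C2 * 2 ^ n) ^ (2 * K1)), n * (2 * K1) + 1, Y2, ?_,
    by omega, hY2, fun z hre him H hH hcm => ?_⟩
  · have a1 : (1 : ℝ) ≤ ((n : ℝ) + 1) ^ 2 := by
      apply one_le_pow₀
      have : (0 : ℝ) ≤ n := Nat.cast_nonneg n
      linarith
    have a2 : (1 : ℝ) ≤ C1 ^ 2 := one_le_pow₀ hC1
    have a3 : (1 : ℝ) ≤ C2 * 2 ^ n :=
      one_le_mul_of_one_le_of_one_le hC2 (one_le_pow₀ (by norm_num))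
    have a4 : (1 : ℝ) ≤ (C2 * 2 ^ n) ^ (2 * K1) := one_le_pow₀ a3
    exact one_le_mul_of_one_le_of_one_le a1 (one_le_mul_of_one_le_of_one_le a2 a4)
  · have hy1 : 1 ≤ z.im := hY2.trans him
    have hz : 0 < z.im := by linarith
    have hyle := hcx z him H (by linarith) hcm
    obtain ⟨A, hA1, hA2, hA3⟩ := hcm
    refine ⟨A, ?_, hA1, hA2⟩
    obtain ⟨S, d, hS⟩ := exists_adapted (V.phs z hz)
    have hent := hfl z hre hy1 S d (by simpa only [mob_one] using hS)
    have hfrob := rosati_frob (V.phs z hz) hS A hA2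
    rw [hfrob] at hA3
    set M : Matrix (Fin n) (Fin n) ℂ := S⁻¹ * im A * S with hM
    have hMle : ∀ a b, ‖M a b‖ ≤ H := by
      intro a b
      have b1 : Complex.normSq (M a b) ≤ ∑ a, ∑ b, Complex.normSq (M a b) := by
        refine le_trans ?_ (Finset.single_le_sum (f := fun a => ∑ b, Complex.normSq (M a b))
          (fun a _ => Finset.sum_nonneg fun b _ => Complex.normSq_nonneg _) (Finset.mem_univ a))
        exact Finset.single_le_sum (f := fun b => Complex.normSq (M a b))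
          (fun b _ => Complex.normSq_nonneg _) (Finset.mem_univ b)
      rw [Complex.normSq_eq_norm_sq] at b1
      exact le_of_sq_le_sq (b1.trans hA3) (by linarith)
    have hSu := hS.inv
    have hAeq : im A = S * M * S⁻¹ := by
      rw [hM]
      calc im A = (S * S⁻¹) * im A * (S * S⁻¹) := by
            rw [Matrix.mul_nonsing_inv _ hSu, Matrix.one_mul, Matrix.mul_one]
        _ = _ := by simp only [Matrix.mul_assoc]
    intro i j
    have hnorm : |(A i j : ℝ)| = ‖im A i j‖ := by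
      simp [im]
    set E : ℝ := C1 * z.im ^ K1 with hE
    have hE0 : 0 ≤ E := by positivity
    have h5 : ‖im A i j‖ ≤ (n : ℝ) ^ 2 * (E ^ 2 * H) := by
      rw [hAeq, Matrix.mul_apply]
      have b1 : ∀ b : Fin n, ‖(S * M) i b * S⁻¹ b j‖ ≤ (n : ℝ) * (E ^ 2 * H) := by
        intro b
        rw [norm_mul, Matrix.mul_apply]
        have b2 : ‖∑ a, S i a * M a b‖ ≤ (n : ℝ) * (E * H) := by
          refine (norm_sum_le _ _).trans ?_
          refine (Finset.sum_le_card_nsmul _ _ (E * H) fun a _ => ?_).trans ?_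
          · rw [norm_mul]
            exact mul_le_mul (hent i a).1 (hMle a b) (norm_nonneg _) hE0
          · simp
        calc ‖∑ a, S i a * M a b‖ * ‖S⁻¹ b j‖ ≤ ((n : ℝ) * (E * H)) * E :=
              mul_le_mul b2 (hent b j).2 (norm_nonneg _) (by positivity)
          _ = (n : ℝ) * (E ^ 2 * H) := by ring
      refine (norm_sum_le _ _).trans ?_
      refine (Finset.sum_le_card_nsmul _ _ _ fun b _ => b1 b).trans ?_
      simp only [Finset.card_univ, Fintype.card_fin, nsmul_eq_mul]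
      exact le_of_eq (by ring)
    rw [hnorm]
    refine h5.trans ?_
    have h6 : z.im ≤ C2 * 2 ^ n * H ^ n := by
      refine hyle.trans ?_
      have b1 : (1 + H) ^ n ≤ (2 * H) ^ n := pow_le_pow_left₀ (by linarith) (by linarith) n
      calc C2 * (1 + H) ^ n ≤ C2 * (2 * H) ^ n := by
            apply mul_le_mul_of_nonneg_left b1
            linarith
        _ = C2 * 2 ^ n * H ^ n := by rw [mul_pow]; ring
    have h7 : E ^ 2 ≤ C1 ^ 2 * ((C2 * 2 ^ n) ^ (2 * K1) * H ^ (n * (2 * K1))) := by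
      have b1 : E ^ 2 = C1 ^ 2 * z.im ^ (2 * K1) := by
        rw [hE, mul_pow, ← pow_mul, mul_comm K1 2]
      rw [b1]
      apply mul_le_mul_of_nonneg_left _ (by positivity)
      calc z.im ^ (2 * K1) ≤ (C2 * 2 ^ n * H ^ n) ^ (2 * K1) := pow_le_pow_left₀ hz.le h6 _
        _ = _ := by rw [mul_pow, ← pow_mul]
    have h8 : (n : ℝ) ^ 2 ≤ ((n : ℝ) + 1) ^ 2 := by
      have : (0 : ℝ) ≤ n := Nat.cast_nonneg n
      nlinarith
    have hH0 : (0 : ℝ) ≤ H := by linarith
    calc (n : ℝ) ^ 2 * (E ^ 2 * H)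
        ≤ ((n : ℝ) + 1) ^ 2 * ((C1 ^ 2 * ((C2 * 2 ^ n) ^ (2 * K1) * H ^ (n * (2 * K1)))) * H) := by
          apply mul_le_mul h8 _ (by positivity) (by positivity)
          exact mul_le_mul_of_nonneg_right h7 hH0
      _ = ((n : ℝ) + 1) ^ 2 * (C1 ^ 2 * (C2 * 2 ^ n) ^ (2 * K1)) * H ^ (n * (2 * K1) + 1) := by
          rw [pow_succ]
          ring

end MP2794d1
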