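import Pool.Agent.Lib.MP_2794d1_ag.E04
import Pool.Agent.Lib.MP_2794d1_ag.E05
import Pool.Agent.Lib.MP_2794d1_ag.E06
import Pool.Agent.Lib.MP_2794d1_ag.E07

/-!
E08: positivity lemma for the sl_2 triple.
-/

namespace MP2794d1

open Matrix Complex Filter Topology

theorem E08_mconj_mul {n : ℕ} (X Y : Matrix (Fin n) (Fin n) ℂ) :
    mconj (X * Y) = mconj X * mconj Y := by
  rw [mconj, mconj, mconj, Matrix.map_mul]

theorem E08_mconj_sub {n : ℕ} (X Y : Matrix (Fin n) (Fin n) ℂ) :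
    mconj (X - Y) = mconj X - mconj Y := by
  ext i j
  simp [mconj]

theorem E08_mconj_add {n : ℕ} (X Y : Matrix (Fin n) (Fin n) ℂ) :
    mconj (X + Y) = mconj X + mconj Y := by
  ext i j
  simp [mconj]

theorem E08_mconj_br {n : ℕ} (X Y : Matrix (Fin n) (Fin n) ℂ) :
    mconj (br X Y) = br (mconj X) (mconj Y) := by
  rw [br, br, E08_mconj_sub, E08_mconj_mul, E08_mconj_mul]

theorem E08_mconj_mconj {n : ℕ} (X : Matrix (Fin n) (Fin n) ℂ) : mconj (mconj X) = X := by
  ext i j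
  simp [mconj]

theorem E08_jacobi {n : ℕ} (μ X Y : Matrix (Fin n) (Fin n) ℂ) :
    br μ (br X Y) = br (br μ X) Y + br X (br μ Y) := by
  simp only [br]
  noncomm_ring

theorem E08_trace {n : ℕ} (X Y Z : Matrix (Fin n) (Fin n) ℂ) :
    Matrix.trace (X * br Y Z) = Matrix.trace (br X Y * Z) := by
  have h : Matrix.trace (X * (Z * Y)) = Matrix.trace (Y * (X * Z)) := by
    rw [← Matrix.mul_assoc, Matrix.trace_mul_comm]
  simp only [br, Matrix.mul_sub, Matrix.sub_mul, Matrix.trace_sub]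
  rw [h, Matrix.mul_assoc, Matrix.mul_assoc]

theorem E08_br_swap {n : ℕ} (X Y : Matrix (Fin n) (Fin n) ℂ) : br X Y = - br Y X := by
  simp only [br]
  noncomm_ring

theorem E08_br_add {n : ℕ} (X Y Z : Matrix (Fin n) (Fin n) ℂ) :
    br X (Y + Z) = br X Y + br X Z := by
  simp only [br]
  noncomm_ring

theorem E08_br_sub {n : ℕ} (X Y Z : Matrix (Fin n) (Fin n) ℂ) :
    br X (Y - Z) = br X Y - br X Z := by
  simp only [br]
  noncomm_ring

theorem E08_add_br {n : ℕ} (X Y Z : Matrix (Fin n) (Fin n) ℂ) :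
    br (X + Y) Z = br X Z + br Y Z := by
  simp only [br]
  noncomm_ring

theorem E08_br_zero {n : ℕ} (X : Matrix (Fin n) (Fin n) ℂ) : br X 0 = 0 := by
  simp [br]

theorem E08_zero_br {n : ℕ} (X : Matrix (Fin n) (Fin n) ℂ) : br 0 X = 0 := by
  simp [br]

theorem E08_br_neg {n : ℕ} (X Y : Matrix (Fin n) (Fin n) ℂ) : br X (-Y) = - br X Y := by
  simp only [br]
  noncomm_ring

theorem E08_br_smul {n : ℕ} (X Y : Matrix (Fin n) (Fin n) ℂ) (c : ℂ) :
    br X (c • Y) = c • br X Y := by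
  simp only [br, Matrix.mul_smul, Matrix.smul_mul, smul_sub]

theorem triple_pos {n : ℕ} {wt : ℤ} {Q : Matrix (Fin n) (Fin n) ℤ}
    {Fl : ℤ → Submodule ℂ (Fin n → ℂ)} (h : IsPHS wt Q Fl) {μ : Matrix (Fin n) (Fin n) ℂ}
    (hμ : IsGr wt Fl μ) (K E : Matrix (Fin n) (Fin n) ℂ) (t : ℝ) (ht : t ≠ 0)
    (hK : br μ K = 0) (hE : Skew Q E)
    (hE0 : E ∈ FEnd Fl 0) (hE1 : mconj E ∈ FEnd Fl (-1))
    (h1 : br K E = (-(2 * Complex.I * t)) • E) (h2 : br E (mconj E) = (4 * Complex.I * t) • K) :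
    br μ E = E := by
  -- the parts of `E`
  obtain ⟨Y, hY⟩ : ∃ Y, Y = br μ E := ⟨_, rfl⟩
  obtain ⟨A, hA⟩ : ∃ A, A = E - Y := ⟨_, rfl⟩
  have hYY : br μ Y = Y := by rw [hY]; exact type01 h hμ E hE0 hE1
  have hAA : br μ A = 0 := by rw [hA, E08_br_sub, hYY, ← hY, sub_self]
  have hEE : E = A + Y := by rw [hA]; abel
  have sY : Skew Q Y := by rw [hY]; exact Skew.gr h hμ hE
  have sA : Skew Q A := by
    have h3 : A = E + (-1 : ℂ) • Y := by rw [hA, neg_one_smul]; abel
    rw [h3]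
    exact hE.add (sY.smul _)
  -- conjugates
  have hconj : ∀ X, br μ (mconj X) = - mconj (br μ X) := by
    intro X
    rw [E08_mconj_br, gr_conj h hμ]
    simp only [br, sub_mul, mul_sub, Matrix.smul_mul, Matrix.mul_smul, Matrix.one_mul,
      Matrix.mul_one]
    abel
  have hAb : br μ (mconj A) = 0 := by
    rw [hconj, hAA]
    ext i j
    simp [mconj]
  have hYb : br μ (mconj Y) = - mconj Y := by rw [hconj, hYY]
  -- brackets with `K`
  have hKY : br K Y = (-(2 * Complex.I * t)) • Y := by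
    have h3 := E08_jacobi μ K E
    rw [hK, E08_zero_br, zero_add, h1, E08_br_smul, ← hY] at h3
    exact h3.symm
  have hKA : br K A = (-(2 * Complex.I * t)) • A := by
    rw [hA, E08_br_sub, h1, hKY, smul_sub]
  -- types
  have hT : br A (mconj A) + br Y (mconj Y) + (br Y (mconj A) + br A (mconj Y)) =
      (4 * Complex.I * t) • K := by
    rw [← h2]
    conv_rhs => rw [hEE, E08_mconj_add, E08_br_add, E08_add_br, E08_add_br]
    abel
  have g1 : br μ (br A (mconj A)) = 0 := by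
    rw [E08_jacobi, hAA, hAb, E08_zero_br, E08_br_zero, add_zero]
  have g2 : br μ (br Y (mconj Y)) = 0 := by
    rw [E08_jacobi, hYY, hYb, E08_br_neg, add_neg_cancel]
  have g3 : br μ (br Y (mconj A)) = br Y (mconj A) := by
    rw [E08_jacobi, hYY, hAb, E08_br_zero, add_zero]
  have g4 : br μ (br A (mconj Y)) = - br A (mconj Y) := by
    rw [E08_jacobi, hAA, hYb, E08_zero_br, zero_add, E08_br_neg]
  have e1 : br Y (mconj A) - br A (mconj Y) = 0 := by
    have h3 := congrArg (br μ) hT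
    rw [E08_br_add, E08_br_add, E08_br_add, g1, g2, g3, g4, E08_br_smul, hK, smul_zero, zero_add,
      zero_add, ← sub_eq_add_neg] at h3
    exact h3
  have e2 : br Y (mconj A) + br A (mconj Y) = 0 := by
    have h3 := congrArg (br μ) e1
    rw [E08_br_sub, g3, g4, E08_br_zero, sub_neg_eq_add] at h3
    exact h3
  have e3 : br A (mconj Y) = 0 := by
    have h3 : (2 : ℂ) • br A (mconj Y) = 0 := by
      have h4 : (2 : ℂ) • br A (mconj Y) =
        (br Y (mconj A) + br A (mconj Y)) - (br Y (mconj A) - br A (mconj Y)) := by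
        rw [two_smul]; abel
      rw [h4, e1, e2, sub_zero]
    exact (smul_eq_zero.1 h3).resolve_left two_ne_zero
  have e0 : br A (mconj A) + br Y (mconj Y) = (4 * Complex.I * t) • K := by
    rw [← hT, e2, add_zero]
  -- traces
  obtain ⟨B, hB⟩ : ∃ B, B = br A (mconj A) := ⟨_, rfl⟩
  obtain ⟨Z, hZ⟩ : ∃ Z, Z = br Y A := ⟨_, rfl⟩
  have hBb : mconj B = - B := by
    rw [hB, E08_mconj_br, E08_mconj_mconj, E08_br_swap]
  have sB : Skew Q B := by rw [hB]; exact Skew.br sA sA.mconj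
  have sZ : Skew Q Z := by rw [hZ]; exact Skew.br sY sA
  have hZZ : br μ Z = Z := by rw [hZ, E08_jacobi, hYY, hAA, E08_br_zero, add_zero]
  have t1 : Matrix.trace (K * B) = -(2 * Complex.I * t) * Matrix.trace (A * mconj A) := by
    rw [hB, E08_trace, hKA, Matrix.smul_mul, Matrix.trace_smul, smul_eq_mul]
  have t2 : Matrix.trace (br Y (mconj Y) * B) = Matrix.trace (Z * mconj Z) := by
    rw [← E08_trace, hB, E08_jacobi, E08_br_swap (mconj Y) A, e3, neg_zero, E08_zero_br, zero_add,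
      E08_trace, hZ, E08_mconj_br]
  have t3 : Matrix.trace (B * B) + Matrix.trace (Z * mconj Z) =
      8 * (t : ℂ) ^ 2 * Matrix.trace (A * mconj A) := by
    rw [← t2]
    have h3 : Matrix.trace (B * B) + Matrix.trace (br Y (mconj Y) * B) =
        Matrix.trace ((B + br Y (mconj Y)) * B) := by rw [Matrix.add_mul, Matrix.trace_add]
    rw [h3, hB, e0, ← hB, Matrix.smul_mul, Matrix.trace_smul, smul_eq_mul, t1]
    have hI : Complex.I ^ 2 = -1 := Complex.I_sq
    linear_combination (-8 * (t : ℂ) ^ 2 * Matrix.trace (A * mconj A)) * hI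
  have p1 : 0 ≤ (Matrix.trace (B * B)).re := by
    have h3 : Matrix.trace (B * B) = - Matrix.trace (B * mconj B) := by
      rw [hBb, Matrix.mul_neg, Matrix.trace_neg, neg_neg]
    rw [h3, Complex.neg_re]
    by_cases hB0 : B = 0
    · rw [hB0]; simp
    · have := pos0 h hμ B sB (by rw [hB]; exact g1) hB0
      linarith
  have p2 : 0 ≤ (Matrix.trace (Z * mconj Z)).re := by
    by_cases hZ0 : Z = 0
    · rw [hZ0]; simp
    · exact (pos1 h hμ Z sZ hZZ hZ0).le
  have hA0 : A = 0 := by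
    by_contra hne
    have p3 := pos0 h hμ A sA hAA hne
    have h3 := congrArg Complex.re t3
    have h4 : (8 * (t : ℂ) ^ 2 * Matrix.trace (A * mconj A)).re =
        8 * t ^ 2 * (Matrix.trace (A * mconj A)).re := by
      have h5 : (8 * (t : ℂ) ^ 2) = ((8 * t ^ 2 : ℝ) : ℂ) := by push_cast; ring
      rw [h5, Complex.re_ofReal_mul]
    rw [h4, Complex.add_re] at h3
    have h6 : 0 < 8 * t ^ 2 := by positivity
    nlinarith
  rw [← hY, hEE, hA0, zero_add]

end MP2794d1
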