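import Pool.Agent.Lib.MP_2794d1_ag.J05
import Pool.Agent.Lib.MP_2794d1_ag.E08

/-!
K02: Derivatives of E z = trace (θ * mconj θ), θ = TV V, κ = Db θ = -br θ (mconj θ). (1) dz E = trace (Dz θ * mconj θ) +
trace (θ * mconj κ) (Dz (mconj θ) = mconj (Db θ)); mconj κ = -κ = br θ (mconj θ), and trace (θ * br θ Y) = 0. (2) db (dz E) =
trace (Db (Dz θ) * mconj θ) + trace (Dz θ * mconj (Dz θ)); Db (Dz θ) = Dz (Db θ) = Dz κ near z, κ = -br θ (mconj θ):
Dz κ = -br (Dz θ) (mconj θ) - br θ (mconj κ) = -br (Dz θ) (mconj θ) + br θ κ (mconj κ = -κ);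
trace (br (Dz θ) (mconj θ) * mconj θ) = 0 and trace (br θ κ * mconj θ) = trace (κ * br (mconj θ) θ) = trace (κ * κ)
because br (mconj θ) θ = - br θ (mconj θ) = κ. tr_kappa: trace (κ * J) = -trace (br θ (mconj θ) * J) =
-trace (θ * br (mconj θ) J) = trace (θ * mconj θ) since br (mconj θ) J = - mconj θ (JV_br'). br μ κ = 0 by the Jacobi
identity (E08_jacobi).
-/

namespace MP2794d1

open Matrix Complex Filter Topology
open scoped ContDiff

variable {n : ℕ} (V : PolVHS n) {z : ℂ} (hz : 0 < z.im)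
include hz

omit hz in
theorem K02_near {p : ℂ → Prop} (hz : 0 < z.im) (h : ∀ y : ℂ, 0 < y.im → p y) : ∀ᶠ y in 𝓝 z, p y := by
  have h1 : ∀ᶠ y in 𝓝 z, 0 < y.im := Complex.continuous_im.continuousAt.eventually (lt_mem_nhds hz)
  filter_upwards [h1] with y hy
  exact h y hy

omit hz in
theorem K02_br_self (X : Matrix (Fin n) (Fin n) ℂ) : br X X = 0 := by
  unfold br
  exact sub_self _

theorem E_dz : dz (fun y => Matrix.trace (TV V y * mconj (TV V y))) z =
    Matrix.trace (Dz (TV V) z * mconj (TV V z)) := by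
  have hT := TV_smooth V hz
  rw [dz_trace (hT.mul hT.mconj), Dz_mul hT hT.mconj, Matrix.trace_add, Dz_mconj hT]
  have h1 : mconj (Db (TV V) z) = br (TV V z) (mconj (TV V z)) := by
    rw [TV_db_conj V hz, TV_db V hz, neg_neg]
  rw [h1, E08_trace, K02_br_self, Matrix.zero_mul, Matrix.trace_zero, add_zero]

theorem E_lap : db (dz (fun y => Matrix.trace (TV V y * mconj (TV V y)))) z =
    Matrix.trace (Db (TV V) z * Db (TV V) z) +
      Matrix.trace (Dz (TV V) z * mconj (Dz (TV V) z)) := by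
  have hT := TV_smooth V hz
  have e1 : dz (fun y => Matrix.trace (TV V y * mconj (TV V y))) =ᶠ[𝓝 z]
      fun y => Matrix.trace (Dz (TV V) y * mconj (TV V y)) :=
    K02_near hz (fun y hy => E_dz V hy)
  rw [db_congr e1, db_trace (hT.Dz.mul hT.mconj), Db_mul hT.Dz hT.mconj, Matrix.trace_add,
    Db_mconj hT]
  congr 1
  rw [← Dz_Db_comm hT]
  have e2 : Db (TV V) =ᶠ[𝓝 z] fun y => (-1 : ℂ) • br (TV V y) (mconj (TV V y)) := by
    refine K02_near hz (fun y hy => ?_)
    rw [TV_db V hy]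
    simp
  rw [Dz_congr e2, Dz_smulc _ (hT.br hT.mconj), Dz_br hT hT.mconj, Dz_mconj hT, TV_db_conj V hz]
  have e3 : Matrix.trace (br (Dz (TV V) z) (mconj (TV V z)) * mconj (TV V z)) = 0 := by
    rw [← E08_trace, K02_br_self, Matrix.mul_zero, Matrix.trace_zero]
  have e4 : Matrix.trace (br (TV V z) (-Db (TV V) z) * mconj (TV V z)) =
      -Matrix.trace (Db (TV V) z * Db (TV V) z) := by
    have h5 : br (TV V z) (-Db (TV V) z) = br (Db (TV V) z) (TV V z) := by
      rw [E08_br_neg, ← E08_br_swap]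
    rw [h5, ← E08_trace]
    have h6 : br (TV V z) (mconj (TV V z)) = -Db (TV V) z := by
      rw [TV_db V hz, neg_neg]
    rw [h6, Matrix.mul_neg, Matrix.trace_neg]
  rw [Matrix.smul_mul, Matrix.add_mul, Matrix.trace_smul, Matrix.trace_add, e3, e4, zero_add,
    smul_neg, neg_smul, one_smul, neg_neg]

theorem tr_kappa : Matrix.trace (Db (TV V) z * JV V z) =
    Matrix.trace (TV V z * mconj (TV V z)) := by
  rw [TV_db V hz, Matrix.neg_mul, Matrix.trace_neg, ← E08_trace]
  have h1 : br (mconj (TV V z)) (JV V z) = -mconj (TV V z) := by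
    rw [E08_br_swap, JV_br' V hz]
  rw [h1, Matrix.mul_neg, Matrix.trace_neg, neg_neg]

theorem kappa_props : Skew V.Q (Db (TV V) z) ∧ br (JV V z) (Db (TV V) z) = 0 ∧
    mconj (Db (TV V) z) = -Db (TV V) z := by
  have hS := TV_skew V hz
  refine ⟨?_, ?_, TV_db_conj V hz⟩
  · have h1 : Db (TV V) z = (-1 : ℂ) • br (TV V z) (mconj (TV V z)) := by
      rw [TV_db V hz]
      simp
    rw [h1]
    exact (hS.br hS.mconj).smul _
  · rw [TV_db V hz, E08_br_neg, E08_jacobi, JV_br V hz, JV_br' V hz]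
    simp only [br]
    noncomm_ring

end MP2794d1
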