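import Pool.Agent.Lib.MP_2794d1_ag.K01
import Pool.Agent.Lib.MP_2794d1_ag.K02

/-!
K03: The Bochner inequality: with e = eV V z ≥ 0 (tr_deg1_nonneg; the trace is real, trace_conj_im), κ = Db θ, b = Dz θ:
‖dz E‖² = ‖trace (b * mconj θ)‖² ≤ trace(b mconj b).re * e (cs1; b is skew of degree -1 by TV_dz_br, TV_dz_skew);
(db (dz E)).re = (trace κκ).re + (trace b mconj b).re (E_lap); e² = ‖trace(κ J)‖² ≤ n (|lo|+|hi|)² (trace κκ).re (cs0,
tr_kappa), hence c e² ≤ (trace κκ).re for c = 1/(n (|lo|+|hi|)² + 1). Sum up.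
-/

namespace MP2794d1

open Matrix Complex Filter Topology
open scoped ContDiff

/-- the constant in the Bochner inequality -/
noncomputable def kc {n : ℕ} (V : PolVHS n) : ℝ :=
  1 / ((n : ℝ) * (|(V.lo : ℝ)| + |(V.hi : ℝ)|) ^ 2 + 1)

theorem kc_pos {n : ℕ} (V : PolVHS n) : 0 < kc V := by
  unfold kc
  positivity

theorem eV_nonneg {n : ℕ} (V : PolVHS n) {z : ℂ} (hz : 0 < z.im) : 0 ≤ eV V z :=
  tr_deg1_nonneg (V.phs z hz) (JV_gr V hz) (TV V z) (TV_skew V hz) (JV_br V hz)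

theorem bochner {n : ℕ} (V : PolVHS n) {z : ℂ} (hz : 0 < z.im) :
    ‖dz (fun y => Matrix.trace (TV V y * mconj (TV V y))) z‖ ^ 2 + kc V * eV V z ^ 3 ≤
      eV V z * (db (dz (fun y => Matrix.trace (TV V y * mconj (TV V y)))) z).re := by
  have he := eV_nonneg V hz
  have h1 : ‖dz (fun y => Matrix.trace (TV V y * mconj (TV V y))) z‖ ^ 2 ≤
      (Matrix.trace (Dz (TV V) z * mconj (Dz (TV V) z))).re * eV V z := by
    rw [E_dz V hz]
    exact cs1 (V.phs z hz) (JV_gr V hz) _ _ (TV_dz_skew V hz) (TV_skew V hz) (TV_dz_br V hz)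
      (JV_br V hz)
  obtain ⟨k1, k2, k3⟩ := kappa_props V hz
  obtain ⟨c1, c2⟩ := cs0 (V.phs z hz) (JV_gr V hz) (V.F_lo z hz) (V.F_hi z hz) _ k1 k2 k3
  have h2 : ‖Matrix.trace (Db (TV V) z * JV V z)‖ ^ 2 = eV V z ^ 2 := by
    rw [tr_kappa V hz]
    have h3 : Matrix.trace (TV V z * mconj (TV V z)) = ((eV V z : ℝ) : ℂ) := by
      apply Complex.ext
      · rfl
      · exact trace_conj_im _
    rw [h3, Complex.norm_real, Real.norm_of_nonneg he]
  rw [h2] at c1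
  rw [E_lap V hz, Complex.add_re]
  set K : ℝ := (n : ℝ) * (|(V.lo : ℝ)| + |(V.hi : ℝ)|) ^ 2 with hK
  set T : ℝ := (Matrix.trace (Db (TV V) z * Db (TV V) z)).re with hT
  have hK0 : 0 ≤ K := by rw [hK]; positivity
  have h4 : kc V * eV V z ^ 2 ≤ T := by
    have h5 : kc V = 1 / (K + 1) := rfl
    rw [h5, one_div, inv_mul_le_iff₀ (by linarith)]
    linarith
  have h6 : kc V * eV V z ^ 3 ≤ eV V z * T := by
    calc kc V * eV V z ^ 3 = eV V z * (kc V * eV V z ^ 2) := by ring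
      _ ≤ eV V z * T := mul_le_mul_of_nonneg_left h4 he
  linarith

end MP2794d1
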