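import Pool.Agent.Lib.MP_2794d1_ag.W01
import Pool.Agent.Lib.MP_2794d1_ag.L03
import Pool.Agent.Lib.MP_2794d1_ag.P01

/-!
P02: The Hodge projectors vary with speed O(1/y) in the Hodge metric. Fix z₀, y = im z₀, S adapted at z₀. For z on the segment
from z₀ to z₁ (‖z - z₀‖ ≤ y/2) let S' be adapted at z. Dz Π p = θ (Π p - Π(p+1)) (TV_part); in the basis S' the second
factor is a diagonal 0/1 matrix, so ∑|(S'⁻¹ Dz Π p S') a b|² ≤ eV V z; the same bound for Db Π p: by Pi_adj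
Db Π = (Q⁻¹...) is the adjoint: from Adapted.on, |(S'⁻¹ Db Π S') b a| = |(S'⁻¹ Dz Π S') a b|. So the entries of
S'⁻¹ (pd-derivative of Π p in direction ζ) S' are ≤ 2 sqrt(eV) ‖ζ‖ ≤ C ‖ζ‖ / y (eV_bound), hence by conv_entries (S⁻¹ S' and
S'⁻¹ S bounded) the entries of S⁻¹ (pd Π) S are ≤ C' ‖ζ‖/y. Mean value inequality along the segment for the entries of the
curve t ↦ S⁻¹ Π p (z_t) S.
-/

namespace MP2794d1

open Matrix Complex Filter Topology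
open scoped ContDiff

theorem P02_sqrt {n : ℕ} {X : Matrix (Fin n) (Fin n) ℂ} {e : ℝ}
    (h : e = ∑ a, ∑ b, Complex.normSq (X a b)) (a b : Fin n) : ‖X a b‖ ≤ Real.sqrt e := by
  apply Real.le_sqrt_of_sq_le
  rw [← Complex.normSq_eq_norm_sq, h]
  have h1 := Finset.single_le_sum (f := fun b => Complex.normSq (X a b))
    (fun i _ => Complex.normSq_nonneg _) (Finset.mem_univ b)
  have h2 := Finset.single_le_sum (f := fun a => ∑ b, Complex.normSq (X a b))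
    (fun i _ => Finset.sum_nonneg fun j _ => Complex.normSq_nonneg _) (Finset.mem_univ a)
  exact h1.trans h2

theorem P02_dz {n : ℕ} (V : PolVHS n) {z : ℂ} (hz : 0 < z.im)
    {S : Matrix (Fin n) (Fin n) ℂ} {d : Fin n → ℤ}
    (hS : Adapted V.wt V.Q (fun p => V.F p z) S d) (p : ℤ) (a b : Fin n) :
    ‖(S⁻¹ * Dz (PiV V p) z * S) a b‖ ≤ Real.sqrt (eV V z) := by
  have h : S * S⁻¹ = 1 := Matrix.mul_nonsing_inv _ hS.inv
  have h' : S⁻¹ * S = 1 := Matrix.nonsing_inv_mul _ hS.inv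
  have hd : ∀ q : ℤ, S⁻¹ * PiV V q z * S =
      Matrix.diagonal (fun a => if q ≤ d a then (1 : ℂ) else 0) := by
    intro q
    rw [PiV_eq V hz, prj_adapted (V.phs z hz) hS]
    calc S⁻¹ * (S * Matrix.diagonal (fun a => if q ≤ d a then (1 : ℂ) else 0) * S⁻¹) * S
        = (S⁻¹ * S) * Matrix.diagonal (fun a => if q ≤ d a then (1 : ℂ) else 0) * (S⁻¹ * S) := by
          simp only [Matrix.mul_assoc]
      _ = _ := by rw [h', Matrix.one_mul, Matrix.mul_one]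
  have e1 : S⁻¹ * Dz (PiV V p) z * S = (S⁻¹ * TV V z * S) *
      Matrix.diagonal (fun a => (if p ≤ d a then (1 : ℂ) else 0) -
        (if p + 1 ≤ d a then (1 : ℂ) else 0)) := by
    rw [TV_part V hz, ← Matrix.diagonal_sub, ← hd p, ← hd (p + 1), ← Matrix.sub_mul,
      ← Matrix.mul_sub]
    calc S⁻¹ * (TV V z * (PiV V p z - PiV V (p + 1) z)) * S
        = S⁻¹ * TV V z * 1 * (PiV V p z - PiV V (p + 1) z) * S := by
          rw [Matrix.mul_one]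
          simp only [Matrix.mul_assoc]
      _ = _ := by
          rw [← h]
          simp only [Matrix.mul_assoc]
  rw [e1, Matrix.mul_diagonal, norm_mul]
  have h1 := P02_sqrt (TV_frob V hz hS) a b
  have h2 : ‖(if p ≤ d b then (1 : ℂ) else 0) - (if p + 1 ≤ d b then (1 : ℂ) else 0)‖ ≤ 1 := by
    by_cases hp1 : p ≤ d b <;> by_cases hp2 : p + 1 ≤ d b <;> simp [hp1, hp2]
  calc ‖(S⁻¹ * TV V z * S) a b‖ * ‖(if p ≤ d b then (1 : ℂ) else 0) -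
        (if p + 1 ≤ d b then (1 : ℂ) else 0)‖
      ≤ Real.sqrt (eV V z) * 1 := by gcongr
    _ = _ := mul_one _

theorem P02_conj {n : ℕ} {wt : ℤ} {Q : Matrix (Fin n) (Fin n) ℤ}
    {Fl : ℤ → Submodule ℂ (Fin n → ℂ)} {S : Matrix (Fin n) (Fin n) ℂ} {d : Fin n → ℤ}
    (hS : Adapted wt Q Fl S d) {A B : Matrix (Fin n) (Fin n) ℂ}
    (hAB : (mconj B)ᵀ * im Q = im Q * A) (a b : Fin n) :
    ‖(S⁻¹ * B * S) b a‖ = ‖(S⁻¹ * A * S) a b‖ := by
  have h : S * S⁻¹ = 1 := Matrix.mul_nonsing_inv _ hS.inv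
  have h' : S⁻¹ * S = 1 := Matrix.nonsing_inv_mul _ hS.inv
  -- the conjugate of the orthogonality relation
  have hon : (mconj S)ᵀ * im Q * S = mconj (Matrix.diagonal
      (fun a => Complex.I ^ (wt - 2 * d a))) := by
    rw [← hS.on, e07_mul, e07_mul, ← e07_transpose, e07_im_conj, E03_mconj_mconj]
  have hdiag : mconj (Matrix.diagonal (fun a => Complex.I ^ (wt - 2 * d a))) =
      Matrix.diagonal (fun a : Fin n => (starRingEnd ℂ) (Complex.I ^ (wt - 2 * d a))) := by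
    ext i j
    show (starRingEnd ℂ) (Matrix.diagonal (fun a => Complex.I ^ (wt - 2 * d a)) i j) = _
    by_cases hij : i = j
    · subst hij; simp
    · rw [Matrix.diagonal_apply_ne _ hij, Matrix.diagonal_apply_ne _ hij, map_zero]
  rw [hdiag] at hon
  obtain ⟨Δ, hΔ⟩ : ∃ Δ : Fin n → ℂ,
    Δ = fun a : Fin n => (starRingEnd ℂ) (Complex.I ^ (wt - 2 * d a)) := ⟨_, rfl⟩
  rw [← hΔ] at hon
  have hone : ∀ a, ‖Δ a‖ = 1 := by
    intro a
    rw [hΔ]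
    simp
  obtain ⟨A', hA'⟩ : ∃ A', A' = S⁻¹ * A * S := ⟨_, rfl⟩
  obtain ⟨B', hB'⟩ : ∃ B', B' = S⁻¹ * B * S := ⟨_, rfl⟩
  have hSA : A * S = S * A' := by
    rw [hA', ← Matrix.mul_assoc, ← Matrix.mul_assoc, h, Matrix.one_mul]
  have hSB : B * S = S * B' := by
    rw [hB', ← Matrix.mul_assoc, ← Matrix.mul_assoc, h, Matrix.one_mul]
  have hSB2 : (mconj S)ᵀ * (mconj B)ᵀ = (mconj B')ᵀ * (mconj S)ᵀ := by
    rw [← Matrix.transpose_mul, ← Matrix.transpose_mul, ← e07_mul, ← e07_mul, hSB]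
  have hkey : (mconj B')ᵀ * Matrix.diagonal Δ = Matrix.diagonal Δ * A' := by
    calc (mconj B')ᵀ * Matrix.diagonal Δ = (mconj B')ᵀ * (mconj S)ᵀ * im Q * S := by
          rw [← hon]
          simp only [Matrix.mul_assoc]
      _ = (mconj S)ᵀ * ((mconj B)ᵀ * im Q) * S := by
          rw [← hSB2]
          simp only [Matrix.mul_assoc]
      _ = (mconj S)ᵀ * im Q * (A * S) := by
          rw [hAB]
          simp only [Matrix.mul_assoc]
      _ = Matrix.diagonal Δ * A' := by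
          rw [hSA, ← hon]
          simp only [Matrix.mul_assoc]
  have h1 := congrFun (congrFun hkey a) b
  rw [Matrix.mul_diagonal, Matrix.diagonal_mul] at h1
  have h2 := congrArg norm h1
  rw [norm_mul, norm_mul, hone, hone, mul_one, one_mul, Matrix.transpose_apply] at h2
  rw [← hA', ← hB', ← h2]
  show ‖B' b a‖ = ‖(starRingEnd ℂ) (B' b a)‖
  rw [RCLike.norm_conj]

theorem Pi_deriv_entries {n : ℕ} (V : PolVHS n) {z : ℂ} (hz : 0 < z.im)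
    {S : Matrix (Fin n) (Fin n) ℂ} {d : Fin n → ℤ}
    (hS : Adapted V.wt V.Q (fun p => V.F p z) S d) (p : ℤ) (a b : Fin n) :
    ‖(S⁻¹ * Dz (PiV V p) z * S) a b‖ ≤ Real.sqrt (eV V z) ∧
    ‖(S⁻¹ * Db (PiV V p) z * S) a b‖ ≤ Real.sqrt (eV V z) := by
  refine ⟨P02_dz V hz hS p a b, ?_⟩
  rw [P02_conj hS (Pi_adj V hz p) b a]
  exact P02_dz V hz hS p b a

/-- the speed in a fixed adapted basis -/
theorem P02_speed {n : ℕ} (V : PolVHS n) : ∃ C : ℝ, 0 ≤ C ∧ ∀ z₀ z₁ : ℂ, 0 < z₀.im →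
    ‖z₁ - z₀‖ ≤ z₀.im / 2 → ∀ (S : Matrix (Fin n) (Fin n) ℂ) (d : Fin n → ℤ),
      Adapted V.wt V.Q (fun p => V.F p z₀) S d → ∀ (ζ : ℂ) (p : ℤ) (a b : Fin n),
      ‖(S⁻¹ * (ζ • Dz (PiV V p) z₁ + (starRingEnd ℂ) ζ • Db (PiV V p) z₁) * S) a b‖
        ≤ C * (‖ζ‖ / z₀.im) := by
  obtain ⟨C, hC, hconv⟩ := conv_entries V
  refine ⟨(n : ℝ) * (n * (C * (4 * Real.sqrt (2 / kc V))) * C), by positivity,
    fun z₀ z₁ hz₀ hz S d hS ζ p a b => ?_⟩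
  have hz₁ : z₀.im / 2 ≤ z₁.im := by
    have h1 : |(z₁ - z₀).im| ≤ ‖z₁ - z₀‖ := Complex.abs_im_le_norm _
    rw [Complex.sub_im] at h1
    have h3 := (abs_le.1 h1).1
    linarith
  have hz₁0 : 0 < z₁.im := by linarith
  obtain ⟨S', d', hS'⟩ := exists_adapted (V.phs z₁ hz₁0)
  have hs : S' * S'⁻¹ = 1 := Matrix.mul_nonsing_inv _ hS'.inv
  obtain ⟨X, hX⟩ : ∃ X, X = ζ • Dz (PiV V p) z₁ + (starRingEnd ℂ) ζ • Db (PiV V p) z₁ := ⟨_, rfl⟩
  rw [← hX]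
  have hk := kc_pos V
  have hev : Real.sqrt (eV V z₁) ≤ 2 * Real.sqrt (2 / kc V) / z₀.im := by
    apply Real.sqrt_le_iff.2
    refine ⟨by positivity, (eV_bound V z₁ hz₁0).trans ?_⟩
    have e1 : (2 * Real.sqrt (2 / kc V) / z₀.im) ^ 2 = 2 / (kc V * (z₀.im / 2) ^ 2) := by
      rw [div_pow, mul_pow, Real.sq_sqrt (by positivity)]
      field_simp
    rw [e1]
    gcongr
  have hXe : ∀ i j, ‖(S'⁻¹ * X * S') i j‖ ≤ 4 * Real.sqrt (2 / kc V) * (‖ζ‖ / z₀.im) := by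
    intro i j
    obtain ⟨h1, h2⟩ := Pi_deriv_entries V hz₁0 hS' p i j
    have e1 : S'⁻¹ * X * S' = ζ • (S'⁻¹ * Dz (PiV V p) z₁ * S') +
        (starRingEnd ℂ) ζ • (S'⁻¹ * Db (PiV V p) z₁ * S') := by
      rw [hX, Matrix.mul_add, Matrix.add_mul, Matrix.mul_smul, Matrix.mul_smul, Matrix.smul_mul,
        Matrix.smul_mul]
    rw [e1, Matrix.add_apply, Matrix.smul_apply, Matrix.smul_apply, smul_eq_mul, smul_eq_mul]
    calc ‖ζ * (S'⁻¹ * Dz (PiV V p) z₁ * S') i j +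
          (starRingEnd ℂ) ζ * (S'⁻¹ * Db (PiV V p) z₁ * S') i j‖
        ≤ ‖ζ‖ * ‖(S'⁻¹ * Dz (PiV V p) z₁ * S') i j‖ +
          ‖ζ‖ * ‖(S'⁻¹ * Db (PiV V p) z₁ * S') i j‖ := by
          refine (norm_add_le _ _).trans ?_
          rw [norm_mul, norm_mul, RCLike.norm_conj]
      _ ≤ ‖ζ‖ * (2 * Real.sqrt (2 / kc V) / z₀.im) + ‖ζ‖ * (2 * Real.sqrt (2 / kc V) / z₀.im) := by
          gcongr
          · exact h1.trans hev
          · exact h2.trans hev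
      _ = _ := by ring
  have hc := hconv z₀ z₁ hz₀ hz S S' d d' hS hS'
  have e2 : S⁻¹ * X * S = (S⁻¹ * S') * (S'⁻¹ * X * S') * (S'⁻¹ * S) := by
    calc S⁻¹ * X * S = S⁻¹ * 1 * X * 1 * S := by simp only [Matrix.mul_one]
      _ = _ := by
          rw [← hs]
          simp only [Matrix.mul_assoc]
  rw [e2]
  have h3 := mul_entries (mul_entries (fun i j => (hc i j).1) hXe) (fun i j => (hc i j).2) a b
  refine h3.trans (le_of_eq ?_)
  ring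

theorem Pi_close {n : ℕ} (V : PolVHS n) : ∃ C : ℝ, 0 ≤ C ∧ ∀ z₀ z₁ : ℂ, 0 < z₀.im →
    ‖z₁ - z₀‖ ≤ z₀.im / 2 → ∀ (S : Matrix (Fin n) (Fin n) ℂ) (d : Fin n → ℤ),
      Adapted V.wt V.Q (fun p => V.F p z₀) S d → ∀ p a b,
      ‖(S⁻¹ * (PiV V p z₁ - PiV V p z₀) * S) a b‖ ≤ C * (‖z₁ - z₀‖ / z₀.im) := by
  obtain ⟨C, hC, hsp⟩ := P02_speed V
  refine ⟨C, hC, fun z₀ z₁ hz₀ hz S d hS p a b => ?_⟩
  obtain ⟨ζ, hζ⟩ : ∃ ζ, ζ = z₁ - z₀ := ⟨_, rfl⟩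
  rw [← hζ] at hz ⊢
  have hseg : ∀ t : ℝ, t ∈ Set.Icc (0 : ℝ) 1 → ‖z₀ + t * ζ - z₀‖ ≤ z₀.im / 2 := by
    intro t ht
    rw [add_sub_cancel_left, norm_mul, Complex.norm_real, Real.norm_of_nonneg ht.1]
    calc t * ‖ζ‖ ≤ 1 * ‖ζ‖ := by gcongr; exact ht.2
      _ ≤ _ := by rw [one_mul]; exact hz
  have him : ∀ t : ℝ, t ∈ Set.Icc (0 : ℝ) 1 → 0 < (z₀ + t * ζ).im := by
    intro t ht
    have h1 : |(z₀ + t * ζ - z₀).im| ≤ ‖z₀ + t * ζ - z₀‖ := Complex.abs_im_le_norm _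
    have h2 := hseg t ht
    rw [Complex.sub_im] at h1
    have h3 := (abs_le.1 h1).1
    linarith
  have hder : ∀ t : ℝ, t ∈ Set.Icc (0 : ℝ) 1 → HasDerivWithinAt
      (fun t : ℝ => (S⁻¹ * PiV V p (z₀ + t * ζ) * S) a b)
      ((S⁻¹ * (ζ • Dz (PiV V p) (z₀ + t * ζ) +
        (starRingEnd ℂ) ζ • Db (PiV V p) (z₀ + t * ζ)) * S) a b) (Set.Icc 0 1) t := by
    intro t ht
    apply HasDerivAt.hasDerivWithinAt
    have hline : HasDerivAt (fun t : ℝ => z₀ + t * ζ) ζ t := by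
      have h1 : HasDerivAt (fun t : ℝ => (t : ℂ)) 1 t := Complex.ofRealCLM.hasDerivAt
      simpa using (h1.mul_const ζ).const_add z₀
    have hent : ∀ i j, HasDerivAt (fun t : ℝ => PiV V p (z₀ + t * ζ) i j)
        ((ζ • Dz (PiV V p) (z₀ + t * ζ) + (starRingEnd ℂ) ζ • Db (PiV V p) (z₀ + t * ζ)) i j) t := by
      intro i j
      have h1 := (smooth_diff (Pi_smooth V p (him t ht) i j)).hasFDerivAt
      have h2 := h1.comp_hasDerivAt t hline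
      have h3 : fderiv ℝ (fun y => PiV V p y i j) (z₀ + t * ζ) ζ =
          (ζ • Dz (PiV V p) (z₀ + t * ζ) +
            (starRingEnd ℂ) ζ • Db (PiV V p) (z₀ + t * ζ)) i j :=
        pd_eq (f := fun y => PiV V p y i j) ζ
      rw [h3] at h2
      exact h2
    have e1 : ∀ M : Matrix (Fin n) (Fin n) ℂ, (S⁻¹ * M * S) a b =
        ∑ j, (∑ i, S⁻¹ a i * M i j) * S j b := by
      intro M
      rw [Matrix.mul_apply]
      refine Finset.sum_congr rfl fun j _ => ?_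
      rw [Matrix.mul_apply]
    simp only [e1]
    refine HasDerivAt.fun_sum fun j _ => ?_
    refine HasDerivAt.mul_const ?_ _
    refine HasDerivAt.fun_sum fun i _ => ?_
    exact (hent i j).const_mul _
  have hbd : ∀ t ∈ Set.Ico (0 : ℝ) 1, ‖(S⁻¹ * (ζ • Dz (PiV V p) (z₀ + t * ζ) +
      (starRingEnd ℂ) ζ • Db (PiV V p) (z₀ + t * ζ)) * S) a b‖ ≤ C * (‖ζ‖ / z₀.im) := by
    intro t ht
    exact hsp z₀ (z₀ + t * ζ) hz₀ (hseg t ⟨ht.1, ht.2.le⟩) S d hS ζ p a b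
  have hfin := norm_image_sub_le_of_norm_deriv_le_segment_01' hder hbd
  have e3 : (S⁻¹ * (PiV V p z₁ - PiV V p z₀) * S) a b =
      (S⁻¹ * PiV V p (z₀ + ((1 : ℝ) : ℂ) * ζ) * S) a b -
        (S⁻¹ * PiV V p (z₀ + ((0 : ℝ) : ℂ) * ζ) * S) a b := by
    have h1 : z₀ + ((1 : ℝ) : ℂ) * ζ = z₁ := by rw [hζ]; push_cast; ring
    have h0 : z₀ + ((0 : ℝ) : ℂ) * ζ = z₀ := by push_cast; ring
    rw [h1, h0, Matrix.mul_sub, Matrix.sub_mul, Matrix.sub_apply]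
  rw [e3]
  exact hfin

end MP2794d1
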