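import Pool.Agent.Lib.MP_2794d1_ag.P03
import Pool.Agent.Lib.MP_2794d1_ag.B07

/-!
P04: The oblique projector R = RW = P B⁻¹, P = PW, D = Π p(z₀) = PiV V p z₀, B = 1 - D + D P = 1 + D (P - D) (D D = D).
In the basis S the entries of S⁻¹ (B - 1) S = (S⁻¹DS)(S⁻¹(P - D)S), S⁻¹DS a 0/1 diagonal matrix, are ≤ C ‖z-z₀‖/y ≤ 1/(2n) if
‖z-z₀‖ ≤ ε y (PW_close), so small_inv gives B invertible and entries of S⁻¹ B⁻¹ S ≤ 2; the entries of S⁻¹ R S =
(S⁻¹PS)(S⁻¹B⁻¹S) are bounded. Algebra: B P = P - D P + D P P = P, so B⁻¹ P = P, hence R P = P B⁻¹ P = P and R R = P B⁻¹ P B⁻¹ =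
P B⁻¹ = R, P R = R. D B = D - D + D P = D P, so D R = D P B⁻¹ = D B B⁻¹ = D. Finally R (1 - D) = 0: let D v = 0 and
u = B⁻¹ v; D P u = D B u = D v = 0. Put x = P u: P x = x and D x = 0. Then x = (P - D) x, and in the basis S the vector
S⁻¹ x has max norm ≤ n C ε max norm of itself ≤ 1/2, so x = 0. But R v = P B⁻¹ v = P u = x = 0. RW_self: P = D, B = 1.
oblique_unique: R' P = R' P' P = P' P = P, R' R = R' P R = P R = R and R' R = R' D R = R' D = R'.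
-/

namespace MP2794d1

open Matrix Complex Filter Topology
open scoped ContDiff

/-- the algebra of the oblique projector -/
theorem P04_alg {n : ℕ} {P D B : Matrix (Fin n) (Fin n) ℂ} (hP : P * P = P) (hD : D * D = D)
    (hB : B = 1 - D + D * P) (hBu : IsUnit B.det) (hu : IsUnit (1 - (P - D)).det) :
    P * B⁻¹ * (P * B⁻¹) = P * B⁻¹ ∧ P * B⁻¹ * P = P ∧ P * (P * B⁻¹) = P * B⁻¹ ∧
      D * (P * B⁻¹) = D ∧ P * B⁻¹ * D = P * B⁻¹ := by
  have hBB : B * B⁻¹ = 1 := Matrix.mul_nonsing_inv B hBu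
  have hBB' : B⁻¹ * B = 1 := Matrix.nonsing_inv_mul B hBu
  have h1 : B * P = P := by
    rw [hB, Matrix.add_mul, Matrix.sub_mul, Matrix.one_mul, Matrix.mul_assoc, hP]
    abel
  have h2 : B⁻¹ * P = P := by
    calc B⁻¹ * P = B⁻¹ * (B * P) := by rw [h1]
      _ = P := by rw [← Matrix.mul_assoc, hBB', Matrix.one_mul]
  have h3 : D * B = D * P := by
    rw [hB, Matrix.mul_add, Matrix.mul_sub, Matrix.mul_one, hD, ← Matrix.mul_assoc, hD]
    abel
  have h4 : D * (P * B⁻¹) = D := by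
    rw [← Matrix.mul_assoc, ← h3, Matrix.mul_assoc, hBB, Matrix.mul_one]
  have h5 : P * (P * B⁻¹) = P * B⁻¹ := by rw [← Matrix.mul_assoc, hP]
  refine ⟨?_, ?_, h5, h4, ?_⟩
  · rw [Matrix.mul_assoc, ← Matrix.mul_assoc B⁻¹, h2, h5]
  · rw [Matrix.mul_assoc, h2, hP]
  · have hX : (1 - (P - D)) * (P * B⁻¹ * (1 - D)) = 0 := by
      have e1 : P * (P * B⁻¹ * (1 - D)) = P * B⁻¹ * (1 - D) := by
        rw [← Matrix.mul_assoc, h5]
      have e2 : D * (P * B⁻¹ * (1 - D)) = 0 := by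
        rw [← Matrix.mul_assoc, h4, Matrix.mul_sub, Matrix.mul_one, hD, sub_self]
      rw [Matrix.sub_mul, Matrix.one_mul, Matrix.sub_mul, e1, e2]
      abel
    have hX0 : P * B⁻¹ * (1 - D) = 0 := by
      have := congrArg (fun X => (1 - (P - D))⁻¹ * X) hX
      rw [← Matrix.mul_assoc, Matrix.nonsing_inv_mul _ hu, Matrix.one_mul, Matrix.mul_zero] at this
      exact this
    rw [Matrix.mul_sub, Matrix.mul_one, sub_eq_zero] at hX0
    exact hX0.symm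

theorem P04_conj_det {n : ℕ} {S X : Matrix (Fin n) (Fin n) ℂ} (hS : IsUnit S.det)
    (h : IsUnit (S⁻¹ * X * S).det) : IsUnit X.det := by
  have h1 : (S⁻¹ * X * S).det = X.det := by
    have h2 : S⁻¹.det * S.det = 1 := by
      rw [← Matrix.det_mul, Matrix.nonsing_inv_mul S hS, Matrix.det_one]
    rw [Matrix.det_mul, Matrix.det_mul]
    linear_combination X.det * h2
  rwa [h1] at h

theorem RW_props {n : ℕ} (V : PolVHS n) (c : UCusp V) : ∃ ε C Y : ℝ, 0 < ε ∧ ε ≤ 1 / 2 ∧ 0 ≤ C ∧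
    1 ≤ Y ∧ ∀ z₀ z : ℂ, Y ≤ z₀.im → ‖z - z₀‖ ≤ ε * z₀.im → ∀ p : ℤ,
      RW V (cm c.N) p z₀ z * RW V (cm c.N) p z₀ z = RW V (cm c.N) p z₀ z ∧
      RW V (cm c.N) p z₀ z * PW V (cm c.N) p z₀ z = PW V (cm c.N) p z₀ z ∧
      PW V (cm c.N) p z₀ z * RW V (cm c.N) p z₀ z = RW V (cm c.N) p z₀ z ∧
      PiV V p z₀ * RW V (cm c.N) p z₀ z = PiV V p z₀ ∧
      RW V (cm c.N) p z₀ z * PiV V p z₀ = RW V (cm c.N) p z₀ z ∧
      ∀ (S : Matrix (Fin n) (Fin n) ℂ) (d : Fin n → ℤ),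
        Adapted V.wt V.Q (fun p => V.F p z₀) S d → ∀ a b,
          ‖(S⁻¹ * RW V (cm c.N) p z₀ z * S) a b‖ ≤ C := by
  obtain ⟨C1, Y, hC1, hY, hclose⟩ := PW_close V c
  have hpos : 0 < 2 * ((n : ℝ) + 1) * (C1 + 1) := by positivity
  refine ⟨min (1 / 2) (1 / (2 * ((n : ℝ) + 1) * (C1 + 1))), n * ((1 + C1) * 2), Y,
    lt_min (by norm_num) (by positivity), min_le_left _ _, by positivity, hY, ?_⟩
  set ε := min (1 / 2 : ℝ) (1 / (2 * ((n : ℝ) + 1) * (C1 + 1))) with hε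
  have hε0 : 0 < ε := lt_min (by norm_num) (by positivity)
  have hε1 : ε ≤ 1 / 2 := min_le_left _ _
  have hε2 : ε ≤ 1 / (2 * ((n : ℝ) + 1) * (C1 + 1)) := min_le_right _ _
  have hC1ε : C1 * ε ≤ 1 / (2 * ((n : ℝ) + 1)) := by
    have h1 : (C1 + 1) * ε ≤ 1 / (2 * ((n : ℝ) + 1)) := by
      calc (C1 + 1) * ε ≤ (C1 + 1) * (1 / (2 * ((n : ℝ) + 1) * (C1 + 1))) :=
            mul_le_mul_of_nonneg_left hε2 (by linarith)
        _ = 1 / (2 * ((n : ℝ) + 1)) := by field_simp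
    nlinarith
  have hC1ε' : C1 * ε ≤ C1 := by nlinarith
  intro z₀ z hz₀ hz p
  have hz₀' : 0 < z₀.im := by linarith
  have hz2 : ‖z - z₀‖ ≤ z₀.im / 2 := by nlinarith
  have hzim : 0 < z.im := by
    have h1 : |(z - z₀).im| ≤ ‖z - z₀‖ := Complex.abs_im_le_norm _
    rw [Complex.sub_im] at h1
    have h2 := (abs_le.1 h1).1
    linarith
  have hratio : ‖z - z₀‖ / z₀.im ≤ ε := by
    rw [div_le_iff₀ hz₀']; exact hz
  have hPP := PW_idem V (cm c.N) (cm_pow c.N c.nil) p (z₀ := z₀) hzim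
  have hDeq : PiV V p z₀ = prj (V.phs z₀ hz₀') p := by
    unfold PiV
    rw [dif_pos hz₀']
  have hDD : PiV V p z₀ * PiV V p z₀ = PiV V p z₀ := by
    rw [hDeq]; exact prj_idem _ _
  set P := PW V (cm c.N) p z₀ z with hP
  set D := PiV V p z₀ with hD
  -- bounds in an adapted basis
  have hbd : ∀ (S : Matrix (Fin n) (Fin n) ℂ) (d : Fin n → ℤ),
      Adapted V.wt V.Q (fun p => V.F p z₀) S d → ∀ a b, ‖(S⁻¹ * (P - D) * S) a b‖ ≤ C1 * ε := by
    intro S d hS a b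
    exact (hclose z₀ z hz₀ hz2 S d hS p a b).trans (mul_le_mul_of_nonneg_left hratio hC1)
  have hsm : ∀ (S : Matrix (Fin n) (Fin n) ℂ) (d : Fin n → ℤ),
      Adapted V.wt V.Q (fun p => V.F p z₀) S d → ∀ a b : Fin n, C1 * ε ≤ 1 / (2 * (n : ℝ)) := by
    intro S d hS a b
    have hn : 0 < n := a.pos
    have hn' : (0 : ℝ) < n := by exact_mod_cast hn
    refine hC1ε.trans ?_
    apply one_div_le_one_div_of_le (by positivity)
    linarith
  have hdiag : ∀ (S : Matrix (Fin n) (Fin n) ℂ) (d : Fin n → ℤ),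
      Adapted V.wt V.Q (fun p => V.F p z₀) S d → S⁻¹ * D * S =
        Matrix.diagonal (fun a => if p ≤ d a then (1 : ℂ) else 0) := by
    intro S d hS
    have hSS' : S⁻¹ * S = 1 := Matrix.nonsing_inv_mul S hS.inv
    rw [hDeq, prj_adapted (V.phs z₀ hz₀') hS p]
    calc S⁻¹ * (S * Matrix.diagonal (fun a => if p ≤ d a then (1 : ℂ) else 0) * S⁻¹) * S
        = (S⁻¹ * S) * Matrix.diagonal (fun a => if p ≤ d a then (1 : ℂ) else 0) * (S⁻¹ * S) := by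
          simp only [Matrix.mul_assoc]
      _ = _ := by rw [hSS', Matrix.one_mul, Matrix.mul_one]
  have hE : ∀ (S : Matrix (Fin n) (Fin n) ℂ) (d : Fin n → ℤ),
      Adapted V.wt V.Q (fun p => V.F p z₀) S d →
        S⁻¹ * (1 - D + D * P) * S = 1 + (S⁻¹ * D * S) * (S⁻¹ * (P - D) * S) := by
    intro S d hS
    have hSS : S * S⁻¹ = 1 := Matrix.mul_nonsing_inv S hS.inv
    have hSS' : S⁻¹ * S = 1 := Matrix.nonsing_inv_mul S hS.inv
    have e1 : (S⁻¹ * D * S) * (S⁻¹ * (P - D) * S) = S⁻¹ * (D * P - D) * S := by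
      calc (S⁻¹ * D * S) * (S⁻¹ * (P - D) * S) = S⁻¹ * (D * (S * S⁻¹) * (P - D)) * S := by
            simp only [Matrix.mul_assoc]
        _ = _ := by rw [hSS, Matrix.mul_one, Matrix.mul_sub, hDD]
    have e2 : (1 : Matrix (Fin n) (Fin n) ℂ) = S⁻¹ * 1 * S := by
      rw [Matrix.mul_one, hSS']
    rw [e1, e2, ← Matrix.add_mul, ← Matrix.mul_add]
    congr 2
    rw [← e2]
    abel
  have hEb : ∀ (S : Matrix (Fin n) (Fin n) ℂ) (d : Fin n → ℤ),
      Adapted V.wt V.Q (fun p => V.F p z₀) S d → ∀ a b,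
        ‖((S⁻¹ * D * S) * (S⁻¹ * (P - D) * S)) a b‖ ≤ 1 / (2 * (n : ℝ)) := by
    intro S d hS a b
    rw [hdiag S d hS, Matrix.diagonal_mul, norm_mul]
    have h1 : ‖(if p ≤ d a then (1 : ℂ) else 0)‖ ≤ 1 := by
      split_ifs <;> simp
    calc ‖(if p ≤ d a then (1 : ℂ) else 0)‖ * ‖(S⁻¹ * (P - D) * S) a b‖
        ≤ 1 * (C1 * ε) := mul_le_mul h1 (hbd S d hS a b) (norm_nonneg _) zero_le_one
      _ = C1 * ε := one_mul _
      _ ≤ _ := hsm S d hS a b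
  obtain ⟨S0, d0, hS0⟩ := exists_adapted (V.phs z₀ hz₀')
  have hBu : IsUnit (1 - D + D * P).det := by
    apply P04_conj_det hS0.inv
    rw [hE S0 d0 hS0]
    exact (small_inv _ (hEb S0 d0 hS0)).1
  have hu : IsUnit (1 - (P - D)).det := by
    apply P04_conj_det hS0.inv
    have e : S0⁻¹ * (1 - (P - D)) * S0 = 1 + -(S0⁻¹ * (P - D) * S0) := by
      rw [Matrix.mul_sub, Matrix.sub_mul, Matrix.mul_one, Matrix.nonsing_inv_mul S0 hS0.inv]
      abel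
    rw [e]
    refine (small_inv _ fun a b => ?_).1
    rw [Matrix.neg_apply, norm_neg]
    exact (hbd S0 d0 hS0 a b).trans (hsm S0 d0 hS0 a b)
  obtain ⟨r1, r2, r3, r4, r5⟩ := P04_alg hPP hDD rfl hBu hu
  have hRW : RW V (cm c.N) p z₀ z = P * (1 - D + D * P)⁻¹ := rfl
  rw [hRW]
  refine ⟨r1, r2, r3, r4, r5, ?_⟩
  intro S d hS a b
  have hSS : S * S⁻¹ = 1 := Matrix.mul_nonsing_inv S hS.inv
  have hSS' : S⁻¹ * S = 1 := Matrix.nonsing_inv_mul S hS.inv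
  have e1 : S⁻¹ * (P * (1 - D + D * P)⁻¹) * S =
      (S⁻¹ * P * S) * (S⁻¹ * (1 - D + D * P)⁻¹ * S) := by
    calc S⁻¹ * (P * (1 - D + D * P)⁻¹) * S
        = S⁻¹ * (P * (S * S⁻¹) * (1 - D + D * P)⁻¹) * S := by rw [hSS, Matrix.mul_one]
      _ = _ := by simp only [Matrix.mul_assoc]
  have e2 : S⁻¹ * (1 - D + D * P)⁻¹ * S =
      (1 + (S⁻¹ * D * S) * (S⁻¹ * (P - D) * S))⁻¹ := by
    rw [← hE S d hS]
    symm
    apply Matrix.inv_eq_left_inv
    calc S⁻¹ * (1 - D + D * P)⁻¹ * S * (S⁻¹ * (1 - D + D * P) * S)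
        = S⁻¹ * ((1 - D + D * P)⁻¹ * (S * S⁻¹) * (1 - D + D * P)) * S := by
          simp only [Matrix.mul_assoc]
      _ = 1 := by
          rw [hSS, Matrix.mul_one, Matrix.nonsing_inv_mul _ hBu, Matrix.mul_one, hSS']
  have hP1 : ∀ i j, ‖(S⁻¹ * P * S) i j‖ ≤ 1 + C1 := by
    intro i j
    have e3 : S⁻¹ * P * S = S⁻¹ * D * S + S⁻¹ * (P - D) * S := by
      rw [← Matrix.add_mul, ← Matrix.mul_add]
      congr 2
      abel
    rw [e3, Matrix.add_apply]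
    refine (norm_add_le _ _).trans (add_le_add ?_ ((hbd S d hS i j).trans hC1ε'))
    rw [hdiag S d hS, Matrix.diagonal_apply]
    split_ifs <;> simp
  rw [e1, e2]
  exact mul_entries hP1 (small_inv _ (hEb S d hS)).2 a b

theorem RW_self {n : ℕ} (V : PolVHS n) (N : Matrix (Fin n) (Fin n) ℂ) (p : ℤ) {z₀ : ℂ}
    (hz : 0 < z₀.im) : RW V N p z₀ z₀ = PiV V p z₀ := by
  have hDD : PiV V p z₀ * PiV V p z₀ = PiV V p z₀ := by
    unfold PiV
    rw [dif_pos hz]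
    exact prj_idem _ _
  have hPW : PW V N p z₀ z₀ = PiV V p z₀ := by
    unfold PW
    rw [sub_self, neg_zero, uexp_zero, Matrix.one_mul, Matrix.mul_one]
  unfold RW
  rw [hPW, hDD, sub_add_cancel, inv_one, Matrix.mul_one]

theorem oblique_unique {n : ℕ} {P P' D R R' : Matrix (Fin n) (Fin n) ℂ}
    (h2 : P * R = R) (h3 : D * R = D) (h1' : R' * P' = P') (h4' : R' * D = R')
    (hPP' : P' * P = P) : R = R' := by
  have e1 : R' * R = R := by
    calc R' * R = R' * (P' * P * R) := by rw [hPP', h2]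
      _ = (R' * P') * P * R := by simp only [Matrix.mul_assoc]
      _ = R := by rw [h1', hPP', h2]
  have e2 : R' * R = R' := by
    calc R' * R = (R' * D) * R := by rw [h4']
      _ = R' * (D * R) := by rw [Matrix.mul_assoc]
      _ = R' := by rw [h3, h4']
  rw [← e1, e2]

end MP2794d1
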