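import Pool.Agent.Lib.MP_2794d1_ag.Base
import Pool.Agent.Lib.MP_2794d1_ag.B01

/-!
F01: local holomorphic projector. From a frame W near z0 choose (B01) f with det ((W z0).submatrix f id) ≠ 0; near z0 the
determinant stays nonzero; P z = W z * (W z).submatrix f id)⁻¹ * R where R is the r × n matrix selecting the rows f
(R x = x ∘ f), so that W_f⁻¹ R W = 1. P is idempotent with range the range of W, and its entries are analytic (the
inverse is det⁻¹ • adjugate).
-/

namespace MP2794d1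

open Matrix Complex Filter Topology

theorem f01_det {m : Type*} [Fintype m] [DecidableEq m] {A : ℂ → Matrix m m ℂ} {z₀ : ℂ}
    (h : ∀ i j, AnalyticAt ℂ (fun z => A z i j) z₀) : AnalyticAt ℂ (fun z => (A z).det) z₀ := by
  simp only [Matrix.det_apply']
  exact Finset.analyticAt_fun_sum _ fun σ _ =>
    analyticAt_const.mul (Finset.analyticAt_fun_prod _ fun i _ => h _ _)

theorem f01_mul {l m k : Type*} [Fintype m] {A : ℂ → Matrix l m ℂ} {B : ℂ → Matrix m k ℂ}
    {z₀ : ℂ} (hA : ∀ i j, AnalyticAt ℂ (fun z => A z i j) z₀)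
    (hB : ∀ i j, AnalyticAt ℂ (fun z => B z i j) z₀) :
    ∀ i j, AnalyticAt ℂ (fun z => (A z * B z) i j) z₀ := by
  intro i j
  simp only [Matrix.mul_apply]
  exact Finset.analyticAt_fun_sum _ fun k _ => (hA i k).mul (hB k j)

theorem f01_inv {m : Type*} [Fintype m] [DecidableEq m] {A : ℂ → Matrix m m ℂ} {z₀ : ℂ}
    (h : ∀ i j, AnalyticAt ℂ (fun z => A z i j) z₀) (hdet : (A z₀).det ≠ 0) :
    ∀ i j, AnalyticAt ℂ (fun z => (A z)⁻¹ i j) z₀ := by
  intro i j
  have h1 : (fun z => (A z)⁻¹ i j) = fun z => (A z).det⁻¹ * (A z).adjugate i j := by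
    funext z
    rw [Matrix.inv_def, Matrix.smul_apply, Ring.inverse_eq_inv', smul_eq_mul]
  rw [h1]
  refine ((f01_det h).inv hdet).mul ?_
  simp only [Matrix.adjugate_apply]
  refine f01_det ?_
  intro a b
  by_cases ha : a = j
  · subst ha
    simp only [Matrix.updateRow_self]
    exact analyticAt_const
  · simp only [Matrix.updateRow_ne ha]
    exact h a b

theorem HolAt.proj {n : ℕ} {F : ℂ → Submodule ℂ (Fin n → ℂ)} {z₀ : ℂ} (h : HolAt F z₀) :
    ∃ P : ℂ → Matrix (Fin n) (Fin n) ℂ, (∀ i j, AnalyticAt ℂ (fun z => P z i j) z₀) ∧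
      ∀ᶠ z in 𝓝 z₀, P z * P z = P z ∧ F z = LinearMap.range (P z).mulVecLin := by
  obtain ⟨r, W, hW, hev⟩ := h
  obtain ⟨f, hf⟩ := exists_minor_ne (W z₀) hev.self_of_nhds.1
  set R : Matrix (Fin r) (Fin n) ℂ := (1 : Matrix (Fin n) (Fin n) ℂ).submatrix f id with hR
  have hRW : ∀ z, R * W z = (W z).submatrix f id := by
    intro z
    ext i j
    simp [hR, Matrix.mul_apply, Matrix.one_apply]
  have hAan : ∀ i j, AnalyticAt ℂ (fun z => (W z).submatrix f id i j) z₀ := fun i j => hW _ _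
  have hdet : ((W z₀).submatrix f id).det ≠ 0 := hf
  refine ⟨fun z => W z * ((W z).submatrix f id)⁻¹ * R, ?_, ?_⟩
  · refine f01_mul (f01_mul hW (f01_inv hAan hdet)) ?_
    intro i j
    exact analyticAt_const
  · have hne : ∀ᶠ z in 𝓝 z₀, ((W z).submatrix f id).det ≠ 0 :=
      (f01_det hAan).continuousAt.eventually_ne hdet
    filter_upwards [hne, hev] with z hz1 hz2
    have hu : IsUnit ((W z).submatrix f id).det := isUnit_iff_ne_zero.2 hz1
    have key : W z * ((W z).submatrix f id)⁻¹ * R * W z = W z := by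
      rw [Matrix.mul_assoc (W z * _) R (W z), hRW z, Matrix.mul_assoc,
        Matrix.nonsing_inv_mul _ hu, Matrix.mul_one]
    constructor
    · calc W z * ((W z).submatrix f id)⁻¹ * R * (W z * ((W z).submatrix f id)⁻¹ * R)
          = (W z * ((W z).submatrix f id)⁻¹ * R * W z) * (((W z).submatrix f id)⁻¹ * R) := by
            simp only [Matrix.mul_assoc]
        _ = W z * ((W z).submatrix f id)⁻¹ * R := by
            rw [key, Matrix.mul_assoc]
    · rw [hz2.2]
      apply le_antisymm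
      · rintro _ ⟨y, rfl⟩
        refine ⟨W z *ᵥ y, ?_⟩
        rw [Matrix.mulVecLin_apply, Matrix.mulVec_mulVec, key, Matrix.mulVecLin_apply]
      · rintro _ ⟨y, rfl⟩
        refine ⟨(((W z).submatrix f id)⁻¹ * R) *ᵥ y, ?_⟩
        rw [Matrix.mulVecLin_apply, Matrix.mulVec_mulVec, Matrix.mulVecLin_apply,
          Matrix.mul_assoc]

theorem proj_mem_iff {n : ℕ} {P : Matrix (Fin n) (Fin n) ℂ} (hP : P * P = P) (x : Fin n → ℂ) :
    x ∈ LinearMap.range P.mulVecLin ↔ P *ᵥ x = x := by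
  constructor
  · rintro ⟨y, rfl⟩
    rw [Matrix.mulVecLin_apply, Matrix.mulVec_mulVec, hP]
  · intro h
    exact ⟨x, h⟩

/-- X maps the range of P into the range of P' iff (1 - P') X P = 0. -/
theorem proj_map_iff {n : ℕ} {P P' : Matrix (Fin n) (Fin n) ℂ} (hP : P * P = P)
    (hP' : P' * P' = P') (X : Matrix (Fin n) (Fin n) ℂ) :
    (∀ x ∈ LinearMap.range P.mulVecLin, X *ᵥ x ∈ LinearMap.range P'.mulVecLin) ↔
      (1 - P') * X * P = 0 := by
  constructor
  · intro h
    have h1 : ∀ y, ((1 - P') * X * P) *ᵥ y = 0 := by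
      intro y
      have h2 := h (P *ᵥ y) ⟨y, rfl⟩
      rw [proj_mem_iff hP'] at h2
      have h3 : ((1 - P') * X * P) *ᵥ y = (1 - P') *ᵥ (X *ᵥ (P *ᵥ y)) := by
        simp only [Matrix.mulVec_mulVec, Matrix.mul_assoc]
      rw [h3, Matrix.sub_mulVec, Matrix.one_mulVec, h2, sub_self]
    ext i j
    have h4 := congrFun (h1 (Pi.single j 1)) i
    rw [Matrix.mulVec_single_one] at h4
    exact h4
  · rintro h _ ⟨y, rfl⟩
    rw [proj_mem_iff hP', Matrix.mulVecLin_apply]
    have h3 : ((1 - P') * X * P) *ᵥ y = (1 - P') *ᵥ (X *ᵥ (P *ᵥ y)) := by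
      simp only [Matrix.mulVec_mulVec, Matrix.mul_assoc]
    rw [h, Matrix.zero_mulVec, Matrix.sub_mulVec, Matrix.one_mulVec] at h3
    exact (sub_eq_zero.1 h3.symm).symm

end MP2794d1
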