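import Pool.Agent.Lib.MP_2794d1_ag.P04
import Pool.Agent.Lib.MP_2794d1_ag.F01

/-!
P05: RW is holomorphic in z on the disc and 1-periodic. Holomorphic at z₁ (‖z₁ - z₀‖ < ε y, im z₁ > 0 as ε ≤ 1/2): take the
frame W of V.hol p z₁ (n × r, analytic, independent columns, F p z = range (W z) near z₁), Ŵ z = uexp N (-(z - z₀)) * W z, whose
range is the image of P = PW; let Λ be an r × n matrix with Λ * D = Λ (D = PiV V p z₀) and Λ * Ŵ z₁ invertible: since D is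
injective on the image of R(z₁) (if R x = x and D x = 0 then x = R x = R D x = 0), the r columns of D Ŵ z₁
are independent, choose a left inverse L of D Ŵ z₁ and Λ = L D. Then for z near z₁ the matrix Λ Ŵ z is invertible and
R' = Ŵ (Λ Ŵ)⁻¹ Λ is analytic (f01_inv, f01_mul) and equals RW: for z near z₁ RW satisfies the identities of RW_props;
Λ R = Λ D R = Λ D = Λ, so R' R = Ŵ(ΛŴ)⁻¹Λ R = R'; and R = P R has its columns in the range of Ŵ, R = Ŵ C, so
R' R = Ŵ(ΛŴ)⁻¹ΛŴ C = Ŵ C = R. So R = R'. Periodicity: the image of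
PW(z₀, z+1) is uexp N (-(z+1-z₀)) F^p_(z+1) = uexp N(-(z-z₀)) F^p_z (F_shift), so P P' = P', P' P = P (PW_mem, PW_idem) and
oblique_unique applies.
-/

namespace MP2794d1

open Matrix Complex Filter Topology
open scoped ContDiff

theorem P05_uexp_an {n : ℕ} (N : Matrix (Fin n) (Fin n) ℂ) {f : ℂ → ℂ} {z : ℂ}
    (hf : AnalyticAt ℂ f z) (i j : Fin n) : AnalyticAt ℂ (fun y => uexp N (f y) i j) z := by
  have e : (fun y => uexp N (f y) i j) =
      fun y => ∑ k ∈ Finset.range n, (f y ^ k / (k.factorial : ℂ)) * (N ^ k) i j := by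
    funext y
    unfold uexp
    rw [Matrix.sum_apply]
    refine Finset.sum_congr rfl fun k _ => ?_
    rw [Matrix.smul_apply, smul_eq_mul]
  rw [e]
  refine Finset.analyticAt_fun_sum _ fun k _ => ?_
  exact ((hf.pow k).div_const).mul analyticAt_const

theorem P05_mat_eq {n : ℕ} {A B : Matrix (Fin n) (Fin n) ℂ}
    (h : ∀ x, A *ᵥ (B *ᵥ x) = B *ᵥ x) : A * B = B := by
  ext i j
  have h1 := congrFun (h (Pi.single j 1)) i
  rw [Matrix.mulVec_mulVec, Matrix.mulVec_single_one, Matrix.mulVec_single_one] at h1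
  exact h1

/-- the algebra of the analytic formula for the oblique projector -/
theorem P05_alg {n : ℕ} {P D R₁ : Matrix (Fin n) (Fin n) ℂ} (hP : P * P = P)
    (h1 : R₁ * R₁ = R₁) (h2 : D * R₁ = D) (h3 : R₁ * D = R₁)
    (hdet : IsUnit (1 - R₁ + R₁ * P).det) :
    P * (P * (1 - R₁ + R₁ * P)⁻¹ * R₁) = P * (1 - R₁ + R₁ * P)⁻¹ * R₁ ∧
    D * (P * (1 - R₁ + R₁ * P)⁻¹ * R₁) = D ∧
    P * (1 - R₁ + R₁ * P)⁻¹ * R₁ * D = P * (1 - R₁ + R₁ * P)⁻¹ * R₁ := by
  have hinv := Matrix.mul_nonsing_inv _ hdet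
  refine ⟨?_, ?_, ?_⟩
  · rw [← Matrix.mul_assoc, ← Matrix.mul_assoc, hP]
  · have e1 : R₁ * (1 - R₁ + R₁ * P) = R₁ * P := by
      rw [Matrix.mul_add, Matrix.mul_sub, Matrix.mul_one, h1, ← Matrix.mul_assoc, h1]
      simp
    have e2 : R₁ * P * (1 - R₁ + R₁ * P)⁻¹ = R₁ := by
      calc R₁ * P * (1 - R₁ + R₁ * P)⁻¹
          = R₁ * ((1 - R₁ + R₁ * P) * (1 - R₁ + R₁ * P)⁻¹) := by rw [← Matrix.mul_assoc, e1]
        _ = R₁ := by rw [hinv, Matrix.mul_one]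
    calc D * (P * (1 - R₁ + R₁ * P)⁻¹ * R₁)
        = (D * R₁) * (P * (1 - R₁ + R₁ * P)⁻¹ * R₁) := by rw [h2]
      _ = D * (R₁ * P * (1 - R₁ + R₁ * P)⁻¹) * R₁ := by simp only [Matrix.mul_assoc]
      _ = D := by rw [e2, Matrix.mul_assoc, h1, h2]
  · rw [Matrix.mul_assoc, h3]

theorem P05_det {n : ℕ} {P R₁ : Matrix (Fin n) (Fin n) ℂ} (hP : P * P = P)
    (h1 : R₁ * R₁ = R₁) (h2 : R₁ * P = P) (h3 : P * R₁ = R₁) :
    IsUnit (1 - R₁ + R₁ * P).det := by
  have e : (1 - R₁ + R₁ * P) * (1 - P + R₁) = 1 := by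
    rw [h2]
    have : (1 - R₁ + P) * (1 - P + R₁) =
        1 - P + R₁ - R₁ + R₁ * P - R₁ * R₁ + P - P * P + P * R₁ := by noncomm_ring
    rw [this, h2, h1, hP, h3]
    abel
  have h := congrArg Matrix.det e
  rw [Matrix.det_mul, Matrix.det_one] at h
  exact IsUnit.of_mul_eq_one _ h

theorem RW_analytic {n : ℕ} (V : PolVHS n) (c : UCusp V) : ∃ ε C Y : ℝ, 0 < ε ∧ ε ≤ 1 / 2 ∧
    0 ≤ C ∧ 1 ≤ Y ∧ ∀ z₀ z : ℂ, Y ≤ z₀.im → ‖z - z₀‖ < ε * z₀.im → ∀ p : ℤ,
      (∀ i j, AnalyticAt ℂ (fun y => RW V (cm c.N) p z₀ y i j) z) ∧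
      (‖z + 1 - z₀‖ < ε * z₀.im → RW V (cm c.N) p z₀ (z + 1) = RW V (cm c.N) p z₀ z) ∧
      (∀ (S : Matrix (Fin n) (Fin n) ℂ) (d : Fin n → ℤ),
        Adapted V.wt V.Q (fun p => V.F p z₀) S d → ∀ a b,
          ‖(S⁻¹ * RW V (cm c.N) p z₀ z * S) a b‖ ≤ C) := by
  obtain ⟨ε, C, Y, hε, hε2, hC, hY, hprops⟩ := RW_props V c
  refine ⟨ε, C, Y, hε, hε2, hC, hY, fun z₀ z hz₀ hz p => ?_⟩
  have hy : 0 < z₀.im := by linarith
  have hN : cm c.N ^ n = 0 := cm_pow c.N c.nil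
  have him : ∀ w : ℂ, ‖w - z₀‖ < ε * z₀.im → 0 < w.im := by
    intro w hw
    have h1 : |(w - z₀).im| ≤ ‖w - z₀‖ := Complex.abs_im_le_norm _
    have h2 : ε * z₀.im ≤ 1 / 2 * z₀.im := by gcongr
    rw [Complex.sub_im] at h1
    have h3 := (abs_le.1 h1).1
    linarith
  have hzim := him z hz
  obtain ⟨r1, r2, r3, r4, r5, r6⟩ := hprops z₀ z hz₀ hz.le p
  refine ⟨?_, ?_, r6⟩
  · -- analyticity
    obtain ⟨P, hPan, hPev⟩ := (V.hol p z hzim).proj
    obtain ⟨R₁, hR₁⟩ : ∃ R₁, R₁ = RW V (cm c.N) p z₀ z := ⟨_, rfl⟩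
    rw [← hR₁] at r1 r2 r3 r4 r5
    obtain ⟨Ph, hPh⟩ : ∃ Ph : ℂ → Matrix (Fin n) (Fin n) ℂ,
        Ph = fun y => uexp (cm c.N) (-(y - z₀)) * P y * uexp (cm c.N) (y - z₀) := ⟨_, rfl⟩
    have hPhan : ∀ i j, AnalyticAt ℂ (fun y => Ph y i j) z := by
      rw [hPh]
      refine f01_mul (f01_mul (fun i j => P05_uexp_an _ ?_ i j) hPan)
        (fun i j => P05_uexp_an _ ?_ i j)
      · exact (analyticAt_id.sub analyticAt_const).neg
      · exact analyticAt_id.sub analyticAt_const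
    -- relations between the two projectors onto the same subspace
    have hrel : ∀ y : ℂ, 0 < y.im → P y * P y = P y ∧ V.F p y = LinearMap.range (P y).mulVecLin →
        Ph y * Ph y = Ph y ∧ PW V (cm c.N) p z₀ y * Ph y = Ph y ∧
        Ph y * PW V (cm c.N) p z₀ y = PW V (cm c.N) p z₀ y := by
      intro y hyim hPy
      have hinv := (P03_inv (cm c.N) hN (y - z₀)).1
      have hPi1 : PiV V p y * P y = P y := by
        refine P05_mat_eq fun x => ?_
        rw [← PiV_mem V hyim, hPy.2]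
        exact ⟨x, rfl⟩
      have hPi2 : P y * PiV V p y = PiV V p y := by
        refine P05_mat_eq fun x => ?_
        rw [← proj_mem_iff hPy.1, ← hPy.2, PiV_mem V hyim, Matrix.mulVec_mulVec,
          (PiV_mul_of_le V hyim (le_refl p)).1]
      have hgen : ∀ A B : Matrix (Fin n) (Fin n) ℂ, A * B = B →
          (uexp (cm c.N) (-(y - z₀)) * A * uexp (cm c.N) (y - z₀)) *
            (uexp (cm c.N) (-(y - z₀)) * B * uexp (cm c.N) (y - z₀)) =
          uexp (cm c.N) (-(y - z₀)) * B * uexp (cm c.N) (y - z₀) := by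
        intro A B hAB
        calc (uexp (cm c.N) (-(y - z₀)) * A * uexp (cm c.N) (y - z₀)) *
            (uexp (cm c.N) (-(y - z₀)) * B * uexp (cm c.N) (y - z₀))
            = uexp (cm c.N) (-(y - z₀)) * A * (uexp (cm c.N) (y - z₀) *
              uexp (cm c.N) (-(y - z₀))) * B * uexp (cm c.N) (y - z₀) := by
              simp only [Matrix.mul_assoc]
          _ = uexp (cm c.N) (-(y - z₀)) * (A * B) * uexp (cm c.N) (y - z₀) := by
              rw [hinv, Matrix.mul_one]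
              simp only [Matrix.mul_assoc]
          _ = _ := by rw [hAB]
      rw [hPh]
      exact ⟨hgen _ _ hPy.1, hgen _ _ hPi1, hgen _ _ hPi2⟩
    obtain ⟨q1, q2, q3⟩ := hrel z hzim hPev.self_of_nhds
    have hRP : R₁ * Ph z = Ph z := by
      rw [← q2, ← Matrix.mul_assoc, r2]
    have hPR : Ph z * R₁ = R₁ := by
      rw [← r3, ← Matrix.mul_assoc, q3]
    have hdet : IsUnit (1 - R₁ + R₁ * Ph z).det := P05_det q1 r1 hRP hPR
    have hBan : ∀ i j, AnalyticAt ℂ (fun y => (1 - R₁ + R₁ * Ph y) i j) z := by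
      have h1 : ∀ i j, AnalyticAt ℂ (fun y => (R₁ * Ph y) i j) z :=
        f01_mul (fun i j => analyticAt_const) hPhan
      intro i j
      exact analyticAt_const.add (h1 i j)
    have hRan : ∀ i j, AnalyticAt ℂ (fun y => (Ph y * (1 - R₁ + R₁ * Ph y)⁻¹ * R₁) i j) z :=
      f01_mul (f01_mul hPhan (f01_inv hBan (isUnit_iff_ne_zero.1 hdet)))
        (fun i j => analyticAt_const)
    have hev1 : ∀ᶠ y in 𝓝 z, (1 - R₁ + R₁ * Ph y).det ≠ 0 :=
      (f01_det hBan).continuousAt.eventually_ne (isUnit_iff_ne_zero.1 hdet)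
    have hev2 : ∀ᶠ y in 𝓝 z, ‖y - z₀‖ < ε * z₀.im := by
      have hc : ContinuousAt (fun y : ℂ => ‖y - z₀‖) z := by fun_prop
      exact hc.eventually_lt continuousAt_const hz
    have hev : ∀ᶠ y in 𝓝 z, RW V (cm c.N) p z₀ y = Ph y * (1 - R₁ + R₁ * Ph y)⁻¹ * R₁ := by
      filter_upwards [hev1, hev2, hPev] with y hy1 hy2 hy3
      obtain ⟨t1, t2, t3⟩ := hrel y (him y hy2) hy3
      obtain ⟨s1, s2, s3, s4, s5, -⟩ := hprops z₀ y hz₀ hy2.le p
      obtain ⟨a1, a2, a3⟩ := P05_alg t1 r1 r4 r5 (isUnit_iff_ne_zero.2 hy1)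
      exact (oblique_unique a1 a2 s2 s5 t2).symm
    intro i j
    refine (hRan i j).congr ?_
    filter_upwards [hev] with y hy
    rw [hy]
  · -- periodicity
    intro hz1
    have hz1im := him (z + 1) hz1
    obtain ⟨s1, s2, s3, s4, s5, -⟩ := hprops z₀ (z + 1) hz₀ hz1.le p
    refine (oblique_unique r3 r4 s2 s5 ?_).symm
    refine P05_mat_eq fun x => ?_
    rw [PW_mem V _ hN p hz1im]
    have h1 : PW V (cm c.N) p z₀ z *ᵥ x ∈ (V.F p z).map (uexp (cm c.N) (-(z - z₀))).mulVecLin := by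
      rw [← PW_mem V _ hN p hzim, Matrix.mulVec_mulVec, PW_idem V _ hN p hzim]
    have h2 := F_shift V c 1 p z hzim
    rw [Nat.cast_one] at h2
    rw [h2, ← Submodule.map_comp, ← Matrix.mulVecLin_mul, ← uexp_add _ hN]
    have h3 : -(z + 1 - z₀) + 1 = -(z - z₀) := by ring
    rw [h3]
    exact h1

end MP2794d1
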