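import Pool.Agent.Lib.MP_2794d1_ag.Defs

/-! Auxiliary definitions for the proof. -/

namespace MP2794d1

open Matrix Complex Filter Topology

/-- `F^k End`: matrices mapping `Fl p` into `Fl (p + k)` for all `p`. -/
def FEnd {n : ℕ} (Fl : ℤ → Submodule ℂ (Fin n → ℂ)) (k : ℤ) :
    Submodule ℂ (Matrix (Fin n) (Fin n) ℂ) where
  carrier := {X | ∀ p, ∀ x ∈ Fl p, X *ᵥ x ∈ Fl (p + k)}
  add_mem' := by
    intro a b ha hb p x hx
    rw [Matrix.add_mulVec]
    exact (Fl (p + k)).add_mem (ha p x hx) (hb p x hx)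
  zero_mem' := by
    intro p x _
    rw [Matrix.zero_mulVec]
    exact (Fl (p + k)).zero_mem
  smul_mem' := by
    intro c X hX p x hx
    rw [Matrix.smul_mulVec]
    exact (Fl (p + k)).smul_mem c (hX p x hx)

/-- grading of an abstract Hodge structure -/
def IsGr {n : ℕ} (wt : ℤ) (Fl : ℤ → Submodule ℂ (Fin n → ℂ)) (μ : Matrix (Fin n) (Fin n) ℂ) :
    Prop :=
  ∀ p : ℤ, ∀ x ∈ Fl p ⊓ conjSub (Fl (wt - p)), μ *ᵥ x = (p : ℂ) • x

/-- infinitesimal isometries of `Q` -/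
def Skew {n : ℕ} (Q : Matrix (Fin n) (Fin n) ℤ) (X : Matrix (Fin n) (Fin n) ℂ) : Prop :=
  Xᵀ * im Q + im Q * X = 0

/-- entrywise complex conjugate -/
noncomputable def mconj {n : ℕ} (X : Matrix (Fin n) (Fin n) ℂ) : Matrix (Fin n) (Fin n) ℂ :=
  X.map (starRingEnd ℂ)

/-- commutator -/
def br {n : ℕ} (X Y : Matrix (Fin n) (Fin n) ℂ) : Matrix (Fin n) (Fin n) ℂ := X * Y - Y * X

/-- `exp (2πiz)` -/
noncomputable def qq (z : ℂ) : ℂ := Complex.exp (2 * Real.pi * Complex.I * z)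

/-- maximal minors of an `n × r` matrix, indexed by all functions `Fin r → Fin n` -/
noncomputable def minor {n r : ℕ} (W : Matrix (Fin n) (Fin r) ℂ) (f : Fin r → Fin n) : ℂ :=
  (W.submatrix f id).det

/-- the `r`-th tensor power of a matrix -/
noncomputable def tens {n : ℕ} (r : ℕ) (A : Matrix (Fin n) (Fin n) ℂ) :
    Matrix (Fin r → Fin n) (Fin r → Fin n) ℂ :=
  Matrix.of fun f g => ∏ i, A (f i) (g i)

/-- A polynomial one-parameter group with rational coefficients. -/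
structure PolyGroup (ι : Type) [Fintype ι] [DecidableEq ι] where
  P : Matrix ι ι (Polynomial ℚ)
  zero' : P.map (fun p => Polynomial.aeval (0 : ℂ) p) = 1
  add' : ∀ s t : ℂ, P.map (fun p => Polynomial.aeval (s + t) p) =
    P.map (fun p => Polynomial.aeval s p) * P.map (fun p => Polynomial.aeval t p)

/-- value of a polynomial one-parameter group -/
noncomputable def PolyGroup.E {ι : Type} [Fintype ι] [DecidableEq ι] (G : PolyGroup ι) (s : ℂ) :
    Matrix ι ι ℂ := G.P.map (fun p => Polynomial.aeval s p)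

/-- A family of complex numbers `x i` such that, up to a fixed positive integer factor, `x i` is an
eigenvalue of an integral matrix of fixed size with entries at most `C * H i ^ C`. -/
def AlgFam {I : Type} (H : I → ℝ) (x : I → ℂ) : Prop :=
  ∃ (κ : Type) (_ : Fintype κ) (C m : ℕ), 0 < m ∧
    ∀ i, ∃ (A : Matrix κ κ ℤ) (w : κ → ℂ), w ≠ 0 ∧
      (A.map (fun q : ℤ => (q : ℂ))) *ᵥ w = ((m : ℂ) * x i) • w ∧
      ∀ a b, |(A a b : ℝ)| ≤ C * H i ^ C

/-- Functions of the form `z ↦ ∑ z^i h_i(exp(2πiz))`, a finite sum with `h_i` analytic at `0`. -/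
def Zfun (f : ℂ → ℂ) : Prop :=
  ∃ (K : ℕ) (h : ℕ → ℂ → ℂ), (∀ i, AnalyticAt ℂ (h i) 0) ∧
    ∀ z, f z = ∑ i ∈ Finset.range K, z ^ i * h i (qq z)

/-- Homogenised value `b^D p(-a/b)` of a polynomial of degree at most `D`. -/
noncomputable def homP (D : ℕ) (p : Polynomial ℚ) {S : Type} [CommRing S] [Algebra ℚ S]
    (a b : S) : S :=
  ∑ l ∈ Finset.range (D + 1), algebraMap ℚ S (p.coeff l) * (-a) ^ l * b ^ (D - l)

/-- The velocity of the Hodge filtration at `z` is `c • N` (modulo `F^0`). -/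
def Vel {n : ℕ} (V : PolVHS n) (N : Matrix (Fin n) (Fin n) ℂ) (z c : ℂ) : Prop :=
  ∀ p : ℤ, ∀ s : ℂ → (Fin n → ℂ), (∀ i, AnalyticAt ℂ (fun y => s y i) z) →
    (∀ᶠ y in 𝓝 z, s y ∈ V.F p y) →
    (fun i => deriv (fun y => s y i) z) - c • (N *ᵥ s z) ∈ V.F p z

/-- The matrix `K_w = N' + Re(w) L + α |w|^2 N`. -/
noncomputable def Kmat {n : ℕ} (N N' L : Matrix (Fin n) (Fin n) ℂ) (α : ℝ) (w : ℂ) :
    Matrix (Fin n) (Fin n) ℂ :=
  N' + ((w.re : ℝ) : ℂ) • L + ((α * Complex.normSq w : ℝ) : ℂ) • N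

/-- The matrix `h_w = (i / (2 α Im w)) K_w`. -/
noncomputable def hmat {n : ℕ} (N N' L : Matrix (Fin n) (Fin n) ℂ) (α : ℝ) (w : ℂ) :
    Matrix (Fin n) (Fin n) ℂ :=
  (Complex.I / ((2 * α * w.im : ℝ) : ℂ)) • Kmat N N' L α w

end MP2794d1
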