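import Pool.Agent.Lib.MP_2794d1_ag.Base

/-!
C01. For fixed s the polynomial vectors t ↦ E t (E s v) and t ↦ E (t + s) v agree. Comparing the coefficients of t^d
and t^(d-1), d the degree of the polynomial vector E s v, gives two rows (of the coefficient matrices of G.P) with the
required property.
-/

namespace MP2794d1

open Matrix Complex Filter Topology

/-- the polynomial `t ↦ (E t w) f` -/
noncomputable def C01_Q {ι : Type} [Fintype ι] [DecidableEq ι] (G : PolyGroup ι) (w : ι → ℂ)
    (f : ι) : Polynomial ℂ :=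
  ∑ j, Polynomial.C (w j) * (G.P f j).map (algebraMap ℚ ℂ)

theorem C01_eval {ι : Type} [Fintype ι] [DecidableEq ι] (G : PolyGroup ι) (w : ι → ℂ)
    (f : ι) (t : ℂ) : (C01_Q G w f).eval t = (G.E t *ᵥ w) f := by
  unfold C01_Q PolyGroup.E
  rw [Polynomial.eval_finset_sum]
  simp only [Polynomial.eval_mul, Polynomial.eval_C, Polynomial.eval_map, mulVec, dotProduct,
    Matrix.map_apply, Polynomial.aeval_def]
  exact Finset.sum_congr rfl fun j _ => mul_comm _ _

theorem C01_coeff {ι : Type} [Fintype ι] [DecidableEq ι] (G : PolyGroup ι) (w : ι → ℂ)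
    (f : ι) (k : ℕ) : (C01_Q G w f).coeff k = ∑ j, (((G.P f j).coeff k : ℚ) : ℂ) * w j := by
  unfold C01_Q
  rw [Polynomial.finset_sum_coeff]
  refine Finset.sum_congr rfl fun j _ => ?_
  rw [Polynomial.coeff_C_mul, Polynomial.coeff_map]
  simp [mul_comm]

theorem C01_taylor {ι : Type} [Fintype ι] [DecidableEq ι] (G : PolyGroup ι) (v : ι → ℂ)
    (f : ι) (s : ℂ) : C01_Q G (G.E s *ᵥ v) f = Polynomial.taylor s (C01_Q G v f) := by
  apply Polynomial.funext
  intro t
  rw [C01_eval, Polynomial.taylor_eval, C01_eval]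
  have h := G.add' t s
  rw [Matrix.mulVec_mulVec]
  unfold PolyGroup.E
  rw [← h]

theorem lin_functional {ι : Type} [Fintype ι] [DecidableEq ι] (G : PolyGroup ι) (v : ι → ℂ)
    (h : ∃ s, G.E s *ᵥ v ≠ v) :
    ∃ (l0 l1 : ι → ℚ) (l k : ℂ), l ≠ 0 ∧ ∀ s, (∑ i, (l0 i : ℂ) * (G.E s *ᵥ v) i) = l ∧
      (∑ i, (l1 i : ℂ) * (G.E s *ᵥ v) i) = l * s + k := by
  classical
  obtain ⟨s0, hs0⟩ := h
  set d : ℕ := Finset.univ.sup (fun f => (C01_Q G v f).natDegree) with hd
  have hle : ∀ f, (C01_Q G v f).natDegree ≤ d := fun f =>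
    Finset.le_sup (f := fun f => (C01_Q G v f).natDegree) (Finset.mem_univ f)
  have hE0 : G.E 0 *ᵥ v = v := by
    have := G.zero'
    unfold PolyGroup.E
    rw [this, Matrix.one_mulVec]
  have hd1 : 1 ≤ d := by
    by_contra hcon
    apply hs0
    funext f
    have h0 : (C01_Q G v f).natDegree = 0 := by
      have := hle f; omega
    rw [← C01_eval, Polynomial.eq_C_of_natDegree_eq_zero h0, Polynomial.eval_C]
    have h1 : (C01_Q G v f).coeff 0 = (C01_Q G v f).eval 0 := Polynomial.coeff_zero_eq_eval_zero _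
    rw [h1, C01_eval, hE0]
  have hne : (Finset.univ : Finset ι).Nonempty := by
    by_contra hcon
    rw [Finset.not_nonempty_iff_eq_empty] at hcon
    rw [hcon] at hd
    simp at hd
    omega
  obtain ⟨f, _, hf⟩ := Finset.exists_mem_eq_sup Finset.univ hne
    (fun f => (C01_Q G v f).natDegree)
  rw [← hd] at hf
  have hlead : (C01_Q G v f).coeff d ≠ 0 := by
    rw [hf]
    have hne0 : C01_Q G v f ≠ 0 := by
      intro h0
      rw [h0] at hf
      simp at hf
      omega
    exact Polynomial.leadingCoeff_ne_zero.2 hne0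
  refine ⟨fun j => (d : ℚ) * (G.P f j).coeff d, fun j => (G.P f j).coeff (d - 1),
    d * (C01_Q G v f).coeff d, (C01_Q G v f).coeff (d - 1), ?_, fun s => ⟨?_, ?_⟩⟩
  · exact mul_ne_zero (by exact_mod_cast (by omega : d ≠ 0)) hlead
  · have h1 : (C01_Q G (G.E s *ᵥ v) f).coeff d = (C01_Q G v f).coeff d := by
      rw [C01_taylor, Polynomial.taylor_coeff]
      have h2 : Polynomial.hasseDeriv d (C01_Q G v f) = Polynomial.C ((C01_Q G v f).coeff d) := by
        ext k
        rw [Polynomial.hasseDeriv_coeff, Polynomial.coeff_C]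
        split_ifs with hk
        · subst hk; simp
        · rw [Polynomial.coeff_eq_zero_of_natDegree_lt (by rw [← hf]; omega), mul_zero]
      rw [h2, Polynomial.eval_C]
    rw [← h1, C01_coeff, Finset.mul_sum]
    refine Finset.sum_congr rfl fun j _ => ?_
    push_cast
    ring
  · have h1 : (C01_Q G (G.E s *ᵥ v) f).coeff (d - 1) =
        (C01_Q G v f).coeff (d - 1) + d * (C01_Q G v f).coeff d * s := by
      rw [C01_taylor, Polynomial.taylor_coeff]
      have h2 : Polynomial.hasseDeriv (d - 1) (C01_Q G v f) =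
          Polynomial.C ((C01_Q G v f).coeff (d - 1)) +
            Polynomial.C (d * (C01_Q G v f).coeff d) * Polynomial.X := by
        ext k
        rw [Polynomial.hasseDeriv_coeff, Polynomial.coeff_add, Polynomial.coeff_C,
          Polynomial.coeff_C_mul, Polynomial.coeff_X]
        rcases k with _ | _ | k
        · simp
        · simp only [zero_add, if_neg one_ne_zero, if_true, mul_one]
          have h3 : 1 + (d - 1) = d := by omega
          rw [h3]
          have h4 : d.choose (d - 1) = d := by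
            rw [Nat.choose_symm_of_eq_add (b := 1) (by omega : d = (d - 1) + 1)]
            simp
          rw [h4]
        · rw [Polynomial.coeff_eq_zero_of_natDegree_lt (by rw [← hf]; omega)]
          simp
      rw [h2]
      simp
    have h5 : (∑ i, (((G.P f i).coeff (d - 1) : ℚ) : ℂ) * (G.E s *ᵥ v) i) =
        (C01_Q G (G.E s *ᵥ v) f).coeff (d - 1) := (C01_coeff _ _ _ _).symm
    rw [h5, h1]
    ring

end MP2794d1
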