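import Pool.Agent.Lib.MP_2794d1_ag.Base

/-!
C02: closure properties of Zfun. For products use ∑_{i<K} ∑_{j<K'} z^(i+j) h_i h'_j and collect by i + j
(h''_m = ∑_{i+j=m}), or prove first that a finite sum of functions z^i * h (qq z) is Zfun by induction.
-/

namespace MP2794d1

open Matrix Complex Filter Topology

theorem Zfun.zero : Zfun (fun _ => 0) :=
  ⟨0, fun _ _ => 0, fun _ => analyticAt_const, fun z => by simp⟩

theorem C02_mono (i : ℕ) (h : ℂ → ℂ) (hh : AnalyticAt ℂ h 0) :
    Zfun (fun z => z ^ i * h (qq z)) := by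
  refine ⟨i + 1, fun j => if j = i then h else fun _ => 0, ?_, ?_⟩
  · intro j
    by_cases hj : j = i
    · simp only [hj, if_true]; exact hh
    · simp only [hj, if_false]; exact analyticAt_const
  · intro z
    rw [Finset.sum_eq_single i]
    · simp
    · intro b _ hb
      simp [hb]
    · intro hi
      exact absurd (Finset.mem_range.mpr (Nat.lt_succ_self i)) hi

theorem C02_ext {f : ℂ → ℂ} (hf : Zfun f) : ∃ (K : ℕ) (h : ℕ → ℂ → ℂ),
    (∀ i, AnalyticAt ℂ (h i) 0) ∧
    ∀ K', K ≤ K' → ∀ z, f z = ∑ i ∈ Finset.range K', z ^ i * h i (qq z) := by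
  obtain ⟨K, h, hh, hfz⟩ := hf
  refine ⟨K, fun i => if i < K then h i else fun _ => 0, ?_, ?_⟩
  · intro i
    by_cases hi : i < K
    · simp only [hi, if_true]; exact hh i
    · simp only [hi, if_false]; exact analyticAt_const
  · intro K' hK' z
    rw [hfz z]
    rw [← Finset.sum_subset (Finset.range_subset_range.mpr hK')]
    · apply Finset.sum_congr rfl
      intro i hi
      rw [Finset.mem_range] at hi
      simp [hi]
    · intro i _ hi
      rw [Finset.mem_range] at hi
      simp [hi]

theorem Zfun.const (c : ℂ) : Zfun (fun _ => c) := by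
  have h := C02_mono 0 (fun _ => c) analyticAt_const
  simpa using h

theorem Zfun.id : Zfun (fun z => z) := by
  have h := C02_mono 1 (fun _ => 1) analyticAt_const
  simpa using h

theorem Zfun.hol (h : ℂ → ℂ) (hh : AnalyticAt ℂ h 0) : Zfun (fun z => h (qq z)) := by
  have h := C02_mono 0 h hh
  simpa using h

theorem Zfun.add {f g : ℂ → ℂ} (hf : Zfun f) (hg : Zfun g) : Zfun (fun z => f z + g z) := by
  obtain ⟨K, h, hh, hfz⟩ := C02_ext hf
  obtain ⟨K', h', hh', hgz⟩ := C02_ext hg
  refine ⟨max K K', fun i => h i + h' i, fun i => (hh i).add (hh' i), ?_⟩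
  intro z
  show f z + g z = _
  rw [hfz (max K K') (le_max_left _ _) z, hgz (max K K') (le_max_right _ _) z,
    ← Finset.sum_add_distrib]
  apply Finset.sum_congr rfl
  intro i _
  show z ^ i * h i (qq z) + z ^ i * h' i (qq z) = z ^ i * (h i (qq z) + h' i (qq z))
  ring

theorem Zfun.sum {ι : Type} (s : Finset ι) (f : ι → ℂ → ℂ) (hf : ∀ i ∈ s, Zfun (f i)) :
    Zfun (fun z => ∑ i ∈ s, f i z) := by
  classical
  induction s using Finset.induction_on with
  | empty => simpa using Zfun.zero
  | insert a s ha ih =>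
    have h1 : Zfun (f a) := hf a (Finset.mem_insert_self a s)
    have h2 := ih (fun i hi => hf i (Finset.mem_insert_of_mem hi))
    have h3 := Zfun.add h1 h2
    have h4 : (fun z => ∑ i ∈ insert a s, f i z) = fun z => f a z + ∑ i ∈ s, f i z := by
      funext z
      rw [Finset.sum_insert ha]
    rw [h4]
    exact h3

theorem Zfun.mul {f g : ℂ → ℂ} (hf : Zfun f) (hg : Zfun g) : Zfun (fun z => f z * g z) := by
  obtain ⟨K, h, hh, hfz⟩ := hf
  obtain ⟨K', h', hh', hgz⟩ := hg
  have h1 : (fun z => f z * g z) = fun z => ∑ i ∈ Finset.range K, ∑ j ∈ Finset.range K',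
      z ^ (i + j) * (fun q => h i q * h' j q) (qq z) := by
    funext z
    rw [hfz z, hgz z, Finset.sum_mul_sum]
    apply Finset.sum_congr rfl
    intro i _
    apply Finset.sum_congr rfl
    intro j _
    show _ = z ^ (i + j) * (h i (qq z) * h' j (qq z))
    rw [pow_add]; ring
  rw [h1]
  apply Zfun.sum (Finset.range K)
    (fun i z => ∑ j ∈ Finset.range K', z ^ (i + j) * (fun q => h i q * h' j q) (qq z))
  intro i _
  apply Zfun.sum (Finset.range K')
    (fun j z => z ^ (i + j) * (fun q => h i q * h' j q) (qq z))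
  intro j _
  exact C02_mono (i + j) (fun q => h i q * h' j q) ((hh i).mul (hh' j))

theorem Zfun.pow {f : ℂ → ℂ} (hf : Zfun f) (k : ℕ) : Zfun (fun z => f z ^ k) := by
  induction k with
  | zero => simpa using Zfun.const 1
  | succ k ih =>
    have h := Zfun.mul ih hf
    have h4 : (fun z => f z ^ (k + 1)) = fun z => f z ^ k * f z := by
      funext z; rw [pow_succ]
    rw [h4]
    exact h

end MP2794d1
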