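import Pool.Agent.Lib.MP_2794d1_ag.Base

/-!
C03 (Lemma Z). Let f z = ∑_{i<K} z^i h_i(q), q = qq z. If all h_i vanish identically near 0, then f z = 0 for im z large
(|qq z| = exp(-2π im z)). Otherwise let m be the least order of vanishing at 0 among the h_i (AnalyticAt.order /
analyticOrderAt; finite), h_i = q^m g_i(q) near 0 with g_i analytic at 0, not all g_i(0) zero. Then for im z large
f z / q^m = ∑ z^i g_i(q) = p(z) + E, p = ∑ g_i(0) z^i a nonzero polynomial and |E| ≤ K * C * (1+|z|)^K |q| → 0 along the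
sequence z k (|re| ≤ 1, im → ∞), whereas |p(z k)| is bounded below by a positive constant for large k (a nonzero
polynomial tends to infinity or is a nonzero constant). So f (z k) ≠ 0 for large k, a contradiction.
-/

namespace MP2794d1

open Matrix Complex Filter Topology

theorem C03_norm (z : ℂ) : ‖qq z‖ = Real.exp (-(2 * Real.pi * z.im)) := by
  unfold qq
  rw [Complex.norm_exp]
  congr 1
  simp

theorem C03_tendsto {z : ℕ → ℂ} (hre : ∀ k, |(z k).re| ≤ 1)
    (him : Tendsto (fun k => (z k).im) atTop atTop) (i : ℕ) :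
    Tendsto (fun k => ‖z k‖ ^ i * ‖qq (z k)‖) atTop (𝓝 0) := by
  have h1 : Tendsto (fun y : ℝ => Real.exp 1 * (y ^ i * Real.exp (-y))) atTop (𝓝 0) := by
    have := (Real.tendsto_pow_mul_exp_neg_atTop_nhds_zero i).const_mul (Real.exp 1)
    simpa using this
  have h2 : Tendsto (fun k => 1 + (z k).im) atTop atTop :=
    tendsto_atTop_add_const_left _ _ him
  have h3 := h1.comp h2
  refine squeeze_zero' (Eventually.of_forall fun k => by positivity) ?_ h3
  filter_upwards [him.eventually_ge_atTop 0] with k hk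
  simp only [Function.comp_apply]
  have hz : ‖z k‖ ≤ 1 + (z k).im := by
    refine (Complex.norm_le_abs_re_add_abs_im _).trans ?_
    rw [abs_of_nonneg hk]
    linarith [hre k]
  rw [C03_norm]
  have he : Real.exp (-(2 * Real.pi * (z k).im)) ≤ Real.exp 1 * Real.exp (-(1 + (z k).im)) := by
    rw [← Real.exp_add, Real.exp_le_exp]
    have := Real.pi_gt_three
    nlinarith
  calc ‖z k‖ ^ i * Real.exp (-(2 * Real.pi * (z k).im))
      ≤ (1 + (z k).im) ^ i * (Real.exp 1 * Real.exp (-(1 + (z k).im))) := by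
        apply mul_le_mul (pow_le_pow_left₀ (norm_nonneg _) hz i) he (Real.exp_pos _).le
        positivity
    _ = Real.exp 1 * ((1 + (z k).im) ^ i * Real.exp (-(1 + (z k).im))) := by ring

theorem lemmaZ {f : ℂ → ℂ} (hf : Zfun f) (z : ℕ → ℂ) (hre : ∀ k, |(z k).re| ≤ 1)
    (him : Tendsto (fun k => (z k).im) atTop atTop) (h0 : ∀ᶠ k in atTop, f (z k) = 0) :
    ∃ a : ℝ, ∀ y : ℂ, a < y.im → f y = 0 := by
  classical
  obtain ⟨K, h, hh, hfz⟩ := hf
  by_cases hall : ∀ i ∈ Finset.range K, ∀ᶠ q in 𝓝 (0 : ℂ), h i q = 0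
  · have h1 : ∀ᶠ q in 𝓝 (0 : ℂ), ∀ i ∈ Finset.range K, h i q = 0 :=
      (Finset.eventually_all _).2 hall
    obtain ⟨r, hr, h2⟩ := Metric.eventually_nhds_iff.1 h1
    -- `exp (- 2 π a) < r` for large `a`
    refine ⟨max 0 (-Real.log r), fun y hy => ?_⟩
    rw [hfz]
    apply Finset.sum_eq_zero
    intro i hi
    have hlt : dist (qq y) 0 < r := by
      rw [dist_zero_right, C03_norm]
      have hy0 : 0 < y.im := lt_of_le_of_lt (le_max_left _ _) hy
      have hy1 : -Real.log r < y.im := lt_of_le_of_lt (le_max_right _ _) hy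
      have h3 : Real.exp (-(2 * Real.pi * y.im)) ≤ Real.exp (-y.im) := by
        rw [Real.exp_le_exp]
        have := Real.pi_gt_three
        nlinarith
      refine h3.trans_lt ?_
      rw [← Real.lt_log_iff_exp_lt hr]
      linarith
    rw [h2 hlt i hi, mul_zero]
  · -- some `h i` is not locally zero
    push Not at hall
    set S : Finset ℕ := (Finset.range K).filter (fun i => analyticOrderAt (h i) 0 ≠ ⊤) with hS
    have hSne : S.Nonempty := by
      obtain ⟨i, hi, hne⟩ := hall
      refine ⟨i, Finset.mem_filter.2 ⟨hi, fun htop => ?_⟩⟩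
      rw [analyticOrderAt_eq_top] at htop
      exact hne (htop.mono fun x hx => not_not.2 hx)
    obtain ⟨i0, hi0, hmin⟩ := Finset.exists_min_image S (fun i => analyticOrderAt (h i) 0) hSne
    have hi0' := Finset.mem_filter.1 hi0
    obtain ⟨m, hm⟩ := ENat.ne_top_iff_exists.1 hi0'.2
    have hle : ∀ i ∈ Finset.range K, (m : ℕ∞) ≤ analyticOrderAt (h i) 0 := by
      intro i hi
      by_cases htop : analyticOrderAt (h i) 0 = ⊤
      · rw [htop]; exact le_top
      · rw [hm]
        exact hmin i (Finset.mem_filter.2 ⟨hi, htop⟩)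
    have hex : ∀ i, ∃ g : ℂ → ℂ, i ∈ Finset.range K → AnalyticAt ℂ g 0 ∧
        (∀ᶠ q in 𝓝 (0 : ℂ), h i q = q ^ m * g q) ∧ (i = i0 → g 0 ≠ 0) := by
      intro i
      by_cases hi : i ∈ Finset.range K
      · by_cases hii : i = i0
        · obtain ⟨g, hg, hg0, hgm⟩ := ((hh i).analyticOrderAt_eq_natCast (n := m)).1
            (by rw [hii]; exact hm.symm)
          exact ⟨g, fun _ => ⟨hg, by simpa using hgm, fun _ => hg0⟩⟩
        · obtain ⟨g, hg, hgm⟩ := (natCast_le_analyticOrderAt (hh i)).1 (hle i hi)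
          exact ⟨g, fun _ => ⟨hg, by simpa using hgm, fun h => absurd h hii⟩⟩
      · exact ⟨0, fun h => absurd h hi⟩
    choose g hg using hex
    -- the points `qq (z k)` tend to zero
    have hq : Tendsto (fun k => qq (z k)) atTop (𝓝 0) := by
      rw [tendsto_zero_iff_norm_tendsto_zero]
      simpa using C03_tendsto hre him 0
    have hfac : ∀ᶠ k in atTop, ∀ i ∈ Finset.range K, h i (qq (z k)) = qq (z k) ^ m * g i (qq (z k)) :=
      (Finset.eventually_all _).2 fun i hi => hq.eventually (hg i hi).2.1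
    have hsum : ∀ᶠ k in atTop, ∑ i ∈ Finset.range K, z k ^ i * g i (qq (z k)) = 0 := by
      filter_upwards [hfac, h0] with k hk1 hk2
      rw [hfz] at hk2
      have h4 : ∑ i ∈ Finset.range K, z k ^ i * h i (qq (z k)) =
          qq (z k) ^ m * ∑ i ∈ Finset.range K, z k ^ i * g i (qq (z k)) := by
        rw [Finset.mul_sum]
        refine Finset.sum_congr rfl fun i hi => ?_
        rw [hk1 i hi]; ring
      rw [h4] at hk2
      rcases mul_eq_zero.1 hk2 with h5 | h5
      · exact absurd h5 (pow_ne_zero _ (Complex.exp_ne_zero _))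
      · exact h5
    have herr : ∀ i ∈ Finset.range K,
        Tendsto (fun k => z k ^ i * (g i 0 - g i (qq (z k)))) atTop (𝓝 0) := by
      intro i hi
      obtain ⟨c, hc⟩ := (hg i hi).1.differentiableAt.isBigO_sub.bound
      have h6 : Tendsto (fun k => c * (‖z k‖ ^ i * ‖qq (z k)‖)) atTop (𝓝 0) := by
        simpa using (C03_tendsto hre him i).const_mul c
      refine squeeze_zero_norm' ?_ h6
      filter_upwards [hq.eventually hc] with k hk
      rw [norm_mul, norm_pow, norm_sub_rev]
      rw [sub_zero] at hk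
      calc ‖z k‖ ^ i * ‖g i (qq (z k)) - g i 0‖ ≤ ‖z k‖ ^ i * (c * ‖qq (z k)‖) :=
            mul_le_mul_of_nonneg_left hk (by positivity)
        _ = c * (‖z k‖ ^ i * ‖qq (z k)‖) := by ring
    set p : Polynomial ℂ := ∑ i ∈ Finset.range K, Polynomial.C (g i 0) * Polynomial.X ^ i with hp
    have heval : Tendsto (fun k => p.eval (z k)) atTop (𝓝 0) := by
      have h7 : Tendsto (fun k => ∑ i ∈ Finset.range K, z k ^ i * (g i 0 - g i (qq (z k))))
          atTop (𝓝 (∑ i ∈ Finset.range K, (0 : ℂ))) := tendsto_finset_sum _ herr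
      rw [Finset.sum_const_zero] at h7
      refine h7.congr' ?_
      filter_upwards [hsum] with k hk
      rw [hp, Polynomial.eval_finset_sum]
      simp only [Polynomial.eval_mul, Polynomial.eval_C, Polynomial.eval_pow, Polynomial.eval_X,
        mul_sub, Finset.sum_sub_distrib, hk, sub_zero]
      exact Finset.sum_congr rfl fun i _ => mul_comm _ _
    have hcoeff : p.coeff i0 = g i0 0 := by
      rw [hp, Polynomial.finset_sum_coeff]
      simp only [Polynomial.coeff_C_mul, Polynomial.coeff_X_pow]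
      rw [Finset.sum_eq_single i0]
      · simp
      · intro b _ hb
        rw [if_neg (Ne.symm hb), mul_zero]
      · intro hno
        exact absurd hi0'.1 hno
    have hg0 : g i0 0 ≠ 0 := (hg i0 hi0'.1).2.2 rfl
    exfalso
    rcases lt_or_ge 0 p.degree with hdeg | hdeg
    · have hz : Tendsto (fun k => ‖z k‖) atTop atTop :=
        tendsto_atTop_mono (fun k => (le_abs_self _).trans (Complex.abs_im_le_norm (z k))) him
      exact not_tendsto_nhds_of_tendsto_atTop (p.tendsto_norm_atTop hdeg hz) _ heval.norm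
    · rw [Polynomial.eq_C_of_degree_le_zero hdeg] at heval hcoeff
      simp only [Polynomial.eval_C] at heval
      have h8 : p.coeff 0 = 0 := tendsto_nhds_unique tendsto_const_nhds heval
      rw [h8] at hcoeff
      simp at hcoeff
      exact hg0 hcoeff.symm

end MP2794d1
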