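import Pool.Agent.Lib.MP_2794d1_ag.Base

/-!
C04: h_i is analytic on a ball of radius ε around 0 (finitely many i: a common ε > 0); |qq y| = exp(-2π im y) < ε for
im y large; composition of analytic functions.
-/

namespace MP2794d1

open Matrix Complex Filter Topology

private theorem C04_norm_qq (y : ℂ) : ‖qq y‖ = Real.exp (-(2 * Real.pi * y.im)) := by
  unfold qq
  rw [Complex.norm_exp]
  congr 1
  simp

theorem Zfun.analytic {f : ℂ → ℂ} (hf : Zfun f) :
    ∃ a : ℝ, ∀ y : ℂ, a < y.im → AnalyticAt ℂ f y := by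
  obtain ⟨K, h, hh, hfe⟩ := hf
  have h1 : ∀ᶠ q in 𝓝 (0 : ℂ), ∀ i ∈ Finset.range K, AnalyticAt ℂ (h i) q := by
    rw [Filter.eventually_all_finset]
    intro i _
    exact (hh i).eventually_analyticAt
  obtain ⟨ε, hε, hb⟩ := Metric.eventually_nhds_iff.mp h1
  refine ⟨-(Real.log ε) / (2 * Real.pi), fun y hy => ?_⟩
  have hpi : 0 < 2 * Real.pi := by positivity
  have hq : ‖qq y‖ < ε := by
    rw [C04_norm_qq]
    rw [div_lt_iff₀ hpi] at hy
    calc Real.exp (-(2 * Real.pi * y.im)) < Real.exp (Real.log ε) := by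
          apply Real.exp_lt_exp.mpr
          linarith
      _ = ε := Real.exp_log hε
  have hdist : dist (qq y) 0 < ε := by
    rw [dist_zero_right]
    exact hq
  have hall := hb hdist
  have hfun : f = fun z => ∑ i ∈ Finset.range K, z ^ i * h i (qq z) := funext hfe
  rw [hfun]
  apply Finset.analyticAt_fun_sum
  intro i hi
  have hqa : AnalyticAt ℂ qq y := by
    unfold qq
    fun_prop
  exact (analyticAt_id.pow i).mul ((hall i hi).comp_of_eq hqa rfl)

end MP2794d1
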