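import Pool.Agent.Lib.MP_2794d1_ag.Base

/-!
C05: Mh is analytic at 0, so |Mh q i - Mh 0 i| ≤ K1 |q| for |q| ≤ ε; the entries of G.E z are polynomials in z, so they
are ≤ K2 (1 + |z|)^D; |q| = exp(-2π im z), |z| ≤ 1 + im z, and (2 + T)^D exp(-2πT) ≤ K3 exp(-T).
-/

namespace MP2794d1

open Matrix Complex Filter Topology

theorem C05_norm (z : ℂ) : ‖qq z‖ = Real.exp (-(2 * Real.pi * z.im)) := by
  unfold qq
  rw [Complex.norm_exp]
  congr 1
  simp

theorem C05_poly (p : Polynomial ℚ) :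
    ∃ C : ℝ, 0 ≤ C ∧ ∀ z : ℂ, ‖Polynomial.aeval z p‖ ≤ C * (1 + ‖z‖) ^ p.natDegree := by
  refine ⟨∑ k ∈ Finset.range (p.natDegree + 1), ‖((p.coeff k : ℚ) : ℂ)‖,
    Finset.sum_nonneg fun _ _ => norm_nonneg _, fun z => ?_⟩
  rw [Polynomial.aeval_eq_sum_range, Finset.sum_mul]
  refine (norm_sum_le _ _).trans (Finset.sum_le_sum fun k hk => ?_)
  rw [Algebra.smul_def, norm_mul, norm_pow]
  have h1 : ‖(algebraMap ℚ ℂ) (p.coeff k)‖ = ‖((p.coeff k : ℚ) : ℂ)‖ := rfl
  rw [h1]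
  apply mul_le_mul_of_nonneg_left _ (norm_nonneg _)
  calc ‖z‖ ^ k ≤ (1 + ‖z‖) ^ k := pow_le_pow_left₀ (norm_nonneg _) (by linarith [norm_nonneg z]) k
    _ ≤ (1 + ‖z‖) ^ p.natDegree :=
        pow_le_pow_right₀ (by linarith [norm_nonneg z]) (by
          have := Finset.mem_range.1 hk; omega)

theorem C05_one (p : Polynomial ℚ) (h : ℂ → ℂ) (hh : AnalyticAt ℂ h 0) :
    ∃ a K : ℝ, 0 ≤ K ∧ ∀ z : ℂ, |z.re| ≤ 1 → a < z.im →
      ‖Polynomial.aeval z p * (h (qq z) - h 0)‖ ≤ K * Real.exp (-z.im) := by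
  obtain ⟨C, hC0, hC⟩ := C05_poly p
  obtain ⟨c, hc0, hc⟩ := hh.differentiableAt.isBigO_sub.exists_nonneg
  obtain ⟨r, hr, h2⟩ := Metric.eventually_nhds_iff.1 hc.bound
  refine ⟨max 0 (-Real.log r), C * (p.natDegree.factorial * Real.exp 2) * c, by positivity,
    fun z hre him => ?_⟩
  have hy0 : 0 < z.im := lt_of_le_of_lt (le_max_left _ _) him
  have hy1 : -Real.log r < z.im := lt_of_le_of_lt (le_max_right _ _) him
  have hpi := Real.pi_gt_three
  have hlt : dist (qq z) 0 < r := by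
    rw [dist_zero_right, C05_norm]
    have h3 : Real.exp (-(2 * Real.pi * z.im)) ≤ Real.exp (-z.im) := by
      rw [Real.exp_le_exp]
      nlinarith
    refine h3.trans_lt ?_
    rw [← Real.lt_log_iff_exp_lt hr]
    linarith
  have h4 := h2 hlt
  rw [sub_zero, C05_norm] at h4
  have hz : ‖z‖ ≤ 1 + z.im := by
    refine (Complex.norm_le_abs_re_add_abs_im _).trans ?_
    rw [abs_of_nonneg hy0.le]
    linarith
  have h5 : (1 + ‖z‖) ^ p.natDegree ≤ p.natDegree.factorial * Real.exp (2 + z.im) := by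
    have h6 := Real.pow_div_factorial_le_exp (2 + z.im) (by linarith) p.natDegree
    rw [div_le_iff₀ (by positivity)] at h6
    calc (1 + ‖z‖) ^ p.natDegree ≤ (2 + z.im) ^ p.natDegree :=
          pow_le_pow_left₀ (by positivity) (by linarith) _
      _ ≤ p.natDegree.factorial * Real.exp (2 + z.im) := by linarith
  have h7 : Real.exp (2 + z.im) * Real.exp (-(2 * Real.pi * z.im)) ≤
      Real.exp 2 * Real.exp (-z.im) := by
    rw [← Real.exp_add, ← Real.exp_add, Real.exp_le_exp]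
    nlinarith
  rw [norm_mul]
  calc ‖Polynomial.aeval z p‖ * ‖h (qq z) - h 0‖
      ≤ (C * (p.natDegree.factorial * Real.exp (2 + z.im))) *
          (c * Real.exp (-(2 * Real.pi * z.im))) := by
        apply mul_le_mul ((hC z).trans (mul_le_mul_of_nonneg_left h5 hC0)) h4 (norm_nonneg _)
        positivity
    _ = C * p.natDegree.factorial * c *
          (Real.exp (2 + z.im) * Real.exp (-(2 * Real.pi * z.im))) := by ring
    _ ≤ C * p.natDegree.factorial * c * (Real.exp 2 * Real.exp (-z.im)) :=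
        mul_le_mul_of_nonneg_left h7 (by positivity)
    _ = C * (p.natDegree.factorial * Real.exp 2) * c * Real.exp (-z.im) := by ring

theorem asym {ι : Type} [Fintype ι] [DecidableEq ι] (G : PolyGroup ι) (Mh : ℂ → ι → ℂ)
    (hM : ∀ i, AnalyticAt ℂ (fun q => Mh q i) 0) :
    ∃ a K : ℝ, 0 ≤ K ∧ ∀ z : ℂ, |z.re| ≤ 1 → a < z.im → ∀ i,
      ‖(G.E z *ᵥ Mh (qq z)) i - (G.E z *ᵥ Mh 0) i‖ ≤ K * Real.exp (-z.im) := by
  choose a K hK h using fun (i j : ι) => C05_one (G.P i j) (fun q => Mh q j) (hM j)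
  refine ⟨∑ i, ∑ j, |a i j|, ∑ i, ∑ j, K i j,
    Finset.sum_nonneg fun i _ => Finset.sum_nonneg fun j _ => hK i j, fun z hre him i => ?_⟩
  have h1 : (G.E z *ᵥ Mh (qq z)) i - (G.E z *ᵥ Mh 0) i =
      ∑ j, Polynomial.aeval z (G.P i j) * (Mh (qq z) j - Mh 0 j) := by
    simp only [PolyGroup.E, mulVec, dotProduct, Matrix.map_apply, mul_sub, Finset.sum_sub_distrib]
  rw [h1]
  calc ‖∑ j, Polynomial.aeval z (G.P i j) * (Mh (qq z) j - Mh 0 j)‖
      ≤ ∑ j, K i j * Real.exp (-z.im) := by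
        refine (norm_sum_le _ _).trans (Finset.sum_le_sum fun j _ => h i j z hre ?_)
        refine lt_of_le_of_lt ?_ him
        calc a i j ≤ |a i j| := le_abs_self _
          _ ≤ ∑ j, |a i j| := Finset.single_le_sum (f := fun j => |a i j|)
              (fun j _ => abs_nonneg _) (Finset.mem_univ j)
          _ ≤ ∑ i, ∑ j, |a i j| := Finset.single_le_sum (f := fun i => ∑ j, |a i j|)
              (fun i _ => Finset.sum_nonneg fun j _ => abs_nonneg _) (Finset.mem_univ i)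
    _ = (∑ j, K i j) * Real.exp (-z.im) := by rw [Finset.sum_mul]
    _ ≤ (∑ i, ∑ j, K i j) * Real.exp (-z.im) :=
        mul_le_mul_of_nonneg_right (Finset.single_le_sum (f := fun i => ∑ j, K i j)
          (fun i _ => Finset.sum_nonneg fun j _ => hK i j) (Finset.mem_univ i))
          (Real.exp_pos _).le

end MP2794d1
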