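import Pool.Agent.Lib.MP_2794d1_ag.C05

/-!
C06 (clock): by C05 the numerator is l z + k + O(exp(-im z)) and the denominator is l + O(exp(-im z)) (rational
combinations of finitely many entries), so the quotient is z + k/l + O((1 + |z|) exp(-im z)), and
(2 + T) exp(-T) ≤ K exp(-T/2).
-/

namespace MP2794d1

open Matrix Complex Filter Topology

theorem C06_comb {ι : Type} [Fintype ι] (c : ι → ℚ) (u v : ι → ℂ) {B : ℝ}
    (h : ∀ i, ‖u i - v i‖ ≤ B) :
    ‖(∑ i, (c i : ℂ) * u i) - ∑ i, (c i : ℂ) * v i‖ ≤ (∑ i, ‖(c i : ℂ)‖) * B := by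
  rw [← Finset.sum_sub_distrib, Finset.sum_mul]
  refine (norm_sum_le _ _).trans (Finset.sum_le_sum fun i _ => ?_)
  rw [← mul_sub, norm_mul]
  exact mul_le_mul_of_nonneg_left (h i) (norm_nonneg _)

theorem clock {ι : Type} [Fintype ι] [DecidableEq ι] (G : PolyGroup ι) (Mh : ℂ → ι → ℂ)
    (hM : ∀ i, AnalyticAt ℂ (fun q => Mh q i) 0) (l0 l1 : ι → ℚ) (l k : ℂ) (hl : l ≠ 0)
    (h0 : ∀ s, (∑ i, (l0 i : ℂ) * (G.E s *ᵥ Mh 0) i) = l)
    (h1 : ∀ s, (∑ i, (l1 i : ℂ) * (G.E s *ᵥ Mh 0) i) = l * s + k) :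
    ∃ a K : ℝ, 0 ≤ K ∧ ∀ z : ℂ, |z.re| ≤ 1 → a < z.im →
      (∑ i, (l0 i : ℂ) * (G.E z *ᵥ Mh (qq z)) i) ≠ 0 ∧
      ‖(∑ i, (l1 i : ℂ) * (G.E z *ᵥ Mh (qq z)) i) / (∑ i, (l0 i : ℂ) * (G.E z *ᵥ Mh (qq z)) i)
        - z - k / l‖ ≤ K * Real.exp (-z.im / 2) := by
  obtain ⟨a, K, hK, h⟩ := asym G Mh hM
  set A : ℝ := (∑ i, ‖(l1 i : ℂ)‖) * K with hA
  set B : ℝ := (∑ i, ‖(l0 i : ℂ)‖) * K with hB
  have hA0 : 0 ≤ A := mul_nonneg (Finset.sum_nonneg fun _ _ => norm_nonneg _) hK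
  have hB0 : 0 ≤ B := mul_nonneg (Finset.sum_nonneg fun _ _ => norm_nonneg _) hK
  have hl0 : 0 < ‖l‖ := norm_pos_iff.2 hl
  refine ⟨max (max a 0) (2 * B / ‖l‖), (A + (3 + ‖k / l‖) * B) / (‖l‖ / 2), by positivity,
    fun z hre him => ?_⟩
  have hm := max_lt_iff.1 him
  have hm2 := max_lt_iff.1 hm.1
  have hy0 : 0 < z.im := hm2.2
  set N : ℂ := ∑ i, (l1 i : ℂ) * (G.E z *ᵥ Mh (qq z)) i with hN
  set D : ℂ := ∑ i, (l0 i : ℂ) * (G.E z *ᵥ Mh (qq z)) i with hD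
  have hN1 : ‖N - (l * z + k)‖ ≤ A * Real.exp (-z.im) := by
    rw [← h1 z, hA, mul_assoc]
    exact C06_comb l1 _ _ (h z hre hm2.1)
  have hD1 : ‖D - l‖ ≤ B * Real.exp (-z.im) := by
    have h3 := C06_comb l0 _ _ (h z hre hm2.1)
    rw [h0 z] at h3
    rw [hB, mul_assoc]
    exact h3
  -- the denominator is at least `|l| / 2`
  have hexp : Real.exp (-z.im) * z.im ≤ 1 := by
    have h4 := Real.add_one_le_exp z.im
    rw [Real.exp_neg, inv_mul_le_iff₀ (Real.exp_pos _)]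
    linarith
  have hD2 : ‖D - l‖ ≤ ‖l‖ / 2 := by
    have h5 : 2 * B < ‖l‖ * z.im := by
      have := hm.2
      rw [div_lt_iff₀ hl0] at this
      linarith
    have h6 : B * Real.exp (-z.im) ≤ ‖l‖ / 2 := by
      have h7 : 2 * B * Real.exp (-z.im) ≤ ‖l‖ * z.im * Real.exp (-z.im) :=
        mul_le_mul_of_nonneg_right h5.le (Real.exp_pos _).le
      have h8 : ‖l‖ * (Real.exp (-z.im) * z.im) ≤ ‖l‖ * 1 :=
        mul_le_mul_of_nonneg_left hexp hl0.le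
      nlinarith
    exact hD1.trans h6
  have hD3 : ‖l‖ / 2 ≤ ‖D‖ := by
    have h9 : ‖l‖ ≤ ‖D‖ + ‖D - l‖ := by
      have := norm_sub_le D (D - l)
      rwa [sub_sub_cancel] at this
    linarith
  have hDne : D ≠ 0 := by
    intro h0
    rw [h0, norm_zero] at hD3
    linarith
  refine ⟨hDne, ?_⟩
  have hid : N / D - z - k / l = ((N - (l * z + k)) - (z + k / l) * (D - l)) / D := by
    field_simp
    ring
  rw [hid, norm_div, div_le_iff₀ (norm_pos_iff.2 hDne)]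
  have hz : ‖z‖ ≤ 1 + z.im := by
    refine (Complex.norm_le_abs_re_add_abs_im _).trans ?_
    rw [abs_of_nonneg hy0.le]
    linarith
  have he1 : Real.exp (-z.im) = Real.exp (-z.im / 2) * Real.exp (-z.im / 2) := by
    rw [← Real.exp_add]; congr 1; ring
  have he2 : Real.exp (-z.im / 2) ≤ 1 := by
    rw [Real.exp_le_one_iff]; linarith
  have he3 : z.im * Real.exp (-z.im / 2) ≤ 2 := by
    have h4 := Real.add_one_le_exp (z.im / 2)
    have h10 : -z.im / 2 = -(z.im / 2) := by ring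
    rw [h10, Real.exp_neg, mul_inv_le_iff₀ (Real.exp_pos _)]
    linarith
  have hp := Real.exp_pos (-z.im / 2)
  have hnum : ‖(N - (l * z + k)) - (z + k / l) * (D - l)‖ ≤
      (A + (3 + ‖k / l‖) * B) * Real.exp (-z.im / 2) := by
    calc ‖(N - (l * z + k)) - (z + k / l) * (D - l)‖
        ≤ ‖N - (l * z + k)‖ + ‖(z + k / l) * (D - l)‖ := norm_sub_le _ _
      _ ≤ A * Real.exp (-z.im) + (1 + z.im + ‖k / l‖) * (B * Real.exp (-z.im)) := by
          rw [norm_mul]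
          apply add_le_add hN1
          apply mul_le_mul _ hD1 (norm_nonneg _) (by positivity)
          exact (norm_add_le _ _).trans (by linarith)
      _ = A * Real.exp (-z.im / 2) * Real.exp (-z.im / 2) +
          (Real.exp (-z.im / 2) + z.im * Real.exp (-z.im / 2) + ‖k / l‖ * Real.exp (-z.im / 2)) *
            B * Real.exp (-z.im / 2) := by rw [he1]; ring
      _ ≤ A * 1 * Real.exp (-z.im / 2) + (1 + 2 + ‖k / l‖ * 1) * B * Real.exp (-z.im / 2) := by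
          gcongr
      _ = (A + (3 + ‖k / l‖) * B) * Real.exp (-z.im / 2) := by ring
  calc ‖(N - (l * z + k)) - (z + k / l) * (D - l)‖
      ≤ (A + (3 + ‖k / l‖) * B) * Real.exp (-z.im / 2) := hnum
    _ = (A + (3 + ‖k / l‖) * B) / (‖l‖ / 2) * Real.exp (-z.im / 2) * (‖l‖ / 2) := by
        field_simp
    _ ≤ (A + (3 + ‖k / l‖) * B) / (‖l‖ / 2) * Real.exp (-z.im / 2) * ‖D‖ := by
        apply mul_le_mul_of_nonneg_left hD3
        positivity

end MP2794d1
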