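import Pool.Agent.Lib.MP_2794d1_ag.Base

/-!
C07 (move): G.E (-x z) * G.E z = G.E (z - x z) (PolyGroup.add'), and z - x z = -c0 + O(exp(-im z/2)); the entries of
G.E are polynomials, hence Lipschitz on bounded sets; Mh (qq z) = Mh 0 + O(|qq z|) = Mh 0 + O(exp(-im z)).
-/

namespace MP2794d1

open Matrix Complex Filter Topology

theorem PolyGroup.E_add {ι : Type} [Fintype ι] [DecidableEq ι] (G : PolyGroup ι) (s t : ℂ) :
    G.E (s + t) = G.E s * G.E t := G.add' s t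

theorem PolyGroup.E_zero {ι : Type} [Fintype ι] [DecidableEq ι] (G : PolyGroup ι) :
    G.E 0 = 1 := G.zero'

/-- the filter of the strip -/
def C07_l : Filter ℂ := comap Complex.im atTop ⊓ 𝓟 {z | |z.re| ≤ 1}

theorem C07_ev {p : ℂ → Prop} :
    (∀ᶠ z in C07_l, p z) ↔ ∃ a : ℝ, ∀ z : ℂ, |z.re| ≤ 1 → a < z.im → p z := by
  unfold C07_l
  rw [eventually_inf_principal, eventually_comap, eventually_atTop]
  constructor
  · rintro ⟨a, ha⟩
    exact ⟨a, fun z hz hz' => ha z.im hz'.le z rfl hz⟩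
  · rintro ⟨a, ha⟩
    refine ⟨a + 1, fun b hb z hz hz' => ha z hz' ?_⟩
    rw [hz]; linarith

theorem C07_norm_qq (z : ℂ) : ‖qq z‖ = Real.exp (-(2 * Real.pi * z.im)) := by
  unfold qq
  rw [Complex.norm_exp]
  congr 1
  simp

theorem C07_exp_tendsto : Tendsto (fun z : ℂ => Real.exp (-z.im / 2)) C07_l (𝓝 0) := by
  have h1 : Tendsto (fun z : ℂ => z.im) C07_l atTop :=
    tendsto_comap.mono_left inf_le_left
  have h2 : Tendsto (fun t : ℝ => Real.exp (-t / 2)) atTop (𝓝 0) := by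
    apply Real.tendsto_exp_atBot.comp
    have : (fun t : ℝ => -t / 2) = fun t => -(t / 2) := by
      funext t; ring
    rw [this]
    exact tendsto_neg_atTop_atBot.comp (tendsto_id.atTop_div_const (by norm_num))
  exact h2.comp h1

theorem C07_qq_isBigO : (fun z => qq z) =O[C07_l] (fun z : ℂ => Real.exp (-z.im / 2)) := by
  apply Asymptotics.IsBigO.of_bound 1
  rw [C07_ev]
  refine ⟨0, fun z _ hz => ?_⟩
  rw [C07_norm_qq, one_mul, Real.norm_eq_abs, abs_of_pos (Real.exp_pos _)]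
  apply Real.exp_le_exp.mpr
  nlinarith [Real.pi_gt_three]

theorem move {ι : Type} [Fintype ι] [DecidableEq ι] (G : PolyGroup ι) (Mh : ℂ → ι → ℂ)
    (hM : ∀ i, AnalyticAt ℂ (fun q => Mh q i) 0) (x : ℂ → ℂ) (c0 : ℂ) (a0 K0 : ℝ)
    (hx : ∀ z : ℂ, |z.re| ≤ 1 → a0 < z.im → ‖x z - z - c0‖ ≤ K0 * Real.exp (-z.im / 2)) :
    ∃ a K : ℝ, 0 ≤ K ∧ ∀ z : ℂ, |z.re| ≤ 1 → a < z.im → ∀ i,
      ‖(G.E (-(x z)) *ᵥ (G.E z *ᵥ Mh (qq z))) i - (G.E (-c0) *ᵥ Mh 0) i‖ ≤
        K * Real.exp (-z.im / 2) := by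
  have hqq : Tendsto (fun z => qq z) C07_l (𝓝 0) := C07_qq_isBigO.trans_tendsto C07_exp_tendsto
  have hw0 : (fun z : ℂ => (z - x z) - (-c0)) =O[C07_l] (fun z : ℂ => Real.exp (-z.im / 2)) := by
    apply Asymptotics.IsBigO.of_bound |K0|
    rw [C07_ev]
    refine ⟨a0, fun z hz hz' => ?_⟩
    have h1 := hx z hz hz'
    have h2 : ‖(z - x z) - (-c0)‖ = ‖x z - z - c0‖ := by
      rw [← norm_neg]; congr 1; ring
    rw [h2, Real.norm_eq_abs, abs_of_pos (Real.exp_pos _)]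
    exact h1.trans (mul_le_mul_of_nonneg_right (le_abs_self _) (Real.exp_pos _).le)
  have hw : Tendsto (fun z : ℂ => z - x z) C07_l (𝓝 (-c0)) := by
    rw [tendsto_sub_nhds_zero_iff.symm]
    exact hw0.trans_tendsto C07_exp_tendsto
  have hE : ∀ i j, (fun z : ℂ => G.E (z - x z) i j - G.E (-c0) i j) =O[C07_l]
      (fun z : ℂ => Real.exp (-z.im / 2)) := by
    intro i j
    have h1 : DifferentiableAt ℂ (fun w : ℂ => Polynomial.aeval w (G.P i j)) (-c0) :=
      (Polynomial.differentiable_aeval (G.P i j)) (-c0)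
    have h2 := (h1.isBigO_sub.comp_tendsto hw).trans hw0
    exact h2
  have hMh : ∀ j, (fun z : ℂ => Mh (qq z) j - Mh 0 j) =O[C07_l]
      (fun z : ℂ => Real.exp (-z.im / 2)) := by
    intro j
    have h1 : DifferentiableAt ℂ (fun q : ℂ => Mh q j) 0 := (hM j).differentiableAt
    have h2 := h1.isBigO_sub.comp_tendsto hqq
    have h3 : ((fun q : ℂ => q - 0) ∘ fun z => qq z) = fun z => qq z := by
      funext z; simp
    rw [h3] at h2
    exact h2.trans C07_qq_isBigO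
  have hM1 : ∀ j, (fun z : ℂ => Mh (qq z) j) =O[C07_l] (fun _ : ℂ => (1 : ℝ)) := by
    intro j
    have h1 : Tendsto (fun z : ℂ => Mh (qq z) j) C07_l (𝓝 (Mh 0 j)) :=
      ((hM j).continuousAt.tendsto).comp hqq
    exact h1.isBigO_one ℝ
  have hprod : ∀ i j, (fun z : ℂ => G.E (z - x z) i j * Mh (qq z) j - G.E (-c0) i j * Mh 0 j)
      =O[C07_l] (fun z : ℂ => Real.exp (-z.im / 2)) := by
    intro i j
    have h1 := (hE i j).mul (hM1 j)
    have h2 := (hMh j).const_mul_left (G.E (-c0) i j)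
    have h3 : (fun z : ℂ => Real.exp (-z.im / 2) * (1 : ℝ)) =
        fun z : ℂ => Real.exp (-z.im / 2) := by
      funext z; rw [mul_one]
    rw [h3] at h1
    have h4 := h1.add h2
    refine h4.congr_left ?_
    intro z
    ring
  have hsum : ∀ i, (fun z : ℂ => (G.E (-(x z)) *ᵥ (G.E z *ᵥ Mh (qq z))) i -
      (G.E (-c0) *ᵥ Mh 0) i) =O[C07_l] (fun z : ℂ => Real.exp (-z.im / 2)) := by
    intro i
    have h1 : (fun z : ℂ => ∑ j, (G.E (z - x z) i j * Mh (qq z) j - G.E (-c0) i j * Mh 0 j))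
        =O[C07_l] (fun z : ℂ => Real.exp (-z.im / 2)) := by
      have h0 := Asymptotics.IsBigO.sum (s := Finset.univ) fun j _ => hprod i j
      refine h0.congr_left ?_
      intro z
      rw [Finset.sum_apply]
    refine h1.congr_left ?_
    intro z
    rw [Matrix.mulVec_mulVec, ← PolyGroup.E_add, Finset.sum_sub_distrib]
    have h2 : -(x z) + z = z - x z := by ring
    rw [h2]
    rfl
  choose c hc using fun i => (hsum i).bound
  have hall : ∀ᶠ z in C07_l, ∀ i, ‖(G.E (-(x z)) *ᵥ (G.E z *ᵥ Mh (qq z))) i -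
      (G.E (-c0) *ᵥ Mh 0) i‖ ≤ c i * ‖Real.exp (-z.im / 2)‖ := by
    rw [eventually_all]
    exact hc
  obtain ⟨a, ha⟩ := C07_ev.mp hall
  refine ⟨a, ∑ i, |c i|, Finset.sum_nonneg fun i _ => abs_nonneg _, fun z hz hz' i => ?_⟩
  refine (ha z hz hz' i).trans ?_
  rw [Real.norm_eq_abs, abs_of_pos (Real.exp_pos _)]
  apply mul_le_mul_of_nonneg_right _ (Real.exp_pos _).le
  exact (le_abs_self _).trans
    (Finset.single_le_sum (f := fun i => |c i|) (fun j _ => abs_nonneg _) (Finset.mem_univ i))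

end MP2794d1
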