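import Pool.Agent.Lib.MP_2794d1_ag.A07
import Pool.Agent.Lib.MP_2794d1_ag.C02

/-!
C08: homogenised polynomials.
-/

namespace MP2794d1

open Matrix Complex Filter Topology

theorem homP_eq (D : ℕ) (p : Polynomial ℚ) (hp : p.natDegree ≤ D) (a b : ℂ) (hb : b ≠ 0) :
    homP D p a b = b ^ D * Polynomial.aeval (-(a / b)) p := by
  unfold homP
  rw [Polynomial.aeval_eq_sum_range' (Nat.lt_succ_of_le hp), Finset.mul_sum]
  apply Finset.sum_congr rfl
  intro l hl
  rw [Finset.mem_range] at hl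
  have h1 : b ^ D = b ^ l * b ^ (D - l) := by
    rw [← pow_add]; congr 1; omega
  rw [h1, Algebra.smul_def, neg_pow a, neg_pow (a / b), div_pow]
  have h2 : b ^ l ≠ 0 := pow_ne_zero _ hb
  field_simp

theorem homP_fun {I : Type} (D : ℕ) (p : Polynomial ℚ) (a b : I → ℂ) (i : I) :
    homP D p a b i = homP D p (a i) (b i) := by
  unfold homP
  rw [Finset.sum_apply]
  rfl

theorem AlgFam.homP {I : Type} {H : I → ℝ} (hH : ∀ i, 1 ≤ H i) (D : ℕ) (p : Polynomial ℚ)
    (a b : I → ℂ) (ha : AlgFam H a) (hb : AlgFam H b) : AlgFam H (MP2794d1.homP D p a b) := by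
  rw [← mem_algSub hH]
  have ha' : a ∈ algSub H hH := ha
  have hb' : b ∈ algSub H hH := hb
  unfold MP2794d1.homP
  apply Subalgebra.sum_mem
  intro l _
  exact mul_mem (mul_mem (Subalgebra.algebraMap_mem _ _) (pow_mem (neg_mem ha') _)) (pow_mem hb' _)

theorem Zfun.homP (D : ℕ) (p : Polynomial ℚ) (a b : ℂ → ℂ) (ha : Zfun a) (hb : Zfun b) :
    Zfun (fun z => MP2794d1.homP D p (a z) (b z)) := by
  unfold MP2794d1.homP
  apply Zfun.sum (Finset.range (D + 1))
    (fun l z => algebraMap ℚ ℂ (p.coeff l) * (-a z) ^ l * b z ^ (D - l))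
  intro l _
  have h1 : Zfun (fun z => -a z) := by
    have h := Zfun.mul (Zfun.const (-1)) ha
    have h2 : (fun z => -1 * a z) = fun z => -a z := by
      funext z; ring
    rw [h2] at h
    exact h
  exact Zfun.mul (Zfun.mul (Zfun.const _) (Zfun.pow h1 l)) (Zfun.pow hb _)

end MP2794d1
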