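import Pool.Agent.Lib.MP_2794d1_ag.A05
import Pool.Agent.Lib.MP_2794d1_ag.A06
import Pool.Agent.Lib.MP_2794d1_ag.C07
import Pool.Agent.Lib.MP_2794d1_ag.C08

/-!
C09 (pair lemma). Put V i = G.E(-(α/β)) *ᵥ (G.E z *ᵥ Mh) at z = z i, D = max natDegree of the entries of G.P,
Y i f = ∑_j homP D (G.P f j) (c i * α (z i)) (c i * β (z i)) * (c' i * (G.E (z i) *ᵥ Mh (qq (z i))) j).
By C08, Y i f = s_i * V i f with s_i = (c i * β (z i))^D * c' i ≠ 0, and i ↦ Y i f is AlgFam H.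
On the index type I × I with height H i * H j (use AlgFam.comp for Prod.fst, Prod.snd and AlgFam.mono) the function
X(i,j) = Y i f * Y j g - Y i g * Y j f is AlgFam, so by A06: X ≠ 0 → 1 ≤ C (H i H j)^C |X|.
Upper bound: fix g0 with v' g0 ≠ 0. For im (z i) large |V i g0| ≥ |v' g0|/2, so by A05 |s_i| ≤ 2 C1 H_i^C1/|v' g0|, and
X(i,j) = s_i s_j (V i f V j g - V i g V j f) with |V i f V j g - V i g V j f| ≤ K' exp(-im (z i)/2) when
im (z i) ≤ im (z j) (both V i and V j are v' + O(exp(-im (z i)/2)) and v' f v' g - v' g v' f = 0). Together: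
X(i,j) ≠ 0 implies 1 ≤ C3 (H i H j)^C3 exp(-im (z i)/2) with a constant C3 ≥ 1 depending only on the data (finitely many
f, g: take the maximum). With δ = 1/(4 C3): H i H j ≤ exp(δ T), T = im (z i), gives 1 ≤ C3 exp(-T/4), false for
T > a' := 4 log C3 + 1 (and a' at least the bound needed for |V i g0| ≥ |v' g0|/2). So X(i,j) = 0, i.e. V i f V j g =
V i g V j f as s_i s_j ≠ 0.
-/

namespace MP2794d1

open Matrix Complex Filter Topology

theorem C09_sub {I : Type} {H : I → ℝ} (hH : ∀ i, 1 ≤ H i) {x y : I → ℂ}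
    (hx : AlgFam H x) (hy : AlgFam H y) : AlgFam H (x - y) :=
  (mem_algSub hH _).1 ((algSub H hH).sub_mem ((mem_algSub hH _).2 hx) ((mem_algSub hH _).2 hy))

theorem C09_sum {I : Type} {H : I → ℝ} (hH : ∀ i, 1 ≤ H i) {κ : Type} (s : Finset κ)
    {x : κ → I → ℂ} (hx : ∀ k ∈ s, AlgFam H (x k)) : AlgFam H (∑ k ∈ s, x k) :=
  (mem_algSub hH _).1 ((algSub H hH).sum_mem fun k hk => (mem_algSub hH _).2 (hx k hk))

/-- bilinear error estimate -/
theorem C09_err {a b a1 a2 b1 b2 : ℂ} {E : ℝ} (h1 : ‖a1 - a‖ ≤ E) (h2 : ‖b2 - b‖ ≤ E)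
    (h3 : ‖b1 - b‖ ≤ E) (h4 : ‖a2 - a‖ ≤ E) :
    ‖a1 * b2 - b1 * a2‖ ≤ 2 * E * (‖a‖ + ‖b‖ + E) := by
  have hE : 0 ≤ E := (norm_nonneg _).trans h1
  have hid : a1 * b2 - b1 * a2 = (a1 - a) * b2 + a * (b2 - b) - ((b1 - b) * a2 + b * (a2 - a)) := by
    ring
  have hb2 : ‖b2‖ ≤ ‖b‖ + E := by
    have := norm_add_le b (b2 - b); rw [add_sub_cancel] at this; linarith
  have ha2 : ‖a2‖ ≤ ‖a‖ + E := by
    have := norm_add_le a (a2 - a); rw [add_sub_cancel] at this; linarith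
  rw [hid]
  calc ‖(a1 - a) * b2 + a * (b2 - b) - ((b1 - b) * a2 + b * (a2 - a))‖
      ≤ ‖(a1 - a) * b2 + a * (b2 - b)‖ + ‖(b1 - b) * a2 + b * (a2 - a)‖ := norm_sub_le _ _
    _ ≤ (‖(a1 - a) * b2‖ + ‖a * (b2 - b)‖) + (‖(b1 - b) * a2‖ + ‖b * (a2 - a)‖) :=
        add_le_add (norm_add_le _ _) (norm_add_le _ _)
    _ ≤ (E * (‖b‖ + E) + ‖a‖ * E) + (E * (‖a‖ + E) + ‖b‖ * E) := by
        simp only [norm_mul]
        gcongr
    _ = 2 * E * (‖a‖ + ‖b‖ + E) := by ring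

theorem pair {ι : Type} [Fintype ι] [DecidableEq ι] (G : PolyGroup ι) (Mh : ℂ → ι → ℂ)
    (α β : ℂ → ℂ) (v' : ι → ℂ) (hv : v' ≠ 0) (a K : ℝ)
    (hb : ∀ z : ℂ, |z.re| ≤ 1 → a < z.im → β z ≠ 0 ∧ ∀ i,
      ‖(G.E (-(α z / β z)) *ᵥ (G.E z *ᵥ Mh (qq z))) i - v' i‖ ≤ K * Real.exp (-z.im / 2))
    {I : Type} (z : I → ℂ) (hre : ∀ i, |(z i).re| ≤ 1) (ha : ∀ i, a < (z i).im)
    (H : I → ℝ) (hH : ∀ i, 1 ≤ H i) (c c' : I → ℂ) (hc : ∀ i, c i ≠ 0) (hc' : ∀ i, c' i ≠ 0)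
    (hα : AlgFam H (fun i => c i * α (z i))) (hβ : AlgFam H (fun i => c i * β (z i)))
    (hM : ∀ f, AlgFam H (fun i => c' i * (G.E (z i) *ᵥ Mh (qq (z i))) f)) :
    ∃ δ : ℝ, 0 < δ ∧ ∃ a' : ℝ, ∀ i j : I, a' < (z i).im → (z i).im ≤ (z j).im →
      H i * H j ≤ Real.exp (δ * (z i).im) → ∀ f g : ι,
      (G.E (-(α (z i) / β (z i))) *ᵥ (G.E (z i) *ᵥ Mh (qq (z i)))) f *
        (G.E (-(α (z j) / β (z j))) *ᵥ (G.E (z j) *ᵥ Mh (qq (z j)))) g =
      (G.E (-(α (z i) / β (z i))) *ᵥ (G.E (z i) *ᵥ Mh (qq (z i)))) g *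
        (G.E (-(α (z j) / β (z j))) *ᵥ (G.E (z j) *ᵥ Mh (qq (z j)))) f := by
  classical
  set V : I → ι → ℂ := fun i => G.E (-(α (z i) / β (z i))) *ᵥ (G.E (z i) *ᵥ Mh (qq (z i))) with hV
  set W : I → ι → ℂ := fun i => G.E (z i) *ᵥ Mh (qq (z i)) with hW
  set D : ℕ := Finset.univ.sup (fun p : ι × ι => (G.P p.1 p.2).natDegree) with hD
  have hDle : ∀ f j, (G.P f j).natDegree ≤ D := fun f j =>
    Finset.le_sup (f := fun p : ι × ι => (G.P p.1 p.2).natDegree) (Finset.mem_univ (f, j))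
  set s : I → ℂ := fun i => (c i * β (z i)) ^ D * c' i with hs
  have hβ0 : ∀ i, β (z i) ≠ 0 := fun i => (hb (z i) (hre i) (ha i)).1
  have hs0 : ∀ i, s i ≠ 0 := fun i =>
    mul_ne_zero (pow_ne_zero _ (mul_ne_zero (hc i) (hβ0 i))) (hc' i)
  -- the algebraic families
  set Y : ι → I → ℂ := fun f => ∑ j, (homP D (G.P f j) (fun i => c i * α (z i))
    (fun i => c i * β (z i))) * (fun i => c' i * W i j) with hY
  have hYalg : ∀ f, AlgFam H (Y f) := by
    intro f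
    apply C09_sum hH
    intro j _
    exact AlgFam.mul hH (AlgFam.homP hH D (G.P f j) _ _ hα hβ) (hM j)
  have hYV : ∀ f i, Y f i = s i * V i f := by
    intro f i
    simp only [hY, hV, hs, Finset.sum_apply, Pi.mul_apply]
    rw [mulVec, dotProduct, Finset.mul_sum]
    refine Finset.sum_congr rfl fun j _ => ?_
    rw [homP_fun, homP_eq D _ (hDle f j) _ _ (mul_ne_zero (hc i) (hβ0 i)),
      mul_div_mul_left _ _ (hc i)]
    simp only [PolyGroup.E, Matrix.map_apply, hW]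
    ring
  -- uniform lower bound
  set H2 : I × I → ℝ := fun p => H p.1 * H p.2 with hH2def
  have hH2 : ∀ p, 1 ≤ H2 p := fun p => one_le_mul_of_one_le_of_one_le (hH _) (hH _)
  have hfst : ∀ f, AlgFam H2 (fun p : I × I => Y f p.1) := fun f =>
    AlgFam.mono (H := H ∘ Prod.fst) (fun p => hH p.1)
      (fun p => le_mul_of_one_le_right (zero_le_one.trans (hH _)) (hH _))
      (AlgFam.comp (hYalg f) Prod.fst)
  have hsnd : ∀ f, AlgFam H2 (fun p : I × I => Y f p.2) := fun f =>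
    AlgFam.mono (H := H ∘ Prod.snd) (fun p => hH p.2)
      (fun p => le_mul_of_one_le_left (zero_le_one.trans (hH _)) (hH _))
      (AlgFam.comp (hYalg f) Prod.snd)
  have hX : ∀ f g, AlgFam H2 ((fun p : I × I => Y f p.1) * (fun p : I × I => Y g p.2) -
      (fun p : I × I => Y g p.1) * (fun p : I × I => Y f p.2)) := fun f g =>
    C09_sub hH2 (AlgFam.mul hH2 (hfst f) (hsnd g)) (AlgFam.mul hH2 (hfst g) (hsnd f))
  choose C hC0 hC using fun f g => AlgFam.lower hH2 (hX f g)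
  set CC : ℕ := ∑ f, ∑ g, C f g with hCC
  have hCle : ∀ f g, C f g ≤ CC := fun f g =>
    (Finset.single_le_sum (f := fun g => C f g) (fun _ _ => Nat.zero_le _)
      (Finset.mem_univ g)).trans
      (Finset.single_le_sum (f := fun f => ∑ g, C f g) (fun _ _ => Nat.zero_le _)
        (Finset.mem_univ f))
  have hlow : ∀ f g i j, Y f i * Y g j - Y g i * Y f j ≠ 0 →
      1 ≤ CC * (H i * H j) ^ CC * ‖Y f i * Y g j - Y g i * Y f j‖ := by
    intro f g i j hne
    have h1 := hC f g (i, j) (by simpa using hne)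
    simp only [Pi.sub_apply, Pi.mul_apply, hH2def] at h1
    refine h1.trans ?_
    have h2 : (1 : ℝ) ≤ H i * H j := hH2 (i, j)
    have h3 : ((C f g : ℕ) : ℝ) ≤ CC := by exact_mod_cast hCle f g
    have h4 : (H i * H j) ^ (C f g) ≤ (H i * H j) ^ CC := pow_le_pow_right₀ h2 (hCle f g)
    gcongr
  -- upper bound for the scaling factors
  obtain ⟨g0, hg0⟩ : ∃ g0, v' g0 ≠ 0 := by
    by_contra hcon
    push Not at hcon
    exact hv (funext hcon)
  obtain ⟨C1, hC10, hC1⟩ := AlgFam.upper hH (hYalg g0)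
  set w : ℝ := ‖v' g0‖ with hw
  have hw0 : 0 < w := norm_pos_iff.2 hg0
  set K1 : ℝ := |K| with hK1
  have hK10 : 0 ≤ K1 := abs_nonneg _
  have hVb : ∀ i f, ‖V i f - v' f‖ ≤ K1 * Real.exp (-(z i).im / 2) := fun i f =>
    ((hb (z i) (hre i) (ha i)).2 f).trans
      (mul_le_mul_of_nonneg_right (le_abs_self K) (Real.exp_pos _).le)
  set L : ℝ := ∑ f, ‖v' f‖ with hL
  have hL0 : 0 ≤ L := Finset.sum_nonneg fun _ _ => norm_nonneg _
  have hLle : ∀ f, ‖v' f‖ ≤ L := fun f =>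
    Finset.single_le_sum (f := fun f => ‖v' f‖) (fun _ _ => norm_nonneg _) (Finset.mem_univ f)
  set m : ℕ := CC + C1 with hm
  set B : ℝ := CC * (2 * C1 / w) ^ 2 * (2 * K1 * (2 * L + K1)) with hB
  have hB0 : 0 ≤ B := by positivity
  refine ⟨1 / (4 * (m + 1)), by positivity, max (max 0 (4 * B)) (4 * K1 / w), ?_⟩
  intro i j hT hij hHH f g
  have hT1 := max_lt_iff.1 hT
  have hT2 := max_lt_iff.1 hT1.1
  set T : ℝ := (z i).im with hTdef
  have hT0 : 0 < T := hT2.1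
  have hTj : 0 < (z j).im := lt_of_lt_of_le hT0 hij
  -- scaling factors
  have hsb : ∀ k, 0 < (z k).im → 4 * K1 / w < (z k).im → ‖s k‖ ≤ 2 * C1 / w * H k ^ C1 := by
    intro k hk0 hk
    have h1 : ‖V k g0 - v' g0‖ ≤ w / 2 := by
      refine (hVb k g0).trans ?_
      have h2 : Real.exp (-(z k).im / 2) * ((z k).im / 2) ≤ 1 := by
        have h4 := Real.add_one_le_exp ((z k).im / 2)
        have h10 : -(z k).im / 2 = -((z k).im / 2) := by ring
        rw [h10, Real.exp_neg, inv_mul_le_iff₀ (Real.exp_pos _)]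
        linarith
      have h3 : 4 * K1 < (z k).im * w := by rwa [div_lt_iff₀ hw0] at hk
      have h5 : K1 * Real.exp (-(z k).im / 2) ≤
          ((z k).im * w / 4) * Real.exp (-(z k).im / 2) :=
        mul_le_mul_of_nonneg_right (by linarith) (Real.exp_pos _).le
      have h6 : w * (Real.exp (-(z k).im / 2) * ((z k).im / 2)) ≤ w * 1 :=
        mul_le_mul_of_nonneg_left h2 hw0.le
      nlinarith
    have h2 : w / 2 ≤ ‖V k g0‖ := by
      have := norm_sub_le (V k g0) (V k g0 - v' g0)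
      rw [sub_sub_cancel] at this
      linarith
    have h3 := hC1 k
    rw [hYV, norm_mul] at h3
    have h4 : ‖s k‖ * (w / 2) ≤ C1 * H k ^ C1 :=
      (mul_le_mul_of_nonneg_left h2 (norm_nonneg _)).trans h3
    calc ‖s k‖ = (‖s k‖ * (w / 2)) * (2 / w) := by field_simp
      _ ≤ (C1 * H k ^ C1) * (2 / w) := mul_le_mul_of_nonneg_right h4 (by positivity)
      _ = 2 * C1 / w * H k ^ C1 := by ring
  have hsi := hsb i hT0 hT1.2
  have hsj := hsb j hTj (lt_of_lt_of_le hT1.2 hij)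
  by_contra hne
  have hne' : V i f * V j g - V i g * V j f ≠ 0 := sub_ne_zero.2 hne
  have hXeq : Y f i * Y g j - Y g i * Y f j = s i * s j * (V i f * V j g - V i g * V j f) := by
    rw [hYV, hYV, hYV, hYV]; ring
  have hXne : Y f i * Y g j - Y g i * Y f j ≠ 0 := by
    rw [hXeq]
    exact mul_ne_zero (mul_ne_zero (hs0 i) (hs0 j)) hne'
  have h1 := hlow f g i j hXne
  rw [hXeq, norm_mul, norm_mul] at h1
  -- the difference is small
  have hexp1 : Real.exp (-T / 2) ≤ 1 := by rw [Real.exp_le_one_iff]; linarith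
  have hexpj : Real.exp (-(z j).im / 2) ≤ Real.exp (-T / 2) := by
    rw [Real.exp_le_exp]; linarith
  have hVj : ∀ f, ‖V j f - v' f‖ ≤ K1 * Real.exp (-T / 2) := fun f =>
    (hVb j f).trans (mul_le_mul_of_nonneg_left hexpj hK10)
  have hd : ‖V i f * V j g - V i g * V j f‖ ≤ 2 * K1 * (2 * L + K1) * Real.exp (-T / 2) := by
    refine (C09_err (hVb i f) (hVj g) (hVb i g) (hVj f)).trans ?_
    have h5 : ‖v' f‖ + ‖v' g‖ + K1 * Real.exp (-T / 2) ≤ 2 * L + K1 := by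
      have := hLle f
      have := hLle g
      have : K1 * Real.exp (-T / 2) ≤ K1 * 1 := mul_le_mul_of_nonneg_left hexp1 hK10
      linarith
    calc 2 * (K1 * Real.exp (-T / 2)) * (‖v' f‖ + ‖v' g‖ + K1 * Real.exp (-T / 2))
        ≤ 2 * (K1 * Real.exp (-T / 2)) * (2 * L + K1) :=
          mul_le_mul_of_nonneg_left h5 (by positivity)
      _ = 2 * K1 * (2 * L + K1) * Real.exp (-T / 2) := by ring
  have hHi : (0 : ℝ) < H i := lt_of_lt_of_le one_pos (hH i)
  have hHj : (0 : ℝ) < H j := lt_of_lt_of_le one_pos (hH j)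
  have hS1 : 1 ≤ H i * H j := hH2 (i, j)
  have h2 : 1 ≤ B * (H i * H j) ^ m * Real.exp (-T / 2) := by
    refine h1.trans ?_
    calc CC * (H i * H j) ^ CC * (‖s i‖ * ‖s j‖ * ‖V i f * V j g - V i g * V j f‖)
        ≤ CC * (H i * H j) ^ CC * ((2 * C1 / w * H i ^ C1) * (2 * C1 / w * H j ^ C1) *
          (2 * K1 * (2 * L + K1) * Real.exp (-T / 2))) := by
          gcongr
      _ = B * (H i * H j) ^ m * Real.exp (-T / 2) := by
          rw [hB, hm, pow_add, mul_pow (H i) (H j) C1]; ring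
  have h3 : (H i * H j) ^ m ≤ Real.exp (T / 4) := by
    calc (H i * H j) ^ m ≤ (Real.exp (1 / (4 * (m + 1)) * T)) ^ m :=
          pow_le_pow_left₀ (by positivity) hHH m
      _ = Real.exp (m * (1 / (4 * (m + 1)) * T)) := by rw [← Real.exp_nat_mul]
      _ ≤ Real.exp (T / 4) := by
          rw [Real.exp_le_exp]
          have h6 : (m : ℝ) * (1 / (4 * (m + 1))) ≤ 1 / 4 := by
            rw [mul_one_div, div_le_div_iff₀ (by positivity) (by norm_num)]
            linarith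
          nlinarith
  have h4 : 1 ≤ B * Real.exp (-T / 4) := by
    calc (1 : ℝ) ≤ B * (H i * H j) ^ m * Real.exp (-T / 2) := h2
      _ ≤ B * Real.exp (T / 4) * Real.exp (-T / 2) := by gcongr
      _ = B * Real.exp (-T / 4) := by
          rw [mul_assoc, ← Real.exp_add]; congr 2; ring
  have h5 : B < Real.exp (T / 4) := by
    have := Real.add_one_le_exp (T / 4)
    linarith [hT2.2]
  have h6 : B * Real.exp (-T / 4) < 1 := by
    have h7 : Real.exp (-T / 4) = (Real.exp (T / 4))⁻¹ := by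
      rw [← Real.exp_neg]; congr 1; ring
    rw [h7, mul_inv_lt_iff₀ (Real.exp_pos _)]
    linarith
  linarith

end MP2794d1
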