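import Pool.Agent.Lib.MP_2794d1_ag.C03
import Pool.Agent.Lib.MP_2794d1_ag.C07
import Pool.Agent.Lib.MP_2794d1_ag.C08

/-!
C10 (conclusion of the core). Let V y be the vector G.E(-(α y/β y)) *ᵥ (G.E y *ᵥ Mh (qq y)); V y = v' + O(exp(-im y/2)).
Fix g with v' g ≠ 0; for k large V(z k) g ≠ 0 and by hpair the ratio R_k(f) = V(z k) f / V(z k) g satisfies
R_k = R_{k+1}; as R_k(f) → v' f/v' g, R_k(f) = v' f / v' g for all large k, i.e.
V(z k) f * v' g = V(z k) g * v' f. Multiply by β^D: by C08 the function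
Φ_f(y) = ∑_j homP D (G.P f j) (α y) (β y) * (G.E y *ᵥ Mh (qq y)) j * v' g - ∑_j homP D (G.P g j) (α y) (β y) * (...) j * v' f
is Zfun (the entries of G.E y are polynomials in y, Mh (qq y) is Zfun.hol) and vanishes at z k for large k (where
β (z k) ≠ 0), so vanishes for im y > a (C03). On the strip, β y ≠ 0, so V y f * v' g = V y g * v' f for all f, i.e.
V y = b • v' with b = V y g / v' g, and b ≠ 0 for im y large since V y g → v' g.
-/

namespace MP2794d1

open Matrix Complex Filter Topology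

theorem c10_zfun_aeval (p : Polynomial ℚ) : Zfun (fun z => Polynomial.aeval z p) := by
  have h : (fun z : ℂ => Polynomial.aeval z p) =
      fun z => ∑ i ∈ Finset.range (p.natDegree + 1), ((p.coeff i : ℚ) : ℂ) * z ^ i := by
    funext z
    rw [Polynomial.aeval_eq_sum_range]
    refine Finset.sum_congr rfl fun i _ => ?_
    rw [Algebra.smul_def]
    rfl
  rw [h]
  refine Zfun.sum _ _ fun i _ => ?_
  exact (Zfun.const _).mul (Zfun.id.pow i)

theorem c10_zfun_vec {ι : Type} [Fintype ι] [DecidableEq ι] (G : PolyGroup ι) (Mh : ℂ → ι → ℂ)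
    (hM : ∀ i, AnalyticAt ℂ (fun q => Mh q i) 0) (j : ι) :
    Zfun (fun y => (G.E y *ᵥ Mh (qq y)) j) := by
  have h : (fun y => (G.E y *ᵥ Mh (qq y)) j) =
      fun y => ∑ i ∈ Finset.univ, Polynomial.aeval y (G.P j i) * Mh (qq y) i := by
    funext y
    rfl
  rw [h]
  refine Zfun.sum _ _ fun i _ => ?_
  exact (c10_zfun_aeval _).mul (Zfun.hol _ (hM i))

theorem c10_decay (K c : ℝ) (hc : 0 < c) : ∃ a : ℝ, ∀ t : ℝ, a < t → K * Real.exp (-t / 2) < c := by
  have h : Tendsto (fun t : ℝ => K * Real.exp (-t / 2)) atTop (𝓝 (K * 0)) := by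
    refine Tendsto.const_mul _ ?_
    refine Real.tendsto_exp_atBot.comp ?_
    have h2 : (fun t : ℝ => -t / 2) = fun t => -(t / 2) := by
      funext t
      ring
    rw [h2]
    exact tendsto_neg_atTop_atBot.comp (tendsto_id.atTop_div_const (by norm_num))
  rw [mul_zero] at h
  have h3 := h.eventually (gt_mem_nhds hc)
  obtain ⟨a, ha⟩ := Filter.eventually_atTop.1 h3
  exact ⟨a, fun t ht => ha t ht.le⟩

theorem c10_decay_lim (K : ℝ) {t : ℕ → ℝ} (ht : Tendsto t atTop atTop) :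
    Tendsto (fun k => K * Real.exp (-t k / 2)) atTop (𝓝 0) := by
  have h : Tendsto (fun t : ℝ => K * Real.exp (-t / 2)) atTop (𝓝 (K * 0)) := by
    refine Tendsto.const_mul _ ?_
    refine Real.tendsto_exp_atBot.comp ?_
    have h2 : (fun t : ℝ => -t / 2) = fun t => -(t / 2) := by
      funext t
      ring
    rw [h2]
    exact tendsto_neg_atTop_atBot.comp (tendsto_id.atTop_div_const (by norm_num))
  rw [mul_zero] at h
  exact h.comp ht

theorem conclude {ι : Type} [Fintype ι] [DecidableEq ι] (G : PolyGroup ι) (Mh : ℂ → ι → ℂ)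
    (hM : ∀ i, AnalyticAt ℂ (fun q => Mh q i) 0)
    (α β : ℂ → ℂ) (hα : Zfun α) (hβ : Zfun β) (v' : ι → ℂ) (hv : v' ≠ 0) (a K : ℝ)
    (hb : ∀ z : ℂ, |z.re| ≤ 1 → a < z.im → β z ≠ 0 ∧ ∀ i,
      ‖(G.E (-(α z / β z)) *ᵥ (G.E z *ᵥ Mh (qq z))) i - v' i‖ ≤ K * Real.exp (-z.im / 2))
    (z : ℕ → ℂ) (hre : ∀ k, |(z k).re| ≤ 1) (him : Tendsto (fun k => (z k).im) atTop atTop)
    (hpair : ∀ᶠ k in atTop, ∀ f g : ι,
      (G.E (-(α (z k) / β (z k))) *ᵥ (G.E (z k) *ᵥ Mh (qq (z k)))) f *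
        (G.E (-(α (z (k+1)) / β (z (k+1)))) *ᵥ (G.E (z (k+1)) *ᵥ Mh (qq (z (k+1))))) g =
      (G.E (-(α (z k) / β (z k))) *ᵥ (G.E (z k) *ᵥ Mh (qq (z k)))) g *
        (G.E (-(α (z (k+1)) / β (z (k+1)))) *ᵥ (G.E (z (k+1)) *ᵥ Mh (qq (z (k+1))))) f) :
    ∃ a' : ℝ, ∀ y : ℂ, |y.re| ≤ 1 → a' < y.im → ∃ b : ℂ, b ≠ 0 ∧
      G.E (-(α y / β y)) *ᵥ (G.E y *ᵥ Mh (qq y)) = b • v' := by
  classical
  set V : ℂ → ι → ℂ := fun y => G.E (-(α y / β y)) *ᵥ (G.E y *ᵥ Mh (qq y)) with hV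
  obtain ⟨g, hg⟩ : ∃ g, v' g ≠ 0 := by
    by_contra h
    push Not at h
    exact hv (funext h)
  have hlim : ∀ i, Tendsto (fun k => V (z k) i) atTop (𝓝 (v' i)) := by
    intro i
    rw [tendsto_iff_norm_sub_tendsto_zero]
    refine squeeze_zero' (Filter.Eventually.of_forall fun k => norm_nonneg _) ?_
      (c10_decay_lim K him)
    filter_upwards [him.eventually_gt_atTop a] with k hk
    exact (hb (z k) (hre k) hk).2 i
  have hgne : ∀ᶠ k in atTop, V (z k) g ≠ 0 := (hlim g).eventually_ne hg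
  obtain ⟨k0, hk0⟩ := Filter.eventually_atTop.1 (hgne.and hpair)
  have hprop : ∀ k ≥ k0, ∀ f, V (z k) f * v' g = V (z k) g * v' f := by
    intro k hk f
    have hR : ∀ j ≥ k, V (z j) f / V (z j) g = V (z k) f / V (z k) g := by
      intro j hj
      induction j, hj using Nat.le_induction with
      | base => rfl
      | succ j hj ih =>
        rw [← ih]
        have h1 := (hk0 j (by omega)).1
        have h2 := (hk0 (j + 1) (by omega)).1
        have h3 := (hk0 j (by omega)).2 f g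
        rw [div_eq_div_iff h2 h1]
        show V (z (j + 1)) f * V (z j) g = V (z j) f * V (z (j + 1)) g
        have h4 : V (z j) f * V (z (j + 1)) g = V (z j) g * V (z (j + 1)) f := h3
        rw [h4, mul_comm]
    have h1 : Tendsto (fun j => V (z j) f / V (z j) g) atTop (𝓝 (v' f / v' g)) :=
      (hlim f).div (hlim g) hg
    have h2 : Tendsto (fun j => V (z j) f / V (z j) g) atTop (𝓝 (V (z k) f / V (z k) g)) := by
      refine tendsto_const_nhds.congr' ?_
      filter_upwards [Filter.eventually_ge_atTop k] with j hj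
      exact (hR j hj).symm
    have h3 := tendsto_nhds_unique h2 h1
    rw [div_eq_div_iff (hk0 k hk).1 hg] at h3
    rw [h3, mul_comm]
  -- the homogenised functions
  set D : ℕ := (Finset.univ : Finset (ι × ι)).sup (fun p => (G.P p.1 p.2).natDegree) with hD
  have hdeg : ∀ f j, (G.P f j).natDegree ≤ D := fun f j =>
    Finset.le_sup (f := fun p : ι × ι => (G.P p.1 p.2).natDegree) (Finset.mem_univ (f, j))
  set Y : ι → ℂ → ℂ := fun f y =>
    ∑ j ∈ Finset.univ, homP D (G.P f j) (α y) (β y) * (G.E y *ᵥ Mh (qq y)) j with hY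
  have hYV : ∀ f y, β y ≠ 0 → Y f y = β y ^ D * V y f := by
    intro f y hy
    have h1 : V y f = ∑ j ∈ Finset.univ, Polynomial.aeval (-(α y / β y)) (G.P f j) *
        (G.E y *ᵥ Mh (qq y)) j := rfl
    rw [h1, Finset.mul_sum]
    refine Finset.sum_congr rfl fun j _ => ?_
    rw [homP_eq D (G.P f j) (hdeg f j) (α y) (β y) hy]
    ring
  have hYZ : ∀ f, Zfun (Y f) := by
    intro f
    refine Zfun.sum _ _ fun j _ => ?_
    exact (Zfun.homP D (G.P f j) α β hα hβ).mul (c10_zfun_vec G Mh hM j)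
  have hΦ : ∀ f, ∃ a : ℝ, ∀ y : ℂ, a < y.im → Y f y * v' g + (-1) * (Y g y * v' f) = 0 := by
    intro f
    refine lemmaZ (f := fun y => Y f y * v' g + (-1) * (Y g y * v' f)) ?_ z hre him ?_
    · exact ((hYZ f).mul (Zfun.const _)).add ((Zfun.const _).mul ((hYZ g).mul (Zfun.const _)))
    · filter_upwards [him.eventually_gt_atTop a, Filter.eventually_ge_atTop k0] with k hk1 hk2
      have hβ0 := (hb (z k) (hre k) hk1).1
      show Y f (z k) * v' g + (-1) * (Y g (z k) * v' f) = 0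
      rw [hYV f _ hβ0, hYV g _ hβ0]
      have h5 := hprop k hk2 f
      calc β (z k) ^ D * V (z k) f * v' g + -1 * (β (z k) ^ D * V (z k) g * v' f)
          = β (z k) ^ D * (V (z k) f * v' g - V (z k) g * v' f) := by ring
        _ = 0 := by rw [h5, sub_self, mul_zero]
  choose A hA using hΦ
  obtain ⟨a2, ha2⟩ := c10_decay K ‖v' g‖ (norm_pos_iff.2 hg)
  obtain ⟨B, hB⟩ : ∃ B : ℝ, ∀ f, A f ≤ B := by
    obtain ⟨B, hB⟩ := (Set.finite_range A).bddAbove
    exact ⟨B, fun f => hB ⟨f, rfl⟩⟩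
  refine ⟨max (max a a2) B, ?_⟩
  intro y hy1 hy2
  have hy3 : a < y.im := lt_of_le_of_lt ((le_max_left _ _).trans (le_max_left _ _)) hy2
  have hy4 : a2 < y.im := lt_of_le_of_lt ((le_max_right _ _).trans (le_max_left _ _)) hy2
  have hy5 : B < y.im := lt_of_le_of_lt (le_max_right _ _) hy2
  obtain ⟨hβ0, hV1⟩ := hb y hy1 hy3
  have hVg : V y g ≠ 0 := by
    intro h0
    have h1 : ‖V y g - v' g‖ ≤ K * Real.exp (-y.im / 2) := hV1 g
    rw [h0, zero_sub, norm_neg] at h1
    have h2 := ha2 y.im hy4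
    linarith
  refine ⟨V y g / v' g, div_ne_zero hVg hg, ?_⟩
  funext f
  show V y f = V y g / v' g * v' f
  have h1 := hA f y (lt_of_le_of_lt (hB f) hy5)
  rw [hYV f _ hβ0, hYV g _ hβ0] at h1
  have h2 : β y ^ D * (V y f * v' g - V y g * v' f) = 0 := by
    rw [← h1]
    ring
  have h3 : V y f * v' g - V y g * v' f = 0 := by
    rcases mul_eq_zero.1 h2 with h4 | h4
    · exact absurd h4 (pow_ne_zero _ hβ0)
    · exact h4
  rw [div_mul_eq_mul_div, eq_div_iff hg]
  linear_combination h3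

end MP2794d1
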