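import Pool.Agent.Lib.MP_2794d1_ag.Base

/-!
CNT: counting. For z1, z2 in the region R = {|re| ≤ 1, a < im} (convex) with E z1 = E z2 put g = E'/E and
ℓ(t) = ∫_0^t g(z1 + s(z2 - z1)) (z2 - z1) ds; then t ↦ E(z1 + t(z2-z1)) exp(-ℓ(t)) has derivative 0, so
exp(ℓ(1)) = 1, ℓ(1) = 2πik with k ∈ ℤ, and |ℓ(1) - 2πi m (z2 - z1)| ≤ |z2 - z1|/4. Hence, with d = z2 - z1 and
η = 1/(8πm) < 1/(25 m): |d - k/m| ≤ η |d|.
(i) |im d| ≤ η|d| ≤ η(2 + |im d|), so |im d| ≤ 4η ≤ 1 and |d| ≤ 3 , so |d - k/m| ≤ 3η and |k| ≤ m(3 + 3η) ≤ 4m.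
(ii) k = 0 implies |d| ≤ η|d|, so d = 0.
(iii) if z2, z2' have the same k (relative to z1) then |z2 - z2'| ≤ 6η, and by (the inequality for the pair z2, z2')
|k'|/m ≤ (1+η) 6η < 1/m, so k' = 0 and z2 = z2'.
So S injects into {-4m, ..., 4m} (k relative to a fixed z1 ∈ S): card ≤ 8m+1 ≤ 10m+1. (An alternative to the integral:
any argument giving the integer k is fine.)
-/

namespace MP2794d1

open Matrix Complex Filter Topology

/-- the integer attached to two points with the same value. -/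
theorem cnt_key (E : ℂ → ℂ) (m : ℕ) (a : ℝ)
    (h : ∀ y : ℂ, |y.re| ≤ 1 → a < y.im → AnalyticAt ℂ E y ∧ E y ≠ 0 ∧
      ‖deriv E y / E y - 2 * (Real.pi : ℂ) * Complex.I * (m : ℂ)‖ ≤ 1 / 4)
    {z w : ℂ} (hz : |z.re| ≤ 1 ∧ a < z.im) (hw : |w.re| ≤ 1 ∧ a < w.im) (hE : E z = E w) :
    ∃ k : ℤ, ‖(k : ℂ) - m * (w - z)‖ ≤ ‖w - z‖ / 25 := by
  set γ : ℝ → ℂ := fun t => z + t * (w - z) with hγ
  have hγR : ∀ t ∈ Set.Icc (0 : ℝ) 1, |(γ t).re| ≤ 1 ∧ a < (γ t).im := by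
    intro t ht
    have e1 : (γ t).re = (1 - t) * z.re + t * w.re := by simp [hγ]; ring
    have e2 : (γ t).im = (1 - t) * z.im + t * w.im := by simp [hγ]; ring
    have h1 := abs_le.1 hz.1
    have h2 := abs_le.1 hw.1
    obtain ⟨t0, t1⟩ := ht
    refine ⟨abs_le.2 ⟨?_, ?_⟩, ?_⟩
    · rw [e1]; nlinarith
    · rw [e1]; nlinarith
    · rw [e2]
      rcases eq_or_lt_of_le t0 with h0 | h0
      · rw [← h0]; linarith [hz.2]
      · nlinarith [hz.2, hw.2, mul_pos h0 (sub_pos.2 hw.2)]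
  set U : Set ℝ := {t | AnalyticAt ℂ E (γ t) ∧ E (γ t) ≠ 0} with hU
  have hγc : Continuous γ := by
    rw [hγ]; fun_prop
  have hγd : ∀ t, HasDerivAt γ (w - z) t := by
    intro t
    have h1 : HasDerivAt (fun t : ℝ => ((t : ℝ) : ℂ)) 1 t := Complex.ofRealCLM.hasDerivAt
    have h2 := (h1.mul_const (w - z)).const_add z
    rw [one_mul] at h2
    exact h2
  have hUo : IsOpen U := by
    rw [isOpen_iff_mem_nhds]
    intro t ht
    have h1 : ∀ᶠ y in 𝓝 (γ t), AnalyticAt ℂ E y := ht.1.eventually_analyticAt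
    have h2 : ∀ᶠ y in 𝓝 (γ t), E y ≠ 0 := ht.1.continuousAt.eventually_ne ht.2
    exact (hγc.tendsto t).eventually (h1.and h2)
  have hIU : Set.Icc (0 : ℝ) 1 ⊆ U := fun t ht =>
    ⟨(h _ (hγR t ht).1 (hγR t ht).2).1, (h _ (hγR t ht).1 (hγR t ht).2).2.1⟩
  set g : ℝ → ℂ := fun t => deriv E (γ t) / E (γ t) * (w - z) with hg
  have hgc : ContinuousOn g U := by
    intro t ht
    have h1 : ContinuousAt (fun t => deriv E (γ t)) t :=
      ContinuousAt.comp (f := γ) ht.1.deriv.continuousAt hγc.continuousAt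
    have h2 : ContinuousAt (fun t => E (γ t)) t :=
      ContinuousAt.comp (f := γ) ht.1.continuousAt hγc.continuousAt
    exact ((h1.div h2 ht.2).mul continuousAt_const).continuousWithinAt
  have hgi : ∀ t ∈ Set.Icc (0 : ℝ) 1, IntervalIntegrable g MeasureTheory.volume 0 t := by
    intro t ht
    apply ContinuousOn.intervalIntegrable
    rw [Set.uIcc_of_le ht.1]
    exact hgc.mono (fun s hs => hIU ⟨hs.1, hs.2.trans ht.2⟩)
  set ℓ : ℝ → ℂ := fun t => ∫ s in (0 : ℝ)..t, g s with hℓ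
  have hℓd : ∀ t ∈ Set.Icc (0 : ℝ) 1, HasDerivAt ℓ (g t) t := by
    intro t ht
    exact intervalIntegral.integral_hasDerivAt_right (hgi t ht)
      (hgc.stronglyMeasurableAtFilter hUo t (hIU ht))
      ((hgc t (hIU ht)).continuousAt (hUo.mem_nhds (hIU ht)))
  have hFd : ∀ t ∈ Set.Icc (0 : ℝ) 1, HasDerivAt (fun t => E (γ t)) (deriv E (γ t) * (w - z)) t := by
    intro t ht
    have h1 : HasDerivAt E (deriv E (γ t)) (γ t) := (hIU ht).1.differentiableAt.hasDerivAt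
    have h2 := h1.scomp t (hγd t)
    simp only [smul_eq_mul] at h2
    rw [mul_comm] at h2
    exact h2
  have hφd : ∀ t ∈ Set.Icc (0 : ℝ) 1,
      HasDerivAt (fun t => E (γ t) * Complex.exp (-ℓ t)) 0 t := by
    intro t ht
    have h1 := (hFd t ht).mul (hℓd t ht).neg.cexp
    refine h1.congr_deriv ?_
    have h0 := (hIU ht).2
    simp only [hg]
    field_simp
    ring
  have hconst := constant_of_has_deriv_right_zero (f := fun t => E (γ t) * Complex.exp (-ℓ t))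
    (a := 0) (b := 1) (fun t ht => (hφd t ht).continuousAt.continuousWithinAt)
    (fun t ht => (hφd t ⟨ht.1, ht.2.le⟩).hasDerivWithinAt) 1 ⟨zero_le_one, le_rfl⟩
  have e0 : ℓ 0 = 0 := by simp [hℓ]
  have eγ0 : γ 0 = z := by simp [hγ]
  have eγ1 : γ 1 = w := by simp [hγ]
  simp only [e0, eγ0, eγ1, neg_zero, Complex.exp_zero, mul_one] at hconst
  have hw0 : E w ≠ 0 := (h w hw.1 hw.2).2.1
  rw [hE] at hconst
  have hexp : Complex.exp (-ℓ 1) = 1 := mul_left_cancel₀ hw0 (hconst.trans (mul_one _).symm)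
  obtain ⟨n, hn⟩ := Complex.exp_eq_one_iff.1 hexp
  have hbound : ‖ℓ 1 - 2 * (Real.pi : ℂ) * Complex.I * (m : ℂ) * (w - z)‖ ≤ ‖w - z‖ / 4 := by
    have e1 : ℓ 1 - 2 * (Real.pi : ℂ) * Complex.I * (m : ℂ) * (w - z) =
        ∫ s in (0 : ℝ)..1, (g s - 2 * (Real.pi : ℂ) * Complex.I * (m : ℂ) * (w - z)) := by
      rw [intervalIntegral.integral_sub (hgi 1 ⟨zero_le_one, le_rfl⟩) intervalIntegrable_const]
      simp [hℓ]
    rw [e1]
    have := intervalIntegral.norm_integral_le_of_norm_le_const (a := (0 : ℝ)) (b := 1)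
      (f := fun s => g s - 2 * (Real.pi : ℂ) * Complex.I * (m : ℂ) * (w - z)) (C := ‖w - z‖ / 4) (by
        intro t ht
        rw [Set.uIoc_of_le zero_le_one] at ht
        have ht' : t ∈ Set.Icc (0 : ℝ) 1 := ⟨ht.1.le, ht.2⟩
        have h3 := (h _ (hγR t ht').1 (hγR t ht').2).2.2
        have e2 : g t - 2 * (Real.pi : ℂ) * Complex.I * (m : ℂ) * (w - z) =
            (deriv E (γ t) / E (γ t) - 2 * (Real.pi : ℂ) * Complex.I * (m : ℂ)) * (w - z) := by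
          simp only [hg]; ring
        rw [e2, norm_mul]
        nlinarith [norm_nonneg (w - z)])
    simpa using this
  refine ⟨-n, ?_⟩
  have e3 : ℓ 1 - 2 * (Real.pi : ℂ) * Complex.I * (m : ℂ) * (w - z) =
      (2 * (Real.pi : ℂ) * Complex.I) * (((-n : ℤ) : ℂ) - m * (w - z)) := by
    have : ℓ 1 = -(n * (2 * Real.pi * Complex.I)) := by rw [← hn]; ring
    rw [this]; push_cast; ring
  rw [e3, norm_mul] at hbound
  have e4 : ‖(2 * (Real.pi : ℂ) * Complex.I)‖ = 2 * Real.pi := by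
    simp [abs_of_pos Real.pi_pos]
  rw [e4] at hbound
  have hpi : 3.14 < Real.pi := Real.pi_gt_d2
  have hn0 := norm_nonneg (((-n : ℤ) : ℂ) - m * (w - z))
  nlinarith

theorem cnt_small (m : ℕ) (hm : 1 ≤ m) {z w : ℂ} (hz : |z.re| ≤ 1) (hw : |w.re| ≤ 1) {k : ℤ}
    (hk : ‖(k : ℂ) - m * (w - z)‖ ≤ ‖w - z‖ / 25) : ‖w - z‖ ≤ 21 / 10 := by
  have hm' : (1 : ℝ) ≤ m := by exact_mod_cast hm
  have h1 : |((k : ℂ) - m * (w - z)).im| ≤ ‖(k : ℂ) - m * (w - z)‖ := Complex.abs_im_le_norm _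
  have e1 : ((k : ℂ) - m * (w - z)).im = -(m * (w - z).im) := by simp
  rw [e1, abs_neg, abs_mul, Nat.abs_cast] at h1
  have h2 : ‖w - z‖ ≤ |(w - z).re| + |(w - z).im| := Complex.norm_le_abs_re_add_abs_im _
  have h3 : |(w - z).re| ≤ 2 := by
    rw [Complex.sub_re]
    have a1 := abs_le.1 hz
    have a2 := abs_le.1 hw
    rw [abs_le]; constructor <;> linarith
  have h4 := abs_nonneg (w - z).im
  have h5 : |(w - z).im| ≤ m * |(w - z).im| := le_mul_of_one_le_left h4 hm'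
  linarith

theorem count_le (E : ℂ → ℂ) (m : ℕ) (hm : 1 ≤ m) (a : ℝ)
    (h : ∀ y : ℂ, |y.re| ≤ 1 → a < y.im → AnalyticAt ℂ E y ∧ E y ≠ 0 ∧
      ‖deriv E y / E y - 2 * (Real.pi : ℂ) * Complex.I * (m : ℂ)‖ ≤ 1 / 4)
    (S : Finset ℂ) (hS : ∀ y ∈ S, |y.re| ≤ 1 ∧ a < y.im) (hE : ∀ y ∈ S, ∀ y' ∈ S, E y = E y') :
    S.card ≤ 10 * m + 1 := by
  classical
  have hm' : (1 : ℝ) ≤ m := by exact_mod_cast hm
  rcases S.eq_empty_or_nonempty with rfl | ⟨z, hz⟩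
  · simp
  have H : ∀ y : S, ∃ k : ℤ, ‖(k : ℂ) - m * (y.1 - z)‖ ≤ ‖y.1 - z‖ / 25 := fun y =>
    cnt_key E m a h (hS z hz) (hS y.1 y.2) (hE z hz y.1 y.2)
  choose κ hκ using H
  have hsmall : ∀ y : S, ‖y.1 - z‖ ≤ 21 / 10 := fun y =>
    cnt_small m hm (hS z hz).1 (hS y.1 y.2).1 (hκ y)
  have hrange : ∀ y : S, κ y ∈ Finset.Icc (-(3 * m : ℤ)) (3 * m) := by
    intro y
    have h1 : ‖(κ y : ℂ)‖ ≤ ‖(κ y : ℂ) - m * (y.1 - z)‖ + ‖(m : ℂ) * (y.1 - z)‖ := by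
      have := norm_add_le ((κ y : ℂ) - m * (y.1 - z)) ((m : ℂ) * (y.1 - z))
      rwa [sub_add_cancel] at this
    rw [norm_mul, Complex.norm_natCast, Complex.norm_intCast] at h1
    have h2 := hκ y
    have h3 := hsmall y
    have h4 : |(κ y : ℝ)| ≤ 3 * m := by nlinarith
    have h5 := abs_le.1 h4
    rw [Finset.mem_Icc]
    constructor
    · have : (-(3 * m) : ℝ) ≤ κ y := h5.1
      exact_mod_cast this
    · exact_mod_cast h5.2
  have hinj : Function.Injective κ := by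
    intro y y' hyy
    have h1 := hκ y
    have h2 := hκ y'
    rw [← hyy] at h2
    have h3 := hsmall y
    have h4 := hsmall y'
    have h5 : ‖(m : ℂ) * (y'.1 - y.1)‖ ≤ ‖(κ y : ℂ) - m * (y.1 - z)‖ + ‖(κ y : ℂ) - m * (y'.1 - z)‖ := by
      have e : (m : ℂ) * (y'.1 - y.1) = ((κ y : ℂ) - m * (y.1 - z)) - ((κ y : ℂ) - m * (y'.1 - z)) := by
        ring
      rw [e]; exact norm_sub_le _ _
    obtain ⟨k, hk⟩ := cnt_key E m a h (hS y.1 y.2) (hS y'.1 y'.2) (hE y.1 y.2 y'.1 y'.2)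
    have h6 : ‖(k : ℂ)‖ ≤ ‖(k : ℂ) - m * (y'.1 - y.1)‖ + ‖(m : ℂ) * (y'.1 - y.1)‖ := by
      have := norm_add_le ((k : ℂ) - m * (y'.1 - y.1)) ((m : ℂ) * (y'.1 - y.1))
      rwa [sub_add_cancel] at this
    have hmul : ‖(m : ℂ) * (y'.1 - y.1)‖ = m * ‖y'.1 - y.1‖ := by
      rw [norm_mul, Complex.norm_natCast]
    have h7 : ‖y'.1 - y.1‖ ≤ m * ‖y'.1 - y.1‖ := le_mul_of_one_le_left (norm_nonneg _) hm'
    have hk0 : k = 0 := by
      have h8 : ‖(k : ℂ)‖ < 1 := by rw [hmul] at h5 h6; linarith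
      rw [Complex.norm_intCast] at h8
      have h9 : |k| < 1 := by exact_mod_cast h8
      exact Int.abs_lt_one_iff.1 h9
    rw [hk0, Int.cast_zero, zero_sub, norm_neg, hmul] at hk
    have h10 : ‖y'.1 - y.1‖ ≤ 0 := by linarith [norm_nonneg (y'.1 - y.1)]
    have h11 := norm_le_zero_iff.1 h10
    exact Subtype.ext (sub_eq_zero.1 h11).symm
  have hcard : S.card ≤ (Finset.Icc (-(3 * m : ℤ)) (3 * m)).card := by
    rw [← Fintype.card_coe S]
    calc Fintype.card S = (Finset.univ.image κ).card := by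
          rw [Finset.card_image_of_injective _ hinj]; rfl
      _ ≤ _ := Finset.card_le_card (fun k hk => by
          obtain ⟨y, -, rfl⟩ := Finset.mem_image.1 hk
          exact hrange y)
  rw [Int.card_Icc] at hcard
  omega

end MP2794d1
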