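import Pool.Agent.Lib.MP_2794d1_ag.C03
import Pool.Agent.Lib.MP_2794d1_ag.C04

/-!
ZL: logarithmic derivative of a Zfun. f z = ∑_{i<K} z^i h_i(q), not identically zero near the cusp. Let m be the least
order of vanishing at 0 of the h_i (as in C03), h_i = q^m g_i(q), G(z) = ∑ z^i g_i(qq z), so f = (qq z)^m G(z) for im z
large; p(z) = ∑ g_i(0) z^i is a nonzero polynomial. G(z) = p(z) + O((1+|z|)^K |q|), and
G'(z) = p'(z) + O((1+|z|)^K |q|) (derivative of z^i g_i(qq z) is i z^(i-1) g_i(q) + z^i g_i'(q) 2πi q). On the strip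
|re| ≤ 1, |p(z)| ≥ c > 0 for im z large and p'(z)/p(z) → 0 (p constant: 0; otherwise O(1/|z|)); so G'/G → 0 and
f'/f = 2πi m + G'/G. Last two claims: |f| = |q|^m |G|, |G| ≥ c/2, |G| ≤ K' (1+|z|)^K, |q| = exp(-2π im z).
-/

namespace MP2794d1

open Matrix Complex Filter Topology

/-- the filter of the strip going up. -/
def zlF : Filter ℂ := comap Complex.im atTop ⊓ 𝓟 {y | |y.re| ≤ 1}

theorem zl_ev {P : ℂ → Prop} :
    (∀ᶠ y in zlF, P y) ↔ ∃ a : ℝ, ∀ y : ℂ, |y.re| ≤ 1 → a < y.im → P y := by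
  have h := ((atTop_basis_Ioi (α := ℝ)).comap Complex.im).inf_principal {y : ℂ | |y.re| ≤ 1}
  rw [show zlF = comap Complex.im atTop ⊓ 𝓟 {y | |y.re| ≤ 1} from rfl, h.eventually_iff]
  constructor
  · rintro ⟨a, -, ha⟩
    exact ⟨a, fun y h1 h2 => ha ⟨h2, h1⟩⟩
  · rintro ⟨a, ha⟩
    exact ⟨a, trivial, fun y hy => ha y hy.2 hy.1⟩

theorem zl_im : Tendsto Complex.im zlF atTop := tendsto_comap.mono_left inf_le_left

theorem zl_re : ∀ᶠ y in zlF, |y.re| ≤ 1 := zl_ev.2 ⟨0, fun _ h _ => h⟩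

theorem zl_norm : Tendsto (fun y : ℂ => ‖y‖) zlF atTop :=
  tendsto_atTop_mono (fun y => (le_abs_self _).trans (Complex.abs_im_le_norm y)) zl_im

theorem zl_pow_exp (i : ℕ) : Tendsto (fun y : ℂ => ‖y‖ ^ i * Real.exp (-y.im)) zlF (𝓝 0) := by
  have h1 : Tendsto (fun y : ℝ => Real.exp 1 * (y ^ i * Real.exp (-y))) atTop (𝓝 0) := by
    have := (Real.tendsto_pow_mul_exp_neg_atTop_nhds_zero i).const_mul (Real.exp 1)
    simpa using this
  have h2 : Tendsto (fun y : ℂ => 1 + y.im) zlF atTop :=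
    tendsto_atTop_add_const_left _ _ zl_im
  have h3 := h1.comp h2
  refine squeeze_zero' (Eventually.of_forall fun k => by positivity) ?_ h3
  filter_upwards [zl_im.eventually_ge_atTop 0, zl_re] with y hk hre
  simp only [Function.comp_apply]
  have hz : ‖y‖ ≤ 1 + y.im := by
    refine (Complex.norm_le_abs_re_add_abs_im _).trans ?_
    rw [abs_of_nonneg hk]
    linarith
  have he : Real.exp (-y.im) = Real.exp 1 * Real.exp (-(1 + y.im)) := by
    rw [← Real.exp_add]; congr 1; ring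
  calc ‖y‖ ^ i * Real.exp (-y.im)
      ≤ (1 + y.im) ^ i * (Real.exp 1 * Real.exp (-(1 + y.im))) := by
        apply mul_le_mul (pow_le_pow_left₀ (norm_nonneg _) hz i) he.le (Real.exp_pos _).le
        positivity
    _ = Real.exp 1 * ((1 + y.im) ^ i * Real.exp (-(1 + y.im))) := by ring

theorem zl_qq_le {y : ℂ} (hy : 0 ≤ y.im) : ‖qq y‖ ≤ Real.exp (-y.im) * Real.exp (-y.im) := by
  rw [C03_norm, ← Real.exp_add, Real.exp_le_exp]
  have := Real.pi_gt_three
  nlinarith

theorem zl_pow_qq (i : ℕ) : Tendsto (fun y : ℂ => ‖y‖ ^ i * ‖qq y‖) zlF (𝓝 0) := by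
  refine squeeze_zero' (Eventually.of_forall fun k => by positivity) ?_ (zl_pow_exp i)
  filter_upwards [zl_im.eventually_ge_atTop 0] with y hy
  refine mul_le_mul_of_nonneg_left ((zl_qq_le hy).trans ?_) (by positivity)
  have h1 : Real.exp (-y.im) ≤ 1 := by rw [Real.exp_le_one_iff]; linarith
  have h2 := Real.exp_pos (-y.im)
  nlinarith

theorem zl_qq : Tendsto qq zlF (𝓝 0) := by
  rw [tendsto_zero_iff_norm_tendsto_zero]
  simpa using zl_pow_qq 0

theorem zl_pow_qq' (i : ℕ) : Tendsto (fun y : ℂ => y ^ i * qq y) zlF (𝓝 0) := by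
  rw [tendsto_zero_iff_norm_tendsto_zero]
  refine (zl_pow_qq i).congr fun y => ?_
  rw [norm_mul, norm_pow]

theorem zl_err {g : ℂ → ℂ} (hg : AnalyticAt ℂ g 0) (i : ℕ) :
    Tendsto (fun y : ℂ => y ^ i * (g (qq y) - g 0)) zlF (𝓝 0) := by
  obtain ⟨c, hc⟩ := hg.differentiableAt.isBigO_sub.bound
  have h6 : Tendsto (fun y : ℂ => c * (‖y‖ ^ i * ‖qq y‖)) zlF (𝓝 0) := by
    simpa using (zl_pow_qq i).const_mul c
  refine squeeze_zero_norm' ?_ h6
  filter_upwards [zl_qq.eventually hc] with y hk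
  rw [norm_mul, norm_pow]
  rw [sub_zero] at hk
  calc ‖y‖ ^ i * ‖g (qq y) - g 0‖ ≤ ‖y‖ ^ i * (c * ‖qq y‖) :=
        mul_le_mul_of_nonneg_left hk (by positivity)
    _ = c * (‖y‖ ^ i * ‖qq y‖) := by ring

theorem zl_err' {g : ℂ → ℂ} (hg : AnalyticAt ℂ g 0) (i : ℕ) :
    Tendsto (fun y : ℂ => y ^ i * (deriv g (qq y) * (2 * (Real.pi : ℂ) * Complex.I * qq y)))
      zlF (𝓝 0) := by
  have h1 : Tendsto (fun y => deriv g (qq y)) zlF (𝓝 (deriv g 0)) :=
    hg.deriv.continuousAt.tendsto.comp zl_qq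
  have h2 := (h1.mul (zl_pow_qq' i)).const_mul (2 * (Real.pi : ℂ) * Complex.I)
  rw [mul_zero, mul_zero] at h2
  refine h2.congr fun y => ?_
  ring

theorem zl_qq_deriv (y : ℂ) : HasDerivAt qq (2 * (Real.pi : ℂ) * Complex.I * qq y) y := by
  unfold qq
  have h := ((hasDerivAt_id y).const_mul (2 * (Real.pi : ℂ) * Complex.I)).cexp
  simp only [id, mul_one] at h
  refine h.congr_deriv ?_
  ring

/-- nonzero polynomials along the strip. -/
theorem zl_poly {p : Polynomial ℂ} (hp : p ≠ 0) :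
    (∃ c : ℝ, 0 < c ∧ ∀ᶠ y in zlF, c ≤ ‖p.eval y‖) ∧
      Tendsto (fun y => p.derivative.eval y / p.eval y) zlF (𝓝 0) := by
  rcases lt_or_ge 0 p.degree with hdeg | hdeg
  · have h1 := p.tendsto_norm_atTop hdeg zl_norm
    refine ⟨⟨1, one_pos, h1.eventually_ge_atTop 1⟩, ?_⟩
    have h2 : Tendsto (fun y : ℂ => (p.roots.map fun w => 1 / (y - w)).sum) zlF (𝓝 0) := by
      have h3 : ∀ s : Multiset ℂ, Tendsto (fun y : ℂ => (s.map fun w => 1 / (y - w)).sum) zlF (𝓝 0) := by
        intro s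
        induction s using Multiset.induction_on with
        | empty =>
          simp only [Multiset.map_zero, Multiset.sum_zero]
          exact tendsto_const_nhds
        | cons w s ih =>
          simp only [Multiset.map_cons, Multiset.sum_cons]
          have h4 : Tendsto (fun y : ℂ => 1 / (y - w)) zlF (𝓝 0) := by
            simp only [one_div]
            rw [tendsto_zero_iff_norm_tendsto_zero]
            simp only [norm_inv]
            refine tendsto_inv_atTop_zero.comp ?_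
            refine tendsto_atTop_mono (f := fun y : ℂ => ‖y‖ - ‖w‖) (fun y => norm_sub_norm_le y w) ?_
            exact tendsto_atTop_add_const_right _ _ zl_norm
          simpa using h4.add ih
      exact h3 _
    refine h2.congr' ?_
    filter_upwards [h1.eventually_ge_atTop 1] with y hy
    have hy0 : p.eval y ≠ 0 := by
      intro h0
      rw [h0, norm_zero] at hy
      linarith
    rw [(IsAlgClosed.splits p).eval_derivative_div_eval_of_ne_zero hy0]
  · rw [Polynomial.eq_C_of_degree_le_zero hdeg] at hp ⊢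
    have h0 : p.coeff 0 ≠ 0 := by
      intro h0
      rw [h0, map_zero] at hp
      exact hp rfl
    refine ⟨⟨‖p.coeff 0‖, norm_pos_iff.2 h0, Eventually.of_forall fun y => by simp⟩, ?_⟩
    simp only [Polynomial.derivative_C, Polynomial.eval_zero, zero_div]
    exact tendsto_const_nhds

/-- the common order and the quotients. -/
theorem zl_factor {f : ℂ → ℂ} {K : ℕ} {h : ℕ → ℂ → ℂ} (hh : ∀ i, AnalyticAt ℂ (h i) 0)
    (hfz : ∀ z, f z = ∑ i ∈ Finset.range K, z ^ i * h i (qq z))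
    (hne : ¬ ∃ a : ℝ, ∀ y : ℂ, a < y.im → f y = 0) :
    ∃ (m : ℕ) (g : ℕ → ℂ → ℂ) (i0 : ℕ), i0 ∈ Finset.range K ∧ g i0 0 ≠ 0 ∧
      ∀ i ∈ Finset.range K, AnalyticAt ℂ (g i) 0 ∧ ∀ᶠ q in 𝓝 (0 : ℂ), h i q = q ^ m * g i q := by
  classical
  by_cases hall : ∀ i ∈ Finset.range K, ∀ᶠ q in 𝓝 (0 : ℂ), h i q = 0
  · exfalso
    apply hne
    have h1 : ∀ᶠ q in 𝓝 (0 : ℂ), ∀ i ∈ Finset.range K, h i q = 0 :=
      (Finset.eventually_all _).2 hall
    obtain ⟨r, hr, h2⟩ := Metric.eventually_nhds_iff.1 h1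
    refine ⟨max 0 (-Real.log r), fun y hy => ?_⟩
    rw [hfz]
    apply Finset.sum_eq_zero
    intro i hi
    have hlt : dist (qq y) 0 < r := by
      rw [dist_zero_right, C03_norm]
      have hy0 : 0 < y.im := lt_of_le_of_lt (le_max_left _ _) hy
      have hy1 : -Real.log r < y.im := lt_of_le_of_lt (le_max_right _ _) hy
      have h3 : Real.exp (-(2 * Real.pi * y.im)) ≤ Real.exp (-y.im) := by
        rw [Real.exp_le_exp]
        have := Real.pi_gt_three
        nlinarith
      refine h3.trans_lt ?_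
      rw [← Real.lt_log_iff_exp_lt hr]
      linarith
    rw [h2 hlt i hi, mul_zero]
  · push Not at hall
    set S : Finset ℕ := (Finset.range K).filter (fun i => analyticOrderAt (h i) 0 ≠ ⊤) with hS
    have hSne : S.Nonempty := by
      obtain ⟨i, hi, hne⟩ := hall
      refine ⟨i, Finset.mem_filter.2 ⟨hi, fun htop => ?_⟩⟩
      rw [analyticOrderAt_eq_top] at htop
      exact hne (htop.mono fun x hx => not_not.2 hx)
    obtain ⟨i0, hi0, hmin⟩ := Finset.exists_min_image S (fun i => analyticOrderAt (h i) 0) hSne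
    have hi0' := Finset.mem_filter.1 hi0
    obtain ⟨m, hm⟩ := ENat.ne_top_iff_exists.1 hi0'.2
    have hle : ∀ i ∈ Finset.range K, (m : ℕ∞) ≤ analyticOrderAt (h i) 0 := by
      intro i hi
      by_cases htop : analyticOrderAt (h i) 0 = ⊤
      · rw [htop]; exact le_top
      · rw [hm]
        exact hmin i (Finset.mem_filter.2 ⟨hi, htop⟩)
    have hex : ∀ i, ∃ g : ℂ → ℂ, i ∈ Finset.range K → AnalyticAt ℂ g 0 ∧
        (∀ᶠ q in 𝓝 (0 : ℂ), h i q = q ^ m * g q) ∧ (i = i0 → g 0 ≠ 0) := by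
      intro i
      by_cases hi : i ∈ Finset.range K
      · by_cases hii : i = i0
        · obtain ⟨g, hg, hg0, hgm⟩ := ((hh i).analyticOrderAt_eq_natCast (n := m)).1
            (by rw [hii]; exact hm.symm)
          exact ⟨g, fun _ => ⟨hg, by simpa using hgm, fun _ => hg0⟩⟩
        · obtain ⟨g, hg, hgm⟩ := (natCast_le_analyticOrderAt (hh i)).1 (hle i hi)
          exact ⟨g, fun _ => ⟨hg, by simpa using hgm, fun h => absurd h hii⟩⟩
      · exact ⟨0, fun h => absurd h hi⟩
    choose g hg using hex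
    exact ⟨m, g, i0, hi0'.1, (hg i0 hi0'.1).2.2 rfl, fun i hi => ⟨(hg i hi).1, (hg i hi).2.1⟩⟩

theorem Zfun.logderiv {f : ℂ → ℂ} (hf : Zfun f) (hne : ¬ ∃ a : ℝ, ∀ y : ℂ, a < y.im → f y = 0) :
    ∃ m : ℕ, (∀ η : ℝ, 0 < η → ∃ a : ℝ, ∀ y : ℂ, |y.re| ≤ 1 → a < y.im →
        AnalyticAt ℂ f y ∧ f y ≠ 0 ∧
          ‖deriv f y / f y - 2 * (Real.pi : ℂ) * Complex.I * (m : ℂ)‖ ≤ η) ∧
      (m = 0 → ∃ ε : ℝ, 0 < ε ∧ ∃ a : ℝ, ∀ y : ℂ, |y.re| ≤ 1 → a < y.im → ε ≤ ‖f y‖) ∧
      (1 ≤ m → ∃ a : ℝ, ∀ y : ℂ, |y.re| ≤ 1 → a < y.im → ‖f y‖ ≤ Real.exp (-y.im)) := by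
  classical
  obtain ⟨K, h, hh, hfz⟩ := hf
  obtain ⟨m, g, i0, hi0, hg0, hg⟩ := zl_factor hh hfz hne
  -- a common radius
  have hr : ∀ᶠ q in 𝓝 (0 : ℂ), ∀ i ∈ Finset.range K, AnalyticAt ℂ (g i) q ∧ h i q = q ^ m * g i q :=
    (Finset.eventually_all _).2 fun i hi => (hg i hi).1.eventually_analyticAt.and (hg i hi).2
  obtain ⟨r, hr0, hr⟩ := Metric.eventually_nhds_iff.1 hr
  simp only [dist_zero_right] at hr
  set G : ℂ → ℂ := fun y => ∑ i ∈ Finset.range K, y ^ i * g i (qq y) with hG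
  set G' : ℂ → ℂ := fun y => ∑ i ∈ Finset.range K, ((i : ℂ) * y ^ (i - 1) * g i (qq y) +
    y ^ i * (deriv (g i) (qq y) * (2 * (Real.pi : ℂ) * Complex.I * qq y))) with hG'
  have hGd : ∀ y, ‖qq y‖ < r → HasDerivAt G (G' y) y := by
    intro y hy
    refine HasDerivAt.fun_sum fun i hi => ?_
    have h1 := (hr hy i hi).1.differentiableAt.hasDerivAt.comp y (zl_qq_deriv y)
    exact (hasDerivAt_pow i y).mul h1
  have hfG : ∀ y, ‖qq y‖ < r → f y = qq y ^ m * G y := by
    intro y hy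
    rw [hfz, hG, Finset.mul_sum]
    refine Finset.sum_congr rfl fun i hi => ?_
    rw [(hr hy i hi).2]; ring
  have hqc : Continuous qq := continuous_iff_continuousAt.2 fun y => (zl_qq_deriv y).continuousAt
  have hopen : IsOpen {y | ‖qq y‖ < r} := isOpen_lt hqc.norm continuous_const
  have hfd : ∀ y, ‖qq y‖ < r →
      HasDerivAt f (qq y ^ m * (2 * (Real.pi : ℂ) * Complex.I * (m : ℂ) * G y + G' y)) y := by
    intro y hy
    have h1 : HasDerivAt (fun y => qq y ^ m * G y)
        ((m : ℂ) * qq y ^ (m - 1) * (2 * (Real.pi : ℂ) * Complex.I * qq y) * G y + qq y ^ m * G' y) y :=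
      ((zl_qq_deriv y).pow m).mul (hGd y hy)
    have h2 : f =ᶠ[𝓝 y] fun y => qq y ^ m * G y := by
      filter_upwards [hopen.mem_nhds hy] with z hz
      exact hfG z hz
    refine (h1.congr_of_eventuallyEq h2).congr_deriv ?_
    rcases m with _ | m
    · simp
    · rw [Nat.add_sub_cancel, pow_succ]; ring
  have hfan : ∀ y, ‖qq y‖ < r → AnalyticAt ℂ f y := by
    intro y hy
    have : DifferentiableOn ℂ f {y | ‖qq y‖ < r} := fun z hz =>
      (hfd z hz).differentiableAt.differentiableWithinAt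
    exact this.analyticAt (hopen.mem_nhds hy)
  have hqev : ∀ᶠ y in zlF, ‖qq y‖ < r := by
    have := zl_qq.norm.eventually_lt_const (u := r) (by simpa using hr0)
    exact this
  set p : Polynomial ℂ := ∑ i ∈ Finset.range K, Polynomial.C (g i 0) * Polynomial.X ^ i with hp
  have hpe : ∀ y, p.eval y = ∑ i ∈ Finset.range K, y ^ i * g i 0 := by
    intro y
    rw [hp, Polynomial.eval_finsetSum]
    refine Finset.sum_congr rfl fun i _ => ?_
    simp only [Polynomial.eval_mul, Polynomial.eval_C, Polynomial.eval_pow, Polynomial.eval_X]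
    ring
  have hpd : ∀ y, p.derivative.eval y = ∑ i ∈ Finset.range K, (i : ℂ) * y ^ (i - 1) * g i 0 := by
    intro y
    rw [hp, Polynomial.derivative_sum, Polynomial.eval_finsetSum]
    refine Finset.sum_congr rfl fun i _ => ?_
    simp only [Polynomial.derivative_C_mul, Polynomial.derivative_X_pow, Polynomial.eval_mul,
      Polynomial.eval_C, Polynomial.eval_pow, Polynomial.eval_X]
    ring
  have hcoeff : p.coeff i0 = g i0 0 := by
    rw [hp, Polynomial.finsetSum_coeff]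
    simp only [Polynomial.coeff_C_mul, Polynomial.coeff_X_pow]
    rw [Finset.sum_eq_single i0]
    · simp
    · intro b _ hb
      rw [if_neg (Ne.symm hb), mul_zero]
    · intro hno
      exact absurd hi0 hno
  have hp0 : p ≠ 0 := by
    intro h0
    rw [h0, Polynomial.coeff_zero] at hcoeff
    exact hg0 hcoeff.symm
  obtain ⟨⟨c, hc0, hc⟩, hpp⟩ := zl_poly hp0
  -- errors
  have he : Tendsto (fun y => G y - p.eval y) zlF (𝓝 0) := by
    have h7 : Tendsto (fun y => ∑ i ∈ Finset.range K, y ^ i * (g i (qq y) - g i 0))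
        zlF (𝓝 (∑ i ∈ Finset.range K, (0 : ℂ))) :=
      tendsto_finsetSum _ fun i hi => zl_err (hg i hi).1 i
    rw [Finset.sum_const_zero] at h7
    refine h7.congr fun y => ?_
    rw [hpe, hG, ← Finset.sum_sub_distrib]
    exact Finset.sum_congr rfl fun i _ => by ring
  have he' : Tendsto (fun y => G' y - p.derivative.eval y) zlF (𝓝 0) := by
    have h7 : Tendsto (fun y => ∑ i ∈ Finset.range K, ((i : ℂ) * (y ^ (i - 1) * (g i (qq y) - g i 0)) +
        y ^ i * (deriv (g i) (qq y) * (2 * (Real.pi : ℂ) * Complex.I * qq y))))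
        zlF (𝓝 (∑ i ∈ Finset.range K, ((i : ℂ) * 0 + 0))) :=
      tendsto_finsetSum _ fun i hi => ((zl_err (hg i hi).1 (i - 1)).const_mul (i : ℂ)).add
        (zl_err' (hg i hi).1 i)
    simp only [mul_zero, add_zero, Finset.sum_const_zero] at h7
    refine h7.congr fun y => ?_
    rw [hpd, hG', ← Finset.sum_sub_distrib]
    exact Finset.sum_congr rfl fun i _ => by ring
  have hpne : ∀ᶠ y in zlF, p.eval y ≠ 0 := by
    filter_upwards [hc] with y hy h0
    rw [h0, norm_zero] at hy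
    linarith
  -- division by `p`
  have hdiv : ∀ e : ℂ → ℂ, Tendsto e zlF (𝓝 0) → Tendsto (fun y => e y / p.eval y) zlF (𝓝 0) := by
    intro e hez
    have h1 : Tendsto (fun y => ‖e y‖ / c) zlF (𝓝 0) := by
      simpa using hez.norm.div_const c
    refine squeeze_zero_norm' ?_ h1
    filter_upwards [hc] with y hy
    rw [norm_div]
    exact div_le_div_of_nonneg_left (norm_nonneg _) hc0 hy
  have hGp : Tendsto (fun y => G y / p.eval y) zlF (𝓝 1) := by
    have h1 := (hdiv _ he).const_add (1 : ℂ)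
    rw [add_zero] at h1
    refine h1.congr' ?_
    filter_upwards [hpne] with y hy
    field_simp
    ring
  have hGp' : Tendsto (fun y => G' y / p.eval y) zlF (𝓝 0) := by
    have h1 := hpp.add (hdiv _ he')
    rw [add_zero] at h1
    refine h1.congr' ?_
    filter_upwards [hpne] with y hy
    field_simp
    ring
  have hhalf : ∀ᶠ y in zlF, c / 2 ≤ ‖G y‖ := by
    have h1 : ∀ᶠ y in zlF, (1 / 2 : ℝ) < ‖G y / p.eval y‖ :=
      hGp.norm.eventually_const_lt (by norm_num)
    filter_upwards [h1, hc, hpne] with y h1 h2 h3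
    rw [norm_div, lt_div_iff₀ (norm_pos_iff.2 h3)] at h1
    linarith
  have hGne : ∀ᶠ y in zlF, G y ≠ 0 := by
    filter_upwards [hhalf] with y hy h0
    rw [h0, norm_zero] at hy
    linarith
  have hGG : Tendsto (fun y => G' y / G y) zlF (𝓝 0) := by
    have h1 := hGp'.div hGp one_ne_zero
    rw [zero_div] at h1
    refine h1.congr' ?_
    filter_upwards [hpne, hGne] with y h2 h3
    simp only [Pi.div_apply]
    field_simp
  have hqne : ∀ y, qq y ≠ 0 := fun y => Complex.exp_ne_zero _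
  refine ⟨m, fun η hη => ?_, fun hm => ?_, fun hm => ?_⟩
  · rw [← zl_ev]
    have h1 : ∀ᶠ y in zlF, ‖G' y / G y‖ < η := hGG.norm.eventually_lt_const (by simpa using hη)
    filter_upwards [h1, hqev, hGne] with y h1 h2 h3
    refine ⟨hfan y h2, ?_, ?_⟩
    · rw [hfG y h2]
      exact mul_ne_zero (pow_ne_zero _ (hqne y)) h3
    · rw [(hfd y h2).deriv, hfG y h2, mul_div_mul_left _ _ (pow_ne_zero _ (hqne y)), add_div,
        mul_div_assoc, div_self h3, mul_one, add_sub_cancel_left]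
      exact h1.le
  · refine ⟨c / 2, by positivity, ?_⟩
    rw [← zl_ev]
    filter_upwards [hhalf, hqev] with y h1 h2
    rw [hfG y h2, hm, pow_zero, one_mul]
    exact h1
  · rw [← zl_ev]
    -- `‖G y‖ exp (- im y) → 0`
    have h1 : Tendsto (fun y : ℂ => ‖G y‖ * Real.exp (-y.im)) zlF (𝓝 0) := by
      have h2 : Tendsto (fun y : ℂ => (∑ i ∈ Finset.range K, ‖g i 0‖ * (‖y‖ ^ i * Real.exp (-y.im))) +
          ‖G y - p.eval y‖ * (‖y‖ ^ 0 * Real.exp (-y.im))) zlF
          (𝓝 ((∑ i ∈ Finset.range K, ‖g i 0‖ * 0) + 0 * 0)) := by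
        refine (tendsto_finsetSum _ fun i _ => (zl_pow_exp i).const_mul _).add
          (Tendsto.mul ?_ (zl_pow_exp 0))
        simpa using he.norm
      simp only [mul_zero, Finset.sum_const_zero, add_zero] at h2
      refine squeeze_zero (fun y => by positivity) (fun y => ?_) h2
      have h3 : ‖G y‖ ≤ ‖p.eval y‖ + ‖G y - p.eval y‖ := by
        have := norm_add_le (p.eval y) (G y - p.eval y)
        rwa [add_sub_cancel] at this
      have h4 : ‖p.eval y‖ ≤ ∑ i ∈ Finset.range K, ‖g i 0‖ * ‖y‖ ^ i := by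
        rw [hpe]
        refine (norm_sum_le _ _).trans (Finset.sum_le_sum fun i _ => ?_)
        rw [norm_mul, norm_pow, mul_comm]
      have h5 := Real.exp_pos (-y.im)
      calc ‖G y‖ * Real.exp (-y.im) ≤ ((∑ i ∈ Finset.range K, ‖g i 0‖ * ‖y‖ ^ i) +
            ‖G y - p.eval y‖) * Real.exp (-y.im) :=
            mul_le_mul_of_nonneg_right (h3.trans (add_le_add_left h4 _)) h5.le
        _ = _ := by
            rw [add_mul, Finset.sum_mul, pow_zero, one_mul]
            congr 1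
            exact Finset.sum_congr rfl fun i _ => by ring
    have h6 : ∀ᶠ y in zlF, ‖G y‖ * Real.exp (-y.im) < 1 := h1.eventually_lt_const one_pos
    filter_upwards [h6, hqev, zl_im.eventually_ge_atTop 0] with y h7 h8 h9
    rw [hfG y h8, norm_mul, norm_pow]
    have h10 : ‖qq y‖ ^ m ≤ Real.exp (-y.im) * Real.exp (-y.im) := by
      have h11 : ‖qq y‖ ≤ 1 := by
        refine (zl_qq_le h9).trans ?_
        rw [← Real.exp_add, Real.exp_le_one_iff]
        linarith
      refine (pow_le_of_le_one (norm_nonneg _) h11 (by omega)).trans (zl_qq_le h9)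
    have h12 := Real.exp_pos (-y.im)
    calc ‖qq y‖ ^ m * ‖G y‖ ≤ (Real.exp (-y.im) * Real.exp (-y.im)) * ‖G y‖ :=
          mul_le_mul_of_nonneg_right h10 (norm_nonneg _)
      _ = Real.exp (-y.im) * (‖G y‖ * Real.exp (-y.im)) := by ring
      _ ≤ Real.exp (-y.im) * 1 := mul_le_mul_of_nonneg_left h7.le h12.le
      _ = Real.exp (-y.im) := mul_one _

end MP2794d1
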