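import Pool.Agent.Lib.MP_2794d1_ag.C10
import Pool.Agent.Lib.MP_2794d1_ag.ZL
import Pool.Agent.Lib.MP_2794d1_ag.CNT

/-!
C10b (dichotomy). Fix g with v' g ≠ 0. As in C10, Y_f(y) = ∑_j homP D (G.P f j) (α y) (β y) * (G.E y *ᵥ Mh (qq y)) j is
Zfun and equals β^D V_f(y) on the strip, V y = G.E(-(α y/β y)) *ᵥ (G.E y *ᵥ Mh (qq y)). Φ_f = Y_f v' g - Y_g v' f.
If all Φ_f vanish for im y large: first alternative as in C10. Otherwise take f with Φ_f not eventually zero.
ZL for Y_g (V_g → v' g ≠ 0; β^D V_g ≠ 0 near the cusp so it is not eventually zero) gives m0, for Φ_f gives m1.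
E := Φ_f/(Y_g v' g) = V_f/V_g - v' f/v' g on the strip, E'/E = Φ_f'/Φ_f - Y_g'/Y_g → 2πi (m1 - m0). One has E → 0 and
E ≠ 0, so... to see m1 - m0 ≥ 1 (as integers): E satisfies ‖E'/E - 2πi(m1-m0)‖ ≤ 1/4 eventually; if m1 ≤ m0 then along
y = iT the function log|E(iT)| has derivative re(i E'/E) ≥ 2π(m0-m1) - 1/4·... ; for m1 = m0 use that |Φ_f| and |Y_g|:
alternatively multiply out: it is simpler to show m0 = 0 first? (β is bounded below: hβ.) Use hypothesis hβ below: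
β is bounded and bounded away from 0 on the strip, so |Y_g| ≥ ε there; by ZL (1 ≤ m0 would give |Y_g| ≤ exp(-im y))
m0 = 0; and |Φ_f| → 0, so m1 = 0 is impossible (ZL: |Φ_f| ≥ ε). So m = m1 ≥ 1. Then the cross relations for y, y' ∈ S
with the indices f, g give E y = E y'; apply count_le (E analytic, E ≠ 0, ‖E'/E - 2πi m‖ ≤ 1/8 + 1/8).
-/

namespace MP2794d1

open Matrix Complex Filter Topology

theorem dichotomy {ι : Type} [Fintype ι] [DecidableEq ι] (G : PolyGroup ι) (Mh : ℂ → ι → ℂ)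
    (hM : ∀ i, AnalyticAt ℂ (fun q => Mh q i) 0)
    (α β : ℂ → ℂ) (hα : Zfun α) (hβ : Zfun β) (v' : ι → ℂ) (hv : v' ≠ 0) (a K b0 b1 : ℝ)
    (hb0 : 0 < b0)
    (hb : ∀ z : ℂ, |z.re| ≤ 1 → a < z.im → b0 ≤ ‖β z‖ ∧ ‖β z‖ ≤ b1 ∧ ∀ i,
      ‖(G.E (-(α z / β z)) *ᵥ (G.E z *ᵥ Mh (qq z))) i - v' i‖ ≤ K * Real.exp (-z.im / 2)) :
    (∃ a' : ℝ, ∀ y : ℂ, |y.re| ≤ 1 → a' < y.im → ∃ b : ℂ, b ≠ 0 ∧
      G.E (-(α y / β y)) *ᵥ (G.E y *ᵥ Mh (qq y)) = b • v') ∨
    (∃ (M : ℕ) (a' : ℝ), ∀ S : Finset ℂ, (∀ y ∈ S, |y.re| ≤ 1 ∧ a' < y.im) →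
      (∀ y ∈ S, ∀ y' ∈ S, ∀ f g : ι,
        (G.E (-(α y / β y)) *ᵥ (G.E y *ᵥ Mh (qq y))) f *
          (G.E (-(α y' / β y')) *ᵥ (G.E y' *ᵥ Mh (qq y'))) g =
        (G.E (-(α y / β y)) *ᵥ (G.E y *ᵥ Mh (qq y))) g *
          (G.E (-(α y' / β y')) *ᵥ (G.E y' *ᵥ Mh (qq y'))) f) → S.card ≤ M) := by
  classical
  set V : ℂ → ι → ℂ := fun y => G.E (-(α y / β y)) *ᵥ (G.E y *ᵥ Mh (qq y)) with hV
  obtain ⟨g, hg⟩ : ∃ g, v' g ≠ 0 := by
    by_contra h
    push Not at h
    exact hv (funext h)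
  have hβne : ∀ z : ℂ, |z.re| ≤ 1 → a < z.im → β z ≠ 0 := by
    intro z h1 h2 h0
    have h3 := (hb z h1 h2).1
    rw [h0, norm_zero] at h3
    linarith
  -- the homogenised functions
  set D : ℕ := (Finset.univ : Finset (ι × ι)).sup (fun p => (G.P p.1 p.2).natDegree) with hD
  have hdeg : ∀ f j, (G.P f j).natDegree ≤ D := fun f j =>
    Finset.le_sup (f := fun p : ι × ι => (G.P p.1 p.2).natDegree) (Finset.mem_univ (f, j))
  set Y : ι → ℂ → ℂ := fun f y =>
    ∑ j ∈ Finset.univ, homP D (G.P f j) (α y) (β y) * (G.E y *ᵥ Mh (qq y)) j with hY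
  have hYV : ∀ f y, β y ≠ 0 → Y f y = β y ^ D * V y f := by
    intro f y hy
    have h1 : V y f = ∑ j ∈ Finset.univ, Polynomial.aeval (-(α y / β y)) (G.P f j) *
        (G.E y *ᵥ Mh (qq y)) j := rfl
    rw [h1, Finset.mul_sum]
    refine Finset.sum_congr rfl fun j _ => ?_
    rw [homP_eq D (G.P f j) (hdeg f j) (α y) (β y) hy]
    ring
  have hYZ : ∀ f, Zfun (Y f) := by
    intro f
    refine Zfun.sum _ _ fun j _ => ?_
    exact (Zfun.homP D (G.P f j) α β hα hβ).mul (c10_zfun_vec G Mh hM j)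
  set Φ : ι → ℂ → ℂ := fun f y => Y f y * v' g + (-1) * (Y g y * v' f) with hΦdef
  have hΦZ : ∀ f, Zfun (Φ f) := fun f =>
    ((hYZ f).mul (Zfun.const _)).add ((Zfun.const _).mul ((hYZ g).mul (Zfun.const _)))
  have hΦV : ∀ f y, β y ≠ 0 → Φ f y = β y ^ D * (V y f * v' g - V y g * v' f) := by
    intro f y hy
    show Y f y * v' g + (-1) * (Y g y * v' f) = _
    rw [hYV f y hy, hYV g y hy]
    ring
  obtain ⟨a2, ha2⟩ := c10_decay K (‖v' g‖ / 2) (half_pos (norm_pos_iff.2 hg))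
  have hVg2 : ∀ y : ℂ, |y.re| ≤ 1 → a < y.im → a2 < y.im → ‖v' g‖ / 2 ≤ ‖V y g‖ := by
    intro y h1 h2 h3
    have h4 : ‖V y g - v' g‖ ≤ K * Real.exp (-y.im / 2) := (hb y h1 h2).2.2 g
    have h5 := ha2 y.im h3
    have h6 : ‖v' g‖ ≤ ‖V y g‖ + ‖V y g - v' g‖ := by
      have h7 := norm_sub_le (V y g) (V y g - v' g)
      have h8 : V y g - (V y g - v' g) = v' g := by ring
      rwa [h8] at h7
    linarith
  have hVg : ∀ y : ℂ, |y.re| ≤ 1 → a < y.im → a2 < y.im → V y g ≠ 0 := by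
    intro y h1 h2 h3 h0
    have h4 := hVg2 y h1 h2 h3
    rw [h0, norm_zero] at h4
    have h5 := norm_pos_iff.2 hg
    linarith
  by_cases hall : ∀ f, ∃ a : ℝ, ∀ y : ℂ, a < y.im → Φ f y = 0
  · left
    choose A hA using hall
    obtain ⟨B, hB⟩ : ∃ B : ℝ, ∀ f, A f ≤ B := by
      obtain ⟨B, hB⟩ := (Set.finite_range A).bddAbove
      exact ⟨B, fun f => hB ⟨f, rfl⟩⟩
    refine ⟨max (max a a2) B, ?_⟩
    intro y hy1 hy2
    have hy3 : a < y.im := lt_of_le_of_lt ((le_max_left _ _).trans (le_max_left _ _)) hy2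
    have hy4 : a2 < y.im := lt_of_le_of_lt ((le_max_right _ _).trans (le_max_left _ _)) hy2
    have hy5 : B < y.im := lt_of_le_of_lt (le_max_right _ _) hy2
    refine ⟨V y g / v' g, div_ne_zero (hVg y hy1 hy3 hy4) hg, ?_⟩
    funext f
    show V y f = V y g / v' g * v' f
    have h1 := hA f y (lt_of_le_of_lt (hB f) hy5)
    have hβ0 := hβne y hy1 hy3
    rw [hΦV f y hβ0] at h1
    have h3 : V y f * v' g - V y g * v' f = 0 := by
      rcases mul_eq_zero.1 h1 with h4 | h4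
      · exact absurd h4 (pow_ne_zero _ hβ0)
      · exact h4
    rw [div_mul_eq_mul_div, eq_div_iff hg]
    linear_combination h3
  · right
    push Not at hall
    obtain ⟨f, hf⟩ := hall
    have hfne : ¬ ∃ a : ℝ, ∀ y : ℂ, a < y.im → Φ f y = 0 := by
      rintro ⟨a1, ha1⟩
      obtain ⟨y, hy, hy'⟩ := hf a1
      exact hy' (ha1 y hy)
    -- test points on the imaginary axis
    have htest : ∀ b : ℝ, ∃ y : ℂ, |y.re| ≤ 1 ∧ b < y.im := by
      intro b
      refine ⟨⟨0, b + 1⟩, by simp, ?_⟩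
      show b < b + 1
      linarith
    have hgne : ¬ ∃ a : ℝ, ∀ y : ℂ, a < y.im → Y g y = 0 := by
      rintro ⟨a1, ha1⟩
      obtain ⟨y, hy1, hy2⟩ := htest (max (max a a2) a1)
      have hy3 : a < y.im := lt_of_le_of_lt ((le_max_left _ _).trans (le_max_left _ _)) hy2
      have hy4 : a2 < y.im := lt_of_le_of_lt ((le_max_right _ _).trans (le_max_left _ _)) hy2
      have hy5 : a1 < y.im := lt_of_le_of_lt (le_max_right _ _) hy2
      have h1 := ha1 y hy5
      rw [hYV g y (hβne y hy1 hy3)] at h1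
      exact mul_ne_zero (pow_ne_zero _ (hβne y hy1 hy3)) (hVg y hy1 hy3 hy4) h1
    obtain ⟨m0, h0, -, h0p⟩ := (hYZ g).logderiv hgne
    obtain ⟨m1, h1, h1z, -⟩ := (hΦZ f).logderiv hfne
    have hm0 : m0 = 0 := by
      by_contra hm
      obtain ⟨a3, ha3⟩ := h0p (Nat.one_le_iff_ne_zero.2 hm)
      have hc : 0 < b0 ^ D * (‖v' g‖ / 2) := by
        have := norm_pos_iff.2 hg
        positivity
      obtain ⟨a4, ha4⟩ := c10_decay 1 (b0 ^ D * (‖v' g‖ / 2)) hc
      obtain ⟨y, hy1, hy2⟩ := htest (max (max (max a a2) (max a3 a4)) 0)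
      have hy3 : a < y.im := lt_of_le_of_lt ((le_max_left _ _).trans ((le_max_left _ _).trans
        (le_max_left _ _))) hy2
      have hy4 : a2 < y.im := lt_of_le_of_lt ((le_max_right _ _).trans ((le_max_left _ _).trans
        (le_max_left _ _))) hy2
      have hy5 : a3 < y.im := lt_of_le_of_lt ((le_max_left _ _).trans ((le_max_right _ _).trans
        (le_max_left _ _))) hy2
      have hy6 : a4 < y.im := lt_of_le_of_lt ((le_max_right _ _).trans ((le_max_right _ _).trans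
        (le_max_left _ _))) hy2
      have hy7 : 0 < y.im := lt_of_le_of_lt (le_max_right _ _) hy2
      have e1 := ha3 y hy1 hy5
      rw [hYV g y (hβne y hy1 hy3), norm_mul, norm_pow] at e1
      have e2 := ha4 y.im hy6
      have e3 : b0 ^ D * (‖v' g‖ / 2) ≤ ‖β y‖ ^ D * ‖V y g‖ := by
        apply mul_le_mul
        · exact pow_le_pow_left₀ hb0.le (hb y hy1 hy3).1 D
        · exact hVg2 y hy1 hy3 hy4
        · positivity
        · positivity
      have e4 : Real.exp (-y.im) ≤ Real.exp (-y.im / 2) := by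
        apply Real.exp_le_exp.2
        linarith
      linarith
    have hm1 : 1 ≤ m1 := by
      rw [Nat.one_le_iff_ne_zero]
      intro hm
      obtain ⟨ε, hε, a3, ha3⟩ := h1z hm
      obtain ⟨a4, ha4⟩ := c10_decay (|b1| ^ D * (K * (‖v' g‖ + ‖v' f‖))) ε hε
      obtain ⟨y, hy1, hy2⟩ := htest (max a (max a3 a4))
      have hy3 : a < y.im := lt_of_le_of_lt (le_max_left _ _) hy2
      have hy5 : a3 < y.im := lt_of_le_of_lt ((le_max_left _ _).trans (le_max_right _ _)) hy2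
      have hy6 : a4 < y.im := lt_of_le_of_lt ((le_max_right _ _).trans (le_max_right _ _)) hy2
      have e1 := ha3 y hy1 hy5
      rw [hΦV f y (hβne y hy1 hy3), norm_mul, norm_pow] at e1
      have e2 := ha4 y.im hy6
      have k1 : ‖V y f - v' f‖ ≤ K * Real.exp (-y.im / 2) := (hb y hy1 hy3).2.2 f
      have k2 : ‖V y g - v' g‖ ≤ K * Real.exp (-y.im / 2) := (hb y hy1 hy3).2.2 g
      have e3 : ‖V y f * v' g - V y g * v' f‖ ≤
          K * Real.exp (-y.im / 2) * (‖v' g‖ + ‖v' f‖) := by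
        have e5 : V y f * v' g - V y g * v' f =
            (V y f - v' f) * v' g - (V y g - v' g) * v' f := by ring
        rw [e5]
        refine (norm_sub_le _ _).trans ?_
        rw [norm_mul, norm_mul, mul_add]
        exact add_le_add (mul_le_mul_of_nonneg_right k1 (norm_nonneg _))
          (mul_le_mul_of_nonneg_right k2 (norm_nonneg _))
      have e6 : ‖β y‖ ^ D ≤ |b1| ^ D :=
        pow_le_pow_left₀ (norm_nonneg _) ((hb y hy1 hy3).2.1.trans (le_abs_self _)) D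
      have e7 : ‖β y‖ ^ D * ‖V y f * v' g - V y g * v' f‖ ≤
          |b1| ^ D * (K * Real.exp (-y.im / 2) * (‖v' g‖ + ‖v' f‖)) :=
        mul_le_mul e6 e3 (norm_nonneg _) (by positivity)
      have e8 : |b1| ^ D * (K * Real.exp (-y.im / 2) * (‖v' g‖ + ‖v' f‖)) =
          |b1| ^ D * (K * (‖v' g‖ + ‖v' f‖)) * Real.exp (-y.im / 2) := by ring
      linarith
    obtain ⟨a3, ha3⟩ := h0 (1 / 8) (by norm_num)
    obtain ⟨a4, ha4⟩ := h1 (1 / 8) (by norm_num)
    refine ⟨10 * m1 + 1, max (max a a2) (max a3 a4), fun S hS hcross => ?_⟩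
    have hthr : ∀ y : ℂ, max (max a a2) (max a3 a4) < y.im →
        a < y.im ∧ a2 < y.im ∧ a3 < y.im ∧ a4 < y.im := fun y hy =>
      ⟨lt_of_le_of_lt ((le_max_left _ _).trans (le_max_left _ _)) hy,
        lt_of_le_of_lt ((le_max_right _ _).trans (le_max_left _ _)) hy,
        lt_of_le_of_lt ((le_max_left _ _).trans (le_max_right _ _)) hy,
        lt_of_le_of_lt ((le_max_right _ _).trans (le_max_right _ _)) hy⟩
    apply count_le (fun y => Φ f y / (Y g y * v' g)) m1 hm1 (max (max a a2) (max a3 a4)) ?_ S hS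
    · intro y hy y' hy'
      obtain ⟨hyr, hyi⟩ := hS y hy
      obtain ⟨hyr', hyi'⟩ := hS y' hy'
      obtain ⟨t1, t2, t3, t4⟩ := hthr y hyi
      obtain ⟨s1, s2, s3, s4⟩ := hthr y' hyi'
      have b1' := hβne y hyr t1
      have b2' := hβne y' hyr' s1
      have g1 := hVg y hyr t1 t2
      have g2 := hVg y' hyr' s1 s2
      have hc := hcross y hy y' hy' f g
      show Φ f y / (Y g y * v' g) = Φ f y' / (Y g y' * v' g)
      rw [hΦV f y b1', hΦV f y' b2', hYV g y b1', hYV g y' b2']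
      have hc' : V y f * V y' g = V y g * V y' f := hc
      have p1 : β y ^ D ≠ 0 := pow_ne_zero _ b1'
      have p2 : β y' ^ D ≠ 0 := pow_ne_zero _ b2'
      rw [div_eq_div_iff (mul_ne_zero (mul_ne_zero p1 g1) hg) (mul_ne_zero (mul_ne_zero p2 g2) hg)]
      linear_combination (β y ^ D * β y' ^ D * v' g * v' g) * hc'
    · intro y hyr hyi
      obtain ⟨t1, t2, t3, t4⟩ := hthr y hyi
      obtain ⟨u1, u2, u3⟩ := ha3 y hyr t3
      obtain ⟨w1, w2, w3⟩ := ha4 y hyr t4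
      have hden : Y g y * v' g ≠ 0 := mul_ne_zero u2 hg
      refine ⟨?_, div_ne_zero w2 hden, ?_⟩
      · exact w1.div (u1.mul analyticAt_const) hden
      · have d1 : HasDerivAt (fun y => Φ f y / (Y g y * v' g))
            ((deriv (Φ f) y * (Y g y * v' g) - Φ f y * (deriv (Y g) y * v' g)) /
              (Y g y * v' g) ^ 2) y :=
          w1.differentiableAt.hasDerivAt.div (u1.differentiableAt.hasDerivAt.mul_const (v' g)) hden
        rw [d1.deriv]
        have e1 : (deriv (Φ f) y * (Y g y * v' g) - Φ f y * (deriv (Y g) y * v' g)) /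
              (Y g y * v' g) ^ 2 / (Φ f y / (Y g y * v' g)) =
            deriv (Φ f) y / Φ f y - deriv (Y g) y / Y g y := by
          field_simp
        rw [e1]
        rw [hm0, Nat.cast_zero, mul_zero, sub_zero] at u3
        have e2 : deriv (Φ f) y / Φ f y - deriv (Y g) y / Y g y -
            2 * (Real.pi : ℂ) * Complex.I * (m1 : ℂ) =
            (deriv (Φ f) y / Φ f y - 2 * (Real.pi : ℂ) * Complex.I * (m1 : ℂ)) -
              deriv (Y g) y / Y g y := by ring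
        rw [e2]
        refine (norm_sub_le _ _).trans ?_
        linarith

end MP2794d1
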