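import Pool.Agent.Lib.MP_2794d1_ag.B04
import Pool.Agent.Lib.MP_2794d1_ag.B05
import Pool.Agent.Lib.MP_2794d1_ag.B08
import Pool.Agent.Lib.MP_2794d1_ag.C09
import Pool.Agent.Lib.MP_2794d1_ag.C10

/-!
C11: put Mh q = fun f => minor (W q) f (analytic at 0). By B06 and hG, G.E z *ᵥ Mh (qq z) = minors of
uexp z * W (qq z), and v' := G.E (-c0) *ᵥ Mh 0 = minors of uexp(-c0) * W 0, which is not 0 (B01, W 0 has independent
columns and uexp(-c0) is invertible). Some minor f0 of W q is nonzero for q near 0, so W (qq z) and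
uexp z * W (qq z) have independent columns for im z > a2. Restrict I to the subtype I' of the i with im (z i) >
max (a, aF, a2) (AlgFam.comp). B04 for I', W i := uexp (z i) * W (qq (z i)) gives c'. pair (C09) gives δ and a'.
For the sequence k: from some index on k m is in I' and im > a'; apply conclude (C10) to the shifted sequence: for y in
the strip, im y large: G.E(-x) *ᵥ (G.E y *ᵥ Mh (qq y)) = b • v', x = α y/β y, b ≠ 0. By B06 the minors of
uexp(-x) * (uexp y * W (qq y)) are b times the minors of uexp(-c0) * W 0; by B05 the ranges agree; apply uexp x.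
-/

namespace MP2794d1

open Matrix Complex Filter Topology

theorem C11_minor_analytic {n r : ℕ} (W : ℂ → Matrix (Fin n) (Fin r) ℂ)
    (hW : ∀ i j, AnalyticAt ℂ (fun q => W q i j) 0) (f : Fin r → Fin n) :
    AnalyticAt ℂ (fun q => minor (W q) f) 0 := by
  have h1 : (fun q => minor (W q) f) =
      fun q => ∑ σ : Equiv.Perm (Fin r), ((Equiv.Perm.sign σ : ℤ) : ℂ) *
        ∏ i, W q (f (σ i)) i := by
    funext q
    unfold minor
    rw [Matrix.det_apply']
    rfl
  rw [h1]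
  apply Finset.analyticAt_fun_sum
  intro σ _
  apply AnalyticAt.mul analyticAt_const
  apply Finset.analyticAt_fun_prod
  intro i _
  exact hW _ _

theorem C11_qq_small (ε : ℝ) (hε : 0 < ε) : ∃ a : ℝ, ∀ z : ℂ, a < z.im → ‖qq z‖ < ε := by
  refine ⟨-(Real.log ε) / (2 * Real.pi), fun z hz => ?_⟩
  unfold qq
  rw [Complex.norm_exp]
  have h1 : (2 * (Real.pi : ℂ) * Complex.I * z).re = -(2 * Real.pi * z.im) := by
    simp
  rw [h1]
  have hpi : 0 < 2 * Real.pi := by positivity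
  rw [div_lt_iff₀ hpi] at hz
  calc Real.exp (-(2 * Real.pi * z.im)) < Real.exp (Real.log ε) := by
        apply Real.exp_lt_exp.2
        nlinarith
    _ = ε := Real.exp_log hε

theorem C11_key {n r : ℕ} (N : Matrix (Fin n) (Fin n) ℚ)
    (G : PolyGroup (Fin r → Fin n)) (hG : ∀ s : ℂ, G.E s = tens r (uexp (cm N) s)) (s : ℂ)
    (W : Matrix (Fin n) (Fin r) ℂ) :
    G.E s *ᵥ (fun g => minor W g) = fun f => minor (uexp (cm N) s * W) f := by
  rw [minor_mul, hG]

theorem C11_ne {n r : ℕ} (N : Matrix (Fin n) (Fin n) ℚ)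
    (G : PolyGroup (Fin r → Fin n)) (hG : ∀ s : ℂ, G.E s = tens r (uexp (cm N) s)) (s : ℂ)
    (W : Matrix (Fin n) (Fin r) ℂ) (f0 : Fin r → Fin n) (h0 : minor W f0 ≠ 0) :
    ∃ f, minor (uexp (cm N) s * W) f ≠ 0 := by
  by_contra hcon
  push Not at hcon
  have h1 : G.E s *ᵥ (fun g => minor W g) = 0 := by
    rw [C11_key N G hG]
    funext f
    exact hcon f
  have h2 : G.E (-s) *ᵥ (G.E s *ᵥ (fun g => minor W g)) = fun g => minor W g := by
    rw [Matrix.mulVec_mulVec, ← G.E_add, neg_add_cancel, G.E_zero, Matrix.one_mulVec]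
  rw [h1, Matrix.mulVec_zero] at h2
  exact h0 (congrFun h2 f0).symm

theorem perP {n r : ℕ} (N : Matrix (Fin n) (Fin n) ℚ) (hN : N ^ n = 0)
    (W : ℂ → Matrix (Fin n) (Fin r) ℂ) (hW : ∀ i j, AnalyticAt ℂ (fun q => W q i j) 0)
    (hW0 : LinearIndependent ℂ (W 0)ᵀ) (F : ℂ → Submodule ℂ (Fin n → ℂ)) (aF : ℝ)
    (hF : ∀ z : ℂ, aF < z.im → F z = LinearMap.range (uexp (cm N) z * W (qq z)).mulVecLin)
    (G : PolyGroup (Fin r → Fin n)) (hG : ∀ s : ℂ, G.E s = tens r (uexp (cm N) s))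
    (α β : ℂ → ℂ) (hα : Zfun α) (hβ : Zfun β) (c0 : ℂ) (a K : ℝ)
    (hb : ∀ z : ℂ, |z.re| ≤ 1 → a < z.im → β z ≠ 0 ∧ ∀ f,
      ‖(G.E (-(α z / β z)) *ᵥ (G.E z *ᵥ (fun g => minor (W (qq z)) g))) f
        - (G.E (-c0) *ᵥ (fun g => minor (W 0) g)) f‖ ≤ K * Real.exp (-z.im / 2))
    {I : Type} (z : I → ℂ) (hre : ∀ i, |(z i).re| ≤ 1)
    (H : I → ℝ) (hH : ∀ i, 1 ≤ H i)
    (A : I → Matrix (Fin n) (Fin n) ℤ) (hA : ∀ i a b, |(A i a b : ℝ)| ≤ H i)
    (hsep : ∀ i, (im (A i)).charpoly.Separable) (hst : ∀ i, ∀ x ∈ F (z i), im (A i) *ᵥ x ∈ F (z i))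
    (c : I → ℂ) (hc : ∀ i, c i ≠ 0)
    (hcα : AlgFam H (fun i => c i * α (z i))) (hcβ : AlgFam H (fun i => c i * β (z i))) :
    ∃ δ : ℝ, 0 < δ ∧ ∀ k : ℕ → I, Monotone (fun m => (z (k m)).im) →
      Tendsto (fun m => (z (k m)).im) atTop atTop →
      (∀ m, H (k m) * H (k (m + 1)) ≤ Real.exp (δ * (z (k m)).im)) →
      ∃ a' : ℝ, ∀ y : ℂ, |y.re| ≤ 1 → a' < y.im →
        F y = (LinearMap.range (uexp (cm N) (-c0) * W 0).mulVecLin).map
          (uexp (cm N) (α y / β y)).mulVecLin := by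
  classical
  obtain ⟨f0, hf0⟩ := exists_minor_ne (W 0) hW0
  have hMh : ∀ f, AnalyticAt ℂ (fun q => (fun g => minor (W q) g) f) 0 := fun f =>
    C11_minor_analytic W hW f
  have hcont : ∀ᶠ q in 𝓝 (0 : ℂ), minor (W q) f0 ≠ 0 :=
    (C11_minor_analytic W hW f0).continuousAt.eventually_ne hf0
  obtain ⟨ε, hε, hball⟩ := Metric.eventually_nhds_iff.1 hcont
  obtain ⟨a2, ha2⟩ := C11_qq_small ε hε
  have hnear : ∀ y : ℂ, a2 < y.im → minor (W (qq y)) f0 ≠ 0 := by
    intro y hy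
    apply hball
    rw [dist_zero_right]
    exact ha2 y hy
  -- linear independence of the moved frames
  have hli : ∀ y : ℂ, a2 < y.im → LinearIndependent ℂ (uexp (cm N) y * W (qq y))ᵀ := by
    intro y hy
    obtain ⟨f, hf⟩ := C11_ne N G hG y (W (qq y)) f0 (hnear y hy)
    exact linInd_of_minor_ne _ f hf
  obtain ⟨f1, hf1⟩ := C11_ne N G hG (-c0) (W 0) f0 hf0
  set v' : (Fin r → Fin n) → ℂ := G.E (-c0) *ᵥ (fun g => minor (W 0) g) with hv'
  have hv'ne : v' ≠ 0 := by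
    intro h0
    apply hf1
    have h1 := congrFun h0 f1
    rw [hv', C11_key N G hG] at h1
    exact h1
  set thr : ℝ := max (max a aF) a2 with hthr
  let I' : Type := {i : I // thr < (z i).im}
  have hthr1 : ∀ i : I', a < (z i.1).im := fun i =>
    lt_of_le_of_lt (le_trans (le_max_left _ _) (le_max_left _ _)) i.2
  have hthr2 : ∀ i : I', aF < (z i.1).im := fun i =>
    lt_of_le_of_lt (le_trans (le_max_right _ _) (le_max_left _ _)) i.2
  have hthr3 : ∀ i : I', a2 < (z i.1).im := fun i =>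
    lt_of_le_of_lt (le_max_right _ _) i.2
  obtain ⟨c', hc', hc'alg⟩ := plucker_alg (I := I') (H := fun i => H i.1) (fun i => hH i.1)
    (fun i => A i.1) (fun i => hA i.1) (fun i => hsep i.1)
    (fun i => uexp (cm N) (z i.1) * W (qq (z i.1))) (fun i => hli _ (hthr3 i)) (by
      intro i x hx
      rw [← hF (z i.1) (hthr2 i)] at hx ⊢
      exact hst i.1 x hx)
  have hMalg : ∀ f, AlgFam (fun i : I' => H i.1)
      (fun i => c' i * (G.E (z i.1) *ᵥ (fun g => minor (W (qq (z i.1))) g)) f) := by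
    intro f
    have h1 : (fun i : I' => c' i * (G.E (z i.1) *ᵥ (fun g => minor (W (qq (z i.1))) g)) f) =
        fun i : I' => c' i * minor (uexp (cm N) (z i.1) * W (qq (z i.1))) f := by
      funext i
      rw [C11_key N G hG]
    rw [h1]
    exact hc'alg f
  obtain ⟨δ, hδ, a', hpair⟩ := pair G (fun q g => minor (W q) g) α β v' hv'ne a K hb
    (fun i : I' => z i.1) (fun i => hre i.1) hthr1 (fun i => H i.1) (fun i => hH i.1)
    (fun i => c i.1) c' (fun i => hc i.1) hc'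
    (AlgFam.comp hcα (fun i : I' => i.1)) (AlgFam.comp hcβ (fun i : I' => i.1)) hMalg
  refine ⟨δ, hδ, fun k hmono htop hHH => ?_⟩
  obtain ⟨m0, hm0⟩ := (htop.eventually_gt_atTop (max thr a')).exists_forall_of_atTop
  have hI' : ∀ m, thr < (z (k (m + m0))).im := fun m =>
    lt_of_le_of_lt (le_max_left _ _) (hm0 (m + m0) (by omega))
  have hA' : ∀ m, a' < (z (k (m + m0))).im := fun m =>
    lt_of_le_of_lt (le_max_right _ _) (hm0 (m + m0) (by omega))
  obtain ⟨a3, ha3⟩ := conclude G (fun q g => minor (W q) g) hMh α β hα hβ v' hv'ne a K hb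
    (fun m => z (k (m + m0))) (fun m => hre _)
    (htop.comp (tendsto_add_atTop_nat m0)) (by
      refine Filter.Eventually.of_forall (fun m f g => ?_)
      have e1 : m + 1 + m0 = m + m0 + 1 := by omega
      have h1 := hpair ⟨k (m + m0), hI' m⟩ ⟨k (m + 1 + m0), hI' (m + 1)⟩ (hA' m)
        (hmono (by omega : m + m0 ≤ m + 1 + m0)) (by
          have h2 := hHH (m + m0)
          rw [← e1] at h2
          exact h2) f g
      exact h1)
  refine ⟨max a3 aF, fun y hyre hyim => ?_⟩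
  obtain ⟨b, hb0, hbe⟩ := ha3 y hyre (lt_of_le_of_lt (le_max_left _ _) hyim)
  have hFy := hF y (lt_of_le_of_lt (le_max_right _ _) hyim)
  set x : ℂ := α y / β y with hx
  have hmin : ∀ f, minor (uexp (cm N) (-x) * (uexp (cm N) y * W (qq y))) f =
      b * minor (uexp (cm N) (-c0) * W 0) f := by
    intro f
    have h1 := congrFun hbe f
    rw [C11_key N G hG, C11_key N G hG, hv', C11_key N G hG] at h1
    exact h1
  have hX2 : LinearIndependent ℂ (uexp (cm N) (-c0) * W 0)ᵀ := linInd_of_minor_ne _ f1 hf1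
  have hX1 : LinearIndependent ℂ (uexp (cm N) (-x) * (uexp (cm N) y * W (qq y)))ᵀ := by
    apply linInd_of_minor_ne _ f1
    rw [hmin]
    exact mul_ne_zero hb0 hf1
  have hrange := range_eq_of_minor _ _ hX2 hX1 b hmin
  rw [← hrange, ← LinearMap.range_comp, ← Matrix.mulVecLin_mul, ← Matrix.mul_assoc,
    uexp_mul_neg (cm N) (cm_pow N hN), Matrix.one_mul, hFy]

end MP2794d1
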