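import Pool.Agent.Lib.MP_2794d1_ag.B04
import Pool.Agent.Lib.MP_2794d1_ag.B05
import Pool.Agent.Lib.MP_2794d1_ag.B08
import Pool.Agent.Lib.MP_2794d1_ag.C09
import Pool.Agent.Lib.MP_2794d1_ag.C10b
import Pool.Agent.Lib.MP_2794d1_ag.C11

/-!
C11b: chain version of perP. As in C11, with `dichotomy` in place of `conclude`: in the first alternative the conclusion
holds outright; in the second a chain of M+1 distinct points would give a set of M+1 points with pairwise cross
relations (pair lemma for consecutive points, transitivity since the vectors are not zero).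
-/

namespace MP2794d1

open Matrix Complex Filter Topology

theorem C11b_trans {ι : Type} (u v w : ι → ℂ) (hv : v ≠ 0)
    (h1 : ∀ f g : ι, u f * v g = u g * v f) (h2 : ∀ f g : ι, v f * w g = v g * w f) :
    ∀ f g : ι, u f * w g = u g * w f := by
  intro f g
  obtain ⟨h, hh⟩ := Function.ne_iff.1 hv
  have hh' : v h ≠ 0 := hh
  apply mul_right_cancel₀ hh'
  have e1 := h1 f g
  have e2 := h2 h g
  have e3 := h2 f h
  linear_combination (u f) * e2 + w h * e1 + u g * e3

theorem C11b_symm {ι : Type} (u v : ι → ℂ)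
    (h1 : ∀ f g : ι, u f * v g = u g * v f) : ∀ f g : ι, v f * u g = v g * u f := by
  intro f g
  linear_combination -(h1 f g)

theorem perP_chain {n r : ℕ} (N : Matrix (Fin n) (Fin n) ℚ) (hN : N ^ n = 0)
    (W : ℂ → Matrix (Fin n) (Fin r) ℂ) (hW : ∀ i j, AnalyticAt ℂ (fun q => W q i j) 0)
    (hW0 : LinearIndependent ℂ (W 0)ᵀ) (F : ℂ → Submodule ℂ (Fin n → ℂ)) (aF : ℝ)
    (hF : ∀ z : ℂ, aF < z.im → F z = LinearMap.range (uexp (cm N) z * W (qq z)).mulVecLin)
    (G : PolyGroup (Fin r → Fin n)) (hG : ∀ s : ℂ, G.E s = tens r (uexp (cm N) s))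
    (α β : ℂ → ℂ) (hα : Zfun α) (hβ : Zfun β) (c0 : ℂ) (a K b0 b1 : ℝ) (hb0 : 0 < b0)
    (hb : ∀ z : ℂ, |z.re| ≤ 1 → a < z.im → b0 ≤ ‖β z‖ ∧ ‖β z‖ ≤ b1 ∧ ∀ f,
      ‖(G.E (-(α z / β z)) *ᵥ (G.E z *ᵥ (fun g => minor (W (qq z)) g))) f
        - (G.E (-c0) *ᵥ (fun g => minor (W 0) g)) f‖ ≤ K * Real.exp (-z.im / 2))
    {I : Type} (z : I → ℂ) (hre : ∀ i, |(z i).re| ≤ 1)
    (H : I → ℝ) (hH : ∀ i, 1 ≤ H i)
    (A : I → Matrix (Fin n) (Fin n) ℤ) (hA : ∀ i a b, |(A i a b : ℝ)| ≤ H i)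
    (hsep : ∀ i, (im (A i)).charpoly.Separable) (hst : ∀ i, ∀ x ∈ F (z i), im (A i) *ᵥ x ∈ F (z i))
    (c : I → ℂ) (hc : ∀ i, c i ≠ 0)
    (hcα : AlgFam H (fun i => c i * α (z i))) (hcβ : AlgFam H (fun i => c i * β (z i))) :
    ∃ δ : ℝ, 0 < δ ∧ ∃ (M : ℕ) (Y : ℝ), ∀ (m : ℕ), M ≤ m → ∀ k : ℕ → I,
      (∀ i j, i ≤ m → j ≤ m → z (k i) = z (k j) → i = j) → (∀ i, i ≤ m → Y < (z (k i)).im) →
      (∀ i, i < m → H (k i) * H (k (i + 1)) ≤
        Real.exp (δ * min (z (k i)).im (z (k (i + 1))).im)) →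
      ∃ a' : ℝ, ∀ y : ℂ, |y.re| ≤ 1 → a' < y.im →
        F y = (LinearMap.range (uexp (cm N) (-c0) * W 0).mulVecLin).map
          (uexp (cm N) (α y / β y)).mulVecLin := by
  classical
  obtain ⟨f0, hf0⟩ := exists_minor_ne (W 0) hW0
  have hMh : ∀ f, AnalyticAt ℂ (fun q => (fun g => minor (W q) g) f) 0 := fun f =>
    C11_minor_analytic W hW f
  have hcont : ∀ᶠ q in 𝓝 (0 : ℂ), minor (W q) f0 ≠ 0 :=
    (C11_minor_analytic W hW f0).continuousAt.eventually_ne hf0
  obtain ⟨ε, hε, hball⟩ := Metric.eventually_nhds_iff.1 hcont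
  obtain ⟨a2, ha2⟩ := C11_qq_small ε hε
  have hnear : ∀ y : ℂ, a2 < y.im → minor (W (qq y)) f0 ≠ 0 := by
    intro y hy
    apply hball
    rw [dist_zero_right]
    exact ha2 y hy
  have hli : ∀ y : ℂ, a2 < y.im → LinearIndependent ℂ (uexp (cm N) y * W (qq y))ᵀ := by
    intro y hy
    obtain ⟨f, hf⟩ := C11_ne N G hG y (W (qq y)) f0 (hnear y hy)
    exact linInd_of_minor_ne _ f hf
  obtain ⟨f1, hf1⟩ := C11_ne N G hG (-c0) (W 0) f0 hf0
  set v' : (Fin r → Fin n) → ℂ := G.E (-c0) *ᵥ (fun g => minor (W 0) g) with hv'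
  have hv'ne : v' ≠ 0 := by
    intro h0
    apply hf1
    have h1 := congrFun h0 f1
    rw [hv', C11_key N G hG] at h1
    exact h1
  have hb' : ∀ z : ℂ, |z.re| ≤ 1 → a < z.im → β z ≠ 0 ∧ ∀ f,
      ‖(G.E (-(α z / β z)) *ᵥ (G.E z *ᵥ (fun g => minor (W (qq z)) g))) f
        - v' f‖ ≤ K * Real.exp (-z.im / 2) := by
    intro y h1 h2
    obtain ⟨k1, k2, k3⟩ := hb y h1 h2
    exact ⟨fun h0 => by rw [h0, norm_zero] at k1; linarith, k3⟩
  set thr : ℝ := max (max a aF) a2 with hthr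
  let I' : Type := {i : I // thr < (z i).im}
  have hthr1 : ∀ i : I', a < (z i.1).im := fun i =>
    lt_of_le_of_lt (le_trans (le_max_left _ _) (le_max_left _ _)) i.2
  have hthr2 : ∀ i : I', aF < (z i.1).im := fun i =>
    lt_of_le_of_lt (le_trans (le_max_right _ _) (le_max_left _ _)) i.2
  have hthr3 : ∀ i : I', a2 < (z i.1).im := fun i =>
    lt_of_le_of_lt (le_max_right _ _) i.2
  obtain ⟨c', hc', hc'alg⟩ := plucker_alg (I := I') (H := fun i => H i.1) (fun i => hH i.1)
    (fun i => A i.1) (fun i => hA i.1) (fun i => hsep i.1)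
    (fun i => uexp (cm N) (z i.1) * W (qq (z i.1))) (fun i => hli _ (hthr3 i)) (by
      intro i x hx
      rw [← hF (z i.1) (hthr2 i)] at hx ⊢
      exact hst i.1 x hx)
  have hMalg : ∀ f, AlgFam (fun i : I' => H i.1)
      (fun i => c' i * (G.E (z i.1) *ᵥ (fun g => minor (W (qq (z i.1))) g)) f) := by
    intro f
    have h1 : (fun i : I' => c' i * (G.E (z i.1) *ᵥ (fun g => minor (W (qq (z i.1))) g)) f) =
        fun i : I' => c' i * minor (uexp (cm N) (z i.1) * W (qq (z i.1))) f := by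
      funext i
      rw [C11_key N G hG]
    rw [h1]
    exact hc'alg f
  obtain ⟨δ, hδ, a', hpair⟩ := pair G (fun q g => minor (W q) g) α β v' hv'ne a K hb'
    (fun i : I' => z i.1) (fun i => hre i.1) hthr1 (fun i => H i.1) (fun i => hH i.1)
    (fun i => c i.1) c' (fun i => hc i.1) hc'
    (AlgFam.comp hcα (fun i : I' => i.1)) (AlgFam.comp hcβ (fun i : I' => i.1)) hMalg
  have hfinal : ∀ y : ℂ, aF < y.im → (∃ b : ℂ, b ≠ 0 ∧
      G.E (-(α y / β y)) *ᵥ (G.E y *ᵥ (fun g => minor (W (qq y)) g)) = b • v') →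
      F y = (LinearMap.range (uexp (cm N) (-c0) * W 0).mulVecLin).map
          (uexp (cm N) (α y / β y)).mulVecLin := by
    rintro y hyF ⟨b, hb0', hbe⟩
    have hFy := hF y hyF
    set x : ℂ := α y / β y with hx
    have hmin : ∀ f, minor (uexp (cm N) (-x) * (uexp (cm N) y * W (qq y))) f =
        b * minor (uexp (cm N) (-c0) * W 0) f := by
      intro f
      have h1 := congrFun hbe f
      rw [C11_key N G hG, C11_key N G hG, hv', C11_key N G hG] at h1
      exact h1
    have hX2 : LinearIndependent ℂ (uexp (cm N) (-c0) * W 0)ᵀ := linInd_of_minor_ne _ f1 hf1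
    have hX1 : LinearIndependent ℂ (uexp (cm N) (-x) * (uexp (cm N) y * W (qq y)))ᵀ := by
      apply linInd_of_minor_ne _ f1
      rw [hmin]
      exact mul_ne_zero hb0' hf1
    have hrange := range_eq_of_minor _ _ hX2 hX1 b hmin
    rw [← hrange, ← LinearMap.range_comp, ← Matrix.mulVecLin_mul, ← Matrix.mul_assoc,
      uexp_mul_neg (cm N) (cm_pow N hN), Matrix.one_mul, hFy]
  rcases dichotomy G (fun q g => minor (W q) g) hMh α β hα hβ v' hv'ne a K b0 b1 hb0 hb with
    ⟨a3, ha3⟩ | ⟨M, a3, hM⟩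
  · refine ⟨δ, hδ, 0, 0, fun m _ k _ _ _ => ⟨max a3 aF, fun y hyre hyim => ?_⟩⟩
    exact hfinal y (lt_of_le_of_lt (le_max_right _ _) hyim)
      (ha3 y hyre (lt_of_le_of_lt (le_max_left _ _) hyim))
  · refine ⟨δ, hδ, M, max (max thr a') a3, fun m hm k hinj hY hHH => ?_⟩
    exfalso
    have hI' : ∀ i, i ≤ m → thr < (z (k i)).im := fun i hi =>
      lt_of_le_of_lt (le_trans (le_max_left _ _) (le_max_left _ _)) (hY i hi)
    have hA' : ∀ i, i ≤ m → a' < (z (k i)).im := fun i hi =>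
      lt_of_le_of_lt (le_trans (le_max_right _ _) (le_max_left _ _)) (hY i hi)
    have h3' : ∀ i, i ≤ m → a3 < (z (k i)).im := fun i hi =>
      lt_of_le_of_lt (le_max_right _ _) (hY i hi)
    set Vv : ℕ → (Fin r → Fin n) → ℂ := fun i =>
      G.E (-(α (z (k i)) / β (z (k i)))) *ᵥ
        (G.E (z (k i)) *ᵥ (fun g => minor (W (qq (z (k i)))) g)) with hVv
    have hVne : ∀ i, i ≤ m → Vv i ≠ 0 := by
      intro i hi h0
      have h1 : G.E (α (z (k i)) / β (z (k i))) *ᵥ Vv i =
          G.E (z (k i)) *ᵥ (fun g => minor (W (qq (z (k i)))) g) := by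
        rw [hVv]
        show G.E (α (z (k i)) / β (z (k i))) *ᵥ (G.E (-(α (z (k i)) / β (z (k i)))) *ᵥ
          (G.E (z (k i)) *ᵥ (fun g => minor (W (qq (z (k i)))) g))) = _
        rw [Matrix.mulVec_mulVec, ← G.E_add, add_neg_cancel, G.E_zero, Matrix.one_mulVec]
      rw [h0, Matrix.mulVec_zero] at h1
      have h2 : G.E (-(z (k i))) *ᵥ (G.E (z (k i)) *ᵥ (fun g => minor (W (qq (z (k i)))) g)) =
          fun g => minor (W (qq (z (k i)))) g := by
        rw [Matrix.mulVec_mulVec, ← G.E_add, neg_add_cancel, G.E_zero, Matrix.one_mulVec]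
      rw [← h1, Matrix.mulVec_zero] at h2
      exact hnear (z (k i)) (lt_of_le_of_lt (le_max_right _ _) (hI' i hi)) (congrFun h2 f0).symm
    have hcons : ∀ i, i < m → ∀ f g, Vv i f * Vv (i + 1) g = Vv i g * Vv (i + 1) f := by
      intro i hi
      have hi1 : i ≤ m := le_of_lt hi
      have hi2 : i + 1 ≤ m := hi
      rcases le_total (z (k i)).im (z (k (i + 1))).im with hle | hle
      · have h1 := hpair ⟨k i, hI' i hi1⟩ ⟨k (i + 1), hI' (i + 1) hi2⟩ (hA' i hi1) hle (by
          have h2 := hHH i hi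
          rw [min_eq_left hle] at h2
          exact h2)
        exact h1
      · have h1 := hpair ⟨k (i + 1), hI' (i + 1) hi2⟩ ⟨k i, hI' i hi1⟩ (hA' (i + 1) hi2) hle (by
          have h2 := hHH i hi
          rw [min_eq_right hle, mul_comm] at h2
          exact h2)
        exact C11b_symm _ _ h1
    have hzero : ∀ i, i ≤ m → ∀ f g, Vv 0 f * Vv i g = Vv 0 g * Vv i f := by
      intro i
      induction i with
      | zero =>
        intro _ f g
        ring
      | succ i ih =>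
        intro hi
        exact C11b_trans _ _ _ (hVne i (by omega)) (ih (by omega)) (hcons i (by omega))
    have hall : ∀ i j, i ≤ m → j ≤ m → ∀ f g, Vv i f * Vv j g = Vv i g * Vv j f := by
      intro i j hi hj
      exact C11b_trans _ _ _ (hVne 0 (by omega)) (C11b_symm _ _ (hzero i hi)) (hzero j hj)
    have hcard := hM ((Finset.range (m + 1)).image (fun i => z (k i))) (by
        intro y hy
        obtain ⟨i, hi, rfl⟩ := Finset.mem_image.1 hy
        have hi' : i ≤ m := by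
          have := Finset.mem_range.1 hi
          omega
        exact ⟨hre _, h3' i hi'⟩) (by
        intro y hy y' hy'
        obtain ⟨i, hi, rfl⟩ := Finset.mem_image.1 hy
        obtain ⟨j, hj, rfl⟩ := Finset.mem_image.1 hy'
        have hi' : i ≤ m := by
          have := Finset.mem_range.1 hi
          omega
        have hj' : j ≤ m := by
          have := Finset.mem_range.1 hj
          omega
        exact hall i j hi' hj')
    rw [Finset.card_image_of_injOn (by
      intro i hi j hj hij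
      have hi' : i ≤ m := by
        have := Finset.mem_range.1 (Finset.mem_coe.1 hi)
        omega
      have hj' : j ≤ m := by
        have := Finset.mem_range.1 (Finset.mem_coe.1 hj)
        omega
      exact hinj i j hi' hj' hij), Finset.card_range] at hcard
    omega

end MP2794d1
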