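import Pool.Agent.Lib.MP_2794d1_ag.C01
import Pool.Agent.Lib.MP_2794d1_ag.C02
import Pool.Agent.Lib.MP_2794d1_ag.C04
import Pool.Agent.Lib.MP_2794d1_ag.C06
import Pool.Agent.Lib.MP_2794d1_ag.C11

/-!
C12 (Stage 1). For every p choose r, W, aF from c.ext p (qq z is the exponential there), G from exists_tensGroup,
Mh q = minors of W q. For the index type take
I = {i : ℂ × ℝ | |i.1.re| ≤ 1 ∧ A0 < i.1.im ∧ 1 ≤ i.2 ∧ IsCM V i.1 i.2}, with integral matrices A i from IsCM.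
Case 1: for some p0 with V.lo ≤ p0 ≤ V.hi there is s with G.E s *ᵥ Mh 0 ≠ Mh 0. C01 gives l0, l1, l ≠ 0, k; put
β z = ∑ l0 i (G.E z *ᵥ Mh (qq z)) i, α z = ∑ l1 i (...) i (Zfun by C02: the entries of G.E z are polynomials in z),
c0 = k/l, x = α/β. A0 is such that W (qq z) has independent columns for im z > A0, z in the strip (some minor of W 0 is
nonzero); B04 (W i := uexp z * W (qq z)) gives c with c i * minors AlgFam, hence c i * α (z i), c i * β (z i) are
AlgFam (algSub is a ℚ-subalgebra). C06 gives |x - z - c0| ≤ K exp(-im z/2), C07 the bound hb for every p in [lo, hi].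
Apply perP (C11) to each p in [lo, hi]; δ := the minimum of the finitely many δ's (≤ works since im > 0: H H ≤
exp(δ im) ≤ exp(δ_p im)); u := x, F0 p := range (uexp(-c0) * W_p 0) for lo ≤ p ≤ hi, ⊤ for p < lo, ⊥ for p > hi
(F_lo, F_hi, IsPHS.anti). u is analytic for im z > a in the strip (C04, β ≠ 0 there). deriv u ≠ 0 somewhere: otherwise u
is constant on the strip |re| < 1, a < im (convex, open), but |u z - z - c0| ≤ K exp(-im z/2) → contradiction at
z = iy and z = i(y + 10), y large.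
Case 2: for all p in [lo, hi], all s: G.E s *ᵥ Mh 0 = Mh 0. Take α = 0, β = 1, c = 1 (AlgFam.const), c0 = 0, x = u = 0;
hb is C05 (exp(-im) ≤ exp(-im/2)) since G.E (-0) = 1. F0 p = range (uexp (-0) * W_p 0) = range (W_p 0); the second
alternative of the conclusion holds because the minors of uexp s * W_p 0 are those of W_p 0 (B05).
In case 2 take any A0 for which things are defined (e.g. A0 = 0).
-/

namespace MP2794d1

open Matrix Complex Filter Topology

theorem C12_min (S : Finset ℤ) (Q : ℤ → ℝ → Prop)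
    (hQ : ∀ p d d', 0 < d' → d' ≤ d → Q p d → Q p d') (h : ∀ p ∈ S, ∃ d, 0 < d ∧ Q p d) :
    ∃ d, 0 < d ∧ ∀ p ∈ S, Q p d := by
  classical
  induction S using Finset.induction_on with
  | empty => exact ⟨1, one_pos, fun p hp => absurd hp (Finset.notMem_empty p)⟩
  | insert a S _ ih =>
    obtain ⟨d1, hd1, h1⟩ := ih fun p hp => h p (Finset.mem_insert_of_mem hp)
    obtain ⟨d2, hd2, h2⟩ := h a (Finset.mem_insert_self a S)
    refine ⟨min d1 d2, lt_min hd1 hd2, fun p hp => ?_⟩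
    rcases Finset.mem_insert.1 hp with rfl | hp
    · exact hQ _ d2 _ (lt_min hd1 hd2) (min_le_right _ _) h2
    · exact hQ _ d1 _ (lt_min hd1 hd2) (min_le_left _ _) (h1 p hp)

theorem C12_max (S : Finset ℤ) (Q : ℤ → ℝ → Prop)
    (hQ : ∀ p d d', d ≤ d' → Q p d → Q p d') (h : ∀ p ∈ S, ∃ d, Q p d) :
    ∃ d, 0 ≤ d ∧ ∀ p ∈ S, Q p d := by
  classical
  induction S using Finset.induction_on with
  | empty => exact ⟨0, le_rfl, fun p hp => absurd hp (Finset.notMem_empty p)⟩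
  | insert a S _ ih =>
    obtain ⟨d1, hd1, h1⟩ := ih fun p hp => h p (Finset.mem_insert_of_mem hp)
    obtain ⟨d2, h2⟩ := h a (Finset.mem_insert_self a S)
    refine ⟨max d1 d2, le_max_of_le_left hd1, fun p hp => ?_⟩
    rcases Finset.mem_insert.1 hp with rfl | hp
    · exact hQ _ d2 _ (le_max_right _ _) h2
    · exact hQ _ d1 _ (le_max_left _ _) (h1 p hp)

/-- the index type -/
abbrev C12_I {n : ℕ} (V : PolVHS n) (A0 : ℝ) : Type :=
  {i : ℂ × ℝ // |i.1.re| ≤ 1 ∧ A0 < i.1.im ∧ 1 ≤ i.2 ∧ IsCM V i.1 i.2}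

theorem C12_core {n : ℕ} (V : PolVHS n) (N : Matrix (Fin n) (Fin n) ℚ) (hN : N ^ n = 0)
    (r : ℤ → ℕ) (W : (p : ℤ) → ℂ → Matrix (Fin n) (Fin (r p)) ℂ) (aF : ℤ → ℝ)
    (hW : ∀ p i j, AnalyticAt ℂ (fun q => W p q i j) 0)
    (hW0 : ∀ p, LinearIndependent ℂ (W p 0)ᵀ)
    (hF : ∀ p, ∀ z : ℂ, aF p < z.im →
      V.F p z = LinearMap.range (uexp (cm N) z * W p (qq z)).mulVecLin)
    (G : (p : ℤ) → PolyGroup (Fin (r p) → Fin n))
    (hG : ∀ p, ∀ s : ℂ, (G p).E s = tens (r p) (uexp (cm N) s))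
    (α β : ℂ → ℂ) (hα : Zfun α) (hβ : Zfun β) (c0 : ℂ)
    (hb : ∀ p ∈ Finset.Icc V.lo V.hi, ∃ a K : ℝ, ∀ z : ℂ, |z.re| ≤ 1 → a < z.im → β z ≠ 0 ∧ ∀ f,
      ‖((G p).E (-(α z / β z)) *ᵥ ((G p).E z *ᵥ (fun g => minor (W p (qq z)) g))) f
        - ((G p).E (-c0) *ᵥ (fun g => minor (W p 0) g)) f‖ ≤ K * Real.exp (-z.im / 2))
    (A0 : ℝ) (hA0 : 0 ≤ A0) (cc : C12_I V A0 → ℂ) (hc : ∀ i, cc i ≠ 0)
    (hcα : AlgFam (fun i : C12_I V A0 => i.1.2) (fun i => cc i * α i.1.1))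
    (hcβ : AlgFam (fun i : C12_I V A0 => i.1.2) (fun i => cc i * β i.1.1)) :
    ∃ δ : ℝ, 0 < δ ∧ ∀ (z : ℕ → ℂ) (H : ℕ → ℝ), (∀ k, |(z k).re| ≤ 1) → (∀ k, 0 < (z k).im) →
      Monotone (fun k => (z k).im) → Tendsto (fun k => (z k).im) atTop atTop →
      (∀ k, 1 ≤ H k) → (∀ k, IsCM V (z k) (H k)) →
      (∀ k, H k * H (k + 1) ≤ Real.exp (δ * (z k).im)) →
      ∃ a' : ℝ, 0 ≤ a' ∧ ∀ p ∈ Finset.Icc V.lo V.hi, ∀ y : ℂ, |y.re| ≤ 1 → a' < y.im →
        V.F p y = (LinearMap.range (uexp (cm N) (-c0) * W p 0).mulVecLin).map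
          (uexp (cm N) (α y / β y)).mulVecLin := by
  have hcm : ∀ i : C12_I V A0, IsCM V i.1.1 i.1.2 := fun i => i.2.2.2.2
  choose A hA hsep hst using hcm
  obtain ⟨δ, hδ, h⟩ := C12_min (Finset.Icc V.lo V.hi)
    (fun p δ => ∀ k : ℕ → C12_I V A0, Monotone (fun m => ((k m).1.1).im) →
      Tendsto (fun m => ((k m).1.1).im) atTop atTop →
      (∀ m, (k m).1.2 * (k (m + 1)).1.2 ≤ Real.exp (δ * ((k m).1.1).im)) →
      ∃ a' : ℝ, ∀ y : ℂ, |y.re| ≤ 1 → a' < y.im →
        V.F p y = (LinearMap.range (uexp (cm N) (-c0) * W p 0).mulVecLin).map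
          (uexp (cm N) (α y / β y)).mulVecLin)
    (by
      intro p d d' _ hdd hQ k h1 h2 h3
      refine hQ k h1 h2 fun m => (h3 m).trans ?_
      have him : 0 < ((k m).1.1).im := lt_of_le_of_lt hA0 (k m).2.2.1
      exact Real.exp_le_exp.2 (mul_le_mul_of_nonneg_right hdd him.le))
    (by
      intro p hp
      obtain ⟨a, K, hb'⟩ := hb p hp
      exact perP N hN (W p) (hW p) (hW0 p) (V.F p) (aF p) (hF p) (G p) (hG p) α β hα hβ c0 a K hb'
        (fun i : C12_I V A0 => i.1.1) (fun i => i.2.1) (fun i => i.1.2) (fun i => i.2.2.2.1) A hA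
        hsep (fun i => hst i p) cc hc hcα hcβ)
  refine ⟨δ, hδ, fun z H hre him hmono htend hH hcm hHH => ?_⟩
  obtain ⟨m0, hm0⟩ := (htend.eventually (eventually_gt_atTop A0)).exists_forall_of_atTop
  let k : ℕ → C12_I V A0 := fun m =>
    ⟨(z (m + m0), H (m + m0)), hre _, hm0 _ (Nat.le_add_left _ _), hH _, hcm _⟩
  obtain ⟨a', ha', h'⟩ := C12_max (Finset.Icc V.lo V.hi)
    (fun p a' => ∀ y : ℂ, |y.re| ≤ 1 → a' < y.im →
        V.F p y = (LinearMap.range (uexp (cm N) (-c0) * W p 0).mulVecLin).map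
          (uexp (cm N) (α y / β y)).mulVecLin)
    (fun p d d' hdd hQ y hy hy' => hQ y hy (lt_of_le_of_lt hdd hy'))
    (fun p hp => h p hp k
      (fun a b hab => hmono (Nat.add_le_add_right hab m0))
      (htend.comp (tendsto_add_atTop_nat m0))
      (fun m => by
        have h1 := hHH (m + m0)
        have h2 : m + 1 + m0 = m + m0 + 1 := by omega
        show H (m + m0) * H (m + 1 + m0) ≤ Real.exp (δ * (z (m + m0)).im)
        rw [h2]
        exact h1))
  exact ⟨a', ha', h'⟩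

theorem C12_top {n : ℕ} (N : Matrix (Fin n) (Fin n) ℂ) (hN : N ^ n = 0) (s : ℂ) :
    (⊤ : Submodule ℂ (Fin n → ℂ)).map (uexp N s).mulVecLin = ⊤ := by
  rw [eq_top_iff]
  intro x _
  refine ⟨uexp N (-s) *ᵥ x, trivial, ?_⟩
  rw [Matrix.mulVecLin_apply, Matrix.mulVec_mulVec, uexp_mul_neg N hN, Matrix.one_mulVec]

theorem C12_finish {n : ℕ} (V : PolVHS n) (N : Matrix (Fin n) (Fin n) ℚ) (hN : N ^ n = 0)
    (r : ℤ → ℕ) (W : (p : ℤ) → ℂ → Matrix (Fin n) (Fin (r p)) ℂ)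
    (α β : ℂ → ℂ) (hα : Zfun α) (hβ : Zfun β) (c0 : ℂ)
    (hβ0 : ∃ a : ℝ, ∀ z : ℂ, |z.re| ≤ 1 → a < z.im → β z ≠ 0)
    (a' : ℝ) (ha' : 0 ≤ a')
    (h : ∀ p ∈ Finset.Icc V.lo V.hi, ∀ y : ℂ, |y.re| ≤ 1 → a' < y.im →
        V.F p y = (LinearMap.range (uexp (cm N) (-c0) * W p 0).mulVecLin).map
          (uexp (cm N) (α y / β y)).mulVecLin)
    (halt : (∀ a : ℝ, 0 ≤ a →
        (∀ y : ℂ, |y.re| < 1 → a < y.im → AnalyticAt ℂ (fun z => α z / β z) y) →
        ∃ y : ℂ, |y.re| < 1 ∧ a < y.im ∧ deriv (fun z => α z / β z) y ≠ 0) ∨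
      ∀ p, ∀ x ∈ LinearMap.range (uexp (cm N) (-c0) * W p 0).mulVecLin, p ∈ Finset.Icc V.lo V.hi →
        ∀ s : ℂ, uexp (cm N) s *ᵥ x ∈ LinearMap.range (uexp (cm N) (-c0) * W p 0).mulVecLin) :
    ∃ (a : ℝ) (u : ℂ → ℂ) (F0 : ℤ → Submodule ℂ (Fin n → ℂ)), 0 ≤ a ∧
        (∀ y : ℂ, |y.re| < 1 → a < y.im → AnalyticAt ℂ u y) ∧
        (∀ y : ℂ, |y.re| < 1 → a < y.im → ∀ p, V.F p y = (F0 p).map (uexp (cm N) (u y)).mulVecLin) ∧
        ((∃ y : ℂ, |y.re| < 1 ∧ a < y.im ∧ deriv u y ≠ 0) ∨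
          ∀ p, ∀ x ∈ F0 p, ∀ s : ℂ, uexp (cm N) s *ᵥ x ∈ F0 p) := by
  classical
  obtain ⟨a1, ha1⟩ := hα.analytic
  obtain ⟨a2, ha2⟩ := hβ.analytic
  obtain ⟨a3, ha3⟩ := hβ0
  let a : ℝ := max (max a1 a2) (max a3 a')
  have e1 : a1 ≤ a := (le_max_left _ _).trans (le_max_left _ _)
  have e2 : a2 ≤ a := (le_max_right _ _).trans (le_max_left _ _)
  have e3 : a3 ≤ a := (le_max_left _ _).trans (le_max_right _ _)
  have e4 : a' ≤ a := (le_max_right _ _).trans (le_max_right _ _)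
  have ha0 : 0 ≤ a := ha'.trans e4
  let F0 : ℤ → Submodule ℂ (Fin n → ℂ) := fun p =>
    if p < V.lo then ⊤ else if V.hi < p then ⊥ else
      LinearMap.range (uexp (cm N) (-c0) * W p 0).mulVecLin
  have hN' : (cm N) ^ n = 0 := cm_pow N hN
  have han : ∀ y : ℂ, |y.re| < 1 → a < y.im → AnalyticAt ℂ (fun z => α z / β z) y := by
    intro y hy hy'
    exact (ha1 y (lt_of_le_of_lt e1 hy')).div (ha2 y (lt_of_le_of_lt e2 hy'))
      (ha3 y hy.le (lt_of_le_of_lt e3 hy'))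
  refine ⟨a, fun z => α z / β z, F0, ha0, han, ?_, ?_⟩
  · intro y hy hy' p
    have hyim : 0 < y.im := lt_of_le_of_lt ha0 hy'
    have hanti := (V.phs y hyim).anti
    by_cases h1 : p < V.lo
    · have hF0 : F0 p = ⊤ := if_pos h1
      rw [hF0, C12_top _ hN', eq_top_iff]
      have h2 := hanti p V.lo h1.le
      have h3 : V.F V.lo y = ⊤ := V.F_lo y hyim
      exact h3 ▸ h2
    · by_cases h2 : V.hi < p
      · have hF0 : F0 p = ⊥ := by
          show (if p < V.lo then _ else if V.hi < p then _ else _) = _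
          rw [if_neg h1, if_pos h2]
        rw [hF0, Submodule.map_bot, eq_bot_iff]
        have h3 := hanti V.hi p h2.le
        have h4 : V.F V.hi y = ⊥ := V.F_hi y hyim
        exact h4 ▸ h3
      · have hF0 : F0 p = LinearMap.range (uexp (cm N) (-c0) * W p 0).mulVecLin := by
          show (if p < V.lo then _ else if V.hi < p then _ else _) = _
          rw [if_neg h1, if_neg h2]
        rw [hF0]
        exact h p (Finset.mem_Icc.2 ⟨not_lt.1 h1, not_lt.1 h2⟩) y hy.le (lt_of_le_of_lt e4 hy')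
  · rcases halt with halt | halt
    · exact Or.inl (halt a ha0 han)
    · refine Or.inr fun p x hx s => ?_
      by_cases h1 : p < V.lo
      · have hF0 : F0 p = ⊤ := if_pos h1
        rw [hF0]
        exact Submodule.mem_top
      · by_cases h2 : V.hi < p
        · have hF0 : F0 p = ⊥ := by
            show (if p < V.lo then _ else if V.hi < p then _ else _) = _
            rw [if_neg h1, if_pos h2]
          rw [hF0] at hx ⊢
          rw [(Submodule.mem_bot ℂ).1 hx, Matrix.mulVec_zero]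
          exact Submodule.zero_mem _
        · have hF0 : F0 p = LinearMap.range (uexp (cm N) (-c0) * W p 0).mulVecLin := by
            show (if p < V.lo then _ else if V.hi < p then _ else _) = _
            rw [if_neg h1, if_neg h2]
          rw [hF0] at hx ⊢
          exact halt p x hx (Finset.mem_Icc.2 ⟨not_lt.1 h1, not_lt.1 h2⟩) s

/-- the clock has non-constant derivative -/
theorem C12_deriv (u : ℂ → ℂ) (c0 : ℂ) (a K a0 : ℝ)
    (hu : ∀ z : ℂ, |z.re| ≤ 1 → a < z.im → ‖u z - z - c0‖ ≤ K * Real.exp (-z.im / 2))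
    (han : ∀ y : ℂ, |y.re| < 1 → a0 < y.im → AnalyticAt ℂ u y) :
    ∃ y : ℂ, |y.re| < 1 ∧ a0 < y.im ∧ deriv u y ≠ 0 := by
  by_contra hcon
  push Not at hcon
  have hSo : IsOpen {y : ℂ | |y.re| < 1 ∧ a0 < y.im} := by
    apply IsOpen.and
    · exact isOpen_lt (continuous_abs.comp Complex.continuous_re) continuous_const
    · exact isOpen_lt continuous_const Complex.continuous_im
  have hSc : Convex ℝ {y : ℂ | |y.re| < 1 ∧ a0 < y.im} := by
    intro x hx y hy s t hs ht hst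
    obtain ⟨hx1, hx2⟩ := hx
    obtain ⟨hy1, hy2⟩ := hy
    rw [abs_lt] at hx1 hy1
    refine ⟨?_, ?_⟩
    · rw [abs_lt]
      simp only [Complex.add_re, Complex.real_smul, Complex.mul_re, Complex.ofReal_re,
        Complex.ofReal_im, zero_mul, sub_zero]
      constructor
      · rcases eq_or_lt_of_le hs with h0 | h0
        · have : t = 1 := by linarith
          subst this
          rw [← h0]
          linarith
        · nlinarith [mul_lt_mul_of_pos_left hx1.1 h0, mul_le_mul_of_nonneg_left hy1.1.le ht]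
      · rcases eq_or_lt_of_le hs with h0 | h0
        · have : t = 1 := by linarith
          subst this
          rw [← h0]
          linarith
        · nlinarith [mul_lt_mul_of_pos_left hx1.2 h0, mul_le_mul_of_nonneg_left hy1.2.le ht]
    · simp only [Complex.add_im, Complex.real_smul, Complex.mul_im, Complex.ofReal_re,
        Complex.ofReal_im, zero_mul, add_zero]
      rcases eq_or_lt_of_le hs with h0 | h0
      · have : t = 1 := by linarith
        subst this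
        rw [← h0]
        linarith
      · have e : a0 = s * a0 + t * a0 := by rw [← add_mul, hst, one_mul]
        have e1 := mul_lt_mul_of_pos_left hx2 h0
        have e2 := mul_le_mul_of_nonneg_left hy2.le ht
        linarith
  have hconst : ∀ x ∈ {y : ℂ | |y.re| < 1 ∧ a0 < y.im}, ∀ y ∈ {y : ℂ | |y.re| < 1 ∧ a0 < y.im},
      u x = u y := by
    intro x hx y hy
    refine hSo.is_const_of_deriv_eq_zero hSc.isPreconnected ?_ ?_ hx hy
    · intro w hw
      exact (han w hw.1 hw.2).differentiableAt.differentiableWithinAt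
    · intro w hw
      exact hcon w hw.1 hw.2
  have hlim : Tendsto (fun t : ℝ => K * Real.exp (-t / 2)) atTop (𝓝 0) := by
    have h1 : Tendsto (fun t : ℝ => Real.exp (-t / 2)) atTop (𝓝 0) := by
      apply Real.tendsto_exp_atBot.comp
      have h2 : (fun t : ℝ => -t / 2) = fun t => (-(1 / 2)) * t := by
        funext t
        ring
      rw [h2]
      exact tendsto_id.const_mul_atTop_of_neg (by norm_num)
    simpa using h1.const_mul K
  obtain ⟨b, hb⟩ := (hlim.eventually (gt_mem_nhds (show (0 : ℝ) < 1 by norm_num))).exists_forall_of_atTop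
  let t : ℝ := max b (max a a0) + 1
  have ht1 : b ≤ t := by
    have := le_max_left b (max a a0)
    show b ≤ max b (max a a0) + 1
    linarith
  have ht2 : a < t := by
    have h1 := le_max_left a a0
    have h2 := le_max_right b (max a a0)
    show a < max b (max a a0) + 1
    linarith
  have ht3 : a0 < t := by
    have h1 := le_max_right a a0
    have h2 := le_max_right b (max a a0)
    show a0 < max b (max a a0) + 1
    linarith
  have hA : ∀ s : ℝ, t ≤ s → ‖u (s * Complex.I) - s * Complex.I - c0‖ < 1 := by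
    intro s hs
    have him : ((s : ℂ) * Complex.I).im = s := by simp
    have hre : ((s : ℂ) * Complex.I).re = 0 := by simp
    have h1 := hu (s * Complex.I) (by rw [hre]; simp) (by rw [him]; linarith)
    rw [him] at h1
    exact lt_of_le_of_lt h1 (hb s (by linarith))
  have hB : u ((t : ℂ) * Complex.I) = u (((t + 10 : ℝ) : ℂ) * Complex.I) := by
    apply hconst
    · refine ⟨?_, ?_⟩
      · simp
      · simpa using ht3
    · refine ⟨?_, ?_⟩
      · simp
      · simp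
        linarith
  have h1 := hA t le_rfl
  have h2 := hA (t + 10) (by linarith)
  rw [← hB] at h2
  have h3 : (u ((t : ℂ) * Complex.I) - (t : ℂ) * Complex.I - c0) -
      (u ((t : ℂ) * Complex.I) - ((t + 10 : ℝ) : ℂ) * Complex.I - c0) = 10 * Complex.I := by
    push_cast
    ring
  have h4 : ‖(10 : ℂ) * Complex.I‖ = 10 := by
    rw [norm_mul, Complex.norm_I, mul_one]
    simp
  have h5 := norm_sub_le (u ((t : ℂ) * Complex.I) - (t : ℂ) * Complex.I - c0)
    (u ((t : ℂ) * Complex.I) - ((t + 10 : ℝ) : ℂ) * Complex.I - c0)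
  rw [h3, h4] at h5
  linarith

theorem C12_zfun_aeval (p : Polynomial ℚ) : Zfun (fun z => Polynomial.aeval z p) := by
  exact c10_zfun_aeval p

/-- rational combinations -/
theorem C12_comb {I : Type} {H : I → ℝ} (hH : ∀ i, 1 ≤ H i) {κ : Type} [Fintype κ] (l : κ → ℚ)
    (c : I → ℂ) (y : κ → I → ℂ) (hy : ∀ f, AlgFam H (fun i => c i * y f i)) :
    AlgFam H (fun i => c i * ∑ f, (l f : ℂ) * y f i) := by
  have h1 := C09_sum hH Finset.univ (x := fun f => (fun _ : I => (l f : ℂ)) * (fun i => c i * y f i))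
    (fun f _ => AlgFam.mul hH (AlgFam.const hH (l f)) (hy f))
  have h2 : (∑ f, (fun _ : I => (l f : ℂ)) * (fun i => c i * y f i)) =
      (fun i => c i * ∑ f, (l f : ℂ) * y f i) := by
    funext i
    rw [Finset.sum_apply, Finset.mul_sum]
    refine Finset.sum_congr rfl fun f _ => ?_
    simp only [Pi.mul_apply]
    ring
  rwa [h2] at h1

theorem C12_linInd {n r : ℕ} (N : Matrix (Fin n) (Fin n) ℚ)
    (G : PolyGroup (Fin r → Fin n)) (hG : ∀ s : ℂ, G.E s = tens r (uexp (cm N) s)) (s : ℂ)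
    (W : Matrix (Fin n) (Fin r) ℂ) (f0 : Fin r → Fin n) (h0 : minor W f0 ≠ 0) :
    LinearIndependent ℂ (uexp (cm N) s * W)ᵀ := by
  obtain ⟨f, hf⟩ := C11_ne N G hG s W f0 h0
  exact linInd_of_minor_ne _ f hf

theorem stage1 {n : ℕ} (V : PolVHS n) (c : Cusp V) :
    ∃ δ : ℝ, 0 < δ ∧ ∀ (z : ℕ → ℂ) (H : ℕ → ℝ), (∀ k, |(z k).re| ≤ 1) → (∀ k, 0 < (z k).im) →
      Monotone (fun k => (z k).im) → Tendsto (fun k => (z k).im) atTop atTop →
      (∀ k, 1 ≤ H k) → (∀ k, IsCM V (z k) (H k)) →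
      (∀ k, H k * H (k + 1) ≤ Real.exp (δ * (z k).im)) →
      ∃ (a : ℝ) (u : ℂ → ℂ) (F0 : ℤ → Submodule ℂ (Fin n → ℂ)), 0 ≤ a ∧
        (∀ y : ℂ, |y.re| < 1 → a < y.im → AnalyticAt ℂ u y) ∧
        (∀ y : ℂ, |y.re| < 1 → a < y.im → ∀ p, V.F p y = (F0 p).map (uexp (cm c.N) (u y)).mulVecLin) ∧
        ((∃ y : ℂ, |y.re| < 1 ∧ a < y.im ∧ deriv u y ≠ 0) ∨
          ∀ p, ∀ x ∈ F0 p, ∀ s : ℂ, uexp (cm c.N) s *ᵥ x ∈ F0 p) := by
  have hext := c.ext
  choose r W aF hW hW0 hF using hext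
  have hF' : ∀ p, ∀ z : ℂ, aF p < z.im →
      V.F p z = LinearMap.range (uexp (cm c.N) z * W p (qq z)).mulVecLin := fun p z hz => hF p z hz
  have hGex : ∀ p, ∃ G : PolyGroup (Fin (r p) → Fin n), ∀ s : ℂ,
      G.E s = tens (r p) (uexp (cm c.N) s) := fun p => exists_tensGroup (r p) c.N c.nil
  choose G hG using hGex
  have hM : ∀ p, ∀ f, AnalyticAt ℂ (fun q => minor (W p q) f) 0 :=
    fun p f => C11_minor_analytic (W p) (hW p) f
  by_cases hcase : ∃ p0 ∈ Finset.Icc V.lo V.hi, ∃ s : ℂ,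
      (G p0).E s *ᵥ (fun g => minor (W p0 0) g) ≠ (fun g => minor (W p0 0) g)
  · obtain ⟨p0, hp0, hs⟩ := hcase
    obtain ⟨l0, l1, l, k, hl, hlin⟩ := lin_functional (G p0) _ hs
    let β : ℂ → ℂ := fun z => ∑ i, (l0 i : ℂ) * ((G p0).E z *ᵥ (fun g => minor (W p0 (qq z)) g)) i
    let α : ℂ → ℂ := fun z => ∑ i, (l1 i : ℂ) * ((G p0).E z *ᵥ (fun g => minor (W p0 (qq z)) g)) i
    have hβ : Zfun β := Zfun.sum _ _ fun i _ => (Zfun.const _).mul
      (c10_zfun_vec (G p0) (fun q g => minor (W p0 q) g) (hM p0) i)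
    have hα : Zfun α := Zfun.sum _ _ fun i _ => (Zfun.const _).mul
      (c10_zfun_vec (G p0) (fun q g => minor (W p0 q) g) (hM p0) i)
    obtain ⟨a1, K1, _, hclock⟩ := clock (G p0) (fun q g => minor (W p0 q) g) (hM p0) l0 l1 l k hl
      (fun s => (hlin s).1) (fun s => (hlin s).2)
    have hx : ∀ z : ℂ, |z.re| ≤ 1 → a1 < z.im →
        ‖(fun z => α z / β z) z - z - k / l‖ ≤ K1 * Real.exp (-z.im / 2) :=
      fun z h1 h2 => (hclock z h1 h2).2
    have hb : ∀ p ∈ Finset.Icc V.lo V.hi, ∃ a K : ℝ, ∀ z : ℂ, |z.re| ≤ 1 → a < z.im →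
        β z ≠ 0 ∧ ∀ f,
      ‖((G p).E (-(α z / β z)) *ᵥ ((G p).E z *ᵥ (fun g => minor (W p (qq z)) g))) f
        - ((G p).E (-(k / l)) *ᵥ (fun g => minor (W p 0) g)) f‖ ≤ K * Real.exp (-z.im / 2) := by
      intro p _
      obtain ⟨a, K, _, h⟩ := move (G p) (fun q g => minor (W p q) g) (hM p)
        (fun z => α z / β z) (k / l) a1 K1 hx
      refine ⟨max a a1, K, fun z h1 h2 => ⟨?_, ?_⟩⟩
      · exact (hclock z h1 (lt_of_le_of_lt (le_max_right _ _) h2)).1
      · exact h z h1 (lt_of_le_of_lt (le_max_left _ _) h2)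
    -- the index set
    obtain ⟨f0, hf0⟩ := exists_minor_ne (W p0 0) (hW0 p0)
    have hev : ∀ᶠ q in 𝓝 (0 : ℂ), minor (W p0 q) f0 ≠ 0 :=
      (hM p0 f0).continuousAt.eventually_ne hf0
    obtain ⟨ε, hε, hball⟩ := Metric.eventually_nhds_iff.1 hev
    obtain ⟨a2, ha2⟩ := C11_qq_small ε hε
    have hf0' : ∀ z : ℂ, a2 < z.im → minor (W p0 (qq z)) f0 ≠ 0 := by
      intro z hz
      apply hball
      rw [dist_zero_right]
      exact ha2 z hz
    let A0 : ℝ := max 0 (max a2 (aF p0))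
    have hcm : ∀ i : C12_I V A0, IsCM V i.1.1 i.1.2 := fun i => i.2.2.2.2
    choose A hA hsep hst using hcm
    have hI2 : ∀ i : C12_I V A0, a2 < i.1.1.im := fun i =>
      lt_of_le_of_lt ((le_max_left _ _).trans (le_max_right _ _)) i.2.2.1
    have hIF : ∀ i : C12_I V A0, aF p0 < i.1.1.im := fun i =>
      lt_of_le_of_lt ((le_max_right _ _).trans (le_max_right _ _)) i.2.2.1
    obtain ⟨cc, hcc, hccf⟩ := plucker_alg (I := C12_I V A0) (H := fun i => i.1.2)
      (fun i => i.2.2.2.1) A hA hsep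
      (fun i => uexp (cm c.N) i.1.1 * W p0 (qq i.1.1))
      (fun i => C12_linInd c.N (G p0) (hG p0) _ _ f0 (hf0' _ (hI2 i)))
      (fun i x hx => by
        have h1 := hst i p0
        rw [hF' p0 _ (hIF i)] at h1
        exact h1 x hx)
    have hccf' : ∀ f, AlgFam (fun i : C12_I V A0 => i.1.2)
        (fun i => cc i * ((G p0).E i.1.1 *ᵥ (fun g => minor (W p0 (qq i.1.1)) g)) f) := by
      intro f
      have h1 := hccf f
      have h2 : (fun i : C12_I V A0 => cc i * minor (uexp (cm c.N) i.1.1 * W p0 (qq i.1.1)) f) =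
          (fun i => cc i * ((G p0).E i.1.1 *ᵥ (fun g => minor (W p0 (qq i.1.1)) g)) f) := by
        funext i
        rw [C11_key c.N (G p0) (hG p0)]
      rwa [h2] at h1
    have hcα := C12_comb (I := C12_I V A0) (H := fun i => i.1.2) (fun i => i.2.2.2.1) l1 cc
      (fun f i => ((G p0).E i.1.1 *ᵥ (fun g => minor (W p0 (qq i.1.1)) g)) f) hccf'
    have hcβ := C12_comb (I := C12_I V A0) (H := fun i => i.1.2) (fun i => i.2.2.2.1) l0 cc
      (fun f i => ((G p0).E i.1.1 *ᵥ (fun g => minor (W p0 (qq i.1.1)) g)) f) hccf'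
    obtain ⟨δ, hδ, hcore⟩ := C12_core V c.N c.nil r W aF hW hW0 hF' G hG α β hα hβ (k / l) hb A0
      (le_max_left _ _) cc hcc hcα hcβ
    refine ⟨δ, hδ, fun z H h1 h2 h3 h4 h5 h6 h7 => ?_⟩
    obtain ⟨a', ha', h'⟩ := hcore z H h1 h2 h3 h4 h5 h6 h7
    exact C12_finish V c.N c.nil r W α β hα hβ (k / l)
      ⟨a1, fun z h1 h2 => (hclock z h1 h2).1⟩ a' ha' h'
      (Or.inl fun a0 _ han => C12_deriv _ (k / l) a1 K1 a0 hx han)
  · push Not at hcase
    have hb : ∀ p ∈ Finset.Icc V.lo V.hi, ∃ a K : ℝ, ∀ z : ℂ, |z.re| ≤ 1 → a < z.im →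
        (fun _ : ℂ => (1 : ℂ)) z ≠ 0 ∧ ∀ f,
      ‖((G p).E (-((fun _ : ℂ => (0 : ℂ)) z / (fun _ : ℂ => (1 : ℂ)) z)) *ᵥ
          ((G p).E z *ᵥ (fun g => minor (W p (qq z)) g))) f
        - ((G p).E (-0) *ᵥ (fun g => minor (W p 0) g)) f‖ ≤ K * Real.exp (-z.im / 2) := by
      intro p hp
      obtain ⟨a, K, hK, h⟩ := asym (G p) (fun q g => minor (W p q) g) (hM p)
      refine ⟨max a 0, K, fun z h1 h2 => ⟨one_ne_zero, fun f => ?_⟩⟩
      have h3 := h z h1 (lt_of_le_of_lt (le_max_left _ _) h2) f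
      have h4 : 0 < z.im := lt_of_le_of_lt (le_max_right _ _) h2
      simp only [zero_div, neg_zero, PolyGroup.E_zero, Matrix.one_mulVec]
      rw [hcase p hp z] at h3
      refine h3.trans (mul_le_mul_of_nonneg_left (Real.exp_le_exp.2 ?_) hK)
      linarith
    have hH : ∀ i : C12_I V 0, 1 ≤ i.1.2 := fun i => i.2.2.2.1
    have hcα : AlgFam (fun i : C12_I V 0 => i.1.2)
        (fun i => (fun _ => (1 : ℂ)) i * (fun _ : ℂ => (0 : ℂ)) i.1.1) := by
      have := AlgFam.const hH 0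
      simpa using this
    have hcβ : AlgFam (fun i : C12_I V 0 => i.1.2)
        (fun i => (fun _ => (1 : ℂ)) i * (fun _ : ℂ => (1 : ℂ)) i.1.1) := by
      have := AlgFam.const hH 1
      simpa using this
    obtain ⟨δ, hδ, hcore⟩ := C12_core V c.N c.nil r W aF hW hW0 hF' G hG (fun _ => 0) (fun _ => 1)
      Zfun.zero (Zfun.const 1) 0 hb 0 le_rfl (fun _ => 1) (fun _ => one_ne_zero) hcα hcβ
    refine ⟨δ, hδ, fun z H h1 h2 h3 h4 h5 h6 h7 => ?_⟩
    obtain ⟨a', ha', h'⟩ := hcore z H h1 h2 h3 h4 h5 h6 h7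
    refine C12_finish V c.N c.nil r W (fun _ => 0) (fun _ => 1) Zfun.zero (Zfun.const 1) 0
      ⟨0, fun z _ _ => one_ne_zero⟩ a' ha' h' (Or.inr ?_)
    intro p x hx hp s
    rw [neg_zero, uexp_zero, Matrix.one_mul] at hx ⊢
    obtain ⟨f0, hf0⟩ := exists_minor_ne (W p 0) (hW0 p)
    have h8 : LinearMap.range (uexp (cm c.N) s * W p 0).mulVecLin =
        LinearMap.range (W p 0).mulVecLin := by
      refine range_eq_of_minor (W p 0) (uexp (cm c.N) s * W p 0) (hW0 p)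
        (C12_linInd c.N (G p) (hG p) s (W p 0) f0 hf0) 1 fun f => ?_
      have h9 := hcase p hp s
      rw [C11_key c.N (G p) (hG p)] at h9
      rw [one_mul]
      exact congrFun h9 f
    rw [← h8]
    obtain ⟨v, rfl⟩ := hx
    refine ⟨v, ?_⟩
    rw [Matrix.mulVecLin_apply, Matrix.mulVecLin_apply, Matrix.mulVec_mulVec]

end MP2794d1
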