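import Pool.Agent.Lib.MP_2794d1_ag.C01
import Pool.Agent.Lib.MP_2794d1_ag.C04
import Pool.Agent.Lib.MP_2794d1_ag.C06
import Pool.Agent.Lib.MP_2794d1_ag.C11b

/-!
C12b: chain version of stage 1.
-/

namespace MP2794d1

open Matrix Complex Filter Topology

theorem C12b_alg_lin {I : Type} {H : I → ℝ} (hH : ∀ i, 1 ≤ H i) {ι : Type} [Fintype ι]
    (l : ι → ℚ) (y : ι → I → ℂ) (hy : ∀ f, AlgFam H (y f)) :
    AlgFam H (fun i => ∑ f, (l f : ℂ) * y f i) := by
  rw [← mem_algSub hH]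
  have h1 : (fun i => ∑ f, (l f : ℂ) * y f i) = ∑ f, (fun _ => (l f : ℂ)) * y f := by
    funext i
    rw [Finset.sum_apply]
    rfl
  rw [h1]
  apply Subalgebra.sum_mem
  intro f _
  exact Subalgebra.mul_mem _ ((mem_algSub hH _).2 (AlgFam.const hH (l f)))
    ((mem_algSub hH _).2 (hy f))

theorem C12b_min (S : Finset ℤ) (δ : ℤ → ℝ) (hδ : ∀ p, 0 < δ p) :
    ∃ d : ℝ, 0 < d ∧ ∀ p ∈ S, d ≤ δ p := by
  classical
  induction S using Finset.induction_on with
  | empty => exact ⟨1, one_pos, fun p hp => absurd hp (Finset.notMem_empty p)⟩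
  | insert p S hp ih =>
    obtain ⟨d, hd, h⟩ := ih
    refine ⟨min d (δ p), lt_min hd (hδ p), fun q hq => ?_⟩
    rcases Finset.mem_insert.1 hq with rfl | hq
    · exact min_le_right _ _
    · exact (min_le_left _ _).trans (h q hq)

theorem C12b_max (S : Finset ℤ) (a : ℤ → ℝ) : ∃ b : ℝ, ∀ p ∈ S, a p ≤ b := by
  obtain ⟨b, hb⟩ := (S.finite_toSet.image a).bddAbove
  exact ⟨b, fun p hp => hb ⟨p, hp, rfl⟩⟩

theorem C12b_maxN (S : Finset ℤ) (a : ℤ → ℕ) : ∃ b : ℕ, ∀ p ∈ S, a p ≤ b := by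
  obtain ⟨b, hb⟩ := (S.finite_toSet.image a).bddAbove
  exact ⟨b, fun p hp => hb ⟨p, hp, rfl⟩⟩

theorem C12b_decay (K c : ℝ) (hc : 0 < c) : ∃ a : ℝ, ∀ t : ℝ, a < t → K * Real.exp (-t) < c := by
  obtain ⟨a, ha⟩ := c10_decay K c hc
  refine ⟨a / 2, fun t ht => ?_⟩
  have h1 := ha (2 * t) (by linarith)
  have h2 : -(2 * t) / 2 = -t := by ring
  rwa [h2] at h1

/-- bounds on the denominator of the clock -/
theorem C12b_beta {ι : Type} [Fintype ι] [DecidableEq ι] (G : PolyGroup ι) (Mh : ℂ → ι → ℂ)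
    (hM : ∀ i, AnalyticAt ℂ (fun q => Mh q i) 0) (l0 : ι → ℚ) (l : ℂ) (hl : l ≠ 0)
    (h0 : ∀ s, (∑ i, (l0 i : ℂ) * (G.E s *ᵥ Mh 0) i) = l) :
    ∃ a : ℝ, ∀ z : ℂ, |z.re| ≤ 1 → a < z.im →
      ‖l‖ / 2 ≤ ‖∑ i, (l0 i : ℂ) * (G.E z *ᵥ Mh (qq z)) i‖ ∧
      ‖∑ i, (l0 i : ℂ) * (G.E z *ᵥ Mh (qq z)) i‖ ≤ 2 * ‖l‖ := by
  obtain ⟨a, K, hK, h⟩ := asym G Mh hM
  obtain ⟨a', ha'⟩ := C12b_decay ((∑ i, ‖(l0 i : ℂ)‖) * K) (‖l‖ / 2) (half_pos (norm_pos_iff.2 hl))
  refine ⟨max a a', fun z hz1 hz2 => ?_⟩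
  have hz3 : a < z.im := lt_of_le_of_lt (le_max_left _ _) hz2
  have hz4 : a' < z.im := lt_of_le_of_lt (le_max_right _ _) hz2
  have h1 : ‖(∑ i, (l0 i : ℂ) * (G.E z *ᵥ Mh (qq z)) i) - l‖ ≤ ‖l‖ / 2 := by
    have e : (∑ i, (l0 i : ℂ) * (G.E z *ᵥ Mh (qq z)) i) - l =
        ∑ i, ((l0 i : ℂ) * (G.E z *ᵥ Mh (qq z)) i - (l0 i : ℂ) * (G.E z *ᵥ Mh 0) i) := by
      rw [Finset.sum_sub_distrib, h0 z]
    rw [e]
    refine (norm_sum_le _ _).trans ?_
    refine le_trans ?_ (ha' z.im hz4).le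
    rw [mul_assoc, Finset.sum_mul]
    apply Finset.sum_le_sum
    intro i _
    rw [← mul_sub, norm_mul]
    exact mul_le_mul_of_nonneg_left (h z hz1 hz3 i) (norm_nonneg _)
  set b := ∑ i, (l0 i : ℂ) * (G.E z *ᵥ Mh (qq z)) i
  constructor
  · have h2 := norm_sub_le b (b - l)
    have h3 : b - (b - l) = l := by ring
    rw [h3] at h2
    linarith
  · have h2 := norm_add_le (b - l) l
    have h3 : b - l + l = b := by ring
    rw [h3] at h2
    have h4 := norm_nonneg l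
    linarith

theorem C12b_zfun_comb {ι : Type} [Fintype ι] [DecidableEq ι] (G : PolyGroup ι) (Mh : ℂ → ι → ℂ)
    (hM : ∀ i, AnalyticAt ℂ (fun q => Mh q i) 0) (l : ι → ℚ) :
    Zfun (fun z => ∑ i, (l i : ℂ) * (G.E z *ᵥ Mh (qq z)) i) := by
  refine Zfun.sum _ _ fun i _ => ?_
  exact (Zfun.const _).mul (c10_zfun_vec G Mh hM i)

theorem C12b_map_top {n : ℕ} (N : Matrix (Fin n) (Fin n) ℂ) (hN : N ^ n = 0) (s : ℂ) :
    (⊤ : Submodule ℂ (Fin n → ℂ)).map (uexp N s).mulVecLin = ⊤ := by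
  rw [eq_top_iff]
  intro x _
  refine ⟨uexp N (-s) *ᵥ x, trivial, ?_⟩
  show uexp N s *ᵥ (uexp N (-s) *ᵥ x) = x
  rw [Matrix.mulVec_mulVec, uexp_mul_neg N hN, Matrix.one_mulVec]

/-- a function with |u z - z - c0| small on the strip is not locally constant -/
theorem C12b_deriv_ne (u : ℂ → ℂ) (c0 : ℂ) (a K : ℝ)
    (han : ∀ y : ℂ, |y.re| < 1 → a < y.im → AnalyticAt ℂ u y)
    (hu : ∀ z : ℂ, |z.re| ≤ 1 → a < z.im → ‖u z - z - c0‖ ≤ K * Real.exp (-z.im / 2)) :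
    ∃ y : ℂ, |y.re| < 1 ∧ a < y.im ∧ deriv u y ≠ 0 := by
  by_contra hcon
  push Not at hcon
  set U : Set ℂ := {y : ℂ | |y.re| < 1 ∧ a < y.im} with hU
  have hUo : IsOpen U := by
    apply IsOpen.inter
    · exact isOpen_lt (Complex.continuous_re.abs) continuous_const
    · exact isOpen_lt continuous_const Complex.continuous_im
  have hUc : Convex ℝ U := by
    intro x hx y hy s t hs ht hst
    refine ⟨?_, ?_⟩
    · have h1 : (s • x + t • y).re = s * x.re + t * y.re := by simp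
      rw [h1]
      have h2 := abs_lt.1 hx.1
      have h3 := abs_lt.1 hy.1
      rw [abs_lt]
      constructor
      · by_cases hs0 : s = 0
        · subst hs0
          have : t = 1 := by linarith
          subst this
          linarith
        · have hs1 : 0 < s := lt_of_le_of_ne hs (Ne.symm hs0)
          nlinarith
      · by_cases hs0 : s = 0
        · subst hs0
          have : t = 1 := by linarith
          subst this
          linarith
        · have hs1 : 0 < s := lt_of_le_of_ne hs (Ne.symm hs0)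
          nlinarith
    · have h1 : (s • x + t • y).im = s * x.im + t * y.im := by simp
      rw [h1]
      have h2 := hx.2
      have h3 := hy.2
      by_cases hs0 : s = 0
      · subst hs0
        have : t = 1 := by linarith
        subst this
        linarith
      · have hs1 : 0 < s := lt_of_le_of_ne hs (Ne.symm hs0)
        have h4 : 0 < s * (x.im - a) := mul_pos hs1 (by linarith)
        have h5 : 0 ≤ t * (y.im - a) := mul_nonneg ht (by linarith)
        have h6 : s * x.im + t * y.im = s * (x.im - a) + t * (y.im - a) + (s + t) * a := by ring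
        rw [h6, hst, one_mul]
        linarith
  obtain ⟨b, hb⟩ := c10_decay K 1 one_pos
  set T : ℝ := max a b + 1 with hT
  have hTa : a < T := by
    have := le_max_left a b
    linarith
  have hTb : b < T := by
    have := le_max_right a b
    linarith
  set y1 : ℂ := ⟨0, T⟩
  set y2 : ℂ := ⟨0, T + 10⟩
  have hy1 : y1 ∈ U := ⟨by simp [y1], by simpa [y1] using hTa⟩
  have hy2 : y2 ∈ U := ⟨by simp [y2], by
    show a < T + 10
    linarith⟩
  have hconst : u y1 = u y2 := by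
    have hd : DifferentiableOn ℂ u U := fun y hy =>
      (han y hy.1 hy.2).differentiableAt.differentiableWithinAt
    exact hUo.is_const_of_deriv_eq_zero hUc.isPreconnected hd
      (fun y hy => hcon y hy.1 hy.2) hy1 hy2
  have e1 := hu y1 hy1.1.le hy1.2
  have e2 := hu y2 hy2.1.le hy2.2
  have f1 : K * Real.exp (-y1.im / 2) < 1 := hb T hTb
  have f2 : K * Real.exp (-y2.im / 2) < 1 := hb (T + 10) (by linarith)
  have h1 : (u y1 - y1 - c0) - (u y2 - y2 - c0) = y2 - y1 := by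
    rw [hconst]
    ring
  have h2 : y2 - y1 = 10 * Complex.I := by
    apply Complex.ext
    · simp [y1, y2]
    · simp [y1, y2]
  have h3 := norm_sub_le (u y1 - y1 - c0) (u y2 - y2 - c0)
  rw [h1, h2, norm_mul, Complex.norm_I, mul_one] at h3
  have h4 : ‖(10 : ℂ)‖ = 10 := by norm_num
  rw [h4] at h3
  linarith

theorem stage1_chain {n : ℕ} (V : PolVHS n) (c : Cusp V) :
    ∃ δ : ℝ, 0 < δ ∧ ∃ (M : ℕ) (Y : ℝ), ∀ (m : ℕ), M ≤ m → ∀ (z : ℕ → ℂ) (H : ℕ → ℝ),
      (∀ k, k ≤ m → |(z k).re| ≤ 1) → (∀ k, k ≤ m → Y < (z k).im) →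
      (∀ i j, i ≤ m → j ≤ m → z i = z j → i = j) →
      (∀ k, k ≤ m → 1 ≤ H k) → (∀ k, k ≤ m → IsCM V (z k) (H k)) →
      (∀ k, k < m → H k * H (k + 1) ≤ Real.exp (δ * min (z k).im (z (k + 1)).im)) →
      ∃ (a : ℝ) (u : ℂ → ℂ) (F0 : ℤ → Submodule ℂ (Fin n → ℂ)), 0 ≤ a ∧
        (∀ y : ℂ, |y.re| < 1 → a < y.im → AnalyticAt ℂ u y) ∧
        (∀ y : ℂ, |y.re| < 1 → a < y.im → ∀ p, V.F p y = (F0 p).map (uexp (cm c.N) (u y)).mulVecLin) ∧
        ((∃ y : ℂ, |y.re| < 1 ∧ a < y.im ∧ deriv u y ≠ 0) ∨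
          ∀ p, ∀ x ∈ F0 p, ∀ s : ℂ, uexp (cm c.N) s *ᵥ x ∈ F0 p) := by
  classical
  choose r W aF hWan hWli hWF using c.ext
  have hF : ∀ p, ∀ z : ℂ, aF p < z.im →
      V.F p z = LinearMap.range (uexp (cm c.N) z * W p (qq z)).mulVecLin := fun p z hz =>
    hWF p z hz
  choose G hG using fun p => exists_tensGroup (r p) c.N c.nil
  have hNn : (cm c.N) ^ n = 0 := cm_pow c.N c.nil
  have hMh : ∀ p f, AnalyticAt ℂ (fun q => (fun g => minor (W p q) g) f) 0 := fun p f =>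
    C11_minor_analytic (W p) (hWan p) f
  -- common ending
  have hend : ∀ (α β : ℂ → ℂ) (hα : Zfun α) (hβ : Zfun β) (c0 : ℂ) (b0 b1 : ℝ) (hb0 : 0 < b0)
      (hb : ∀ p, ∃ a K : ℝ, ∀ z : ℂ, |z.re| ≤ 1 → a < z.im → b0 ≤ ‖β z‖ ∧ ‖β z‖ ≤ b1 ∧ ∀ f,
        ‖((G p).E (-(α z / β z)) *ᵥ ((G p).E z *ᵥ (fun g => minor (W p (qq z)) g))) f
          - ((G p).E (-c0) *ᵥ (fun g => minor (W p 0) g)) f‖ ≤ K * Real.exp (-z.im / 2))
      (A0 : ℝ) (hA0 : 0 ≤ A0)
      (hclk : ∃ cc : {i : ℂ × ℝ // |i.1.re| ≤ 1 ∧ A0 < i.1.im ∧ 1 ≤ i.2 ∧ IsCM V i.1 i.2} → ℂ,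
        (∀ i, cc i ≠ 0) ∧ AlgFam (fun i => i.1.2) (fun i => cc i * α i.1.1) ∧
          AlgFam (fun i => i.1.2) (fun i => cc i * β i.1.1)),
      ∃ δ : ℝ, 0 < δ ∧ ∃ (M : ℕ) (Y : ℝ), ∀ (m : ℕ), M ≤ m → ∀ (z : ℕ → ℂ) (H : ℕ → ℝ),
        (∀ k, k ≤ m → |(z k).re| ≤ 1) → (∀ k, k ≤ m → Y < (z k).im) →
        (∀ i j, i ≤ m → j ≤ m → z i = z j → i = j) →
        (∀ k, k ≤ m → 1 ≤ H k) → (∀ k, k ≤ m → IsCM V (z k) (H k)) →
        (∀ k, k < m → H k * H (k + 1) ≤ Real.exp (δ * min (z k).im (z (k + 1)).im)) →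
        ∃ (a : ℝ), 0 ≤ a ∧ (∀ y : ℂ, |y.re| < 1 → a < y.im → β y ≠ 0) ∧
          (∀ y : ℂ, |y.re| < 1 → a < y.im → AnalyticAt ℂ (fun y => α y / β y) y) ∧
          (∀ y : ℂ, |y.re| < 1 → a < y.im → ∀ p, V.F p y =
            ((if p < V.lo then ⊤ else if V.hi < p then ⊥ else
              LinearMap.range (uexp (cm c.N) (-c0) * W p 0).mulVecLin :
                Submodule ℂ (Fin n → ℂ))).map (uexp (cm c.N) (α y / β y)).mulVecLin) := by
    intro α β hα hβ c0 b0 b1 hb0 hb A0 hA0 hclk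
    choose ab Kb hab using hb
    obtain ⟨cc, hcc, hccα, hccβ⟩ := hclk
    have hAex : ∀ i : {i : ℂ × ℝ // |i.1.re| ≤ 1 ∧ A0 < i.1.im ∧ 1 ≤ i.2 ∧ IsCM V i.1 i.2},
        ∃ A : Matrix (Fin n) (Fin n) ℤ, (∀ a b, |(A a b : ℝ)| ≤ i.1.2) ∧
          (im A).charpoly.Separable ∧ ∀ p, ∀ x ∈ V.F p i.1.1, (im A) *ᵥ x ∈ V.F p i.1.1 :=
      fun i => i.2.2.2.2
    choose A hA1 hA2 hA3 using hAex
    have hper := fun p : ℤ => perP_chain c.N c.nil (W p) (hWan p) (hWli p) (V.F p) (aF p) (hF p)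
      (G p) (hG p) α β hα hβ c0 (ab p) (Kb p) b0 b1 hb0 (hab p)
      (fun i : {i : ℂ × ℝ // |i.1.re| ≤ 1 ∧ A0 < i.1.im ∧ 1 ≤ i.2 ∧ IsCM V i.1 i.2} => i.1.1)
      (fun i => i.2.1) (fun i => i.1.2) (fun i => i.2.2.2.1) A hA1 hA2 (fun i => hA3 i p)
      cc hcc hccα hccβ
    choose δp hδp Mp Yp hMY using hper
    obtain ⟨δ, hδ, hδle⟩ := C12b_min (Finset.Icc V.lo V.hi) δp hδp
    obtain ⟨M, hMle⟩ := C12b_maxN (Finset.Icc V.lo V.hi) Mp
    obtain ⟨Y, hYle⟩ := C12b_max (Finset.Icc V.lo V.hi) Yp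
    refine ⟨δ, hδ, M, max Y A0, fun m hm z H hre hY hinj hH hcm hHH => ?_⟩
    -- the chain in the index type
    let kk : ℕ → {i : ℂ × ℝ // |i.1.re| ≤ 1 ∧ A0 < i.1.im ∧ 1 ≤ i.2 ∧ IsCM V i.1 i.2} :=
      fun i => ⟨(z (min i m), H (min i m)), hre _ (min_le_right _ _),
        lt_of_le_of_lt (le_max_right _ _) (hY _ (min_le_right _ _)), hH _ (min_le_right _ _),
        hcm _ (min_le_right _ _)⟩
    have hkz : ∀ i, i ≤ m → (kk i).1.1 = z i := fun i hi => by
      show z (min i m) = z i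
      rw [min_eq_left hi]
    have hkH : ∀ i, i ≤ m → (kk i).1.2 = H i := fun i hi => by
      show H (min i m) = H i
      rw [min_eq_left hi]
    have hres : ∀ p ∈ Finset.Icc V.lo V.hi, ∃ a' : ℝ, ∀ y : ℂ, |y.re| ≤ 1 → a' < y.im →
        V.F p y = (LinearMap.range (uexp (cm c.N) (-c0) * W p 0).mulVecLin).map
          (uexp (cm c.N) (α y / β y)).mulVecLin := by
      intro p hp
      apply hMY p m (le_trans (hMle p hp) hm) kk
      · intro i j hi hj hij
        have hij' : (kk i).1.1 = (kk j).1.1 := hij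
        rw [hkz i hi, hkz j hj] at hij'
        exact hinj i j hi hj hij'
      · intro i hi
        show Yp p < ((kk i).1.1).im
        rw [hkz i hi]
        exact lt_of_le_of_lt ((hYle p hp).trans (le_max_left _ _)) (hY i hi)
      · intro i hi
        show (kk i).1.2 * (kk (i + 1)).1.2 ≤
          Real.exp (δp p * min ((kk i).1.1).im ((kk (i + 1)).1.1).im)
        rw [hkz i hi.le, hkz (i + 1) hi, hkH i hi.le, hkH (i + 1) hi]
        refine (hHH i hi).trans ?_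
        apply Real.exp_le_exp.2
        apply mul_le_mul_of_nonneg_right (hδle p hp)
        apply le_min
        · exact (hA0.trans_lt (lt_of_le_of_lt (le_max_right _ _) (hY i hi.le))).le
        · exact (hA0.trans_lt (lt_of_le_of_lt (le_max_right _ _) (hY (i + 1) hi))).le
    have hres' : ∀ p : ℤ, ∃ a' : ℝ, p ∈ Finset.Icc V.lo V.hi → ∀ y : ℂ, |y.re| ≤ 1 →
        a' < y.im → V.F p y = (LinearMap.range (uexp (cm c.N) (-c0) * W p 0).mulVecLin).map
          (uexp (cm c.N) (α y / β y)).mulVecLin := by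
      intro p
      by_cases hp : p ∈ Finset.Icc V.lo V.hi
      · obtain ⟨a', ha'⟩ := hres p hp
        exact ⟨a', fun _ => ha'⟩
      · exact ⟨0, fun h => absurd h hp⟩
    choose a' ha' using hres'
    obtain ⟨amax, hamax⟩ := C12b_max (Finset.Icc V.lo V.hi) a'
    obtain ⟨aα, haα⟩ := hα.analytic
    obtain ⟨aβ, haβ⟩ := hβ.analytic
    set aa : ℝ := max (max amax 0) (max (max aα aβ) (ab V.lo)) with haa
    have hβne : ∀ y : ℂ, |y.re| < 1 → aa < y.im → β y ≠ 0 := by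
      intro y hy1 hy2 h0
      have h1 := (hab V.lo y hy1.le (lt_of_le_of_lt ((le_max_right _ _).trans
        (le_max_right _ _)) hy2)).1
      rw [h0, norm_zero] at h1
      linarith
    refine ⟨aa, (le_max_right _ _).trans (le_max_left _ _), hβne, ?_, ?_⟩
    · intro y hy1 hy2
      exact (haα y (lt_of_le_of_lt ((le_max_left _ _).trans ((le_max_left _ _).trans
        (le_max_right _ _))) hy2)).div (haβ y (lt_of_le_of_lt ((le_max_right _ _).trans
        ((le_max_left _ _).trans (le_max_right _ _))) hy2)) (hβne y hy1 hy2)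
    · intro y hy1 hy2 p
      have hy0 : 0 < y.im := lt_of_le_of_lt ((le_max_right _ _).trans (le_max_left _ _)) hy2
      by_cases hp1 : p < V.lo
      · rw [if_pos hp1, C12b_map_top _ hNn, eq_top_iff, ← V.F_lo y hy0]
        exact (V.phs y hy0).anti p V.lo hp1.le
      · rw [if_neg hp1]
        by_cases hp2 : V.hi < p
        · rw [if_pos hp2, Submodule.map_bot, eq_bot_iff, ← V.F_hi y hy0]
          exact (V.phs y hy0).anti V.hi p hp2.le
        · rw [if_neg hp2]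
          have hp : p ∈ Finset.Icc V.lo V.hi := Finset.mem_Icc.2 ⟨by omega, by omega⟩
          exact ha' p hp y hy1.le (lt_of_le_of_lt ((hamax p hp).trans ((le_max_left _ _).trans
            (le_max_left _ _))) hy2)
  by_cases hcase : ∃ p0 : ℤ, ∃ s : ℂ, (G p0).E s *ᵥ (fun g => minor (W p0 0) g) ≠
      fun g => minor (W p0 0) g
  · obtain ⟨p0, hp0⟩ := hcase
    obtain ⟨l0, l1, l, k, hl, hlin⟩ := lin_functional (G p0) (fun g => minor (W p0 0) g) hp0
    obtain ⟨a1, K1, hK1, hclock⟩ := clock (G p0) (fun q g => minor (W p0 q) g) (hMh p0) l0 l1 l k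
      hl (fun s => (hlin s).1) (fun s => (hlin s).2)
    obtain ⟨a2, hbeta⟩ := C12b_beta (G p0) (fun q g => minor (W p0 q) g) (hMh p0) l0 l hl
      (fun s => (hlin s).1)
    set β : ℂ → ℂ := fun z => ∑ i, (l0 i : ℂ) * ((G p0).E z *ᵥ (fun g => minor (W p0 (qq z)) g)) i
      with hβdef
    set α : ℂ → ℂ := fun z => ∑ i, (l1 i : ℂ) * ((G p0).E z *ᵥ (fun g => minor (W p0 (qq z)) g)) i
      with hαdef
    have hαZ : Zfun α := C12b_zfun_comb (G p0) (fun q g => minor (W p0 q) g) (hMh p0) l1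
    have hβZ : Zfun β := C12b_zfun_comb (G p0) (fun q g => minor (W p0 q) g) (hMh p0) l0
    have hx : ∀ z : ℂ, |z.re| ≤ 1 → a1 < z.im → ‖α z / β z - z - k / l‖ ≤
        K1 * Real.exp (-z.im / 2) := fun z h1 h2 => (hclock z h1 h2).2
    -- frames are independent near the cusp
    obtain ⟨f0, hf0⟩ := exists_minor_ne (W p0 0) (hWli p0)
    have hcont : ∀ᶠ q in 𝓝 (0 : ℂ), minor (W p0 q) f0 ≠ 0 :=
      (C11_minor_analytic (W p0) (hWan p0) f0).continuousAt.eventually_ne hf0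
    obtain ⟨ε, hε, hball⟩ := Metric.eventually_nhds_iff.1 hcont
    obtain ⟨a3, ha3⟩ := C11_qq_small ε hε
    set A0 : ℝ := max (max a3 (aF p0)) 0 with hA0
    have hli : ∀ y : ℂ, A0 < y.im → LinearIndependent ℂ (uexp (cm c.N) y * W p0 (qq y))ᵀ := by
      intro y hy
      have hnear : minor (W p0 (qq y)) f0 ≠ 0 := by
        apply hball
        rw [dist_zero_right]
        exact ha3 y (lt_of_le_of_lt ((le_max_left _ _).trans (le_max_left _ _)) hy)
      obtain ⟨f, hf⟩ := C11_ne c.N (G p0) (hG p0) y (W p0 (qq y)) f0 hnear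
      exact linInd_of_minor_ne _ f hf
    have hAex : ∀ i : {i : ℂ × ℝ // |i.1.re| ≤ 1 ∧ A0 < i.1.im ∧ 1 ≤ i.2 ∧ IsCM V i.1 i.2},
        ∃ A : Matrix (Fin n) (Fin n) ℤ, (∀ a b, |(A a b : ℝ)| ≤ i.1.2) ∧
          (im A).charpoly.Separable ∧ ∀ p, ∀ x ∈ V.F p i.1.1, (im A) *ᵥ x ∈ V.F p i.1.1 :=
      fun i => i.2.2.2.2
    choose A hA1 hA2 hA3 using hAex
    obtain ⟨cc, hcc, hccalg⟩ := plucker_alg
      (I := {i : ℂ × ℝ // |i.1.re| ≤ 1 ∧ A0 < i.1.im ∧ 1 ≤ i.2 ∧ IsCM V i.1 i.2})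
      (H := fun i => i.1.2) (fun i => i.2.2.2.1) A hA1 hA2
      (fun i => uexp (cm c.N) i.1.1 * W p0 (qq i.1.1)) (fun i => hli _ i.2.2.1) (by
        intro i x hx
        have haFi : aF p0 < i.1.1.im :=
          lt_of_le_of_lt ((le_max_right _ _).trans (le_max_left _ _)) i.2.2.1
        rw [← hF p0 i.1.1 haFi] at hx ⊢
        exact hA3 i p0 x hx)
    have hcomb : ∀ l' : (Fin (r p0) → Fin n) → ℚ, AlgFam
        (fun i : {i : ℂ × ℝ // |i.1.re| ≤ 1 ∧ A0 < i.1.im ∧ 1 ≤ i.2 ∧ IsCM V i.1 i.2} => i.1.2)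
        (fun i => cc i * ∑ f, (l' f : ℂ) *
          ((G p0).E i.1.1 *ᵥ (fun g => minor (W p0 (qq i.1.1)) g)) f) := by
      intro l'
      have h1 := C12b_alg_lin
        (I := {i : ℂ × ℝ // |i.1.re| ≤ 1 ∧ A0 < i.1.im ∧ 1 ≤ i.2 ∧ IsCM V i.1 i.2})
        (H := fun i => i.1.2) (fun i => i.2.2.2.1) l'
        (fun f i => cc i * minor (uexp (cm c.N) i.1.1 * W p0 (qq i.1.1)) f) hccalg
      have h2 : (fun i : {i : ℂ × ℝ // |i.1.re| ≤ 1 ∧ A0 < i.1.im ∧ 1 ≤ i.2 ∧ IsCM V i.1 i.2} =>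
          cc i * ∑ f, (l' f : ℂ) *
            ((G p0).E i.1.1 *ᵥ (fun g => minor (W p0 (qq i.1.1)) g)) f) =
          fun i => ∑ f, (l' f : ℂ) * (cc i * minor (uexp (cm c.N) i.1.1 * W p0 (qq i.1.1)) f) := by
        funext i
        rw [Finset.mul_sum]
        apply Finset.sum_congr rfl
        intro f _
        rw [C11_key c.N (G p0) (hG p0)]
        ring
      rw [h2]
      exact h1
    obtain ⟨δ, hδ, M, Y, hfin⟩ := hend α β hαZ hβZ (k / l) (‖l‖ / 2) (2 * ‖l‖)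
      (half_pos (norm_pos_iff.2 hl)) (by
        intro p
        obtain ⟨a4, K4, -, h4⟩ := move (G p) (fun q g => minor (W p q) g) (hMh p)
          (fun z => α z / β z) (k / l) a1 K1 hx
        refine ⟨max a2 a4, K4, fun z hz1 hz2 => ?_⟩
        obtain ⟨h5, h6⟩ := hbeta z hz1 (lt_of_le_of_lt (le_max_left _ _) hz2)
        exact ⟨h5, h6, h4 z hz1 (lt_of_le_of_lt (le_max_right _ _) hz2)⟩)
      A0 (le_max_right _ _) ⟨cc, hcc, hcomb l1, hcomb l0⟩
    refine ⟨δ, hδ, M, Y, fun m hm z H hre hY hinj hH hcm hHH => ?_⟩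
    obtain ⟨a5, ha5, hβne, han, hFe⟩ := hfin m hm z H hre hY hinj hH hcm hHH
    refine ⟨max a5 a1, fun y => α y / β y, fun p => (if p < V.lo then ⊤ else if V.hi < p then ⊥
      else LinearMap.range (uexp (cm c.N) (-(k / l)) * W p 0).mulVecLin :
        Submodule ℂ (Fin n → ℂ)), ha5.trans (le_max_left _ _), ?_, ?_, Or.inl ?_⟩
    · intro y h1 h2
      exact han y h1 (lt_of_le_of_lt (le_max_left _ _) h2)
    · intro y h1 h2
      exact hFe y h1 (lt_of_le_of_lt (le_max_left _ _) h2)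
    · apply C12b_deriv_ne (fun y => α y / β y) (k / l) (max a5 a1) K1
      · intro y h1 h2
        exact han y h1 (lt_of_le_of_lt (le_max_left _ _) h2)
      · intro y h1 h2
        exact hx y h1 (lt_of_le_of_lt (le_max_right _ _) h2)
  · push Not at hcase
    obtain ⟨δ, hδ, M, Y, hfin⟩ := hend (fun _ => 0) (fun _ => 1) (Zfun.const 0) (Zfun.const 1) 0 1 1
      one_pos (by
        intro p
        obtain ⟨a4, K4, hK4, h4⟩ := asym (G p) (fun q g => minor (W p q) g) (hMh p)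
        refine ⟨max a4 0, K4, fun z hz1 hz2 => ⟨by simp, by simp, fun f => ?_⟩⟩
        have h5 := h4 z hz1 (lt_of_le_of_lt (le_max_left _ _) hz2) f
        have hz0 : 0 < z.im := lt_of_le_of_lt (le_max_right _ _) hz2
        rw [zero_div, neg_zero, (G p).E_zero, Matrix.one_mulVec, Matrix.one_mulVec]
        rw [hcase p z] at h5
        refine h5.trans ?_
        apply mul_le_mul_of_nonneg_left _ hK4
        apply Real.exp_le_exp.2
        linarith)
      0 le_rfl ⟨fun _ => 1, fun _ => one_ne_zero, by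
        have h1 := AlgFam.const
          (I := {i : ℂ × ℝ // |i.1.re| ≤ 1 ∧ 0 < i.1.im ∧ 1 ≤ i.2 ∧ IsCM V i.1 i.2})
          (H := fun i => i.1.2) (fun i => i.2.2.2.1) 0
        simpa using h1, by
        have h1 := AlgFam.const
          (I := {i : ℂ × ℝ // |i.1.re| ≤ 1 ∧ 0 < i.1.im ∧ 1 ≤ i.2 ∧ IsCM V i.1 i.2})
          (H := fun i => i.1.2) (fun i => i.2.2.2.1) 1
        simpa using h1⟩
    refine ⟨δ, hδ, M, Y, fun m hm z H hre hY hinj hH hcm hHH => ?_⟩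
    obtain ⟨a5, ha5, hβne, han, hFe⟩ := hfin m hm z H hre hY hinj hH hcm hHH
    refine ⟨a5, fun _ => 0 / 1, fun p => (if p < V.lo then ⊤ else if V.hi < p then ⊥
      else LinearMap.range (uexp (cm c.N) (-0) * W p 0).mulVecLin :
        Submodule ℂ (Fin n → ℂ)), ha5, ?_, ?_, Or.inr ?_⟩
    · intro y h1 h2
      exact analyticAt_const
    · intro y h1 h2
      exact hFe y h1 h2
    · intro p x hx s
      beta_reduce at hx ⊢
      by_cases hp1 : p < V.lo
      · rw [if_pos hp1]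
        trivial
      · rw [if_neg hp1] at hx ⊢
        by_cases hp2 : V.hi < p
        · rw [if_pos hp2] at hx ⊢
          rw [Submodule.mem_bot] at hx ⊢
          rw [hx, Matrix.mulVec_zero]
        · rw [if_neg hp2] at hx ⊢
          have h0 : uexp (cm c.N) (-0) = 1 := by
            rw [neg_zero, uexp_zero]
          rw [h0, Matrix.one_mul] at hx ⊢
          obtain ⟨f1, hf1⟩ := exists_minor_ne (W p 0) (hWli p)
          have hmin : ∀ f, minor (uexp (cm c.N) s * W p 0) f = 1 * minor (W p 0) f := by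
            intro f
            have h1 := congrFun (hcase p s) f
            rw [C11_key c.N (G p) (hG p)] at h1
            rw [one_mul]
            exact h1
          have hli1 : LinearIndependent ℂ (uexp (cm c.N) s * W p 0)ᵀ := by
            apply linInd_of_minor_ne _ f1
            rw [hmin, one_mul]
            exact hf1
          have hr := range_eq_of_minor _ _ (hWli p) hli1 1 hmin
          rw [← hr]
          obtain ⟨w, rfl⟩ := hx
          refine ⟨w, ?_⟩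
          show (uexp (cm c.N) s * W p 0) *ᵥ w = uexp (cm c.N) s *ᵥ (W p 0 *ᵥ w)
          rw [Matrix.mulVec_mulVec]

end MP2794d1
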