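import Pool.Agent.Lib.MP_2794d1_ag.Base

/-!
D01: Let D f = a' f - a f', e = natDegree a, α = leadingCoeff a. If e = 0, a is constant. If e ≥ 1 and e ≠ 2, then by
induction on k, D^k 1 has natDegree k(e-1) and leading coefficient α^k ∏_{i<k} (e - i(e-1)) ≠ 0 (e - i(e-1) = 0 would
force (e-1) | e, i.e. e = 2 (e = 1 gives the factor 1)): for f of natDegree m with leading coefficient λ the
coefficient of X^(e+m-1) in a' f - a f' is (e - m) α λ. So D^k 1 ≠ 0 for all k, contradiction. If e = 2, write
a = α X^2 + β X + γ: D 1 = a', D a' = a'^2 - a a'' = 2α a + disc with disc = β^2 - 4αγ, D a = 0, so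
D^(2j+1) 1 = disc^j a' and D^(2j+2) 1 = disc^j (2α a + disc); a' ≠ 0 and 2α a + disc ≠ 0 (degree 2), hence disc = 0
(for k = 0 the hypothesis is 1 = 0, impossible) and a = α (X + β/(2α))^2.
-/

namespace MP2794d1

open Matrix Complex Filter Topology

open Polynomial in
theorem D01_top (a f : Polynomial ℂ) (e m : ℕ) (he : 1 ≤ e) (ha : a.natDegree ≤ e)
    (hf : f.natDegree ≤ m) :
    (derivative a * f - a * derivative f).natDegree ≤ m + (e - 1) ∧
      (derivative a * f - a * derivative f).coeff (m + (e - 1)) =
        ((e : ℂ) - m) * (a.coeff e * f.coeff m) := by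
  obtain ⟨e, rfl⟩ : ∃ e', e = e' + 1 := ⟨e - 1, by omega⟩
  have hda : (derivative a).natDegree ≤ e := by
    refine (natDegree_derivative_le a).trans ?_
    omega
  have hca : (derivative a).coeff e = a.coeff (e + 1) * ((e : ℂ) + 1) := coeff_derivative a e
  rcases Nat.eq_zero_or_pos m with hm | hm
  · subst hm
    have hf0 : f = C (f.coeff 0) := eq_C_of_natDegree_le_zero hf
    have hdf : derivative f = 0 := by rw [hf0]; simp
    rw [hdf, mul_zero, sub_zero]
    refine ⟨?_, ?_⟩
    · refine natDegree_mul_le.trans ?_
      simp only [Nat.add_sub_cancel]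
      omega
    · simp only [Nat.add_sub_cancel, zero_add]
      have := coeff_mul_add_eq_of_natDegree_le hda hf
      rw [add_zero] at this
      rw [this, hca]
      push_cast
      ring
  · obtain ⟨m, rfl⟩ : ∃ m', m = m' + 1 := ⟨m - 1, by omega⟩
    have hdf : (derivative f).natDegree ≤ m := by
      refine (natDegree_derivative_le f).trans ?_
      omega
    have hcf : (derivative f).coeff m = f.coeff (m + 1) * ((m : ℂ) + 1) := coeff_derivative f m
    simp only [Nat.add_sub_cancel]
    refine ⟨?_, ?_⟩
    · refine (natDegree_sub_le _ _).trans ?_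
      rw [max_le_iff]
      constructor
      · refine natDegree_mul_le.trans ?_
        omega
      · refine natDegree_mul_le.trans ?_
        omega
    · have h1 := coeff_mul_add_eq_of_natDegree_le hda hf
      have h2 := coeff_mul_add_eq_of_natDegree_le ha hdf
      have e1 : e + (m + 1) = m + 1 + e := by omega
      have e2 : e + 1 + m = m + 1 + e := by omega
      rw [e1] at h1
      rw [e2] at h2
      rw [coeff_sub, h1, h2, hca, hcf]
      push_cast
      ring

open Polynomial in
theorem D01_iter (a : Polynomial ℂ) (e : ℕ) (he : 1 ≤ e) (he2 : e ≠ 2) (hae : a.natDegree = e)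
    (k : ℕ) :
    ((fun f : Polynomial ℂ => derivative a * f - a * derivative f)^[k] 1).natDegree
      ≤ k * (e - 1) ∧
    ((fun f : Polynomial ℂ => derivative a * f - a * derivative f)^[k] 1).coeff (k * (e - 1))
      ≠ 0 := by
  induction k with
  | zero => simp
  | succ k ih =>
    rw [Function.iterate_succ_apply']
    have h := D01_top a ((fun f : Polynomial ℂ => derivative a * f - a * derivative f)^[k] 1)
      e (k * (e - 1)) he hae.le ih.1
    have e1 : (k + 1) * (e - 1) = k * (e - 1) + (e - 1) := by ring
    rw [e1]
    refine ⟨h.1, ?_⟩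
    rw [h.2]
    refine mul_ne_zero ?_ (mul_ne_zero ?_ ih.2)
    · intro h0
      have h1 : ((e : ℕ) : ℂ) = ((k * (e - 1) : ℕ) : ℂ) := sub_eq_zero.mp h0
      have h2 : e = k * (e - 1) := by exact_mod_cast h1
      have h3 : (e - 1) ∣ e := ⟨k, by rw [mul_comm]; exact h2⟩
      have h4 : (e - 1) ∣ 1 := by
        have h5 : e = (e - 1) + 1 := by omega
        have h7 : (e - 1) ∣ (e - 1) + 1 := by
          rw [← h5]; exact h3
        exact (Nat.dvd_add_right (dvd_refl _)).mp h7
      have h6 : e - 1 = 1 := Nat.dvd_one.mp h4
      omega
    · rw [← hae]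
      intro h0
      have : a = 0 := leadingCoeff_eq_zero.mp h0
      rw [this] at hae
      simp at hae
      omega

theorem poly_nil (a : Polynomial ℂ) (k : ℕ)
    (h : (fun f : Polynomial ℂ => Polynomial.derivative a * f - a * Polynomial.derivative f)^[k] 1
      = 0) :
    (∃ c : ℂ, a = Polynomial.C c) ∨
      ∃ α r : ℂ, α ≠ 0 ∧ a = Polynomial.C α * (Polynomial.X - Polynomial.C r) ^ 2 := by
  rcases Nat.eq_zero_or_pos a.natDegree with h0 | h1
  · left
    exact ⟨a.coeff 0, Polynomial.eq_C_of_natDegree_eq_zero h0⟩
  by_cases h2 : a.natDegree = 2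
  swap
  · exfalso
    have := (D01_iter a a.natDegree h1 h2 rfl k).2
    rw [h] at this
    exact this (Polynomial.coeff_zero _)
  right
  have hdeg : a.degree ≤ 2 := by
    have := Polynomial.degree_le_natDegree (p := a)
    rw [h2] at this
    exact_mod_cast this
  have hq := Polynomial.eq_quadratic_of_degree_le_two hdeg
  have hα : a.coeff 2 ≠ 0 := by
    intro h3
    have h4 : a.leadingCoeff = 0 := by
      rw [Polynomial.leadingCoeff, h2]; exact h3
    have h5 : a = 0 := Polynomial.leadingCoeff_eq_zero.mp h4
    rw [h5] at h1
    simp at h1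
  set α := a.coeff 2 with hαd
  set β := a.coeff 1 with hβd
  set γ := a.coeff 0 with hγd
  have hder : Polynomial.derivative a = Polynomial.C (2 * α) * Polynomial.X + Polynomial.C β := by
    rw [hq]
    simp only [Polynomial.derivative_add, Polynomial.derivative_C_mul, Polynomial.derivative_X_pow,
      Polynomial.derivative_X, Polynomial.derivative_C, Polynomial.C_mul]
    simp only [Nat.cast_ofNat, Polynomial.C_ofNat]
    ring
  have hder2 : Polynomial.derivative (Polynomial.derivative a) = Polynomial.C (2 * α) := by
    rw [hder]
    simp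
  have hdisc : β ^ 2 - 4 * α * γ = 0 := by
    by_contra hne
    set δ := β ^ 2 - 4 * α * γ with hδ
    have hA : Polynomial.derivative a * Polynomial.derivative a
        - a * Polynomial.derivative (Polynomial.derivative a)
        = Polynomial.C (2 * α) * a + Polynomial.C δ := by
      rw [hder2, hder]
      conv_lhs => rw [hq]
      conv_rhs => rw [hq]
      rw [hδ]
      simp only [Polynomial.C_mul, Polynomial.C_sub, Polynomial.C_pow, Polynomial.C_ofNat]
      ring
    have hB : Polynomial.derivative a * (Polynomial.C (2 * α) * a + Polynomial.C δ)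
        - a * Polynomial.derivative (Polynomial.C (2 * α) * a + Polynomial.C δ)
        = Polynomial.C δ * Polynomial.derivative a := by
      simp only [Polynomial.derivative_add, Polynomial.derivative_C_mul, Polynomial.derivative_C]
      ring
    have hdne : Polynomial.derivative a ≠ 0 := by
      intro h6
      rw [h6] at hder2
      simp only [Polynomial.derivative_zero] at hder2
      have := congrArg (fun p : Polynomial ℂ => p.coeff 0) hder2
      simp at this
      exact hα this
    have hne2 : Polynomial.C (2 * α) * a + Polynomial.C δ ≠ 0 := by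
      intro h6
      have := congrArg (fun p : Polynomial ℂ => p.coeff 2) h6
      simp only [Polynomial.coeff_add, Polynomial.coeff_C_mul, Polynomial.coeff_zero] at this
      rw [Polynomial.coeff_C_succ, add_zero, ← hαd] at this
      have h7 : 2 * α * α = 0 := this
      have h8 : (2 : ℂ) ≠ 0 := two_ne_zero
      exact (mul_ne_zero (mul_ne_zero h8 hα) hα) h7
    have hit : ∀ j : ℕ,
        (fun f : Polynomial ℂ => Polynomial.derivative a * f - a * Polynomial.derivative f)^[2 * j + 1] 1
          = Polynomial.C (δ ^ j) * Polynomial.derivative a ∧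
        (fun f : Polynomial ℂ => Polynomial.derivative a * f - a * Polynomial.derivative f)^[2 * j + 2] 1
          = Polynomial.C (δ ^ j) * (Polynomial.C (2 * α) * a + Polynomial.C δ) := by
      intro j
      have key : ∀ (c : ℂ) (p : Polynomial ℂ),
          Polynomial.derivative a * (Polynomial.C c * p) - a * Polynomial.derivative (Polynomial.C c * p)
          = Polynomial.C c * (Polynomial.derivative a * p - a * Polynomial.derivative p) := by
        intro c p
        rw [Polynomial.derivative_C_mul]
        ring
      induction j with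
      | zero =>
        refine ⟨by simp, ?_⟩
        rw [show 2 * 0 + 2 = 1 + 1 from rfl, Function.iterate_succ_apply']
        simp only [Function.iterate_one, mul_one, Polynomial.derivative_one, mul_zero, sub_zero,
          pow_zero, Polynomial.C_1, one_mul]
        exact hA
      | succ j ih =>
        have hodd : (fun f : Polynomial ℂ => Polynomial.derivative a * f - a * Polynomial.derivative f)^[2 * (j + 1) + 1] 1
          = Polynomial.C (δ ^ (j + 1)) * Polynomial.derivative a := by
          rw [show 2 * (j + 1) + 1 = (2 * j + 2) + 1 by ring, Function.iterate_succ_apply', ih.2]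
          show Polynomial.derivative a * _ - a * Polynomial.derivative _ = _
          rw [key, hB, pow_succ, Polynomial.C_mul]
          ring
        refine ⟨hodd, ?_⟩
        rw [show 2 * (j + 1) + 2 = (2 * (j + 1) + 1) + 1 by ring, Function.iterate_succ_apply', hodd]
        show Polynomial.derivative a * _ - a * Polynomial.derivative _ = _
        rw [key, hA]
    rcases Nat.eq_zero_or_pos k with hk0 | hkpos
    · rw [hk0] at h
      simp at h
    rcases Nat.even_or_odd' k with ⟨j, hj | hj⟩
    · obtain ⟨i, rfl⟩ : ∃ i, j = i + 1 := ⟨j - 1, by omega⟩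
      have hj' : k = 2 * i + 2 := by omega
      rw [hj', (hit i).2] at h
      rcases mul_eq_zero.mp h with h9 | h9
      · exact (pow_ne_zero i hne) (Polynomial.C_eq_zero.mp h9)
      · exact hne2 h9
    · rw [hj, (hit j).1] at h
      rcases mul_eq_zero.mp h with h9 | h9
      · exact (pow_ne_zero j hne) (Polynomial.C_eq_zero.mp h9)
      · exact hdne h9
  refine ⟨α, -β / (2 * α), hα, ?_⟩
  have hγ : γ = β ^ 2 / (4 * α) := by
    field_simp
    linear_combination -hdisc
  have h1' : Polynomial.C α * (Polynomial.X - Polynomial.C (-β / (2 * α))) ^ 2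
      = Polynomial.C α * Polynomial.X ^ 2 + Polynomial.C (-(2 * α * (-β / (2 * α)))) * Polynomial.X
        + Polynomial.C (α * (-β / (2 * α)) ^ 2) := by
    simp only [Polynomial.C_mul, Polynomial.C_neg, Polynomial.C_pow, Polynomial.C_ofNat]
    ring
  have h2' : -(2 * α * (-β / (2 * α))) = β := by field_simp
  have h3' : α * (-β / (2 * α)) ^ 2 = γ := by
    rw [hγ]; field_simp; ring
  rw [h1', h2', h3']
  exact hq

end MP2794d1
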