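import Pool.Agent.Lib.MP_2794d1_ag.C12b
import Pool.Agent.Lib.MP_2794d1_ag.S03

/-!
S03b: chain version of S03.
-/

namespace MP2794d1

open Matrix Complex Filter Topology

theorem stageOne_of_chain {n : ℕ} (V : PolVHS n) (c : Cusp V) (hN : c.N ≠ 0) :
    ∃ δ : ℝ, 0 < δ ∧ ∃ (M : ℕ) (Y : ℝ), ∀ (m : ℕ), M ≤ m → ∀ (z : ℕ → ℂ) (H : ℕ → ℝ),
      (∀ k, k ≤ m → |(z k).re| ≤ 1) → (∀ k, k ≤ m → Y < (z k).im) →
      (∀ i j, i ≤ m → j ≤ m → z i = z j → i = j) →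
      (∀ k, k ≤ m → 1 ≤ H k) → (∀ k, k ≤ m → IsCM V (z k) (H k)) →
      (∀ k, k < m → H k * H (k + 1) ≤ Real.exp (δ * min (z k).im (z (k + 1)).im)) →
      ∃ (a : ℝ) (u : ℂ → ℂ) (F0 : ℤ → Submodule ℂ (Fin n → ℂ)), StageOne V c a u F0 := by
  obtain ⟨δ, hδ, M, Y, H1⟩ := stage1_chain V c
  refine ⟨δ, hδ, M, Y, ?_⟩
  intro m hm z H h1 h2 h3 h4 h5 h6
  obtain ⟨a, u, F0, ha, han, heq, hor⟩ := H1 m hm z H h1 h2 h3 h4 h5 h6
  refine ⟨a, u, F0, ha, han, heq, ?_⟩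
  rcases hor with h | h
  · exact h
  · exfalso
    have hnil := cm_pow c.N c.nil
    have hmem : cm c.N ∈ FEnd F0 0 := by
      intro p x hx
      rw [add_zero]
      exact mem_of_uexp_mem (cm c.N) hnil (F0 p) x (h p x hx)
    set y : ℂ := ⟨0, a + 1⟩ with hy
    have hy1 : |y.re| < 1 := by simp [hy]
    have hy2 : a < y.im := by simp [hy]
    have h8 := (FEnd_map_iff (cm c.N) hnil (u y) F0 (fun p => V.F p y)
      (fun p => heq y hy1 hy2 p) (cm c.N) 0).2 (by rw [S03_conj]; exact hmem)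
    exact N_not_mem V c hN y (lt_of_le_of_lt ha hy2) h8

end MP2794d1
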