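import Pool.Agent.Lib.MP_2794d1_ag.S03
import Pool.Agent.Lib.MP_2794d1_ag.F03
import Pool.Agent.Lib.MP_2794d1_ag.F04

/-!
S07: the coordinate w on the half plane. cont_line with X = br N N' on the strip gives b analytic on the half plane with
X - b z • N ∈ FEnd_z 0; w z := - b z/(2q). On the strip b = -2q(u - r) by uniqueness (N ∉ FEnd_y 0), so w = u - r. The
first membership: cont_map with X z = N' - (q (w z)²) N, q = p + 0, for every p.
-/

namespace MP2794d1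

open Matrix Complex Filter Topology

theorem exists_w {n : ℕ} (V : PolVHS n) (c : Cusp V) (hN : c.N ≠ 0) (g : V.grp) {a : ℝ}
    {u : ℂ → ℂ} {F0 : ℤ → Submodule ℂ (Fin n → ℂ)} (h : StageOne V c a u F0) (q : ℚ) (hq : q ≠ 0)
    (r : ℂ) (hst : ∀ y : ℂ, |y.re| < 1 → a < y.im →
        cm (c.conj g) - (((q : ℝ) : ℂ) * (u y - r) ^ 2) • cm c.N ∈ FEnd (fun p => V.F p y) 0 ∧
        br (cm c.N) (cm (c.conj g)) + (2 * ((q : ℝ) : ℂ) * (u y - r)) • cm c.N ∈
          FEnd (fun p => V.F p y) 0) :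
    ∃ w : ℂ → ℂ, (∀ z : ℂ, 0 < z.im → AnalyticAt ℂ w z) ∧
      (∀ y : ℂ, |y.re| < 1 → a < y.im → w y = u y - r) ∧
      ∀ z : ℂ, 0 < z.im →
        cm (c.conj g) - (((q : ℝ) : ℂ) * (w z) ^ 2) • cm c.N ∈ FEnd (fun p => V.F p z) 0 ∧
        br (cm c.N) (cm (c.conj g)) + (2 * ((q : ℝ) : ℂ) * (w z)) • cm c.N ∈
          FEnd (fun p => V.F p z) 0 := by
  have hHo : IsOpen {y : ℂ | |y.re| < 1 ∧ a < y.im} := by
    apply IsOpen.inter
    · exact isOpen_lt (Complex.continuous_re.abs) continuous_const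
    · exact isOpen_lt continuous_const Complex.continuous_im
  obtain ⟨y1, hy1, hy2, -⟩ := h.ne
  have hpos : ∀ y ∈ {y : ℂ | |y.re| < 1 ∧ a < y.im}, 0 < y.im :=
    fun y hy => lt_of_le_of_lt h.ha hy.2
  have hqC : ((q : ℝ) : ℂ) ≠ 0 := by exact_mod_cast hq
  set X := br (cm c.N) (cm (c.conj g)) with hX
  obtain ⟨b, hban, hb⟩ := cont_line V (cm c.N) X (fun x hx => N_not_mem V c hN x hx)
    {y : ℂ | |y.re| < 1 ∧ a < y.im} hHo ⟨y1, hy1, hy2⟩ hpos (by
      intro y hy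
      refine ⟨-(2 * ((q : ℝ) : ℂ) * (u y - r)), ?_⟩
      rw [neg_smul, sub_neg_eq_add]
      exact (hst y hy.1 hy.2).2)
  have hwan : ∀ z : ℂ, 0 < z.im → AnalyticAt ℂ (fun z => -(b z) / (2 * ((q : ℝ) : ℂ))) z :=
    fun z hz => (hban z hz).neg.div_const
  have hwu : ∀ y : ℂ, |y.re| < 1 → a < y.im → -(b y) / (2 * ((q : ℝ) : ℂ)) = u y - r := by
    intro y hy1 hy2
    have hyp := hpos y ⟨hy1, hy2⟩
    have e1 := hb y hyp
    have e2 := (hst y hy1 hy2).2
    have e3 : (2 * ((q : ℝ) : ℂ) * (u y - r) + b y) • cm c.N ∈ FEnd (fun p => V.F p y) 0 := by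
      have e4 := Submodule.sub_mem _ e2 e1
      have e5 : X + (2 * ((q : ℝ) : ℂ) * (u y - r)) • cm c.N - (X - b y • cm c.N) =
          (2 * ((q : ℝ) : ℂ) * (u y - r) + b y) • cm c.N := by
        rw [add_smul]
        abel
      rwa [e5] at e4
    have e6 : 2 * ((q : ℝ) : ℂ) * (u y - r) + b y = 0 := by
      by_contra hne
      apply N_not_mem V c hN y hyp
      have e7 := Submodule.smul_mem _ (2 * ((q : ℝ) : ℂ) * (u y - r) + b y)⁻¹ e3
      rwa [smul_smul, inv_mul_cancel₀ hne, one_smul] at e7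
    field_simp
    linear_combination -e6
  refine ⟨fun z => -(b z) / (2 * ((q : ℝ) : ℂ)), hwan, hwu, fun z hz => ⟨?_, ?_⟩⟩
  · intro p
    refine cont_map V (fun z => cm (c.conj g) -
      (((q : ℝ) : ℂ) * (-(b z) / (2 * ((q : ℝ) : ℂ))) ^ 2) • cm c.N) ?_ p (p + 0)
      {y : ℂ | |y.re| < 1 ∧ a < y.im} hHo ⟨y1, hy1, hy2⟩ hpos ?_ z hz
    · intro i j y hy
      simp only [Matrix.sub_apply, Matrix.smul_apply, smul_eq_mul]
      exact analyticAt_const.sub ((analyticAt_const.mul ((hwan y hy).pow 2)).mul analyticAt_const)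
    · intro y hy x hx
      simp only [hwu y hy.1 hy.2]
      exact (hst y hy.1 hy.2).1 p x hx
  · have e1 := hb z hz
    have e2 : X + (2 * ((q : ℝ) : ℂ) * (-(b z) / (2 * ((q : ℝ) : ℂ)))) • cm c.N =
        X - b z • cm c.N := by
      have e3 : 2 * ((q : ℝ) : ℂ) * (-(b z) / (2 * ((q : ℝ) : ℂ))) = -(b z) := by
        field_simp
      rw [e3, neg_smul, sub_eq_add_neg]
    rw [e2]
    exact e1

end MP2794d1
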