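import Pool.Agent.Lib.MP_2794d1_ag.E03

/-!
E01: existence of the Hodge grading, from an adapted basis (E02, E03).
-/

namespace MP2794d1

open Matrix Complex Filter Topology

theorem exists_gr {n : ℕ} {wt : ℤ} {Q : Matrix (Fin n) (Fin n) ℤ}
    {Fl : ℤ → Submodule ℂ (Fin n → ℂ)} (h : IsPHS wt Q Fl) :
    ∃ μ : Matrix (Fin n) (Fin n) ℂ, IsGr wt Fl μ := by
  obtain ⟨S, d, hS⟩ := exists_adapted h
  exact ⟨_, gr_of_adapted hS⟩

end MP2794d1
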