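import Pool.Agent.Lib.MP_2794d1_ag.E08

/-!
E09: the pointwise theorem. Put L = br N N', E = N' + w • L + (α w²) • N, K = Kmat N N' L α w, x = re w, y = im w.
Algebra (from br N L = 2α N, br N' L = -2α N', br N N' = L; noncomm_ring-type computations are best done by expanding
br bilinearly): br K E = (-2iαy) E, br E (mconj E) = (4iαy) K where mconj E = N' + w̄ L + α w̄² N,
E - K = (iy) • (L + 2αw N).
E = (N' - αw² N) + w (L + 2αw N) ∈ FEnd 0; K = (N' - αw²N) + x (L + 2αwN) + 0·N ∈ FEnd 0 (αw² - 2αxw + α|w|² = 0) and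
mconj K = K, so br μ K = 0 (comm_of_FEnd). N, N', L ∈ FEnd (-1) (FEnd 0 ≤ FEnd (-1) by anti), so mconj E ∈ FEnd (-1).
im w ≠ 0: if y = 0 then E is real, in FEnd 0, so br μ E = 0, trace(E E) = 0 (traces: tr(NN) = tr(N'N') = 0 by
nilpotency... or from the relations: 2α tr(N N) = tr(br N L * N) = 0, etc: tr(NN)=tr(N'N')=tr(NL)=tr(N'L)=0,
tr(LL) = tr(br N N' * L) = tr(N * br N' L) = -2α tr(N N'); so tr(E E) = 2αw² tr(N'N) + w² tr(LL) = 0), so E = 0 by pos0,
N' = -wL - αw²N, L = br N N' = -w·2αN, so br N L = 0 = 2αN: N = 0, contradiction.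
Then triple_pos (t = αy): br μ E = E. With h = (i/(2αy)) K: br h E = E, br h (mconj E) = -mconj E, br h K = 0 and
br μ (mconj E) = - mconj E (gr_conj), so μ - h commutes with K, E, mconj E, hence with
N = ((E - K)/(iy) - (E - mconj E)/(2iy))/(2αiy), L = (E - K)/(iy) - 2αw N, N' = E - wL - αw²N.
Finally L + 2αwN - 2α h = (E - K)/(iy) - (i/y) K = E/(iy) ∈ FEnd 1 (FEnd1_of).
-/

namespace MP2794d1

open Matrix Complex Filter Topology

theorem e09_mul {n : ℕ} (A B : Matrix (Fin n) (Fin n) ℂ) :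
    mconj (A * B) = mconj A * mconj B := by
  unfold mconj
  exact Matrix.map_mul

theorem e09_add {n : ℕ} (A B : Matrix (Fin n) (Fin n) ℂ) :
    mconj (A + B) = mconj A + mconj B := by
  ext i j
  simp [mconj]

theorem e09_sub {n : ℕ} (A B : Matrix (Fin n) (Fin n) ℂ) :
    mconj (A - B) = mconj A - mconj B := by
  ext i j
  simp [mconj]

theorem e09_smul {n : ℕ} (c : ℂ) (A : Matrix (Fin n) (Fin n) ℂ) :
    mconj (c • A) = (starRingEnd ℂ c) • mconj A := by
  ext i j
  simp [mconj]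

theorem e09_mbr {n : ℕ} (A B : Matrix (Fin n) (Fin n) ℂ) :
    mconj (br A B) = br (mconj A) (mconj B) := by
  unfold br
  rw [e09_sub, e09_mul, e09_mul]

theorem e09_al {n : ℕ} (A B C : Matrix (Fin n) (Fin n) ℂ) : br (A + B) C = br A C + br B C := by
  unfold br
  rw [Matrix.add_mul, Matrix.mul_add]
  abel

theorem e09_ar {n : ℕ} (A B C : Matrix (Fin n) (Fin n) ℂ) : br A (B + C) = br A B + br A C := by
  unfold br
  rw [Matrix.add_mul, Matrix.mul_add]
  abel

theorem e09_sl {n : ℕ} (c : ℂ) (A B : Matrix (Fin n) (Fin n) ℂ) : br (c • A) B = c • br A B := by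
  unfold br
  rw [Matrix.smul_mul, Matrix.mul_smul, smul_sub]

theorem e09_sr {n : ℕ} (c : ℂ) (A B : Matrix (Fin n) (Fin n) ℂ) : br A (c • B) = c • br A B := by
  unfold br
  rw [Matrix.smul_mul, Matrix.mul_smul, smul_sub]

theorem e09_self {n : ℕ} (A : Matrix (Fin n) (Fin n) ℂ) : br A A = 0 := by
  unfold br
  rw [sub_self]

theorem e09_swap {n : ℕ} (A B : Matrix (Fin n) (Fin n) ℂ) : br A B = -br B A := by
  unfold br
  rw [neg_sub]

theorem e09_alg1 {n : ℕ} (N N' L : Matrix (Fin n) (Fin n) ℂ) (α u v : ℂ) (r1 : br N N' = L)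
    (r2 : br N L = (2 * α) • N) (r3 : br N' L = (-(2 * α)) • N') :
    br (N' + ((u + v) / 2) • L + (α * u * v) • N) (N' + u • L + (α * u ^ 2) • N) =
      (-(α * (u - v))) • (N' + u • L + (α * u ^ 2) • N) := by
  have r1' : br N' N = -L := by rw [e09_swap, r1]
  have r2' : br L N = -((2 * α) • N) := by rw [e09_swap, r2]
  have r3' : br L N' = -((-(2 * α)) • N') := by rw [e09_swap, r3]
  simp only [e09_al, e09_ar, e09_sl, e09_sr, r1, r2, r3, r1', r2', r3', e09_self]
  match_scalars <;> ring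

theorem e09_alg1' {n : ℕ} (N N' L : Matrix (Fin n) (Fin n) ℂ) (α u v : ℂ) (r1 : br N N' = L)
    (r2 : br N L = (2 * α) • N) (r3 : br N' L = (-(2 * α)) • N') :
    br (N' + ((u + v) / 2) • L + (α * u * v) • N) (N' + v • L + (α * v ^ 2) • N) =
      (α * (u - v)) • (N' + v • L + (α * v ^ 2) • N) := by
  have r1' : br N' N = -L := by rw [e09_swap, r1]
  have r2' : br L N = -((2 * α) • N) := by rw [e09_swap, r2]
  have r3' : br L N' = -((-(2 * α)) • N') := by rw [e09_swap, r3]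
  simp only [e09_al, e09_ar, e09_sl, e09_sr, r1, r2, r3, r1', r2', r3', e09_self]
  match_scalars <;> ring

theorem e09_alg2 {n : ℕ} (N N' L : Matrix (Fin n) (Fin n) ℂ) (α u v : ℂ) (r1 : br N N' = L)
    (r2 : br N L = (2 * α) • N) (r3 : br N' L = (-(2 * α)) • N') :
    br (N' + u • L + (α * u ^ 2) • N) (N' + v • L + (α * v ^ 2) • N) =
      (2 * (α * (u - v))) • (N' + ((u + v) / 2) • L + (α * u * v) • N) := by
  have r1' : br N' N = -L := by rw [e09_swap, r1]
  have r2' : br L N = -((2 * α) • N) := by rw [e09_swap, r2]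
  have r3' : br L N' = -((-(2 * α)) • N') := by rw [e09_swap, r3]
  simp only [e09_al, e09_ar, e09_sl, e09_sr, r1, r2, r3, r1', r2', r3', e09_self]
  match_scalars <;> ring

theorem e09_tr {n : ℕ} (A B C : Matrix (Fin n) (Fin n) ℂ) :
    Matrix.trace (br A B * C) = Matrix.trace (A * br B C) := by
  unfold br
  rw [Matrix.sub_mul, Matrix.mul_sub, Matrix.trace_sub, Matrix.trace_sub]
  congr 1
  · rw [Matrix.mul_assoc]
  · rw [Matrix.mul_assoc, Matrix.trace_mul_comm, Matrix.mul_assoc]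

theorem e09_trE {n : ℕ} (N N' L : Matrix (Fin n) (Fin n) ℂ) (α u : ℂ) (hα : α ≠ 0)
    (r1 : br N N' = L)
    (r2 : br N L = (2 * α) • N) (r3 : br N' L = (-(2 * α)) • N') :
    Matrix.trace ((N' + u • L + (α * u ^ 2) • N) * (N' + u • L + (α * u ^ 2) • N)) = 0 := by
  have h2α : (2 * α) ≠ 0 := mul_ne_zero two_ne_zero hα
  have r2' : br L N = -((2 * α) • N) := by rw [e09_swap, r2]
  have r3' : br L N' = -((-(2 * α)) • N') := by rw [e09_swap, r3]
  have t1 : Matrix.trace (N * N) = 0 := by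
    have h1 := e09_tr L N N
    rw [e09_self, Matrix.mul_zero, Matrix.trace_zero, r2', Matrix.neg_mul, Matrix.smul_mul,
      Matrix.trace_neg, Matrix.trace_smul, neg_eq_zero, smul_eq_mul] at h1
    exact (mul_eq_zero.mp h1).resolve_left h2α
  have t2 : Matrix.trace (N' * N') = 0 := by
    have h1 := e09_tr L N' N'
    rw [e09_self, Matrix.mul_zero, Matrix.trace_zero, r3', Matrix.neg_mul, Matrix.smul_mul,
      Matrix.trace_neg, Matrix.trace_smul, neg_eq_zero, smul_eq_mul] at h1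
    exact (mul_eq_zero.mp h1).resolve_left (neg_ne_zero.mpr h2α)
  have t3 : Matrix.trace (N * L) = 0 := by
    have h1 := e09_tr N L L
    rw [e09_self, Matrix.mul_zero, Matrix.trace_zero, r2, Matrix.smul_mul,
      Matrix.trace_smul, smul_eq_mul] at h1
    exact (mul_eq_zero.mp h1).resolve_left h2α
  have t4 : Matrix.trace (N' * L) = 0 := by
    have h1 := e09_tr N' L L
    rw [e09_self, Matrix.mul_zero, Matrix.trace_zero, r3, Matrix.smul_mul,
      Matrix.trace_smul, smul_eq_mul] at h1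
    exact (mul_eq_zero.mp h1).resolve_left (neg_ne_zero.mpr h2α)
  have t5 : Matrix.trace (L * L) = -(2 * α) * Matrix.trace (N * N') := by
    have h1 := e09_tr N N' L
    rw [r1, r3, Matrix.mul_smul, Matrix.trace_smul, smul_eq_mul] at h1
    exact h1
  have t3' : Matrix.trace (L * N) = 0 := by rw [Matrix.trace_mul_comm]; exact t3
  have t4' : Matrix.trace (L * N') = 0 := by rw [Matrix.trace_mul_comm]; exact t4
  have t6 : Matrix.trace (N' * N) = Matrix.trace (N * N') := Matrix.trace_mul_comm _ _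
  simp only [Matrix.add_mul, Matrix.mul_add, Matrix.smul_mul, Matrix.mul_smul, Matrix.trace_add,
    Matrix.trace_smul, smul_eq_mul, t1, t2, t3, t4, t5, t3', t4', t6]
  ring

theorem pointwise {n : ℕ} {wt : ℤ} {Q : Matrix (Fin n) (Fin n) ℤ}
    {Fl : ℤ → Submodule ℂ (Fin n → ℂ)} (h : IsPHS wt Q Fl) {μ : Matrix (Fin n) (Fin n) ℂ}
    (hμ : IsGr wt Fl μ) (N N' : Matrix (Fin n) (Fin n) ℂ) (rN : mconj N = N)
    (rN' : mconj N' = N') (sN : Skew Q N) (sN' : Skew Q N') (α : ℝ) (hα : α ≠ 0)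
    (h1 : br N (br N N') = ((2 * α : ℝ) : ℂ) • N)
    (h2 : br N' (br N N') = ((-(2 * α) : ℝ) : ℂ) • N') (hN0 : N ≠ 0) (hNm : N ∈ FEnd Fl (-1))
    (w : ℂ) (hw1 : br N N' + (2 * (α : ℂ) * w) • N ∈ FEnd Fl 0)
    (hw2 : N' - ((α : ℂ) * w ^ 2) • N ∈ FEnd Fl 0) :
    w.im ≠ 0 ∧ br (μ - hmat N N' (br N N') α w) N = 0 ∧ br (μ - hmat N N' (br N N') α w) N' = 0 ∧
      br μ (hmat N N' (br N N') α w) = 0 ∧ hmat N N' (br N N') α w ∈ FEnd Fl 0 ∧
      br N N' + (2 * (α : ℂ) * w) • N - (2 * (α : ℂ)) • hmat N N' (br N N') α w ∈ FEnd Fl 1 := by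
  obtain ⟨L, hL⟩ : ∃ L, L = br N N' := ⟨_, rfl⟩
  rw [← hL] at h1 h2 hw1 ⊢
  have r1 : br N N' = L := hL.symm
  have r2 : br N L = (2 * (α : ℂ)) • N := by rw [h1]; push_cast; rfl
  have r3 : br N' L = (-(2 * (α : ℂ))) • N' := by rw [h2]; push_cast; rfl
  have hαc : (α : ℂ) ≠ 0 := by exact_mod_cast hα
  have rL : mconj L = L := by rw [hL, e09_mbr, rN, rN']
  have sL : Skew Q L := by rw [hL]; exact Skew.br sN sN'
  have hanti : ∀ X ∈ FEnd Fl 0, X ∈ FEnd Fl (-1) := by
    intro X hX p x hx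
    exact h.anti (p + -1) (p + 0) (by omega) (hX p x hx)
  have hLm : L ∈ FEnd Fl (-1) := by
    have := Submodule.sub_mem _ (hanti _ hw1) (Submodule.smul_mem _ (2 * (α : ℂ) * w) hNm)
    rwa [add_sub_cancel_right] at this
  have hN'm : N' ∈ FEnd Fl (-1) := by
    have := Submodule.add_mem _ (hanti _ hw2) (Submodule.smul_mem _ ((α : ℂ) * w ^ 2) hNm)
    rwa [sub_add_cancel] at this
  obtain ⟨v, hv⟩ : ∃ v : ℂ, v = starRingEnd ℂ w := ⟨_, rfl⟩
  have hsum : (w + v) / 2 = ((w.re : ℝ) : ℂ) := by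
    rw [hv, Complex.add_conj]; push_cast; ring
  have hdiff : w - v = 2 * Complex.I * ((w.im : ℝ) : ℂ) := by
    rw [hv, Complex.sub_conj]; push_cast; ring
  have hprod : w * v = ((Complex.normSq w : ℝ) : ℂ) := by
    rw [hv, Complex.mul_conj]
  obtain ⟨E, hE⟩ : ∃ E, E = N' + w • L + ((α : ℂ) * w ^ 2) • N := ⟨_, rfl⟩
  obtain ⟨E', hE'⟩ : ∃ E', E' = N' + v • L + ((α : ℂ) * v ^ 2) • N := ⟨_, rfl⟩
  obtain ⟨K, hK⟩ : ∃ K, K = N' + ((w + v) / 2) • L + ((α : ℂ) * w * v) • N := ⟨_, rfl⟩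
  have hKmat : Kmat N N' L α w = K := by
    unfold Kmat
    rw [hK, hsum, mul_assoc, hprod]
    push_cast
    rfl
  have hmE : mconj E = E' := by
    rw [hE, hE', e09_add, e09_add, e09_smul, e09_smul, rN, rN', rL, hv, map_mul, map_pow,
      Complex.conj_ofReal]
  have hmK : mconj K = K := by
    rw [hK, hsum, mul_assoc, hprod, e09_add, e09_add, e09_smul, e09_smul, rN, rN', rL, map_mul,
      Complex.conj_ofReal, Complex.conj_ofReal, Complex.conj_ofReal]
  have hEm : E ∈ FEnd Fl 0 := by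
    have : E = (N' - ((α : ℂ) * w ^ 2) • N) + w • (L + (2 * (α : ℂ) * w) • N) := by
      rw [hE]; match_scalars <;> ring
    rw [this]
    exact Submodule.add_mem _ hw2 (Submodule.smul_mem _ _ hw1)
  have hKm : K ∈ FEnd Fl 0 := by
    have : K = (N' - ((α : ℂ) * w ^ 2) • N) + ((w + v) / 2) • (L + (2 * (α : ℂ) * w) • N) := by
      rw [hK]; match_scalars <;> ring
    rw [this]
    exact Submodule.add_mem _ hw2 (Submodule.smul_mem _ _ hw1)
  have hE'm : E' ∈ FEnd Fl (-1) := by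
    rw [hE']
    exact Submodule.add_mem _ (Submodule.add_mem _ hN'm (Submodule.smul_mem _ _ hLm))
      (Submodule.smul_mem _ _ hNm)
  have sE : Skew Q E := by
    rw [hE]
    exact Skew.add (Skew.add sN' (Skew.smul sL _)) (Skew.smul sN _)
  have hy : w.im ≠ 0 := by
    intro hy
    have hvw : v = w := by
      have : w - v = 0 := by rw [hdiff, hy]; simp
      exact (sub_eq_zero.mp this).symm
    have hEE : E' = E := by rw [hE', hE, hvw]
    have hb : br μ E = 0 := comm_of_FEnd h hμ E hEm (by rw [hmE, hEE]; exact hEm)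
    have hE0 : E = 0 := by
      by_contra hne
      have hp := pos0 h hμ E sE hb hne
      rw [hmE, hEE] at hp
      have ht := e09_trE N N' L α w hαc r1 r2 r3
      rw [← hE] at ht
      rw [ht, Complex.zero_re] at hp
      exact lt_irrefl _ hp
    have hN' : N' = (-w) • L + (-((α : ℂ) * w ^ 2)) • N := by
      have : N' = E + ((-w) • L + (-((α : ℂ) * w ^ 2)) • N) := by
        rw [hE]; match_scalars <;> ring
      rw [this, hE0, zero_add]
    have hLN : L = (-w * (2 * (α : ℂ))) • N := by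
      have e1 : br N N' = (-w) • br N L + (-((α : ℂ) * w ^ 2)) • br N N := by
        conv_lhs => rw [hN']
        rw [e09_ar, e09_sr, e09_sr]
      rw [r1, r2, e09_self, smul_zero, add_zero, smul_smul] at e1
      exact e1
    have e2 : br N L = 0 := by rw [hLN, e09_sr, e09_self, smul_zero]
    rw [r2] at e2
    exact hN0 ((smul_eq_zero.mp e2).resolve_left (mul_ne_zero two_ne_zero hαc))
  have hyc : ((w.im : ℝ) : ℂ) ≠ 0 := by exact_mod_cast hy
  have hbK : br μ K = 0 := comm_of_FEnd h hμ K hKm (by rw [hmK]; exact hKm)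
  have hbE : br μ E = E := by
    refine triple_pos h hμ K E (α * w.im) (mul_ne_zero hα hy) hbK sE hEm (by rw [hmE]; exact hE'm)
      ?_ ?_
    · rw [hK, hE, e09_alg1 N N' L α w v r1 r2 r3, hdiff]
      congr 1
      push_cast
      ring
    · rw [hmE, hK, hE, hE', e09_alg2 N N' L α w v r1 r2 r3, hdiff]
      congr 1
      push_cast
      ring
  have hbE' : br μ E' = -E' := by
    have e1 := congrArg mconj hbE
    rw [e09_mbr, gr_conj h hμ, hmE] at e1
    have e2 : br ((wt : ℂ) • (1 : Matrix (Fin n) (Fin n) ℂ) - μ) E' = -br μ E' := by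
      unfold br
      rw [Matrix.sub_mul, Matrix.mul_sub, Matrix.smul_mul, Matrix.mul_smul, Matrix.one_mul,
        Matrix.mul_one]
      abel
    rw [e2] at e1
    rw [← e1, neg_neg, e1]
  obtain ⟨c, hc⟩ : ∃ c : ℂ, c = Complex.I / ((2 * α * w.im : ℝ) : ℂ) := ⟨_, rfl⟩
  have hcd : c * ((α : ℂ) * (w - v)) = -1 := by
    rw [hc, hdiff]
    push_cast
    field_simp
    rw [Complex.I_sq]
  have hh : hmat N N' L α w = c • K := by
    unfold hmat
    rw [hKmat, hc]
  rw [hh]
  have hhE : br (c • K) E = E := by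
    rw [e09_sl, hK, hE, e09_alg1 N N' L α w v r1 r2 r3, smul_smul, mul_neg, hcd, neg_neg, one_smul]
  have hhE' : br (c • K) E' = -E' := by
    rw [e09_sl, hK, hE', e09_alg1' N N' L α w v r1 r2 r3, smul_smul, hcd, neg_one_smul]
  have hhK : br (c • K) K = 0 := by rw [e09_sl, e09_self, smul_zero]
  obtain ⟨ν, hν⟩ : ∃ ν, ν = μ - c • K := ⟨_, rfl⟩
  rw [← hν]
  have hνX : ∀ X, br ν X = br μ X - br (c • K) X := by
    intro X
    rw [hν]
    unfold br
    rw [Matrix.sub_mul, Matrix.mul_sub]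
    abel
  have n1 : br ν E = 0 := by rw [hνX, hbE, hhE, sub_self]
  have n2 : br ν E' = 0 := by rw [hνX, hbE', hhE', sub_self]
  have n3 : br ν K = 0 := by rw [hνX, hbK, hhK, sub_self]
  have hwv : w - v ≠ 0 := by
    rw [hdiff]
    exact mul_ne_zero (mul_ne_zero two_ne_zero Complex.I_ne_zero) hyc
  have n4 : br ν N = 0 := by
    have e1 : ((α : ℂ) * (w - v) ^ 2) • N = E + E' + (-2 : ℂ) • K := by
      rw [hE, hE', hK]
      match_scalars <;> ring
    have e2 : ((α : ℂ) * (w - v) ^ 2) • br ν N = 0 := by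
      rw [← e09_sr, e1, e09_ar, e09_ar, e09_sr, n1, n2, n3, smul_zero, add_zero, add_zero]
    exact (smul_eq_zero.mp e2).resolve_left (mul_ne_zero hαc (pow_ne_zero _ hwv))
  have n5 : br ν L = 0 := by
    have e1 : ((w - v) / 2) • L = E + ((-1 : ℂ) • K + (-((α : ℂ) * w * (w - v))) • N) := by
      rw [hE, hK]
      match_scalars <;> ring
    have e2 : ((w - v) / 2) • br ν L = 0 := by
      rw [← e09_sr, e1, e09_ar, e09_ar, e09_sr, e09_sr, n1, n3, n4, smul_zero, smul_zero, add_zero,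
        add_zero]
    exact (smul_eq_zero.mp e2).resolve_left (div_ne_zero hwv two_ne_zero)
  have n6 : br ν N' = 0 := by
    have e1 : N' = E + ((-w) • L + (-((α : ℂ) * w ^ 2)) • N) := by
      rw [hE]
      match_scalars <;> ring
    rw [e1, e09_ar, e09_ar, e09_sr, e09_sr, n1, n4, n5, smul_zero, smul_zero, add_zero, add_zero]
  refine ⟨hy, n4, n6, ?_, Submodule.smul_mem _ _ hKm, ?_⟩
  · rw [e09_sr, hbK, smul_zero]
  · have e1 : L + (2 * (α : ℂ) * w) • N - (2 * (α : ℂ)) • (c • K) =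
        (2 / (w - v)) • E := by
      have hc2 : c = -(1 / ((α : ℂ) * (w - v))) := by
        have hne : (α : ℂ) * (w - v) ≠ 0 := mul_ne_zero hαc hwv
        field_simp
        linear_combination hcd
      rw [hc2, hE, hK]
      match_scalars
      all_goals field_simp
      all_goals ring
    rw [e1]
    exact Submodule.smul_mem _ _ (FEnd1_of h hμ E hbE)

end MP2794d1
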