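import Pool.Agent.Lib.MP_2794d1_ag.S04
import Pool.Agent.Lib.MP_2794d1_ag.S01
import Pool.Agent.Lib.MP_2794d1_ag.G00
import Pool.Agent.Lib.MP_2794d1_ag.E01
import Pool.Agent.Lib.MP_2794d1_ag.E04
import Pool.Agent.Lib.MP_2794d1_ag.E05
import Pool.Agent.Lib.MP_2794d1_ag.E09
import Pool.Agent.Lib.MP_2794d1_ag.F03

namespace MP2794d1

open Matrix Complex Filter Topology

private theorem S08_pow {n : ℕ} (N L : Matrix (Fin n) (Fin n) ℂ) (b : ℂ)
    (h : N * L - L * N = b • N) (j : ℕ) : L * N ^ j = N ^ j * L - (b * (j : ℂ)) • N ^ j := by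
  induction j with
  | zero => simp
  | succ j ih =>
    have h' : L * N = N * L - b • N := by rw [← h]; abel
    calc L * N ^ (j + 1) = (L * N ^ j) * N := by rw [pow_succ, mul_assoc]
      _ = N ^ j * (L * N) - (b * (j : ℂ)) • (N ^ j * N) := by
        rw [ih, sub_mul, smul_mul_assoc, mul_assoc]
      _ = N ^ (j + 1) * L - (b * ((j + 1 : ℕ) : ℂ)) • N ^ (j + 1) := by
        rw [h', mul_sub, mul_smul_comm, ← pow_succ, ← mul_assoc, ← pow_succ, sub_sub, ← add_smul]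
        congr 2
        push_cast
        ring

private theorem S08_conj {n : ℕ} (N L : Matrix (Fin n) (Fin n) ℂ) (hN : N ^ n = 0) (b : ℂ)
    (h : N * L - L * N = b • N) (s : ℂ) :
    (L + (b * s) • N) * uexp N s = uexp N s * L := by
  have h1 : L * uexp N s = uexp N s * L -
      ∑ j ∈ Finset.range n, (s ^ j / (j.factorial : ℂ) * (b * (j : ℂ))) • N ^ j := by
    unfold uexp
    rw [Finset.mul_sum, Finset.sum_mul, ← Finset.sum_sub_distrib]
    refine Finset.sum_congr rfl fun j _ => ?_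
    rw [mul_smul_comm, S08_pow N L b h j, smul_sub, smul_smul, smul_mul_assoc]
  have h2 : ∑ j ∈ Finset.range n, (s ^ j / (j.factorial : ℂ) * (b * (j : ℂ))) • N ^ j =
      (b * s) • (N * uexp N s) := by
    have e1 : ∑ j ∈ Finset.range n, (s ^ j / (j.factorial : ℂ) * (b * (j : ℂ))) • N ^ j =
        ∑ j ∈ Finset.range (n + 1), (s ^ j / (j.factorial : ℂ) * (b * (j : ℂ))) • N ^ j := by
      rw [Finset.sum_range_succ, hN, smul_zero, add_zero]
    rw [e1, Finset.sum_range_succ']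
    simp only [Nat.cast_zero, mul_zero, zero_smul, add_zero]
    unfold uexp
    rw [Finset.mul_sum, Finset.smul_sum]
    refine Finset.sum_congr rfl fun j _ => ?_
    rw [mul_smul_comm, smul_smul, ← pow_succ']
    congr 1
    rw [Nat.factorial_succ]
    have hf : (j.factorial : ℂ) ≠ 0 := by exact_mod_cast j.factorial_ne_zero
    have hj : ((j : ℂ) + 1) ≠ 0 := by exact_mod_cast Nat.succ_ne_zero j
    push_cast
    field_simp
    ring
  rw [add_mul, h1, h2, smul_mul_assoc]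
  abel

private theorem S08_mconj_sub {n : ℕ} (X Y : Matrix (Fin n) (Fin n) ℂ) :
    mconj (X - Y) = mconj X - mconj Y := by
  ext i j; simp [mconj]

private theorem S08_mconj_add {n : ℕ} (X Y : Matrix (Fin n) (Fin n) ℂ) :
    mconj (X + Y) = mconj X + mconj Y := by
  ext i j; simp [mconj]

private theorem S08_mconj_smul {n : ℕ} (c : ℂ) (X : Matrix (Fin n) (Fin n) ℂ) :
    mconj (c • X) = (starRingEnd ℂ c) • mconj X := by
  ext i j; simp [mconj]

private theorem S08_mconj_mul {n : ℕ} (X Y : Matrix (Fin n) (Fin n) ℂ) :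
    mconj (X * Y) = mconj X * mconj Y := by
  ext i j; simp [mconj, Matrix.mul_apply]

private theorem S08_mconj_br {n : ℕ} (X Y : Matrix (Fin n) (Fin n) ℂ) :
    mconj (br X Y) = br (mconj X) (mconj Y) := by
  unfold br
  rw [S08_mconj_sub, S08_mconj_mul, S08_mconj_mul]

private theorem S08_mconj_hmat {n : ℕ} (N N' L : Matrix (Fin n) (Fin n) ℂ) (hN : mconj N = N)
    (hN' : mconj N' = N') (hL : mconj L = L) (α : ℝ) (w : ℂ) :
    mconj (hmat N N' L α w) = - hmat N N' L α w := by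
  unfold hmat Kmat
  rw [S08_mconj_smul, S08_mconj_add, S08_mconj_add, S08_mconj_smul, S08_mconj_smul, hN, hN', hL,
    Complex.conj_ofReal, Complex.conj_ofReal, map_div₀, Complex.conj_I, Complex.conj_ofReal,
    ← neg_smul, neg_div]

theorem exists_t {n : ℕ} (V : PolVHS n) (c : Cusp V) (hN : c.N ≠ 0) (g : V.grp) {a : ℝ}
    {u : ℂ → ℂ} {F0 : ℤ → Submodule ℂ (Fin n → ℂ)} (h : StageOne V c a u F0) (q : ℚ) (hq : q ≠ 0)
    (r : ℂ)
    (rel1 : br (cm c.N) (br (cm c.N) (cm (c.conj g))) = ((2 * (q : ℝ) : ℝ) : ℂ) • cm c.N)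
    (rel2 : br (cm (c.conj g)) (br (cm c.N) (cm (c.conj g))) =
      ((-(2 * (q : ℝ)) : ℝ) : ℂ) • cm (c.conj g))
    (w : ℂ → ℂ) (hwan : ∀ z : ℂ, 0 < z.im → AnalyticAt ℂ w z)
    (hwu : ∀ y : ℂ, |y.re| < 1 → a < y.im → w y = u y - r)
    (hw : ∀ z : ℂ, 0 < z.im →
        cm (c.conj g) - (((q : ℝ) : ℂ) * (w z) ^ 2) • cm c.N ∈ FEnd (fun p => V.F p z) 0 ∧
        br (cm c.N) (cm (c.conj g)) + (2 * ((q : ℝ) : ℂ) * (w z)) • cm c.N ∈
          FEnd (fun p => V.F p z) 0) :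
    ∃ t : Matrix (Fin n) (Fin n) ℂ, br t (cm c.N) = 0 ∧ br t (cm (c.conj g)) = 0 ∧
      ∀ z : ℂ, 0 < z.im → (w z).im ≠ 0 ∧
        IsGr V.wt (fun p => V.F p z)
          (hmat (cm c.N) (cm (c.conj g)) (br (cm c.N) (cm (c.conj g))) q (w z) + t) := by
  have hNn : (cm c.N) ^ n = 0 := cm_pow c.N c.nil
  have hα : (q : ℝ) ≠ 0 := by exact_mod_cast hq
  have hαC : ((q : ℝ) : ℂ) ≠ 0 := by exact_mod_cast hα
  set N := cm c.N with hNdef
  set N' := cm (c.conj g) with hN'def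
  set L := br N N' with hLdef
  set hh : ℂ → Matrix (Fin n) (Fin n) ℂ := fun z => hmat N N' L (q : ℝ) (w z) with hhdef
  have rN : mconj N = N := mconj_cm c.N
  have rN' : mconj N' = N' := mconj_cm (c.conj g)
  have rL : mconj L = L := by rw [hLdef, S08_mconj_br, rN, rN']
  have hN0 : N ≠ 0 := cm_N_ne c hN
  -- pointwise
  have pw : ∀ z : ℂ, 0 < z.im → ∀ μ, IsGr V.wt (fun p => V.F p z) μ →
      (w z).im ≠ 0 ∧ br (μ - hh z) N = 0 ∧ br (μ - hh z) N' = 0 ∧
      br μ (hh z) = 0 ∧ hh z ∈ FEnd (fun p => V.F p z) 0 ∧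
      L + (2 * ((q : ℝ) : ℂ) * w z) • N - (2 * ((q : ℝ) : ℂ)) • hh z ∈
        FEnd (fun p => V.F p z) 1 := by
    intro z hz μ hμ
    exact pointwise (V.phs z hz) hμ N N' rN rN' (skew_N V c) (skew_conj V c g) (q : ℝ) hα
      rel1 rel2 hN0 (N_trans V c h z hz) (w z) (hw z hz).2 (hw z hz).1
  -- the base point
  have hy1 : ∃ y : ℂ, |y.re| < 1 ∧ a < y.im := by
    refine ⟨((a + 1 : ℝ) : ℂ) * Complex.I, ?_, ?_⟩
    · simp
    · simp
  obtain ⟨y1, hy1re, hy1im⟩ := hy1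
  have hy1pos : 0 < y1.im := lt_of_le_of_lt h.ha hy1im
  obtain ⟨μ1, hμ1⟩ := exists_gr (V.phs y1 hy1pos)
  obtain ⟨-, c1, c2, c3, c4, c5⟩ := pw y1 hy1pos μ1 hμ1
  set t := μ1 - hh y1 with htdef
  have htN : t * N = N * t := by
    have := c1; unfold br at this; exact sub_eq_zero.mp this
  have htN' : t * N' = N' * t := by
    have := c2; unfold br at this; exact sub_eq_zero.mp this
  have hμself : ∀ (z : ℂ) (hz : 0 < z.im) (μ), IsGr V.wt (fun p => V.F p z) μ →
      μ ∈ FEnd (fun p => V.F p z) 0 := by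
    intro z hz μ hμ
    refine FEnd0_of_comm (V.phs z hz) hμ μ ?_
    unfold br; exact sub_self _
  have ht1 : t ∈ FEnd (fun p => V.F p y1) 0 :=
    Submodule.sub_mem _ (hμself y1 hy1pos μ1 hμ1) c4
  have htc : mconj t = (V.wt : ℂ) • (1 : Matrix (Fin n) (Fin n) ℂ) - t := by
    rw [htdef, S08_mconj_sub, gr_conj (V.phs y1 hy1pos) hμ1,
      S08_mconj_hmat N N' L rN rN' rL]
    abel
  -- strip
  have hUo : IsOpen {y : ℂ | |y.re| < 1 ∧ a < y.im} := by
    apply IsOpen.inter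
    · exact isOpen_lt (continuous_abs.comp Complex.continuous_re) continuous_const
    · exact isOpen_lt continuous_const Complex.continuous_im
  have hUne : ({y : ℂ | |y.re| < 1 ∧ a < y.im} : Set ℂ).Nonempty := ⟨y1, hy1re, hy1im⟩
  have hUpos : ∀ z ∈ {y : ℂ | |y.re| < 1 ∧ a < y.im}, 0 < z.im := fun z hz =>
    lt_of_le_of_lt h.ha hz.2
  have huconj : ∀ s : ℂ, uexp N (-s) * t * uexp N s = t := by
    intro s
    rw [mul_assoc, uexp_comm N t htN s, ← mul_assoc, uexp_neg_mul N hNn, one_mul]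
  have htstrip : ∀ y : ℂ, |y.re| < 1 → a < y.im → t ∈ FEnd (fun p => V.F p y) 0 := by
    have key : ∀ y : ℂ, |y.re| < 1 → a < y.im →
        (t ∈ FEnd (fun p => V.F p y) 0 ↔ t ∈ FEnd F0 0) := by
      intro y hy1 hy2
      rw [FEnd_map_iff N hNn (u y) F0 (fun p => V.F p y) (fun p => h.eq y hy1 hy2 p) t 0,
        huconj]
    intro y hy hy'
    exact (key y hy hy').mpr ((key y1 hy1re hy1im).mp ht1)
  have ht0 : ∀ z : ℂ, 0 < z.im → t ∈ FEnd (fun p => V.F p z) 0 := by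
    intro z hz p x hx
    exact cont_map V (fun _ => t) (fun i j z _ => analyticAt_const) p (p + 0)
      {y : ℂ | |y.re| < 1 ∧ a < y.im} hUo hUne hUpos
      (fun y hy x hx => htstrip y hy.1 hy.2 p x hx) z hz x hx
  -- claim (2)
  have hbr : N * L - L * N = (2 * ((q : ℝ) : ℂ)) • N := by
    have := rel1
    unfold br at this
    rw [this]
    congr 1
    push_cast
    ring
  set X : ℤ → ℂ → Matrix (Fin n) (Fin n) ℂ := fun p z =>
    L + (2 * ((q : ℝ) : ℂ) * w z) • N + (2 * ((q : ℝ) : ℂ)) • t -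
      (2 * ((q : ℝ) : ℂ) * (p : ℂ)) • (1 : Matrix (Fin n) (Fin n) ℂ) with hXdef
  have hX1 : ∀ p, ∀ x ∈ V.F p y1, X p y1 *ᵥ x ∈ V.F (p + 1) y1 := by
    intro p x hx
    have e : X p y1 *ᵥ x =
        (L + (2 * ((q : ℝ) : ℂ) * w y1) • N - (2 * ((q : ℝ) : ℂ)) • hh y1) *ᵥ x +
        (2 * ((q : ℝ) : ℂ)) • (μ1 *ᵥ x - (p : ℂ) • x) := by
      have e2 : X p y1 = (L + (2 * ((q : ℝ) : ℂ) * w y1) • N - (2 * ((q : ℝ) : ℂ)) • hh y1) +
          (2 * ((q : ℝ) : ℂ)) • (μ1 - (p : ℂ) • (1 : Matrix (Fin n) (Fin n) ℂ)) := by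
        simp only [hXdef, htdef, smul_sub, smul_smul]
        abel
      rw [e2, Matrix.add_mulVec, Matrix.smul_mulVec, Matrix.sub_mulVec (A := μ1),
        Matrix.smul_mulVec, Matrix.one_mulVec]
    rw [e]
    exact Submodule.add_mem _ (c5 p x hx)
      (Submodule.smul_mem _ _ (gr_shift (V.phs y1 hy1pos) hμ1 p x hx))
  have hXs : ∀ y : ℂ, |y.re| < 1 → a < y.im → ∀ p, ∀ x ∈ V.F p y,
      X p y *ᵥ x ∈ V.F (p + 1) y := by
    intro y hy hy' p x hx
    set s := u y - u y1 with hs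
    have hws : w y = w y1 + s := by
      rw [hwu y hy hy', hwu y1 hy1re hy1im, hs]; ring
    have hu : uexp N (u y) = uexp N s * uexp N (u y1) := by
      rw [← uexp_add N hNn]; congr 1; rw [hs]; ring
    have hx' : x ∈ (F0 p).map (uexp N (u y)).mulVecLin := by
      have := hx; rwa [h.eq y hy hy' p] at this
    obtain ⟨x0, hx0, rfl⟩ := Submodule.mem_map.mp hx'
    have hx1 : uexp N (u y1) *ᵥ x0 ∈ V.F p y1 := by
      rw [h.eq y1 hy1re hy1im p]
      exact Submodule.mem_map.mpr ⟨x0, hx0, by rw [Matrix.mulVecLin_apply]⟩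
    have hcomm : X p y * uexp N s = uexp N s * X p y1 := by
      have k1 := S08_conj N L hNn (2 * ((q : ℝ) : ℂ)) hbr s
      have k2 : N * uexp N s = uexp N s * N := uexp_comm N N rfl s
      have k3 : t * uexp N s = uexp N s * t := uexp_comm N t htN s
      have e1 : X p y = (L + (2 * ((q : ℝ) : ℂ) * s) • N) + ((2 * ((q : ℝ) : ℂ) * w y1) • N +
          (2 * ((q : ℝ) : ℂ)) • t -
          (2 * ((q : ℝ) : ℂ) * (p : ℂ)) • (1 : Matrix (Fin n) (Fin n) ℂ)) := by
        simp only [hXdef]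
        rw [hws, mul_add, add_smul]
        abel
      have e2 : X p y1 = L + ((2 * ((q : ℝ) : ℂ) * w y1) • N +
          (2 * ((q : ℝ) : ℂ)) • t -
          (2 * ((q : ℝ) : ℂ) * (p : ℂ)) • (1 : Matrix (Fin n) (Fin n) ℂ)) := by
        simp only [hXdef]
        abel
      rw [e1, e2, add_mul, mul_add, k1]
      congr 1
      rw [sub_mul, add_mul, mul_sub, mul_add, smul_mul_assoc, smul_mul_assoc, smul_mul_assoc,
        mul_smul_comm, mul_smul_comm, mul_smul_comm, k2, k3, one_mul, mul_one]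
    have hfin : X p y *ᵥ ((uexp N (u y)).mulVecLin x0) =
        uexp N s *ᵥ (X p y1 *ᵥ (uexp N (u y1) *ᵥ x0)) := by
      rw [Matrix.mulVecLin_apply, hu, Matrix.mulVec_mulVec, Matrix.mulVec_mulVec,
        Matrix.mulVec_mulVec, ← mul_assoc, hcomm, mul_assoc]
    rw [hfin]
    have hm := hX1 p _ hx1
    rw [h.eq y1 hy1re hy1im (p + 1)] at hm
    obtain ⟨x2, hx2, hx2e⟩ := Submodule.mem_map.mp hm
    rw [← hx2e, h.eq y hy hy' (p + 1)]
    refine Submodule.mem_map.mpr ⟨x2, hx2, ?_⟩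
    rw [Matrix.mulVecLin_apply, Matrix.mulVecLin_apply, Matrix.mulVec_mulVec, ← hu]
  have hXall : ∀ z : ℂ, 0 < z.im → ∀ p, ∀ x ∈ V.F p z, X p z *ᵥ x ∈ V.F (p + 1) z := by
    intro z hz p x hx
    refine cont_map V (X p) ?_ p (p + 1)
      {y : ℂ | |y.re| < 1 ∧ a < y.im} hUo hUne hUpos
      (fun y hy x hx => hXs y hy.1 hy.2 p x hx) z hz x hx
    intro i j z hz
    simp only [hXdef, Matrix.sub_apply, Matrix.add_apply, Matrix.smul_apply, smul_eq_mul]
    have hwz := hwan z hz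
    exact (((analyticAt_const.add ((analyticAt_const.mul hwz).mul analyticAt_const)).add
      analyticAt_const).sub analyticAt_const)
  -- conclusion
  refine ⟨t, ?_, ?_, ?_⟩
  · unfold br; rw [htN]; exact sub_self _
  · unfold br; rw [htN']; exact sub_self _
  intro z hz
  obtain ⟨μ, hμ⟩ := exists_gr (V.phs z hz)
  obtain ⟨d0, d1, d2, d3, d4, d5⟩ := pw z hz μ hμ
  refine ⟨d0, ?_⟩
  have hone : (1 : Matrix (Fin n) (Fin n) ℂ) ∈ FEnd (fun p => V.F p z) 0 := by
    intro p x hx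
    rw [Matrix.one_mulVec]
    simpa using hx
  have hμt : br μ t = 0 := by
    refine comm_of_FEnd (V.phs z hz) hμ t (ht0 z hz) ?_
    rw [htc]
    exact Submodule.sub_mem _ (Submodule.smul_mem _ _ hone) (ht0 z hz)
  have hD : hh z + t - μ = 0 := by
    refine zero_of_FEnd (V.phs z hz) hμ _ ?_ ?_
    · have e1 : μ * hh z = hh z * μ := by
        have := d3; unfold br at this; exact sub_eq_zero.mp this
      have e2 : μ * t = t * μ := by
        have := hμt; unfold br at this; exact sub_eq_zero.mp this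
      unfold br
      rw [mul_sub, mul_add, sub_mul, add_mul, e1, e2]
      exact sub_self _
    · intro p x hx
      have k1 := hXall z hz p x hx
      have k2 := d5 p x hx
      have k3 := gr_shift (V.phs z hz) hμ p x hx
      have hne : (2 * ((q : ℝ) : ℂ)) ≠ 0 := mul_ne_zero two_ne_zero hαC
      have e : (hh z + t - μ) *ᵥ x = (2 * ((q : ℝ) : ℂ))⁻¹ • (X p z *ᵥ x -
          (L + (2 * ((q : ℝ) : ℂ) * w z) • N - (2 * ((q : ℝ) : ℂ)) • hh z) *ᵥ x) -
          (μ *ᵥ x - (p : ℂ) • x) := by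
        have e2 : hh z + t - μ = (2 * ((q : ℝ) : ℂ))⁻¹ • (X p z -
          (L + (2 * ((q : ℝ) : ℂ) * w z) • N - (2 * ((q : ℝ) : ℂ)) • hh z)) -
          (μ - (p : ℂ) • (1 : Matrix (Fin n) (Fin n) ℂ)) := by
          have e3 : X p z -
            (L + (2 * ((q : ℝ) : ℂ) * w z) • N - (2 * ((q : ℝ) : ℂ)) • hh z) =
            (2 * ((q : ℝ) : ℂ)) • (hh z + t - (p : ℂ) • (1 : Matrix (Fin n) (Fin n) ℂ)) := by
            simp only [hXdef, smul_sub, smul_add, smul_smul]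
            abel
          rw [e3, smul_smul, inv_mul_cancel₀ hne, one_smul]
          abel
        rw [e2, Matrix.sub_mulVec, Matrix.smul_mulVec, Matrix.sub_mulVec (A := X p z),
          Matrix.sub_mulVec (A := μ), Matrix.smul_mulVec (b := (p : ℂ)), Matrix.one_mulVec]
      rw [e]
      exact Submodule.sub_mem _ (Submodule.smul_mem _ _ (Submodule.sub_mem _ k1 k2)) k3
  have hfinal : hh z + t = μ := sub_eq_zero.mp hD
  have : hmat N N' L (q : ℝ) (w z) + t = μ := hfinal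
  rw [this]
  exact hμ

end MP2794d1
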