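import Pool.Agent.Lib.MP_2794d1_ag.S03
import Pool.Agent.Lib.MP_2794d1_ag.S01

/-!
S09: w (z + 1) = w z + 1. F_{z+1}^p = ρ(T) F_z^p = uexp N 1 F_z^p (V.equiv, T_eq, exp_eq). By FEnd_map_iff (s = 1):
uexp N (-1) (L + 2q w(z+1) N) uexp N 1 = L - 2qN + 2q w(z+1) N ∈ FEnd_z 0 (from br N L = 2qN: L uexp N 1 =
uexp N 1 L - 2q N uexp N 1). Subtract L + 2q w z N ∈ FEnd_z 0: 2q (w(z+1) - 1 - w z) N ∈ FEnd_z 0, N ∉ FEnd_z 0.
-/

namespace MP2794d1

open Matrix Complex Filter Topology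

theorem S09_pow {n : ℕ} {N L : Matrix (Fin n) (Fin n) ℂ} {c : ℂ} (h : N * L - L * N = c • N)
    (j : ℕ) : L * N ^ j = N ^ j * L - ((j : ℂ) * c) • N ^ j := by
  induction j with
  | zero => simp
  | succ j ih =>
    have h1 : L * N = N * L - c • N := by rw [← h]; abel
    have e : L * N ^ (j + 1) = (L * N ^ j) * N := by rw [pow_succ, Matrix.mul_assoc]
    rw [e, ih, Matrix.sub_mul, Matrix.mul_assoc, h1, Matrix.mul_sub, ← Matrix.mul_assoc,
      ← pow_succ, Matrix.mul_smul, ← pow_succ, Matrix.smul_mul, ← pow_succ, sub_sub, ← add_smul]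
    congr 2
    push_cast
    ring

theorem S09_sum {n : ℕ} (N : Matrix (Fin n) (Fin n) ℂ) (hN : N ^ n = 0) :
    ∑ j ∈ Finset.range n, ((j : ℂ) / (j.factorial : ℂ)) • N ^ j = N * uexp N 1 := by
  have h1 : ∑ j ∈ Finset.range (n + 1), ((j : ℂ) / (j.factorial : ℂ)) • N ^ j =
      ∑ j ∈ Finset.range n, ((j : ℂ) / (j.factorial : ℂ)) • N ^ j := by
    rw [Finset.sum_range_succ, hN, smul_zero, add_zero]
  rw [← h1, Finset.sum_range_succ', Nat.cast_zero, zero_div, zero_smul, add_zero]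
  unfold uexp
  rw [Finset.mul_sum]
  apply Finset.sum_congr rfl
  intro j _
  rw [Matrix.mul_smul, ← pow_succ', one_pow, Nat.factorial_succ]
  congr 1
  push_cast
  have h2 : ((j : ℂ) + 1) ≠ 0 := by exact_mod_cast Nat.succ_ne_zero j
  have h3 : (j.factorial : ℂ) ≠ 0 := by exact_mod_cast Nat.factorial_ne_zero j
  field_simp

theorem S09_conj {n : ℕ} {N L : Matrix (Fin n) (Fin n) ℂ} (hN : N ^ n = 0) {c : ℂ}
    (h : N * L - L * N = c • N) : uexp N (-1) * L * uexp N 1 = L - c • N := by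
  have h1 : L * uexp N 1 = uexp N 1 * L - c • (N * uexp N 1) := by
    rw [← S09_sum N hN]
    unfold uexp
    rw [Finset.mul_sum, Finset.sum_mul, Finset.smul_sum, ← Finset.sum_sub_distrib]
    apply Finset.sum_congr rfl
    intro j _
    rw [Matrix.mul_smul, S09_pow h j, smul_sub, Matrix.smul_mul, smul_smul, smul_smul]
    congr 2
    rw [one_pow]
    ring
  rw [Matrix.mul_assoc, h1, Matrix.mul_sub, ← Matrix.mul_assoc, uexp_neg_mul N hN, Matrix.one_mul,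
    Matrix.mul_smul, uexp_comm N N rfl, ← Matrix.mul_assoc, uexp_neg_mul N hN, Matrix.one_mul]

theorem w_shift {n : ℕ} (V : PolVHS n) (c : Cusp V) (hN : c.N ≠ 0) (L : Matrix (Fin n) (Fin n) ℂ)
    (q : ℚ) (hq : q ≠ 0)
    (rel1 : br (cm c.N) L = ((2 * (q : ℝ) : ℝ) : ℂ) • cm c.N)
    (w : ℂ → ℂ) (hw : ∀ z : ℂ, 0 < z.im →
        L + (2 * ((q : ℝ) : ℂ) * (w z)) • cm c.N ∈ FEnd (fun p => V.F p z) 0)
    (z : ℂ) (hz : 0 < z.im) : w (z + 1) = w z + 1 := by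
  have hnil : (cm c.N) ^ n = 0 := cm_pow c.N c.nil
  have hz1 : 0 < (z + 1).im := by simpa using hz
  have hF : ∀ p, V.F p (z + 1) = (V.F p z).map (uexp (cm c.N) 1).mulVecLin := by
    intro p
    have h1 := V.equiv c.T p z hz
    rw [c.T_eq, c.exp_eq] at h1
    exact h1
  have h1 := (FEnd_map_iff (cm c.N) hnil 1 (fun p => V.F p z) (fun p => V.F p (z + 1)) hF
    (L + (2 * ((q : ℝ) : ℂ) * (w (z + 1))) • cm c.N) 0).1 (hw (z + 1) hz1)
  have hNN : uexp (cm c.N) (-1) * cm c.N * uexp (cm c.N) 1 = cm c.N := by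
    rw [Matrix.mul_assoc, uexp_comm (cm c.N) (cm c.N) rfl, ← Matrix.mul_assoc,
      uexp_neg_mul _ hnil, Matrix.one_mul]
  have e1 : uexp (cm c.N) (-1) * (L + (2 * ((q : ℝ) : ℂ) * (w (z + 1))) • cm c.N) *
      uexp (cm c.N) 1 = (L - ((2 * (q : ℝ) : ℝ) : ℂ) • cm c.N) +
        (2 * ((q : ℝ) : ℂ) * (w (z + 1))) • cm c.N := by
    rw [Matrix.mul_add, Matrix.add_mul, S09_conj hnil rel1, Matrix.mul_smul, Matrix.smul_mul, hNN]
  rw [e1] at h1
  have h2 := (FEnd (fun p => V.F p z) 0).sub_mem h1 (hw z hz)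
  have e2 : (L - ((2 * (q : ℝ) : ℝ) : ℂ) • cm c.N) +
        (2 * ((q : ℝ) : ℂ) * (w (z + 1))) • cm c.N - (L + (2 * ((q : ℝ) : ℂ) * (w z)) • cm c.N) =
      (2 * ((q : ℝ) : ℂ) * (w (z + 1) - (w z + 1))) • cm c.N := by
    have e3 : (2 * ((q : ℝ) : ℂ) * (w (z + 1) - (w z + 1))) =
      (2 * ((q : ℝ) : ℂ) * (w (z + 1))) - ((2 * (q : ℝ) : ℝ) : ℂ) -
        (2 * ((q : ℝ) : ℂ) * (w z)) := by
      push_cast
      ring
    rw [e3, sub_smul, sub_smul]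
    abel
  rw [e2] at h2
  by_contra hne
  have hq' : ((q : ℝ) : ℂ) ≠ 0 := by exact_mod_cast hq
  have h3 : (2 * ((q : ℝ) : ℂ) * (w (z + 1) - (w z + 1))) ≠ 0 :=
    mul_ne_zero (mul_ne_zero two_ne_zero hq') (sub_ne_zero.2 hne)
  have h4 := (FEnd (fun p => V.F p z) 0).smul_mem
    (2 * ((q : ℝ) : ℂ) * (w (z + 1) - (w z + 1)))⁻¹ h2
  rw [smul_smul, inv_mul_cancel₀ h3, one_smul] at h4
  exact N_not_mem V c hN z hz h4

end MP2794d1
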