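import Pool.Agent.Lib.MP_2794d1_ag.S06
import Pool.Agent.Lib.MP_2794d1_ag.S07
import Pool.Agent.Lib.MP_2794d1_ag.S08
import Pool.Agent.Lib.MP_2794d1_ag.S09
import Pool.Agent.Lib.MP_2794d1_ag.S10

/-!
S11: assembly.
-/

namespace MP2794d1

open Matrix Complex Filter Topology

theorem main {n : ℕ} (V : PolVHS n) (c : Cusp V) (g : V.grp)
    (hg : c.N * c.conj g ≠ c.conj g * c.N) :
    ∃ δ : ℝ, 0 < δ ∧ ∀ (z : ℕ → ℂ) (H : ℕ → ℝ), (∀ k, |(z k).re| ≤ 1) → (∀ k, 0 < (z k).im) →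
      Monotone (fun k => (z k).im) → Tendsto (fun k => (z k).im) atTop atTop →
      (∀ k, 1 ≤ H k) → (∀ k, IsCM V (z k) (H k)) →
      (∀ k, H k * H (k + 1) ≤ Real.exp (δ * (z k).im)) → IsShimuraLine V c.N := by
  have hN : c.N ≠ 0 := by
    intro h0
    apply hg
    rw [h0]
    simp
  obtain ⟨δ, hδ, hst⟩ := stageOne_of V c hN
  refine ⟨δ, hδ, fun z H hre him hmono htop hH hcm hHH => ?_⟩
  obtain ⟨a, u, F0, h1⟩ := hst z H hre him hmono htop hH hcm hHH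
  obtain ⟨q, r, hq, rel1, rel2, hstrip⟩ := sl2_data V c g hg h1
  obtain ⟨w, hwan, hwu, hw⟩ := exists_w V c hN g h1 q hq r hstrip
  have e1 : br (cm c.N) (br (cm c.N) (cm (c.conj g))) = ((2 * (q : ℝ) : ℝ) : ℂ) • cm c.N := by
    have h2 := congrArg cm rel1
    rw [cm_br, cm_br] at h2
    rw [h2]
    ext i j
    simp [cm]
  have e2 : br (cm (c.conj g)) (br (cm c.N) (cm (c.conj g))) =
      ((-(2 * (q : ℝ)) : ℝ) : ℂ) • cm (c.conj g) := by
    have h2 := congrArg cm rel2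
    rw [cm_br, cm_br] at h2
    rw [h2]
    ext i j
    simp [cm]
  obtain ⟨t, ht, ht', hμ⟩ := exists_t V c hN g h1 q hq r e1 e2 w hwan hwu hw
  have hshift : ∀ y : ℂ, 0 < y.im → w (y + 1) = w y + 1 := fun y hy =>
    w_shift V c hN (br (cm c.N) (cm (c.conj g))) q hq e1 w (fun y' hy' => (hw y' hy').2) y hy
  exact shimura_line V c hN g h1 q hq rel1 rel2 w hshift hw t ht ht' hμ (z 0) (him 0) (H 0) (hcm 0)

end MP2794d1
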