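import Pool.Agent.Lib.MP_2794d1_ag.F07
import Pool.Agent.Lib.MP_2794d1_ag.S01
import Pool.Agent.Lib.MP_2794d1_ag.S02
import Pool.Agent.Lib.MP_2794d1_ag.S03

/-!
T02: The coefficients b_g have absolute value one. (1) b (g * h) = b g * b h: conjugating N_h - b_h N ∈ FEnd_z 0 (all z) by
ρ(g) gives N_{gh} - b_h N_g ∈ FEnd_{gz} 0, all z, i.e. at all points (mob g⁻¹); add b_h (N_g - b_g N); N ∉ FEnd. In particular
b 1 = 1. (2) lower bound: there is δ > 0 with δ ≤ ‖b g‖ for all g. Let m > 0 be an integer with m N integral; all N_g = ρ N ρ⁻¹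
have m N_g integral and are nonzero, so they have an entry of absolute value ≥ 1/m. If g_k is a sequence with b_{g_k} → 0, let
X_k = N_{g_k} / (max entry): real, skew, X_k^n = 0, max entry 1, X_k - c_k N ∈ FEnd_{z₀} 0 with c_k → 0 (z₀ = I). A subsequence
converges (compactness) to X ≠ 0 real, skew, X^n = 0, X ∈ FEnd_{z₀} 0 (a finite dimensional subspace is closed):
contradiction to nil_not_mem. (3) ‖b g‖^k = ‖b (g^k)‖ ≥ δ for all k, so ‖b g‖ ≥ 1, also for g⁻¹.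
-/

namespace MP2794d1

open Matrix Complex Filter Topology
open scoped ContDiff

theorem t02_transport {n : ℕ} (V : PolVHS n) (g : V.grp) (z : ℂ) (hz : 0 < z.im)
    (X : Matrix (Fin n) (Fin n) ℂ) (hX : X ∈ FEnd (fun p => V.F p z) 0) :
    im (V.rho g : Matrix (Fin n) (Fin n) ℤ) * X * im (V.rho g⁻¹ : Matrix (Fin n) (Fin n) ℤ) ∈
      FEnd (fun p => V.F p (mob g z)) 0 := by
  intro p x hx
  simp only [V.equiv g _ z hz] at hx ⊢
  obtain ⟨y, hy, rfl⟩ := hx
  refine ⟨X *ᵥ y, hX p y hy, ?_⟩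
  simp only [Matrix.mulVecLin_apply]
  simp only [Matrix.mulVec_mulVec, Matrix.mul_assoc]
  rw [(rho_mul_inv V g).2, Matrix.mul_one]

theorem t02_conj_mul {n : ℕ} (V : PolVHS n) (c : Cusp V) (g h : V.grp) :
    cm (c.conj (g * h)) = im (V.rho g : Matrix (Fin n) (Fin n) ℤ) * cm (c.conj h) *
      im (V.rho g⁻¹ : Matrix (Fin n) (Fin n) ℤ) := by
  rw [cm_conj, cm_conj, _root_.mul_inv_rev, map_mul, map_mul, Units.val_mul, Units.val_mul, S01_im_mul,
    S01_im_mul]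
  simp only [Matrix.mul_assoc]

theorem t02_unique {n : ℕ} (V : PolVHS n) (c : Cusp V) (hN : c.N ≠ 0) (z : ℂ) (hz : 0 < z.im)
    (X : Matrix (Fin n) (Fin n) ℂ) (a b : ℂ) (ha : X - a • cm c.N ∈ FEnd (fun p => V.F p z) 0)
    (hb : X - b • cm c.N ∈ FEnd (fun p => V.F p z) 0) : a = b := by
  by_contra hne
  have h1 := (FEnd (fun p => V.F p z) 0).sub_mem hb ha
  have h2 : X - b • cm c.N - (X - a • cm c.N) = (a - b) • cm c.N := by
    rw [sub_smul]
    abel
  rw [h2] at h1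
  have h3 := (FEnd (fun p => V.F p z) 0).smul_mem (a - b)⁻¹ h1
  rw [smul_smul, inv_mul_cancel₀ (sub_ne_zero.2 hne), one_smul] at h3
  exact N_not_mem V c hN z hz h3

theorem t02_mul {n : ℕ} (V : PolVHS n) (c : Cusp V) (hN : c.N ≠ 0) (b : V.grp → ℂ)
    (hb : ∀ (g : V.grp) (z : ℂ), 0 < z.im →
      cm (c.conj g) - b g • cm c.N ∈ FEnd (fun p => V.F p z) 0) (g h : V.grp) :
    b (g * h) = b g * b h := by
  have hz : (0 : ℝ) < (mob g Complex.I).im := mob_im_pos _ _ (by simp)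
  have h1 := t02_transport V g Complex.I (by simp) _ (hb h Complex.I (by simp))
  have h2 := (FEnd (fun p => V.F p (mob g Complex.I)) 0).smul_mem (b h) (hb g _ hz)
  have h3 := (FEnd (fun p => V.F p (mob g Complex.I)) 0).add_mem h1 h2
  refine t02_unique V c hN _ hz (cm (c.conj (g * h))) _ _ (hb (g * h) _ hz) ?_
  convert h3 using 1
  rw [t02_conj_mul, Matrix.mul_sub, Matrix.sub_mul, Matrix.mul_smul, Matrix.smul_mul,
    ← cm_conj V c g, smul_sub, smul_smul, mul_comm (b h) (b g)]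
  abel

/-- common denominator -/
theorem t02_denom {n : ℕ} (N : Matrix (Fin n) (Fin n) ℚ) :
    ∃ (m : ℤ) (M : Matrix (Fin n) (Fin n) ℤ), m ≠ 0 ∧ (m : ℂ) • cm N = im M := by
  obtain ⟨m, hm⟩ := IsLocalization.exist_integer_multiples_of_finite (nonZeroDivisors ℤ)
    (fun ij : Fin n × Fin n => N ij.1 ij.2)
  choose M hM using hm
  refine ⟨m, fun i j => M (i, j), nonZeroDivisors.coe_ne_zero m, ?_⟩
  ext i j
  have h1 := hM (i, j)
  have h2 : ((M (i, j) : ℤ) : ℚ) = ((m : ℤ) : ℚ) * N i j := by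
    have := h1
    simpa using this
  have h3 : (((M (i, j) : ℤ) : ℚ) : ℂ) = ((((m : ℤ) : ℚ) * N i j : ℚ) : ℂ) := by rw [h2]
  push_cast at h3
  have h4 : (im (fun i j => M (i, j)) : Matrix (Fin n) (Fin n) ℂ) i j = ((M (i, j) : ℤ) : ℂ) := rfl
  rw [h4, h3]
  simp [cm]

theorem t02_entry {n : ℕ} (V : PolVHS n) (c : Cusp V) (hN : c.N ≠ 0) :
    ∃ e : ℝ, 0 < e ∧ ∀ g : V.grp, ∃ i j, e ≤ ‖cm (c.conj g) i j‖ := by
  obtain ⟨m, M, hm, hM⟩ := t02_denom c.N
  have hmc : (m : ℂ) ≠ 0 := by exact_mod_cast hm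
  refine ⟨‖(m : ℂ)‖⁻¹, by positivity, fun g => ?_⟩
  set A : Matrix (Fin n) (Fin n) ℤ := (V.rho g : Matrix (Fin n) (Fin n) ℤ) * M *
    (V.rho g⁻¹ : Matrix (Fin n) (Fin n) ℤ) with hA
  have h1 : (m : ℂ) • cm (c.conj g) = im A := by
    rw [cm_conj, hA, S01_im_mul, S01_im_mul, ← hM, Matrix.mul_smul, Matrix.smul_mul]
  have hne : A ≠ 0 := by
    intro h0
    have h2 : im A = 0 := by
      rw [h0]
      ext i j
      simp [im]
    rw [h2, smul_eq_zero] at h1
    rcases h1 with h | h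
    · exact hmc h
    · rw [cm_conj] at h
      apply cm_N_ne c hN
      have h3 : im (V.rho g⁻¹ : Matrix (Fin n) (Fin n) ℤ) *
          (im (V.rho g : Matrix (Fin n) (Fin n) ℤ) * cm c.N *
          im (V.rho g⁻¹ : Matrix (Fin n) (Fin n) ℤ)) * im (V.rho g : Matrix (Fin n) (Fin n) ℤ) =
          cm c.N := by
        have h4 := (rho_mul_inv V g).2
        calc _ = (im (V.rho g⁻¹ : Matrix (Fin n) (Fin n) ℤ) *
              im (V.rho g : Matrix (Fin n) (Fin n) ℤ)) * cm c.N *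
              (im (V.rho g⁻¹ : Matrix (Fin n) (Fin n) ℤ) *
              im (V.rho g : Matrix (Fin n) (Fin n) ℤ)) := by simp only [Matrix.mul_assoc]
          _ = cm c.N := by rw [h4, Matrix.one_mul, Matrix.mul_one]
      rw [← h3, h, Matrix.mul_zero, Matrix.zero_mul]
  obtain ⟨i, j, hij⟩ : ∃ i j, A i j ≠ 0 := by
    by_contra hcon
    push Not at hcon
    exact hne (by ext i j; exact hcon i j)
  refine ⟨i, j, ?_⟩
  have h5 : (m : ℂ) * cm (c.conj g) i j = ((A i j : ℤ) : ℂ) := by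
    have := congrFun (congrFun h1 i) j
    simpa [im] using this
  have h6 : (1 : ℝ) ≤ ‖((A i j : ℤ) : ℂ)‖ := by
    rw [Complex.norm_intCast]
    exact_mod_cast Int.one_le_abs hij
  rw [← h5, norm_mul] at h6
  rw [inv_le_iff_one_le_mul₀ (by positivity), mul_comm]
  exact h6

/-- the space `F^0 End` at `I` in the normed space of entries -/
noncomputable def t02_W {n : ℕ} (Fl : ℤ → Submodule ℂ (Fin n → ℂ)) :
    Submodule ℂ (Fin n → Fin n → ℂ) :=
  (FEnd Fl 0).comap (Matrix.ofLinearEquiv ℂ : (Fin n → Fin n → ℂ) ≃ₗ[ℂ]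
    Matrix (Fin n) (Fin n) ℂ).toLinearMap

theorem t02_mem {n : ℕ} (Fl : ℤ → Submodule ℂ (Fin n → ℂ)) (x : Fin n → Fin n → ℂ) :
    x ∈ t02_W Fl ↔ Matrix.of x ∈ FEnd Fl 0 := Iff.rfl

/-- real skew matrices with `X ^ n = 0` and largest entry one -/
def t02_K {n : ℕ} (Q : Matrix (Fin n) (Fin n) ℤ) : Set (Fin n → Fin n → ℂ) :=
  Metric.sphere 0 1 ∩ {x | mconj (Matrix.of x) = Matrix.of x ∧ Skew Q (Matrix.of x) ∧
    (Matrix.of x) ^ n = 0}

theorem t02_compact {n : ℕ} (Q : Matrix (Fin n) (Fin n) ℤ) : IsCompact (t02_K Q) := by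
  have hof : Continuous fun x : Fin n → Fin n → ℂ => Matrix.of x := continuous_id
  refine (isCompact_sphere _ _).inter_right ?_
  refine IsClosed.and ?_ (IsClosed.and ?_ ?_)
  · refine isClosed_eq ?_ hof
    refine continuous_matrix fun i j => ?_
    exact Complex.continuous_conj.comp ((continuous_apply j).comp (continuous_apply i))
  · refine isClosed_eq ?_ continuous_const
    exact (hof.matrix_transpose.matrix_mul continuous_const).add
      (continuous_const.matrix_mul hof)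
  · exact isClosed_eq (hof.pow n) continuous_const

theorem t02_lower {n : ℕ} (V : PolVHS n) (c : Cusp V) (hN : c.N ≠ 0) (b : V.grp → ℂ)
    (hb : ∀ (g : V.grp) (z : ℂ), 0 < z.im →
      cm (c.conj g) - b g • cm c.N ∈ FEnd (fun p => V.F p z) 0) :
    ∃ δ : ℝ, 0 < δ ∧ ∀ g, δ ≤ ‖b g‖ := by
  obtain ⟨e, he, hent⟩ := t02_entry V c hN
  set W := t02_W (fun p => V.F p Complex.I) with hW
  have hWc : IsClosed (W : Set (Fin n → Fin n → ℂ)) := W.closed_of_finiteDimensional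
  set A : V.grp → (Fin n → Fin n → ℂ) := fun g => Matrix.of.symm (cm (c.conj g)) with hA
  have hAn : ∀ g, e ≤ ‖A g‖ := by
    intro g
    obtain ⟨i, j, hij⟩ := hent g
    exact hij.trans ((norm_le_pi_norm (A g i) j).trans (norm_le_pi_norm (A g) i))
  have hA0 : ∀ g, 0 < ‖A g‖ := fun g => he.trans_le (hAn g)
  have hK : ∀ g, ((‖A g‖⁻¹ : ℝ) : ℂ) • A g ∈ t02_K V.Q := by
    intro g
    have hof : Matrix.of (((‖A g‖⁻¹ : ℝ) : ℂ) • A g) = ((‖A g‖⁻¹ : ℝ) : ℂ) • cm (c.conj g) := rfl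
    refine ⟨?_, ?_, ?_, ?_⟩
    · rw [mem_sphere_zero_iff_norm, norm_smul, Complex.norm_real, norm_inv, norm_norm,
        inv_mul_cancel₀ (hA0 g).ne']
    · rw [hof]
      have h1 := mconj_cm (c.conj g)
      ext i j
      have h2 := congrFun (congrFun h1 i) j
      simp only [mconj, Matrix.map_apply, Matrix.smul_apply, smul_eq_mul, map_mul,
        Complex.conj_ofReal] at h2 ⊢
      rw [h2]
    · rw [hof]
      have h1 := skew_conj V c g
      unfold Skew at h1 ⊢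
      rw [Matrix.transpose_smul, Matrix.smul_mul, Matrix.mul_smul, ← smul_add, h1, smul_zero]
    · rw [hof, smul_pow, nil_conj, smul_zero]
  have hne : (t02_K V.Q).Nonempty := ⟨_, hK 1⟩
  obtain ⟨x0, hx0, hmin⟩ := (t02_compact V.Q).exists_isMinOn hne
    (Metric.continuous_infDist_pt (W : Set (Fin n → Fin n → ℂ))).continuousOn
  have hWne : (W : Set (Fin n → Fin n → ℂ)).Nonempty := ⟨0, W.zero_mem⟩
  have hx0W : x0 ∉ (W : Set (Fin n → Fin n → ℂ)) := by
    intro hmem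
    obtain ⟨h1, h2, h3, h4⟩ := hx0
    refine nil_not_mem (V.phs Complex.I (by simp)) (Matrix.of x0) h2 h3 ⟨n, h4⟩ ?_ hmem
    intro h5
    have h6 : x0 = 0 := h5
    rw [mem_sphere_zero_iff_norm, h6, norm_zero] at h1
    exact zero_ne_one h1
  set ε := Metric.infDist x0 (W : Set (Fin n → Fin n → ℂ)) with hε
  have hε0 : 0 < ε := (hWc.notMem_iff_infDist_pos hWne).1 hx0W
  set B : Fin n → Fin n → ℂ := Matrix.of.symm (cm c.N) with hB
  have hB0 : 0 < ‖B‖ := by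
    rw [norm_pos_iff]
    intro h
    exact cm_N_ne c hN h
  refine ⟨ε * e / ‖B‖, by positivity, fun g => ?_⟩
  have h1 : ε ≤ Metric.infDist (((‖A g‖⁻¹ : ℝ) : ℂ) • A g) (W : Set (Fin n → Fin n → ℂ)) :=
    hmin (hK g)
  have h2 : ((‖A g‖⁻¹ : ℝ) : ℂ) • (A g - b g • B) ∈ W :=
    W.smul_mem _ (hb g Complex.I (by simp))
  have h3 := h1.trans (Metric.infDist_le_dist_of_mem h2)
  rw [dist_eq_norm, ← smul_sub, sub_sub_cancel, norm_smul, norm_smul, Complex.norm_real, norm_inv,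
    norm_norm] at h3
  rw [div_le_iff₀ hB0]
  have h4 : ε * ‖A g‖ ≤ ‖b g‖ * ‖B‖ := by
    rw [inv_mul_eq_div, le_div_iff₀ (hA0 g)] at h3
    exact h3
  exact (mul_le_mul_of_nonneg_left (hAn g) hε0.le).trans h4

theorem t02_pow {n : ℕ} (V : PolVHS n) (c : Cusp V) (hN : c.N ≠ 0) (b : V.grp → ℂ)
    (hb : ∀ (g : V.grp) (z : ℂ), 0 < z.im →
      cm (c.conj g) - b g • cm c.N ∈ FEnd (fun p => V.F p z) 0) (g : V.grp) (k : ℕ) :
    b (g ^ (k + 1)) = b g ^ (k + 1) := by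
  induction k with
  | zero => simp
  | succ k ih => rw [pow_succ g (k + 1), t02_mul V c hN b hb, ih, pow_succ (b g) (k + 1)]

theorem t02_one_le {n : ℕ} (V : PolVHS n) (c : Cusp V) (hN : c.N ≠ 0) (b : V.grp → ℂ)
    (hb : ∀ (g : V.grp) (z : ℂ), 0 < z.im →
      cm (c.conj g) - b g • cm c.N ∈ FEnd (fun p => V.F p z) 0) (g : V.grp) : 1 ≤ ‖b g‖ := by
  obtain ⟨δ, hδ, hlow⟩ := t02_lower V c hN b hb
  by_contra hlt
  push Not at hlt
  have h1 := tendsto_pow_atTop_nhds_zero_of_lt_one (norm_nonneg (b g)) hlt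
  have h2 : ∀ᶠ k in atTop, ‖b g‖ ^ k < δ := h1.eventually (gt_mem_nhds hδ)
  obtain ⟨k, hk⟩ := (h2.and (eventually_ge_atTop 1)).exists
  obtain ⟨k', rfl⟩ : ∃ k', k = k' + 1 := ⟨k - 1, by omega⟩
  have h3 := hlow (g ^ (k' + 1))
  rw [t02_pow V c hN b hb, norm_pow] at h3
  exact absurd h3 (not_le.2 hk.1)

theorem char_unitary {n : ℕ} (V : PolVHS n) (c : Cusp V) (hN : c.N ≠ 0) (b : V.grp → ℂ)
    (hb : ∀ (g : V.grp) (z : ℂ), 0 < z.im →
      cm (c.conj g) - b g • cm c.N ∈ FEnd (fun p => V.F p z) 0) (g : V.grp) : ‖b g‖ = 1 := by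
  have h1 : b 1 = 1 := by
    have h2 := t02_mul V c hN b hb 1 1
    rw [mul_one] at h2
    have h3 := t02_one_le V c hN b hb 1
    have h4 : b 1 ≠ 0 := by
      intro h
      rw [h, norm_zero] at h3
      linarith
    exact (mul_left_cancel₀ h4 (by rw [mul_one]; exact h2)).symm
  have h5 := t02_mul V c hN b hb g g⁻¹
  rw [mul_inv_cancel, h1] at h5
  have h6 : ‖b g‖ * ‖b g⁻¹‖ = 1 := by rw [← norm_mul, ← h5, norm_one]
  have h7 := t02_one_le V c hN b hb g
  have h8 := t02_one_le V c hN b hb g⁻¹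
  nlinarith

end MP2794d1
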