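import Pool.Agent.Lib.MP_2794d1_ag.S03
import Pool.Agent.Lib.MP_2794d1_ag.F04
import Pool.Agent.Lib.MP_2794d1_ag.F05
import Pool.Agent.Lib.MP_2794d1_ag.F06
import Pool.Agent.Lib.MP_2794d1_ag.F08

/-!
S05: velocity and the conjugate of N. vel_everywhere: vel_orbit on the strip, cont_vel. conj_line: U1 = {y in the strip,
deriv u y ≠ 0} is open and nonempty; V1 = {y | 0 < y.im ∧ mob g⁻¹ y ∈ U1} is open (mob g⁻¹ is continuous on the half plane)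
and contains mob g y1. For y ∈ V1 put z = mob g⁻¹ y, y = mob g z (mob_mob, mob_one): Vel at z with c = deriv u z ≠ 0
(vel_orbit), Vel at y by vel_everywhere, so vel_equiv and cm_conj give b. Then cont_line.
-/

namespace MP2794d1

open Matrix Complex Filter Topology

theorem S05_open (a : ℝ) : IsOpen {y : ℂ | |y.re| < 1 ∧ a < y.im} := by
  apply IsOpen.inter
  · exact isOpen_lt (Complex.continuous_re.abs) continuous_const
  · exact isOpen_lt continuous_const Complex.continuous_im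

theorem S05_vel_strip {n : ℕ} (V : PolVHS n) (c : Cusp V) {a : ℝ} {u : ℂ → ℂ}
    {F0 : ℤ → Submodule ℂ (Fin n → ℂ)} (h : StageOne V c a u F0) (y : ℂ) (hy1 : |y.re| < 1)
    (hy2 : a < y.im) : Vel V (cm c.N) y (deriv u y) := by
  apply vel_orbit V (cm c.N) (cm_pow c.N c.nil) F0 u y (h.an y hy1 hy2)
  filter_upwards [(S05_open a).mem_nhds (show y ∈ {y : ℂ | |y.re| < 1 ∧ a < y.im} from
    ⟨hy1, hy2⟩)] with x hx
  exact h.eq x hx.1 hx.2

theorem vel_everywhere {n : ℕ} (V : PolVHS n) (c : Cusp V) (hN : c.N ≠ 0) {a : ℝ} {u : ℂ → ℂ}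
    {F0 : ℤ → Submodule ℂ (Fin n → ℂ)} (h : StageOne V c a u F0) (z : ℂ) (hz : 0 < z.im) :
    ∃ b : ℂ, Vel V (cm c.N) z b := by
  obtain ⟨y1, hy1, hy2, -⟩ := h.ne
  exact cont_vel V (cm c.N) (fun x hx => N_not_mem V c hN x hx) {y : ℂ | |y.re| < 1 ∧ a < y.im}
    (S05_open a) ⟨y1, hy1, hy2⟩ (fun y hy => lt_of_le_of_lt h.ha hy.2)
    (fun y hy => ⟨_, S05_vel_strip V c h y hy.1 hy.2⟩) z hz

theorem conj_line {n : ℕ} (V : PolVHS n) (c : Cusp V) (hN : c.N ≠ 0) (g : V.grp) {a : ℝ}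
    {u : ℂ → ℂ} {F0 : ℤ → Submodule ℂ (Fin n → ℂ)} (h : StageOne V c a u F0) (z : ℂ)
    (hz : 0 < z.im) : ∃ b : ℂ, cm (c.conj g) - b • cm c.N ∈ FEnd (fun p => V.F p z) 0 := by
  obtain ⟨y1, hy1, hy2, hy3⟩ := h.ne
  have hev0 : ∀ᶠ y in 𝓝 y1, (|y.re| < 1 ∧ a < y.im) :=
    (S05_open a).mem_nhds (show y1 ∈ {y : ℂ | |y.re| < 1 ∧ a < y.im} from ⟨hy1, hy2⟩)
  have hev : ∀ᶠ y in 𝓝 y1, (|y.re| < 1 ∧ a < y.im) ∧ deriv u y ≠ 0 :=
    hev0.and ((h.an y1 hy1 hy2).deriv.continuousAt.eventually_ne hy3)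
  obtain ⟨U1, hU1, hU1o, hU1m⟩ := eventually_nhds_iff.1 hev
  have hpos : ∀ y ∈ U1, 0 < y.im := fun y hy => lt_of_le_of_lt h.ha (hU1 y hy).1.2
  have hinv : ∀ y : ℂ, 0 < y.im → mob (g : Matrix.SpecialLinearGroup (Fin 2) ℝ)
      (mob ((g⁻¹ : V.grp) : Matrix.SpecialLinearGroup (Fin 2) ℝ) y) = y := by
    intro y hy
    rw [mob_mob _ _ _ hy]
    have e : (g : Matrix.SpecialLinearGroup (Fin 2) ℝ) *
        ((g⁻¹ : V.grp) : Matrix.SpecialLinearGroup (Fin 2) ℝ) = 1 := by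
      rw [← Subgroup.coe_mul, mul_inv_cancel, Subgroup.coe_one]
    rw [e, mob_one]
  have hinv' : ∀ y : ℂ, 0 < y.im →
      mob ((g⁻¹ : V.grp) : Matrix.SpecialLinearGroup (Fin 2) ℝ)
      (mob (g : Matrix.SpecialLinearGroup (Fin 2) ℝ) y) = y := by
    intro y hy
    rw [mob_mob _ _ _ hy]
    have e : ((g⁻¹ : V.grp) : Matrix.SpecialLinearGroup (Fin 2) ℝ) *
        (g : Matrix.SpecialLinearGroup (Fin 2) ℝ) = 1 := by
      rw [← Subgroup.coe_mul, inv_mul_cancel, Subgroup.coe_one]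
    rw [e, mob_one]
  have hHo : IsOpen {y : ℂ | 0 < y.im} := isOpen_lt continuous_const Complex.continuous_im
  have hcont : ContinuousOn (mob ((g⁻¹ : V.grp) : Matrix.SpecialLinearGroup (Fin 2) ℝ))
      {y : ℂ | 0 < y.im} := fun y hy =>
    (mob_analytic _ y hy).1.continuousAt.continuousWithinAt
  have hV1o := hcont.isOpen_inter_preimage hHo hU1o
  obtain ⟨b, -, hb⟩ := cont_line V (cm c.N) (cm (c.conj g)) (fun x hx => N_not_mem V c hN x hx)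
    ({y : ℂ | 0 < y.im} ∩ mob ((g⁻¹ : V.grp) : Matrix.SpecialLinearGroup (Fin 2) ℝ) ⁻¹' U1)
    hV1o ⟨mob (g : Matrix.SpecialLinearGroup (Fin 2) ℝ) y1, mob_im_pos _ _ (hpos y1 hU1m), by
      show mob _ (mob _ y1) ∈ U1
      rw [hinv' y1 (hpos y1 hU1m)]
      exact hU1m⟩ (fun y hy => hy.1) (by
      rintro y ⟨hy, hyU⟩
      set x := mob ((g⁻¹ : V.grp) : Matrix.SpecialLinearGroup (Fin 2) ℝ) y with hx
      have hxU : x ∈ U1 := hyU
      have hyx : mob (g : Matrix.SpecialLinearGroup (Fin 2) ℝ) x = y := hinv y hy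
      obtain ⟨c2, hc2⟩ := vel_everywhere V c hN h y hy
      rw [← hyx] at hc2
      obtain ⟨b, hb⟩ := vel_equiv V g (cm c.N) x (deriv u x) c2 (hpos x hxU)
        (S05_vel_strip V c h x (hU1 x hxU).1.1 (hU1 x hxU).1.2) (hU1 x hxU).2 hc2
      rw [hyx, ← cm_conj] at hb
      exact ⟨b, hb⟩)
  exact ⟨b z, hb z hz⟩

end MP2794d1
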