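import Pool.Agent.Lib.MP_2794d1_ag.J06
import Pool.Agent.Lib.MP_2794d1_ag.E03
import Pool.Agent.Lib.MP_2794d1_ag.S04
import Pool.Agent.Lib.MP_2794d1_ag.S05
import Pool.Agent.Lib.MP_2794d1_ag.K01

/-!
T03: Components of degree -1. deg_m1: in an adapted basis the entries x a b of S⁻¹XS vanish unless |d a - d b| ≤ 1 (mem_FEnd_iff,
conj_mem_FEnd_iff); the entry of B is (δ² - δ)/2 x a b with δ = d a - d b (E05_mu): x a b for δ = -1, and 0 for δ = 0, 1.
deg_zero: entries with δ = -1 and δ ≥ 0. BV: for z in the upper half plane, N ∈ FEnd_z (-1) (N_trans), N real. BV_theta: from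
vel_everywhere and vel_theta θ - b N ∈ FEnd_z 0, and θ - b B = (θ - b N) + b (N - B) ∈ FEnd_z 0 is of degree -1: deg_zero.
BV_ne: if B = 0 then N ∈ FEnd_z 0, N_not_mem.
-/

namespace MP2794d1

open Matrix Complex Filter Topology
open scoped ContDiff

theorem T03_lin {n : ℕ} (S X : Matrix (Fin n) (Fin n) ℂ) (c : ℂ) (a b : Fin n) :
    (S⁻¹ * (c • X) * S) a b = c * (S⁻¹ * X * S) a b := by
  rw [Matrix.mul_smul, Matrix.smul_mul, Matrix.smul_apply, smul_eq_mul]

theorem T03_sub {n : ℕ} (S X Y : Matrix (Fin n) (Fin n) ℂ) (a b : Fin n) :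
    (S⁻¹ * (X - Y) * S) a b = (S⁻¹ * X * S) a b - (S⁻¹ * Y * S) a b := by
  rw [Matrix.mul_sub, Matrix.sub_mul, Matrix.sub_apply]

theorem T03_neg {n : ℕ} (S X : Matrix (Fin n) (Fin n) ℂ) (a b : Fin n) :
    (S⁻¹ * (-X) * S) a b = -(S⁻¹ * X * S) a b := by
  rw [Matrix.mul_neg, Matrix.neg_mul, Matrix.neg_apply]

theorem deg_m1 {n : ℕ} {wt : ℤ} {Q : Matrix (Fin n) (Fin n) ℤ}
    {Fl : ℤ → Submodule ℂ (Fin n → ℂ)} (h : IsPHS wt Q Fl) {μ : Matrix (Fin n) (Fin n) ℂ}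
    (hμ : IsGr wt Fl μ) (X : Matrix (Fin n) (Fin n) ℂ) (h1 : X ∈ FEnd Fl (-1))
    (h2 : mconj X ∈ FEnd Fl (-1)) :
    br μ ((1 / 2 : ℂ) • (br μ (br μ X) - br μ X)) =
      -((1 / 2 : ℂ) • (br μ (br μ X) - br μ X)) ∧
    X - (1 / 2 : ℂ) • (br μ (br μ X) - br μ X) ∈ FEnd Fl 0 ∧
    (X ∈ FEnd Fl 0 → (1 / 2 : ℂ) • (br μ (br μ X) - br μ X) = 0) := by
  obtain ⟨S, d, hS⟩ := exists_adapted h
  have key : ∀ a b, (S⁻¹ * ((1 / 2 : ℂ) • (br μ (br μ X) - br μ X)) * S) a b =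
      (1 / 2 : ℂ) * (((d a : ℂ) - (d b : ℂ)) * (((d a : ℂ) - (d b : ℂ)) * (S⁻¹ * X * S) a b) -
        ((d a : ℂ) - (d b : ℂ)) * (S⁻¹ * X * S) a b) := by
    intro a b
    rw [T03_lin, T03_sub, E05_mu hS hμ, E05_mu hS hμ]
  have hcase : ∀ a b, (S⁻¹ * X * S) a b ≠ 0 → d a = d b - 1 ∨ d a = d b ∨ d a = d b + 1 := by
    intro a b hab
    have e1 := (mem_FEnd_iff hS X (-1)).mp h1 a b hab
    have e2 := (conj_mem_FEnd_iff hS X (-1)).mp h2 a b hab
    omega
  refine ⟨?_, ?_, ?_⟩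
  · apply E05_inj hS.inv
    intro a b
    rw [T03_neg, E05_mu hS hμ, key]
    by_cases h0 : (S⁻¹ * X * S) a b = 0
    · rw [h0]
      ring
    · rcases hcase a b h0 with e | e | e
      · rw [e]
        push_cast
        ring
      · rw [e]
        ring
      · rw [e]
        push_cast
        ring
  · rw [mem_FEnd_iff hS]
    intro a b hab
    rw [T03_sub, key] at hab
    by_cases h0 : (S⁻¹ * X * S) a b = 0
    · exfalso
      apply hab
      rw [h0]
      ring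
    · rcases hcase a b h0 with e | e | e
      · exfalso
        apply hab
        rw [e]
        push_cast
        ring
      · omega
      · omega
  · intro h3
    apply E05_inj hS.inv
    intro a b
    rw [key, Matrix.mul_zero, Matrix.zero_mul, Matrix.zero_apply]
    by_cases h0 : (S⁻¹ * X * S) a b = 0
    · rw [h0]
      ring
    · have e0 := (mem_FEnd_iff hS X 0).mp h3 a b h0
      rcases hcase a b h0 with e | e | e
      · omega
      · rw [e]
        ring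
      · rw [e]
        push_cast
        ring

theorem deg_zero {n : ℕ} {wt : ℤ} {Q : Matrix (Fin n) (Fin n) ℤ}
    {Fl : ℤ → Submodule ℂ (Fin n → ℂ)} (h : IsPHS wt Q Fl) {μ : Matrix (Fin n) (Fin n) ℂ}
    (hμ : IsGr wt Fl μ) (X : Matrix (Fin n) (Fin n) ℂ) (h1 : X ∈ FEnd Fl 0)
    (h2 : br μ X = -X) : X = 0 := by
  obtain ⟨S, d, hS⟩ := exists_adapted h
  apply E05_inj hS.inv
  intro a b
  rw [Matrix.mul_zero, Matrix.zero_mul, Matrix.zero_apply]
  by_contra hx
  have e1 := (mem_FEnd_iff hS X 0).mp h1 a b hx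
  have e2 := E05_mu hS hμ X a b
  rw [h2, T03_neg] at e2
  have e3 : (((d a : ℂ) - (d b : ℂ)) + 1) * (S⁻¹ * X * S) a b = 0 := by
    linear_combination -e2
  rcases mul_eq_zero.mp e3 with e4 | e4
  · have e5 : ((d a + 1 : ℤ) : ℂ) = ((d b : ℤ) : ℂ) := by
      push_cast
      linear_combination e4
    have e6 : d a + 1 = d b := by exact_mod_cast e5
    omega
  · exact hx e4

/-- the component of degree `-1` of `N` -/
noncomputable def BV {n : ℕ} (V : PolVHS n) (N : Matrix (Fin n) (Fin n) ℂ) (z : ℂ) :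
    Matrix (Fin n) (Fin n) ℂ :=
  (1 / 2 : ℂ) • (br (JV V z) (br (JV V z) N) - br (JV V z) N)

/-- `log` of the square norm of the degree `-1` part of `N` -/
noncomputable def vB {n : ℕ} (V : PolVHS n) (N : Matrix (Fin n) (Fin n) ℂ) (z : ℂ) : ℝ :=
  Real.log (Matrix.trace (BV V N z * mconj (BV V N z))).re

theorem BV_props {n : ℕ} (V : PolVHS n) (c : Cusp V) (hN : c.N ≠ 0) {a : ℝ}
    {u : ℂ → ℂ} {F0 : ℤ → Submodule ℂ (Fin n → ℂ)} (h : StageOne V c a u F0) {z : ℂ}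
    (hz : 0 < z.im) :
    br (JV V z) (BV V (cm c.N) z) = -BV V (cm c.N) z ∧ Skew V.Q (BV V (cm c.N) z) ∧
    cm c.N - BV V (cm c.N) z ∈ FEnd (fun p => V.F p z) 0 ∧ BV V (cm c.N) z ≠ 0 ∧
    SmA (BV V (cm c.N)) z ∧ (∃ b : ℂ, TV V z = b • BV V (cm c.N) z) := by
  have hμ := JV_gr V hz
  have hN1 : cm c.N ∈ FEnd (fun p => V.F p z) (-1) := N_trans V c h z hz
  have hN2 : mconj (cm c.N) ∈ FEnd (fun p => V.F p z) (-1) := by
    rw [mconj_cm]
    exact hN1
  obtain ⟨k1, k2, -⟩ := deg_m1 (V.phs z hz) hμ (cm c.N) hN1 hN2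
  have hsk : Skew V.Q (cm c.N) := skew_N V c
  have k1' : br (JV V z) (BV V (cm c.N) z) = -BV V (cm c.N) z := k1
  have k2' : cm c.N - BV V (cm c.N) z ∈ FEnd (fun p => V.F p z) 0 := k2
  have hskB : Skew V.Q (BV V (cm c.N) z) := by
    have s1 : Skew V.Q (br (JV V z) (cm c.N)) := Skew.gr (V.phs z hz) hμ hsk
    have s2 : Skew V.Q (br (JV V z) (br (JV V z) (cm c.N))) := Skew.gr (V.phs z hz) hμ s1
    have e : BV V (cm c.N) z = (1 / 2 : ℂ) • (br (JV V z) (br (JV V z) (cm c.N)) +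
        (-1 : ℂ) • br (JV V z) (cm c.N)) := by
      unfold BV
      rw [neg_one_smul, sub_eq_add_neg]
    rw [e]
    exact (s2.add (s1.smul _)).smul _
  refine ⟨k1', hskB, k2', ?_, ?_, ?_⟩
  · intro h0
    rw [h0, sub_zero] at k2'
    exact N_not_mem V c hN z hz k2'
  · have hJ := JV_smooth V hz
    have s1 := hJ.br (SmA.const (cm c.N))
    have s2 := hJ.br s1
    exact (s2.sub s1).smulc _
  · obtain ⟨b, hb⟩ := vel_everywhere V c hN h z hz
    refine ⟨b, ?_⟩
    have e1 := vel_theta V hz (cm c.N) b hb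
    have e2 : TV V z - b • BV V (cm c.N) z ∈ FEnd (fun p => V.F p z) 0 := by
      have e3 : TV V z - b • BV V (cm c.N) z = (TV V z - b • cm c.N) +
          b • (cm c.N - BV V (cm c.N) z) := by
        rw [smul_sub]
        abel
      rw [e3]
      exact Submodule.add_mem _ e1 (Submodule.smul_mem _ _ k2')
    have e4 : br (JV V z) (TV V z - b • BV V (cm c.N) z) = -(TV V z - b • BV V (cm c.N) z) := by
      have e5 : br (JV V z) (TV V z - b • BV V (cm c.N) z) = br (JV V z) (TV V z) -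
          b • br (JV V z) (BV V (cm c.N) z) := by
        unfold br
        rw [Matrix.mul_sub, Matrix.sub_mul, Matrix.mul_smul, Matrix.smul_mul, smul_sub]
        abel
      rw [e5, JV_br V hz, k1', smul_neg]
      abel
    exact sub_eq_zero.mp (deg_zero (V.phs z hz) hμ _ e2 e4)

end MP2794d1
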