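import Pool.Agent.Lib.MP_2794d1_ag.T02
import Pool.Agent.Lib.MP_2794d1_ag.T03
import Pool.Agent.Lib.MP_2794d1_ag.J07
import Pool.Agent.Lib.MP_2794d1_ag.E09

/-!
T07: ψ is invariant under Δ: with ρ = ρ(g), B_{gz} = BV at mob g z of N = ρ (degree -1 part at z of N' = ρ⁻¹ N ρ) ρ⁻¹ (JV_equiv),
N' = cm (c.conj g⁻¹), and N' - b N ∈ FEnd_z 0 with ‖b‖ = 1 (char_unitary for g⁻¹). By linearity the degree -1 part of N' is b B_z
plus the degree -1 part of N' - b N, which is 0 (deg_m1, third part, applied with N' - b N ∈ FEnd_z 0 whose conjugate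
N' - conj b N ∈ FEnd_z (-1)). So ψ(gz) = trace (ρ b B ρ⁻¹ mconj (ρ b B ρ⁻¹)) = |b|² ψ(z), ρ real.
-/

namespace MP2794d1

open Matrix Complex Filter Topology
open scoped ContDiff

theorem T07_conj {n : ℕ} {R R' : Matrix (Fin n) (Fin n) ℂ} (h1 : R * R' = 1) (_h2 : R' * R = 1)
    (J N : Matrix (Fin n) (Fin n) ℂ) : br (R * J * R') N = R * br J (R' * N * R) * R' := by
  unfold br
  have e1 : R * J * R' * N = R * (J * (R' * N * R)) * R' := by
    have : R * (J * (R' * N * R)) * R' = R * J * R' * N * (R * R') := by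
      simp only [Matrix.mul_assoc]
    rw [this, h1, Matrix.mul_one]
  have e2 : N * (R * J * R') = R * (R' * N * R * J) * R' := by
    have : R * (R' * N * R * J) * R' = (R * R') * (N * (R * J * R')) := by
      simp only [Matrix.mul_assoc]
    rw [this, h1, Matrix.one_mul]
  rw [e1, e2, Matrix.mul_sub, Matrix.sub_mul]

theorem T07_mono {n : ℕ} {wt : ℤ} {Q : Matrix (Fin n) (Fin n) ℤ}
    {Fl : ℤ → Submodule ℂ (Fin n → ℂ)} (h : IsPHS wt Q Fl) {X : Matrix (Fin n) (Fin n) ℂ}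
    (hX : X ∈ FEnd Fl 0) : X ∈ FEnd Fl (-1) := by
  intro p x hx
  exact h.anti (p + -1) (p + 0) (by omega) (hX p x hx)

theorem vB_inv {n : ℕ} (V : PolVHS n) (c : Cusp V) (hN : c.N ≠ 0) {a : ℝ}
    {u : ℂ → ℂ} {F0 : ℤ → Submodule ℂ (Fin n → ℂ)} (h : StageOne V c a u F0)
    (b : V.grp → ℂ) (hb : ∀ (g : V.grp) (z : ℂ), 0 < z.im →
      cm (c.conj g) - b g • cm c.N ∈ FEnd (fun p => V.F p z) 0) (g : V.grp) {z : ℂ}
    (hz : 0 < z.im) : vB V (cm c.N) (mob g z) = vB V (cm c.N) z := by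
  obtain ⟨r1, r2⟩ := rho_mul_inv V g
  have hu := char_unitary V c hN b hb g⁻¹
  set R : Matrix (Fin n) (Fin n) ℂ := im (V.rho g : Matrix (Fin n) (Fin n) ℤ) with hR
  set R' : Matrix (Fin n) (Fin n) ℂ := im (V.rho g⁻¹ : Matrix (Fin n) (Fin n) ℤ) with hR'
  have hJ : JV V (mob g z) = R * JV V z * R' := JV_equiv V g hz
  have hN' : cm (c.conj g⁻¹) = R' * cm c.N * R := by
    rw [cm_conj V c g⁻¹, inv_inv]
  have hX := hb g⁻¹ z hz
  have hph := V.phs z hz
  have hNm : cm c.N ∈ FEnd (fun p => V.F p z) (-1) := N_trans V c h z hz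
  set X : Matrix (Fin n) (Fin n) ℂ := cm (c.conj g⁻¹) - b g⁻¹ • cm c.N with hXd
  have hX1 : X ∈ FEnd (fun p => V.F p z) (-1) := T07_mono hph hX
  have hN'm : cm (c.conj g⁻¹) ∈ FEnd (fun p => V.F p z) (-1) := by
    have e : cm (c.conj g⁻¹) = X + b g⁻¹ • cm c.N := by
      rw [hXd]
      abel
    rw [e]
    exact Submodule.add_mem _ hX1 (Submodule.smul_mem _ _ hNm)
  have hX2 : mconj X ∈ FEnd (fun p => V.F p z) (-1) := by
    have e : mconj X = cm (c.conj g⁻¹) - (starRingEnd ℂ) (b g⁻¹) • cm c.N := by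
      have e1 : mconj X = mconj (cm (c.conj g⁻¹)) - (starRingEnd ℂ) (b g⁻¹) • mconj (cm c.N) := by
        ext i j
        simp [hXd, mconj]
      rw [e1, mconj_cm, mconj_cm]
    rw [e]
    exact Submodule.sub_mem _ hN'm (Submodule.smul_mem _ _ hNm)
  have h0 := (deg_m1 hph (JV_gr V hz) X hX1 hX2).2.2 hX
  have hB' : BV V (cm (c.conj g⁻¹)) z = b g⁻¹ • BV V (cm c.N) z := by
    have e : BV V (cm (c.conj g⁻¹)) z = (1 / 2 : ℂ) • (br (JV V z) (br (JV V z) X) -
        br (JV V z) X) + b g⁻¹ • BV V (cm c.N) z := by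
      have e1 : cm (c.conj g⁻¹) = X + b g⁻¹ • cm c.N := by
        rw [hXd]
        abel
      unfold BV
      rw [e1]
      simp only [br, Matrix.mul_add, Matrix.add_mul, Matrix.mul_sub, Matrix.sub_mul,
        Matrix.mul_smul, Matrix.smul_mul, smul_add, smul_sub]
      simp only [smul_comm (b g⁻¹) (1 / 2 : ℂ)]
      abel
    rw [e, h0, zero_add]
  have hB : BV V (cm c.N) (mob g z) = R * (b g⁻¹ • BV V (cm c.N) z) * R' := by
    rw [← hB', hN']
    unfold BV
    rw [hJ, T07_conj r1 r2, T07_conj r1 r2]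
    have e : R' * (R * br (JV V z) (R' * cm c.N * R) * R') * R =
        br (JV V z) (R' * cm c.N * R) := by
      have e1 : R' * (R * br (JV V z) (R' * cm c.N * R) * R') * R =
          (R' * R) * br (JV V z) (R' * cm c.N * R) * (R' * R) := by
        simp only [Matrix.mul_assoc]
      rw [e1, r2, Matrix.one_mul, Matrix.mul_one]
    rw [e, ← Matrix.sub_mul, ← Matrix.mul_sub, ← Matrix.smul_mul, ← Matrix.mul_smul]
  have hcR : mconj R = R := e07_im_conj _
  have hcR' : mconj R' = R' := e07_im_conj _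
  have htr : Matrix.trace (BV V (cm c.N) (mob g z) * mconj (BV V (cm c.N) (mob g z))) =
      (b g⁻¹ * (starRingEnd ℂ) (b g⁻¹)) *
        Matrix.trace (BV V (cm c.N) z * mconj (BV V (cm c.N) z)) := by
    have e1 : mconj (R * (b g⁻¹ • BV V (cm c.N) z) * R') =
        R * ((starRingEnd ℂ) (b g⁻¹) • mconj (BV V (cm c.N) z)) * R' := by
      rw [e06_mul, e06_mul, hcR, hcR', e09_smul]
    rw [hB, e1]
    have e2 : R * (b g⁻¹ • BV V (cm c.N) z) * R' *
        (R * ((starRingEnd ℂ) (b g⁻¹) • mconj (BV V (cm c.N) z)) * R') =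
        (b g⁻¹ * (starRingEnd ℂ) (b g⁻¹)) •
          (R * (BV V (cm c.N) z * mconj (BV V (cm c.N) z)) * R') := by
      have e3 : R * (b g⁻¹ • BV V (cm c.N) z) * R' *
          (R * ((starRingEnd ℂ) (b g⁻¹) • mconj (BV V (cm c.N) z)) * R') =
          R * (b g⁻¹ • BV V (cm c.N) z) * (R' * R) *
          ((starRingEnd ℂ) (b g⁻¹) • mconj (BV V (cm c.N) z)) * R' := by
        simp only [Matrix.mul_assoc]
      rw [e3, r2, Matrix.mul_one]
      simp only [Matrix.mul_smul, Matrix.smul_mul, smul_smul, Matrix.mul_assoc]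
      rw [mul_comm]
    rw [e2, Matrix.trace_smul, smul_eq_mul, Matrix.trace_mul_comm, ← Matrix.mul_assoc, r2,
      Matrix.one_mul]
  unfold vB
  rw [htr, Complex.mul_conj, Complex.normSq_eq_norm_sq, hu]
  norm_num

end MP2794d1
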