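import Pool.Agent.Lib.MP_2794d1_ag.T01
import Pool.Agent.Lib.MP_2794d1_ag.T02
import Pool.Agent.Lib.MP_2794d1_ag.T06
import Pool.Agent.Lib.MP_2794d1_ag.T07
import Pool.Agent.Lib.MP_2794d1_ag.T08
import Pool.Agent.Lib.MP_2794d1_ag.T12

/-!
T13: Non-commutation. Suppose c.N * c.conj g = c.conj g * c.N for all g. By conj_const choose b; vB is invariant (vB_inv), SubL
(vB_sub), of logarithmic growth (vB_growth), so constant (parabolic); then its Laplacian is 0 everywhere and TV V z = 0 for all z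
(vB_sub). At the point y of h.ne: Vel V N y (deriv u y) (vel_orbit, or S05_vel_strip), so TV - u'(y) N ∈ FEnd_y 0 (vel_theta),
i.e. u'(y) N ∈ FEnd_y 0 with u'(y) ≠ 0: contradiction to N_not_mem.
-/

namespace MP2794d1

open Matrix Complex Filter Topology
open scoped ContDiff

theorem T13_const {f : ℂ → ℝ} (hf : ∀ z w : ℂ, 0 < z.im → 0 < w.im → f z = f w) {z : ℂ}
    (hz : 0 < z.im) : px (px f) z + py (py f) z = 0 := by
  have hUo : IsOpen {y : ℂ | 0 < y.im} := isOpen_lt continuous_const Complex.continuous_im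
  have key : ∀ y : ℂ, 0 < y.im → fderiv ℝ f y = 0 := by
    intro y hy
    have h1 : f =ᶠ[𝓝 y] fun _ => f y := by
      filter_upwards [hUo.mem_nhds hy] with w hw
      exact hf w y hw hy
    rw [h1.fderiv_eq]
    simp
  have h1 : px f =ᶠ[𝓝 z] fun _ => 0 := by
    filter_upwards [hUo.mem_nhds hz] with w hw
    unfold px
    rw [key w hw]
    rfl
  have h2 : py f =ᶠ[𝓝 z] fun _ => 0 := by
    filter_upwards [hUo.mem_nhds hz] with w hw
    unfold py
    rw [key w hw]
    rfl
  have h3 : px (px f) z = 0 := by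
    show fderiv ℝ (px f) z 1 = 0
    rw [h1.fderiv_eq]
    simp
  have h4 : py (py f) z = 0 := by
    show fderiv ℝ (py f) z Complex.I = 0
    rw [h2.fderiv_eq]
    simp
  rw [h3, h4, add_zero]

theorem exists_noncomm {n : ℕ} (V : PolVHS n) (hΔ : FiniteType V.grp) (c : Cusp V)
    (hN : c.N ≠ 0) {a : ℝ} {u : ℂ → ℂ} {F0 : ℤ → Submodule ℂ (Fin n → ℂ)}
    (h : StageOne V c a u F0) : ∃ g : V.grp, c.N * c.conj g ≠ c.conj g * c.N := by
  by_contra hcon
  push Not at hcon
  choose b hb using fun g : V.grp => conj_const V c hN h g (hcon g)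
  have hconst := parabolic hΔ (vB_sub V c hN h).1
    (fun g hg z hz => vB_inv V c hN h b hb ⟨g, hg⟩ hz) (fun σ => vB_growth V c hN h σ)
  obtain ⟨y, hy1, hy2, hne⟩ := h.ne
  have hy0 : 0 < y.im := lt_of_le_of_lt h.ha hy2
  have hT : TV V y = 0 := (vB_sub V c hN h).2 y hy0 (T13_const hconst hy0)
  have h1 := vel_theta V hy0 (cm c.N) (deriv u y) (S05_vel_strip V c h y hy1 hy2)
  rw [hT, zero_sub] at h1
  have h2 := (FEnd (fun p => V.F p y) 0).smul_mem (-(deriv u y)⁻¹) h1
  rw [smul_neg, ← neg_smul, neg_neg, smul_smul, inv_mul_cancel₀ hne, one_smul] at h2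
  exact N_not_mem V c hN y hy0 h2

end MP2794d1
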