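import Pool.Agent.Lib.MP_2794d1_ag.R04
import Pool.Agent.Lib.MP_2794d1_ag.T13
import Pool.Agent.Lib.MP_2794d1_ag.U04
import Pool.Agent.Lib.MP_2794d1_ag.S03b
import Pool.Agent.Lib.MP_2794d1_ag.S11

/-!
X01: Assembly of the unconditional theorem.
-/

namespace MP2794d1

open Matrix Complex Filter Topology
open scoped ContDiff

/-- the second half of the proof of `main_chain`: a non-commuting conjugate and one CM point -/
theorem X01_line {n : ℕ} (V : PolVHS n) (c : Cusp V) (hN : c.N ≠ 0) {a : ℝ} {u : ℂ → ℂ}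
    {F0 : ℤ → Submodule ℂ (Fin n → ℂ)} (h1 : StageOne V c a u F0) (g : V.grp)
    (hg : c.N * c.conj g ≠ c.conj g * c.N) (z0 : ℂ) (him : 0 < z0.im) (H : ℝ)
    (hcm : IsCM V z0 H) : IsShimuraLine V c.N := by
  obtain ⟨q, r, hq, rel1, rel2, hstrip⟩ := sl2_data V c g hg h1
  obtain ⟨w, hwan, hwu, hw⟩ := exists_w V c hN g h1 q hq r hstrip
  have e1 : br (cm c.N) (br (cm c.N) (cm (c.conj g))) = ((2 * (q : ℝ) : ℝ) : ℂ) • cm c.N := by
    have h2 := congrArg cm rel1
    rw [cm_br, cm_br] at h2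
    rw [h2]
    ext i j
    simp [cm]
  have e2 : br (cm (c.conj g)) (br (cm c.N) (cm (c.conj g))) =
      ((-(2 * (q : ℝ)) : ℝ) : ℂ) • cm (c.conj g) := by
    have h2 := congrArg cm rel2
    rw [cm_br, cm_br] at h2
    rw [h2]
    ext i j
    simp [cm]
  obtain ⟨t, ht, ht', hμ⟩ := exists_t V c hN g h1 q hq r e1 e2 w hwan hwu hw
  have hshift : ∀ y : ℂ, 0 < y.im → w (y + 1) = w y + 1 := fun y hy =>
    w_shift V c hN (br (cm c.N) (cm (c.conj g))) q hq e1 w (fun y' hy' => (hw y' hy').2) y hy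
  exact shimura_line V c hN g h1 q hq rel1 rel2 w hshift hw t ht ht' hμ z0 him H hcm

theorem main_final {n : ℕ} (V : PolVHS n) (hΔ : FiniteType V.grp) (c : UCusp V) (hN : c.N ≠ 0) :
    ∃ δ : ℝ, 0 < δ ∧ ∃ (M : ℕ) (Y : ℝ),
      ∀ (z : Fin (M + 1) → ℂ) (H : Fin (M + 1) → ℝ), (∀ i j, i ≠ j → ∀ k : ℤ, z i ≠ z j + k) →
        (∀ k, Y < (z k).im ∧ 1 ≤ H k ∧ IsCMc V (z k) (H k)) →
        (∀ k : Fin M, H k.castSucc * H k.succ ≤
          Real.exp (δ * min (z k.castSucc).im (z k.succ).im)) →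
        IsShimuraLine V c.N := by
  obtain ⟨c', -, hc'⟩ := exists_cusp V c
  have hN' : c'.N ≠ 0 := by rw [hc']; exact hN
  obtain ⟨δ₀, hδ₀, M, Y₀, hst⟩ := stageOne_of_chain V c' hN'
  obtain ⟨C, K, Y₁, hC, hK, hY₁, hht⟩ := cm_height V c hN
  have hK0 : (0 : ℝ) < K := by exact_mod_cast hK
  have hC0 : 0 < C := lt_of_lt_of_le one_pos hC
  set Y₂ : ℝ := 2 * Real.log (C ^ 2) / δ₀ with hY₂
  refine ⟨δ₀ / (2 * K), by positivity, M, max Y₀ (max Y₁ Y₂), ?_⟩
  intro z H hdist hall hch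
  have hlt : ∀ k : ℕ, min k M < M + 1 := fun k => by omega
  -- translate into the strip
  set m : Fin (M + 1) → ℤ := fun k => -round (z k).re with hm
  set z' : Fin (M + 1) → ℂ := fun k => z k + (m k : ℂ) with hz'
  have him' : ∀ k, (z' k).im = (z k).im := by
    intro k
    simp [hz']
  have hre' : ∀ k, |(z' k).re| ≤ 1 := by
    intro k
    have h1 : (z' k).re = (z k).re - round (z k).re := by
      simp [hz', hm, sub_eq_add_neg]
    rw [h1]
    exact (abs_sub_round (z k).re).trans (by norm_num)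
  have hY1 : ∀ k, Y₁ < (z k).im := fun k =>
    lt_of_le_of_lt ((le_max_left _ _).trans (le_max_right _ _)) (hall k).1
  have hpos : ∀ k, 0 < (z k).im := fun k => lt_of_lt_of_le (lt_of_lt_of_le one_pos hY₁) (hY1 k).le
  have hcm' : ∀ k, IsCM V (z' k) (C * H k ^ K) := by
    intro k
    apply hht (z' k) (hre' k) (by rw [him']; exact (hY1 k).le) (H k) (hall k).2.1
    exact isCMc_shift V c (z k) (hpos k) (H k) (m k) (hall k).2.2
  have hinj : ∀ i j, z' i = z' j → i = j := by
    intro i j hij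
    by_contra hne
    have h1 : z i = z j + ((m j - m i : ℤ) : ℂ) := by
      have h2 : z i + (m i : ℂ) = z j + (m j : ℂ) := hij
      push_cast
      linear_combination h2
    exact hdist i j hne _ h1
  obtain ⟨a, u, F0, h1⟩ := hst M le_rfl (fun k => z' ⟨min k M, hlt k⟩)
    (fun k => C * H ⟨min k M, hlt k⟩ ^ K) (fun k _ => hre' _) (fun k _ => by
      rw [him']
      exact lt_of_le_of_lt (le_max_left _ _) (hall _).1) (by
      intro i j hi hj hij
      have h2 := hinj _ _ hij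
      have h3 : min i M = min j M := congrArg Fin.val h2
      omega) (fun k _ => by
      have h2 : (1 : ℝ) ≤ H ⟨min k M, hlt k⟩ ^ K := one_le_pow₀ (hall _).2.1
      nlinarith) (fun k _ => hcm' _) (by
      intro k hk
      have h2 := hch ⟨k, hk⟩
      have e1 : (⟨min k M, hlt k⟩ : Fin (M + 1)) = (⟨k, hk⟩ : Fin M).castSucc := by
        ext
        show min k M = k
        omega
      have e2 : (⟨min (k + 1) M, hlt (k + 1)⟩ : Fin (M + 1)) = (⟨k, hk⟩ : Fin M).succ := by
        ext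
        show min (k + 1) M = k + 1
        omega
      show C * H ⟨min k M, hlt k⟩ ^ K * (C * H ⟨min (k + 1) M, hlt (k + 1)⟩ ^ K) ≤
        Real.exp (δ₀ * min (z' ⟨min k M, hlt k⟩).im (z' ⟨min (k + 1) M, hlt (k + 1)⟩).im)
      rw [e1, e2, him', him']
      set μ := min (z (⟨k, hk⟩ : Fin M).castSucc).im (z (⟨k, hk⟩ : Fin M).succ).im with hμ
      set A := H (⟨k, hk⟩ : Fin M).castSucc with hA
      set B := H (⟨k, hk⟩ : Fin M).succ with hB
      have hA1 : 1 ≤ A := (hall _).2.1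
      have hB1 : 1 ≤ B := (hall _).2.1
      have hAB : 0 ≤ A * B := by positivity
      have hμY : Y₂ ≤ μ := by
        apply le_min
        · exact (lt_of_le_of_lt ((le_max_right _ _).trans (le_max_right _ _)) (hall _).1).le
        · exact (lt_of_le_of_lt ((le_max_right _ _).trans (le_max_right _ _)) (hall _).1).le
      have h3 : (A * B) ^ K ≤ Real.exp (δ₀ / 2 * μ) := by
        calc (A * B) ^ K ≤ (Real.exp (δ₀ / (2 * K) * μ)) ^ K := pow_le_pow_left₀ hAB h2 K
          _ = Real.exp (δ₀ / 2 * μ) := by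
            rw [← Real.exp_nat_mul]
            congr 1
            field_simp
      have h4 : C ^ 2 ≤ Real.exp (δ₀ / 2 * μ) := by
        have h5 : Real.log (C ^ 2) ≤ δ₀ / 2 * μ := by
          have h6 : Y₂ * (δ₀ / 2) = Real.log (C ^ 2) := by
            rw [hY₂]
            field_simp
          nlinarith
        calc C ^ 2 = Real.exp (Real.log (C ^ 2)) := (Real.exp_log (by positivity)).symm
          _ ≤ _ := Real.exp_le_exp.2 h5
      calc C * A ^ K * (C * B ^ K) = C ^ 2 * (A * B) ^ K := by rw [mul_pow]; ring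
        _ ≤ Real.exp (δ₀ / 2 * μ) * Real.exp (δ₀ / 2 * μ) :=
          mul_le_mul h4 h3 (by positivity) (Real.exp_pos _).le
        _ = Real.exp (δ₀ * μ) := by
          rw [← Real.exp_add]
          congr 1
          ring)
  obtain ⟨g, hg⟩ := exists_noncomm V hΔ c' hN' h1
  rw [← hc']
  exact X01_line V c' hN' h1 g hg (z' 0) (by rw [him']; exact hpos 0) _ (hcm' 0)

end MP2794d1
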