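import Mathlib

/-!
# Definitions: polarised integral variations of Hodge structure on `Δ \ ℍ` with a cusp

All variations live on the quotient of the upper half plane `{z : ℂ | 0 < z.im}` by a group `Δ` of
real Moebius transformations; the underlying local system is given by a monodromy representation
`Δ → GL_n(ℤ)`, the Hodge filtration by an equivariant holomorphic family of flags of `ℂ^n`.
-/

namespace MP2794d1

open Matrix Complex Filter Topology

/-- The Moebius action of a real matrix of determinant one. -/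
noncomputable def mob (g : Matrix.SpecialLinearGroup (Fin 2) ℝ) (z : ℂ) : ℂ :=
  (((g 0 0 : ℝ) : ℂ) * z + ((g 0 1 : ℝ) : ℂ)) / (((g 1 0 : ℝ) : ℂ) * z + ((g 1 1 : ℝ) : ℂ))

/-- The complex conjugate of a subspace of `ℂ^n`. -/
def conjSub {n : ℕ} (F : Submodule ℂ (Fin n → ℂ)) : Submodule ℂ (Fin n → ℂ) where
  carrier := {v | star v ∈ F}
  add_mem' := by
    intro a b ha hb
    have h : star (a + b) = star a + star b := star_add a b
    show star (a + b) ∈ F
    rw [h]
    exact F.add_mem ha hb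
  zero_mem' := by
    show star (0 : Fin n → ℂ) ∈ F
    rw [star_zero]
    exact F.zero_mem
  smul_mem' := by
    intro c x hx
    show star (c • x) ∈ F
    rw [star_smul]
    exact F.smul_mem _ hx

/-- Extension of scalars of a rational matrix. -/
noncomputable def cm {n : ℕ} (X : Matrix (Fin n) (Fin n) ℚ) : Matrix (Fin n) (Fin n) ℂ :=
  X.map (fun q : ℚ => (q : ℂ))

/-- Extension of scalars of an integral matrix. -/
noncomputable def im {n : ℕ} (X : Matrix (Fin n) (Fin n) ℤ) : Matrix (Fin n) (Fin n) ℂ :=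
  X.map (fun q : ℤ => (q : ℂ))

/-- `exp (s N)` for an `n × n` matrix `N` with `N ^ n = 0`. -/
noncomputable def uexp {n : ℕ} (N : Matrix (Fin n) (Fin n) ℂ) (s : ℂ) : Matrix (Fin n) (Fin n) ℂ :=
  ∑ j ∈ Finset.range n, (s ^ j / (j.factorial : ℂ)) • N ^ j

/-- A polarised Hodge structure of weight `wt` on `ℂ^n = ℂ ⊗ ℤ^n`, with polarisation `Q` and Hodge
filtration `Fl`. -/
structure IsPHS {n : ℕ} (wt : ℤ) (Q : Matrix (Fin n) (Fin n) ℤ)
    (Fl : ℤ → Submodule ℂ (Fin n → ℂ)) : Prop where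
  /-- `Q` is `(-1)^wt`-symmetric -/
  symm : ∀ i j, Q j i = ((wt.negOnePow : ℤˣ) : ℤ) * Q i j
  /-- the filtration is decreasing -/
  anti : ∀ p q : ℤ, p ≤ q → Fl q ≤ Fl p
  /-- the filtration is exhaustive and separated -/
  top : ∃ p, Fl p = ⊤
  bot : ∃ p, Fl p = ⊥
  /-- `Fl p` and the complex conjugate of `Fl (wt + 1 - p)` are opposite -/
  opp : ∀ p, IsCompl (Fl p) (conjSub (Fl (wt + 1 - p)))
  /-- first bilinear relation -/
  orth : ∀ p, ∀ x ∈ Fl p, ∀ y ∈ Fl (wt + 1 - p), x ⬝ᵥ ((im Q) *ᵥ y) = 0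
  /-- second bilinear relation: `i^{p-q} Q(x, conj x) > 0` on `H^{p,q}`, `p + q = wt` -/
  pos : ∀ p, ∀ x ∈ Fl p ⊓ conjSub (Fl (wt - p)), x ≠ 0 →
    0 < (Complex.I ^ (2 * p - wt) * (x ⬝ᵥ ((im Q) *ᵥ (star x)))).re

/-- A holomorphic family of subspaces near `z₀`: spanned by the columns of a matrix of functions
analytic at `z₀`, whose columns are linearly independent. -/
def HolAt {n : ℕ} (F : ℂ → Submodule ℂ (Fin n → ℂ)) (z₀ : ℂ) : Prop :=
  ∃ (r : ℕ) (W : ℂ → Matrix (Fin n) (Fin r) ℂ), (∀ i j, AnalyticAt ℂ (fun z => W z i j) z₀) ∧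
    ∀ᶠ z in 𝓝 z₀, LinearIndependent ℂ (W z)ᵀ ∧ F z = LinearMap.range (W z).mulVecLin

/-- A polarised variation of integral Hodge structure on `Δ \ ℍ`. -/
structure PolVHS (n : ℕ) where
  /-- the weight -/
  wt : ℤ
  /-- the group `Δ` -/
  grp : Subgroup (Matrix.SpecialLinearGroup (Fin 2) ℝ)
  /-- the monodromy representation -/
  rho : grp →* Matrix.GeneralLinearGroup (Fin n) ℤ
  /-- the polarisation -/
  Q : Matrix (Fin n) (Fin n) ℤ
  /-- the Hodge filtration, pulled back to the upper half plane -/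
  F : ℤ → ℂ → Submodule ℂ (Fin n → ℂ)
  /-- the Hodge numbers are supported in the interval `[lo, hi)` -/
  lo : ℤ
  hi : ℤ
  F_lo : ∀ z : ℂ, 0 < z.im → F lo z = ⊤
  F_hi : ∀ z : ℂ, 0 < z.im → F hi z = ⊥
  /-- the polarisation is flat -/
  flat : ∀ g : grp, (rho g : Matrix (Fin n) (Fin n) ℤ)ᵀ * Q * (rho g : Matrix (Fin n) (Fin n) ℤ) = Q
  /-- the fibres are Hodge structures polarised by `Q` -/
  phs : ∀ z : ℂ, 0 < z.im → IsPHS wt Q (fun p => F p z)
  /-- the Hodge filtration varies holomorphically -/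
  hol : ∀ (p : ℤ) (z : ℂ), 0 < z.im → HolAt (F p) z
  /-- Griffiths transversality -/
  griffiths : ∀ (p : ℤ) (z : ℂ), 0 < z.im → ∀ s : ℂ → (Fin n → ℂ),
    (∀ i, AnalyticAt ℂ (fun y => s y i) z) → (∀ᶠ y in 𝓝 z, s y ∈ F p y) →
    (fun i => deriv (fun y => s y i) z) ∈ F (p - 1) z
  /-- equivariance under the group `Δ` -/
  equiv : ∀ (g : grp) (p : ℤ) (z : ℂ), 0 < z.im →
    F p (mob g z) = (F p z).map (im (rho g : Matrix (Fin n) (Fin n) ℤ)).mulVecLin

/-- A cusp at `i∞` of width one with unipotent local monodromy, over which the Hodge bundles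
extend. -/
structure Cusp {n : ℕ} (V : PolVHS n) where
  /-- the parabolic element `z ↦ z + 1` -/
  T : V.grp
  T_eq : ∀ z : ℂ, mob T z = z + 1
  /-- the logarithm of the local monodromy -/
  N : Matrix (Fin n) (Fin n) ℚ
  nil : N ^ n = 0
  exp_eq : im (V.rho T : Matrix (Fin n) (Fin n) ℤ) = uexp (cm N) 1
  /-- `exp (-zN) F` extends over `q = exp(2πiz) = 0` to a holomorphic family of subspaces -/
  ext : ∀ p : ℤ, ∃ (r : ℕ) (W : ℂ → Matrix (Fin n) (Fin r) ℂ) (a : ℝ),
    (∀ i j, AnalyticAt ℂ (fun q => W q i j) 0) ∧ LinearIndependent ℂ (W 0)ᵀ ∧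
    ∀ z : ℂ, a < z.im → V.F p z = LinearMap.range
      (uexp (cm N) z * W (Complex.exp (2 * Real.pi * Complex.I * z))).mulVecLin

/-- `z` is a CM point of height at most `H`: some integral matrix with entries at most `H` and
separable characteristic polynomial preserves the Hodge filtration at `z`. -/
def IsCM {n : ℕ} (V : PolVHS n) (z : ℂ) (H : ℝ) : Prop :=
  ∃ A : Matrix (Fin n) (Fin n) ℤ, (∀ i j, |(A i j : ℝ)| ≤ H) ∧ (im A).charpoly.Separable ∧
    ∀ p, ∀ x ∈ V.F p z, (im A) *ᵥ x ∈ V.F p z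

/-- `μ` is the Hodge grading at `z`: multiplication by `p` on `H^{p,q}`. -/
def IsGrading {n : ℕ} (V : PolVHS n) (z : ℂ) (μ : Matrix (Fin n) (Fin n) ℂ) : Prop :=
  ∀ p : ℤ, ∀ x ∈ V.F p z ⊓ conjSub (V.F (V.wt - p) z), μ *ᵥ x = (p : ℂ) • x

/-- Complexification of a rational subspace of matrices. -/
noncomputable def cx {n : ℕ} (m : Set (Matrix (Fin n) (Fin n) ℚ)) :
    Submodule ℂ (Matrix (Fin n) (Fin n) ℂ) :=
  Submodule.span ℂ (cm '' m)

/-- The conjugate `ρ(g) N ρ(g)⁻¹` of the logarithm of the local monodromy: the logarithm of the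
monodromy at a translate of the cusp. -/
noncomputable def Cusp.conj {n : ℕ} {V : PolVHS n} (c : Cusp V) (g : V.grp) :
    Matrix (Fin n) (Fin n) ℚ :=
  (V.rho g : Matrix (Fin n) (Fin n) ℤ).map (fun q : ℤ => (q : ℚ)) * c.N *
    (V.rho g⁻¹ : Matrix (Fin n) (Fin n) ℤ).map (fun q : ℤ => (q : ℚ))

/-- A rational space of matrices closed under the commutator. -/
def IsLie {n : ℕ} (m : Submodule ℚ (Matrix (Fin n) (Fin n) ℚ)) : Prop :=
  ∀ X ∈ m, ∀ Y ∈ m, X * Y - Y * X ∈ m

/-- The Lie algebra of the generic Mumford-Tate group: the smallest rational Lie algebra of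
matrices whose complexification contains the Hodge gradings at all points. -/
noncomputable def genericMT {n : ℕ} (V : PolVHS n) : Submodule ℚ (Matrix (Fin n) (Fin n) ℚ) :=
  sInf {m | IsLie m ∧ ∀ z : ℂ, 0 < z.im → ∀ μ, IsGrading V z μ → μ ∈ cx (m : Set (Matrix (Fin n) (Fin n) ℚ))}

/-- The generic Mumford-Tate Lie algebra is of Hodge type `(-1,1), (0,0), (1,-1)` at every point,
its part of type `(-1,1)` is the line spanned by the image of `N`, and this line is not zero. -/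
structure IsShimuraLine {n : ℕ} (V : PolVHS n) (N : Matrix (Fin n) (Fin n) ℚ) : Prop where
  /-- `genericMT V` does contain the Hodge gradings (after extension of scalars) -/
  grading : ∀ z : ℂ, 0 < z.im → ∃ μ, IsGrading V z μ ∧
    μ ∈ cx (genericMT V : Set (Matrix (Fin n) (Fin n) ℚ))
  /-- `genericMT V` is a Lie algebra -/
  lie : IsLie (genericMT V)
  /-- it is of type `(-1,1), (0,0), (1,-1)` -/
  sv1 : ∀ z : ℂ, 0 < z.im → ∀ X ∈ genericMT V, ∀ p, ∀ x ∈ V.F p z, (cm X) *ᵥ x ∈ V.F (p - 1) z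
  /-- its part of type `(-1,1)` is spanned by the one of `N` -/
  line : ∀ z : ℂ, 0 < z.im → ∀ X ∈ genericMT V, ∃ a : ℂ, ∀ p, ∀ x ∈ V.F p z,
    (cm X - a • cm N) *ᵥ x ∈ V.F p z
  /-- `N` belongs to it -/
  mem : N ∈ genericMT V
  /-- the `(-1,1)` part of `N` does not vanish -/
  ne : ∀ z : ℂ, 0 < z.im → ¬ ∀ p, ∀ x ∈ V.F p z, (cm N) *ᵥ x ∈ V.F p z

end MP2794d1
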