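import Pool.Agent.Lib.MP_2794d1_ag.W01
import Pool.Agent.Lib.MP_2794d1_ag.J02
import Pool.Agent.Lib.MP_2794d1_ag.F01

/-!
J03: First order identities for Π p = PiV V p at a point z with 0 < z.im. Near z (and inside the upper half plane) take from
HolAt.proj analytic projectors P p y with F p y = range (P p y) (for the given p, and for p + 1). Then near z:
Π p y * P p y = P p y, P p y * Π p y = Π p y. (1) Db of Π P = P: Db Π * P = 0 (Db_analytic), so
Db Π * Π = Db Π * P * Π = 0. (2) Pi_adj: differentiate (mconj Π)ᵀ Q = Q Π (prj_symm): (mconj (Db Π))ᵀ Q = Q Dz Π. From (1),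
(mconj Π)ᵀ (mconj (Db Π))ᵀ = 0, so (mconj Π)ᵀ Q Dz Π = Q Π Dz Π = 0 and Π Dz Π = 0 (im Q invertible). (3) Π Π = Π gives
Dz Π = Dz Π Π + Π Dz Π = Dz Π Π. (4) with P' = P (p+1): Π p * P' = P' near z, so Dz Π * P' = (1 - Π) Dz P'. For a constant
vector v, y ↦ P' y v is an analytic section of F (p+1), so by V.griffiths Dz P' z v ∈ F p z (the entries of Dz P' are the
complex derivatives, dz_hol), hence (1 - Π) Dz P' = 0, Dz Π * P' = 0 and Dz Π * Π (p+1) = Dz Π * P' * Π (p+1) = 0.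
(5) in the same way Dz Π * P = (1 - Π) Dz P with Dz P z v ∈ F (p-1) z, so Π (p-1) Dz Π P = Dz Π P because Π p v, v ∈ F(p-1);
multiply on the right by Π: Π(p-1) Dz Π = Dz Π.
-/

namespace MP2794d1

open Matrix Complex Filter Topology
open scoped ContDiff

variable {n : ℕ} (V : PolVHS n) {z : ℂ} (hz : 0 < z.im)
include hz

theorem j03_im : ∀ᶠ y in 𝓝 z, 0 < y.im :=
  Complex.continuous_im.continuousAt.eventually (lt_mem_nhds hz)

theorem PiV_eq (p : ℤ) : PiV V p z = prj (V.phs z hz) p := by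
  unfold PiV
  rw [dif_pos hz]

theorem PiV_mem (p : ℤ) (x : Fin n → ℂ) : x ∈ V.F p z ↔ PiV V p z *ᵥ x = x := by
  rw [PiV_eq V hz]
  exact prj_mem (V.phs z hz) p x

theorem j03_range (p : ℤ) (x : Fin n → ℂ) : PiV V p z *ᵥ x ∈ V.F p z := by
  rw [PiV_eq V hz]
  exact prj_range (V.phs z hz) p x

theorem PiV_mul_of_le {p q : ℤ} (hpq : p ≤ q) :
    PiV V p z * PiV V q z = PiV V q z ∧ PiV V q z * PiV V p z = PiV V q z := by
  rw [PiV_eq V hz, PiV_eq V hz]
  exact prj_mul_of_le (V.phs z hz) hpq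

/-- analytic projectors -/
theorem j03_proj (p : ℤ) : ∃ P : ℂ → Matrix (Fin n) (Fin n) ℂ,
    (∀ i j, AnalyticAt ℂ (fun y => P y i j) z) ∧ ∀ᶠ y in 𝓝 z, (∀ x, P y *ᵥ x ∈ V.F p y) ∧
      PiV V p y * P y = P y ∧ P y * PiV V p y = PiV V p y := by
  obtain ⟨P, hP, hev⟩ := (V.hol p z hz).proj
  refine ⟨P, hP, ?_⟩
  filter_upwards [hev, j03_im hz] with y hy hy'
  have h1 : ∀ x, P y *ᵥ x ∈ V.F p y := by
    intro x
    rw [hy.2]
    exact ⟨x, rfl⟩
  refine ⟨h1, ?_, ?_⟩
  · apply j01_ext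
    intro x
    rw [← Matrix.mulVec_mulVec]
    exact (PiV_mem V hy' p _).1 (h1 x)
  · apply j01_ext
    intro x
    rw [← Matrix.mulVec_mulVec]
    have h2 := j03_range V hy' p x
    rw [hy.2] at h2
    exact (proj_mem_iff hy.1 _).1 h2

theorem Pi_db (p : ℤ) : Db (PiV V p) z * PiV V p z = 0 := by
  obtain ⟨P, hP, hev⟩ := j03_proj V hz p
  have hPs : SmA P z := SmA.of_analytic hP
  have hS := Pi_smooth V p hz
  have h1 : Db (fun y => PiV V p y * P y) z = Db P z := by
    apply Db_congr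
    filter_upwards [hev] with y hy
    exact hy.2.1
  rw [Db_mul hS hPs, Db_analytic hP, Matrix.mul_zero, add_zero] at h1
  have h2 := hev.self_of_nhds
  calc Db (PiV V p) z * PiV V p z = Db (PiV V p) z * (P z * PiV V p z) := by rw [h2.2.2]
    _ = 0 := by rw [← Matrix.mul_assoc, h1, Matrix.zero_mul]

theorem Pi_adj (p : ℤ) : (mconj (Db (PiV V p) z))ᵀ * im V.Q = im V.Q * Dz (PiV V p) z := by
  have hS := Pi_smooth V p hz
  have h1 : Dz (fun y => (mconj (PiV V p y))ᵀ * im V.Q) z =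
      Dz (fun y => im V.Q * PiV V p y) z := by
    apply Dz_congr
    filter_upwards [j03_im hz] with y hy
    rw [PiV_eq V hy]
    exact prj_symm (V.phs y hy) p
  rw [Dz_mul hS.mconj.transpose (SmA.const _), Dz_mul (SmA.const _) hS, Dz_const, Matrix.mul_zero,
    add_zero, Matrix.zero_mul, zero_add, Dz_transpose, Dz_mconj hS] at h1
  exact h1

theorem Pi_dz1 (p : ℤ) : PiV V p z * Dz (PiV V p) z = 0 := by
  have h1 := Pi_db V hz p
  have h2 := Pi_adj V hz p
  have h3 : (mconj (PiV V p z))ᵀ * (mconj (Db (PiV V p) z))ᵀ = 0 := by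
    rw [← Matrix.transpose_mul, ← j01_mconj_mul, h1]
    ext i j
    simp [mconj]
  have h4 : (mconj (PiV V p z))ᵀ * im V.Q = im V.Q * PiV V p z := by
    rw [PiV_eq V hz]
    exact prj_symm (V.phs z hz) p
  have h5 : im V.Q * (PiV V p z * Dz (PiV V p) z) = 0 := by
    rw [← Matrix.mul_assoc, ← h4, Matrix.mul_assoc, ← h2, ← Matrix.mul_assoc, h3, Matrix.zero_mul]
  have h6 := congrArg (fun X => (im V.Q)⁻¹ * X) h5
  simp only [Matrix.mul_zero] at h6
  rw [← Matrix.mul_assoc, Matrix.nonsing_inv_mul _ (im_Q_unit (V.phs z hz)), Matrix.one_mul] at h6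
  exact h6

theorem Pi_dz2 (p : ℤ) : Dz (PiV V p) z * PiV V p z = Dz (PiV V p) z := by
  have hS := Pi_smooth V p hz
  have h1 : Dz (fun y => PiV V p y * PiV V p y) z = Dz (PiV V p) z := by
    apply Dz_congr
    filter_upwards [j03_im hz] with y hy
    exact (PiV_mul_of_le V hy le_rfl).1
  rw [Dz_mul hS hS, Pi_dz1 V hz, add_zero] at h1
  exact h1

/-- derivatives of analytic sections -/
theorem j03_grif (q : ℤ) {P : ℂ → Matrix (Fin n) (Fin n) ℂ}
    (hP : ∀ i j, AnalyticAt ℂ (fun y => P y i j) z)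
    (hF : ∀ᶠ y in 𝓝 z, ∀ x, P y *ᵥ x ∈ V.F q y) (v : Fin n → ℂ) :
    Dz P z *ᵥ v ∈ V.F (q - 1) z := by
  have h0 : ∀ i, (fun y => (P y *ᵥ v) i) = fun y => ∑ j, P y i j * v j := by
    intro i
    rfl
  have h1 := V.griffiths q z hz (fun y => P y *ᵥ v) (fun i => by
    rw [h0]
    exact Finset.analyticAt_fun_sum _ fun j _ => (hP i j).mul analyticAt_const) (by
    filter_upwards [hF] with y hy
    exact hy v)
  have h2 : (fun i => deriv (fun y => (P y *ᵥ v) i) z) = Dz P z *ᵥ v := by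
    funext i
    rw [h0, deriv_fun_sum fun j _ => (hP i j).differentiableAt.mul_const (v j)]
    show _ = ∑ j, Dz P z i j * v j
    refine Finset.sum_congr rfl fun j _ => ?_
    rw [deriv_mul_const (hP i j).differentiableAt]
    congr 1
    exact (dz_hol (hP i j).differentiableAt).symm
  rw [h2] at h1
  exact h1

theorem Pi_dz3 (p : ℤ) : Dz (PiV V p) z * PiV V (p + 1) z = 0 := by
  obtain ⟨P, hP, hev⟩ := j03_proj V hz (p + 1)
  have hPs : SmA P z := SmA.of_analytic hP
  have hS := Pi_smooth V p hz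
  have h1 : Dz (fun y => PiV V p y * P y) z = Dz P z := by
    apply Dz_congr
    filter_upwards [hev, j03_im hz] with y hy hy'
    calc PiV V p y * P y = PiV V p y * (PiV V (p + 1) y * P y) := by rw [hy.2.1]
      _ = P y := by
        rw [← Matrix.mul_assoc, (PiV_mul_of_le V hy' (by omega)).1, hy.2.1]
  have h2 : PiV V p z * Dz P z = Dz P z := by
    apply j01_ext
    intro v
    rw [← Matrix.mulVec_mulVec]
    have h3 := j03_grif V hz (p + 1) hP (hev.mono fun y hy => hy.1) v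
    have h4 : p + 1 - 1 = p := by ring
    rw [h4] at h3
    exact (PiV_mem V hz p _).1 h3
  rw [Dz_mul hS hPs, h2] at h1
  have h5 : Dz (PiV V p) z * P z = 0 := by
    have h6 : Dz (PiV V p) z * P z + Dz P z = 0 + Dz P z := by rw [h1, zero_add]
    exact add_right_cancel h6
  have h7 := hev.self_of_nhds
  calc Dz (PiV V p) z * PiV V (p + 1) z = Dz (PiV V p) z * (P z * PiV V (p + 1) z) := by
        rw [h7.2.2]
    _ = 0 := by rw [← Matrix.mul_assoc, h5, Matrix.zero_mul]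

theorem Pi_dz4 (p : ℤ) : PiV V (p - 1) z * Dz (PiV V p) z = Dz (PiV V p) z := by
  obtain ⟨P, hP, hev⟩ := j03_proj V hz p
  have hPs : SmA P z := SmA.of_analytic hP
  have hS := Pi_smooth V p hz
  have h1 : Dz (fun y => PiV V p y * P y) z = Dz P z := by
    apply Dz_congr
    filter_upwards [hev] with y hy
    exact hy.2.1
  rw [Dz_mul hS hPs] at h1
  have h2 : PiV V (p - 1) z * Dz P z = Dz P z := by
    apply j01_ext
    intro v
    rw [← Matrix.mulVec_mulVec]
    exact (PiV_mem V hz (p - 1) _).1 (j03_grif V hz p hP (hev.mono fun y hy => hy.1) v)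
  have h3 : Dz (PiV V p) z * P z = Dz P z - PiV V p z * Dz P z := eq_sub_of_add_eq h1
  have h4 : PiV V (p - 1) z * PiV V p z = PiV V p z := (PiV_mul_of_le V hz (by omega)).1
  have h5 : PiV V (p - 1) z * (Dz (PiV V p) z * P z) = Dz (PiV V p) z * P z := by
    rw [h3, Matrix.mul_sub, h2, ← Matrix.mul_assoc, h4]
  have h7 := hev.self_of_nhds
  have h8 : Dz (PiV V p) z * P z * PiV V p z = Dz (PiV V p) z := by
    rw [Matrix.mul_assoc, h7.2.2, Pi_dz2 V hz]
  calc PiV V (p - 1) z * Dz (PiV V p) z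
      = PiV V (p - 1) z * (Dz (PiV V p) z * P z) * PiV V p z := by
        rw [Matrix.mul_assoc, h8]
    _ = Dz (PiV V p) z := by rw [h5, h8]

end MP2794d1
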