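import Pool.Agent.Lib.MP_2794d1_ag.W00
import Pool.Agent.Lib.MP_2794d1_ag.B07

/-!
M01: Interpolation: the powers of a nilpotent matrix are bounded by values of exp(m L N), m = 0, ..., n-1. For
0 ≤ j < n let a j m be the coefficient of X^j in the Lagrange basis polynomial of the nodes 0, ..., n-1 at the node m
(Lagrange.basis). For a polynomial P of degree < n: P = ∑_m P(m) basis m, so the coefficient of X^j is ∑_m a j m P(m). Apply
to P(X) = ∑_{j<n} X^j L^j (N^j) a b / j!, P(m) = uexp N (m L) a b. So |(N^j) a b| ≤ j! L^(-j) ∑_m |a j m| B. The constant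
depends only on n.
-/

namespace MP2794d1

open Matrix Complex Filter Topology
open scoped ContDiff

/-- the coefficients of the Lagrange basis -/
noncomputable def M01_a (n j m : ℕ) : ℂ :=
  (Lagrange.basis (Finset.range n) (fun m : ℕ => (m : ℂ)) m).coeff j

theorem M01_coeff (n : ℕ) (P : Polynomial ℂ) (hP : P.degree < n) (j : ℕ) :
    P.coeff j = ∑ m ∈ Finset.range n, P.eval (m : ℂ) * M01_a n j m := by
  have h := Lagrange.eq_interpolate (s := Finset.range n) (v := fun m : ℕ => (m : ℂ)) (f := P)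
    (fun a _ b _ hab => Nat.cast_injective hab) (by rwa [Finset.card_range])
  conv_lhs => rw [h]
  rw [Lagrange.interpolate_apply, Polynomial.finsetSum_coeff]
  refine Finset.sum_congr rfl fun m _ => ?_
  rw [Polynomial.coeff_C_mul]
  rfl

theorem nil_interp (n : ℕ) : ∃ C : ℝ, 0 ≤ C ∧ ∀ (N : Matrix (Fin n) (Fin n) ℂ) (L B : ℝ), 0 < L →
    (∀ m : ℕ, m < n → ∀ a b, ‖uexp N ((m * L : ℝ) : ℂ) a b‖ ≤ B) →
    ∀ j : ℕ, j < n → ∀ a b, ‖(N ^ j) a b‖ ≤ C * B / L ^ j := by
  refine ⟨∑ j ∈ Finset.range n, (j.factorial : ℝ) * ∑ m ∈ Finset.range n, ‖M01_a n j m‖,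
    Finset.sum_nonneg fun j _ => mul_nonneg (Nat.cast_nonneg _)
      (Finset.sum_nonneg fun m _ => norm_nonneg _), ?_⟩
  intro N L B hL hB j hj a b
  have hB0 : 0 ≤ B := (norm_nonneg _).trans (hB 0 (by omega) a b)
  let P : Polynomial ℂ := ∑ i ∈ Finset.range n,
    Polynomial.C ((L : ℂ) ^ i * (N ^ i) a b / (i.factorial : ℂ)) * Polynomial.X ^ i
  have hdeg : P.degree < n := by
    refine lt_of_le_of_lt (Polynomial.degree_sum_le _ _) ?_
    rw [Finset.sup_lt_iff (by exact_mod_cast WithBot.bot_lt_coe n)]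
    intro i hi
    rw [Finset.mem_range] at hi
    exact lt_of_le_of_lt (Polynomial.degree_C_mul_X_pow_le _ _) (by exact_mod_cast hi)
  have hcoeff : P.coeff j = (L : ℂ) ^ j * (N ^ j) a b / (j.factorial : ℂ) := by
    simp only [P, Polynomial.finsetSum_coeff, Polynomial.coeff_C_mul_X_pow]
    rw [Finset.sum_eq_single j]
    · rw [if_pos rfl]
    · intro i _ hi
      rw [if_neg (Ne.symm hi)]
    · intro h
      exact absurd (Finset.mem_range.2 hj) h
  have heval : ∀ m : ℕ, P.eval (m : ℂ) = uexp N ((m * L : ℝ) : ℂ) a b := by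
    intro m
    simp only [P, Polynomial.eval_finsetSum, Polynomial.eval_mul, Polynomial.eval_C,
      Polynomial.eval_pow, Polynomial.eval_X]
    unfold uexp
    rw [Matrix.sum_apply]
    refine Finset.sum_congr rfl fun i _ => ?_
    rw [Matrix.smul_apply, smul_eq_mul, Complex.ofReal_mul, Complex.ofReal_natCast, mul_pow]
    ring
  have h1 := M01_coeff n P hdeg j
  have h2 : ‖P.coeff j‖ ≤ B * ∑ m ∈ Finset.range n, ‖M01_a n j m‖ := by
    rw [h1, Finset.mul_sum]
    refine (norm_sum_le _ _).trans (Finset.sum_le_sum fun m hm => ?_)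
    rw [norm_mul, heval]
    exact mul_le_mul_of_nonneg_right (hB m (Finset.mem_range.1 hm) a b) (norm_nonneg _)
  have hf : (0 : ℝ) < (j.factorial : ℝ) := by exact_mod_cast Nat.factorial_pos j
  have h3 : ‖P.coeff j‖ = L ^ j * ‖(N ^ j) a b‖ / (j.factorial : ℝ) := by
    rw [hcoeff, norm_div, norm_mul, norm_pow, Complex.norm_real, Complex.norm_natCast,
      Real.norm_of_nonneg hL.le]
  rw [h3, div_le_iff₀ hf] at h2
  rw [le_div_iff₀ (pow_pos hL j), mul_comm]
  refine h2.trans ?_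
  have h4 : (j.factorial : ℝ) * ∑ m ∈ Finset.range n, ‖M01_a n j m‖ ≤
      ∑ j ∈ Finset.range n, (j.factorial : ℝ) * ∑ m ∈ Finset.range n, ‖M01_a n j m‖ :=
    Finset.single_le_sum (f := fun j : ℕ => (j.factorial : ℝ) * ∑ m ∈ Finset.range n, ‖M01_a n j m‖)
      (fun i _ => mul_nonneg (Nat.cast_nonneg _) (Finset.sum_nonneg fun m _ => norm_nonneg _))
      (Finset.mem_range.2 hj)
  calc B * (∑ m ∈ Finset.range n, ‖M01_a n j m‖) * (j.factorial : ℝ)
      = ((j.factorial : ℝ) * ∑ m ∈ Finset.range n, ‖M01_a n j m‖) * B := by ring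
    _ ≤ _ := mul_le_mul_of_nonneg_right h4 hB0

end MP2794d1
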