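import Pool.Agent.Lib.MP_2794d1_ag.R03

/-!
R04: The nilpotent orbit theorem, first part: the filtration exp(-zN) F_z extends over q = 0. W q i j =
Function.Periodic.cuspFunction 1 (fun z => G z i j) q. It is analytic at 0: the function is periodic, holomorphic for im z > Y
and bounded (Function.Periodic.differentiableAt_cuspFunction_zero / analyticAt_cuspFunction_zero; BoundedAtFilter I∞).
W (exp(2πiz)) = G z (eq_cuspFunction, qParam 1 z = exp (2πiz/1)). Λ * W q = 1 for q ≠ 0 small, so Λ * W 0 = 1 by continuity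
and the columns of W 0 are independent. V.F p z = uexp N z (Ψ p z) since uexp N z * uexp N (-z) = 1.
-/

namespace MP2794d1

open Matrix Complex Filter Topology
open scoped ContDiff

theorem R04_indep {n r : ℕ} {Λ : Matrix (Fin r) (Fin n) ℂ} {W : Matrix (Fin n) (Fin r) ℂ}
    (h : Λ * W = 1) : LinearIndependent ℂ Wᵀ := by
  have h1 : Function.Injective W.mulVec := by
    intro x y hxy
    have h2 := congrArg (fun v => Λ *ᵥ v) hxy
    simpa [Matrix.mulVec_mulVec, h] using h2
  exact Matrix.mulVec_injective_iff.1 h1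

theorem nilpotent_orbit {n : ℕ} (V : PolVHS n) (c : UCusp V) (p : ℤ) :
    ∃ (r : ℕ) (W : ℂ → Matrix (Fin n) (Fin r) ℂ) (a : ℝ),
      (∀ i j, AnalyticAt ℂ (fun q => W q i j) 0) ∧ LinearIndependent ℂ (W 0)ᵀ ∧
      ∀ z : ℂ, a < z.im → V.F p z = LinearMap.range
        (uexp (cm c.N) z * W (Complex.exp (2 * Real.pi * Complex.I * z))).mulVecLin := by
  obtain ⟨r, Λ, Y, B, G, hY, hper, hG⟩ := normal_frame V c p
  have hN : cm c.N ^ n = 0 := cm_pow c.N c.nil
  have hP : ∀ i j, Function.Periodic (fun z => G z i j) ((1 : ℝ) : ℂ) := by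
    intro i j z
    show G (z + ((1 : ℝ) : ℂ)) i j = G z i j
    rw [Complex.ofReal_one, hper]
  have hI : ∀ᶠ z in comap Complex.im atTop, Y < z.im :=
    (tendsto_comap (f := Complex.im) (x := atTop)).eventually (eventually_gt_atTop Y)
  have hol : ∀ i j, ∀ᶠ z in comap Complex.im atTop,
      DifferentiableAt ℂ (fun z => G z i j) z := by
    intro i j
    filter_upwards [hI] with z hz
    exact ((hG z hz).1 i j).differentiableAt
  have hbd : ∀ i j, BoundedAtFilter (comap Complex.im atTop) (fun z => G z i j) := by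
    intro i j
    refine Asymptotics.IsBigO.of_bound B ?_
    filter_upwards [hI] with z hz
    simpa using (hG z hz).2.2.2 i j
  set W : ℂ → Matrix (Fin n) (Fin r) ℂ := fun q =>
    Matrix.of fun i j => Function.Periodic.cuspFunction 1 (fun z => G z i j) q with hW
  have hWan : ∀ i j, AnalyticAt ℂ (fun q => W q i j) 0 := by
    intro i j
    rw [Complex.analyticAt_iff_eventually_differentiableAt]
    have h1 := Function.Periodic.eventually_differentiableAt_cuspFunction_nhds_ne_zero
      one_pos (hP i j) (hol i j)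
    have h2 := Function.Periodic.differentiableAt_cuspFunction_zero one_pos (hP i j) (hol i j)
      (hbd i j)
    rw [eventually_nhdsWithin_iff] at h1
    filter_upwards [h1] with q hq
    by_cases hq0 : q = 0
    · rw [hq0]
      exact h2
    · exact hq hq0
  have hWne : ∀ᶠ q in 𝓝[≠] (0 : ℂ), Λ * W q = 1 := by
    have h1 := (Function.Periodic.invQParam_tendsto (h := 1) one_pos).eventually hI
    filter_upwards [h1, self_mem_nhdsWithin] with q hq hq0
    have h2 : W q = G (Function.Periodic.invQParam 1 q) := by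
      ext i j
      exact Function.Periodic.cuspFunction_eq_of_nonzero 1 _ hq0
    rw [h2]
    exact (hG _ hq).2.1
  have hW0 : Λ * W 0 = 1 := by
    ext i j
    have h1 : Tendsto (fun q => (Λ * W q) i j) (𝓝[≠] 0) (𝓝 ((Λ * W 0) i j)) := by
      have h2 : ContinuousAt (fun q => (Λ * W q) i j) 0 := by
        simp only [Matrix.mul_apply]
        exact tendsto_finsetSum _ fun k _ =>
          tendsto_const_nhds.mul ((hWan k j).continuousAt)
      exact h2.tendsto.mono_left nhdsWithin_le_nhds
    have h3 : Tendsto (fun q => (Λ * W q) i j) (𝓝[≠] 0) (𝓝 ((1 : Matrix (Fin r) (Fin r) ℂ) i j)) :=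
      tendsto_const_nhds.congr' (by
        filter_upwards [hWne] with q hq
        rw [hq])
    exact tendsto_nhds_unique h1 h3
  refine ⟨r, W, Y, hWan, R04_indep hW0, fun z hz => ?_⟩
  have h1 : W (Complex.exp (2 * Real.pi * Complex.I * z)) = G z := by
    ext i j
    have h2 := Function.Periodic.eq_cuspFunction one_ne_zero (hP i j) z
    have h3 : Function.Periodic.qParam 1 z = Complex.exp (2 * Real.pi * Complex.I * z) := by
      simp [Function.Periodic.qParam]
    rw [h3] at h2
    exact h2
  rw [h1]
  have h2 := (hG z hz).2.2.1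
  unfold Psi at h2
  rw [Matrix.mulVecLin_mul, LinearMap.range_comp, ← h2, ← Submodule.map_comp,
    ← Matrix.mulVecLin_mul, uexp_mul_neg _ hN, Matrix.mulVecLin_one, Submodule.map_id]

/-- every cusp (without extension hypothesis) is a cusp in the sense of `Cusp` -/
theorem exists_cusp {n : ℕ} (V : PolVHS n) (c : UCusp V) : ∃ c' : Cusp V, c'.T = c.T ∧ c'.N = c.N :=
  ⟨⟨c.T, c.T_eq, c.N, c.nil, c.exp_eq, fun p => nilpotent_orbit V c p⟩, rfl, rfl⟩

end MP2794d1
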