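import Pool.Agent.Lib.MP_2794d1_ag.W00

/-!
Q01: Derivative of a bounded holomorphic function on a thick annulus. Let 2 ≤ R < ρ and let G q = (F q - F 1 - F'(1)(q - 1)) / (q - 1)²
for q ≠ 1 (with the limit value at q = 1: G = dslope of dslope, so it is continuous and differentiable off 1). By
Complex.circleIntegral_eq_of_differentiable_on_annulus_off_countable the integrals of G over C(0, R) and C(0, 1/R) agree (take
the countable exceptional set {1}). Expand G = F/(q-1)² - F(1)/(q-1)² - F'(1)/(q-1) on the circles: the integrals of 1/(q-1)²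
vanish (circleIntegral.integral_sub_zpow_of_ne), that of 1/(q-1) is 2πi over C(0,R) (circleIntegral.integral_sub_inv_of_mem_ball)
and 0 over C(0,1/R) (Cauchy). So 2πi F'(1) = ∮_R F/(q-1)² - ∮_{1/R} F/(q-1)², and the norms are at most
2πR B/(R-1)² and 2π(1/R) B/(1-1/R)² = 2πR B/(R-1)². So ‖F'(1)‖ ≤ 2 R B/(R-1)² ≤ 8 B/R. Let R → ρ.
-/

namespace MP2794d1

open Matrix Complex Filter Topology
open scoped ContDiff

theorem Q01_dslope_eq (F : ℂ → ℂ) {q : ℂ} (hq : q ≠ 1) :
    dslope (dslope F 1) 1 q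
      = F q / (q - 1) ^ 2 - (F 1 * (q - 1) ^ (-2 : ℤ) + deriv F 1 * (q - 1)⁻¹) := by
  have h1 : q - 1 ≠ 0 := sub_ne_zero.mpr hq
  rw [dslope_of_ne _ hq, slope_def_field, dslope_of_ne _ hq, dslope_same, slope_def_field]
  have h2 : (q - 1) ^ (-2 : ℤ) = ((q - 1) ^ 2)⁻¹ := by
    rw [_root_.zpow_neg]; rfl
  rw [h2]
  field_simp
  ring

theorem Q01_int (F : ℂ → ℂ) (r : ℝ) (hr : 0 < r) (hr1 : r ≠ 1)
    (hF : ContinuousOn F (Metric.sphere (0 : ℂ) r)) :
    (∮ z in C(0, r), dslope (dslope F 1) 1 z)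
      = (∮ z in C(0, r), F z / (z - 1) ^ 2) - deriv F 1 * ∮ z in C(0, r), (z - 1)⁻¹ := by
  have hne : ∀ z ∈ Metric.sphere (0 : ℂ) r, z ≠ 1 := by
    intro z hz h
    rw [mem_sphere_zero_iff_norm, h, norm_one] at hz
    exact hr1 hz.symm
  have hne' : ∀ z ∈ Metric.sphere (0 : ℂ) r, z - 1 ≠ 0 := fun z hz => sub_ne_zero.mpr (hne z hz)
  have e1 : (∮ z in C(0, r), dslope (dslope F 1) 1 z)
      = ∮ z in C(0, r), (F z / (z - 1) ^ 2 - (F 1 * (z - 1) ^ (-2 : ℤ) + deriv F 1 * (z - 1)⁻¹)) :=
    circleIntegral.integral_congr hr.le (fun z hz => Q01_dslope_eq F (hne z hz))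
  have c1 : CircleIntegrable (fun z => F z / (z - 1) ^ 2) 0 r := by
    apply ContinuousOn.circleIntegrable hr.le
    refine hF.div ?_ (fun z hz => pow_ne_zero 2 (hne' z hz))
    fun_prop
  have c2 : CircleIntegrable (fun z => F 1 * (z - 1) ^ (-2 : ℤ)) 0 r := by
    apply ContinuousOn.circleIntegrable hr.le
    refine continuousOn_const.mul ?_
    exact ContinuousOn.zpow₀ (by fun_prop) _ (fun z hz => Or.inl (hne' z hz))
  have c3 : CircleIntegrable (fun z => deriv F 1 * (z - 1)⁻¹) 0 r := by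
    apply ContinuousOn.circleIntegrable hr.le
    refine continuousOn_const.mul ?_
    exact ContinuousOn.inv₀ (by fun_prop) (fun z hz => hne' z hz)
  have c4 : CircleIntegrable (fun z => F 1 * (z - 1) ^ (-2 : ℤ) + deriv F 1 * (z - 1)⁻¹) 0 r :=
    c2.add c3
  rw [e1, circleIntegral.integral_sub c1 c4, circleIntegral.integral_add c2 c3,
    circleIntegral.integral_const_mul, circleIntegral.integral_const_mul,
    circleIntegral.integral_sub_zpow_of_ne (by norm_num)]
  ring

theorem annulus_deriv (F : ℂ → ℂ) (ρ B : ℝ) (hρ : 2 < ρ)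
    (hF : ∀ q : ℂ, 1 / ρ < ‖q‖ → ‖q‖ < ρ → DifferentiableAt ℂ F q ∧ ‖F q‖ ≤ B) :
    ‖deriv F 1‖ ≤ 8 * B / ρ := by
  have hρ0 : 0 < ρ := by linarith
  have hρinv : 1 / ρ < 1 := by rw [div_lt_one hρ0]; linarith
  have hB : 0 ≤ B := by
    have h := (hF 1 (by rw [norm_one]; exact hρinv) (by rw [norm_one]; linarith)).2
    exact le_trans (norm_nonneg _) h
  -- key estimate
  have key : ∀ R : ℝ, 2 ≤ R → R < ρ → ‖deriv F 1‖ ≤ 8 * B / R := by
    intro R hR2 hRρ
    have hR0 : 0 < R := by linarith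
    have hRi0 : 0 < 1 / R := by positivity
    have hRi1 : 1 / R < 1 := by rw [div_lt_one hR0]; linarith
    have hρR : 1 / ρ < 1 / R := one_div_lt_one_div_of_lt hR0 hRρ
    set U : Set ℂ := {q : ℂ | 1 / ρ < ‖q‖ ∧ ‖q‖ < ρ} with hU
    have hUo : IsOpen U := by
      have : U = {q : ℂ | 1 / ρ < ‖q‖} ∩ {q : ℂ | ‖q‖ < ρ} := rfl
      rw [this]
      exact (isOpen_lt continuous_const continuous_norm).inter
        (isOpen_lt continuous_norm continuous_const)
    have h1U : (1 : ℂ) ∈ U := by
      refine ⟨?_, ?_⟩ <;> rw [norm_one] <;> linarith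
    have hUn : U ∈ 𝓝 (1 : ℂ) := hUo.mem_nhds h1U
    have hFd : DifferentiableOn ℂ F U := fun q hq => (hF q hq.1 hq.2).1.differentiableWithinAt
    have hGd : DifferentiableOn ℂ (dslope (dslope F 1) 1) U := by
      rw [Complex.differentiableOn_dslope hUn, Complex.differentiableOn_dslope hUn]
      exact hFd
    have hsub : Metric.closedBall (0 : ℂ) R \ Metric.ball 0 (1 / R) ⊆ U := by
      intro z hz
      have h1 : ‖z‖ ≤ R := by simpa using hz.1
      have h2 : 1 / R ≤ ‖z‖ := by
        have := hz.2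
        rw [mem_ball_zero_iff, not_lt] at this
        exact this
      exact ⟨lt_of_lt_of_le hρR h2, lt_of_le_of_lt h1 hRρ⟩
    have hsub2 : Metric.ball (0 : ℂ) R \ Metric.closedBall 0 (1 / R) ⊆ U :=
      Set.Subset.trans
        (Set.sdiff_subset_sdiff Metric.ball_subset_closedBall Metric.ball_subset_closedBall) hsub
    have heq : (∮ z in C(0, R), dslope (dslope F 1) 1 z)
        = ∮ z in C(0, 1 / R), dslope (dslope F 1) 1 z := by
      refine Complex.circleIntegral_eq_of_differentiable_on_annulus_off_countable hRi0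
        (by linarith) Set.countable_empty (hGd.continuousOn.mono hsub) ?_
      intro z hz
      exact (hGd z (hsub2 hz.1)).differentiableAt (hUo.mem_nhds (hsub2 hz.1))
    have hsR : Metric.sphere (0 : ℂ) R ⊆ U := by
      intro z hz
      rw [mem_sphere_zero_iff_norm] at hz
      refine ⟨?_, ?_⟩ <;> rw [hz] <;> linarith
    have hsRi : Metric.sphere (0 : ℂ) (1 / R) ⊆ U := by
      intro z hz
      rw [mem_sphere_zero_iff_norm] at hz
      refine ⟨?_, ?_⟩ <;> rw [hz] <;> linarith
    have i1 := Q01_int F R hR0 (by linarith) (hFd.continuousOn.mono hsR)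
    have i2 := Q01_int F (1 / R) hRi0 (by linarith) (hFd.continuousOn.mono hsRi)
    have j1 : (∮ z in C(0, R), (z - (1 : ℂ))⁻¹) = 2 * Real.pi * I :=
      circleIntegral.integral_sub_inv_of_mem_ball (by
        rw [mem_ball_zero_iff, norm_one]; linarith)
    have j2 : (∮ z in C(0, 1 / R), (z - (1 : ℂ))⁻¹) = 0 := by
      have hne : ∀ z ∈ Metric.closedBall (0 : ℂ) (1 / R), z - 1 ≠ 0 := by
        intro z hz h
        have h1 : z = 1 := sub_eq_zero.mp h
        rw [mem_closedBall_zero_iff, h1, norm_one] at hz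
        linarith
      refine Complex.circleIntegral_eq_zero_of_differentiable_on_off_countable hRi0.le
        Set.countable_empty ?_ ?_
      · exact ContinuousOn.inv₀ (by fun_prop) hne
      · intro z hz
        have := hne z (Metric.ball_subset_closedBall hz.1)
        exact DifferentiableAt.inv (by fun_prop) this
    rw [i1, i2, j1, j2] at heq
    -- norms
    have b1 : ‖∮ z in C(0, R), F z / (z - 1) ^ 2‖ ≤ 2 * Real.pi * R * (B / (R - 1) ^ 2) := by
      apply circleIntegral.norm_integral_le_of_norm_le_const hR0.le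
      intro z hz
      have hzU := hsR hz
      have hb := (hF z hzU.1 hzU.2).2
      rw [mem_sphere_zero_iff_norm] at hz
      have hn : R - 1 ≤ ‖z - 1‖ := by
        have := norm_sub_norm_le z 1
        rw [hz, norm_one] at this
        exact this
      rw [norm_div, norm_pow]
      have h0 : 0 < R - 1 := by linarith
      apply div_le_div₀ hB hb (by positivity)
      exact pow_le_pow_left₀ h0.le hn 2
    have b2 : ‖∮ z in C(0, 1 / R), F z / (z - 1) ^ 2‖
        ≤ 2 * Real.pi * (1 / R) * (B / (1 - 1 / R) ^ 2) := by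
      apply circleIntegral.norm_integral_le_of_norm_le_const hRi0.le
      intro z hz
      have hzU := hsRi hz
      have hb := (hF z hzU.1 hzU.2).2
      rw [mem_sphere_zero_iff_norm] at hz
      have hn : 1 - 1 / R ≤ ‖z - 1‖ := by
        have := norm_sub_norm_le 1 z
        rw [hz, norm_one, norm_sub_rev] at this
        exact this
      rw [norm_div, norm_pow]
      have h0 : 0 < 1 - 1 / R := by linarith
      apply div_le_div₀ hB hb (by positivity)
      exact pow_le_pow_left₀ h0.le hn 2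
    have h0 : 0 < R - 1 := by linarith
    have e2 : 2 * Real.pi * (1 / R) * (B / (1 - 1 / R) ^ 2) = 2 * Real.pi * R * (B / (R - 1) ^ 2) := by
      have : 1 - 1 / R = (R - 1) / R := by field_simp
      rw [this]
      field_simp
    rw [e2] at b2
    have e3 : deriv F 1 * (2 * Real.pi * I)
        = (∮ z in C(0, R), F z / (z - 1) ^ 2) - ∮ z in C(0, 1 / R), F z / (z - 1) ^ 2 := by
      linear_combination -heq
    have e4 : ‖deriv F 1‖ * (2 * Real.pi) ≤ 2 * (2 * Real.pi * R * (B / (R - 1) ^ 2)) := by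
      have h := congrArg norm e3
      rw [norm_mul, norm_mul, norm_mul, Complex.norm_I, Complex.norm_real, Complex.norm_ofNat,
        Real.norm_eq_abs, abs_of_pos Real.pi_pos, mul_one] at h
      rw [h]
      calc _ ≤ _ := norm_sub_le _ _
        _ ≤ _ := by linarith
    have hpi : 0 < 2 * Real.pi := by positivity
    have e5 : ‖deriv F 1‖ ≤ 2 * R * (B / (R - 1) ^ 2) := by
      have : ‖deriv F 1‖ * (2 * Real.pi) ≤ (2 * R * (B / (R - 1) ^ 2)) * (2 * Real.pi) := by
        calc _ ≤ _ := e4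
          _ = _ := by ring
      exact le_of_mul_le_mul_right this hpi
    refine e5.trans ?_
    rw [← mul_div_assoc, div_le_div_iff₀ (by positivity) hR0]
    have : R ^ 2 ≤ 4 * (R - 1) ^ 2 := by nlinarith
    nlinarith
  by_contra hcon
  push Not at hcon
  set c := ‖deriv F 1‖ with hc
  have hc0 : 0 < c := lt_of_le_of_lt (by positivity) hcon
  rw [div_lt_iff₀ hρ0] at hcon
  -- choose R
  have h8 : 8 * B / c < ρ := by rw [div_lt_iff₀ hc0]; linarith
  set R := max 2 ((ρ + 8 * B / c) / 2) with hR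
  have hR2 : 2 ≤ R := le_max_left _ _
  have hRρ : R < ρ := max_lt hρ (by linarith)
  have hRc : 8 * B / c < R := lt_of_lt_of_le (by linarith) (le_max_right _ _)
  have := key R hR2 hRρ
  have hR0 : 0 < R := by linarith
  rw [le_div_iff₀ hR0] at this
  rw [div_lt_iff₀ hc0] at hRc
  linarith

end MP2794d1
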