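import Pool.Agent.Lib.MP_2794d1_ag.R01

/-!
R02: Chain. Constants ε, C, c₀, Y from frame_step. Choose y₁ ≥ Y large (below), z_* = i y₁, W₀ an orthonormal frame of
Ψ p z_* (W₀^* W₀ = 1: orthonormal basis of a subspace of ℂ^n; its entries are ≤ 1), Λ = W₀^*. Claim: with K = 4 C,
a = c₀: for every z with |re z| ≤ 1, im z ≥ y₁ there is a frame W of Ψ p z with |W - W₀| ≤ C 2 exp(-c₀ y₁) +
K (exp(-a y₁) - exp(-a im z)) entrywise (so ≤ 1, all entries ≤ 2, for y₁ large). Induction on k with y₁ (1+ε/2)^k ≤ im z <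
y₁ (1+ε/2)^(k+1). k = 0: ‖z - z_*‖ ≤ 1 + ε y₁/2 ≤ ε y₁: one step from z_*. k ≥ 1: z' = re z + i im z/(1+ε/2), ‖z - z'‖ =
(ε/2) im z' ≤ ε im z'; one step of error ≤ 2 C exp(-c₀ im z'), and exp(-a y') - exp(-a (1+ε/2) y') = exp(-a y')(1 -
exp(-a ε y'/2)) ≥ exp(-a y')/2 if y₁ is large, so K times this is ≥ 2 C exp(-c₀ y'). Finally Λ W = 1 + Λ (W - W₀), entries of
Λ (W - W₀) ≤ n (2C + K) exp(-c₀ y₁) ≤ 1/(2 r) (r ≤ n) for y₁ large: small_inv gives Λ W invertible with inverse entries ≤ 2,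
and W (ΛW)⁻¹ has entries ≤ 4 r.
-/

namespace MP2794d1

open Matrix Complex Filter Topology
open scoped ContDiff

theorem R02_indep {n r : ℕ} {Λ : Matrix (Fin r) (Fin n) ℂ} {W : Matrix (Fin n) (Fin r) ℂ}
    (h : Λ * W = 1) : LinearIndependent ℂ Wᵀ := by
  have h1 : Function.Injective W.mulVec := by
    intro x y hxy
    have h2 := congrArg (fun v => Λ *ᵥ v) hxy
    simpa [Matrix.mulVec_mulVec, h] using h2
  exact Matrix.mulVec_injective_iff.1 h1

theorem R02_star {n : ℕ} (x : Fin n → ℂ) :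
    (x ⬝ᵥ star x).re = ∑ i, ‖x i‖ ^ 2 := by
  simp only [dotProduct, Pi.star_apply, Complex.re_sum]
  refine Finset.sum_congr rfl fun i _ => ?_
  have h1 : x i * star (x i) = ((‖x i‖ ^ 2 : ℝ) : ℂ) := by
    have := Complex.mul_conj (x i)
    rw [Complex.normSq_eq_norm_sq] at this
    exact this
  rw [h1, Complex.ofReal_re]

/-- orthonormal frame of a subspace -/
theorem R02_frame {n : ℕ} (S : Submodule ℂ (Fin n → ℂ)) :
    ∃ (r : ℕ) (W : Matrix (Fin n) (Fin r) ℂ) (Λ : Matrix (Fin r) (Fin n) ℂ), Λ * W = 1 ∧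
      S = LinearMap.range W.mulVecLin ∧ (∀ i j, ‖W i j‖ ≤ 1) ∧ ∀ i j, ‖Λ i j‖ ≤ 1 := by
  obtain ⟨r, v, hv1, hv2, hv3⟩ := E02_onb S (fun x y => x ⬝ᵥ star y)
    (fun x y z => by rw [star_add, dotProduct_add])
    (fun x y a => by
      rw [star_smul, dotProduct_smul]
      rfl)
    (fun x y => by
      simp only [dotProduct, map_sum, map_mul, Pi.star_apply]
      refine Finset.sum_congr rfl fun i _ => ?_
      have h1 : (starRingEnd ℂ) (star (y i)) = y i := Complex.conj_conj (y i)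
      rw [h1, mul_comm]
      rfl)
    (fun x _ hx => by
      rw [R02_star]
      obtain ⟨i, hi⟩ := Function.ne_iff.1 hx
      have h1 : 0 < ‖x i‖ ^ 2 := by
        have : x i ≠ 0 := hi
        positivity
      exact lt_of_lt_of_le h1 (Finset.single_le_sum (f := fun i => ‖x i‖ ^ 2)
        (fun j _ => by positivity) (Finset.mem_univ i)))
  have hb : ∀ i j, ‖v j i‖ ≤ 1 := by
    intro i j
    have h1 := hv3 j j
    simp only [if_true] at h1
    have h2 := R02_star (v j)
    rw [h1, Complex.one_re] at h2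
    have h3 := Finset.single_le_sum (f := fun i => ‖v j i‖ ^ 2)
        (fun k _ => by positivity) (Finset.mem_univ i)
    rw [← h2] at h3
    nlinarith [norm_nonneg (v j i)]
  refine ⟨r, Matrix.of fun i j => v j i, Matrix.of fun j i => star (v j i), ?_, ?_, ?_, ?_⟩
  · ext a b
    have h1 := hv3 b a
    rw [Matrix.mul_apply, Matrix.one_apply]
    have h2 : ∑ i, (Matrix.of fun j i => star (v j i)) a i * (Matrix.of fun i j => v j i) i b =
        v b ⬝ᵥ star (v a) := by
      simp only [dotProduct, Matrix.of_apply, Pi.star_apply]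
      exact Finset.sum_congr rfl fun i _ => mul_comm _ _
    rw [h2, h1]
    by_cases hab : b = a
    · rw [if_pos hab, if_pos hab.symm]
    · rw [if_neg hab, if_neg (fun h => hab h.symm)]
  · apply le_antisymm
    · rw [Matrix.range_mulVecLin]
      exact hv2
    · rw [Matrix.range_mulVecLin, Submodule.span_le]
      rintro _ ⟨j, rfl⟩
      exact hv1 j
  · intro i j
    exact hb i j
  · intro j i
    show ‖star (v j i)‖ ≤ 1
    rw [norm_star]
    exact hb i j

theorem R02_dim {n r : ℕ} {Λ : Matrix (Fin r) (Fin n) ℂ} {W : Matrix (Fin n) (Fin r) ℂ}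
    (h : Λ * W = 1) : r ≤ n := by
  have h1 : Function.Injective W.mulVecLin := by
    intro x y hxy
    have h2 := congrArg (fun v => Λ *ᵥ v) hxy
    simpa [Matrix.mulVec_mulVec, h] using h2
  have h2 := LinearMap.finrank_le_finrank_of_injective h1
  simpa using h2

theorem frame_chain {n : ℕ} (V : PolVHS n) (c : UCusp V) (p : ℤ) :
    ∃ (r : ℕ) (Λ : Matrix (Fin r) (Fin n) ℂ) (Y B : ℝ), 1 ≤ Y ∧ ∀ z : ℂ, |z.re| ≤ 1 → Y ≤ z.im →
      ∃ W : Matrix (Fin n) (Fin r) ℂ, LinearIndependent ℂ Wᵀ ∧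
        Psi V (cm c.N) p z = LinearMap.range W.mulVecLin ∧ IsUnit (Λ * W).det ∧
        ∀ i j, ‖(W * (Λ * W)⁻¹) i j‖ ≤ B := by
  obtain ⟨ε, C, c₀, Y, hε, hε2, hC, hc₀, hY, hstep⟩ := frame_step V c
  -- choice of `y₁`
  obtain ⟨y₁, hy₁Y, hy₁ε, hy₁c, hy₁e⟩ : ∃ y₁ : ℝ, Y ≤ y₁ ∧ 2 / ε ≤ y₁ ∧ 2 / (c₀ * ε) ≤ y₁ ∧
      6 * C * Real.exp (-(c₀ * y₁)) ≤ 1 / (2 * ((n : ℝ) + 1) ^ 2) := by
    have h1 : Tendsto (fun y : ℝ => 6 * C * Real.exp (-(c₀ * y))) atTop (𝓝 (6 * C * 0)) := by
      refine Tendsto.const_mul _ (Real.tendsto_exp_neg_atTop_nhds_zero.comp ?_)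
      exact tendsto_id.const_mul_atTop hc₀
    rw [mul_zero] at h1
    have h2 : (0 : ℝ) < 1 / (2 * ((n : ℝ) + 1) ^ 2) := by positivity
    have h3 := (h1.eventually (ge_mem_nhds h2)).and ((eventually_ge_atTop Y).and
      ((eventually_ge_atTop (2 / ε)).and (eventually_ge_atTop (2 / (c₀ * ε)))))
    obtain ⟨y, h4, h5, h6, h7⟩ := h3.exists
    exact ⟨y, h5, h6, h7, h4⟩
  have hy₁0 : 0 < y₁ := by linarith
  have hn1 : (1 : ℝ) ≤ ((n : ℝ) + 1) ^ 2 := by
    have : (0 : ℝ) ≤ n := Nat.cast_nonneg n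
    nlinarith
  have hδ1 : 6 * C * Real.exp (-(c₀ * y₁)) ≤ 1 := by
    refine hy₁e.trans ?_
    rw [div_le_one (by positivity)]
    linarith
  set z₀ : ℂ := ⟨0, y₁⟩ with hz₀
  obtain ⟨r, W₀, Λ, hΛ, hW₀, hW₀b, hΛb⟩ := R02_frame (Psi V (cm c.N) p z₀)
  have hrn : r ≤ n := R02_dim hΛ
  refine ⟨r, Λ, y₁, (r : ℝ) * (2 * 2), hY.trans hy₁Y, ?_⟩
  -- the chain
  have hchain : ∀ k : ℕ, ∀ z : ℂ, |z.re| ≤ 1 → y₁ ≤ z.im → z.im ≤ y₁ * (1 + ε / 2) ^ (k + 1) →
      ∃ W : Matrix (Fin n) (Fin r) ℂ, LinearIndependent ℂ Wᵀ ∧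
        Psi V (cm c.N) p z = LinearMap.range W.mulVecLin ∧
        ∀ i j, ‖W i j - W₀ i j‖ ≤ 2 * C * Real.exp (-(c₀ * y₁)) +
          4 * C * (Real.exp (-(c₀ * y₁)) - Real.exp (-(c₀ * z.im))) := by
    have hbase : ∀ z : ℂ, |z.re| ≤ 1 → y₁ ≤ z.im → z.im ≤ y₁ * (1 + ε / 2) →
      ∃ W : Matrix (Fin n) (Fin r) ℂ, LinearIndependent ℂ Wᵀ ∧
        Psi V (cm c.N) p z = LinearMap.range W.mulVecLin ∧
        ∀ i j, ‖W i j - W₀ i j‖ ≤ 2 * C * Real.exp (-(c₀ * y₁)) +
          4 * C * (Real.exp (-(c₀ * y₁)) - Real.exp (-(c₀ * z.im))) := by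
      intro z hre him him2
      have h1 : ‖z - z₀‖ ≤ ε * z₀.im := by
        refine (Complex.norm_le_abs_re_add_abs_im _).trans ?_
        have h2 : (z - z₀).re = z.re := by simp [hz₀]
        have h3 : (z - z₀).im = z.im - y₁ := by simp [hz₀]
        have h4 : z₀.im = y₁ := rfl
        rw [h2, h3, h4, abs_of_nonneg (by linarith : 0 ≤ z.im - y₁)]
        rw [div_le_iff₀ hε] at hy₁ε
        linarith
      obtain ⟨W, hW1, hW2, hW3⟩ := hstep z₀ z (by simp [hz₀]) hy₁Y h1 p r W₀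
        (R02_indep hΛ) hW₀ 1 zero_le_one hW₀b
      refine ⟨W, hW1, hW2, fun i j => ?_⟩
      have h5 := hW3 i j
      have h6 : z₀.im = y₁ := rfl
      rw [h6, mul_one] at h5
      have h7 : Real.exp (-(c₀ * z.im)) ≤ Real.exp (-(c₀ * y₁)) := by
        apply Real.exp_le_exp.2
        nlinarith
      have h8 : 0 ≤ C * Real.exp (-(c₀ * y₁)) := by positivity
      have h9 : 0 ≤ 4 * C * (Real.exp (-(c₀ * y₁)) - Real.exp (-(c₀ * z.im))) :=
        mul_nonneg (by linarith) (by linarith)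
      linarith
    intro k
    induction k with
    | zero =>
      intro z hre him him2
      rw [zero_add, pow_one] at him2
      exact hbase z hre him him2
    | succ k ih =>
      intro z hre him him2
      by_cases hcase : z.im ≤ y₁ * (1 + ε / 2)
      · exact hbase z hre him hcase
      · push Not at hcase
        have hq : 0 < 1 + ε / 2 := by linarith
        set z' : ℂ := ⟨z.re, z.im / (1 + ε / 2)⟩ with hz'
        have hz're : z'.re = z.re := rfl
        have hz'im : z'.im = z.im / (1 + ε / 2) := rfl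
        have hzz' : z.im = z'.im * (1 + ε / 2) := by
          rw [hz'im]
          field_simp
        have him' : y₁ ≤ z'.im := by
          rw [hz'im, le_div_iff₀ hq]
          exact hcase.le
        have him2' : z'.im ≤ y₁ * (1 + ε / 2) ^ (k + 1) := by
          rw [hz'im, div_le_iff₀ hq]
          rw [pow_succ] at him2
          calc z.im ≤ y₁ * ((1 + ε / 2) ^ (k + 1) * (1 + ε / 2)) := him2
            _ = y₁ * (1 + ε / 2) ^ (k + 1) * (1 + ε / 2) := by ring
        obtain ⟨W', hW'1, hW'2, hW'3⟩ := ih z' hre him' him2'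
        have h1 : ‖z - z'‖ ≤ ε * z'.im := by
          refine (Complex.norm_le_abs_re_add_abs_im _).trans ?_
          have h2 : (z - z').re = 0 := by simp [hz']
          have h3 : (z - z').im = z.im - z'.im := Complex.sub_im _ _
          have hz'0 : 0 < z'.im := by linarith
          rw [h2, h3, abs_zero, zero_add, hzz', abs_of_nonneg (by nlinarith)]
          nlinarith
        have hE1 : Real.exp (-(c₀ * z'.im)) ≤ Real.exp (-(c₀ * y₁)) := by
          apply Real.exp_le_exp.2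
          nlinarith
        have hE0 : 0 < Real.exp (-(c₀ * z'.im)) := Real.exp_pos _
        have hb' : ∀ i j, ‖W' i j‖ ≤ 2 := by
          intro i j
          have h2 := hW'3 i j
          have h3 : ‖W' i j‖ ≤ ‖W' i j - W₀ i j‖ + ‖W₀ i j‖ := by
            have := norm_add_le (W' i j - W₀ i j) (W₀ i j)
            simpa using this
          have h4 := hW₀b i j
          have h5 : 0 ≤ 4 * C * Real.exp (-(c₀ * z'.im)) := by positivity
          linarith
        obtain ⟨W, hW1, hW2, hW3⟩ := hstep z' z hre (hy₁Y.trans him') h1 p r W' hW'1 hW'2 2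
          (by norm_num) hb'
        refine ⟨W, hW1, hW2, fun i j => ?_⟩
        have h2 := hW3 i j
        have h3 := hW'3 i j
        have h4 : ‖W i j - W₀ i j‖ ≤ ‖W i j - W' i j‖ + ‖W' i j - W₀ i j‖ := by
          have := norm_add_le (W i j - W' i j) (W' i j - W₀ i j)
          simpa using this
        -- decay
        have h5 : Real.exp (-(c₀ * z.im)) ≤ Real.exp (-(c₀ * z'.im)) * (1 / 2) := by
          have h6 : -(c₀ * z.im) = -(c₀ * z'.im) + -(c₀ * ε * z'.im / 2) := by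
            rw [hzz']
            ring
          rw [h6, Real.exp_add]
          refine mul_le_mul_of_nonneg_left ?_ hE0.le
          have h7 : 1 ≤ c₀ * ε * z'.im / 2 := by
            have h8 := hy₁c.trans him'
            rw [div_le_iff₀ (by positivity)] at h8
            linarith
          have h8 : Real.exp (-(c₀ * ε * z'.im / 2)) ≤ Real.exp (-1) :=
            Real.exp_le_exp.2 (by linarith)
          refine h8.trans ?_
          rw [Real.exp_neg, ← one_div]
          have h9 := Real.exp_one_gt_d9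
          apply one_div_le_one_div_of_le (by norm_num)
          linarith
        have h6 : C * 2 * Real.exp (-(c₀ * z'.im)) ≤
            4 * C * (Real.exp (-(c₀ * z'.im)) - Real.exp (-(c₀ * z.im))) := by
          have h7 : 0 ≤ 4 * C := by linarith
          have h8 := mul_le_mul_of_nonneg_left
            (show Real.exp (-(c₀ * z'.im)) * (1 / 2) ≤
              Real.exp (-(c₀ * z'.im)) - Real.exp (-(c₀ * z.im)) by linarith) h7
          linarith
        linarith
  intro z hre him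
  -- choice of `k`
  obtain ⟨k, hk⟩ : ∃ k : ℕ, z.im ≤ y₁ * (1 + ε / 2) ^ (k + 1) := by
    have h1 : (1 : ℝ) < 1 + ε / 2 := by linarith
    obtain ⟨k, hk⟩ := pow_unbounded_of_one_lt (z.im / y₁) h1
    refine ⟨k, ?_⟩
    rw [div_lt_iff₀ hy₁0] at hk
    have h2 : (1 + ε / 2) ^ k ≤ (1 + ε / 2) ^ (k + 1) :=
      pow_le_pow_right₀ h1.le (Nat.le_succ k)
    nlinarith
  obtain ⟨W, hW1, hW2, hW3⟩ := hchain k z hre him hk
  have hE0 : 0 < Real.exp (-(c₀ * z.im)) := Real.exp_pos _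
  have hδ : ∀ i j, ‖(W - W₀) i j‖ ≤ 6 * C * Real.exp (-(c₀ * y₁)) := by
    intro i j
    have h1 := hW3 i j
    rw [Matrix.sub_apply]
    have h2 : 0 ≤ 4 * C * Real.exp (-(c₀ * z.im)) := by positivity
    linarith
  have hδ0 : 0 ≤ 6 * C * Real.exp (-(c₀ * y₁)) := by positivity
  have hΛW : Λ * W = 1 + Λ * (W - W₀) := by
    rw [Matrix.mul_sub, hΛ]
    abel
  have hsm : ∀ a b, ‖(Λ * (W - W₀)) a b‖ ≤ 1 / (2 * (r : ℝ)) := by
    intro a b
    have hr1 : 1 ≤ r := by
      have := a.2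
      omega
    have hr1' : (1 : ℝ) ≤ r := by exact_mod_cast hr1
    have hrn' : (r : ℝ) ≤ n := by exact_mod_cast hrn
    refine (mul_entries hΛb hδ a b).trans ?_
    rw [one_mul]
    have h1 : (n : ℝ) * (6 * C * Real.exp (-(c₀ * y₁))) ≤ n * (1 / (2 * ((n : ℝ) + 1) ^ 2)) :=
      mul_le_mul_of_nonneg_left hy₁e (Nat.cast_nonneg n)
    refine h1.trans ?_
    rw [mul_one_div, div_le_div_iff₀ (by positivity) (by positivity)]
    nlinarith
  obtain ⟨hu, hinv⟩ := small_inv (Λ * (W - W₀)) hsm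
  refine ⟨W, hW1, hW2, by rw [hΛW]; exact hu, fun i j => ?_⟩
  refine mul_entries (a := 2) (b := 2) ?_ ?_ i j
  · intro i j
    have h1 := hδ i j
    rw [Matrix.sub_apply] at h1
    have h3 : ‖W i j‖ ≤ ‖W i j - W₀ i j‖ + ‖W₀ i j‖ := by
      have := norm_add_le (W i j - W₀ i j) (W₀ i j)
      simpa using this
    have h4 := hW₀b i j
    linarith
  · rw [hΛW]
    exact hinv

end MP2794d1
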