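import Pool.Agent.Lib.MP_2794d1_ag.R02
import Pool.Agent.Lib.MP_2794d1_ag.F01

/-!
R03: The normalised frame. For im z > Y the matrix G with Λ G = 1 and range G = Ψ p z exists and is unique: existence in
|re z| ≤ 1 from frame_chain, G = W (ΛW)⁻¹; in general Ψ p (z + 1) = Ψ p z (F_shift with m = 1 and uexp_add), so Ψ p z =
Ψ p (z - m) with |re z - m| ≤ 1; uniqueness: G' = G C (range G' ≤ range G), Λ G' = Λ G C gives C = 1. Define G z by choice for
im z > Y and 0 otherwise: then G (z+1) = G z. Analytic: near z₁ take the frame W of V.hol p z₁, Ŵ z = uexp N (-z) * W z, a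
frame of Ψ p z; G z₁ = Ŵ z₁ C with C invertible and Λ Ŵ z₁ C = 1, so Λ Ŵ z₁ is invertible and near z₁ G z = Ŵ (ΛŴ)⁻¹
(uniqueness), analytic by f01_mul, f01_inv.
-/

namespace MP2794d1

open Matrix Complex Filter Topology
open scoped ContDiff

theorem R03_factor {n r s : ℕ} {G : Matrix (Fin n) (Fin r) ℂ} {G' : Matrix (Fin n) (Fin s) ℂ}
    (h : LinearMap.range G'.mulVecLin ≤ LinearMap.range G.mulVecLin) :
    ∃ C : Matrix (Fin r) (Fin s) ℂ, G' = G * C := by
  have h1 : ∀ j : Fin s, ∃ c : Fin r → ℂ, G *ᵥ c = fun i => G' i j := by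
    intro j
    have h2 : (fun i => G' i j) ∈ LinearMap.range G'.mulVecLin := by
      refine ⟨Pi.single j 1, ?_⟩
      rw [Matrix.mulVecLin_apply]
      ext i
      simp
    exact h h2
  choose C hC using h1
  refine ⟨Matrix.of fun i j => C j i, ?_⟩
  ext i j
  have h2 := congrFun (hC j) i
  rw [Matrix.mul_apply, ← h2]
  rfl

theorem R03_unique {n r : ℕ} {Λ : Matrix (Fin r) (Fin n) ℂ} {G G' : Matrix (Fin n) (Fin r) ℂ}
    (h : Λ * G = 1) (h' : Λ * G' = 1)
    (hr : LinearMap.range G'.mulVecLin = LinearMap.range G.mulVecLin) : G' = G := by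
  obtain ⟨C, hC⟩ := R03_factor hr.le
  have h1 : Λ * G' = C := by rw [hC, ← Matrix.mul_assoc, h, Matrix.one_mul]
  rw [h'] at h1
  rw [hC, ← h1, Matrix.mul_one]

theorem R03_range {n r : ℕ} (W : Matrix (Fin n) (Fin r) ℂ) (C : Matrix (Fin r) (Fin r) ℂ)
    (hC : IsUnit C.det) :
    LinearMap.range (W * C).mulVecLin = LinearMap.range W.mulVecLin := by
  apply le_antisymm
  · rintro _ ⟨x, rfl⟩
    refine ⟨C *ᵥ x, ?_⟩
    rw [Matrix.mulVecLin_apply, Matrix.mulVecLin_apply, Matrix.mulVec_mulVec]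
  · rintro _ ⟨x, rfl⟩
    refine ⟨C⁻¹ *ᵥ x, ?_⟩
    rw [Matrix.mulVecLin_apply, Matrix.mulVecLin_apply, Matrix.mulVec_mulVec, Matrix.mul_assoc,
      Matrix.mul_nonsing_inv _ hC, Matrix.mul_one]

theorem R03_finrank {n r : ℕ} {W : Matrix (Fin n) (Fin r) ℂ} (h : LinearIndependent ℂ Wᵀ) :
    Module.finrank ℂ (LinearMap.range W.mulVecLin) = r := by
  have h1 : Function.Injective W.mulVecLin := Matrix.mulVec_injective_iff.2 h
  rw [LinearMap.finrank_range_of_inj h1]
  simp

theorem R03_indep {n r : ℕ} {Λ : Matrix (Fin r) (Fin n) ℂ} {W : Matrix (Fin n) (Fin r) ℂ}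
    (h : Λ * W = 1) : LinearIndependent ℂ Wᵀ := by
  have h1 : Function.Injective W.mulVec := by
    intro x y hxy
    have h2 := congrArg (fun v => Λ *ᵥ v) hxy
    simpa [Matrix.mulVec_mulVec, h] using h2
  exact Matrix.mulVec_injective_iff.1 h1

theorem R03_Psi_shift {n : ℕ} (V : PolVHS n) (c : UCusp V) (p : ℤ) (z : ℂ) (hz : 0 < z.im) :
    Psi V (cm c.N) p (z + 1) = Psi V (cm c.N) p z := by
  have hN : cm c.N ^ n = 0 := cm_pow c.N c.nil
  have h1 := F_shift V c 1 p z hz
  rw [Nat.cast_one] at h1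
  unfold Psi
  rw [h1, ← Submodule.map_comp, ← Matrix.mulVecLin_mul, ← uexp_add _ hN]
  congr 3
  ring

theorem R03_Psi_int {n : ℕ} (V : PolVHS n) (c : UCusp V) (p : ℤ) (z : ℂ) (hz : 0 < z.im) (m : ℤ) :
    Psi V (cm c.N) p (z + m) = Psi V (cm c.N) p z := by
  classical
  have h1 : Function.Periodic (fun z : ℂ => if 0 < z.im then Psi V (cm c.N) p z else ⊥) 1 := by
    intro w
    show (if 0 < (w + 1).im then Psi V (cm c.N) p (w + 1) else ⊥) =
      if 0 < w.im then Psi V (cm c.N) p w else ⊥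
    have h2 : (w + 1).im = w.im := by simp
    rw [h2]
    split_ifs with h3
    · exact R03_Psi_shift V c p w h3
    · rfl
  have h2 := h1.int_mul m z
  simp only [mul_one] at h2
  have h3 : (z + (m : ℂ)).im = z.im := by simp
  rw [h3, if_pos hz, if_pos hz] at h2
  exact h2

theorem R03_uexp_analytic {n : ℕ} (N : Matrix (Fin n) (Fin n) ℂ) (z₀ : ℂ) (i j : Fin n) :
    AnalyticAt ℂ (fun z => uexp N (-z) i j) z₀ := by
  have h1 : (fun z => uexp N (-z) i j) =
      fun z : ℂ => ∑ k ∈ Finset.range n, ((-z) ^ k / (k.factorial : ℂ)) * (N ^ k) i j := by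
    funext z
    unfold uexp
    rw [Matrix.sum_apply]
    rfl
  rw [h1]
  exact Finset.analyticAt_fun_sum _ fun k _ =>
    ((analyticAt_id.neg.pow k).div_const).mul analyticAt_const

theorem normal_frame {n : ℕ} (V : PolVHS n) (c : UCusp V) (p : ℤ) :
    ∃ (r : ℕ) (Λ : Matrix (Fin r) (Fin n) ℂ) (Y B : ℝ) (G : ℂ → Matrix (Fin n) (Fin r) ℂ),
      1 ≤ Y ∧ (∀ z : ℂ, G (z + 1) = G z) ∧ ∀ z : ℂ, Y < z.im →
        (∀ i j, AnalyticAt ℂ (fun y => G y i j) z) ∧ Λ * G z = 1 ∧
        Psi V (cm c.N) p z = LinearMap.range (G z).mulVecLin ∧ ∀ i j, ‖G z i j‖ ≤ B := by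
  classical
  obtain ⟨r, Λ, Y, B, hY, hF⟩ := frame_chain V c p
  have hN : cm c.N ^ n = 0 := cm_pow c.N c.nil
  -- existence with bounds
  have hex : ∀ z : ℂ, Y < z.im → ∃ G : Matrix (Fin n) (Fin r) ℂ, (Λ * G = 1 ∧
      Psi V (cm c.N) p z = LinearMap.range G.mulVecLin) ∧ ∀ i j, ‖G i j‖ ≤ B := by
    intro z hz
    have hz0 : 0 < z.im := by linarith
    have h1 : |(z + ((-⌊z.re⌋ : ℤ) : ℂ)).re| ≤ 1 := by
      have h2 : (z + ((-⌊z.re⌋ : ℤ) : ℂ)).re = z.re - ⌊z.re⌋ := by
        simp [sub_eq_add_neg]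
      rw [h2, abs_le]
      have h3 := Int.floor_le z.re
      have h4 := Int.lt_floor_add_one z.re
      constructor <;> linarith
    have h2 : (z + ((-⌊z.re⌋ : ℤ) : ℂ)).im = z.im := by simp
    obtain ⟨W, hW1, hW2, hW3, hW4⟩ := hF (z + ((-⌊z.re⌋ : ℤ) : ℂ)) h1 (by rw [h2]; exact hz.le)
    rw [R03_Psi_int V c p z hz0] at hW2
    refine ⟨W * (Λ * W)⁻¹, ⟨?_, ?_⟩, hW4⟩
    · rw [← Matrix.mul_assoc, Matrix.mul_nonsing_inv _ hW3]
    · rw [hW2, R03_range W _ (by
        rw [Matrix.det_nonsing_inv]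
        exact hW3.ringInverse)]
  set g : Submodule ℂ (Fin n → ℂ) → Matrix (Fin n) (Fin r) ℂ := fun S =>
    if h : ∃ G : Matrix (Fin n) (Fin r) ℂ, Λ * G = 1 ∧ S = LinearMap.range G.mulVecLin
      then h.choose else 0 with hg
  set G : ℂ → Matrix (Fin n) (Fin r) ℂ := fun z =>
    if Y < z.im then g (Psi V (cm c.N) p z) else 0 with hGdef
  have hGspec : ∀ z : ℂ, Y < z.im → Λ * G z = 1 ∧
      Psi V (cm c.N) p z = LinearMap.range (G z).mulVecLin := by
    intro z hz
    obtain ⟨G1, hG1, -⟩ := hex z hz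
    have h1 : ∃ G : Matrix (Fin n) (Fin r) ℂ, Λ * G = 1 ∧
      Psi V (cm c.N) p z = LinearMap.range G.mulVecLin := ⟨G1, hG1⟩
    have h2 : G z = h1.choose := by
      simp only [hGdef, hg, if_pos hz, dif_pos h1]
    rw [h2]
    exact h1.choose_spec
  have hGuniq : ∀ z : ℂ, Y < z.im → ∀ G1 : Matrix (Fin n) (Fin r) ℂ, Λ * G1 = 1 →
      Psi V (cm c.N) p z = LinearMap.range G1.mulVecLin → G z = G1 := by
    intro z hz G1 h1 h2
    have h3 := hGspec z hz
    exact R03_unique h1 h3.1 (h3.2.symm.trans h2)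
  refine ⟨r, Λ, Y, B, G, hY, ?_, fun z hz => ?_⟩
  · intro z
    have h1 : (z + 1).im = z.im := by simp
    simp only [hGdef, h1]
    split_ifs with h2
    · rw [R03_Psi_shift V c p z (by linarith)]
    · rfl
  · have hz0 : 0 < z.im := by linarith
    obtain ⟨hG1, hG2⟩ := hGspec z hz
    refine ⟨?_, hG1, hG2, ?_⟩
    · -- analyticity
      obtain ⟨r', W, hW, hev⟩ := V.hol p z hz0
      set Wh : ℂ → Matrix (Fin n) (Fin r') ℂ := fun y => uexp (cm c.N) (-y) * W y with hWh
      have hrange : ∀ y : ℂ, V.F p y = LinearMap.range (W y).mulVecLin →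
          Psi V (cm c.N) p y = LinearMap.range (Wh y).mulVecLin := by
        intro y hy
        unfold Psi
        rw [hy, hWh, ← LinearMap.range_comp, ← Matrix.mulVecLin_mul]
      have hind : ∀ y : ℂ, LinearIndependent ℂ (W y)ᵀ → LinearIndependent ℂ (Wh y)ᵀ := by
        intro y hy
        have h1 : Function.Injective (W y).mulVec := Matrix.mulVec_injective_iff.2 hy
        have h2 : Function.Injective (Wh y).mulVec := by
          intro a b hab
          apply h1
          have h3 := congrArg (fun v => uexp (cm c.N) y *ᵥ v) hab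
          simp only [hWh, Matrix.mulVec_mulVec] at h3
          rw [← Matrix.mul_assoc, uexp_mul_neg _ hN, Matrix.one_mul] at h3
          exact h3
        exact Matrix.mulVec_injective_iff.1 h2
      have hself := hev.self_of_nhds
      have hrr : r = r' := by
        have h1 := R03_finrank (R03_indep hG1)
        have h2 := R03_finrank (hind z hself.1)
        rw [← hG2, hrange z hself.2] at h1
        exact h1.symm.trans h2
      subst hrr
      have hWhan : ∀ i j, AnalyticAt ℂ (fun y => Wh y i j) z :=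
        f01_mul (fun i j => R03_uexp_analytic (cm c.N) z i j) hW
      have hΛ : ∀ i j, AnalyticAt ℂ (fun y => (Λ * Wh y) i j) z :=
        f01_mul (fun i j => analyticAt_const) hWhan
      have hdet : (Λ * Wh z).det ≠ 0 := by
        obtain ⟨C, hC⟩ := R03_factor (G := Wh z) (G' := G z)
          (by rw [← hG2, hrange z hself.2])
        have h1 : (Λ * Wh z) * C = 1 := by rw [Matrix.mul_assoc, ← hC, hG1]
        have h2 := congrArg Matrix.det h1
        rw [Matrix.det_mul, Matrix.det_one] at h2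
        intro h3
        rw [h3, zero_mul] at h2
        exact zero_ne_one h2
      have han : ∀ i j, AnalyticAt ℂ (fun y => (Wh y * (Λ * Wh y)⁻¹) i j) z :=
        f01_mul hWhan (f01_inv hΛ hdet)
      have hdet' : ∀ᶠ y in 𝓝 z, (Λ * Wh y).det ≠ 0 :=
        (f01_det hΛ).continuousAt.eventually_ne hdet
      have him : ∀ᶠ y in 𝓝 z, Y < y.im :=
        Complex.continuous_im.continuousAt.eventually (eventually_gt_nhds hz)
      intro i j
      refine (han i j).congr ?_
      filter_upwards [hdet', him, hev] with y hy1 hy2 hy3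
      have hu : IsUnit (Λ * Wh y).det := isUnit_iff_ne_zero.2 hy1
      rw [hGuniq y hy2 (Wh y * (Λ * Wh y)⁻¹)]
      · rw [← Matrix.mul_assoc, Matrix.mul_nonsing_inv _ hu]
      · rw [hrange y hy3.2, R03_range (Wh y) _ (by
          rw [Matrix.det_nonsing_inv]
          exact hu.ringInverse)]
    · obtain ⟨G1, hG1', hG1b⟩ := hex z hz
      rw [hGuniq z hz G1 hG1'.1 hG1'.2]
      exact hG1b

end MP2794d1
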