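import Pool.Agent.Lib.MP_2794d1_ag.Base

/-!
Definitions for the Lie algebra part.
-/

namespace MP2794d1

open Matrix Complex Filter Topology

/-- A real Lie algebra `U` of real matrices with a real linear map `a` to vector fields `a(X) d/dX`
on the line, such that the trace form is negative on the isotropy at the point `u1`. -/
structure SlData {n : ℕ} (U : Submodule ℝ (Matrix (Fin n) (Fin n) ℂ))
    (a : Matrix (Fin n) (Fin n) ℂ →ₗ[ℝ] Polynomial ℂ) (u1 : ℂ) : Prop where
  real : ∀ X ∈ U, mconj X = X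
  closed : ∀ X ∈ U, ∀ Y ∈ U, br X Y ∈ U
  jet : ∀ X ∈ U, ∀ Y ∈ U, a (br X Y) =
    Polynomial.derivative (a X) * a Y - a X * Polynomial.derivative (a Y)
  neg : ∀ X ∈ U, (a X).eval u1 = 0 → X ≠ 0 → (Matrix.trace (X * X)).re < 0

end MP2794d1
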