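import Pool.Agent.Lib.MP_2794d1_ag.S05
import Pool.Agent.Lib.MP_2794d1_ag.F03

/-!
T01: If N commutes with all its conjugates, the coefficient b in conj_line is constant. By conj_line for every z there is b(z)
with N_g - b(z) N ∈ FEnd_z 0. On the strip F_y = uexp N (u y) F0 and uexp N s commutes with N and N_g (hcomm), so by FEnd_map_iff
N_g - b(y) N ∈ FEnd F0 0 for all y in the strip; N ∉ FEnd F0 0 (else N ∈ FEnd_y 0, N_not_mem), so b(y) = b is constant on the
strip, and cont_map (constant matrix N_g - b N, q = p, U = strip) gives all z.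
-/

namespace MP2794d1

open Matrix Complex Filter Topology
open scoped ContDiff

theorem conj_const {n : ℕ} (V : PolVHS n) (c : Cusp V) (hN : c.N ≠ 0) {a : ℝ}
    {u : ℂ → ℂ} {F0 : ℤ → Submodule ℂ (Fin n → ℂ)} (h : StageOne V c a u F0) (g : V.grp)
    (hcomm : c.N * c.conj g = c.conj g * c.N) :
    ∃ b : ℂ, ∀ z : ℂ, 0 < z.im → cm (c.conj g) - b • cm c.N ∈ FEnd (fun p => V.F p z) 0 := by
  obtain ⟨y1, hy1, hy2, -⟩ := h.ne
  have hy0 : 0 < y1.im := lt_of_le_of_lt h.ha hy2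
  obtain ⟨b, hb⟩ := conj_line V c hN g h y1 hy0
  have hnil := cm_pow c.N c.nil
  have hc : cm (c.conj g) * cm c.N = cm c.N * cm (c.conj g) := by
    rw [← S01_cm_mul, ← S01_cm_mul, hcomm]
  have hX : (cm (c.conj g) - b • cm c.N) * cm c.N = cm c.N * (cm (c.conj g) - b • cm c.N) := by
    rw [Matrix.sub_mul, Matrix.mul_sub, hc, Matrix.smul_mul, Matrix.mul_smul]
  have hconj : ∀ s : ℂ, uexp (cm c.N) (-s) * (cm (c.conj g) - b • cm c.N) * uexp (cm c.N) s =
      cm (c.conj g) - b • cm c.N := by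
    intro s
    rw [Matrix.mul_assoc, uexp_comm (cm c.N) _ hX, ← Matrix.mul_assoc,
      uexp_neg_mul _ hnil, Matrix.one_mul]
  have hF0 : cm (c.conj g) - b • cm c.N ∈ FEnd F0 0 := by
    have h1 := (FEnd_map_iff (cm c.N) hnil (u y1) F0 (fun p => V.F p y1)
      (fun p => h.eq y1 hy1 hy2 p) _ 0).1 hb
    rwa [hconj] at h1
  have hstrip : ∀ y : ℂ, |y.re| < 1 → a < y.im →
      cm (c.conj g) - b • cm c.N ∈ FEnd (fun p => V.F p y) 0 := by
    intro y h1 h2
    refine (FEnd_map_iff (cm c.N) hnil (u y) F0 (fun p => V.F p y)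
      (fun p => h.eq y h1 h2 p) _ 0).2 ?_
    rwa [hconj]
  refine ⟨b, fun z hz p x hx => ?_⟩
  have h3 := cont_map V (fun _ => cm (c.conj g) - b • cm c.N)
    (fun i j z _ => analyticAt_const) p p {y : ℂ | |y.re| < 1 ∧ a < y.im} (S05_open a)
    ⟨y1, hy1, hy2⟩ (fun y hy => lt_of_le_of_lt h.ha hy.2)
    (fun y hy x hx => by
      have h4 := hstrip y hy.1 hy.2 p x hx
      simpa using h4) z hz x hx
  show (cm (c.conj g) - b • cm c.N) *ᵥ x ∈ V.F (p + 0) z
  rw [add_zero]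
  exact h3

end MP2794d1
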