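import Pool.Agent.Lib.MP_2794d1_ag.T03
import Pool.Agent.Lib.MP_2794d1_ag.K02
import Pool.Agent.Lib.MP_2794d1_ag.E08

/-!
T04: Db B = br (mconj θ) B for B = BV V N. With φ = Db J = - mconj θ: Db B = (1/2)(br φ (br J N) + br J (br φ N) - br φ N);
br J φ = φ (JV_br') and the Jacobi identity (E08_jacobi) give br J (br φ N) = br φ N + br φ (br J N), so Db B = br φ (br J N). Now
br J N = -B + mconj B: in an adapted basis the entry of br J N is δ x a b, δ = d a - d b ∈ {-1,0,1}; mconj B = the component of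
degree +1 of N (mconj of the formula of B with mconj J = wt - J, mconj N = N: mconj B = (1/2)(br J (br J N) + br J N)), so the
difference mconj B - B = br J N. And br φ (mconj B) = -mconj (br θ B) = 0 as θ = b B. So Db B = -br φ B = br (mconj θ) B.
BV_dz: differentiate br J B = -B with Dz: br θ B + br J (Dz B) = - Dz B with br θ B = 0. Skewness of Dz B: differentiate
Bᵀ Q + Q B = 0.
-/

namespace MP2794d1

open Matrix Complex Filter Topology
open scoped ContDiff

theorem T04_neg_br {n : ℕ} (X Y : Matrix (Fin n) (Fin n) ℂ) : br (-X) Y = -br X Y := by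
  simp only [br]
  noncomm_ring

theorem T04_br_self {n : ℕ} (X : Matrix (Fin n) (Fin n) ℂ) : br X X = 0 := by
  simp [br]

theorem T04_smul_br {n : ℕ} (c : ℂ) (X Y : Matrix (Fin n) (Fin n) ℂ) :
    br (c • X) Y = c • br X Y := by
  simp only [br, Matrix.mul_smul, Matrix.smul_mul, smul_sub]

theorem T04_wt_br {n : ℕ} (c : ℂ) (J X : Matrix (Fin n) (Fin n) ℂ) :
    br (c • (1 : Matrix (Fin n) (Fin n) ℂ) - J) X = -br J X := by
  simp only [br, Matrix.sub_mul, Matrix.mul_sub, Matrix.smul_mul, Matrix.mul_smul, Matrix.one_mul,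
    Matrix.mul_one]
  abel

theorem T04_mconj_smul {n : ℕ} (c : ℂ) (X : Matrix (Fin n) (Fin n) ℂ) :
    mconj (c • X) = (starRingEnd ℂ) c • mconj X := by
  ext i j
  simp [mconj]

theorem T04_conjB {n : ℕ} (V : PolVHS n) {N : Matrix (Fin n) (Fin n) ℂ} (hN : mconj N = N) {z : ℂ}
    (hz : 0 < z.im) : mconj (BV V N z) - BV V N z = br (JV V z) N := by
  unfold BV
  have h2 : (starRingEnd ℂ) (1 / 2 : ℂ) = 1 / 2 := by
    rw [map_div₀, map_one, Complex.conj_ofNat]
  rw [T04_mconj_smul, h2, E08_mconj_sub, E08_mconj_br, E08_mconj_br, hN, JV_conj V hz, T04_wt_br,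
    T04_wt_br, E08_br_neg, neg_neg, ← smul_sub]
  have e : br (JV V z) (br (JV V z) N) - -br (JV V z) N -
      (br (JV V z) (br (JV V z) N) - br (JV V z) N) = (2 : ℂ) • br (JV V z) N := by
    rw [two_smul]
    abel
  rw [e, smul_smul]
  norm_num

theorem BV_db {n : ℕ} (V : PolVHS n) (c : Cusp V) (hN : c.N ≠ 0) {a : ℝ}
    {u : ℂ → ℂ} {F0 : ℤ → Submodule ℂ (Fin n → ℂ)} (h : StageOne V c a u F0) {z : ℂ}
    (hz : 0 < z.im) :
    Db (BV V (cm c.N)) z = br (mconj (TV V z)) (BV V (cm c.N) z) ∧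
    br (TV V z) (BV V (cm c.N) z) = 0 ∧
    br (JV V z) (Dz (BV V (cm c.N)) z) = -Dz (BV V (cm c.N)) z ∧
    Skew V.Q (Dz (BV V (cm c.N)) z) := by
  obtain ⟨p1, p2, p3, p4, p5, b, p6⟩ := BV_props V c hN h hz
  have hJ := JV_smooth V hz
  have hθB : br (TV V z) (BV V (cm c.N) z) = 0 := by
    rw [p6, T04_smul_br, T04_br_self, smul_zero]
  refine ⟨?_, hθB, ?_, ?_⟩
  · have s1 := hJ.br (SmA.const (cm c.N))
    have s2 := hJ.br s1
    have e1 : Db (BV V (cm c.N)) z = (1 / 2 : ℂ) •
        (br (Db (JV V) z) (br (JV V z) (cm c.N)) + br (JV V z) (br (Db (JV V) z) (cm c.N)) -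
          br (Db (JV V) z) (cm c.N)) := by
      have e2 : BV V (cm c.N) = fun y => (1 / 2 : ℂ) •
          (br (JV V y) (br (JV V y) (cm c.N)) - br (JV V y) (cm c.N)) := rfl
      rw [e2, Db_smulc _ (s2.sub s1), Db_sub s2 s1, Db_br hJ s1, Db_br hJ (SmA.const (cm c.N)),
        Db_const, E08_br_zero, add_zero]
    have e3 : br (JV V z) (br (Db (JV V) z) (cm c.N)) = br (Db (JV V) z) (cm c.N) +
        br (Db (JV V) z) (br (JV V z) (cm c.N)) := by
      have e4 : br (JV V z) (Db (JV V) z) = Db (JV V) z := by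
        rw [JV_db V hz, E08_br_neg, JV_br' V hz]
      conv_lhs => rw [E08_jacobi, e4]
    have e5 : Db (BV V (cm c.N)) z = br (Db (JV V) z) (br (JV V z) (cm c.N)) := by
      rw [e1, e3]
      have e6 : br (Db (JV V) z) (br (JV V z) (cm c.N)) + (br (Db (JV V) z) (cm c.N) +
          br (Db (JV V) z) (br (JV V z) (cm c.N))) - br (Db (JV V) z) (cm c.N) =
          (2 : ℂ) • br (Db (JV V) z) (br (JV V z) (cm c.N)) := by
        rw [two_smul]
        abel
      rw [e6, smul_smul]
      norm_num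
    have e7 : br (mconj (TV V z)) (mconj (BV V (cm c.N) z)) = 0 := by
      rw [← E08_mconj_br, hθB]
      ext i j
      simp [mconj]
    rw [e5, ← T04_conjB V (mconj_cm c.N) hz, JV_db V hz, T04_neg_br, E08_br_sub, e7, zero_sub,
      neg_neg]
  · have e1 : Dz (fun y => br (JV V y) (BV V (cm c.N) y)) z =
        Dz (fun y => (-1 : ℂ) • BV V (cm c.N) y) z := by
      apply Dz_congr
      filter_upwards [(isOpen_lt continuous_const Complex.continuous_im).mem_nhds
        (show z ∈ {y : ℂ | 0 < y.im} from hz)] with y hy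
      rw [(BV_props V c hN h hy).1, neg_one_smul]
    rw [Dz_br hJ p5, Dz_smulc _ p5, neg_one_smul] at e1
    have e2 : br (Dz (JV V) z) (BV V (cm c.N) z) = 0 := hθB
    rw [e2, zero_add] at e1
    exact e1
  · have e1 : Dz (fun y => (BV V (cm c.N) y)ᵀ * im V.Q + im V.Q * BV V (cm c.N) y) z =
        Dz (fun _ => (0 : Matrix (Fin n) (Fin n) ℂ)) z := by
      apply Dz_congr
      filter_upwards [(isOpen_lt continuous_const Complex.continuous_im).mem_nhds
        (show z ∈ {y : ℂ | 0 < y.im} from hz)] with y hy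
      exact (BV_props V c hN h hy).2.1
    rw [Dz_const, Dz_add (p5.transpose.mul (SmA.const _)) ((SmA.const _).mul p5),
      Dz_mul p5.transpose (SmA.const _), Dz_mul (SmA.const _) p5, Dz_const, Dz_transpose,
      Matrix.mul_zero, add_zero, Matrix.zero_mul, zero_add] at e1
    exact e1

end MP2794d1
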