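import Pool.Agent.Lib.MP_2794d1_ag.T04
import Pool.Agent.Lib.MP_2794d1_ag.K03

/-!
T05: Bochner inequality for ψ = trace (B mconj B), B = BV V N, θ = b B. dz ψ = trace (Dz B mconj B) + trace (B mconj (Db B)),
mconj (Db B) = br θ (mconj B) and trace (B br θ (mconj B)) = trace (br B θ mconj B) = 0. db (dz ψ) = trace (Db (Dz B) mconj B) +
trace (Dz B mconj (Dz B)); Db (Dz B) = Dz (Db B) = Dz (br (mconj θ) B) = br (mconj (Db θ)) B + br (mconj θ) (Dz B); the trace of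
br (mconj θ) (Dz B) * mconj B vanishes as mconj θ, mconj B commute; mconj (Db θ) = -Db θ = br θ (mconj θ) = |b|² K with
K = br B (mconj B); trace (br K B * mconj B) = trace (K * br B (mconj B)) = trace (K K). So db (dz ψ) = |b|² trace (K K) +
trace (Dz B mconj (Dz B)). K is skew of degree 0, mconj K = -K, trace (K J) = trace (B br (mconj B) J) = -ψ, so cs0 gives
kc V ψ² ≤ (trace K K).re (as in K03), and cs1 gives ‖dz ψ‖² ≤ (trace (Dz B mconj (Dz B))).re ψ.
-/

namespace MP2794d1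

open Matrix Complex Filter Topology
open scoped ContDiff

theorem T05_dz {n : ℕ} (V : PolVHS n) (c : Cusp V) (hN : c.N ≠ 0) {a : ℝ}
    {u : ℂ → ℂ} {F0 : ℤ → Submodule ℂ (Fin n → ℂ)} (h : StageOne V c a u F0) {z : ℂ}
    (hz : 0 < z.im) : dz (fun y => Matrix.trace (BV V (cm c.N) y * mconj (BV V (cm c.N) y))) z =
      Matrix.trace (Dz (BV V (cm c.N)) z * mconj (BV V (cm c.N) z)) := by
  obtain ⟨p1, p2, p3, p4, p5, b, p6⟩ := BV_props V c hN h hz
  obtain ⟨q1, q2, q3, q4⟩ := BV_db V c hN h hz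
  rw [dz_trace (p5.mul p5.mconj), Dz_mul p5 p5.mconj, Dz_mconj p5, q1, Matrix.trace_add,
    E08_mconj_br, E08_mconj_mconj, E08_trace, E08_br_swap, q2, neg_zero, Matrix.zero_mul,
    Matrix.trace_zero, add_zero]

theorem T05_lap {n : ℕ} (V : PolVHS n) (c : Cusp V) (hN : c.N ≠ 0) {a : ℝ}
    {u : ℂ → ℂ} {F0 : ℤ → Submodule ℂ (Fin n → ℂ)} (h : StageOne V c a u F0) {z : ℂ}
    (hz : 0 < z.im) (b : ℂ) (hb : TV V z = b • BV V (cm c.N) z) :
    db (dz (fun y => Matrix.trace (BV V (cm c.N) y * mconj (BV V (cm c.N) y)))) z =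
      (b * (starRingEnd ℂ) b) * Matrix.trace (br (BV V (cm c.N) z) (mconj (BV V (cm c.N) z)) *
        br (BV V (cm c.N) z) (mconj (BV V (cm c.N) z))) +
      Matrix.trace (Dz (BV V (cm c.N)) z * mconj (Dz (BV V (cm c.N)) z)) := by
  obtain ⟨p1, p2, p3, p4, p5, b', p6⟩ := BV_props V c hN h hz
  obtain ⟨q1, q2, q3, q4⟩ := BV_db V c hN h hz
  have hT := TV_smooth V hz
  have hnhds : ∀ᶠ y in 𝓝 z, 0 < y.im :=
    (isOpen_lt continuous_const Complex.continuous_im).mem_nhds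
      (show z ∈ {y : ℂ | 0 < y.im} from hz)
  have e0 : db (dz (fun y => Matrix.trace (BV V (cm c.N) y * mconj (BV V (cm c.N) y)))) z =
      db (fun y => Matrix.trace (Dz (BV V (cm c.N)) y * mconj (BV V (cm c.N) y))) z := by
    apply db_congr
    filter_upwards [hnhds] with y hy
    exact T05_dz V c hN h hy
  have e1 : Db (Dz (BV V (cm c.N))) z = br (mconj (Db (TV V) z)) (BV V (cm c.N) z) +
      br (mconj (TV V z)) (Dz (BV V (cm c.N)) z) := by
    rw [← Dz_Db_comm p5, ← Dz_mconj hT, ← Dz_br hT.mconj p5]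
    apply Dz_congr
    filter_upwards [hnhds] with y hy
    exact (BV_db V c hN h hy).1
  have e2 : Matrix.trace (br (mconj (TV V z)) (Dz (BV V (cm c.N)) z) *
      mconj (BV V (cm c.N) z)) = 0 := by
    rw [E08_br_swap, Matrix.neg_mul, Matrix.trace_neg, ← E08_trace, ← E08_mconj_br, q2]
    have e3 : mconj (0 : Matrix (Fin n) (Fin n) ℂ) = 0 := by
      ext i j
      simp [mconj]
    rw [e3, Matrix.mul_zero, Matrix.trace_zero, neg_zero]
  have e3 : mconj (Db (TV V) z) = (b * (starRingEnd ℂ) b) •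
      br (BV V (cm c.N) z) (mconj (BV V (cm c.N) z)) := by
    rw [TV_db_conj V hz, TV_db V hz, neg_neg, hb, T04_mconj_smul, T04_smul_br, E08_br_smul,
      smul_smul]
  rw [e0, db_trace (p5.Dz.mul p5.mconj), Db_mul p5.Dz p5.mconj, Db_mconj p5, Matrix.trace_add,
    e1, Matrix.add_mul, Matrix.trace_add, e2, add_zero, ← E08_trace, e3, Matrix.smul_mul,
    Matrix.trace_smul, smul_eq_mul]

theorem T05_conjbr {n : ℕ} (V : PolVHS n) {z : ℂ} (hz : 0 < z.im) {X : Matrix (Fin n) (Fin n) ℂ}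
    (h : br (JV V z) X = -X) : br (JV V z) (mconj X) = mconj X := by
  have h1 : mconj (br (JV V z) X) = mconj (-X) := by rw [h]
  rw [E08_mconj_br, JV_conj V hz, T04_wt_br] at h1
  have h2 : mconj (-X) = -mconj X := by
    ext i j
    simp [mconj]
  rw [h2] at h1
  exact neg_inj.mp h1

theorem psi_bochner {n : ℕ} (V : PolVHS n) (c : Cusp V) (hN : c.N ≠ 0) {a : ℝ}
    {u : ℂ → ℂ} {F0 : ℤ → Submodule ℂ (Fin n → ℂ)} (h : StageOne V c a u F0) {z : ℂ}
    (hz : 0 < z.im) (b : ℂ) (hb : TV V z = b • BV V (cm c.N) z) :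
    0 < (Matrix.trace (BV V (cm c.N) z * mconj (BV V (cm c.N) z))).re ∧
    ‖dz (fun y => Matrix.trace (BV V (cm c.N) y * mconj (BV V (cm c.N) y))) z‖ ^ 2 +
        kc V * ‖b‖ ^ 2 * (Matrix.trace (BV V (cm c.N) z * mconj (BV V (cm c.N) z))).re ^ 3 ≤
      (Matrix.trace (BV V (cm c.N) z * mconj (BV V (cm c.N) z))).re *
        (db (dz (fun y => Matrix.trace (BV V (cm c.N) y * mconj (BV V (cm c.N) y)))) z).re := by
  obtain ⟨p1, p2, p3, p4, p5, b', p6⟩ := BV_props V c hN h hz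
  obtain ⟨q1, q2, q3, q4⟩ := BV_db V c hN h hz
  have hμ := JV_gr V hz
  have hcB := T05_conjbr V hz p1
  set B := BV V (cm c.N) z with hB
  have hpos : 0 < (Matrix.trace (B * mconj B)).re := by
    have h1 := pos1 (V.phs z hz) hμ (mconj B) p2.mconj hcB (by
      intro h0
      apply p4
      have h2 : mconj (mconj B) = mconj 0 := by rw [h0]
      rw [E08_mconj_mconj] at h2
      rw [h2]
      ext i j
      simp [mconj])
    rw [E08_mconj_mconj, Matrix.trace_mul_comm] at h1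
    exact h1
  refine ⟨hpos, ?_⟩
  have hK1 : Skew V.Q (br B (mconj B)) := p2.br p2.mconj
  have hK2 : br (JV V z) (br B (mconj B)) = 0 := by
    rw [E08_jacobi, p1, hcB, T04_neg_br]
    abel
  have hK3 : mconj (br B (mconj B)) = -br B (mconj B) := by
    rw [E08_mconj_br, E08_mconj_mconj, E08_br_swap]
  have hK4 : Matrix.trace (br B (mconj B) * JV V z) = -Matrix.trace (B * mconj B) := by
    rw [← E08_trace, E08_br_swap, hcB, Matrix.mul_neg, Matrix.trace_neg]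
  obtain ⟨c1, c2⟩ := cs0 (V.phs z hz) hμ (V.F_lo z hz) (V.F_hi z hz) _ hK1 hK2 hK3
  have c3 := cs1 (V.phs z hz) hμ (Dz (BV V (cm c.N)) z) B q4 p2 q3 p1
  rw [hK4, norm_neg] at c1
  have hre : ‖Matrix.trace (B * mconj B)‖ = (Matrix.trace (B * mconj B)).re := by
    have h1 : Matrix.trace (B * mconj B) = (((Matrix.trace (B * mconj B)).re : ℝ) : ℂ) := by
      apply Complex.ext
      · simp
      · simp [trace_conj_im B]
    conv_lhs => rw [h1, Complex.norm_real, Real.norm_of_nonneg hpos.le]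
  rw [hre] at c1
  rw [T05_dz V c hN h hz, T05_lap V c hN h hz b hb, ← hB]
  have e1 : b * (starRingEnd ℂ) b = ((‖b‖ ^ 2 : ℝ) : ℂ) := by
    rw [Complex.mul_conj, Complex.normSq_eq_norm_sq]
  rw [e1, Complex.add_re, Complex.re_ofReal_mul]
  set ψ := (Matrix.trace (B * mconj B)).re with hψ
  set t := (Matrix.trace (br B (mconj B) * br B (mconj B))).re with ht
  set r := (Matrix.trace (Dz (BV V (cm c.N)) z * mconj (Dz (BV V (cm c.N)) z))).re with hr
  have hX : (0 : ℝ) ≤ (n : ℝ) * (|(V.lo : ℝ)| + |(V.hi : ℝ)|) ^ 2 := by positivity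
  have hk : kc V * ψ ^ 2 ≤ t := by
    unfold kc
    rw [div_mul_eq_mul_div, one_mul, div_le_iff₀ (by linarith)]
    nlinarith [mul_nonneg hX c2]
  have hb2 : 0 ≤ ‖b‖ ^ 2 := by positivity
  have hfin : kc V * ‖b‖ ^ 2 * ψ ^ 3 ≤ ψ * (‖b‖ ^ 2 * t) := by
    have h1 : kc V * ‖b‖ ^ 2 * ψ ^ 3 = ψ * (‖b‖ ^ 2 * (kc V * ψ ^ 2)) := by ring
    rw [h1]
    exact mul_le_mul_of_nonneg_left (mul_le_mul_of_nonneg_left hk hb2) hpos.le
  have h3 : ψ * (‖b‖ ^ 2 * t + r) = ψ * (‖b‖ ^ 2 * t) + r * ψ := by ring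
  rw [h3]
  linarith

end MP2794d1
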