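import Pool.Agent.Lib.MP_2794d1_ag.W01
import Pool.Agent.Lib.MP_2794d1_ag.T00
import Pool.Agent.Lib.MP_2794d1_ag.K06
import Pool.Agent.Lib.MP_2794d1_ag.F07

/-!
T09: SubL is invariant under Moebius maps: for g y = (f y : ℂ), (db (dz g)).re = Δf/4 (dz_real); by dz_comp, db_comp, db_mul,
db_hol (σ' = deriv (mob σ) is analytic), near w: dz (g ∘ σ) = (dz g ∘ σ) σ', db (dz (g ∘ σ)) w = db (dz g) (σ w) |σ' w|².
-/

namespace MP2794d1

open Matrix Complex Filter Topology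
open scoped ContDiff

theorem SubL.comp {f : ℂ → ℝ} (hf : SubL f) (σ : Matrix.SpecialLinearGroup (Fin 2) ℝ) :
    SubL (fun w => f (mob σ w)) := by
  intro w hw
  have hσ : ∀ y : ℂ, 0 < y.im → AnalyticAt ℂ (mob σ) y := fun y hy => (mob_analytic σ y hy).1
  have hfs : ContDiffAt ℝ ∞ (fun w => f (mob σ w)) w :=
    (hf _ (mob_im_pos σ w hw)).1.comp w (smooth_of_analytic (hσ w hw))
  refine ⟨hfs, ?_⟩
  let g : ℂ → ℂ := fun y => ((f y : ℝ) : ℂ)
  have hg : ∀ y : ℂ, 0 < y.im → ContDiffAt ℝ ∞ g y := by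
    intro y hy
    have h1 : ContDiff ℝ ∞ (fun x : ℝ => (x : ℂ)) := Complex.ofRealCLM.contDiff
    exact h1.contDiffAt.comp y (hf y hy).1
  have hev : ∀ᶠ y in 𝓝 w, 0 < y.im :=
    (isOpen_lt continuous_const Complex.continuous_im).mem_nhds hw
  have h1 : dz (fun y => ((f (mob σ y) : ℝ) : ℂ)) =ᶠ[𝓝 w]
      fun y => dz g (mob σ y) * deriv (mob σ) y := by
    filter_upwards [hev] with y hy
    exact dz_comp (f := g) (σ := mob σ) (smooth_diff (hg _ (mob_im_pos σ y hy)))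
      (hσ y hy).differentiableAt
  have h2 : db (dz (fun y => ((f (mob σ y) : ℝ) : ℂ))) w =
      db (fun y => dz g (mob σ y) * deriv (mob σ) y) w := db_congr h1
  have hdg : ContDiffAt ℝ ∞ (dz g) (mob σ w) := smooth_dz (hg _ (mob_im_pos σ w hw))
  have hσw := hσ w hw
  have h3 : DifferentiableAt ℝ (fun y => dz g (mob σ y)) w :=
    smooth_diff (hdg.comp w (smooth_of_analytic hσw))
  have hderiv : AnalyticAt ℂ (deriv (mob σ)) w := hσw.deriv
  have h4 : DifferentiableAt ℝ (deriv (mob σ)) w := smooth_diff (smooth_of_analytic hderiv)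
  rw [db_mul h3 h4, db_hol hderiv.differentiableAt, mul_zero, add_zero,
    db_comp (smooth_diff hdg) hσw.differentiableAt, mul_assoc, Complex.conj_mul'] at h2
  have h5 := (dz_real hfs).2
  rw [h2] at h5
  have h6 := (dz_real (hf _ (mob_im_pos σ w hw)).1).2
  have h7 : (db (dz g) (mob σ w) * ((‖deriv (mob σ) w‖ : ℝ) : ℂ) ^ 2).re =
      (db (dz g) (mob σ w)).re * ‖deriv (mob σ) w‖ ^ 2 := by
    rw [← Complex.ofReal_pow, Complex.re_mul_ofReal]
  rw [h7] at h5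
  have h8 := (hf _ (mob_im_pos σ w hw)).2
  have h9 : 0 ≤ (db (dz g) (mob σ w)).re := by
    change 0 ≤ (db (dz fun y => ((f y : ℝ) : ℂ)) (mob σ w)).re
    rw [h6]
    linarith
  have h10 : 0 ≤ (db (dz g) (mob σ w)).re * ‖deriv (mob σ) w‖ ^ 2 := mul_nonneg h9 (sq_nonneg _)
  rw [h5] at h10
  linarith

end MP2794d1
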