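import Pool.Agent.Lib.MP_2794d1_ag.U01
import Pool.Agent.Lib.MP_2794d1_ag.U02
import Pool.Agent.Lib.MP_2794d1_ag.M02
import Pool.Agent.Lib.MP_2794d1_ag.L01

/-!
U03: Imaginary part versus complexity. Let z be a CM point with im z = y ≥ Y, A as in IsCMc with trace (A A') ≤ H², S adapted
at z, M = S⁻¹ A S with Frobenius norm ≤ H (rosati_frob). C_z = CV V z commutes with A (A commutes with the grading and
preserves the F^p, hence commutes with every Π p: A real and preserving F p and conj F(wt+1-p)). So C_z = ∑_k f k A^k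
(commutant_poly). N = cm c.N is real and skew. trace (N C_z N C_z) = ∑_{k,l} f k f l trace (N A^k N A^l). It is not 0: in the
basis S, S⁻¹NS = (n_ab), and the relation in tr_polar (with A = B = N real: entries K b a = (S⁻¹ mconj N S) b a =
-conj(n_ab) I^(2(d a - d b)) and mconj N = N) gives n_ba = -conj(n_ab) (-1)^(d a - d b); so trace(N C N C) =
∑ n_ab (-1)^(d b) n_ba (-1)^(d a) = -∑ |n_ab|² ≠ 0 as N ≠ 0. So some t = trace (N A^k N A^l) ≠ 0 with k, l < n; if m₀ > 0 is an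
integer with m₀ N integral, m₀² t is a nonzero integer, |t| ≥ 1/m₀². On the other hand |t| = |trace ((S⁻¹NS) M^k (S⁻¹NS) M^l)| ≤
n^4 (C/y)² H'^(k+l) n^(...) with H' = 1 + H (entries of S⁻¹NS ≤ C/y by MN_pow with j = 1, if n ≥ 2; for n ≤ 1, N = 0). So
y² ≤ C' (1 + H)^(2n).
-/

namespace MP2794d1

open Matrix Complex Filter Topology
open scoped ContDiff

theorem U03_nat {n : ℕ} (V : PolVHS n) (c : UCusp V) (m : ℕ) :
    (uexp (cm c.N) (m : ℂ))ᵀ * im V.Q * uexp (cm c.N) (m : ℂ) = im V.Q := by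
  have h1 := S01_flat V c.T
  rw [c.exp_eq] at h1
  induction m with
  | zero => rw [Nat.cast_zero, uexp_zero]; simp
  | succ m ih =>
    rw [Nat.cast_add, Nat.cast_one, uexp_add _ (cm_pow c.N c.nil), Matrix.transpose_mul]
    calc (uexp (cm c.N) 1)ᵀ * (uexp (cm c.N) (m : ℂ))ᵀ * im V.Q *
          (uexp (cm c.N) (m : ℂ) * uexp (cm c.N) 1)
        = (uexp (cm c.N) 1)ᵀ * ((uexp (cm c.N) (m : ℂ))ᵀ * im V.Q * uexp (cm c.N) (m : ℂ)) *
          uexp (cm c.N) 1 := by simp only [Matrix.mul_assoc]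
      _ = im V.Q := by rw [ih, h1]

theorem U03_all {n : ℕ} (V : PolVHS n) (c : UCusp V) (s : ℂ) :
    (uexp (cm c.N) s)ᵀ * im V.Q * uexp (cm c.N) s = im V.Q := by
  obtain ⟨P, hP⟩ := uexp_poly c.N
  ext i j
  set R : Polynomial ℂ := ∑ l, (∑ k, (P k i).map (algebraMap ℚ ℂ) * Polynomial.C (im V.Q k l)) *
    (P l j).map (algebraMap ℚ ℂ) with hR
  have hev : ∀ t : ℂ, R.eval t = ((uexp (cm c.N) t)ᵀ * im V.Q * uexp (cm c.N) t) i j := by
    intro t
    rw [hR, hP]
    simp only [Polynomial.eval_finset_sum, Polynomial.eval_mul, Polynomial.eval_C,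
      Matrix.mul_apply, Matrix.transpose_apply, Matrix.map_apply, Polynomial.eval_map_algebraMap]
  have hc : R = Polynomial.C (im V.Q i j) := by
    refine Polynomial.eq_of_infinite_eval_eq _ _ ?_
    refine (Set.infinite_range_of_injective (Nat.cast_injective (R := ℂ))).mono ?_
    rintro _ ⟨m, rfl⟩
    show R.eval (m : ℂ) = (Polynomial.C (im V.Q i j)).eval (m : ℂ)
    rw [hev, U03_nat, Polynomial.eval_C]
  rw [← hev, hc, Polynomial.eval_C]

theorem U03_skew {n : ℕ} (V : PolVHS n) (c : UCusp V) : Skew V.Q (cm c.N) := by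
  have hN := cm_pow c.N c.nil
  have hall := U03_all V c
  set N := cm c.N with hNdef
  unfold Skew
  ext i j
  have hd : HasDerivAt (fun s => ∑ l, (∑ k, uexp N s k i * im V.Q k l) * uexp N s l j)
      (∑ l, ((∑ k, (N * uexp N 0) k i * im V.Q k l) * uexp N 0 l j +
        (∑ k, uexp N 0 k i * im V.Q k l) * (N * uexp N 0) l j)) 0 :=
    HasDerivAt.fun_sum fun l _ =>
      (HasDerivAt.fun_sum fun k _ => (uexp_deriv N hN 0 k i).mul_const (im V.Q k l)).mul
        (uexp_deriv N hN 0 l j)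
  have hconst : (fun s => ∑ l, (∑ k, uexp N s k i * im V.Q k l) * uexp N s l j) =
      fun _ => im V.Q i j := by
    funext s
    have := congrFun (congrFun (hall s) i) j
    rw [← this]
    simp only [Matrix.mul_apply, Matrix.transpose_apply]
  rw [hconst] at hd
  have h0 := hd.unique (hasDerivAt_const (0 : ℂ) (im V.Q i j))
  rw [uexp_zero, Matrix.mul_one, Finset.sum_add_distrib] at h0
  have e1 : ∑ l, (∑ k, N k i * im V.Q k l) * (1 : Matrix (Fin n) (Fin n) ℂ) l j =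
      (Nᵀ * im V.Q * (1 : Matrix (Fin n) (Fin n) ℂ)) i j := by
    simp only [Matrix.mul_apply, Matrix.transpose_apply]
  have e2 : ∑ l, (∑ k, (1 : Matrix (Fin n) (Fin n) ℂ) k i * im V.Q k l) * N l j =
      ((1 : Matrix (Fin n) (Fin n) ℂ)ᵀ * im V.Q * N) i j := by
    simp only [Matrix.mul_apply, Matrix.transpose_apply]
  rw [e1, e2, Matrix.mul_one, Matrix.transpose_one, Matrix.one_mul] at h0
  exact h0

/-- the entries of a real skew matrix in an adapted basis -/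
theorem U03_rel {n : ℕ} {wt : ℤ} {Q : Matrix (Fin n) (Fin n) ℤ}
    {Fl : ℤ → Submodule ℂ (Fin n → ℂ)} {S : Matrix (Fin n) (Fin n) ℂ} {d : Fin n → ℤ}
    (hS : Adapted wt Q Fl S d) (X : Matrix (Fin n) (Fin n) ℂ) (hX : Skew Q X)
    (hXr : mconj X = X) (a b : Fin n) :
    (S⁻¹ * X * S) b a =
      -((starRingEnd ℂ) ((S⁻¹ * X * S) a b) * Complex.I ^ (2 * (d a - d b))) := by
  have hSu : IsUnit S.det := hS.inv
  have hSS : S * S⁻¹ = 1 := Matrix.mul_nonsing_inv S hSu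
  have hT : mconj S * mconj S⁻¹ = 1 := by rw [← e06_mul, hSS, e06_one]
  have hSt : S⁻¹ᵀ * Sᵀ = 1 := by rw [← Matrix.transpose_mul, hSS, Matrix.transpose_one]
  set D : Matrix (Fin n) (Fin n) ℂ := Matrix.diagonal (fun a => Complex.I ^ (wt - 2 * d a)) with hD
  have hon : Sᵀ * im Q * mconj S = D := hS.on
  set x := S⁻¹ * X * S with hx
  set z := mconj S⁻¹ * X * mconj S with hz
  have e1 : xᵀ * D = Sᵀ * (Xᵀ * im Q) * mconj S := by
    calc xᵀ * D = Sᵀ * Xᵀ * (S⁻¹ᵀ * Sᵀ) * im Q * mconj S := by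
          rw [← hon, hx, Matrix.transpose_mul, Matrix.transpose_mul]
          simp only [Matrix.mul_assoc]
      _ = _ := by rw [hSt]; simp only [Matrix.mul_assoc, Matrix.mul_one]
  have e2 : D * z = Sᵀ * (im Q * X) * mconj S := by
    calc D * z = Sᵀ * im Q * (mconj S * mconj S⁻¹) * X * mconj S := by
          rw [← hon, hz]
          simp only [Matrix.mul_assoc]
      _ = _ := by rw [hT]; simp only [Matrix.mul_assoc, Matrix.mul_one]
  have key : xᵀ * D + D * z = 0 := by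
    rw [e1, e2, ← Matrix.add_mul, ← Matrix.mul_add, hX, Matrix.mul_zero, Matrix.zero_mul]
  have hzc : mconj z = x := by
    rw [hz, e06_mul, e06_mul, e06_mconj_mconj, e06_mconj_mconj, hXr]
  have hk := congrFun (congrFun key b) a
  rw [Matrix.add_apply, hD, Matrix.mul_diagonal, Matrix.diagonal_mul, Matrix.transpose_apply,
    Matrix.zero_apply] at hk
  have hI : ∀ k : ℤ, Complex.I ^ k ≠ 0 := fun k => zpow_ne_zero _ Complex.I_ne_zero
  have hzba : z b a = -(x a b * Complex.I ^ (2 * (d b - d a))) := by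
    have h1 : Complex.I ^ (wt - 2 * d b) * z b a = Complex.I ^ (wt - 2 * d b) *
        (-(x a b * Complex.I ^ (2 * (d b - d a)))) := by
      have h2 : Complex.I ^ (wt - 2 * d b) * (-(x a b * Complex.I ^ (2 * (d b - d a)))) =
          -(x a b * (Complex.I ^ (wt - 2 * d b) * Complex.I ^ (2 * (d b - d a)))) := by ring
      rw [h2, ← zpow_add₀ Complex.I_ne_zero]
      have h3 : wt - 2 * d b + 2 * (d b - d a) = wt - 2 * d a := by ring
      rw [h3]
      linear_combination hk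
    exact mul_left_cancel₀ (hI _) h1
  have h4 : x b a = (starRingEnd ℂ) (z b a) := by
    rw [← hzc]
    rfl
  rw [h4, hzba, map_neg, map_mul, e06_conj_zpow]
  have h5 : -(2 * (d b - d a)) = 2 * (d a - d b) := by ring
  rw [h5]

theorem U03_Isq (m : ℤ) : Complex.I ^ (2 * m) = (-1 : ℂ) ^ m := by
  rw [_root_.zpow_mul]
  congr 1
  have : Complex.I ^ (2 : ℤ) = Complex.I ^ (2 : ℕ) := by norm_cast
  rw [this, Complex.I_sq]

/-- `trace (ν D ν D)` for the parity operator `D` -/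
theorem U03_trace {n : ℕ} {wt : ℤ} {Q : Matrix (Fin n) (Fin n) ℤ}
    {Fl : ℤ → Submodule ℂ (Fin n → ℂ)} {S : Matrix (Fin n) (Fin n) ℂ} {d : Fin n → ℤ}
    (hS : Adapted wt Q Fl S d) (X : Matrix (Fin n) (Fin n) ℂ) (hX : Skew Q X)
    (hXr : mconj X = X) (hX0 : X ≠ 0) :
    Matrix.trace ((S⁻¹ * X * S) * Matrix.diagonal (fun a => (-1 : ℂ) ^ d a) *
      ((S⁻¹ * X * S) * Matrix.diagonal (fun a => (-1 : ℂ) ^ d a))) ≠ 0 := by
  have hrel := U03_rel hS X hX hXr
  have hpos := e06_sum_pos (e06_ne (X := X) hS.inv hX0)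
  set x := S⁻¹ * X * S with hx
  have h1 : Matrix.trace (x * Matrix.diagonal (fun a => (-1 : ℂ) ^ d a) *
      (x * Matrix.diagonal (fun a => (-1 : ℂ) ^ d a))) =
      -((∑ a, ∑ b, Complex.normSq (x a b) : ℝ) : ℂ) := by
    push_cast
    rw [Matrix.trace, ← Finset.sum_neg_distrib]
    refine Finset.sum_congr rfl fun a _ => ?_
    rw [Matrix.diag_apply, Matrix.mul_apply, ← Finset.sum_neg_distrib]
    refine Finset.sum_congr rfl fun b _ => ?_
    rw [Matrix.mul_diagonal, Matrix.mul_diagonal, hrel a b, U03_Isq,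
      Complex.normSq_eq_conj_mul_self]
    have h2 : (-1 : ℂ) ^ d b * (-1 : ℂ) ^ (d a - d b) * (-1 : ℂ) ^ d a = 1 := by
      rw [← zpow_add₀ (by norm_num), ← zpow_add₀ (by norm_num)]
      exact Even.neg_one_zpow ⟨d a, by ring⟩
    linear_combination (-((starRingEnd ℂ) (x a b) * x a b)) * h2
  rw [h1, neg_ne_zero, Complex.ofReal_ne_zero]
  exact hpos.ne'

theorem U03_pow_bound {n : ℕ} (M : Matrix (Fin n) (Fin n) ℂ) (H : ℝ) (hH : 0 ≤ H)
    (hM : ∀ a b, ‖M a b‖ ≤ H) (k : ℕ) : ∀ a b, ‖(M ^ k) a b‖ ≤ (((n : ℝ) + 1) * (1 + H)) ^ k := by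
  have hK : 0 ≤ ((n : ℝ) + 1) * (1 + H) := by positivity
  induction k with
  | zero =>
    intro a b
    rw [pow_zero, pow_zero, Matrix.one_apply]
    split_ifs <;> simp
  | succ k ih =>
    intro a b
    rw [pow_succ, Matrix.mul_apply]
    refine (norm_sum_le _ _).trans ?_
    have h1 : ∀ c ∈ (Finset.univ : Finset (Fin n)), ‖(M ^ k) a c * M c b‖ ≤
        (((n : ℝ) + 1) * (1 + H)) ^ k * H := by
      intro c _
      rw [norm_mul]
      exact mul_le_mul (ih a c) (hM c b) (norm_nonneg _) (pow_nonneg hK _)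
    refine (Finset.sum_le_sum h1).trans ?_
    rw [Finset.sum_const, Finset.card_univ, Fintype.card_fin, nsmul_eq_mul, pow_succ]
    have h2 : (n : ℝ) * H ≤ ((n : ℝ) + 1) * (1 + H) := by nlinarith [Nat.cast_nonneg (α := ℝ) n]
    calc (n : ℝ) * ((((n : ℝ) + 1) * (1 + H)) ^ k * H)
        = (((n : ℝ) + 1) * (1 + H)) ^ k * ((n : ℝ) * H) := by ring
      _ ≤ _ := mul_le_mul_of_nonneg_left h2 (pow_nonneg hK _)

theorem U03_trace_bound {n : ℕ} (A B C D : Matrix (Fin n) (Fin n) ℂ) (p q r s : ℝ)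
    (hp : 0 ≤ p) (hq : 0 ≤ q) (hr : 0 ≤ r)
    (hA : ∀ a b, ‖A a b‖ ≤ p) (hB : ∀ a b, ‖B a b‖ ≤ q) (hC : ∀ a b, ‖C a b‖ ≤ r)
    (hD : ∀ a b, ‖D a b‖ ≤ s) :
    ‖Matrix.trace (A * B * (C * D))‖ ≤ (n : ℝ) ^ 4 * (p * q * (r * s)) := by
  have mulb : ∀ (X Y : Matrix (Fin n) (Fin n) ℂ) (x y : ℝ), 0 ≤ x → (∀ a b, ‖X a b‖ ≤ x) →
      (∀ a b, ‖Y a b‖ ≤ y) → ∀ a b, ‖(X * Y) a b‖ ≤ (n : ℝ) * (x * y) := by
    intro X Y x y hx hX hY a b
    rw [Matrix.mul_apply]
    refine (norm_sum_le _ _).trans ?_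
    have h1 : ∀ c ∈ (Finset.univ : Finset (Fin n)), ‖X a c * Y c b‖ ≤ x * y := by
      intro c _
      rw [norm_mul]
      exact mul_le_mul (hX a c) (hY c b) (norm_nonneg _) hx
    refine (Finset.sum_le_sum h1).trans (le_of_eq ?_)
    rw [Finset.sum_const, Finset.card_univ, Fintype.card_fin, nsmul_eq_mul]
  have h1 := mulb A B p q hp hA hB
  have h2 := mulb C D r s hr hC hD
  have h3 := mulb _ _ _ _ (by positivity) h1 h2
  rw [Matrix.trace]
  refine (norm_sum_le _ _).trans ?_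
  refine (Finset.sum_le_sum fun a _ => h3 a a).trans (le_of_eq ?_)
  rw [Finset.sum_const, Finset.card_univ, Fintype.card_fin, nsmul_eq_mul]
  ring

theorem U03_conj_pow {n : ℕ} (A S : Matrix (Fin n) (Fin n) ℂ) (hS : IsUnit S.det) (k : ℕ) :
    (S⁻¹ * A * S) ^ k = S⁻¹ * A ^ k * S := by
  have hSS : S * S⁻¹ = 1 := Matrix.mul_nonsing_inv S hS
  have hSS' : S⁻¹ * S = 1 := Matrix.nonsing_inv_mul S hS
  induction k with
  | zero => rw [pow_zero, pow_zero, Matrix.mul_one, hSS']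
  | succ k ih =>
    rw [pow_succ, ih, pow_succ]
    calc S⁻¹ * A ^ k * S * (S⁻¹ * A * S) = S⁻¹ * A ^ k * (S * S⁻¹) * A * S := by
          simp only [Matrix.mul_assoc]
      _ = _ := by rw [hSS, Matrix.mul_one, Matrix.mul_assoc S⁻¹]

/-- a common denominator of a rational matrix -/
theorem U03_denom {n : ℕ} (N : Matrix (Fin n) (Fin n) ℚ) : ∃ (m : ℕ) (N₀ : Matrix (Fin n) (Fin n) ℤ),
    0 < m ∧ im N₀ = (m : ℂ) • cm N := by
  refine ⟨∏ a, ∏ b, (N a b).den, Matrix.of fun a b =>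
    (N a b).num * ((∏ a', ∏ b', (N a' b').den) / (N a b).den : ℕ), ?_, ?_⟩
  · exact Finset.prod_pos fun a _ => Finset.prod_pos fun b _ => (N a b).pos
  · ext a b
    have hdvd : (N a b).den ∣ ∏ a', ∏ b', (N a' b').den :=
      (Finset.dvd_prod_of_mem (fun b' => (N a b').den) (Finset.mem_univ b)).trans
        (Finset.dvd_prod_of_mem (fun a' => ∏ b', (N a' b').den) (Finset.mem_univ a))
    have hd : ((N a b).den : ℂ) ≠ 0 := by exact_mod_cast (N a b).pos.ne'
    simp only [im, cm, Matrix.map_apply, Matrix.of_apply, Matrix.smul_apply, smul_eq_mul,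
      Int.cast_mul, Int.cast_natCast]
    rw [Nat.cast_div hdvd hd]
    conv_rhs => rw [← Rat.num_div_den (N a b)]
    push_cast
    field_simp

theorem U03_im_pow {n : ℕ} (A : Matrix (Fin n) (Fin n) ℤ) (k : ℕ) : im (A ^ k) = im A ^ k := by
  induction k with
  | zero => rw [pow_zero, pow_zero, S01_im_one]
  | succ k ih => rw [pow_succ, pow_succ, S01_im_mul, ih]

theorem U03_im_trace {n : ℕ} (A : Matrix (Fin n) (Fin n) ℤ) :
    Matrix.trace (im A) = ((Matrix.trace A : ℤ) : ℂ) := by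
  simp [Matrix.trace, im]

theorem im_le_complexity {n : ℕ} (V : PolVHS n) (c : UCusp V) (hN : c.N ≠ 0) :
    ∃ C Y : ℝ, 1 ≤ C ∧ 1 ≤ Y ∧ ∀ z : ℂ, Y ≤ z.im → ∀ H : ℝ, 0 ≤ H → IsCMc V z H →
      z.im ≤ C * (1 + H) ^ n := by
  have hn : 1 < n := by
    by_contra hcon
    apply hN
    have h1 : n = 0 ∨ n = 1 := by omega
    rcases h1 with h1 | h1
    · subst h1
      exact Subsingleton.elim _ _
    · subst h1
      have := c.nil
      rwa [pow_one] at this
  obtain ⟨C₁, Y, hC₁, hY, hMN⟩ := MN_pow V c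
  obtain ⟨m, N₀, hm, hN₀⟩ := U03_denom c.N
  have hm1 : (1 : ℝ) ≤ (m : ℝ) := by exact_mod_cast hm
  refine ⟨(m : ℝ) * (n : ℝ) ^ 2 * C₁ * ((n : ℝ) + 1) ^ n + 1, Y, by
    have : 0 ≤ (m : ℝ) * (n : ℝ) ^ 2 * C₁ * ((n : ℝ) + 1) ^ n := by positivity
    linarith, hY, ?_⟩
  intro z hz H hH hCM
  have hz0 : 0 < z.im := by linarith
  obtain ⟨A, hsep, hpres, htr⟩ := hCM
  obtain ⟨S, d, hS⟩ := exists_adapted (V.phs z hz0)
  have hSS : S * S⁻¹ = 1 := Matrix.mul_nonsing_inv S hS.inv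
  have hSS' : S⁻¹ * S = 1 := Matrix.nonsing_inv_mul S hS.inv
  -- the matrix of `A`
  set M := S⁻¹ * im A * S with hM
  have hMb : ∀ a b, ‖M a b‖ ≤ H := by
    intro a b
    have h1 := rosati_frob (V.phs z hz0) hS A hpres
    rw [h1] at htr
    have h2 : Complex.normSq (M a b) ≤ ∑ a, ∑ b, Complex.normSq (M a b) := by
      refine le_trans ?_ (Finset.single_le_sum (f := fun a => ∑ b, Complex.normSq (M a b))
        (fun i _ => Finset.sum_nonneg fun j _ => Complex.normSq_nonneg _) (Finset.mem_univ a))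
      exact Finset.single_le_sum (f := fun b => Complex.normSq (M a b))
        (fun j _ => Complex.normSq_nonneg _) (Finset.mem_univ b)
    have h3 : ‖M a b‖ ^ 2 ≤ H ^ 2 := by
      rw [← Complex.normSq_eq_norm_sq]
      exact h2.trans htr
    exact (pow_le_pow_iff_left₀ (norm_nonneg _) hH (by norm_num)).1 h3
  -- `M` respects the degrees
  have hdeg : ∀ a b, M a b ≠ 0 → d a = d b := by
    intro a b hab
    have h0 : im A ∈ FEnd (fun p => V.F p z) 0 := by
      intro p x hx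
      rw [add_zero]
      exact hpres p x hx
    have h1 : mconj (im A) ∈ FEnd (fun p => V.F p z) 0 := by
      rw [e07_im_conj]
      exact h0
    have e1 := (mem_FEnd_iff hS (im A) 0).1 h0 a b hab
    have e2 := (conj_mem_FEnd_iff hS (im A) 0).1 h1 a b hab
    omega
  set D : Matrix (Fin n) (Fin n) ℂ := Matrix.diagonal (fun a => (-1 : ℂ) ^ d a) with hD
  have hDM : D * M = M * D := by
    ext a b
    rw [hD, Matrix.diagonal_mul, Matrix.mul_diagonal]
    by_cases hab : M a b = 0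
    · rw [hab, mul_zero, zero_mul]
    · rw [hdeg a b hab, mul_comm]
  -- the parity operator is a polynomial in `A`
  have hcomm : (S * D * S⁻¹) * im A = im A * (S * D * S⁻¹) := by
    have e1 : im A = S * M * S⁻¹ := by
      rw [hM]
      calc im A = (S * S⁻¹) * im A * (S * S⁻¹) := by rw [hSS, Matrix.one_mul, Matrix.mul_one]
        _ = _ := by simp only [Matrix.mul_assoc]
    calc (S * D * S⁻¹) * im A = S * D * (S⁻¹ * S) * M * S⁻¹ := by
          conv_lhs => rw [e1]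
          simp only [Matrix.mul_assoc]
      _ = S * (D * M) * S⁻¹ := by rw [hSS', Matrix.mul_one]; simp only [Matrix.mul_assoc]
      _ = S * (M * D) * S⁻¹ := by rw [hDM]
      _ = S * M * (S⁻¹ * S) * D * S⁻¹ := by
          rw [hSS', Matrix.mul_one]; simp only [Matrix.mul_assoc]
      _ = im A * (S * D * S⁻¹) := by
          conv_rhs => rw [e1]
          simp only [Matrix.mul_assoc]
  obtain ⟨f, hf⟩ := commutant_poly (im A) (S * D * S⁻¹) hsep hcomm
  have hDf : D = ∑ k ∈ Finset.range n, f k • M ^ k := by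
    calc D = (S⁻¹ * S) * D * (S⁻¹ * S) := by rw [hSS', Matrix.one_mul, Matrix.mul_one]
      _ = S⁻¹ * (S * D * S⁻¹) * S := by simp only [Matrix.mul_assoc]
      _ = ∑ k ∈ Finset.range n, f k • M ^ k := by
          rw [hf, Finset.mul_sum, Finset.sum_mul]
          refine Finset.sum_congr rfl fun k _ => ?_
          rw [hM, U03_conj_pow _ _ hS.inv, Matrix.mul_smul, Matrix.smul_mul]
  -- a nonzero trace
  set ν := S⁻¹ * cm c.N * S with hν
  have hcN0 : cm c.N ≠ 0 := by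
    intro h
    apply hN
    ext a b
    have := congrFun (congrFun h a) b
    simpa [cm] using this
  have htr0 : Matrix.trace (ν * D * (ν * D)) ≠ 0 :=
    U03_trace hS (cm c.N) (U03_skew V c) (by ext a b; simp [mconj, cm]) hcN0
  obtain ⟨k, hk, l, hl, hkl⟩ : ∃ k ∈ Finset.range n, ∃ l ∈ Finset.range n,
      Matrix.trace (ν * M ^ k * (ν * M ^ l)) ≠ 0 := by
    by_contra hcon
    push Not at hcon
    apply htr0
    rw [hDf]
    simp only [Finset.mul_sum, Finset.sum_mul, Matrix.trace_sum, Matrix.mul_smul, Matrix.smul_mul,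
      Matrix.trace_smul]
    refine Finset.sum_eq_zero fun i hi => Finset.sum_eq_zero fun j hj => ?_
    rw [hcon j hj i hi]
    simp
  rw [Finset.mem_range] at hk hl
  -- lower bound
  have hlow : (1 : ℝ) ≤ (m : ℝ) ^ 2 * ‖Matrix.trace (ν * M ^ k * (ν * M ^ l))‖ := by
    have e1 : ν * M ^ k * (ν * M ^ l) = S⁻¹ * (cm c.N * im A ^ k * (cm c.N * im A ^ l)) * S := by
      rw [hν, hM, U03_conj_pow _ _ hS.inv, U03_conj_pow _ _ hS.inv]
      calc S⁻¹ * cm c.N * S * (S⁻¹ * im A ^ k * S) * (S⁻¹ * cm c.N * S * (S⁻¹ * im A ^ l * S))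
          = S⁻¹ * cm c.N * (S * S⁻¹) * im A ^ k * (S * S⁻¹) * cm c.N * (S * S⁻¹) * im A ^ l * S := by
            simp only [Matrix.mul_assoc]
        _ = _ := by rw [hSS]; simp only [Matrix.mul_assoc, Matrix.mul_one, Matrix.one_mul]
    have e2 : Matrix.trace (ν * M ^ k * (ν * M ^ l)) =
        Matrix.trace (cm c.N * im A ^ k * (cm c.N * im A ^ l)) := by
      rw [e1, Matrix.mul_assoc S⁻¹, Matrix.trace_mul_comm S⁻¹, Matrix.mul_assoc, hSS, Matrix.mul_one]
    have e3 : ((m : ℂ) ^ 2) * Matrix.trace (cm c.N * im A ^ k * (cm c.N * im A ^ l)) =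
        ((Matrix.trace (N₀ * A ^ k * (N₀ * A ^ l)) : ℤ) : ℂ) := by
      rw [← U03_im_trace, S01_im_mul, S01_im_mul, S01_im_mul, U03_im_pow, U03_im_pow, hN₀]
      simp only [Matrix.smul_mul, Matrix.mul_smul, Matrix.trace_smul, smul_eq_mul]
      ring
    have e4 : Matrix.trace (N₀ * A ^ k * (N₀ * A ^ l)) ≠ 0 := by
      intro h
      rw [h, Int.cast_zero, ← e2] at e3
      rcases mul_eq_zero.1 e3 with h5 | h5
      · have : (m : ℂ) ≠ 0 := by exact_mod_cast hm.ne'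
        exact absurd h5 (pow_ne_zero 2 this)
      · exact hkl h5
    have e5 : (1 : ℝ) ≤ ‖((Matrix.trace (N₀ * A ^ k * (N₀ * A ^ l)) : ℤ) : ℂ)‖ := by
      rw [Complex.norm_intCast]
      exact_mod_cast Int.one_le_abs e4
    rw [← e3, ← e2, norm_mul, norm_pow, Complex.norm_natCast] at e5
    exact e5
  -- upper bound
  set K : ℝ := ((n : ℝ) + 1) * (1 + H) with hK
  have hK1 : 1 ≤ K := by
    rw [hK]
    nlinarith [Nat.cast_nonneg (α := ℝ) n]
  have hνb : ∀ a b, ‖ν a b‖ ≤ C₁ / z.im := by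
    intro a b
    have := hMN z hz S d hS 1 hn a b
    rwa [pow_one, pow_one] at this
  have hMk : ∀ j, j < n → ∀ a b, ‖(M ^ j) a b‖ ≤ K ^ n := by
    intro j hj a b
    exact (U03_pow_bound M H hH hMb j a b).trans (pow_le_pow_right₀ hK1 hj.le)
  have hup := U03_trace_bound ν (M ^ k) ν (M ^ l) (C₁ / z.im) (K ^ n) (C₁ / z.im) (K ^ n)
    (by positivity) (by positivity) (by positivity) hνb (hMk k hk) hνb (hMk l hl)
  -- conclusion
  have hfin : z.im ^ 2 ≤ ((m : ℝ) * (n : ℝ) ^ 2 * C₁ * K ^ n) ^ 2 := by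
    have e1 : (1 : ℝ) ≤ (m : ℝ) ^ 2 * ((n : ℝ) ^ 4 * (C₁ / z.im * K ^ n * (C₁ / z.im * K ^ n))) :=
      hlow.trans (mul_le_mul_of_nonneg_left hup (by positivity))
    have e2 : z.im ^ 2 * 1 ≤ z.im ^ 2 *
        ((m : ℝ) ^ 2 * ((n : ℝ) ^ 4 * (C₁ / z.im * K ^ n * (C₁ / z.im * K ^ n)))) :=
      mul_le_mul_of_nonneg_left e1 (by positivity)
    rw [mul_one] at e2
    refine e2.trans (le_of_eq ?_)
    field_simp
  have hfin' : z.im ≤ (m : ℝ) * (n : ℝ) ^ 2 * C₁ * K ^ n :=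
    (pow_le_pow_iff_left₀ hz0.le (by positivity) (by norm_num)).1 hfin
  refine hfin'.trans ?_
  rw [hK, mul_pow]
  have h7 : 0 ≤ (1 + H) ^ n := by positivity
  calc (m : ℝ) * (n : ℝ) ^ 2 * C₁ * (((n : ℝ) + 1) ^ n * (1 + H) ^ n)
      = ((m : ℝ) * (n : ℝ) ^ 2 * C₁ * ((n : ℝ) + 1) ^ n) * (1 + H) ^ n := by ring
    _ ≤ _ := mul_le_mul_of_nonneg_right (by linarith) h7

end MP2794d1
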