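import Pool.Agent.Lib.MP_2794d1_ag.W00

/-!
W01: Wirtinger calculus for scalar functions, at a point. pd f v z = fderiv R f z v is R-linear in v, so
pd f v z = v.re * pd f 1 z + v.im * pd f I z, which gives pd_eq; everything else follows from the rules for fderiv
(add, sub, mul, const, sum, chain rule) and, for conj, from composition with the continuous R-linear map conj
(Complex.conjCLE). For a complex differentiable f, fderiv R f z v = v * deriv f z
(HasDerivAt / DifferentiableAt.restrictScalars, HasFDerivAt.restrictScalars).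
-/

namespace MP2794d1

open Matrix Complex Filter Topology
open scoped ContDiff

theorem pd_eq {f : ℂ → ℂ} {z : ℂ} (v : ℂ) : pd f v z = v * dz f z + (starRingEnd ℂ) v * db f z := by
  have h1 : v = v.re • (1 : ℂ) + v.im • Complex.I := by
    apply Complex.ext <;> simp
  have h2 : pd f v z = (v.re : ℂ) * pd f 1 z + (v.im : ℂ) * pd f Complex.I z := by
    unfold pd
    conv_lhs => rw [h1, map_add, map_smul, map_smul]
    simp
  rw [h2]
  unfold dz db
  apply Complex.ext
  · simp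
    ring
  · simp
    ring

theorem dz_congr {f g : ℂ → ℂ} {z : ℂ} (h : f =ᶠ[𝓝 z] g) : dz f z = dz g z := by
  unfold dz pd
  rw [h.fderiv_eq]

theorem db_congr {f g : ℂ → ℂ} {z : ℂ} (h : f =ᶠ[𝓝 z] g) : db f z = db g z := by
  unfold db pd
  rw [h.fderiv_eq]

theorem dz_add {f g : ℂ → ℂ} {z : ℂ} (hf : DifferentiableAt ℝ f z) (hg : DifferentiableAt ℝ g z) :
    dz (fun y => f y + g y) z = dz f z + dz g z := by
  unfold dz pd
  rw [fderiv_fun_add hf hg]
  simp only [ContinuousLinearMap.add_apply]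
  ring

theorem db_add {f g : ℂ → ℂ} {z : ℂ} (hf : DifferentiableAt ℝ f z) (hg : DifferentiableAt ℝ g z) :
    db (fun y => f y + g y) z = db f z + db g z := by
  unfold db pd
  rw [fderiv_fun_add hf hg]
  simp only [ContinuousLinearMap.add_apply]
  ring

theorem dz_sub {f g : ℂ → ℂ} {z : ℂ} (hf : DifferentiableAt ℝ f z) (hg : DifferentiableAt ℝ g z) :
    dz (fun y => f y - g y) z = dz f z - dz g z := by
  unfold dz pd
  rw [fderiv_fun_sub hf hg]
  simp only [ContinuousLinearMap.sub_apply]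
  ring

theorem db_sub {f g : ℂ → ℂ} {z : ℂ} (hf : DifferentiableAt ℝ f z) (hg : DifferentiableAt ℝ g z) :
    db (fun y => f y - g y) z = db f z - db g z := by
  unfold db pd
  rw [fderiv_fun_sub hf hg]
  simp only [ContinuousLinearMap.sub_apply]
  ring

theorem dz_mul {f g : ℂ → ℂ} {z : ℂ} (hf : DifferentiableAt ℝ f z) (hg : DifferentiableAt ℝ g z) :
    dz (fun y => f y * g y) z = dz f z * g z + f z * dz g z := by
  unfold dz pd
  rw [fderiv_fun_mul hf hg]
  simp only [ContinuousLinearMap.add_apply, ContinuousLinearMap.smul_apply, smul_eq_mul]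
  ring

theorem db_mul {f g : ℂ → ℂ} {z : ℂ} (hf : DifferentiableAt ℝ f z) (hg : DifferentiableAt ℝ g z) :
    db (fun y => f y * g y) z = db f z * g z + f z * db g z := by
  unfold db pd
  rw [fderiv_fun_mul hf hg]
  simp only [ContinuousLinearMap.add_apply, ContinuousLinearMap.smul_apply, smul_eq_mul]
  ring

theorem dz_const (c z : ℂ) : dz (fun _ => c) z = 0 := by
  unfold dz pd
  rw [fderiv_fun_const]
  simp

theorem db_const (c z : ℂ) : db (fun _ => c) z = 0 := by
  unfold db pd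
  rw [fderiv_fun_const]
  simp

theorem dz_cmul {f : ℂ → ℂ} {z : ℂ} (c : ℂ) (hf : DifferentiableAt ℝ f z) :
    dz (fun y => c * f y) z = c * dz f z := by
  unfold dz pd
  rw [fderiv_const_mul hf]
  simp only [ContinuousLinearMap.smul_apply, smul_eq_mul]
  ring

theorem db_cmul {f : ℂ → ℂ} {z : ℂ} (c : ℂ) (hf : DifferentiableAt ℝ f z) :
    db (fun y => c * f y) z = c * db f z := by
  unfold db pd
  rw [fderiv_const_mul hf]
  simp only [ContinuousLinearMap.smul_apply, smul_eq_mul]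
  ring

theorem dz_sum {ι : Type} (s : Finset ι) {f : ι → ℂ → ℂ} {z : ℂ}
    (hf : ∀ i ∈ s, DifferentiableAt ℝ (f i) z) :
    dz (fun y => ∑ i ∈ s, f i y) z = ∑ i ∈ s, dz (f i) z := by
  unfold dz pd
  rw [fderiv_fun_sum hf]
  simp only [ContinuousLinearMap.sum_apply]
  rw [Finset.mul_sum]
  simp only [← Finset.sum_add_distrib, ← Finset.sum_sub_distrib, Finset.sum_div]

theorem db_sum {ι : Type} (s : Finset ι) {f : ι → ℂ → ℂ} {z : ℂ}
    (hf : ∀ i ∈ s, DifferentiableAt ℝ (f i) z) :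
    db (fun y => ∑ i ∈ s, f i y) z = ∑ i ∈ s, db (f i) z := by
  unfold db pd
  rw [fderiv_fun_sum hf]
  simp only [ContinuousLinearMap.sum_apply]
  rw [Finset.mul_sum]
  simp only [← Finset.sum_add_distrib, ← Finset.sum_sub_distrib, Finset.sum_div]

theorem dz_conj {f : ℂ → ℂ} {z : ℂ} (hf : DifferentiableAt ℝ f z) :
    dz (fun y => (starRingEnd ℂ) (f y)) z = (starRingEnd ℂ) (db f z) := by
  have h1 : fderiv ℝ (fun y => (starRingEnd ℂ) (f y)) z =
      (Complex.conjCLE : ℂ →L[ℝ] ℂ).comp (fderiv ℝ f z) := by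
    have := (Complex.conjCLE : ℂ →L[ℝ] ℂ).hasFDerivAt.comp z hf.hasFDerivAt
    exact this.fderiv
  have h2 : (starRingEnd ℂ) (2 : ℂ) = 2 := Complex.conj_ofNat 2
  unfold dz db pd
  rw [h1]
  simp [h2, sub_eq_add_neg]

theorem db_conj {f : ℂ → ℂ} {z : ℂ} (hf : DifferentiableAt ℝ f z) :
    db (fun y => (starRingEnd ℂ) (f y)) z = (starRingEnd ℂ) (dz f z) := by
  have h1 : fderiv ℝ (fun y => (starRingEnd ℂ) (f y)) z =
      (Complex.conjCLE : ℂ →L[ℝ] ℂ).comp (fderiv ℝ f z) := by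
    have := (Complex.conjCLE : ℂ →L[ℝ] ℂ).hasFDerivAt.comp z hf.hasFDerivAt
    exact this.fderiv
  have h2 : (starRingEnd ℂ) (2 : ℂ) = 2 := Complex.conj_ofNat 2
  unfold dz db pd
  rw [h1]
  simp [h2, sub_eq_add_neg]

theorem dz_hol {f : ℂ → ℂ} {z : ℂ} (hf : DifferentiableAt ℂ f z) : dz f z = deriv f z := by
  have h1 : fderiv ℝ f z = (fderiv ℂ f z).restrictScalars ℝ :=
    (hf.hasFDerivAt.restrictScalars ℝ).fderiv
  have h2 : ∀ v : ℂ, fderiv ℂ f z v = v * deriv f z := by
    intro v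
    rw [fderiv_eq_smul_deriv, smul_eq_mul]
  unfold dz pd
  rw [h1, ContinuousLinearMap.coe_restrictScalars', h2, h2, one_mul, ← mul_assoc, Complex.I_mul_I]
  ring

theorem db_hol {f : ℂ → ℂ} {z : ℂ} (hf : DifferentiableAt ℂ f z) : db f z = 0 := by
  have h1 : fderiv ℝ f z = (fderiv ℂ f z).restrictScalars ℝ :=
    (hf.hasFDerivAt.restrictScalars ℝ).fderiv
  have h2 : ∀ v : ℂ, fderiv ℂ f z v = v * deriv f z := by
    intro v
    rw [fderiv_eq_smul_deriv, smul_eq_mul]
  unfold db pd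
  rw [h1, ContinuousLinearMap.coe_restrictScalars', h2, h2, one_mul, ← mul_assoc, Complex.I_mul_I]
  ring

theorem dz_comp {f σ : ℂ → ℂ} {z : ℂ} (hf : DifferentiableAt ℝ f (σ z))
    (hσ : DifferentiableAt ℂ σ z) : dz (fun y => f (σ y)) z = dz f (σ z) * deriv σ z := by
  have h0 : HasFDerivAt σ ((fderiv ℂ σ z).restrictScalars ℝ) z := hσ.hasFDerivAt.restrictScalars ℝ
  have h1 : fderiv ℝ (fun y => f (σ y)) z = (fderiv ℝ f (σ z)).comp
      ((fderiv ℂ σ z).restrictScalars ℝ) := (hf.hasFDerivAt.comp z h0).fderiv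
  have h2 : ∀ v : ℂ, fderiv ℂ σ z v = v * deriv σ z := by
    intro v
    rw [fderiv_eq_smul_deriv, smul_eq_mul]
  have h3 : ∀ v : ℂ, pd (fun y => f (σ y)) v z = pd f (v * deriv σ z) (σ z) := by
    intro v
    unfold pd
    rw [h1, ContinuousLinearMap.comp_apply, ContinuousLinearMap.coe_restrictScalars', h2]
  have h4 : dz (fun y => f (σ y)) z = (pd (fun y => f (σ y)) 1 z -
      Complex.I * pd (fun y => f (σ y)) Complex.I z) / 2 := rfl
  rw [h4, h3, h3, pd_eq, pd_eq, one_mul, map_mul, Complex.conj_I]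
  have h5 : Complex.I * Complex.I = -1 := Complex.I_mul_I
  linear_combination ((-1 / 2 * deriv σ z * dz f (σ z) + 1 / 2 * (starRingEnd ℂ) (deriv σ z) * db f (σ z))) * h5

theorem db_comp {f σ : ℂ → ℂ} {z : ℂ} (hf : DifferentiableAt ℝ f (σ z))
    (hσ : DifferentiableAt ℂ σ z) :
    db (fun y => f (σ y)) z = db f (σ z) * (starRingEnd ℂ) (deriv σ z) := by
  have h0 : HasFDerivAt σ ((fderiv ℂ σ z).restrictScalars ℝ) z := hσ.hasFDerivAt.restrictScalars ℝ
  have h1 : fderiv ℝ (fun y => f (σ y)) z = (fderiv ℝ f (σ z)).comp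
      ((fderiv ℂ σ z).restrictScalars ℝ) := (hf.hasFDerivAt.comp z h0).fderiv
  have h2 : ∀ v : ℂ, fderiv ℂ σ z v = v * deriv σ z := by
    intro v
    rw [fderiv_eq_smul_deriv, smul_eq_mul]
  have h3 : ∀ v : ℂ, pd (fun y => f (σ y)) v z = pd f (v * deriv σ z) (σ z) := by
    intro v
    unfold pd
    rw [h1, ContinuousLinearMap.comp_apply, ContinuousLinearMap.coe_restrictScalars', h2]
  have h4 : db (fun y => f (σ y)) z = (pd (fun y => f (σ y)) 1 z +
      Complex.I * pd (fun y => f (σ y)) Complex.I z) / 2 := rfl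
  rw [h4, h3, h3, pd_eq, pd_eq, one_mul, map_mul, Complex.conj_I]
  have h5 : Complex.I * Complex.I = -1 := Complex.I_mul_I
  linear_combination ((1 / 2 * deriv σ z * dz f (σ z) - 1 / 2 * (starRingEnd ℂ) (deriv σ z) * db f (σ z))) * h5

end MP2794d1
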