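import Pool.Agent.Lib.MP_2794d1_ag.W00

/-!
W02: Smoothness (C^infinity over R) at a point.
-/

namespace MP2794d1

open Matrix Complex Filter Topology
open scoped ContDiff

theorem smooth_of_analytic {f : ℂ → ℂ} {z : ℂ} (h : AnalyticAt ℂ f z) : ContDiffAt ℝ ∞ f z := by
  have h1 : ContDiffAt ℂ ∞ f z := h.contDiffAt
  exact h1.restrict_scalars ℝ

theorem smooth_conj {f : ℂ → ℂ} {z : ℂ} (h : ContDiffAt ℝ ∞ f z) :
    ContDiffAt ℝ ∞ (fun y => (starRingEnd ℂ) (f y)) z := by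
  have h1 : ContDiff ℝ ∞ (fun w : ℂ => (Complex.conjCLE : ℂ →L[ℝ] ℂ) w) :=
    (Complex.conjCLE : ℂ →L[ℝ] ℂ).contDiff
  exact h1.contDiffAt.comp z h

theorem smooth_pd {f : ℂ → ℂ} {z : ℂ} (h : ContDiffAt ℝ ∞ f z) (v : ℂ) :
    ContDiffAt ℝ ∞ (fun y => pd f v y) z := by
  have h1 : ContDiffAt ℝ ∞ (fderiv ℝ f) z := h.fderiv_right (m := ∞) (by simp)
  exact h1.clm_apply contDiffAt_const

theorem smooth_dz {f : ℂ → ℂ} {z : ℂ} (h : ContDiffAt ℝ ∞ f z) : ContDiffAt ℝ ∞ (dz f) z := by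
  have h1 : dz f = fun y => (pd f 1 y - Complex.I * pd f Complex.I y) / 2 := rfl
  rw [h1]
  exact ((smooth_pd h 1).sub (contDiffAt_const.mul (smooth_pd h Complex.I))).div_const 2

theorem smooth_db {f : ℂ → ℂ} {z : ℂ} (h : ContDiffAt ℝ ∞ f z) : ContDiffAt ℝ ∞ (db f) z := by
  have h1 : db f = fun y => (pd f 1 y + Complex.I * pd f Complex.I y) / 2 := rfl
  rw [h1]
  exact ((smooth_pd h 1).add (contDiffAt_const.mul (smooth_pd h Complex.I))).div_const 2

theorem smooth_diff {f : ℂ → ℂ} {z : ℂ} (h : ContDiffAt ℝ ∞ f z) : DifferentiableAt ℝ f z :=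
  h.differentiableAt (by simp)

theorem smooth_det {r : ℕ} {A : ℂ → Matrix (Fin r) (Fin r) ℂ} {z : ℂ}
    (h : ∀ i j, ContDiffAt ℝ ∞ (fun y => A y i j) z) : ContDiffAt ℝ ∞ (fun y => (A y).det) z := by
  have h1 : (fun y => (A y).det) = fun y => ∑ σ : Equiv.Perm (Fin r),
      ((Equiv.Perm.sign σ : ℤ) : ℂ) * ∏ i, A y (σ i) i := by
    funext y
    rw [Matrix.det_apply']
  rw [h1]
  apply ContDiffAt.sum
  intro σ _
  apply contDiffAt_const.mul
  exact contDiffAt_prod fun i _ => h (σ i) i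

theorem smooth_inv {r : ℕ} {A : ℂ → Matrix (Fin r) (Fin r) ℂ} {z : ℂ}
    (h : ∀ i j, ContDiffAt ℝ ∞ (fun y => A y i j) z) (hdet : (A z).det ≠ 0) (i j : Fin r) :
    ContDiffAt ℝ ∞ (fun y => (A y)⁻¹ i j) z := by
  have h1 : (fun y => (A y)⁻¹ i j) = fun y => ((A y).det)⁻¹ *
      ((A y).updateRow j (Pi.single i 1)).det := by
    funext y
    rw [Matrix.inv_def, Matrix.smul_apply, Matrix.adjugate_apply, Ring.inverse_eq_inv', smul_eq_mul]
  rw [h1]
  apply ContDiffAt.mul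
  · exact (smooth_det h).inv hdet
  · apply smooth_det
    intro a b
    by_cases hja : a = j
    · subst hja
      simp only [Matrix.updateRow_self]
      exact contDiffAt_const
    · simp only [Matrix.updateRow_ne hja]
      exact h a b

theorem W02_pdpd {f : ℂ → ℂ} {z : ℂ} (h : ContDiffAt ℝ ∞ f z) (v w : ℂ) :
    pd (fun y => pd f v y) w z = fderiv ℝ (fderiv ℝ f) z w v := by
  have h1 : ContDiffAt ℝ ∞ (fderiv ℝ f) z := h.fderiv_right (m := ∞) (by simp)
  have h2 : DifferentiableAt ℝ (fderiv ℝ f) z := h1.differentiableAt (by simp)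
  unfold pd
  rw [fderiv_clm_apply h2 (differentiableAt_const v)]
  simp

theorem W02_symm {f : ℂ → ℂ} {z : ℂ} (h : ContDiffAt ℝ ∞ f z) (v w : ℂ) :
    pd (fun y => pd f v y) w z = pd (fun y => pd f w y) v z := by
  rw [W02_pdpd h, W02_pdpd h]
  have h1 : IsSymmSndFDerivAt ℝ f z := h.isSymmSndFDerivAt (by
    rw [minSmoothness_of_isRCLikeNormedField]
    exact (WithTop.coe_le_coe.2 le_top : ((2 : ℕ∞) : WithTop ℕ∞) ≤ ((⊤ : ℕ∞) : WithTop ℕ∞)))
  exact h1 w v

theorem W02_pd_dz {f : ℂ → ℂ} {z : ℂ} (h : ContDiffAt ℝ ∞ f z) (w : ℂ) :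
    pd (dz f) w z = (pd (fun y => pd f 1 y) w z -
      Complex.I * pd (fun y => pd f Complex.I y) w z) / 2 := by
  have h1 : HasFDerivAt (dz f) ((1 / 2 : ℂ) • (fderiv ℝ (fun y => pd f 1 y) z -
      Complex.I • fderiv ℝ (fun y => pd f Complex.I y) z)) z := by
    have e : dz f = fun y => (1 / 2 : ℂ) * (pd f 1 y - Complex.I * pd f Complex.I y) := by
      funext y
      show (pd f 1 y - Complex.I * pd f Complex.I y) / 2 = _
      ring
    rw [e]
    exact (((smooth_diff (smooth_pd h 1)).hasFDerivAt).sub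
      (((smooth_diff (smooth_pd h Complex.I)).hasFDerivAt).const_mul Complex.I)).const_mul (1 / 2 : ℂ)
  show fderiv ℝ (dz f) z w = _
  rw [h1.fderiv]
  simp only [_root_.smul_apply, _root_.sub_apply, smul_eq_mul]
  unfold pd
  ring

theorem W02_pd_db {f : ℂ → ℂ} {z : ℂ} (h : ContDiffAt ℝ ∞ f z) (w : ℂ) :
    pd (db f) w z = (pd (fun y => pd f 1 y) w z +
      Complex.I * pd (fun y => pd f Complex.I y) w z) / 2 := by
  have h1 : HasFDerivAt (db f) ((1 / 2 : ℂ) • (fderiv ℝ (fun y => pd f 1 y) z +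
      Complex.I • fderiv ℝ (fun y => pd f Complex.I y) z)) z := by
    have e : db f = fun y => (1 / 2 : ℂ) * (pd f 1 y + Complex.I * pd f Complex.I y) := by
      funext y
      show (pd f 1 y + Complex.I * pd f Complex.I y) / 2 = _
      ring
    rw [e]
    exact (((smooth_diff (smooth_pd h 1)).hasFDerivAt).add
      (((smooth_diff (smooth_pd h Complex.I)).hasFDerivAt).const_mul Complex.I)).const_mul (1 / 2 : ℂ)
  show fderiv ℝ (db f) z w = _
  rw [h1.fderiv]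
  simp only [_root_.smul_apply, _root_.add_apply, smul_eq_mul]
  unfold pd
  ring

theorem dz_db_comm {f : ℂ → ℂ} {z : ℂ} (h : ContDiffAt ℝ ∞ f z) : dz (db f) z = db (dz f) z := by
  have h1 : dz (db f) z = (pd (db f) 1 z - Complex.I * pd (db f) Complex.I z) / 2 := rfl
  have h2 : db (dz f) z = (pd (dz f) 1 z + Complex.I * pd (dz f) Complex.I z) / 2 := rfl
  rw [h1, h2, W02_pd_dz h, W02_pd_dz h, W02_pd_db h, W02_pd_db h, W02_symm h 1 Complex.I]
  ring

theorem db_dz_eq {f : ℂ → ℂ} {z : ℂ} (h : ContDiffAt ℝ ∞ f z) :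
    db (dz f) z = (pd (fun y => pd f 1 y) 1 z + pd (fun y => pd f Complex.I y) Complex.I z) / 4 := by
  have h2 : db (dz f) z = (pd (dz f) 1 z + Complex.I * pd (dz f) Complex.I z) / 2 := rfl
  rw [h2, W02_pd_dz h, W02_pd_dz h, W02_symm h 1 Complex.I]
  have h5 : Complex.I * Complex.I = -1 := Complex.I_mul_I
  linear_combination (-1 / 4 * pd (fun y => pd f Complex.I y) Complex.I z) * h5

end MP2794d1
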