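import Pool.Agent.Lib.MP_2794d1_ag.W01
import Pool.Agent.Lib.MP_2794d1_ag.W02

/-!
W03: Matrix valued Wirtinger calculus: all statements are entrywise consequences of W01 and W02 (entries of a product
are finite sums of products; mconj is the entrywise conjugate; br X Y = X * Y - Y * X; Dz_congr from dz_congr). SmA X z says
that all entries are smooth at z.
-/

namespace MP2794d1

open Matrix Complex Filter Topology
open scoped ContDiff

/-- smooth at a point -/
def SmA {n m : ℕ} (X : ℂ → Matrix (Fin n) (Fin m) ℂ) (z : ℂ) : Prop :=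
  ∀ i j, ContDiffAt ℝ ∞ (fun y => X y i j) z

variable {n m k : ℕ} {z : ℂ}

theorem SmA.const (A : Matrix (Fin n) (Fin m) ℂ) : SmA (fun _ => A) z := by
  intro i j
  exact contDiffAt_const

theorem SmA.congr {X Y : ℂ → Matrix (Fin n) (Fin m) ℂ} (hX : SmA X z) (h : X =ᶠ[𝓝 z] Y) :
    SmA Y z := by
  intro i j
  apply (hX i j).congr_of_eventuallyEq
  filter_upwards [h] with y hy
  rw [hy]

theorem SmA.add {X Y : ℂ → Matrix (Fin n) (Fin m) ℂ} (hX : SmA X z) (hY : SmA Y z) :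
    SmA (fun y => X y + Y y) z := by
  intro i j
  exact (hX i j).add (hY i j)

theorem SmA.sub {X Y : ℂ → Matrix (Fin n) (Fin m) ℂ} (hX : SmA X z) (hY : SmA Y z) :
    SmA (fun y => X y - Y y) z := by
  intro i j
  exact (hX i j).sub (hY i j)

theorem SmA.mul {X : ℂ → Matrix (Fin n) (Fin m) ℂ} {Y : ℂ → Matrix (Fin m) (Fin k) ℂ}
    (hX : SmA X z) (hY : SmA Y z) : SmA (fun y => X y * Y y) z := by
  intro i j
  have h1 : (fun y => (X y * Y y) i j) = fun y => ∑ l, X y i l * Y y l j := by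
    funext y
    rw [Matrix.mul_apply]
  rw [h1]
  exact ContDiffAt.sum fun l _ => (hX i l).mul (hY l j)

theorem SmA.smulc {X : ℂ → Matrix (Fin n) (Fin m) ℂ} (c : ℂ) (hX : SmA X z) :
    SmA (fun y => c • X y) z := by
  intro i j
  exact contDiffAt_const.mul (hX i j)

theorem SmA.sum {ι : Type} (s : Finset ι) {X : ι → ℂ → Matrix (Fin n) (Fin m) ℂ}
    (hX : ∀ i ∈ s, SmA (X i) z) : SmA (fun y => ∑ i ∈ s, X i y) z := by
  intro i j
  have h1 : (fun y => (∑ l ∈ s, X l y) i j) = fun y => ∑ l ∈ s, X l y i j := by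
    funext y
    rw [Matrix.sum_apply]
  rw [h1]
  exact ContDiffAt.sum fun l hl => hX l hl i j

theorem SmA.transpose {X : ℂ → Matrix (Fin n) (Fin m) ℂ} (hX : SmA X z) :
    SmA (fun y => (X y)ᵀ) z := by
  intro i j
  exact hX j i

theorem SmA.mconj {X : ℂ → Matrix (Fin n) (Fin n) ℂ} (hX : SmA X z) :
    SmA (fun y => MP2794d1.mconj (X y)) z := by
  intro i j
  exact smooth_conj (hX i j)

theorem SmA.br {X Y : ℂ → Matrix (Fin n) (Fin n) ℂ} (hX : SmA X z) (hY : SmA Y z) :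
    SmA (fun y => MP2794d1.br (X y) (Y y)) z := by
  have h1 : (fun y => MP2794d1.br (X y) (Y y)) = fun y => X y * Y y - Y y * X y := rfl
  rw [h1]
  exact (hX.mul hY).sub (hY.mul hX)

theorem SmA.Dz {X : ℂ → Matrix (Fin n) (Fin m) ℂ} (hX : SmA X z) : SmA (MP2794d1.Dz X) z := by
  intro i j
  exact smooth_dz (hX i j)

theorem SmA.Db {X : ℂ → Matrix (Fin n) (Fin m) ℂ} (hX : SmA X z) : SmA (MP2794d1.Db X) z := by
  intro i j
  exact smooth_db (hX i j)

theorem SmA.trace {X : ℂ → Matrix (Fin n) (Fin n) ℂ} (hX : SmA X z) :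
    ContDiffAt ℝ ∞ (fun y => Matrix.trace (X y)) z := by
  have h1 : (fun y => Matrix.trace (X y)) = fun y => ∑ l, X y l l := rfl
  rw [h1]
  exact ContDiffAt.sum fun l _ => hX l l

theorem SmA.of_analytic {X : ℂ → Matrix (Fin n) (Fin m) ℂ}
    (hX : ∀ i j, AnalyticAt ℂ (fun y => X y i j) z) : SmA X z := by
  intro i j
  exact smooth_of_analytic (hX i j)

theorem SmA.inv {X : ℂ → Matrix (Fin n) (Fin n) ℂ} (hX : SmA X z) (hdet : (X z).det ≠ 0) :
    SmA (fun y => (X y)⁻¹) z := by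
  intro i j
  exact smooth_inv hX hdet i j

theorem Dz_congr {X Y : ℂ → Matrix (Fin n) (Fin m) ℂ} (h : X =ᶠ[𝓝 z] Y) : Dz X z = Dz Y z := by
  ext i j
  apply dz_congr
  filter_upwards [h] with y hy
  rw [hy]

theorem Db_congr {X Y : ℂ → Matrix (Fin n) (Fin m) ℂ} (h : X =ᶠ[𝓝 z] Y) : Db X z = Db Y z := by
  ext i j
  apply db_congr
  filter_upwards [h] with y hy
  rw [hy]

theorem Dz_const (A : Matrix (Fin n) (Fin m) ℂ) : Dz (fun _ => A) z = 0 := by
  ext i j
  exact dz_const _ _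

theorem Db_const (A : Matrix (Fin n) (Fin m) ℂ) : Db (fun _ => A) z = 0 := by
  ext i j
  exact db_const _ _

theorem Dz_add {X Y : ℂ → Matrix (Fin n) (Fin m) ℂ} (hX : SmA X z) (hY : SmA Y z) :
    Dz (fun y => X y + Y y) z = Dz X z + Dz Y z := by
  ext i j
  exact dz_add (smooth_diff (hX i j)) (smooth_diff (hY i j))

theorem Db_add {X Y : ℂ → Matrix (Fin n) (Fin m) ℂ} (hX : SmA X z) (hY : SmA Y z) :
    Db (fun y => X y + Y y) z = Db X z + Db Y z := by
  ext i j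
  exact db_add (smooth_diff (hX i j)) (smooth_diff (hY i j))

theorem Dz_sub {X Y : ℂ → Matrix (Fin n) (Fin m) ℂ} (hX : SmA X z) (hY : SmA Y z) :
    Dz (fun y => X y - Y y) z = Dz X z - Dz Y z := by
  ext i j
  exact dz_sub (smooth_diff (hX i j)) (smooth_diff (hY i j))

theorem Db_sub {X Y : ℂ → Matrix (Fin n) (Fin m) ℂ} (hX : SmA X z) (hY : SmA Y z) :
    Db (fun y => X y - Y y) z = Db X z - Db Y z := by
  ext i j
  exact db_sub (smooth_diff (hX i j)) (smooth_diff (hY i j))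

theorem Dz_mul {X : ℂ → Matrix (Fin n) (Fin m) ℂ} {Y : ℂ → Matrix (Fin m) (Fin k) ℂ}
    (hX : SmA X z) (hY : SmA Y z) :
    Dz (fun y => X y * Y y) z = Dz X z * Y z + X z * Dz Y z := by
  ext i j
  have h1 : (fun y => (X y * Y y) i j) = fun y => ∑ l ∈ Finset.univ, X y i l * Y y l j := by
    funext y
    rw [Matrix.mul_apply]
  show dz (fun y => (X y * Y y) i j) z = _
  rw [h1, dz_sum (f := fun l y => X y i l * Y y l j) _
    fun l _ => (smooth_diff (hX i l)).mul (smooth_diff (hY l j))]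
  rw [Matrix.add_apply, Matrix.mul_apply, Matrix.mul_apply, ← Finset.sum_add_distrib]
  apply Finset.sum_congr rfl
  intro l _
  rw [dz_mul (smooth_diff (hX i l)) (smooth_diff (hY l j))]
  rfl

theorem Db_mul {X : ℂ → Matrix (Fin n) (Fin m) ℂ} {Y : ℂ → Matrix (Fin m) (Fin k) ℂ}
    (hX : SmA X z) (hY : SmA Y z) :
    Db (fun y => X y * Y y) z = Db X z * Y z + X z * Db Y z := by
  ext i j
  have h1 : (fun y => (X y * Y y) i j) = fun y => ∑ l ∈ Finset.univ, X y i l * Y y l j := by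
    funext y
    rw [Matrix.mul_apply]
  show db (fun y => (X y * Y y) i j) z = _
  rw [h1, db_sum (f := fun l y => X y i l * Y y l j) _
    fun l _ => (smooth_diff (hX i l)).mul (smooth_diff (hY l j))]
  rw [Matrix.add_apply, Matrix.mul_apply, Matrix.mul_apply, ← Finset.sum_add_distrib]
  apply Finset.sum_congr rfl
  intro l _
  rw [db_mul (smooth_diff (hX i l)) (smooth_diff (hY l j))]
  rfl

theorem Dz_smulc {X : ℂ → Matrix (Fin n) (Fin m) ℂ} (c : ℂ) (hX : SmA X z) :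
    Dz (fun y => c • X y) z = c • Dz X z := by
  ext i j
  exact dz_cmul c (smooth_diff (hX i j))

theorem Db_smulc {X : ℂ → Matrix (Fin n) (Fin m) ℂ} (c : ℂ) (hX : SmA X z) :
    Db (fun y => c • X y) z = c • Db X z := by
  ext i j
  exact db_cmul c (smooth_diff (hX i j))

theorem Dz_sum {ι : Type} (s : Finset ι) {X : ι → ℂ → Matrix (Fin n) (Fin m) ℂ}
    (hX : ∀ i ∈ s, SmA (X i) z) : Dz (fun y => ∑ i ∈ s, X i y) z = ∑ i ∈ s, Dz (X i) z := by
  ext i j
  have h1 : (fun y => (∑ l ∈ s, X l y) i j) = fun y => ∑ l ∈ s, X l y i j := by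
    funext y
    rw [Matrix.sum_apply]
  show dz (fun y => (∑ l ∈ s, X l y) i j) z = _
  rw [h1, dz_sum _ fun l hl => smooth_diff (hX l hl i j), Matrix.sum_apply]
  rfl

theorem Db_sum {ι : Type} (s : Finset ι) {X : ι → ℂ → Matrix (Fin n) (Fin m) ℂ}
    (hX : ∀ i ∈ s, SmA (X i) z) : Db (fun y => ∑ i ∈ s, X i y) z = ∑ i ∈ s, Db (X i) z := by
  ext i j
  have h1 : (fun y => (∑ l ∈ s, X l y) i j) = fun y => ∑ l ∈ s, X l y i j := by
    funext y
    rw [Matrix.sum_apply]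
  show db (fun y => (∑ l ∈ s, X l y) i j) z = _
  rw [h1, db_sum _ fun l hl => smooth_diff (hX l hl i j), Matrix.sum_apply]
  rfl

theorem Dz_transpose {X : ℂ → Matrix (Fin n) (Fin m) ℂ} :
    Dz (fun y => (X y)ᵀ) z = (Dz X z)ᵀ := by
  rfl

theorem Db_transpose {X : ℂ → Matrix (Fin n) (Fin m) ℂ} :
    Db (fun y => (X y)ᵀ) z = (Db X z)ᵀ := by
  rfl

theorem Dz_mconj {X : ℂ → Matrix (Fin n) (Fin n) ℂ} (hX : SmA X z) :
    Dz (fun y => mconj (X y)) z = mconj (Db X z) := by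
  ext i j
  exact dz_conj (smooth_diff (hX i j))

theorem Db_mconj {X : ℂ → Matrix (Fin n) (Fin n) ℂ} (hX : SmA X z) :
    Db (fun y => mconj (X y)) z = mconj (Dz X z) := by
  ext i j
  exact db_conj (smooth_diff (hX i j))

theorem Dz_br {X Y : ℂ → Matrix (Fin n) (Fin n) ℂ} (hX : SmA X z) (hY : SmA Y z) :
    Dz (fun y => br (X y) (Y y)) z = br (Dz X z) (Y z) + br (X z) (Dz Y z) := by
  have h1 : (fun y => br (X y) (Y y)) = fun y => X y * Y y - Y y * X y := rfl
  rw [h1, Dz_sub (hX.mul hY) (hY.mul hX), Dz_mul hX hY, Dz_mul hY hX]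
  unfold br
  abel

theorem Db_br {X Y : ℂ → Matrix (Fin n) (Fin n) ℂ} (hX : SmA X z) (hY : SmA Y z) :
    Db (fun y => br (X y) (Y y)) z = br (Db X z) (Y z) + br (X z) (Db Y z) := by
  have h1 : (fun y => br (X y) (Y y)) = fun y => X y * Y y - Y y * X y := rfl
  rw [h1, Db_sub (hX.mul hY) (hY.mul hX), Db_mul hX hY, Db_mul hY hX]
  unfold br
  abel

theorem dz_trace {X : ℂ → Matrix (Fin n) (Fin n) ℂ} (hX : SmA X z) :
    dz (fun y => Matrix.trace (X y)) z = Matrix.trace (Dz X z) := by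
  have h1 : (fun y => Matrix.trace (X y)) = fun y => ∑ l ∈ Finset.univ, X y l l := rfl
  rw [h1, dz_sum _ fun l _ => smooth_diff (hX l l)]
  rfl

theorem db_trace {X : ℂ → Matrix (Fin n) (Fin n) ℂ} (hX : SmA X z) :
    db (fun y => Matrix.trace (X y)) z = Matrix.trace (Db X z) := by
  have h1 : (fun y => Matrix.trace (X y)) = fun y => ∑ l ∈ Finset.univ, X y l l := rfl
  rw [h1, db_sum _ fun l _ => smooth_diff (hX l l)]
  rfl

theorem Db_analytic {X : ℂ → Matrix (Fin n) (Fin m) ℂ}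
    (hX : ∀ i j, AnalyticAt ℂ (fun y => X y i j) z) : Db X z = 0 := by
  ext i j
  exact db_hol (hX i j).differentiableAt

theorem Dz_Db_comm {X : ℂ → Matrix (Fin n) (Fin m) ℂ} (hX : SmA X z) :
    Dz (Db X) z = Db (Dz X) z := by
  ext i j
  exact dz_db_comm (hX i j)

end MP2794d1
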